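import Pool.Agent.Helper635_PD4.PPCellAux

/-!
# Auxiliary lemmas for module F2: from `HZero` to `Acy`, and cones
-/

open scoped Classical

namespace Pool.Agent.Helper635.PD4

section hzero
variable {T : Type*} [PartialOrder T]

theorem bd_apply' {i : ℕ} (y : Simp T (i + 1) →₀ ℤ) (A : Simp T i) :
    bd y A = y.sum fun B c => dE A.s B.s * c := by
  unfold bd
  rw [Finsupp.liftAddHom_apply, Finsupp.sum_apply]
  apply Finsupp.sum_congr
  intro B _
  rw [AddMonoidHom.finsetSum_apply, Finsupp.finsetSum_apply]
  unfold dE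
  rw [Finset.sum_mul, ← Finset.sum_coe_sort B.s]
  apply Finset.sum_congr rfl
  intro a _
  rw [AddMonoidHom.smul_apply, Finsupp.smul_apply, Finsupp.singleAddHom_apply,
    Finsupp.single_apply]
  have h : face B a = A ↔ A.s = B.s.erase a.1 := by
    constructor
    · rintro rfl; rfl
    · intro h; apply Simp.ext; exact h.symm
  by_cases hA : A.s = B.s.erase a.1
  · rw [if_pos (h.2 hA), if_pos hA, smul_eq_mul]
  · rw [if_neg (fun h' => hA (h.1 h')), if_neg hA, smul_zero, zero_mul]

theorem hzero_acy (k : ℕ) (hk : 1 ≤ k) (h : HZero T k) : Acy dE Finset.card (k + 1) (NC T) := by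
  obtain ⟨k, rfl⟩ : ∃ l, k = l + 1 := ⟨k - 1, by omega⟩
  intro z hz hc
  have hinj : ∀ i : ℕ, Function.Injective (fun A : Simp T i => A.s) := by
    intro i A B hAB
    exact Simp.ext hAB
  have hbij : Set.BijOn (fun A : Simp T (k + 1) => A.s)
      ((fun A : Simp T (k + 1) => A.s) ⁻¹' (z.support : Set (Finset T))) z.support := by
    refine ⟨fun A hA => hA, (hinj _).injOn, ?_⟩
    intro v hv
    have h1 := hz v (Finsupp.mem_support_iff.1 (Finset.mem_coe.1 hv))
    exact ⟨⟨v, h1.1.2, h1.2⟩, hv, rfl⟩
  obtain ⟨y', hy'⟩ := h (z.comapDomain (fun A : Simp T (k + 1) => A.s) hbij.injOn) (by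
    ext B
    rw [bd_apply']
    have hB : B.s ∈ NC T := ⟨Finset.card_pos.1 (by rw [B.card]; omega), B.chain⟩
    rw [Finsupp.zero_apply, ← hc B.s hB]
    exact Finsupp.sum_comapDomain (fun A : Simp T (k + 1) => A.s) z
      (fun v c => dE B.s v * c) hbij)
  refine ⟨y'.embDomain ⟨fun A : Simp T (k + 2) => A.s, hinj _⟩, ?_, ?_⟩
  · intro x hx
    have hx1 : x ∈ Set.range (fun A : Simp T (k + 2) => A.s) := by
      by_contra hne
      exact hx (Finsupp.embDomain_of_notMem_range _ _ _ hne)
    obtain ⟨A, rfl⟩ := hx1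
    exact ⟨⟨Finset.card_pos.1 (by rw [A.card]; omega), A.chain⟩, A.card⟩
  · intro u hu
    have e1 : bf dE (y'.embDomain ⟨fun A : Simp T (k + 2) => A.s, hinj _⟩) u =
        y'.sum fun B c => dE u B.s * c := by
      unfold bf
      rw [Finsupp.sum_embDomain]
      rfl
    rw [e1]
    by_cases hcard : u.card = k + 1 + 1
    · have h2 := congrArg (fun w => w (⟨u, hu.2, hcard⟩ : Simp T (k + 1))) hy'
      simp only [Finsupp.comapDomain_apply] at h2
      rw [h2, bd_apply']
    · have h1 : z u = 0 := by
        by_contra h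
        exact hcard (hz u h).2
      rw [h1, Finsupp.sum]
      symm
      apply Finset.sum_eq_zero
      intro B _
      have : dE u B.s = 0 := by
        by_contra hne
        have h2 := dE_card hne
        rw [B.card] at h2
        omega
      rw [this, zero_mul]

end hzero

section cone
variable {Q : Type*} [PartialOrder Q]

/-- nonempty chains with elements in `Y` -/
def NCin (Y : Set Q) : Set (Finset Q) :=
  {A | A.Nonempty ∧ IsChain (· ≤ ·) (A : Set Q) ∧ ∀ a ∈ A, a ∈ Y}

theorem dE_map {T : Type*} [PartialOrder T] (e : T ↪ Q) (he : ∀ a b, e a < e b ↔ a < b)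
    (u v : Finset T) : dE (u.map e) (v.map e) = dE u v := by
  unfold dE
  rw [Finset.sum_map]
  apply Finset.sum_congr rfl
  intro a _
  have h1 : u.map e = (v.map e).erase (e a) ↔ u = v.erase a := by
    rw [← Finset.map_erase]
    exact Finset.map_inj
  have h2 : pos (v.map e) (e a) = pos v a := by
    unfold pos
    rw [Finset.filter_map, Finset.card_map]
    congr 1
    ext x
    simp only [Finset.mem_filter, Function.comp, he]
  rw [h2]
  by_cases h : u = v.erase a
  · rw [if_pos h, if_pos (h1.2 h)]
  · rw [if_neg h, if_neg (fun h' => h (h1.1 h'))]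

theorem acy_in (Y : Set Q) (k : ℕ) (h : Acy dE Finset.card k (NC {x : Q // x ∈ Y})) :
    Acy dE Finset.card k (NCin Y) := by
  apply acy_image dE dE Finset.card Finset.card k k (NC {x : Q // x ∈ Y}) (NCin Y)
    (fun A => A.map (Function.Embedding.subtype _)) (fun _ => 1)
  · intro a _ b _ hab
    exact Finset.map_injective _ hab
  · ext A
    constructor
    · rintro ⟨B, hB, rfl⟩
      refine ⟨hB.1.map, ?_, ?_⟩
      · intro x hx y hy hne
        rw [Finset.mem_coe, Finset.mem_map] at hx hy
        obtain ⟨x', hx', rfl⟩ := hx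
        obtain ⟨y', hy', rfl⟩ := hy
        exact hB.2 (Finset.mem_coe.2 hx') (Finset.mem_coe.2 hy') (fun h => hne (by rw [h]))
      · intro a ha
        rw [Finset.mem_map] at ha
        obtain ⟨x, _, rfl⟩ := ha
        exact x.2
    · rintro ⟨h1, h2, h3⟩
      refine ⟨A.subtype (fun x => x ∈ Y), ⟨?_, ?_⟩, ?_⟩
      · obtain ⟨x, hx⟩ := h1
        exact ⟨⟨x, h3 x hx⟩, Finset.mem_subtype.2 hx⟩
      · intro x hx y hy hne
        rw [Finset.mem_coe, Finset.mem_subtype] at hx hy
        exact h2 (Finset.mem_coe.2 hx) (Finset.mem_coe.2 hy) (fun h => hne (Subtype.ext h))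
      · exact Finset.subtype_map_of_mem h3
  · intro v _; norm_num
  · intro u _ v _
    show dE (u.map _) (v.map _) = _
    rw [dE_map _ (fun a b => Iff.rfl)]
    ring
  · intro v _
    show (v.map _).card = k ↔ _
    rw [Finset.card_map]
  · intro v _
    show (v.map _).card = k + 1 ↔ _
    rw [Finset.card_map]
  · exact h

theorem acy_cone (v : Q) (Y : Set Q) (hY : ∀ x ∈ Y, x < v) (k : ℕ)
    (h : Acy dE Finset.card k (NCin Y)) :
    Acy dE Finset.card (k + 1) {A | v ∈ A ∧ A.erase v ∈ NCin Y} := by
  have hv : ∀ A ∈ NCin Y, v ∉ A := by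
    intro A hA hvA
    exact lt_irrefl v (hY v (hA.2.2 v hvA))
  apply acy_image dE dE Finset.card Finset.card k (k + 1) (NCin Y) _
    (fun A => insert v A) (fun _ => 1)
  · intro a ha b hb hab
    have h1 := congrArg (fun w => w.erase v) hab
    simp only [Finset.erase_insert (hv a ha), Finset.erase_insert (hv b hb)] at h1
    exact h1
  · ext A
    constructor
    · rintro ⟨B, hB, rfl⟩
      refine ⟨Finset.mem_insert_self _ _, ?_⟩
      rw [Finset.erase_insert (hv B hB)]
      exact hB
    · rintro ⟨h1, h2⟩
      exact ⟨A.erase v, h2, Finset.insert_erase h1⟩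
  · intro v _; norm_num
  · intro A hA B hB
    show dE (insert v A) (insert v B) = 1 * 1 * dE A B
    rw [one_mul, one_mul]
    unfold dE
    rw [Finset.sum_insert (hv B hB)]
    have h0 : ¬ (insert v A = (insert v B).erase v) := by
      intro h
      have := Finset.mem_insert_self v A
      rw [h] at this
      exact Finset.notMem_erase v _ this
    rw [if_neg h0, zero_add]
    apply Finset.sum_congr rfl
    intro a ha
    have hav : a ≠ v := fun h => hv B hB (h ▸ ha)
    have h1 : insert v A = (insert v B).erase a ↔ A = B.erase a := by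
      rw [Finset.erase_insert_of_ne hav.symm]
      constructor
      · intro h
        have h2 := congrArg (fun w => w.erase v) h
        simp only [Finset.erase_insert (hv A hA)] at h2
        rw [Finset.erase_insert (fun h3 => hv B hB (Finset.mem_of_mem_erase h3))] at h2
        exact h2
      · intro h; rw [h]
    have h2 : pos (insert v B) a = pos B a := by
      unfold pos
      congr 1
      ext x
      rw [Finset.mem_filter, Finset.mem_filter, Finset.mem_insert]
      constructor
      · rintro ⟨h3 | h3, h4⟩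
        · exfalso
          rw [h3] at h4
          exact lt_asymm h4 (hY a (hB.2.2 a ha))
        · exact ⟨h3, h4⟩
      · rintro ⟨h3, h4⟩
        exact ⟨Or.inr h3, h4⟩
    rw [h2]
    by_cases h3 : A = B.erase a
    · rw [if_pos h3, if_pos (h1.2 h3)]
    · rw [if_neg h3, if_neg (fun h' => h3 (h1.1 h'))]
  · intro A hA
    show (insert v A).card = k + 1 ↔ _
    rw [Finset.card_insert_of_notMem (hv A hA)]
    omega
  · intro A hA
    show (insert v A).card = k + 1 + 1 ↔ _
    rw [Finset.card_insert_of_notMem (hv A hA)]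
    omega
  · exact h

/-- the complex `Δ(Y₀)` together with the open cone over `Δ(Y)` -/
theorem acy_glue (v : Q) (Y₀ Y : Set Q) (hY : ∀ x ∈ Y, x < v) (hvY : v ∉ Y₀) (hYY : Y ⊆ Y₀) (k : ℕ)
    (h0 : Acy dE Finset.card (k + 1) (NCin Y₀)) (h1 : Acy dE Finset.card k (NCin Y)) :
    Acy dE Finset.card (k + 1) (NCin Y₀ ∪ {A | v ∈ A ∧ A.erase v ∈ NCin Y}) := by
  have hv : ∀ A ∈ NCin Y₀, v ∉ A := by
    intro A hA hvA
    exact hvY (hA.2.2 v hvA)
  apply acy_filt_chain (k + 1) _ _ _ (fun A => if v ∈ A then 1 else 0) id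
  · intro u w h
    have hs := dE_sub h
    by_cases h1 : v ∈ u
    · left
      rw [if_pos h1, if_pos (hs h1)]
    · by_cases h2 : v ∈ w
      · right
        rw [if_neg h1, if_pos h2]
        exact Nat.zero_lt_one
      · left
        rw [if_neg h1, if_neg h2]
  · intro i
    by_cases hi0 : i = 0
    · subst hi0
      have : {A | A ∈ (NCin Y₀ ∪ {A | v ∈ A ∧ A.erase v ∈ NCin Y}) ∧
          (if v ∈ A then 1 else 0) = 0} = NCin Y₀ := by
        ext A
        constructor
        · rintro ⟨h2 | h2, h3⟩
          · exact h2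
          · rw [if_pos h2.1] at h3
            exact absurd h3 (by norm_num)
        · intro h2
          exact ⟨Or.inl h2, by rw [if_neg (hv A h2)]⟩
      rw [this]
      exact h0
    · by_cases hi1 : i = 1
      · subst hi1
        have : {A | A ∈ (NCin Y₀ ∪ {A | v ∈ A ∧ A.erase v ∈ NCin Y}) ∧
            (if v ∈ A then 1 else 0) = 1} = {A | v ∈ A ∧ A.erase v ∈ NCin Y} := by
          ext A
          constructor
          · rintro ⟨h2 | h2, h3⟩
            · rw [if_neg (hv A h2)] at h3
              exact absurd h3 (by norm_num)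
            · exact h2
          · intro h2
            exact ⟨Or.inr h2, by rw [if_pos h2.1]⟩
        rw [this]
        exact acy_cone v Y hY k h1
      · apply acy_of_empty
        rintro A ⟨_, hA⟩
        exfalso
        by_cases h2 : v ∈ A
        · rw [if_pos h2] at hA; exact hi1 hA.symm
        · rw [if_neg h2] at hA; exact hi0 hA.symm
  · rintro A (hA | ⟨hvA, hA⟩)
    · exact hA.2.1
    · rw [← Finset.insert_erase hvA, Finset.coe_insert]
      apply hA.2.1.insert
      intro b hb _
      exact Or.inr (hY b (hA.2.2 b (Finset.mem_coe.1 hb))).le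
  · intro u hu w hw x hux hxw
    rcases hw with hw | ⟨hvw, hw⟩
    · left
      have hu' : u ∈ NCin Y₀ := by
        rcases hu with hu | hu
        · exact hu
        · exact absurd (hxw (hux hu.1)) (hv w hw)
      exact ⟨hu'.1.mono hux, hw.2.1.mono (by exact_mod_cast hxw), fun a ha => hw.2.2 a (hxw ha)⟩
    · have hune : (u.erase v).Nonempty := by
        rcases hu with hu | hu
        · rw [Finset.erase_eq_of_notMem (hv u hu)]
          exact hu.1
        · exact hu.2.1
      have h3 : x.erase v ∈ NCin Y := by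
        refine ⟨hune.mono (Finset.erase_subset_erase v hux), ?_, ?_⟩
        · exact hw.2.1.mono (by exact_mod_cast Finset.erase_subset_erase v hxw)
        · intro a ha
          exact hw.2.2 a (Finset.erase_subset_erase v hxw ha)
      by_cases h4 : v ∈ x
      · exact Or.inr ⟨h4, h3⟩
      · left
        rw [Finset.erase_eq_of_notMem h4] at h3
        exact ⟨h3.1, h3.2.1, fun a ha => hYY (h3.2.2 a ha)⟩

end cone

end Pool.Agent.Helper635.PD4
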