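import Pool.Agent.Helper635_PD4.PPTop
import Pool.Agent.Helper635_PD4.PPCellAux2

/-!
# Module F2: `H_2` of the cellular complex of the reflection poset vanishes
-/

open scoped Classical

namespace Pool.Agent.Helper635.PD4.RData

variable {G : Type} [Group G] (D : RData G)

/-- the elements outside `Z ∪ {kap}` -/
def Q0 : Set D.R := {x | x ≠ D.kap ∧ x ∉ D.Z}

theorem rk_lt_four {x y : D.R} (h : x < y) : D.rk x < 4 :=
  lt_of_lt_of_le (D.gr.lt x y h) (D.rk_le y)

theorem lt_of_chain_four {σ : Finset D.R} (hσ : IsChain (· ≤ ·) (σ : Set D.R)) {v x : D.R}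
    (hv : v ∈ σ) (hx : x ∈ σ) (hne : x ≠ v) (h4 : D.rk v = 4) : x < v := by
  rcases hσ (Finset.mem_coe.2 hx) (Finset.mem_coe.2 hv) hne with h | h
  · exact lt_of_le_of_ne h hne
  · exfalso
    have := D.rk_lt_four (lt_of_le_of_ne h hne.symm)
    omega

theorem NCin_Q0 (σ : Finset D.R) (h : σ ∈ NCin D.Q0) : D.IsL σ ∧ D.S σ = ∅ := by
  refine ⟨⟨h.2.1, ?_⟩, ?_⟩
  · obtain ⟨x, hx⟩ := h.1
    exact ⟨x, hx, h.2.2 x hx⟩
  · rw [Finset.eq_empty_iff_forall_notMem]
    intro i hi
    rw [mem_S] at hi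
    rcases hi.2 with h1 | h1
    · exact (h.2.2 _ h1).1 rfl
    · exact (h.2.2 _ hi.1).2 h1

/-- the cells at `u`: open cone over `Δ(Y)` with apex `v` -/
theorem IsL_cone (v : D.R) (Y : Set D.R) (hY : ∀ x ∈ Y, x < v)
    (σ : Finset D.R) (hv : v ∈ σ) (h : σ.erase v ∈ NCin Y) : D.IsL σ := by
  refine ⟨?_, ?_⟩
  · rw [← Finset.insert_erase hv, Finset.coe_insert]
    apply h.2.1.insert
    intro b hb _
    exact Or.inr (hY b (h.2.2 b (Finset.mem_coe.1 hb))).le
  · obtain ⟨x, hx⟩ := h.1
    have h1 := D.rk_lt_four (hY x (h.2.2 x hx))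
    refine ⟨x, Finset.mem_of_mem_erase hx, ?_, ?_⟩
    · rintro rfl
      rw [D.rk_kap] at h1; omega
    · intro hz
      rw [D.rk_Z x hz] at h1; omega

/-- the simplices of the piece at `u` -/
def Ku (u : D.W) : Set (Finset D.R) :=
  {σ | D.IsL σ ∧ ∀ i ∈ D.S σ, D.cs.IsRightDescent u i}

theorem acy_Q0 : Acy dE Finset.card 3 (NCin D.Q0) := by
  apply acy_in
  exact hzero_acy 2 (by norm_num) D.h2

theorem acy_Ku (u : D.W) : Acy dE Finset.card 3 (D.Ku u) := by
  have hfin := desc_finite D.cs D.ra u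
  have hmem : ∀ i, i ∈ hfin.toFinset ↔ D.cs.IsRightDescent u i := by
    intro i; rw [Set.Finite.mem_toFinset]; rfl
  rcases D.clique_cases hfin.toFinset (by
    intro i hi j hj hij
    exact desc_comm D.cs D.ra u i j hij ((hmem i).1 hi) ((hmem j).1 hj)) with
    ⟨z, hz, hT⟩ | ⟨hlt, hch⟩
  · -- one descent, in `Z`
    have hz4 : D.rk z.1 = 4 := D.rk_Z _ hz
    have hzd : D.cs.IsRightDescent u z := by
      rw [← hmem, hT]; exact Finset.mem_singleton_self z
    have huniq : ∀ i, D.cs.IsRightDescent u i → i = z := by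
      intro i hi
      rw [← hmem, hT, Finset.mem_singleton] at hi
      exact hi
    have e : D.Ku u = NCin D.Q0 ∪ {A | z.1 ∈ A ∧ A.erase z.1 ∈ NCin {x | x < z.1}} := by
      ext σ
      constructor
      · rintro ⟨h1, h2⟩
        have hk : D.kap ∉ σ := by
          intro hk
          obtain ⟨x, hx, hx1, hx2⟩ := h1.2
          have hlt := D.lt_of_chain_four h1.1 hk hx hx1 D.rk_kap
          have h3 := huniq ⟨x, Or.inl hlt⟩ (h2 _ (by rw [mem_S]; exact ⟨hx, Or.inl hk⟩))
          apply hx2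
          have h4 : x = z.1 := congrArg Subtype.val h3
          rw [h4]; exact hz
        by_cases hzσ : z.1 ∈ σ
        · right
          refine ⟨hzσ, ?_, ?_, ?_⟩
          · obtain ⟨x, hx, hx1, hx2⟩ := h1.2
            refine ⟨x, Finset.mem_erase.2 ⟨?_, hx⟩⟩
            intro h; exact hx2 (by rw [h]; exact hz)
          · exact h1.1.mono (by exact_mod_cast Finset.erase_subset _ _)
          · intro a ha
            rw [Finset.mem_erase] at ha
            exact D.lt_of_chain_four h1.1 hzσ ha.2 ha.1 hz4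
        · left
          refine ⟨?_, h1.1, ?_⟩
          · obtain ⟨x, hx, _⟩ := h1.2
            exact ⟨x, hx⟩
          · intro a ha
            refine ⟨fun h => hk (by rw [← h]; exact ha), ?_⟩
            intro haZ
            have h3 := huniq ⟨a, Or.inr haZ⟩ (h2 _ (by rw [mem_S]; exact ⟨ha, Or.inr haZ⟩))
            apply hzσ
            rw [← h3]; exact ha
      · rintro (h | ⟨h1, h2⟩)
        · have := D.NCin_Q0 σ h
          refine ⟨this.1, ?_⟩
          intro i hi
          rw [this.2] at hi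
          exact absurd hi (Finset.notMem_empty i)
        · refine ⟨D.IsL_cone z.1 _ (fun x hx => hx) σ h1 h2, ?_⟩
          intro i hi
          rw [mem_S] at hi
          have hk : D.kap ∉ σ := by
            intro hk
            have hne : D.kap ≠ z.1 := fun h => D.kap_Z (by rw [h]; exact hz)
            have h3 := D.rk_lt_four (h2.2.2 _ (Finset.mem_erase.2 ⟨hne, hk⟩))
            rw [D.rk_kap] at h3; omega
          have hiZ : i.1 ∈ D.Z := by
            rcases hi.2 with h3 | h3
            · exact absurd h3 hk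
            · exact h3
          have : i = z := by
            by_contra hne
            have h3 := D.rk_lt_four (h2.2.2 _ (Finset.mem_erase.2
              ⟨fun h => hne (Subtype.ext h), hi.1⟩))
            rw [D.rk_Z _ hiZ] at h3; omega
          rw [this]; exact hzd
    rw [e]
    apply acy_glue z.1 D.Q0 {x | x < z.1} (fun x hx => hx)
    · intro h; exact h.2 hz
    · intro x hx
      have h1 := D.rk_lt_four hx
      constructor
      · rintro rfl
        rw [D.rk_kap] at h1; omega
      · intro hxz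
        rw [D.rk_Z x hxz] at h1; omega
    · exact D.acy_Q0
    · apply acy_in
      exact hzero_acy 1 le_rfl (D.h1Z z.1 hz)
  · -- all descents below `kap`
    set Y : Set D.R := ((hfin.toFinset.image (fun i : D.I => i.1) : Finset D.R) : Set D.R) with hYdef
    have hYm : ∀ x, x ∈ Y ↔ ∃ i : D.I, D.cs.IsRightDescent u i ∧ i.1 = x := by
      intro x
      rw [hYdef, Finset.mem_coe, Finset.mem_image]
      constructor
      · rintro ⟨i, hi, rfl⟩
        exact ⟨i, (hmem i).1 hi, rfl⟩
      · rintro ⟨i, hi, rfl⟩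
        exact ⟨i, (hmem i).2 hi, rfl⟩
    have hYlt : ∀ x ∈ Y, x < D.kap := by
      intro x hx
      obtain ⟨i, hi, rfl⟩ := (hYm x).1 hx
      exact hlt i ((hmem i).2 hi)
    have e : D.Ku u = NCin D.Q0 ∪ {A | D.kap ∈ A ∧ A.erase D.kap ∈ NCin Y} := by
      ext σ
      constructor
      · rintro ⟨h1, h2⟩
        by_cases hk : D.kap ∈ σ
        · right
          refine ⟨hk, ?_, ?_, ?_⟩
          · obtain ⟨x, hx, hx1, hx2⟩ := h1.2
            exact ⟨x, Finset.mem_erase.2 ⟨hx1, hx⟩⟩
          · exact h1.1.mono (by exact_mod_cast Finset.erase_subset _ _)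
          · intro a ha
            rw [Finset.mem_erase] at ha
            have hlt' := D.lt_of_chain_four h1.1 hk ha.2 ha.1 D.rk_kap
            rw [hYm]
            exact ⟨⟨a, Or.inl hlt'⟩, h2 _ (by rw [mem_S]; exact ⟨ha.2, Or.inl hk⟩), rfl⟩
        · left
          refine ⟨?_, h1.1, ?_⟩
          · obtain ⟨x, hx, _⟩ := h1.2
            exact ⟨x, hx⟩
          · intro a ha
            refine ⟨fun h => hk (by rw [← h]; exact ha), ?_⟩
            intro haZ
            have h3 := hlt ⟨a, Or.inr haZ⟩ ((hmem _).2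
              (h2 _ (by rw [mem_S]; exact ⟨ha, Or.inr haZ⟩)))
            have h4 := D.rk_lt_four h3
            rw [D.rk_Z a haZ] at h4; omega
      · rintro (h | ⟨h1, h2⟩)
        · have := D.NCin_Q0 σ h
          refine ⟨this.1, ?_⟩
          intro i hi
          rw [this.2] at hi
          exact absurd hi (Finset.notMem_empty i)
        · refine ⟨D.IsL_cone D.kap _ hYlt σ h1 h2, ?_⟩
          intro i hi
          rw [mem_S] at hi
          have hne : i.1 ≠ D.kap := by
            rcases i.2 with h3 | h3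
            · exact h3.ne
            · intro h; exact D.kap_Z (by rw [← h]; exact h3)
          obtain ⟨j, hj, hji⟩ := (hYm i.1).1 (h2.2.2 _ (Finset.mem_erase.2 ⟨hne, hi.1⟩))
          rw [← Subtype.ext hji]; exact hj
    rw [e]
    apply acy_glue D.kap D.Q0 Y hYlt
    · intro h; exact h.1 rfl
    · intro x hx
      have h0 := hYlt x hx
      refine ⟨h0.ne, ?_⟩
      intro hxz
      have h1 := D.rk_lt_four h0
      rw [D.rk_Z x hxz] at h1; omega
    · exact D.acy_Q0
    · apply acy_in
      rcases Set.eq_empty_or_nonempty Y with hYe | hYn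
      · apply acy_of_empty
        rintro A ⟨⟨x, _⟩, _⟩
        exfalso
        exact (Set.eq_empty_iff_forall_notMem.1 hYe) x.1 x.2
      · obtain ⟨t, ht, htm⟩ := Set.exists_max_image Y D.rk (Finset.finite_toSet _) hYn
        apply acy_of_top (⟨t, ht⟩ : {x : D.R // x ∈ Y})
        · intro x
          by_cases hx : x.1 = t
          · exact le_of_eq (Subtype.ext hx)
          · rcases hch x.2 ht hx with h | h
            · exact h
            · exfalso
              have h1 := D.gr.lt _ _ (lt_of_le_of_ne h (Ne.symm hx))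
              have h2 := htm x.1 x.2
              omega
        · exact le_rfl

theorem card_pos_P (p : D.PP) : 0 < p.1.1.card := by
  obtain ⟨x, hx, _⟩ := p.2.1.2
  exact Finset.card_pos.2 ⟨x, hx⟩

theorem epP_ne {p q : D.PP} (h : D.epP p q ≠ 0) : p ≤ q ∧ dE p.1.1 q.1.1 ≠ 0 := by
  unfold epP at h
  by_cases hle : p ≤ q
  · rw [if_pos hle] at h
    exact ⟨hle, fun h0 => h (by rw [h0, zero_mul])⟩
  · rw [if_neg hle] at h; exact absurd rfl h

theorem finite_le (q : D.PP) : {p : D.PP | p ≤ q}.Finite := by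
  have h1 : (q.1.2 : Set D.W).Finite := by
    obtain ⟨w, hw⟩ := q.2.2
    rw [hw]
    have h2 := wt_finite D.cs (D.S q.1.1) (D.S_clique _ q.2.1)
    apply (h2.image (fun v => w * v)).subset
    intro v hv
    exact ⟨w⁻¹ * v, hv, by simp⟩
  have h3 : ({s : Set D.W | s ⊆ q.1.2}).Finite := h1.finite_subsets
  have h4 := (q.1.1.powerset.finite_toSet).prod h3
  apply Set.Finite.of_finite_image (f := fun p : D.PP => p.1)
  · apply h4.subset
    rintro _ ⟨p, hp, rfl⟩
    exact ⟨Finset.mem_coe.2 (Finset.mem_powerset.2 hp.1), hp.2⟩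
  · intro a _ b _ hab
    exact Subtype.ext hab

/-- the sign of a cell in the piece of `u` -/
noncomputable def sg (u : D.W) (p : D.PP) : ℤ :=
  ∏ i ∈ D.S p.1.1, ((D.par (D.col i) u : ℤˣ) : ℤ)

theorem units_sq (x : ℤˣ) : (x : ℤ) * (x : ℤ) = 1 := by
  rw [← Units.val_mul, Int.units_mul_self, Units.val_one]

theorem prod_sq {ι : Type*} (s : Finset ι) (f : ι → ℤˣ) :
    (∏ i ∈ s, (f i : ℤ)) * (∏ i ∈ s, (f i : ℤ)) = 1 := by
  rw [← Finset.prod_mul_distrib]
  apply Finset.prod_eq_one
  intro i _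
  exact units_sq (f i)

theorem acy_piece (u : D.W) : Acy D.epP D.rkP 2 {p | p ∈ Set.univ ∧ D.tp p = u} := by
  apply acy_of_image D.epP dE D.rkP Finset.card 2 3 _ (D.Ku u) (fun p : D.PP => p.1.1) (D.sg u)
  · rintro p ⟨_, hp⟩ q ⟨_, hq⟩ hpq
    rw [← D.cel_tp p, ← D.cel_tp q, D.cel_eq_iff]
    refine ⟨hpq, ?_⟩
    rw [hp, hq, inv_mul_cancel]
    exact one_mem _
  · ext σ
    constructor
    · rintro ⟨p, ⟨_, hp⟩, rfl⟩
      refine ⟨p.2.1, ?_⟩
      intro i hi
      rw [← hp]
      exact D.tp_desc p i hi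
    · rintro ⟨h1, h2⟩
      exact ⟨D.cel σ h1 u, ⟨trivial, D.tp_cel σ h1 u h2⟩, rfl⟩
  · intro p _
    exact prod_sq _ _
  · rintro p ⟨_, hp⟩ q ⟨_, hq⟩
    show dE p.1.1 q.1.1 = D.sg u p * D.sg u q * D.epP p q
    by_cases hsub : p.1.1 ⊆ q.1.1
    · have hle : D.cel p.1.1 p.2.1 u ≤ D.cel q.1.1 q.2.1 u := by
        rw [D.cel_le_iff]
        refine ⟨hsub, ?_⟩
        rw [inv_mul_cancel]; exact one_mem _
      have e := D.epP_cel p.1.1 q.1.1 p.2.1 q.2.1 u u hle
      have hp' : D.cel p.1.1 p.2.1 u = p := by rw [← hp]; exact D.cel_tp p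
      have hq' : D.cel q.1.1 q.2.1 u = q := by rw [← hq]; exact D.cel_tp q
      rw [hp', hq'] at e
      rw [e]
      unfold sg
      rw [← Finset.prod_sdiff (D.S_mono hsub) (f := fun i => ((D.par (D.col i) u : ℤˣ) : ℤ))]
      have h1 := prod_sq (D.S p.1.1) (fun i => D.par (D.col i) u)
      have h2 := prod_sq (D.S q.1.1 \ D.S p.1.1) (fun i => D.par (D.col i) u)
      calc dE p.1.1 q.1.1 = (∏ i ∈ D.S p.1.1, ((D.par (D.col i) u : ℤˣ) : ℤ)) *
            (∏ i ∈ D.S p.1.1, ((D.par (D.col i) u : ℤˣ) : ℤ)) *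
            ((∏ i ∈ D.S q.1.1 \ D.S p.1.1, ((D.par (D.col i) u : ℤˣ) : ℤ)) *
            (∏ i ∈ D.S q.1.1 \ D.S p.1.1, ((D.par (D.col i) u : ℤˣ) : ℤ))) *
            dE p.1.1 q.1.1 := by rw [h1, h2]; ring
        _ = _ := by ring
    · have h1 : dE p.1.1 q.1.1 = 0 := by
        by_contra h
        exact hsub (dE_sub h)
      have h2 : D.epP p q = 0 := by
        by_contra h
        exact hsub (dE_sub (D.epP_ne h).2)
      rw [h1, h2, mul_zero]
  · intro p _
    show p.1.1.card = 3 ↔ p.1.1.card - 1 = 2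
    omega
  · intro p _
    show p.1.1.card = 3 + 1 ↔ p.1.1.card - 1 = 2 + 1
    omega
  · exact D.acy_Ku u

theorem acy_P : Acy D.epP D.rkP 2 Set.univ := by
  apply acy_filt D.epP D.rkP 2 Set.univ D.tp D.cs.length
  · intro p _ q _ h
    have h1 := dE_card (D.epP_ne h).2
    have h2 := D.card_pos_P p
    unfold rkP
    omega
  · intro q _
    apply (D.finite_le q).subset
    rintro p ⟨_, hp⟩
    exact (D.epP_ne hp).1
  · intro p _ r _ s _ hs
    have h1 : ∑ q ∈ s ∪ (D.finite_le r).toFinset, D.epP p q * D.epP q r = 0 := by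
      apply D.dd_P
      intro q _ hqr
      rw [Finset.mem_union]
      right
      rw [Set.Finite.mem_toFinset]
      exact hqr.le
    rw [← h1]
    apply Finset.sum_subset Finset.subset_union_left
    intro q _ hq
    by_contra hne
    apply hq
    apply hs q trivial
    · intro h; exact hne (by rw [h, zero_mul])
    · intro h; exact hne (by rw [h, mul_zero])
  · intro p _ q _ h
    by_cases ht : D.tp p = D.tp q
    · exact Or.inl ht
    · exact Or.inr (D.length_tp_lt p q (D.epP_ne h).1 ht)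
  · intro u
    exact D.acy_piece u

theorem cellH_P : CellH D.rkP D.epP 2 := by
  intro z hz hc
  obtain ⟨y, hy1, hy2⟩ := D.acy_P z (fun x hx => ⟨trivial, hz x (Finsupp.mem_support_iff.2 hx)⟩)
    (fun u _ => hc u)
  exact ⟨y, fun x hx => (hy1 x (Finsupp.mem_support_iff.1 hx)).2, fun u => hy2 u trivial⟩

end Pool.Agent.Helper635.PD4.RData
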