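import Pool.Agent.Helper635_PD4.PPTop

/-!
# Module F1: the reflection poset is connected and simply connected
-/

open scoped Classical

namespace Pool.Agent.Helper635.PD4.RData

variable {G : Type} [Group G] (D : RData G)

/-! ### auxiliary facts on chains -/

theorem f1_lt_kap {x : D.R} (h : x < D.kap) : x ≠ D.kap ∧ x ∉ D.Z := by
  refine ⟨h.ne, fun hz => ?_⟩
  have h1 := D.gr.lt _ _ h
  rw [D.rk_kap, D.rk_Z x hz] at h1
  exact lt_irrefl _ h1

theorem f1_lt_Z {x z : D.R} (hz : z ∈ D.Z) (h : x < z) : x ≠ D.kap ∧ x ∉ D.Z := by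
  have h1 := D.gr.lt _ _ h
  rw [D.rk_Z z hz] at h1
  refine ⟨fun hk => ?_, fun hx => ?_⟩
  · rw [hk, D.rk_kap] at h1
    exact lt_irrefl _ h1
  · rw [D.rk_Z x hx] at h1
    exact lt_irrefl _ h1

theorem f1_not_gt {x y : D.R} (hy : D.rk y = 4) : ¬ y < x := by
  intro h
  have h1 := D.gr.lt _ _ h
  have h2 := D.rk_le x
  omega

theorem f1_chain2 {x y : D.R} (h : x ≤ y) :
    IsChain (· ≤ ·) ((({x, y} : Finset D.R)) : Set D.R) := by
  intro a ha b hb _
  simp only [Finset.coe_insert, Finset.coe_singleton, Set.mem_insert_iff,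
    Set.mem_singleton_iff] at ha hb
  rcases ha with rfl | rfl <;> rcases hb with rfl | rfl
  · exact Or.inl le_rfl
  · exact Or.inl h
  · exact Or.inr h
  · exact Or.inl le_rfl

theorem f1_chain3 {x y z : D.R} (h : x ≤ y) (h' : y ≤ z) :
    IsChain (· ≤ ·) ((({x, y, z} : Finset D.R)) : Set D.R) := by
  intro a ha b hb _
  simp only [Finset.coe_insert, Finset.coe_singleton, Set.mem_insert_iff,
    Set.mem_singleton_iff] at ha hb
  have h'' := h.trans h'
  rcases ha with rfl | rfl | rfl <;> rcases hb with rfl | rfl | rfl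
  · exact Or.inl le_rfl
  · exact Or.inl h
  · exact Or.inl h''
  · exact Or.inr h
  · exact Or.inl le_rfl
  · exact Or.inl h'
  · exact Or.inr h''
  · exact Or.inr h'
  · exact Or.inl le_rfl

/-- chains in `L` -/
abbrev F1L : Type := {τ : Finset D.R // D.IsL τ}

/-- interior elements -/
abbrev F1Q : Type := {x : D.R // x ≠ D.kap ∧ x ∉ D.Z}

/-- cells -/
noncomputable abbrev f1c (τ : D.F1L) (w : D.W) : D.PP := D.cel τ.1 τ.2 w

/-- vertices -/
noncomputable def f1v (x : D.F1Q) : D.F1L := ⟨{x.1}, by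
  refine ⟨?_, x.1, Finset.mem_singleton_self _, x.2.1, x.2.2⟩
  simp⟩

/-- pairs -/
noncomputable def f1p (x : D.F1Q) (y : D.R) (h : x.1 ≤ y) : D.F1L :=
  ⟨{x.1, y}, D.f1_chain2 h, x.1, by simp, x.2.1, x.2.2⟩

/-- triples -/
noncomputable def f1t (x : D.F1Q) (y z : D.R) (h : x.1 ≤ y) (h' : y ≤ z) : D.F1L :=
  ⟨{x.1, y, z}, D.f1_chain3 h h', x.1, by simp, x.2.1, x.2.2⟩

theorem f1_le {σ τ : D.F1L} (h : σ.1 ⊆ τ.1) (w : D.W) : D.f1c σ w ≤ D.f1c τ w := by
  rw [cel_le_iff]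
  refine ⟨h, ?_⟩
  rw [inv_mul_cancel]
  exact one_mem _

theorem f1_eq (τ : D.F1L) (w : D.W) {u : D.W} (hu : u ∈ D.WT (D.S τ.1)) :
    D.f1c τ (w * u) = D.f1c τ w := by
  rw [eq_comm, cel_eq_iff]
  refine ⟨rfl, ?_⟩
  rw [inv_mul_cancel_left]
  exact hu

theorem f1_simple {τ : D.F1L} {i : D.I} (hi : i ∈ D.S τ.1) : D.cs.simple i ∈ D.WT (D.S τ.1) :=
  Subgroup.subset_closure ⟨i, hi, rfl⟩

theorem f1_eqs (τ : D.F1L) (w : D.W) {i : D.I} (hi : i ∈ D.S τ.1) :
    D.f1c τ (w * D.cs.simple i) = D.f1c τ w := D.f1_eq τ w (D.f1_simple hi)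

/-- every generator is a mirror of some chain -/
theorem f1_ex (i : D.I) : ∃ (x : D.F1Q) (y : D.R) (h : x.1 ≤ y), i ∈ D.S (D.f1p x y h).1 := by
  rcases i.2 with h | h
  · refine ⟨⟨i.1, D.f1_lt_kap h⟩, D.kap, h.le, ?_⟩
    rw [mem_S]
    exact ⟨by simp [f1p], Or.inl (by simp [f1p])⟩
  · obtain ⟨x, hx⟩ := (D.connZ i.1 h).1
    refine ⟨⟨x, D.f1_lt_Z h hx⟩, i.1, hx.le, ?_⟩
    rw [mem_S]
    exact ⟨by simp [f1p], Or.inr h⟩

/-! ### connectedness -/

theorem f1_gen_chamber (w : D.W) (x y : D.F1Q) :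
    Relation.EqvGen (fun a b => a ≤ b) (D.f1c (D.f1v x) w) (D.f1c (D.f1v y) w) := by
  have h := D.conn.2 x y
  induction h with
  | rel a b hab =>
    have h1 : D.f1c (D.f1v a) w ≤ D.f1c (D.f1p a b.1 hab) w := D.f1_le (by
      intro t ht
      simp only [f1v, Finset.mem_singleton] at ht
      simp [f1p, ht]) w
    have h2 : D.f1c (D.f1v b) w ≤ D.f1c (D.f1p a b.1 hab) w := D.f1_le (by
      intro t ht
      simp only [f1v, Finset.mem_singleton] at ht
      simp [f1p, ht]) w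
    exact (Relation.EqvGen.rel _ _ h1).trans _ _ _ ((Relation.EqvGen.rel _ _ h2).symm _ _)
  | refl a => exact Relation.EqvGen.refl _
  | symm a b _ ih => exact ih.symm _ _
  | trans a b c _ _ ih1 ih2 => exact ih1.trans _ _ _ ih2

theorem f1_gen_all (x : D.F1Q) (w : D.W) :
    Relation.EqvGen (fun a b => a ≤ b) (D.f1c (D.f1v x) 1) (D.f1c (D.f1v x) w) := by
  induction w using D.cs.simple_induction_right with
  | one => exact Relation.EqvGen.refl _
  | mul_simple_right w i ih =>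
    obtain ⟨y, t, h, hi⟩ := D.f1_ex i
    have hs : (D.f1v y).1 ⊆ (D.f1p y t h).1 := by
      intro t ht
      simp only [f1v, Finset.mem_singleton] at ht
      simp [f1p, ht]
    have h1 := D.f1_le hs w
    have h2 := D.f1_le hs (w * D.cs.simple i)
    rw [D.f1_eqs _ w hi] at h2
    have h3 := (Relation.EqvGen.rel _ _ h1).trans _ _ _ ((Relation.EqvGen.rel _ _ h2).symm _ _)
    exact ((ih.trans _ _ _ (D.f1_gen_chamber w x y)).trans _ _ _ h3).trans _ _ _
      (D.f1_gen_chamber _ y x)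

theorem f1_vertex (p : D.PP) : ∃ (x : D.F1Q) (w : D.W) (τ : D.F1L), x.1 ∈ τ.1 ∧ p = D.f1c τ w := by
  obtain ⟨w, hw⟩ := D.cel_surj p
  obtain ⟨x, hx, h1, h2⟩ := p.2.1.2
  exact ⟨⟨x, h1, h2⟩, w, ⟨p.1.1, p.2.1⟩, hx, hw⟩

theorem f1_vle {x : D.F1Q} {τ : D.F1L} (hx : x.1 ∈ τ.1) (w : D.W) :
    D.f1c (D.f1v x) w ≤ D.f1c τ w := D.f1_le (by
  intro t ht
  simp only [f1v, Finset.mem_singleton] at ht
  rw [ht]
  exact hx) w

theorem conn_P : Conn D.PP := by
  constructor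
  · obtain ⟨x⟩ := D.conn.1
    exact ⟨D.f1c (D.f1v x) 1⟩
  · intro p q
    obtain ⟨x, w, τ, hx, hp⟩ := D.f1_vertex p
    obtain ⟨y, w', τ', hy, hq⟩ := D.f1_vertex q
    have h1 := Relation.EqvGen.rel (r := fun a b : D.PP => a ≤ b) _ _ (D.f1_vle hx w)
    have h2 := Relation.EqvGen.rel (r := fun a b : D.PP => a ≤ b) _ _ (D.f1_vle hy w')
    rw [hp, hq]
    exact ((((h1.symm _ _).trans _ _ _ ((D.f1_gen_all x w).symm _ _)).trans _ _ _
      (D.f1_gen_chamber 1 x y)).trans _ _ _ (D.f1_gen_all y w')).trans _ _ _ h2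

/-! ### simple connectedness -/

section SC

variable {H : Type} [Group H] {φ : D.PP → D.PP → H}
  (hφ : ∀ x y z : D.PP, x ≤ y → y ≤ z → φ x z = φ x y * φ y z)

include hφ

/-- trivialization on a chamber -/
theorem f1_chamber (w : D.W) : ∃ g : D.F1Q → H, ∀ (τ : D.F1L) (x y : D.F1Q), x.1 ∈ τ.1 → y.1 ∈ τ.1 →
    g x * φ (D.f1c (D.f1v x) w) (D.f1c τ w) = g y * φ (D.f1c (D.f1v y) w) (D.f1c τ w) := by
  set ψ : D.F1Q → D.F1Q → H := fun x y => if h : x ≤ y then
    φ (D.f1c (D.f1v x) w) (D.f1c (D.f1p x y.1 h) w) *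
      (φ (D.f1c (D.f1v y) w) (D.f1c (D.f1p x y.1 h) w))⁻¹ else 1 with hψ
  have key : ∀ (τ : D.F1L) (x y : D.F1Q), x ≤ y → x.1 ∈ τ.1 → y.1 ∈ τ.1 →
      ψ x y = φ (D.f1c (D.f1v x) w) (D.f1c τ w) * (φ (D.f1c (D.f1v y) w) (D.f1c τ w))⁻¹ := by
    intro τ x y hxy hx hy
    have hs : (D.f1p x y.1 hxy).1 ⊆ τ.1 := by
      intro t ht
      simp only [f1p, Finset.mem_insert, Finset.mem_singleton] at ht
      rcases ht with rfl | rfl
      · exact hx
      · exact hy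
    have hx' : x.1 ∈ (D.f1p x y.1 hxy).1 := by simp [f1p]
    have hy' : y.1 ∈ (D.f1p x y.1 hxy).1 := by simp [f1p]
    rw [hφ _ _ _ (D.f1_vle hx' w) (D.f1_le hs w), hφ _ _ _ (D.f1_vle hy' w) (D.f1_le hs w)]
    simp only [hψ, hxy, dif_pos]
    group
  obtain ⟨g, hg⟩ := D.sc H ψ (by
    intro x y z hxy hyz
    have hx : x.1 ∈ (D.f1t x y.1 z.1 hxy hyz).1 := by simp [f1t]
    have hy : y.1 ∈ (D.f1t x y.1 z.1 hxy hyz).1 := by simp [f1t]
    have hz : z.1 ∈ (D.f1t x y.1 z.1 hxy hyz).1 := by simp [f1t]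
    rw [key _ x z (hxy.trans hyz) hx hz, key _ x y hxy hx hy, key _ y z hyz hy hz]
    group)
  refine ⟨g, ?_⟩
  have main : ∀ (τ : D.F1L) (x y : D.F1Q), x ≤ y → x.1 ∈ τ.1 → y.1 ∈ τ.1 →
      g x * φ (D.f1c (D.f1v x) w) (D.f1c τ w) = g y * φ (D.f1c (D.f1v y) w) (D.f1c τ w) := by
    intro τ x y hxy hx hy
    have h1 := key τ x y hxy hx hy
    rw [hg x y hxy] at h1
    have h2 : g y = g x * (φ (D.f1c (D.f1v x) w) (D.f1c τ w) *
        (φ (D.f1c (D.f1v y) w) (D.f1c τ w))⁻¹) := by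
      rw [← h1]
      group
    rw [h2]
    group
  intro τ x y hx hy
  by_cases hne : x.1 = y.1
  · rw [Subtype.ext hne]
  · rcases τ.2.1 hx hy hne with h | h
    · exact main τ x y h hx hy
    · exact (main τ y x h hy hx).symm

/-- trivializations of all chambers, extended to the cells meeting the chamber -/
theorem f1_A : ∃ A : D.W → D.F1L → H, ∀ (w : D.W) (σ τ : D.F1L), σ.1 ⊆ τ.1 →
    A w τ = A w σ * φ (D.f1c σ w) (D.f1c τ w) := by
  choose g hg using fun w => D.f1_chamber hφ w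
  have ex : ∀ τ : D.F1L, ∃ x : D.F1Q, x.1 ∈ τ.1 := by
    intro τ
    obtain ⟨x, hx, h1, h2⟩ := τ.2.2
    exact ⟨⟨x, h1, h2⟩, hx⟩
  choose x0 hx0 using ex
  refine ⟨fun w τ => g w (x0 τ) * φ (D.f1c (D.f1v (x0 τ)) w) (D.f1c τ w), ?_⟩
  intro w σ τ h
  show g w (x0 τ) * φ (D.f1c (D.f1v (x0 τ)) w) (D.f1c τ w) =
    g w (x0 σ) * φ (D.f1c (D.f1v (x0 σ)) w) (D.f1c σ w) * φ (D.f1c σ w) (D.f1c τ w)
  rw [hg w τ (x0 τ) (x0 σ) (hx0 τ) (h (hx0 σ)), mul_assoc,
    ← hφ _ _ _ (D.f1_vle (hx0 σ) w) (D.f1_le h w)]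

omit hφ in
/-- the transition elements: reduction to a smaller chain -/
theorem f1_red {A : D.W → D.F1L → H} (hA : ∀ (w : D.W) (σ τ : D.F1L), σ.1 ⊆ τ.1 →
    A w τ = A w σ * φ (D.f1c σ w) (D.f1c τ w)) (w : D.W) (i : D.I) {σ τ : D.F1L}
    (h : σ.1 ⊆ τ.1) (hi : i ∈ D.S σ.1) :
    A w τ * (A (w * D.cs.simple i) τ)⁻¹ = A w σ * (A (w * D.cs.simple i) σ)⁻¹ := by
  have hi' : i ∈ D.S τ.1 := by
    rw [mem_S] at hi ⊢
    exact ⟨h hi.1, hi.2.imp (fun hk => h hk) id⟩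
  rw [hA w σ τ h, hA (w * D.cs.simple i) σ τ h, D.f1_eqs σ w hi, D.f1_eqs τ w hi']
  group

omit hφ in
theorem f1_indep {A : D.W → D.F1L → H} (hA : ∀ (w : D.W) (σ τ : D.F1L), σ.1 ⊆ τ.1 →
    A w τ = A w σ * φ (D.f1c σ w) (D.f1c τ w)) (w : D.W) (i : D.I) (σ τ : D.F1L)
    (hσ : i ∈ D.S σ.1) (hτ : i ∈ D.S τ.1) :
    A w τ * (A (w * D.cs.simple i) τ)⁻¹ = A w σ * (A (w * D.cs.simple i) σ)⁻¹ := by
  rcases i.2 with h | h
  · -- all chains contain `{i, kap}`
    have hz := (D.f1_lt_kap h).2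
    have sub : ∀ ρ : D.F1L, i ∈ D.S ρ.1 → (D.f1p ⟨i.1, D.f1_lt_kap h⟩ D.kap h.le).1 ⊆ ρ.1 := by
      intro ρ hρ
      rw [mem_S] at hρ
      intro t ht
      simp only [f1p, Finset.mem_insert, Finset.mem_singleton] at ht
      rcases ht with rfl | rfl
      · exact hρ.1
      · rcases hρ.2 with h' | h'
        · exact h'
        · exact absurd h' hz
    have hi : i ∈ D.S (D.f1p ⟨i.1, D.f1_lt_kap h⟩ D.kap h.le).1 := by
      rw [mem_S]
      exact ⟨by simp [f1p], Or.inl (by simp [f1p])⟩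
    rw [D.f1_red hA w i (sub τ hτ) hi, D.f1_red hA w i (sub σ hσ) hi]
  · -- all chains contain `{x, z}` for some `x < z`
    have hmem : ∀ (x : D.R) (hx : x < i.1), i ∈ D.S (D.f1p ⟨x, D.f1_lt_Z h hx⟩ i.1 hx.le).1 := by
      intro x hx
      rw [mem_S]
      exact ⟨by simp [f1p], Or.inr h⟩
    have sub : ∀ ρ : D.F1L, i ∈ D.S ρ.1 → ∃ (x : D.R) (hx : x < i.1),
        (D.f1p ⟨x, D.f1_lt_Z h hx⟩ i.1 hx.le).1 ⊆ ρ.1 := by
      intro ρ hρ
      rw [mem_S] at hρ
      obtain ⟨x, hx, h1, h2⟩ := ρ.2.2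
      have hne : x ≠ i.1 := fun e => h2 (e ▸ h)
      have hlt : x < i.1 := by
        rcases ρ.2.1 hx hρ.1 hne with h' | h'
        · exact lt_of_le_of_ne h' hne
        · exact absurd (lt_of_le_of_ne h' (Ne.symm hne)) (D.f1_not_gt (D.rk_Z _ h))
      refine ⟨x, hlt, ?_⟩
      intro t ht
      simp only [f1p, Finset.mem_insert, Finset.mem_singleton] at ht
      rcases ht with rfl | rfl
      · exact hx
      · exact hρ.1
    have con : ∀ x y : {x : D.R // x < i.1},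
        A w (D.f1p ⟨x.1, D.f1_lt_Z h x.2⟩ i.1 x.2.le) *
          (A (w * D.cs.simple i) (D.f1p ⟨x.1, D.f1_lt_Z h x.2⟩ i.1 x.2.le))⁻¹ =
        A w (D.f1p ⟨y.1, D.f1_lt_Z h y.2⟩ i.1 y.2.le) *
          (A (w * D.cs.simple i) (D.f1p ⟨y.1, D.f1_lt_Z h y.2⟩ i.1 y.2.le))⁻¹ := by
      intro x y
      have hg := (D.connZ i.1 h).2 x y
      induction hg with
      | rel a b hab =>
        have s1 : (D.f1p ⟨a.1, D.f1_lt_Z h a.2⟩ i.1 a.2.le).1 ⊆
            (D.f1t ⟨a.1, D.f1_lt_Z h a.2⟩ b.1 i.1 hab b.2.le).1 := by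
          intro t ht
          simp only [f1p, Finset.mem_insert, Finset.mem_singleton] at ht
          rcases ht with rfl | rfl <;> simp [f1t]
        have s2 : (D.f1p ⟨b.1, D.f1_lt_Z h b.2⟩ i.1 b.2.le).1 ⊆
            (D.f1t ⟨a.1, D.f1_lt_Z h a.2⟩ b.1 i.1 hab b.2.le).1 := by
          intro t ht
          simp only [f1p, Finset.mem_insert, Finset.mem_singleton] at ht
          rcases ht with rfl | rfl <;> simp [f1t]
        rw [← D.f1_red hA w i s1 (hmem a.1 a.2), ← D.f1_red hA w i s2 (hmem b.1 b.2)]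
      | refl a => rfl
      | symm a b _ ih => exact ih.symm
      | trans a b c _ _ ih1 ih2 => exact ih1.trans ih2
    obtain ⟨x, hx, hxs⟩ := sub τ hτ
    obtain ⟨y, hy, hys⟩ := sub σ hσ
    rw [D.f1_red hA w i hxs (hmem x hx), D.f1_red hA w i hys (hmem y hy)]
    exact con ⟨x, hx⟩ ⟨y, hy⟩

end SC

/-- the permutation attached to a generator -/
noncomputable def f1perm {H : Type} [Group H] (c : D.W → D.I → H)
    (hc : ∀ w i, c w i * c (w * D.cs.simple i) i = 1) (i : D.I) : Equiv.Perm (D.W × H) :=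
  Function.Involutive.toPerm (fun p => (p.1 * D.cs.simple i, p.2 * c p.1 i)) (by
    rintro ⟨w, h⟩
    simp only [Prod.mk.injEq]
    refine ⟨?_, ?_⟩
    · rw [mul_assoc, D.cs.simple_mul_simple_self, mul_one]
    · rw [mul_assoc, hc, mul_one])

theorem f1perm_apply {H : Type} [Group H] (c : D.W → D.I → H)
    (hc : ∀ w i, c w i * c (w * D.cs.simple i) i = 1) (i : D.I) (p : D.W × H) :
    D.f1perm c hc i p = (p.1 * D.cs.simple i, p.2 * c p.1 i) := rfl

/-- integration of the transition elements over `W` -/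
theorem f1_int {H : Type} [Group H] (c : D.W → D.I → H)
    (hc : ∀ w i, c w i * c (w * D.cs.simple i) i = 1)
    (hcomm : ∀ w i j, D.adj i j → D.cs.simple i * D.cs.simple j = D.cs.simple j * D.cs.simple i →
      c w i * c (w * D.cs.simple i) j = c w j * c (w * D.cs.simple j) i) :
    ∃ k : D.W → H, ∀ w i, k (w * D.cs.simple i) = k w * c w i := by
  have hinv : ∀ i, D.f1perm c hc i * D.f1perm c hc i = 1 := by
    intro i
    ext1 p
    rw [Equiv.Perm.mul_apply, Equiv.Perm.one_apply]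
    exact (Function.Involutive.toPerm_involutive _) p
  have hcm : ∀ i j, D.adj i j → D.f1perm c hc i * D.f1perm c hc j =
      D.f1perm c hc j * D.f1perm c hc i := by
    intro i j hij
    have hne : i ≠ j := by
      intro e
      rw [e] at hij
      exact lt_irrefl _ hij.2.2
    have hM : (rcm D.adj) i j = 2 := by
      rw [rcm_apply, if_neg hne, if_pos (Or.inl hij)]
    have hs : D.cs.simple i * D.cs.simple j = D.cs.simple j * D.cs.simple i := by
      have h1 := D.cs.simple_mul_simple_pow i j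
      rw [hM, pow_two] at h1
      have h2 := eq_inv_of_mul_eq_one_left h1
      rw [mul_inv_rev, D.cs.inv_simple, D.cs.inv_simple] at h2
      exact h2
    ext1 p
    rw [Equiv.Perm.mul_apply, Equiv.Perm.mul_apply]
    simp only [f1perm_apply]
    rw [mul_assoc p.1, mul_assoc p.1, hs, mul_assoc p.2, mul_assoc p.2, hcomm p.1 i j hij hs]
  have hl : (rcm D.adj).IsLiftable (D.f1perm c hc) := by
    intro i j
    rw [rcm_apply]
    by_cases hij : i = j
    · subst hij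
      simp only [if_true, pow_one]
      exact hinv _
    · by_cases ha : D.adj i j ∨ D.adj j i
      · simp only [hij, ha, if_true, if_false, pow_two]
        have hcm' : D.f1perm c hc i * D.f1perm c hc j = D.f1perm c hc j * D.f1perm c hc i := by
          rcases ha with ha | ha
          · exact hcm i j ha
          · exact (hcm j i ha).symm
        calc D.f1perm c hc i * D.f1perm c hc j * (D.f1perm c hc i * D.f1perm c hc j)
            = D.f1perm c hc i * D.f1perm c hc j * (D.f1perm c hc j * D.f1perm c hc i) := by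
              rw [hcm']
          _ = D.f1perm c hc i * (D.f1perm c hc j * D.f1perm c hc j) * D.f1perm c hc i := by
              simp only [mul_assoc]
          _ = 1 := by rw [hinv, mul_one, hinv]
      · simp only [hij, ha, if_false, pow_zero]
  set ρ : D.W →* Equiv.Perm (D.W × H) := D.cs.lift ⟨_, hl⟩ with hρ
  have hρs : ∀ i, ρ (D.cs.simple i) = D.f1perm c hc i := by
    intro i
    rw [hρ, D.cs.lift_apply_simple]
  have hfst : ∀ (w : D.W) (p : D.W × H), (ρ w p).1 = p.1 * w⁻¹ := by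
    intro w
    induction w using D.cs.simple_induction_left with
    | one => intro p; simp
    | mul_simple_left w i ih =>
      intro p
      rw [map_mul, Equiv.Perm.mul_apply, hρs, f1perm_apply, mul_inv_rev, D.cs.inv_simple, ih p,
        mul_assoc]
  refine ⟨fun w => (ρ w⁻¹ (1, 1)).2, ?_⟩
  intro w i
  show (ρ (w * D.cs.simple i)⁻¹ (1, 1)).2 = (ρ w⁻¹ (1, 1)).2 * c w i
  rw [mul_inv_rev, D.cs.inv_simple, map_mul, Equiv.Perm.mul_apply, hρs, f1perm_apply]
  have h1 := hfst w⁻¹ (1, 1)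
  rw [inv_inv, one_mul] at h1
  rw [h1]

theorem sc_P : SC D.PP := by
  intro H _ φ hφ
  obtain ⟨A, hA⟩ := D.f1_A hφ
  have ex : ∀ i : D.I, ∃ τ : D.F1L, i ∈ D.S τ.1 := by
    intro i
    obtain ⟨x, y, h, hi⟩ := D.f1_ex i
    exact ⟨_, hi⟩
  choose T hT using ex
  set c : D.W → D.I → H := fun w i => A w (T i) * (A (w * D.cs.simple i) (T i))⁻¹ with hcdef
  have hc : ∀ w i (τ : D.F1L), i ∈ D.S τ.1 → c w i = A w τ * (A (w * D.cs.simple i) τ)⁻¹ := by
    intro w i τ hi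
    exact D.f1_indep hA w i τ (T i) hi (hT i)
  obtain ⟨k, hk⟩ := D.f1_int c (by
    intro w i
    simp only [hcdef]
    rw [mul_assoc w, D.cs.simple_mul_simple_self, mul_one]
    group) (by
    intro w i j hij hs
    have hi : i.1 < D.kap := hij.1
    have hj : j.1 < D.kap := hij.2.1
    set τ : D.F1L := D.f1t ⟨i.1, D.f1_lt_kap hi⟩ j.1 D.kap hij.2.2.le hj.le with hτ
    have hiτ : i ∈ D.S τ.1 := by
      rw [mem_S]
      exact ⟨by simp [hτ, f1t], Or.inl (by simp [hτ, f1t])⟩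
    have hjτ : j ∈ D.S τ.1 := by
      rw [mem_S]
      exact ⟨by simp [hτ, f1t], Or.inl (by simp [hτ, f1t])⟩
    rw [hc w i τ hiτ, hc _ j τ hjτ, hc w j τ hjτ, hc _ i τ hiτ, mul_assoc w, mul_assoc w, hs]
    group)
  have hK1 : ∀ (τ : D.F1L) (w : D.W) (i : D.I), i ∈ D.S τ.1 →
      k (w * D.cs.simple i) * A (w * D.cs.simple i) τ = k w * A w τ := by
    intro τ w i hi
    rw [hk, hc w i τ hi]
    group
  have hK : ∀ (τ : D.F1L) (u : D.W), u ∈ D.WT (D.S τ.1) → ∀ w : D.W,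
      k (w * u) * A (w * u) τ = k w * A w τ := by
    intro τ u hu
    induction hu using Subgroup.closure_induction with
    | mem x hx =>
      obtain ⟨i, hi, rfl⟩ := hx
      intro w
      exact hK1 τ w i hi
    | one => intro w; rw [mul_one]
    | mul x y _ _ hx hy =>
      intro w
      rw [← mul_assoc, hy, hx]
    | inv x _ hx =>
      intro w
      have := hx (w * x⁻¹)
      rw [inv_mul_cancel_right] at this
      exact this.symm
  choose rw' hrw using D.cel_surj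
  refine ⟨fun p => k (rw' p) * A (rw' p) ⟨p.1.1, p.2.1⟩, ?_⟩
  have hf : ∀ (τ : D.F1L) (w : D.W), k (rw' (D.f1c τ w)) * A (rw' (D.f1c τ w)) τ =
      k w * A w τ := by
    intro τ w
    have h1 : D.cel τ.1 τ.2 w = D.cel τ.1 τ.2 (rw' (D.f1c τ w)) := hrw (D.f1c τ w)
    rw [cel_eq_iff] at h1
    have h2 := hK τ _ h1.2 w
    rwa [mul_inv_cancel_left] at h2
  intro p q hpq
  obtain ⟨x, w, σ, hx, hp⟩ := D.f1_vertex p
  obtain ⟨y, w', τ, hy, hq⟩ := D.f1_vertex q
  rw [hp, hq, cel_le_iff] at hpq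
  have hq' : q = D.f1c τ w := by
    rw [hq, eq_comm, cel_eq_iff]
    exact ⟨rfl, hpq.2⟩
  rw [hp, hq']
  have e1 := hf σ w
  have e2 := hf τ w
  show φ (D.f1c σ w) (D.f1c τ w) = (k (rw' (D.f1c σ w)) * A (rw' (D.f1c σ w)) σ)⁻¹ *
    (k (rw' (D.f1c τ w)) * A (rw' (D.f1c τ w)) τ)
  rw [e1, e2, hA w σ τ hpq.1]
  group

end Pool.Agent.Helper635.PD4.RData
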