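import Mathlib

/-!
# Independence of the decidability instances
-/

namespace Pool.Agent.Helper635.PD4

theorem image_inst {α β : Type*} (i1 i2 : DecidableEq β) (f : α → β) (s : Finset α) :
    @Finset.image α β i1 f s = @Finset.image α β i2 f s := by
  have h : i1 = i2 := Subsingleton.elim _ _
  rw [h]

theorem erase_inst {α : Type*} (i1 i2 : DecidableEq α) (s : Finset α) (a : α) :
    @Finset.erase α i1 s a = @Finset.erase α i2 s a := by
  have h : i1 = i2 := Subsingleton.elim _ _
  rw [h]

end Pool.Agent.Helper635.PD4
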