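import Pool.Agent.Helper635_PD4.Base
import Pool.Agent.Helper635_PD4.Inst

/-!
# Module C1, auxiliary file: elementary facts on `pos`, `dE`, `oc`
-/

open scoped Classical

namespace Pool.Agent.Helper635.PD4

section emb
variable {Q Q' : Type*} [PartialOrder Q] [PartialOrder Q']

theorem pos_image_emb (G : Q → Q') (hG : ∀ x y, G x ≤ G y ↔ x ≤ y) (A : Finset Q) (a : Q) :
    pos (A.image G) (G a) = pos A a := by
  have hinj : Function.Injective G := fun x y h =>
    le_antisymm ((hG x y).1 h.le) ((hG y x).1 h.ge)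
  have hlt : ∀ x y, G x < G y ↔ x < y := by
    intro x y; rw [lt_iff_le_not_ge, lt_iff_le_not_ge, hG, hG]
  unfold pos
  rw [Finset.filter_image, Finset.card_image_of_injective _ hinj]
  simp only [hlt]

theorem dE_image_emb (G : Q → Q') (hG : ∀ x y, G x ≤ G y ↔ x ≤ y) (A' A : Finset Q) :
    dE (A'.image G) (A.image G) = dE A' A := by
  have hinj : Function.Injective G := fun x y h =>
    le_antisymm ((hG x y).1 h.le) ((hG y x).1 h.ge)
  unfold dE
  rw [Finset.sum_image (fun x _ y _ h => hinj h)]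
  apply Finset.sum_congr rfl
  intro a _
  rw [pos_image_emb G hG, ← Finset.image_erase hinj]
  simp only [(Finset.image_injective hinj).eq_iff]

theorem ocAux_image_emb (G : Q → Q') (hG : ∀ x y, G x ≤ G y ↔ x ≤ y) (ep : Q → Q → ℤ)
    (ep' : Q' → Q' → ℤ) (hep : ∀ x y, ep' (G x) (G y) = ep x y) (b : Q) (n : ℕ) :
    ∀ (A : Finset Q) (y : Q), ocAux ep' (G b) n (A.image G) (G y) = ocAux ep b n A y := by
  have hinj : Function.Injective G := fun x y h =>
    le_antisymm ((hG x y).1 h.le) ((hG y x).1 h.ge)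
  induction n with
  | zero => intro A y; exact hep b y
  | succ n ih =>
    intro A y
    unfold ocAux
    have h1 : (A.image G).filter (fun m => ∀ a ∈ A.image G, a ≤ m) =
        (A.filter (fun m => ∀ a ∈ A, a ≤ m)).image G := by
      rw [Finset.filter_image]
      congr 1
      apply Finset.filter_congr
      intro m _
      simp only [Finset.mem_image, forall_exists_index, and_imp, forall_apply_eq_imp_iff₂, hG]
    rw [h1, Finset.sum_image (fun x _ y _ h => hinj h)]
    apply Finset.sum_congr rfl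
    intro m _
    rw [hep, ← Finset.image_erase hinj, ih]

theorem oc_image_emb (G : Q → Q') (hG : ∀ x y, G x ≤ G y ↔ x ≤ y) (ep : Q → Q → ℤ)
    (ep' : Q' → Q' → ℤ) (hep : ∀ x y, ep' (G x) (G y) = ep x y) (b : Q)
    (A : Finset Q) (y : Q) : oc ep' (G b) (A.image G) (G y) = oc ep b A y := by
  have hinj : Function.Injective G := fun x y h =>
    le_antisymm ((hG x y).1 h.le) ((hG y x).1 h.ge)
  unfold oc
  rw [Finset.card_image_of_injective _ hinj, ocAux_image_emb G hG ep ep' hep]

theorem emb_inj {G : Q → Q'} (hG : ∀ x y, G x ≤ G y ↔ x ≤ y) : Function.Injective G :=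
  fun x y h => le_antisymm ((hG x y).1 h.le) ((hG y x).1 h.ge)

theorem dE_map_emb (G : Q → Q') (hG : ∀ x y, G x ≤ G y ↔ x ≤ y) (A' A : Finset Q) :
    dE (A'.map ⟨G, emb_inj hG⟩) (A.map ⟨G, emb_inj hG⟩) = dE A' A := by
  rw [Finset.map_eq_image, Finset.map_eq_image]
  exact dE_image_emb G hG A' A

theorem oc_map_emb (G : Q → Q') (hG : ∀ x y, G x ≤ G y ↔ x ≤ y) (ep : Q → Q → ℤ)
    (ep' : Q' → Q' → ℤ) (hep : ∀ x y, ep' (G x) (G y) = ep x y) (b : Q)
    (A : Finset Q) (y : Q) : oc ep' (G b) (A.map ⟨G, emb_inj hG⟩) (G y) = oc ep b A y := by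
  rw [Finset.map_eq_image]
  exact oc_image_emb G hG ep ep' hep b A y

end emb

section
variable {Q : Type*} [PartialOrder Q]

theorem ocAux_rank {rk : Q → ℕ} {ep : Q → Q → ℤ} (gr : Gr rk ep) (b : Q) (n : ℕ) :
    ∀ (A : Finset Q) (y : Q), ocAux ep b n A y ≠ 0 → rk y = rk b + n + 1 := by
  induction n with
  | zero =>
    intro A y h
    exact (gr.ne b y h).2
  | succ n ih =>
    intro A y h
    unfold ocAux at h
    obtain ⟨m, _, hm⟩ := Finset.exists_ne_zero_of_sum_ne_zero h
    have h1 := ih _ _ (left_ne_zero_of_mul hm)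
    have h2 := (gr.ne _ _ (right_ne_zero_of_mul hm)).2
    omega

theorem oc_rank {rk : Q → ℕ} {ep : Q → Q → ℤ} (gr : Gr rk ep) (b : Q)
    (A : Finset Q) (y : Q) (h : oc ep b A y ≠ 0) : rk y = rk b + A.card + 1 :=
  ocAux_rank gr b _ A y h

theorem oc_top (ep : Q → Q → ℤ) (b y m : Q) (A : Finset Q) (hm : m ∈ A)
    (hmx : ∀ a ∈ A, a ≤ m) : oc ep b A y = oc ep b (A.erase m) m * ep m y := by
  unfold oc
  have h1 : A.card = (A.erase m).card + 1 := by
    rw [Finset.card_erase_of_mem hm]
    have := Finset.card_pos.2 ⟨m, hm⟩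
    omega
  rw [h1]
  conv_lhs => unfold ocAux
  have h2 : A.filter (fun m => ∀ a ∈ A, a ≤ m) = {m} := by
    ext z
    simp only [Finset.mem_filter, Finset.mem_singleton]
    constructor
    · rintro ⟨hz, hz2⟩
      exact le_antisymm (hmx z hz) (hz2 m hm)
    · rintro rfl
      exact ⟨hm, hmx⟩
  rw [h2, Finset.sum_singleton]

/-- removing the common maximum does not change the coefficient of the boundary -/
theorem dE_erase_max (A' A : Finset Q) (x : Q) (hx' : x ∈ A') (hx : x ∈ A)
    (hmx : ∀ a ∈ A, a ≤ x) : dE A' A = dE (A'.erase x) (A.erase x) := by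
  unfold dE
  rw [← Finset.add_sum_erase A _ hx]
  have h0 : (if A' = A.erase x then (-1 : ℤ) ^ pos A x else 0) = 0 := by
    rw [if_neg]
    intro h
    rw [h] at hx'
    exact Finset.notMem_erase x A hx'
  rw [h0, zero_add]
  apply Finset.sum_congr rfl
  intro a ha
  have hax : a ≠ x := Finset.ne_of_mem_erase ha
  have h1 : pos (A.erase x) a = pos A a := by
    unfold pos
    congr 1
    ext z
    simp only [Finset.mem_filter, Finset.mem_erase]
    constructor
    · rintro ⟨⟨_, h1⟩, h2⟩; exact ⟨h1, h2⟩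
    · rintro ⟨h1, h2⟩
      refine ⟨⟨?_, h1⟩, h2⟩
      rintro rfl
      exact absurd (hmx a (Finset.mem_of_mem_erase ha)) (not_le_of_gt h2)
  rw [h1]
  have h2 : (A' = A.erase a) ↔ (A'.erase x = (A.erase x).erase a) := by
    rw [Finset.erase_right_comm]
    constructor
    · intro h; rw [h]
    · intro h
      have hx2 : x ∈ A.erase a := Finset.mem_erase.2 ⟨Ne.symm hax, hx⟩
      rw [← Finset.insert_erase hx', ← Finset.insert_erase hx2, h]
  simp only [h2]

/-- the simplicial identity -/
theorem dEk_sq (A C : Finset Q) (hA : IsChain (· ≤ ·) (A : Set Q)) :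
    ∑ a ∈ A, (-1 : ℤ) ^ pos A a * dE C (A.erase a) = 0 := by
  unfold dE
  simp only [Finset.mul_sum]
  rw [Finset.sum_sigma']
  apply Finset.sum_involution (fun p _ => ⟨p.2, p.1⟩)
  · rintro ⟨a, b⟩ hab
    simp only [Finset.mem_sigma, Finset.mem_erase] at hab
    obtain ⟨ha, hba, hb⟩ := hab
    simp only
    rw [Finset.erase_right_comm (a := b) (b := a)]
    by_cases hC : C = (A.erase a).erase b
    · rw [if_pos hC, if_pos hC]
      have key : ∀ a b : Q, a ∈ A → b ∈ A → a < b →
          pos (A.erase b) a = pos A a ∧ pos (A.erase a) b + 1 = pos A b := by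
        intro a b ha hb hlt
        constructor
        · unfold pos
          congr 1
          ext z
          simp only [Finset.mem_filter, Finset.mem_erase]
          constructor
          · rintro ⟨⟨_, h1⟩, h2⟩; exact ⟨h1, h2⟩
          · rintro ⟨h1, h2⟩
            refine ⟨⟨?_, h1⟩, h2⟩
            rintro rfl
            exact absurd hlt (not_lt_of_gt h2)
        · unfold pos
          have hmem : a ∈ A.filter (fun x => x < b) := Finset.mem_filter.2 ⟨ha, hlt⟩
          have hpos := Finset.card_pos.2 ⟨a, hmem⟩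
          rw [Finset.filter_erase, Finset.card_erase_of_mem hmem]
          omega
      rcases hA ha hb (Ne.symm hba) with h | h
      · obtain ⟨h1, h2⟩ := key a b ha hb (lt_of_le_of_ne h (Ne.symm hba))
        rw [h1, ← h2]
        ring
      · obtain ⟨h1, h2⟩ := key b a hb ha (lt_of_le_of_ne h hba)
        rw [h1, ← h2]
        ring
    · rw [if_neg hC, if_neg hC]; simp
  · rintro ⟨a, b⟩ hab _ h
    simp only [Finset.mem_sigma, Finset.mem_erase] at hab
    simp only [Sigma.mk.injEq] at h
    exact hab.2.1 h.1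
  · rintro ⟨a, b⟩ _
    rfl
  · rintro ⟨a, b⟩ hab
    simp only [Finset.mem_sigma, Finset.mem_erase] at hab ⊢
    exact ⟨hab.2.2, Ne.symm hab.2.1, hab.1⟩

theorem dE_ne_zero {A' A : Finset Q} (h : dE A' A ≠ 0) : ∃ a ∈ A, A' = A.erase a := by
  unfold dE at h
  obtain ⟨a, ha, h2⟩ := Finset.exists_ne_zero_of_sum_ne_zero h
  refine ⟨a, ha, ?_⟩
  by_contra hne
  rw [if_neg hne] at h2
  exact h2 rfl

theorem dE_empty (A' : Finset Q) : dE A' (∅ : Finset Q) = 0 := by
  unfold dE; simp

theorem dEk_erase (A : Finset Q) (x : Q) (hx : x ∈ A) : dE (A.erase x) A = (-1) ^ pos A x := by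
  unfold dE
  rw [Finset.sum_eq_single x]
  · simp
  · intro b hb hbx
    rw [if_neg]
    intro h
    have : b ∈ A.erase x := Finset.mem_erase.2 ⟨hbx, hb⟩
    rw [h] at this
    exact Finset.notMem_erase b A this
  · intro h; exact absurd hx h

end

end Pool.Agent.Helper635.PD4
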