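import Pool.Agent.Helper635_PD4.FD
import Pool.Agent.Helper635_PD4.ConeAux2

/-!
# Module B: Lemma P
-/

open scoped Classical

namespace Pool.Agent.Helper635.PD4

theorem exa_pair' {V : Type*} (S : Finset V) (E : V → V → ℤ) (a b : V)
    (hS : ∀ v, v ∈ S ↔ v = a ∨ v = b) (hab : a ≠ b) (h1 : E a b = 1 ∨ E a b = -1)
    (h2 : E a a = 0) (h3 : E b a = 0) (h4 : E b b = 0) : Exa S E := by
  have h : S = {a, b} := by
    ext v
    rw [hS, Finset.mem_insert, Finset.mem_singleton]
  rw [h]
  exact exa_pair E a b hab h1 h2 h3 h4

theorem exa_pull' {V V' : Type*} [inst : DecidableEq V'] (S : Finset V) (E' : V' → V' → ℤ)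
    (φ : V → V') (hφ : Set.InjOn φ (S : Set V)) :
    Exa (@Finset.image V V' inst φ S) E' ↔ Exa S (fun u v => E' (φ u) (φ v)) := by
  have e : inst = fun a b => Classical.propDecidable (a = b) := Subsingleton.elim _ _
  subst e
  exact exa_pull S E' φ hφ

theorem exa_iso' {V V' : Type*} [inst : DecidableEq V'] (S : Finset V) (E : V → V → ℤ)
    (E' : V' → V' → ℤ) (φ : V → V') (s : V → ℤ)
    (hφ : Set.InjOn φ (S : Set V)) (hs : ∀ v ∈ S, s v * s v = 1)
    (hE : ∀ u ∈ S, ∀ v ∈ S, E' (φ u) (φ v) = s u * s v * E u v) :
    Exa (@Finset.image V V' inst φ S) E' ↔ Exa S E := by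
  have e : inst = fun a b => Classical.propDecidable (a = b) := Subsingleton.elim _ _
  subst e
  exact exa_iso S E E' φ s hφ hs hE

theorem exa_sub' {V : Type*} [inst : DecidableEq V] (A B : Finset V) (E : V → V → ℤ)
    (hd : Disjoint A B)
    (hAB : ∀ b ∈ B, ∀ a ∈ A, E b a = 0) (hsq : Sq (A ∪ B) E)
    (hS : Exa (A ∪ B) E) (hB : Exa B E) : Exa A E := by
  have e : inst = fun a b => Classical.propDecidable (a = b) := Subsingleton.elim _ _
  subst e
  exact exa_sub A B E hd hAB hsq hS hB

section lemP
variable {Q : Type*} [PartialOrder Q]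

theorem chain_max {A : Finset Q} (hA : IsChain (· ≤ ·) (A : Set Q)) (hne : A.Nonempty) :
    ∃ x ∈ A, ∀ a ∈ A, a ≤ x := by
  obtain ⟨m, hm⟩ := A.exists_maximal hne
  refine ⟨m, hm.1, fun b hb => ?_⟩
  by_cases h : b = m
  · exact h.le
  · rcases hA hb hm.1 h with h1 | h1
    · exact h1
    · exact hm.2 hb h1

/-- the maximum of the chain `A`, or `b` if `A` is empty -/
noncomputable def lvl (b : Q) (A : Finset Q) : Q :=
  if h : ∃ x ∈ A, ∀ a ∈ A, a ≤ x then h.choose else b

theorem lvl_empty (b : Q) : lvl b (∅ : Finset Q) = b := by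
  unfold lvl
  rw [dif_neg]
  rintro ⟨x, hx, _⟩
  exact absurd hx (Finset.notMem_empty x)

theorem lvl_spec (b : Q) {A : Finset Q} (hA : IsChain (· ≤ ·) (A : Set Q)) (hne : A.Nonempty) :
    lvl b A ∈ A ∧ ∀ a ∈ A, a ≤ lvl b A := by
  have h := chain_max hA hne
  unfold lvl
  rw [dif_pos h]
  exact h.choose_spec

theorem lvl_eq (b : Q) {A : Finset Q} {x : Q} (hx : x ∈ A) (h : ∀ a ∈ A, a ≤ x) :
    lvl b A = x := by
  have h' : ∃ x ∈ A, ∀ a ∈ A, a ≤ x := ⟨x, hx, h⟩
  unfold lvl
  rw [dif_pos h']
  exact le_antisymm (h _ h'.choose_spec.1) (h'.choose_spec.2 x hx)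

/-- the coefficients of the chain `Φ(z)` -/
noncomputable def PhiC (ep : Q → Q → ℤ) (b : Q) (A : Finset Q) (z : Q) : ℤ :=
  if z = lvl b A then (if A = ∅ then 1 else oc ep b (A.erase z) z) else 0

theorem PhiC_ne {ep : Q → Q → ℤ} {b : Q} {A : Finset Q} {z : Q} (h : PhiC ep b A z ≠ 0) :
    z = lvl b A := by
  by_contra h2
  unfold PhiC at h
  rw [if_neg h2] at h
  exact h rfl

theorem oc_decomp (ep : Q → Q → ℤ) (b : Q) {A : Finset Q} (hA : IsChain (· ≤ ·) (A : Set Q))
    (y : Q) : oc ep b A y = PhiC ep b A (lvl b A) * ep (lvl b A) y := by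
  unfold PhiC
  rw [if_pos rfl]
  by_cases h : A = ∅
  · rw [if_pos h, h, lvl_empty, one_mul]
    rfl
  · rw [if_neg h]
    obtain ⟨h1, h2⟩ := lvl_spec b hA (Finset.nonempty_iff_ne_empty.2 h)
    exact oc_top ep b y _ A h1 h2

theorem PhiC_rank {rk : Q → ℕ} {ep : Q → Q → ℤ} (gr : Gr rk ep) (b : Q) {A : Finset Q}
    (hA : IsChain (· ≤ ·) (A : Set Q)) (h : PhiC ep b A (lvl b A) ≠ 0) :
    rk (lvl b A) = rk b + A.card := by
  unfold PhiC at h
  rw [if_pos rfl] at h
  by_cases h0 : A = ∅
  · rw [h0, lvl_empty]; rfl
  · rw [if_neg h0] at h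
    have hne := Finset.nonempty_iff_ne_empty.2 h0
    have h1 := oc_rank gr b _ _ h
    have h2 := Finset.card_erase_of_mem (lvl_spec b hA hne).1
    have h3 := Finset.card_pos.2 hne
    omega

/-- signs -/
def sgn (rk : Q → ℕ) (b z : Q) : ℤ := (-1) ^ (rk z + rk b + 1)

omit [PartialOrder Q] in
theorem sgn_sq (rk : Q → ℕ) (b z : Q) : sgn rk b z * sgn rk b z = 1 := by
  unfold sgn
  rw [← pow_add, ← two_mul, pow_mul]
  simp

omit [PartialOrder Q] in
theorem sgn_succ {rk : Q → ℕ} {b z z' : Q} (h : rk z = rk z' + 1) :
    sgn rk b z' = - sgn rk b z := by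
  unfold sgn
  rw [h]
  ring

/-- the matrix of the big complex -/
noncomputable def bigF (rk : Q → ℕ) (ep : Q → Q → ℤ) (b y : Q) :
    Option (Finset Q) ⊕ Q → Option (Finset Q) ⊕ Q → ℤ
  | Sum.inl u, Sum.inl v => EP ep b y u v
  | Sum.inl (some A), Sum.inr z => PhiC ep b A z
  | Sum.inl none, Sum.inr z => if z = y then sgn rk b y else 0
  | Sum.inr z', Sum.inr z => -(sgn rk b z * ep z' z)
  | Sum.inr _, Sum.inl _ => 0

/-- the hypotheses of Lemma P -/
structure LH (ep : Q → Q → ℤ) (b y : Q) (σ : Finset Q) : Prop where
  hby : b < y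
  hσ : σ ∈ Kset b y σ
  hg : ∀ x z, (x = b ∨ x ∈ σ) → x < z → z ≤ y → (∀ s ∈ σ, x < s → z ≤ s) → Good ep x z

/-- the conclusion of Lemma P -/
def LC (ep : Q → Q → ℤ) (b y : Q) (σ : Finset Q) : Prop :=
  ∃ hf : (Kset b y σ).Finite,
      Sq (Finset.insertNone hf.toFinset) (EP ep b y) ∧
      Exa (Finset.insertNone hf.toFinset) (EP ep b y)

/-- `m` is the maximum of `b` and `σ` -/
structure IsM (b : Q) (σ : Finset Q) (m : Q) : Prop where
  mem : m = b ∨ m ∈ σ
  le : ∀ s ∈ σ, s ≤ m

theorem exists_m {ep : Q → Q → ℤ} {b y : Q} {σ : Finset Q} (H : LH ep b y σ) :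
    ∃ m, IsM b σ m ∧ b ≤ m ∧ m < y := by
  rcases σ.eq_empty_or_nonempty with h | h
  · exact ⟨b, ⟨Or.inl rfl, fun s hs => by rw [h] at hs; exact absurd hs (Finset.notMem_empty s)⟩,
      le_rfl, H.hby⟩
  · obtain ⟨m, hm, hm2⟩ := chain_max H.hσ.2.1 h
    exact ⟨m, ⟨Or.inr hm, hm2⟩, (H.hσ.2.2 m hm).1.le, (H.hσ.2.2 m hm).2⟩

theorem lh_down {ep : Q → Q → ℤ} {b y : Q} {σ : Finset Q} (H : LH ep b y σ) {m : Q}
    (hm : IsM b σ m) {z : Q} (hmz : m ≤ z) (hzy : z < y) (hbz : b < z) :
    LH ep b z (σ.erase z) where
  hby := hbz
  hσ := by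
    refine ⟨subset_rfl, ?_, ?_⟩
    · exact H.hσ.2.1.mono (by
        intro x hx
        exact Finset.mem_coe.2 (Finset.mem_of_mem_erase (Finset.mem_coe.1 hx)))
    · intro a ha
      rw [Finset.mem_erase] at ha
      exact ⟨(H.hσ.2.2 a ha.2).1, lt_of_le_of_ne ((hm.le a ha.2).trans hmz) ha.1⟩
  hg := by
    intro x w hx hxw hwz hs
    apply H.hg x w
    · rcases hx with hx | hx
      · exact Or.inl hx
      · exact Or.inr (Finset.mem_of_mem_erase hx)
    · exact hxw
    · exact hwz.trans hzy.le
    · intro s hsσ hxs
      by_cases hsz : s = z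
      · rw [hsz]; exact hwz
      · exact hs s (Finset.mem_erase.2 ⟨hsz, hsσ⟩) hxs

theorem good_my {ep : Q → Q → ℤ} {b y : Q} {σ : Finset Q} (H : LH ep b y σ) {m : Q}
    (hm : IsM b σ m) (hmy : m < y) : Good ep m y :=
  H.hg m y hm.mem hmy le_rfl (fun s hs hlt => absurd (hm.le s hs) (not_le_of_gt hlt))

section facts
variable {b y : Q} {σ : Finset Q}

theorem lvl_lt {A : Finset Q} (hby : b < y) (hA : A ∈ Kset b y σ) : lvl b A < y := by
  rcases A.eq_empty_or_nonempty with h | h
  · rw [h, lvl_empty]; exact hby
  · exact (hA.2.2 _ (lvl_spec b hA.2.1 h).1).2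

theorem b_le_lvl {A : Finset Q} (hA : A ∈ Kset b y σ) : b ≤ lvl b A := by
  rcases A.eq_empty_or_nonempty with h | h
  · rw [h, lvl_empty]
  · exact (hA.2.2 _ (lvl_spec b hA.2.1 h).1).1.le

theorem m_le_lvl {m : Q} (hm : IsM b σ m) {A : Finset Q} (hA : A ∈ Kset b y σ) :
    m ≤ lvl b A := by
  rcases hm.mem with h | h
  · rw [h]; exact b_le_lvl hA
  · have h1 := hA.1 h
    exact (lvl_spec b hA.2.1 ⟨m, h1⟩).2 m h1

theorem lvl_mem {A : Finset Q} (hA : A ∈ Kset b y σ) (h : lvl b A ≠ b) : lvl b A ∈ A := by
  rcases A.eq_empty_or_nonempty with h0 | h0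
  · rw [h0, lvl_empty] at h; exact absurd rfl h
  · exact (lvl_spec b hA.2.1 h0).1

theorem le_lvl {A : Finset Q} (hA : A ∈ Kset b y σ) {a : Q} (ha : a ∈ A) : a ≤ lvl b A :=
  (lvl_spec b hA.2.1 ⟨a, ha⟩).2 a ha

theorem empty_of_lvl {A : Finset Q} (hA : A ∈ Kset b y σ) (h : lvl b A = b) : A = ∅ := by
  by_contra h0
  have h1 := (lvl_spec b hA.2.1 (Finset.nonempty_iff_ne_empty.2 h0)).1
  rw [h] at h1
  exact lt_irrefl b (hA.2.2 b h1).1

theorem erase_mem_Kset {A : Finset Q} (hA : A ∈ Kset b y σ) {z : Q} (hz : lvl b A = z) :
    A.erase z ∈ Kset b z (σ.erase z) := by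
  refine ⟨Finset.erase_subset_erase z hA.1, ?_, ?_⟩
  · exact hA.2.1.mono (by
      intro x hx
      exact Finset.mem_coe.2 (Finset.mem_of_mem_erase (Finset.mem_coe.1 hx)))
  · intro a ha
    rw [Finset.mem_erase] at ha
    refine ⟨(hA.2.2 a ha.2).1, lt_of_le_of_ne ?_ ha.1⟩
    rw [← hz]
    exact le_lvl hA ha.2

theorem insert_mem_Kset {B : Finset Q} {z : Q} (hB : B ∈ Kset b z (σ.erase z)) (hbz : b < z)
    (hzy : z < y) : insert z B ∈ Kset b y σ ∧ lvl b (insert z B) = z ∧ (insert z B).erase z = B := by
  have hzB : z ∉ B := fun h => lt_irrefl z (hB.2.2 z h).2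
  refine ⟨⟨?_, ?_, ?_⟩, ?_, ?_⟩
  · intro s hs
    by_cases hsz : s = z
    · rw [hsz]; exact Finset.mem_insert_self _ _
    · exact Finset.mem_insert_of_mem (hB.1 (Finset.mem_erase.2 ⟨hsz, hs⟩))
  · intro u hu v hv huv
    rw [Finset.mem_coe, Finset.mem_insert] at hu hv
    rcases hu with rfl | hu <;> rcases hv with rfl | hv
    · exact absurd rfl huv
    · exact Or.inr (hB.2.2 v hv).2.le
    · exact Or.inl (hB.2.2 u hu).2.le
    · exact hB.2.1 hu hv huv
  · intro a ha
    rcases Finset.mem_insert.1 ha with rfl | ha
    · exact ⟨hbz, hzy⟩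
    · exact ⟨(hB.2.2 a ha).1, (hB.2.2 a ha).2.trans hzy⟩
  · apply lvl_eq
    · exact Finset.mem_insert_self _ _
    · intro a ha
      rcases Finset.mem_insert.1 ha with rfl | ha
      · exact le_rfl
      · exact (hB.2.2 a ha).2.le
  · exact Finset.erase_insert hzB

end facts

section step
variable {rk : Q → ℕ} {ep : Q → Q → ℤ} (gr : Gr rk ep) {b y : Q} {σ : Finset Q}
  (H : LH ep b y σ) {m : Q} (hm : IsM b σ m) (hbm : b ≤ m) (hmy : m < y)
  (IH : ∀ z τ, rk z < rk y → LH ep b z τ → LC ep b z τ)

include gr H hm IH in
theorem kset_finite (hIcc : (Set.Icc m y).Finite) : (Kset b y σ).Finite := by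
  have hfin : ∀ i ∈ Set.Icc m y, ((fun B : Finset Q => insert i B) ''
      {B | B ∈ Kset b i (σ.erase i) ∧ b < i ∧ i < y}).Finite := by
    intro i hi
    apply Set.Finite.image
    by_cases h : b < i ∧ i < y
    · obtain ⟨hf, _⟩ := IH i (σ.erase i) (gr.lt _ _ h.2) (lh_down H hm hi.1 h.2 h.1)
      exact hf.subset (fun B hB => hB.1)
    · apply Set.Finite.subset Set.finite_empty
      intro B hB
      exact absurd hB.2 h
  have h1 : Kset b y σ ⊆ {∅} ∪ ⋃ i ∈ Set.Icc m y, ((fun B : Finset Q => insert i B) ''
      {B | B ∈ Kset b i (σ.erase i) ∧ b < i ∧ i < y}) := by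
    intro A hA
    by_cases h0 : lvl b A = b
    · left
      exact empty_of_lvl hA h0
    · right
      have h2 := m_le_lvl hm hA
      have h3 := lvl_lt H.hby hA
      have h4 := lvl_mem hA h0
      rw [Set.mem_iUnion₂]
      refine ⟨lvl b A, ⟨h2, h3.le⟩, A.erase (lvl b A), ⟨erase_mem_Kset hA rfl, ?_, h3⟩, ?_⟩
      · exact lt_of_le_of_ne (b_le_lvl hA) (Ne.symm h0)
      · exact Finset.insert_erase h4
  exact ((Set.finite_singleton _).union (Set.Finite.biUnion hIcc hfin)).subset h1

/-- the formula for the boundary of `Φ(z)` -/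
theorem bd_Phi (hf : (Kset b y σ).Finite) (z : Q) (hmz : m ≤ z) (hzy : z < y)
    {C : Finset Q} (hC : C ∈ Kset b y σ)
    (gr : Gr rk ep) (H : LH ep b y σ) (hm : IsM b σ m) (hbm : b ≤ m)
    (IH : ∀ z τ, rk z < rk y → LH ep b z τ → LC ep b z τ) :
    ∑ A ∈ hf.toFinset, dE C A * PhiC ep b A z =
      sgn rk b z * (ep (lvl b C) z * PhiC ep b C (lvl b C)) := by
  by_cases hz : z = lvl b C
  · have h0 : ep (lvl b C) z = 0 := by
      by_contra h
      rw [← hz] at h
      exact lt_irrefl _ (gr.ne _ _ h).1
    rw [h0, zero_mul, mul_zero]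
    by_cases hzb : z = b
    · apply Finset.sum_eq_zero
      intro A hA
      rw [Set.Finite.mem_toFinset] at hA
      by_contra hne
      have h1 := PhiC_ne (right_ne_zero_of_mul hne)
      obtain ⟨a, ha, _⟩ := dE_ne_zero (left_ne_zero_of_mul hne)
      have h2 := empty_of_lvl hA (by rw [← h1, hzb])
      rw [h2] at ha
      exact absurd ha (Finset.notMem_empty a)
    · have hbz : b < z := lt_of_le_of_ne (hbm.trans hmz) (Ne.symm hzb)
      obtain ⟨hf', hsq, _⟩ := IH z (σ.erase z) (gr.lt _ _ hzy) (lh_down H hm hmz hzy hbz)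
      have hCz : C.erase z ∈ Kset b z (σ.erase z) := erase_mem_Kset hC hz.symm
      have h5 := hsq (some (C.erase z)) (by
        rw [Finset.some_mem_insertNone, Set.Finite.mem_toFinset]
        exact hCz) none Finset.none_mem_insertNone
      rw [Finset.sum_insertNone] at h5
      have h6 : EP ep b z none none = 0 := rfl
      rw [h6, mul_zero, zero_add] at h5
      rw [← h5]
      symm
      apply Finset.sum_of_injOn (fun B => insert z B)
      · intro B hB B' hB' heq
        rw [Finset.mem_coe, Set.Finite.mem_toFinset] at hB hB'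
        have e1 := (insert_mem_Kset hB hbz hzy).2.2
        have e2 := (insert_mem_Kset hB' hbz hzy).2.2
        simp only at heq
        rw [← e1, heq, e2]
      · intro B hB
        rw [Finset.mem_coe, Set.Finite.mem_toFinset] at hB ⊢
        exact (insert_mem_Kset hB hbz hzy).1
      · intro A hA hA2
        rw [Set.Finite.mem_toFinset] at hA
        have : PhiC ep b A z = 0 := by
          by_contra h
          have h7 := PhiC_ne h
          apply hA2
          refine ⟨A.erase z, ?_, ?_⟩
          · rw [Finset.mem_coe, Set.Finite.mem_toFinset]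
            exact erase_mem_Kset hA h7.symm
          · apply Finset.insert_erase
            rw [h7]
            exact lvl_mem hA (by rw [← h7]; exact hzb)
        rw [this, mul_zero]
      · intro B hB
        rw [Set.Finite.mem_toFinset] at hB
        obtain ⟨e1, e2, e3⟩ := insert_mem_Kset hB hbz hzy
        have hzC : z ∈ C := by
          have := lvl_mem hC (by rw [← hz]; exact hzb)
          rwa [← hz] at this
        have e4 : dE C (insert z B) = dE (C.erase z) B := by
          rw [dE_erase_max C (insert z B) z hzC (Finset.mem_insert_self _ _)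
            (fun a ha => by rw [← e2]; exact le_lvl e1 ha), e3]
        have e5 : PhiC ep b (insert z B) z = oc ep b B z := by
          unfold PhiC
          rw [if_pos e2.symm, if_neg (Finset.insert_ne_empty _ _), e3]
        rw [e4, e5]
        rfl
  · -- `z` is not the maximum of `C`
    have hkey : ∀ A ∈ Kset b y σ, dE C A * PhiC ep b A z ≠ 0 →
        z ∈ A ∧ C = A.erase z ∧ lvl b C < z := by
      intro A hA hne
      have h1 := PhiC_ne (right_ne_zero_of_mul hne)
      obtain ⟨a, ha, hCa⟩ := dE_ne_zero (left_ne_zero_of_mul hne)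
      have hAne : A.Nonempty := ⟨a, ha⟩
      have hzA : z ∈ A := by rw [h1]; exact (lvl_spec b hA.2.1 hAne).1
      have haz : a = z := by
        by_contra hne2
        apply hz
        symm
        apply lvl_eq
        · rw [hCa]; exact Finset.mem_erase.2 ⟨Ne.symm hne2, hzA⟩
        · intro c hc
          rw [hCa] at hc
          rw [h1]
          exact le_lvl hA (Finset.mem_of_mem_erase hc)
      rw [haz] at hCa
      refine ⟨hzA, hCa, ?_⟩
      rcases C.eq_empty_or_nonempty with h | h
      · rw [h, lvl_empty]; exact (hA.2.2 z hzA).1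
      · have h2 := (lvl_spec b hC.2.1 h).1
        apply lt_of_le_of_ne _ (Ne.symm hz)
        rw [h1]
        apply le_lvl hA
        rw [hCa] at h2
        have h3 := Finset.mem_of_mem_erase h2
        rw [← hCa] at h3
        exact h3
    by_cases hlt : lvl b C < z
    · have hbz : b < z := lt_of_le_of_lt (b_le_lvl hC) hlt
      have hCz : ∀ c ∈ C, c < z := fun c hc => lt_of_le_of_lt (le_lvl hC hc) hlt
      have hzC : z ∉ C := fun h => lt_irrefl z (hCz z h)
      have hCK : C ∈ Kset b z (σ.erase z) :=
        ⟨(Finset.erase_subset _ _).trans hC.1, hC.2.1, fun a ha => ⟨(hC.2.2 a ha).1, hCz a ha⟩⟩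
      obtain ⟨e1, e2, e3⟩ := insert_mem_Kset hCK hbz hzy
      have hfirst : ∑ A ∈ hf.toFinset, dE C A * PhiC ep b A z =
          dE C (insert z C) * PhiC ep b (insert z C) z := by
        apply Finset.sum_eq_single
        · intro A hA hne
          rw [Set.Finite.mem_toFinset] at hA
          by_contra h
          obtain ⟨h1, h2, _⟩ := hkey A hA h
          apply hne
          rw [h2, Finset.insert_erase h1]
        · intro h
          exact absurd ((Set.Finite.mem_toFinset hf).2 e1) h
      have e4 : dE C (insert z C) = (-1) ^ C.card := by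
        have h1 := dEk_erase (insert z C) z (Finset.mem_insert_self _ _)
        rw [e3] at h1
        rw [h1]
        congr 1
        unfold pos
        congr 1
        ext a
        rw [Finset.mem_filter, Finset.mem_insert]
        constructor
        · rintro ⟨h1 | h1, h2⟩
          · exact absurd h2 (by rw [h1]; exact lt_irrefl z)
          · exact h1
        · intro h; exact ⟨Or.inr h, hCz a h⟩
      have e5 : PhiC ep b (insert z C) z = oc ep b C z := by
        unfold PhiC
        rw [if_pos e2.symm, if_neg (Finset.insert_ne_empty _ _), e3]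
      rw [hfirst, e4, e5, oc_decomp ep b hC.2.1 z]
      by_cases h0 : PhiC ep b C (lvl b C) * ep (lvl b C) z = 0
      · rw [mul_comm (ep (lvl b C) z), h0, mul_zero, mul_zero]
      · have h1 := PhiC_rank gr b hC.2.1 (left_ne_zero_of_mul h0)
        have h2 := (gr.ne _ _ (right_ne_zero_of_mul h0)).2
        have h3 : sgn rk b z = (-1) ^ C.card := by
          unfold sgn
          rw [h2, h1, show rk b + C.card + 1 + rk b + 1 = C.card + 2 * (rk b + 1) by ring,
            pow_add, pow_mul]
          simp
        rw [h3]; ring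
    · have h0 : ep (lvl b C) z = 0 := by
        by_contra h
        exact hlt (gr.ne _ _ h).1
      rw [h0, zero_mul, mul_zero]
      apply Finset.sum_eq_zero
      intro A hA
      rw [Set.Finite.mem_toFinset] at hA
      by_contra h
      exact hlt (hkey A hA h).2.2

/-- the square of the differential on the interval, with signs -/
theorem sq_int (gr : Gr rk ep) (hgood : Good ep m y) (hIcc : (Set.Icc m y).Finite)
    {z' w : Q} (hz' : z' ∈ hIcc.toFinset) (hw : w ∈ hIcc.toFinset) :
    ∑ z ∈ hIcc.toFinset, sgn rk b z * (ep z' z * ep z w) = 0 := by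
  have h1 : ∀ z ∈ hIcc.toFinset, sgn rk b z * (ep z' z * ep z w) =
      - sgn rk b w * (ep z' z * ep z w) := by
    intro z _
    by_cases h : ep z w = 0
    · rw [h]; ring
    · rw [sgn_succ (gr.ne _ _ h).2]
  rw [Finset.sum_congr rfl h1, ← Finset.mul_sum]
  have h2 := hgood.sq z' (by rw [Set.Finite.mem_toFinset] at hz' ⊢; exact hz') w
    (by rw [Set.Finite.mem_toFinset] at hw ⊢; exact hw)
  have h3 : hIcc.toFinset = hgood.fin.toFinset := by ext; simp
  rw [h3, h2, mul_zero]

/-- sum over the interval against `Φ` -/
theorem sum_Phi (hm : IsM b σ m) (hby : b < y) (hIcc : (Set.Icc m y).Finite)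
    {C : Finset Q} (hC : C ∈ Kset b y σ) (g : Q → ℤ) :
    ∑ z ∈ hIcc.toFinset, PhiC ep b C z * g z = PhiC ep b C (lvl b C) * g (lvl b C) := by
  apply Finset.sum_eq_single
  · intro z _ hz
    have : PhiC ep b C z = 0 := by
      by_contra h
      exact hz (PhiC_ne h)
    rw [this, zero_mul]
  · intro h
    exfalso
    apply h
    rw [Set.Finite.mem_toFinset]
    exact ⟨m_le_lvl hm hC, (lvl_lt hby hC).le⟩

/-- the simplicial part of the square -/
theorem sq_simp (hf : (Kset b y σ).Finite) {A C : Finset Q} (hA : A ∈ Kset b y σ)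
    (hC : C ∈ Kset b y σ) : ∑ B ∈ hf.toFinset, dE C B * dE B A = 0 := by
  have h1 : ∀ B : Finset Q, dE C B * dE B A =
      ∑ c ∈ A, (if B = A.erase c then (-1 : ℤ) ^ pos A c * dE C (A.erase c) else 0) := by
    intro B
    conv_lhs => rw [show dE B A = ∑ a ∈ A, if B = A.erase a then (-1) ^ pos A a else 0 from rfl]
    rw [Finset.mul_sum]
    apply Finset.sum_congr rfl
    intro c _
    by_cases h : B = A.erase c
    · rw [if_pos h, if_pos h, h]; ring
    · rw [if_neg h, if_neg h, mul_zero]
  rw [Finset.sum_congr rfl (fun B _ => h1 B), Finset.sum_comm]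
  refine Eq.trans ?_ (dEk_sq A C hA.2.1)
  apply Finset.sum_congr rfl
  intro c hc
  by_cases h0 : dE C (A.erase c) = 0
  · rw [h0, mul_zero]
    apply Finset.sum_eq_zero
    intro B _
    rw [ite_self]
  · refine (Finset.sum_eq_single (A.erase c) ?_ ?_).trans ?_
    · intro B _ hB
      rw [if_neg hB]
    · intro h
      exfalso
      apply h
      rw [Set.Finite.mem_toFinset]
      obtain ⟨a, _, ha⟩ := dE_ne_zero h0
      refine ⟨?_, ?_, ?_⟩
      · intro s hs
        have := hC.1 hs
        rw [ha] at this
        exact Finset.mem_of_mem_erase this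
      · exact hA.2.1.mono (by
          intro x hx
          exact Finset.mem_coe.2 (Finset.mem_of_mem_erase (Finset.mem_coe.1 hx)))
      · intro a ha
        exact hA.2.2 a (Finset.mem_of_mem_erase ha)
    · exact if_pos rfl

/-- the square on the top element -/
theorem sq_top (gr : Gr rk ep) (H : LH ep b y σ) (hm : IsM b σ m) (hbm : b ≤ m)
    (hmy : m < y) (IH : ∀ z τ, rk z < rk y → LH ep b z τ → LC ep b z τ)
    (hf : (Kset b y σ).Finite) (hIcc : (Set.Icc m y).Finite) {C : Finset Q}
    (hC : C ∈ Kset b y σ) : ∑ A ∈ hf.toFinset, dE C A * oc ep b A y = 0 := by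
  have h1 : ∀ A ∈ hf.toFinset, dE C A * oc ep b A y =
      ∑ z ∈ hIcc.toFinset, dE C A * PhiC ep b A z * ep z y := by
    intro A hA
    rw [Set.Finite.mem_toFinset] at hA
    rw [oc_decomp ep b hA.2.1 y, ← sum_Phi hm H.hby hIcc hA (fun z => ep z y), Finset.mul_sum]
    apply Finset.sum_congr rfl
    intro z _
    ring
  rw [Finset.sum_congr rfl h1, Finset.sum_comm]
  have h2 : ∀ z ∈ hIcc.toFinset, ∑ A ∈ hf.toFinset, dE C A * PhiC ep b A z * ep z y =
      PhiC ep b C (lvl b C) * (sgn rk b z * (ep (lvl b C) z * ep z y)) := by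
    intro z hz
    rw [Set.Finite.mem_toFinset] at hz
    rw [← Finset.sum_mul]
    by_cases hzy : z < y
    · rw [bd_Phi hf z hz.1 hzy hC gr H hm hbm IH]
      ring
    · have h3 : z = y := by
        by_contra h
        exact hzy (lt_of_le_of_ne hz.2 h)
      have h4 : ep z y = 0 := by
        by_contra h
        exact hzy (gr.ne _ _ h).1
      rw [h4]; ring
  rw [Finset.sum_congr rfl h2, ← Finset.mul_sum,
    sq_int gr (good_my H hm hmy) hIcc (z' := lvl b C) (w := y), mul_zero]
  · rw [Set.Finite.mem_toFinset]
    exact ⟨m_le_lvl hm hC, (lvl_lt H.hby hC).le⟩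
  · rw [Set.Finite.mem_toFinset]
    exact ⟨hmy.le, le_rfl⟩

theorem sq_EP (gr : Gr rk ep) (H : LH ep b y σ) (hm : IsM b σ m) (hbm : b ≤ m)
    (hmy : m < y) (IH : ∀ z τ, rk z < rk y → LH ep b z τ → LC ep b z τ)
    (hf : (Kset b y σ).Finite) (hIcc : (Set.Icc m y).Finite) :
    Sq (Finset.insertNone hf.toFinset) (EP ep b y) := by
  intro u hu w hw
  rw [Finset.sum_insertNone]
  rcases u with _ | C
  · have h1 : ∀ o, EP ep b y none o = 0 := fun o => rfl
    rw [h1, zero_mul, zero_add]
    apply Finset.sum_eq_zero
    intro A _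
    rw [h1, zero_mul]
  · rw [Finset.some_mem_insertNone, Set.Finite.mem_toFinset] at hu
    have h1 : EP ep b y none w = 0 := rfl
    rw [h1, mul_zero, zero_add]
    rcases w with _ | A
    · exact sq_top gr H hm hbm hmy IH hf hIcc hu
    · rw [Finset.some_mem_insertNone, Set.Finite.mem_toFinset] at hw
      exact sq_simp hf hw hu

/-- the big complex has square zero -/
theorem sq_big (gr : Gr rk ep) (H : LH ep b y σ) (hm : IsM b σ m) (hbm : b ≤ m)
    (hmy : m < y) (IH : ∀ z τ, rk z < rk y → LH ep b z τ → LC ep b z τ)
    (hf : (Kset b y σ).Finite) (hIcc : (Set.Icc m y).Finite) :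
    Sq ((Finset.insertNone hf.toFinset).disjSum hIcc.toFinset) (bigF rk ep b y) := by
  have hyy : ep y y = 0 := by
    by_contra h
    exact lt_irrefl _ (gr.ne _ _ h).1
  intro u hu w hw
  rw [Finset.sum_disjSum]
  rcases w with o | z
  · -- `w` in the subcomplex
    have h1 : ∀ z ∈ hIcc.toFinset, bigF rk ep b y u (Sum.inr z) *
        bigF rk ep b y (Sum.inr z) (Sum.inl o) = 0 := by
      intro z _
      have : bigF rk ep b y (Sum.inr z) (Sum.inl o) = 0 := rfl
      rw [this, mul_zero]
    rw [Finset.sum_eq_zero h1, add_zero]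
    rw [Finset.inl_mem_disjSum] at hw
    rcases u with o' | z'
    · rw [Finset.inl_mem_disjSum] at hu
      exact sq_EP gr H hm hbm hmy IH hf hIcc o' hu o hw
    · apply Finset.sum_eq_zero
      intro v _
      have : bigF rk ep b y (Sum.inr z') (Sum.inl v) = 0 := rfl
      rw [this, zero_mul]
  · rw [Finset.inr_mem_disjSum] at hw
    have hzmem := hw
    rw [Set.Finite.mem_toFinset] at hzmem
    rcases u with o' | z'
    · rw [Finset.inl_mem_disjSum] at hu
      rw [Finset.sum_insertNone]
      rcases o' with _ | C
      · -- `u` is the top element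
        have h1 : ∀ v, bigF rk ep b y (Sum.inl none) (Sum.inl v) = 0 := fun v => rfl
        rw [h1, zero_mul, zero_add]
        have h2 : ∀ A ∈ hf.toFinset, bigF rk ep b y (Sum.inl none) (Sum.inl (some A)) *
            bigF rk ep b y (Sum.inl (some A)) (Sum.inr z) = 0 := by
          intro A _
          rw [h1, zero_mul]
        rw [Finset.sum_eq_zero h2, zero_add]
        apply Finset.sum_eq_zero
        intro z' hz'
        show (if z' = y then sgn rk b y else 0) * -(sgn rk b z * ep z' z) = 0
        by_cases h : z' = y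
        · have h3 : ep z' z = 0 := by
            by_contra h4
            have := (gr.ne _ _ h4).1
            rw [h] at this
            exact absurd hzmem.2 (not_le_of_gt this)
          rw [h3]; ring
        · rw [if_neg h, zero_mul]
      · rw [Finset.some_mem_insertNone, Set.Finite.mem_toFinset] at hu
        have h1 : ∑ z' ∈ hIcc.toFinset, bigF rk ep b y (Sum.inl (some C)) (Sum.inr z') *
            bigF rk ep b y (Sum.inr z') (Sum.inr z) =
            PhiC ep b C (lvl b C) * -(sgn rk b z * ep (lvl b C) z) :=
          sum_Phi hm H.hby hIcc hu (fun z' => -(sgn rk b z * ep z' z))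
        rw [h1]
        by_cases hzy : z = y
        · have h2 : ∑ A ∈ hf.toFinset, bigF rk ep b y (Sum.inl (some C)) (Sum.inl (some A)) *
              bigF rk ep b y (Sum.inl (some A)) (Sum.inr z) = 0 := by
            apply Finset.sum_eq_zero
            intro A hA
            rw [Set.Finite.mem_toFinset] at hA
            have h3 : bigF rk ep b y (Sum.inl (some A)) (Sum.inr z) = 0 := by
              show PhiC ep b A z = 0
              by_contra h
              have h4 := PhiC_ne h
              have h5 := lvl_lt H.hby hA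
              rw [← h4, hzy] at h5
              exact lt_irrefl _ h5
            rw [h3, mul_zero]
          rw [h2, add_zero]
          have h3 : bigF rk ep b y (Sum.inl (some C)) (Sum.inl none) *
              bigF rk ep b y (Sum.inl none) (Sum.inr z) = oc ep b C y * sgn rk b y := by
            show oc ep b C y * (if z = y then sgn rk b y else 0) = _
            rw [if_pos hzy]
          rw [h3, oc_decomp ep b hu.2.1 y, hzy]
          ring
        · have hzlt : z < y := lt_of_le_of_ne hzmem.2 hzy
          have h2 : ∑ A ∈ hf.toFinset, bigF rk ep b y (Sum.inl (some C)) (Sum.inl (some A)) *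
              bigF rk ep b y (Sum.inl (some A)) (Sum.inr z) =
              sgn rk b z * (ep (lvl b C) z * PhiC ep b C (lvl b C)) :=
            bd_Phi hf z hzmem.1 hzlt hu gr H hm hbm IH
          have h3 : bigF rk ep b y (Sum.inl none) (Sum.inr z) = 0 := by
            show (if z = y then sgn rk b y else 0) = 0
            rw [if_neg hzy]
          rw [h2, h3]
          ring
    · rw [Finset.inr_mem_disjSum] at hu
      have h1 : ∑ v ∈ Finset.insertNone hf.toFinset, bigF rk ep b y (Sum.inr z') (Sum.inl v) *
          bigF rk ep b y (Sum.inl v) (Sum.inr z) = 0 := by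
        apply Finset.sum_eq_zero
        intro v _
        have : bigF rk ep b y (Sum.inr z') (Sum.inl v) = 0 := rfl
        rw [this, zero_mul]
      rw [h1, zero_add]
      have h2 := sq_int (b := b) gr (good_my H hm hmy) hIcc hu hw
      have h3 : ∀ v ∈ hIcc.toFinset, bigF rk ep b y (Sum.inr z') (Sum.inr v) *
          bigF rk ep b y (Sum.inr v) (Sum.inr z) =
          sgn rk b z * (sgn rk b v * (ep z' v * ep v z)) := by
        intro v _
        show -(sgn rk b v * ep z' v) * -(sgn rk b z * ep v z) = _
        ring
      rw [Finset.sum_congr rfl h3, ← Finset.mul_sum, h2, mul_zero]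

/-- signs making the quotient complex equal to the interval -/
def sgr (c : ℕ) : ℕ → ℤ
  | 0 => 1
  | (r + 1) => sgr c r * (-(-1) ^ (r + 1 + c + 1))

theorem sgr_sq (c r : ℕ) : sgr c r * sgr c r = 1 := by
  induction r with
  | zero => rfl
  | succ r ih =>
    show sgr c r * (-(-1) ^ (r + 1 + c + 1)) * (sgr c r * (-(-1) ^ (r + 1 + c + 1))) = 1
    have h : ((-1 : ℤ) ^ (r + 1 + c + 1)) * ((-1 : ℤ) ^ (r + 1 + c + 1)) = 1 := by
      rw [← pow_add, ← two_mul, pow_mul]; simp
    calc sgr c r * (-(-1) ^ (r + 1 + c + 1)) * (sgr c r * (-(-1) ^ (r + 1 + c + 1)))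
        = (sgr c r * sgr c r) * (((-1 : ℤ) ^ (r + 1 + c + 1)) * ((-1 : ℤ) ^ (r + 1 + c + 1))) := by
          ring
      _ = 1 := by rw [ih, h]; ring

theorem exa_int (gr : Gr rk ep) (hgood : Good ep m y) (hIcc : (Set.Icc m y).Finite) :
    Exa hIcc.toFinset (fun z' z => -(sgn rk b z * ep z' z)) := by
  have h3 : hIcc.toFinset = hgood.fin.toFinset := by ext; simp
  rw [h3]
  apply exa_sign hgood.fin.toFinset ep _ (fun z => sgr (rk b) (rk z))
  · intro z _
    exact sgr_sq _ _
  · intro u _ v _
    by_cases h : ep u v = 0
    · rw [h]; ring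
    · have h1 := (gr.ne _ _ h).2
      rw [h1]
      show -(sgn rk b v * ep u v) = sgr (rk b) (rk u) * (sgr (rk b) (rk u) *
        (-(-1) ^ (rk u + 1 + rk b + 1))) * ep u v
      rw [← mul_assoc (sgr (rk b) (rk u)), sgr_sq]
      unfold sgn
      rw [h1]
      ring
  · exact hgood.exa

/-- the filtration of the big complex -/
noncomputable def bigf (b y : Q) : Option (Finset Q) ⊕ Q → Q
  | Sum.inl (some A) => lvl b A
  | Sum.inl none => y
  | Sum.inr z => z

theorem exa_big (gr : Gr rk ep) (H : LH ep b y σ) (hm : IsM b σ m) (hbm : b ≤ m)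
    (hmy : m < y) (IH : ∀ z τ, rk z < rk y → LH ep b z τ → LC ep b z τ)
    (hf : (Kset b y σ).Finite) (hIcc : (Set.Icc m y).Finite) :
    Exa ((Finset.insertNone hf.toFinset).disjSum hIcc.toFinset) (bigF rk ep b y) := by
  have hirr : ∀ z : Q, ep z z = 0 := by
    intro z
    by_contra h
    exact lt_irrefl _ (gr.ne _ _ h).1
  apply exa_filt _ _ (bigf b y) rk _ (sq_big gr H hm hbm hmy IH hf hIcc)
  · -- the pieces
    intro i
    by_cases hiy : i = y
    · have h1 : ∀ v, v ∈ ((Finset.insertNone hf.toFinset).disjSum hIcc.toFinset).filter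
          (fun v => bigf b y v = i) ↔ v = Sum.inl none ∨ v = Sum.inr y := by
        intro v
        rw [Finset.mem_filter]
        rcases v with (_ | A) | z
        · constructor
          · intro _; exact Or.inl rfl
          · intro _
            exact ⟨Finset.inl_mem_disjSum.2 Finset.none_mem_insertNone, hiy.symm⟩
        · constructor
          · rintro ⟨h1, h2⟩
            rw [Finset.inl_mem_disjSum, Finset.some_mem_insertNone, Set.Finite.mem_toFinset] at h1
            have h3 := lvl_lt H.hby h1
            have h4 : lvl b A = i := h2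
            rw [h4, hiy] at h3
            exact absurd h3 (lt_irrefl _)
          · rintro (h | h)
            · exact absurd h (by simp)
            · exact absurd h (by simp)
        · constructor
          · rintro ⟨_, h2⟩
            have h4 : z = i := h2
            right
            rw [h4, hiy]
          · rintro (h | h)
            · exact absurd h (by simp)
            · have h2 : z = y := by simpa using h
              refine ⟨?_, ?_⟩
              · rw [Finset.inr_mem_disjSum, Set.Finite.mem_toFinset, h2]
                exact ⟨hmy.le, le_rfl⟩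
              · show z = i
                rw [h2, hiy]
      apply exa_pair' _ (bigF rk ep b y) (Sum.inl none) (Sum.inr y) h1
      · simp
      · have h2 : bigF rk ep b y (Sum.inl none) (Sum.inr y) = sgn rk b y := by
          show (if y = y then sgn rk b y else 0) = _
          rw [if_pos rfl]
        rw [h2]
        unfold sgn
        exact neg_one_pow_eq_or ℤ _
      · rfl
      · rfl
      · show -(sgn rk b y * ep y y) = 0
        rw [hirr]; ring
    · by_cases hi : m ≤ i ∧ i < y
      · obtain ⟨hmi, hilt⟩ := hi
        by_cases hib : i = b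
        · -- the piece of `b`
          have h1 : ∀ v, v ∈ ((Finset.insertNone hf.toFinset).disjSum hIcc.toFinset).filter
              (fun v => bigf b y v = i) ↔ v = Sum.inl (some ∅) ∨ v = Sum.inr b := by
            have hmb : m = b := le_antisymm (by rw [← hib]; exact hmi) hbm
            have hσ0 : σ = ∅ := by
              rw [Finset.eq_empty_iff_forall_notMem]
              intro s hs
              have h2 := (H.hσ.2.2 s hs).1
              have h3 := hm.le s hs
              rw [hmb] at h3
              exact absurd h3 (not_le_of_gt h2)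
            intro v
            rw [Finset.mem_filter]
            rcases v with (_ | A) | z
            · constructor
              · rintro ⟨_, h2⟩
                exact absurd (show y = i from h2) (Ne.symm hiy)
              · rintro (h | h)
                · exact absurd h (by simp)
                · exact absurd h (by simp)
            · constructor
              · rintro ⟨h1, h2⟩
                rw [Finset.inl_mem_disjSum, Finset.some_mem_insertNone,
                  Set.Finite.mem_toFinset] at h1
                have h4 : lvl b A = i := h2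
                left
                rw [empty_of_lvl h1 (h4.trans hib)]
              · rintro (h | h)
                · have h2 : A = ∅ := by simpa using h
                  refine ⟨?_, ?_⟩
                  · rw [Finset.inl_mem_disjSum, Finset.some_mem_insertNone,
                      Set.Finite.mem_toFinset, h2]
                    refine ⟨by rw [hσ0], ?_, ?_⟩
                    · intro u hu; simp at hu
                    · intro u hu; simp at hu
                  · show lvl b A = i
                    rw [h2, lvl_empty, hib]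
                · exact absurd h (by simp)
            · constructor
              · rintro ⟨_, h2⟩
                have h4 : z = i := h2
                right
                rw [h4, hib]
              · rintro (h | h)
                · exact absurd h (by simp)
                · have h2 : z = b := by simpa using h
                  refine ⟨?_, ?_⟩
                  · rw [Finset.inr_mem_disjSum, Set.Finite.mem_toFinset, h2, ← hib]
                    exact ⟨hmi, hilt.le⟩
                  · show z = i
                    rw [h2, hib]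
          apply exa_pair' _ (bigF rk ep b y) (Sum.inl (some ∅)) (Sum.inr b) h1
          · simp
          · left
            show PhiC ep b ∅ b = 1
            unfold PhiC
            rw [lvl_empty, if_pos rfl, if_pos rfl]
          · exact dE_empty (∅ : Finset Q)
          · rfl
          · show -(sgn rk b b * ep b b) = 0
            rw [hirr]; ring
        · have hbi : b < i := lt_of_le_of_ne (hbm.trans hmi) (Ne.symm hib)
          obtain ⟨hf', _, hex⟩ := IH i (σ.erase i) (gr.lt _ _ hilt) (lh_down H hm hmi hilt hbi)
          -- the identification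
          set φ : Option (Finset Q) → Option (Finset Q) ⊕ Q := fun o =>
            match o with
            | some B => Sum.inl (some (insert i B))
            | none => Sum.inr i with hφ
          have h1 : ((Finset.insertNone hf.toFinset).disjSum hIcc.toFinset).filter
              (fun v => bigf b y v = i) = (Finset.insertNone hf'.toFinset).image φ := by
            ext v
            rw [Finset.mem_filter, Finset.mem_image]
            constructor
            · rintro ⟨h1, h2⟩
              rcases v with (_ | A) | z
              · exact absurd (show y = i from h2) (Ne.symm hiy)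
              · rw [Finset.inl_mem_disjSum, Finset.some_mem_insertNone,
                  Set.Finite.mem_toFinset] at h1
                have h4 : lvl b A = i := h2
                refine ⟨some (A.erase i), ?_, ?_⟩
                · rw [Finset.some_mem_insertNone, Set.Finite.mem_toFinset]
                  exact erase_mem_Kset h1 h4
                · show Sum.inl (some (insert i (A.erase i))) = _
                  rw [Finset.insert_erase]
                  have := lvl_mem h1 (by rw [h4]; exact hib)
                  rwa [h4] at this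
              · have h4 : z = i := h2
                exact ⟨none, Finset.none_mem_insertNone, by show Sum.inr i = _; rw [h4]⟩
            · rintro ⟨o, ho, rfl⟩
              rcases o with _ | B
              · refine ⟨?_, rfl⟩
                show Sum.inr i ∈ _
                rw [Finset.inr_mem_disjSum, Set.Finite.mem_toFinset]
                exact ⟨hmi, hilt.le⟩
              · rw [Finset.some_mem_insertNone, Set.Finite.mem_toFinset] at ho
                obtain ⟨e1, e2, _⟩ := insert_mem_Kset ho hbi hilt
                refine ⟨?_, e2⟩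
                show Sum.inl (some (insert i B)) ∈ _
                rw [Finset.inl_mem_disjSum, Finset.some_mem_insertNone, Set.Finite.mem_toFinset]
                exact e1
          rw [h1]
          rw [exa_iso' (Finset.insertNone hf'.toFinset) (EP ep b i) (bigF rk ep b y) φ (fun _ => 1)]
          · exact hex
          · intro o ho o' ho' heq
            rw [Finset.mem_coe] at ho ho'
            rcases o with _ | B <;> rcases o' with _ | B'
            · rfl
            · exact absurd heq (by simp [hφ])
            · exact absurd heq (by simp [hφ])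
            · rw [Finset.some_mem_insertNone, Set.Finite.mem_toFinset] at ho ho'
              have h2 : insert i B = insert i B' := by simpa [hφ] using heq
              have e1 := (insert_mem_Kset ho hbi hilt).2.2
              have e2 := (insert_mem_Kset ho' hbi hilt).2.2
              rw [← e1, h2, e2]
          · intro v _; ring
          · intro o ho o' ho'
            rw [one_mul, one_mul]
            rcases o with _ | B <;> rcases o' with _ | B'
            · show -(sgn rk b i * ep i i) = 0
              rw [hirr]; ring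
            · rfl
            · rw [Finset.some_mem_insertNone, Set.Finite.mem_toFinset] at ho
              obtain ⟨e1, e2, e3⟩ := insert_mem_Kset ho hbi hilt
              show PhiC ep b (insert i B) i = oc ep b B i
              unfold PhiC
              rw [if_pos e2.symm, if_neg (Finset.insert_ne_empty _ _), e3]
            · rw [Finset.some_mem_insertNone, Set.Finite.mem_toFinset] at ho ho'
              obtain ⟨e1, e2, e3⟩ := insert_mem_Kset ho hbi hilt
              obtain ⟨e1', e2', e3'⟩ := insert_mem_Kset ho' hbi hilt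
              show dE (insert i B) (insert i B') = dE B B'
              rw [dE_erase_max (insert i B) (insert i B') i (Finset.mem_insert_self _ _)
                (Finset.mem_insert_self _ _) (fun a ha => by rw [← e2']; exact le_lvl e1' ha),
                e3, e3']
      · -- no other pieces
        have h1 : ((Finset.insertNone hf.toFinset).disjSum hIcc.toFinset).filter
            (fun v => bigf b y v = i) = ∅ := by
          rw [Finset.filter_eq_empty_iff]
          intro v hv h2
          rcases v with (_ | A) | z
          · exact hiy (show y = i from h2).symm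
          · rw [Finset.inl_mem_disjSum, Finset.some_mem_insertNone, Set.Finite.mem_toFinset] at hv
            have h4 : lvl b A = i := h2
            apply hi
            rw [← h4]
            exact ⟨m_le_lvl hm hv, lvl_lt H.hby hv⟩
          · rw [Finset.inr_mem_disjSum, Set.Finite.mem_toFinset] at hv
            have h4 : z = i := h2
            rw [h4] at hv
            exact hi ⟨hv.1, lt_of_le_of_ne hv.2 hiy⟩
        rw [h1]
        exact exa_empty _
  · -- the filtration is respected
    intro u hu v hv huv
    have hle : ∀ x z : Q, x ≤ z → x = z ∨ rk x < rk z := by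
      intro x z h
      rcases h.eq_or_lt with h | h
      · exact Or.inl h
      · exact Or.inr (gr.lt _ _ h)
    apply hle
    rcases v with (_ | A) | z
    · rcases u with (_ | A') | z'
      · exact le_rfl
      · rw [Finset.inl_mem_disjSum, Finset.some_mem_insertNone, Set.Finite.mem_toFinset] at hu
        exact (lvl_lt H.hby hu).le
      · exact absurd rfl huv
    · rcases u with (_ | A') | z'
      · exact absurd rfl huv
      · rw [Finset.inl_mem_disjSum, Finset.some_mem_insertNone, Set.Finite.mem_toFinset] at hu hv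
        obtain ⟨a, _, ha⟩ := dE_ne_zero (show dE A' A ≠ 0 from huv)
        show lvl b A' ≤ lvl b A
        rcases A'.eq_empty_or_nonempty with h | h
        · rw [h, lvl_empty]; exact b_le_lvl hv
        · have h2 := (lvl_spec b hu.2.1 h).1
          apply le_lvl hv
          have h3 : lvl b A' ∈ A.erase a := by
            have : ∀ X : Finset Q, X = A.erase a → lvl b A' ∈ X → lvl b A' ∈ A.erase a := by
              intro X hX hX2
              rw [← hX]; exact hX2
            exact this A' ha h2
          exact Finset.mem_of_mem_erase h3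
      · exact absurd rfl huv
    · rcases u with (_ | A') | z'
      · have h2 : z = y := by
          by_contra h
          apply huv
          show (if z = y then sgn rk b y else 0) = 0
          rw [if_neg h]
        exact h2.symm.le
      · exact (PhiC_ne (show PhiC ep b A' z ≠ 0 from huv)).symm.le
      · have h2 : ep z' z ≠ 0 := by
          intro h
          apply huv
          show -(sgn rk b z * ep z' z) = 0
          rw [h]; ring
        exact (gr.ne _ _ h2).1.le

end step

/-- the induction step -/
theorem lemP_step {rk : Q → ℕ} {ep : Q → Q → ℤ} (gr : Gr rk ep) {b y : Q} {σ : Finset Q}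
    (H : LH ep b y σ) (IH : ∀ z τ, rk z < rk y → LH ep b z τ → LC ep b z τ) :
    LC ep b y σ := by
  obtain ⟨m, hm, hbm, hmy⟩ := exists_m H
  have hgood := good_my H hm hmy
  have hIcc := hgood.fin
  have hf := kset_finite gr H hm IH hIcc
  refine ⟨hf, sq_EP gr H hm hbm hmy IH hf hIcc, ?_⟩
  have hbig := exa_big gr H hm hbm hmy IH hf hIcc
  have hsq := sq_big gr H hm hbm hmy IH hf hIcc
  have hint : Exa hIcc.toFinset (fun z' z => -(sgn rk b z * ep z' z)) := exa_int gr hgood hIcc
  set T1 : Finset (Option (Finset Q) ⊕ Q) :=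
    (Finset.insertNone hf.toFinset).image Sum.inl with hT1
  set T2 : Finset (Option (Finset Q) ⊕ Q) := hIcc.toFinset.image Sum.inr with hT2
  have hun : (Finset.insertNone hf.toFinset).disjSum hIcc.toFinset = T1 ∪ T2 := by
    ext v
    rw [Finset.mem_union, hT1, hT2, Finset.mem_image, Finset.mem_image]
    rcases v with o | z
    · rw [Finset.inl_mem_disjSum]
      constructor
      · intro h; exact Or.inl ⟨o, h, rfl⟩
      · rintro (⟨o', h, h2⟩ | ⟨z, _, h2⟩)
        · have : o' = o := by simpa using h2
          rw [← this]; exact h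
        · exact absurd h2 (by simp)
    · rw [Finset.inr_mem_disjSum]
      constructor
      · intro h; exact Or.inr ⟨z, h, rfl⟩
      · rintro (⟨o', h, h2⟩ | ⟨z', h, h2⟩)
        · exact absurd h2 (by simp)
        · have : z' = z := by simpa using h2
          rw [← this]; exact h
  have hd : Disjoint T1 T2 := by
    rw [Finset.disjoint_left]
    intro v h1 h2
    rw [hT1, Finset.mem_image] at h1
    rw [hT2, Finset.mem_image] at h2
    obtain ⟨o, _, rfl⟩ := h1
    obtain ⟨z, _, h⟩ := h2
    exact absurd h (by simp)
  have hAB : ∀ b' ∈ T2, ∀ a ∈ T1, bigF rk ep b y b' a = 0 := by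
    intro v2 h2 v1 h1
    rw [hT1, Finset.mem_image] at h1
    rw [hT2, Finset.mem_image] at h2
    obtain ⟨o, _, rfl⟩ := h1
    obtain ⟨z, _, rfl⟩ := h2
    rfl
  rw [hun] at hbig hsq
  have h2 : Exa T2 (bigF rk ep b y) := by
    rw [hT2, exa_pull' hIcc.toFinset (bigF rk ep b y) Sum.inr (Sum.inr_injective.injOn)]
    exact hint
  have h3 := exa_sub' T1 T2 (bigF rk ep b y) hd hAB hsq hbig h2
  rw [hT1, exa_pull' (Finset.insertNone hf.toFinset) (bigF rk ep b y) Sum.inl
    (Sum.inl_injective.injOn)] at h3
  exact h3

end lemP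

theorem lemP {Q : Type*} [PartialOrder Q] {rk : Q → ℕ} {ep : Q → Q → ℤ} (gr : Gr rk ep)
    (b y : Q) (hby : b < y) (σ : Finset Q) (hσ : σ ∈ Kset b y σ)
    (hg : ∀ x z, (x = b ∨ x ∈ σ) → x < z → z ≤ y → (∀ s ∈ σ, x < s → z ≤ s) → Good ep x z) :
    ∃ hf : (Kset b y σ).Finite,
      Sq (Finset.insertNone hf.toFinset) (EP ep b y) ∧
      Exa (Finset.insertNone hf.toFinset) (EP ep b y) := by
  have main : ∀ n : ℕ, ∀ (y : Q) (σ : Finset Q), rk y = n → LH ep b y σ → LC ep b y σ := by
    intro n
    induction n using Nat.strong_induction_on with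
    | _ n ih =>
      intro y σ hy H
      apply lemP_step gr H
      intro z τ hz H'
      exact ih (rk z) (by rw [← hy]; exact hz) z τ rfl H'
  exact main (rk y) y σ rfl ⟨hby, hσ, hg⟩

end Pool.Agent.Helper635.PD4
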