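import Pool.Agent.Helper635_PD4.PPLocAux2

/-!
# Auxiliary facts for module E: the upper sets
-/

open scoped Classical

namespace Pool.Agent.Helper635.PD4.RData

variable {G : Type} [Group G] (D : RData G)

/-- the extended poset -/
abbrev RX : Type := WithBot (WithTop D.R)

/-- the top of the extended poset -/
abbrev tp1 : D.RX := ((⊤ : WithTop D.R) : WithBot (WithTop D.R))

/-- preimage of a chain of the extended poset -/
noncomputable def dn (A : Finset D.RX) : Finset D.R := A.preimage D.emb D.emb_inj.injOn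

theorem mem_dn {A : Finset D.RX} {x : D.R} : x ∈ D.dn A ↔ D.emb x ∈ A := Finset.mem_preimage

theorem mem_up {σ : Finset D.R} {x : D.RX} : x ∈ D.up σ ↔ ∃ y ∈ σ, D.emb y = x := by
  rw [up_eq, Finset.mem_image]

theorem emb_mem_up {σ : Finset D.R} {x : D.R} : D.emb x ∈ D.up σ ↔ x ∈ σ := by
  rw [mem_up]
  constructor
  · rintro ⟨y, hy, h⟩
    rwa [← D.emb_inj h]
  · intro h
    exact ⟨x, h, rfl⟩

theorem emb_of_between {a : D.RX} (h1 : ⊥ < a) (h2 : a < D.tp1) : ∃ x, D.emb x = a := by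
  induction a using WithBot.recBotCoe with
  | bot => exact absurd h1 (lt_irrefl _)
  | coe a =>
    rw [WithBot.coe_lt_coe] at h2
    induction a using WithTop.recTopCoe with
    | top => exact absurd h2 (lt_irrefl _)
    | coe a => exact ⟨a, rfl⟩

theorem bot_lt_emb (x : D.R) : (⊥ : D.RX) < D.emb x := WithBot.bot_lt_coe _

theorem emb_lt_top (x : D.R) : D.emb x < D.tp1 := WithBot.coe_lt_coe.2 (WithTop.coe_lt_top _)

theorem dn_up (σ : Finset D.R) : D.dn (D.up σ) = σ := by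
  ext x
  rw [mem_dn, emb_mem_up]

theorem up_dn {A : Finset D.RX} (h : ∀ a ∈ A, ⊥ < a ∧ a < D.tp1) : D.up (D.dn A) = A := by
  ext a
  rw [mem_up]
  constructor
  · rintro ⟨y, hy, rfl⟩
    exact D.mem_dn.1 hy
  · intro ha
    obtain ⟨x, rfl⟩ := D.emb_of_between (h a ha).1 (h a ha).2
    exact ⟨x, D.mem_dn.2 ha, rfl⟩

theorem dn_chain {A : Finset D.RX} (h : IsChain (· ≤ ·) (A : Set D.RX)) :
    IsChain (· ≤ ·) (D.dn A : Set D.R) := by
  intro x hx y hy hxy
  rcases h (D.mem_dn.1 hx) (D.mem_dn.1 hy) (fun e => hxy (D.emb_inj e)) with h1 | h1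
  · exact Or.inl ((D.emb_le _ _).1 h1)
  · exact Or.inr ((D.emb_le _ _).1 h1)

theorem up_chain {σ : Finset D.R} (h : IsChain (· ≤ ·) (σ : Set D.R)) :
    IsChain (· ≤ ·) (D.up σ : Set D.RX) := by
  intro x hx y hy hxy
  obtain ⟨x, hx', rfl⟩ := D.mem_up.1 hx
  obtain ⟨y, hy', rfl⟩ := D.mem_up.1 hy
  rcases h hx' hy' (fun e => hxy (by rw [e])) with h1 | h1
  · exact Or.inl ((D.emb_le _ _).2 h1)
  · exact Or.inr ((D.emb_le _ _).2 h1)

/-- the chains above `up σ` -/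
theorem mem_Kset_iff {σ : Finset D.R} {A : Finset D.RX} :
    A ∈ Kset (⊥ : D.RX) D.tp1 (D.up σ) ↔
      ∃ τ : Finset D.R, σ ⊆ τ ∧ IsChain (· ≤ ·) (τ : Set D.R) ∧ A = D.up τ := by
  constructor
  · rintro ⟨h1, h2, h3⟩
    refine ⟨D.dn A, ?_, D.dn_chain h2, (D.up_dn h3).symm⟩
    intro x hx
    rw [mem_dn]
    exact h1 (D.emb_mem_up.2 hx)
  · rintro ⟨τ, h1, h2, rfl⟩
    refine ⟨?_, D.up_chain h2, ?_⟩
    · intro a ha
      obtain ⟨x, hx, rfl⟩ := D.mem_up.1 ha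
      exact D.emb_mem_up.2 (h1 hx)
    · intro a ha
      obtain ⟨x, hx, rfl⟩ := D.mem_up.1 ha
      exact ⟨D.bot_lt_emb x, D.emb_lt_top x⟩

/-- the sign of a chain -/
noncomputable def esg (w : D.W) (τ : Finset D.R) : ℤ :=
  ∏ i ∈ D.S τ, ((D.par (D.col i) w : ℤˣ) : ℤ)

theorem esg_sq (w : D.W) (τ : Finset D.R) : D.esg w τ * D.esg w τ = 1 := by
  unfold esg
  rw [← Finset.prod_mul_distrib]
  refine Finset.prod_eq_one fun i _ => ?_
  rcases Int.units_eq_one_or (D.par (D.col i) w) with h | h <;> simp [h]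

theorem esg_sdiff (w : D.W) {σ τ : Finset D.R} (h : σ ⊆ τ) :
    ∏ i ∈ D.S τ \ D.S σ, ((D.par (D.col i) w : ℤˣ) : ℤ) = D.esg w σ * D.esg w τ := by
  have h1 : D.esg w τ = (∏ i ∈ D.S τ \ D.S σ, ((D.par (D.col i) w : ℤˣ) : ℤ)) * D.esg w σ := by
    unfold esg
    exact (Finset.prod_sdiff (D.S_mono h)).symm
  rw [h1, ← mul_assoc, mul_comm (D.esg w σ), mul_assoc, esg_sq, mul_one]

/-- all parities -/
noncomputable def esgT (w : D.W) : ℤ := ∏ k : Fin 5, ((D.par k w : ℤˣ) : ℤ)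

theorem esgT_sq (w : D.W) : D.esgT w * D.esgT w = 1 := by
  unfold esgT
  rw [← Finset.prod_mul_distrib]
  refine Finset.prod_eq_one fun k _ => ?_
  rcases Int.units_eq_one_or (D.par k w) with h | h <;> simp [h]

theorem esg_compl (w : D.W) {τ : Finset D.R} (h : D.IsL τ) :
    ∏ k ∈ Finset.univ \ (D.S τ).image D.col, ((D.par k w : ℤˣ) : ℤ) = D.esgT w * D.esg w τ := by
  have h0 : ∏ k ∈ (D.S τ).image D.col, ((D.par k w : ℤˣ) : ℤ) = D.esg w τ := by
    unfold esg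
    rw [Finset.prod_image]
    intro i hi j hj hij
    exact D.S_col τ h i hi j hj hij
  have h1 : D.esgT w = (∏ k ∈ Finset.univ \ (D.S τ).image D.col, ((D.par k w : ℤˣ) : ℤ)) *
      D.esg w τ := by
    rw [← h0]
    exact (Finset.prod_sdiff (Finset.subset_univ _)).symm
  rw [h1, mul_assoc, esg_sq, mul_one]

theorem cel_le_self {σ τ : Finset D.R} (h : D.IsL σ) (h' : D.IsL τ) (w : D.W) :
    D.cel σ h w ≤ D.cel τ h' w ↔ σ ⊆ τ := by
  rw [cel_le_iff]
  constructor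
  · exact fun h => h.1
  · intro h
    refine ⟨h, ?_⟩
    rw [inv_mul_cancel]
    exact one_mem _

/-- incidence numbers of cells with a common representative -/
theorem epP_self {σ τ : Finset D.R} (h : D.IsL σ) (h' : D.IsL τ) (w : D.W) :
    D.epP (D.cel σ h w) (D.cel τ h' w) = dE σ τ * (D.esg w σ * D.esg w τ) := by
  by_cases hle : D.cel σ h w ≤ D.cel τ h' w
  · rw [D.epP_cel _ _ _ _ _ _ hle, D.esg_sdiff w ((D.cel_le_self h h' w).1 hle)]
  · have h1 : dE σ τ = 0 := by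
      by_contra hne
      exact hle ((D.cel_le_self h h' w).2 (e_dE_card hne).1)
    rw [h1, zero_mul]
    unfold epP
    rw [if_neg hle]

theorem oriP_self {σ : Finset D.R} (h : D.IsL σ) (w : D.W) :
    D.oriP (D.cel σ h w) = oc D.hE ⊥ (D.up σ) D.tp1 * (D.esgT w * D.esg w σ) := by
  rw [oriP_cel]
  by_cases hc : σ.card = 5
  · rw [if_pos hc, D.esg_compl w h]
  · rw [if_neg hc, D.e_oc_zero hc, zero_mul]

/-- the hypotheses of Lemma P for the chain `σ` and the top -/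
theorem e_lemP {σ : Finset D.R} (hσ : D.IsL σ) :
    ∃ hf : (Kset (⊥ : D.RX) D.tp1 (D.up σ)).Finite,
      Sq (Finset.insertNone hf.toFinset) (EP D.hE (⊥ : D.RX) D.tp1) ∧
      Exa (Finset.insertNone hf.toFinset) (EP D.hE (⊥ : D.RX) D.tp1) := by
  refine lemP D.e_gr ⊥ D.tp1 (WithBot.bot_lt_coe _) (D.up σ)
    (D.mem_Kset_iff.2 ⟨σ, subset_rfl, hσ.1, rfl⟩) ?_
  intro x z hx hxz _ hs
  refine D.good x z hxz ?_
  rintro ⟨rfl, hz⟩
  obtain ⟨a, ha, ha1, ha2⟩ := hσ.2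
  have h1 : z ≤ D.emb a := hs _ (D.emb_mem_up.2 ha) (D.bot_lt_emb a)
  rcases hz with rfl | rfl
  · have h2 : D.kap ≤ a := (D.emb_le _ _).1 h1
    have h3 : D.kap < a := lt_of_le_of_ne h2 (Ne.symm ha1)
    have h4 := D.gr.lt _ _ h3
    have h5 := D.rk_le a
    have h6 := D.rk_kap
    omega
  · exact absurd (lt_of_le_of_lt h1 (D.emb_lt_top a)) (lt_irrefl _)

/-- the identification of the complex of Lemma P with the upper set of a cell -/
noncomputable def upMap (w : D.W) : Option (Finset D.RX) → WithBot (D.PP)ᵒᵈ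
  | none => ⊥
  | some A => if h : D.IsL (D.dn A) then
      ((OrderDual.toDual (D.cel (D.dn A) h w) : (D.PP)ᵒᵈ) : WithBot (D.PP)ᵒᵈ) else ⊥

/-- signs -/
noncomputable def upSg (w : D.W) : Option (Finset D.RX) → ℤ
  | none => D.esgT w
  | some A => D.esg w (D.dn A)

theorem upMap_up {τ : Finset D.R} (h : D.IsL τ) (w : D.W) : D.upMap w (some (D.up τ)) =
    ((OrderDual.toDual (D.cel τ h w) : (D.PP)ᵒᵈ) : WithBot (D.PP)ᵒᵈ) := by
  have h1 : D.IsL (D.dn (D.up τ)) := by rwa [dn_up]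
  show (if h : D.IsL (D.dn (D.up τ)) then
      ((OrderDual.toDual (D.cel (D.dn (D.up τ)) h w) : (D.PP)ᵒᵈ) : WithBot (D.PP)ᵒᵈ) else ⊥) = _
  rw [dif_pos h1]
  congr 2
  rw [cel_eq_iff]
  refine ⟨D.dn_up τ, ?_⟩
  rw [inv_mul_cancel]
  exact one_mem _

theorem upSg_up (τ : Finset D.R) (w : D.W) : D.upSg w (some (D.up τ)) = D.esg w τ := by
  show D.esg w (D.dn (D.up τ)) = _
  rw [dn_up]

theorem e_up_P (x : D.PP) : Good (bE (Q := (D.PP)ᵒᵈ) (fun x => D.oriP (OrderDual.ofDual x))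
    (fun x y => D.epP (OrderDual.ofDual y) (OrderDual.ofDual x)))
    (⊥ : WithBot (D.PP)ᵒᵈ) ((OrderDual.toDual x : (D.PP)ᵒᵈ) : WithBot (D.PP)ᵒᵈ) := by
  obtain ⟨σ, hσ, w, rfl⟩ := D.e_cases x
  obtain ⟨hf, hsq, hex⟩ := D.e_lemP hσ
  set E' := bE (Q := (D.PP)ᵒᵈ) (fun x => D.oriP (OrderDual.ofDual x))
    (fun x y => D.epP (OrderDual.ofDual y) (OrderDual.ofDual x)) with hE'
  set S := Finset.insertNone hf.toFinset with hS
  have hmem : ∀ u ∈ S, u = none ∨ ∃ τ : Finset D.R, σ ⊆ τ ∧ D.IsL τ ∧ u = some (D.up τ) := by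
    intro u hu
    rcases u with _ | A
    · exact Or.inl rfl
    · right
      rw [hS, Finset.some_mem_insertNone, Set.Finite.mem_toFinset, D.mem_Kset_iff] at hu
      obtain ⟨τ, h1, h2, rfl⟩ := hu
      exact ⟨τ, h1, D.IsL_mono hσ h1 h2, rfl⟩
  have hmem' : ∀ τ : Finset D.R, σ ⊆ τ → D.IsL τ → some (D.up τ) ∈ S := by
    intro τ h1 h2
    rw [hS, Finset.some_mem_insertNone, Set.Finite.mem_toFinset, D.mem_Kset_iff]
    exact ⟨τ, h1, h2.1, rfl⟩
  have hinj : Set.InjOn (D.upMap w) (S : Set (Option (Finset D.RX))) := by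
    intro u hu v hv huv
    rcases hmem u hu with rfl | ⟨τ, _, hτ, rfl⟩ <;> rcases hmem v hv with rfl | ⟨τ', _, hτ', rfl⟩
    · rfl
    · rw [D.upMap_up hτ'] at huv
      exact absurd huv.symm (WithBot.coe_ne_bot)
    · rw [D.upMap_up hτ] at huv
      exact absurd huv (WithBot.coe_ne_bot)
    · rw [D.upMap_up hτ, D.upMap_up hτ'] at huv
      have h1 : D.cel τ hτ w = D.cel τ' hτ' w :=
        OrderDual.toDual.injective (WithBot.coe_injective huv)
      rw [cel_eq_iff] at h1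
      rw [h1.1]
  have hs : ∀ v ∈ S, D.upSg w v * D.upSg w v = 1 := by
    intro v hv
    rcases hmem v hv with rfl | ⟨τ, _, hτ, rfl⟩
    · exact D.esgT_sq w
    · exact D.esg_sq w _
  have hE : ∀ u ∈ S, ∀ v ∈ S, E' (D.upMap w u) (D.upMap w v) =
      D.upSg w u * D.upSg w v * (fun u v => EP D.hE (⊥ : D.RX) D.tp1 v u) u v := by
    intro u hu v hv
    rcases hmem u hu with rfl | ⟨τ, _, hτ, rfl⟩ <;> rcases hmem v hv with rfl | ⟨τ', _, hτ', rfl⟩
    · show (0 : ℤ) = _ * 0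
      rw [mul_zero]
    · rw [D.upMap_up hτ', D.upSg_up]
      show D.oriP (D.cel τ' hτ' w) = D.esgT w * D.esg w τ' * oc D.hE ⊥ (D.up τ') D.tp1
      rw [oriP_self]
      ring
    · rw [D.upMap_up hτ]
      show (0 : ℤ) = _ * 0
      rw [mul_zero]
    · rw [D.upMap_up hτ, D.upMap_up hτ', D.upSg_up, D.upSg_up]
      show D.epP (D.cel τ' hτ' w) (D.cel τ hτ w) = D.esg w τ * D.esg w τ' * dE (D.up τ') (D.up τ)
      rw [epP_self, e_dE_up]
      ring
  have himg : ((S.image (D.upMap w) : Finset (WithBot (D.PP)ᵒᵈ)) : Set (WithBot (D.PP)ᵒᵈ)) =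
      Set.Icc ⊥ ((OrderDual.toDual (D.cel σ hσ w) : (D.PP)ᵒᵈ) : WithBot (D.PP)ᵒᵈ) := by
    ext t
    rw [Finset.mem_coe, Finset.mem_image]
    constructor
    · rintro ⟨u, hu, rfl⟩
      refine ⟨bot_le, ?_⟩
      rcases hmem u hu with rfl | ⟨τ, h1, hτ, rfl⟩
      · exact bot_le
      · rw [D.upMap_up hτ, WithBot.coe_le_coe]
        exact (D.cel_le_self hσ hτ w).2 h1
    · rintro ⟨_, ht⟩
      induction t using WithBot.recBotCoe with
      | bot => exact ⟨none, Finset.none_mem_insertNone, rfl⟩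
      | coe t =>
        rw [WithBot.coe_le_coe] at ht
        obtain ⟨τ, hτ, w', hq⟩ := D.e_cases (OrderDual.ofDual t)
        have ht' : D.cel σ hσ w ≤ D.cel τ hτ w' := by
          rw [← hq]
          exact ht
        rw [cel_le_iff] at ht'
        have h2 : D.cel τ hτ w' = D.cel τ hτ w := by
          rw [eq_comm, cel_eq_iff]
          exact ⟨rfl, ht'.2⟩
        refine ⟨some (D.up τ), hmem' τ ht'.1 hτ, ?_⟩
        rw [D.upMap_up hτ, ← h2, ← hq]
        rfl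
  have hfin : (Set.Icc (⊥ : WithBot (D.PP)ᵒᵈ)
      ((OrderDual.toDual (D.cel σ hσ w) : (D.PP)ᵒᵈ) : WithBot (D.PP)ᵒᵈ)).Finite := by
    rw [← himg]
    exact Finset.finite_toSet _
  have hset : hfin.toFinset = S.image (D.upMap w) := by
    rw [← Finset.coe_inj, himg]
    exact hfin.coe_toFinset
  refine ⟨hfin, ?_, ?_⟩
  · rw [hset, image_inst _ (fun a b => Classical.propDecidable (a = b))]
    exact (sq_iso S _ E' (D.upMap w) (D.upSg w) hinj hs hE).2 (sq_transpose S _ hsq)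
  · rw [hset, image_inst _ (fun a b => Classical.propDecidable (a = b))]
    exact (exa_iso S _ E' (D.upMap w) (D.upSg w) hinj hs hE).2 (exa_transpose S _ hsq hex)

end Pool.Agent.Helper635.PD4.RData
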