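import Pool.Agent.Helper635_PD4.PPLow

/-!
# Module E, first half: the lower intervals of the reflection poset are good
-/

open scoped Classical

namespace Pool.Agent.Helper635.PD4.RData

variable {G : Type} [Group G] (D : RData G)

/-- the incidence numbers of `D.PP` with an added bottom -/
noncomputable abbrev lE : WithBot D.PP → WithBot D.PP → ℤ := bE (aug D.rkP) D.epP

theorem lE_bot_right (u : WithBot D.PP) : D.lE u ⊥ = 0 := rfl

theorem lE_bot_coe (p : D.PP) : D.lE ⊥ (p : WithBot D.PP) = aug D.rkP p := rfl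

theorem lE_coe_coe (p q : D.PP) : D.lE (p : WithBot D.PP) (q : WithBot D.PP) = D.epP p q := rfl

theorem fin_low (y : D.PP) : (Set.Icc (⊥ : WithBot D.PP) (y : WithBot D.PP)).Finite := by
  apply (((D.finite_le y).image (fun p : D.PP => (p : WithBot D.PP))).insert ⊥).subset
  rintro v ⟨_, hv⟩
  induction v using WithBot.recBotCoe with
  | bot => exact Or.inl rfl
  | coe p => exact Or.inr ⟨p, WithBot.coe_le_coe.1 hv, rfl⟩

theorem mem_low (y : D.PP) (hf : (Set.Icc (⊥ : WithBot D.PP) (y : WithBot D.PP)).Finite)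
    (v : WithBot D.PP) : v ∈ hf.toFinset ↔ v = ⊥ ∨ ∃ p : D.PP, v = p ∧ p ≤ y := by
  rw [Set.Finite.mem_toFinset]
  constructor
  · rintro ⟨_, hv⟩
    induction v using WithBot.recBotCoe with
    | bot => exact Or.inl rfl
    | coe p => exact Or.inr ⟨p, rfl, WithBot.coe_le_coe.1 hv⟩
  · rintro (rfl | ⟨p, rfl, hp⟩)
    · exact ⟨le_rfl, bot_le⟩
    · exact ⟨bot_le, WithBot.coe_le_coe.2 hp⟩

theorem low_eq (y : D.PP) (hf : (Set.Icc (⊥ : WithBot D.PP) (y : WithBot D.PP)).Finite) :
    hf.toFinset = insert ⊥ ((D.finite_le y).toFinset.image (fun p : D.PP => (p : WithBot D.PP))) := by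
  ext v
  rw [mem_low, Finset.mem_insert, Finset.mem_image]
  constructor
  · rintro (h | ⟨p, rfl, hp⟩)
    · exact Or.inl h
    · exact Or.inr ⟨p, by rw [Set.Finite.mem_toFinset]; exact hp, rfl⟩
  · rintro (h | ⟨p, hp, rfl⟩)
    · exact Or.inl h
    · rw [Set.Finite.mem_toFinset] at hp
      exact Or.inr ⟨p, rfl, hp⟩

theorem sum_low (y : D.PP) (hf : (Set.Icc (⊥ : WithBot D.PP) (y : WithBot D.PP)).Finite)
    (f : WithBot D.PP → ℤ) :
    ∑ v ∈ hf.toFinset, f v = f ⊥ + ∑ p ∈ (D.finite_le y).toFinset, f p := by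
  rw [low_eq, Finset.sum_insert, Finset.sum_image]
  · intro a _ b _ hab
    exact WithBot.coe_injective hab
  · rw [Finset.mem_image]
    rintro ⟨p, _, hp⟩
    exact WithBot.coe_ne_bot hp

theorem rkP_of_epP {p q : D.PP} (h : D.epP p q ≠ 0) : D.rkP q = D.rkP p + 1 := by
  have h1 := dE_card (D.epP_ne h).2
  have h2 := D.card_pos_P p
  unfold rkP
  omega

theorem sq_low (y : D.PP) (hf : (Set.Icc (⊥ : WithBot D.PP) (y : WithBot D.PP)).Finite) :
    Sq hf.toFinset D.lE := by
  intro u hu w hw
  rw [sum_low, lE_bot_right, zero_mul, zero_add]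
  rw [mem_low] at hw
  rcases hw with rfl | ⟨r, rfl, hr⟩
  · apply Finset.sum_eq_zero
    intro q _
    rw [lE_bot_right, mul_zero]
  have hmem : ∀ q, q < r → q ∈ (D.finite_le y).toFinset := by
    intro q hq
    rw [Set.Finite.mem_toFinset]
    exact hq.le.trans hr
  rw [mem_low] at hu
  rcases hu with rfl | ⟨p, rfl, hp⟩
  · by_cases h1 : D.rkP r = 1
    · rw [← D.aug_P r h1 _ hmem]
      apply Finset.sum_congr rfl
      intro q _
      rw [lE_bot_coe, lE_coe_coe]
      by_cases h2 : D.epP q r = 0
      · rw [h2, mul_zero]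
      · have := D.rkP_of_epP h2
        unfold aug
        rw [if_pos (by omega), one_mul]
    · apply Finset.sum_eq_zero
      intro q _
      rw [lE_bot_coe, lE_coe_coe]
      by_cases h2 : D.epP q r = 0
      · rw [h2, mul_zero]
      · have := D.rkP_of_epP h2
        unfold aug
        rw [if_neg (by omega), zero_mul]
  · exact D.dd_P p r _ (fun q _ hq => hmem q hq)

/-- a shortest element of the coset of a cell -/
theorem exists_min (y : D.PP) : ∃ u₀ ∈ y.1.2, (∀ v ∈ y.1.2, v ≠ u₀ → D.cs.length u₀ < D.cs.length v) ∧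
    (∀ i ∈ D.S y.1.1, ¬ D.cs.IsRightDescent u₀ i) ∧
    (∀ v ∈ y.1.2, (∀ i ∈ D.S y.1.1, ¬ D.cs.IsRightDescent v i) → v = u₀) := by
  obtain ⟨w, hw⟩ := y.2.2
  have hcl := D.S_clique _ y.2.1
  -- membership
  have hmem : ∀ v, v ∈ y.1.2 ↔ w⁻¹ * v ∈ D.WT (D.S y.1.1) := by
    intro v; rw [hw]; rfl
  obtain ⟨u₀, hu₀, huniq⟩ := exists_bot D.cs D.ra (D.S y.1.1) hcl w
  have h0 : u₀ ∈ y.1.2 := (hmem u₀).2 hu₀.1
  -- any element of minimal length has no descents
  have hmin : ∀ v ∈ y.1.2, (∀ v' ∈ y.1.2, D.cs.length v ≤ D.cs.length v') → v = u₀ := by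
    intro v hv hle
    apply huniq
    refine ⟨(hmem v).1 hv, ?_⟩
    intro i hi hdesc
    have h1 : v * D.cs.simple i ∈ y.1.2 := by
      rw [hmem, ← mul_assoc]
      apply mul_mem ((hmem v).1 hv)
      exact Subgroup.subset_closure ⟨i, hi, rfl⟩
    have h2 := hle _ h1
    have h3 : D.cs.length (v * D.cs.simple i) < D.cs.length v := hdesc
    omega
  obtain ⟨m, hm, hmle⟩ : ∃ m ∈ y.1.2, ∀ v' ∈ y.1.2, D.cs.length m ≤ D.cs.length v' := by
    obtain ⟨m, hm⟩ := Function.argminOn_mem (fun v => D.cs.length v) y.1.2 ⟨u₀, h0⟩ |> fun h =>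
      (⟨_, h⟩ : ∃ m, m ∈ y.1.2)
    exact ⟨Function.argminOn (fun v => D.cs.length v) y.1.2 ⟨u₀, h0⟩,
      Function.argminOn_mem _ _ _, fun v' hv' => Function.argminOn_le _ _ hv'⟩
  have hmu : m = u₀ := hmin m hm hmle
  subst hmu
  refine ⟨m, hm, ?_, hu₀.2, ?_⟩
  · intro v hv hne
    refine lt_of_le_of_ne (hmle v hv) ?_
    intro heq
    apply hne
    apply hmin v hv
    intro v' hv'
    rw [← heq]
    exact hmle v' hv'
  · intro v hv hd
    exact huniq v ⟨(hmem v).1 hv, hd⟩

/-- the set of vertices of a cell (empty for the bottom) -/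
noncomputable def gs (v : WithBot D.PP) : Finset D.R :=
  WithBot.recBotCoe (C := fun _ => Finset D.R) ∅ (fun p => p.1.1) v

/-- the sign of a cell (`1` for the bottom) -/
noncomputable def gsg (u : D.W) (v : WithBot D.PP) : ℤ :=
  WithBot.recBotCoe (C := fun _ => ℤ) 1 (fun p => D.sg u p) v

/-- filtration: the longest element of a cell, `u₀` for the bottom -/
noncomputable def gf (u₀ : D.W) (v : WithBot D.PP) : D.W :=
  WithBot.recBotCoe (C := fun _ => D.W) u₀ (fun p => D.tp p) v

theorem gs_bot : D.gs ⊥ = ∅ := rfl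
theorem gs_coe (p : D.PP) : D.gs (p : WithBot D.PP) = p.1.1 := rfl
theorem gsg_bot (u : D.W) : D.gsg u ⊥ = 1 := rfl
theorem gsg_coe (u : D.W) (p : D.PP) : D.gsg u (p : WithBot D.PP) = D.sg u p := rfl
theorem gf_bot (u : D.W) : D.gf u ⊥ = u := rfl
theorem gf_coe (u : D.W) (p : D.PP) : D.gf u (p : WithBot D.PP) = D.tp p := rfl

theorem eq_of_tp {p q : D.PP} (h : p.1.1 = q.1.1) (ht : D.tp p = D.tp q) : p = q := by
  rw [← D.cel_tp p, ← D.cel_tp q, D.cel_eq_iff]
  refine ⟨h, ?_⟩
  rw [ht, inv_mul_cancel]
  exact one_mem _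

/-- incidence numbers in the piece of `u` -/
theorem dE_piece (u : D.W) (p q : D.PP) (hp : D.tp p = u) (hq : D.tp q = u) :
    dE p.1.1 q.1.1 = D.sg u p * D.sg u q * D.epP p q := by
  by_cases hsub : p.1.1 ⊆ q.1.1
  · have hle : D.cel p.1.1 p.2.1 u ≤ D.cel q.1.1 q.2.1 u := by
      rw [D.cel_le_iff]
      refine ⟨hsub, ?_⟩
      rw [inv_mul_cancel]; exact one_mem _
    have e := D.epP_cel p.1.1 q.1.1 p.2.1 q.2.1 u u hle
    have hp' : D.cel p.1.1 p.2.1 u = p := by rw [← hp]; exact D.cel_tp p
    have hq' : D.cel q.1.1 q.2.1 u = q := by rw [← hq]; exact D.cel_tp q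
    rw [hp', hq'] at e
    rw [e]
    unfold sg
    rw [← Finset.prod_sdiff (D.S_mono hsub) (f := fun i => ((D.par (D.col i) u : ℤˣ) : ℤ))]
    have h1 := prod_sq (D.S p.1.1) (fun i => D.par (D.col i) u)
    have h2 := prod_sq (D.S q.1.1 \ D.S p.1.1) (fun i => D.par (D.col i) u)
    calc dE p.1.1 q.1.1 = (∏ i ∈ D.S p.1.1, ((D.par (D.col i) u : ℤˣ) : ℤ)) *
          (∏ i ∈ D.S p.1.1, ((D.par (D.col i) u : ℤˣ) : ℤ)) *
          ((∏ i ∈ D.S q.1.1 \ D.S p.1.1, ((D.par (D.col i) u : ℤˣ) : ℤ)) *
          (∏ i ∈ D.S q.1.1 \ D.S p.1.1, ((D.par (D.col i) u : ℤˣ) : ℤ))) *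
          dE p.1.1 q.1.1 := by rw [h1, h2]; ring
      _ = _ := by ring
  · have h1 : dE p.1.1 q.1.1 = 0 := by
      by_contra h
      exact hsub (dE_sub h)
    have h2 : D.epP p q = 0 := by
      by_contra h
      exact hsub (dE_sub (D.epP_ne h).2)
    rw [h1, h2, mul_zero]

theorem S_of_card_one {σ : Finset D.R} (h : D.IsL σ) (h1 : σ.card = 1) : D.S σ = ∅ := by
  obtain ⟨x, hx⟩ := Finset.card_eq_one.1 h1
  apply (D.NCin_Q0 σ _).2
  refine ⟨⟨x, by rw [hx]; exact Finset.mem_singleton_self x⟩, h.1, ?_⟩
  intro a ha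
  obtain ⟨b, hb, hb2⟩ := h.2
  rw [hx, Finset.mem_singleton] at ha hb
  rw [ha, ← hb]
  exact hb2

theorem dE_empty (σ : Finset D.R) : dE ∅ σ = if σ.card = 1 then 1 else 0 := by
  by_cases h : σ.card = 1
  · rw [if_pos h]
    obtain ⟨x, hx⟩ := Finset.card_eq_one.1 h
    subst hx
    have h1 := dEc_erase (A := ({x} : Finset D.R)) (Finset.mem_singleton_self x)
    rw [Finset.erase_singleton] at h1
    rw [h1]
    have : pos ({x} : Finset D.R) x = 0 := by
      unfold pos
      rw [Finset.card_eq_zero, Finset.filter_eq_empty_iff]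
      intro y hy
      rw [Finset.mem_singleton] at hy
      rw [hy]; exact lt_irrefl x
    rw [this, pow_zero]
  · rw [if_neg h]
    by_contra hne
    have := dE_card hne
    rw [Finset.card_empty] at this
    exact h this

/-- the isomorphism of a piece with a complex of finite sets -/
theorem piece_iso (u₀ u : D.W) (S : Finset (WithBot D.PP)) (hS : ∀ v ∈ S, D.gf u₀ v = u) :
    Exa (S.image D.gs) dE ↔ Exa S D.lE := by
  refine Iff.trans ?_ (exa_iso S D.lE dE D.gs (D.gsg u) ?_ ?_ ?_)
  · rw [image_inst _ (fun a b => Classical.propDecidable (a = b))]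
  · intro a ha b hb hab
    have ha' := hS a (Finset.mem_coe.1 ha)
    have hb' := hS b (Finset.mem_coe.1 hb)
    induction a using WithBot.recBotCoe with
    | bot =>
      induction b using WithBot.recBotCoe with
      | bot => rfl
      | coe q =>
        exfalso
        rw [gs_bot, gs_coe] at hab
        have := D.card_pos_P q
        rw [← hab, Finset.card_empty] at this
        omega
    | coe p =>
      induction b using WithBot.recBotCoe with
      | bot =>
        exfalso
        rw [gs_bot, gs_coe] at hab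
        have := D.card_pos_P p
        rw [hab, Finset.card_empty] at this
        omega
      | coe q =>
        rw [gs_coe, gs_coe] at hab
        rw [gf_coe] at ha' hb'
        rw [D.eq_of_tp hab (ha'.trans hb'.symm)]
  · intro v _
    induction v using WithBot.recBotCoe with
    | bot => rw [gsg_bot]; norm_num
    | coe p => rw [gsg_coe]; exact prod_sq _ _
  · intro a ha b hb
    have ha' := hS a ha
    have hb' := hS b hb
    induction b using WithBot.recBotCoe with
    | bot =>
      rw [lE_bot_right, mul_zero, gs_bot]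
      exact dE_big (by simp)
    | coe q =>
      induction a using WithBot.recBotCoe with
      | bot =>
        rw [gs_bot, gs_coe, gsg_bot, gsg_coe, lE_bot_coe, dE_empty]
        unfold aug
        have h1 := D.card_pos_P q
        by_cases h : q.1.1.card = 1
        · have h2 : D.rkP q = 0 := by unfold rkP; omega
          rw [if_pos h, if_pos h2]
          unfold sg
          rw [D.S_of_card_one q.2.1 h, Finset.prod_empty]
          norm_num
        · have h2 : ¬ D.rkP q = 0 := by unfold rkP; omega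
          rw [if_neg h, if_neg h2, mul_zero]
      | coe p =>
        rw [gf_coe] at ha' hb'
        exact D.dE_piece u p q ha' hb'

theorem tp_mem_of_le {p y : D.PP} (h : p ≤ y) : D.tp p ∈ y.1.2 := h.2 (D.tp_mem p)

/-- the cells below `y` in the piece of `u` -/
theorem mem_piece (y : D.PP) (u : D.W) (hu : u ∈ y.1.2) (σ : Finset D.R) :
    (∃ p : D.PP, p ≤ y ∧ D.tp p = u ∧ p.1.1 = σ) ↔
      σ ⊆ y.1.1 ∧ D.IsL σ ∧ ∀ i ∈ D.S σ, D.cs.IsRightDescent u i := by
  constructor
  · rintro ⟨p, h1, h2, rfl⟩
    refine ⟨h1.1, p.2.1, ?_⟩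
    intro i hi
    rw [← h2]
    exact D.tp_desc p i hi
  · rintro ⟨h1, h2, h3⟩
    refine ⟨D.cel σ h2 u, ?_, D.tp_cel σ h2 u h3, rfl⟩
    obtain ⟨w, hw⟩ := D.cel_surj y
    rw [hw, D.cel_le_iff]
    refine ⟨h1, ?_⟩
    rw [hw] at hu
    have h4 : w⁻¹ * u ∈ D.WT (D.S y.1.1) := hu
    have h5 : u⁻¹ * w = (w⁻¹ * u)⁻¹ := by group
    rw [h5]
    exact inv_mem h4

theorem exa_low (y : D.PP) (hf : (Set.Icc (⊥ : WithBot D.PP) (y : WithBot D.PP)).Finite) :
    Exa hf.toFinset D.lE := by
  obtain ⟨u₀, hu₀, hlt, hnd, huniq⟩ := D.exists_min y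
  have hτ := y.2.1
  apply exa_filt hf.toFinset D.lE (D.gf u₀) D.cs.length
  · intro a ha b hb h
    rw [mem_low] at ha hb
    rcases hb with rfl | ⟨q, rfl, hq⟩
    · exact absurd (D.lE_bot_right a) h
    rcases ha with rfl | ⟨p, rfl, hp⟩
    · rw [gf_bot, gf_coe]
      by_cases h1 : u₀ = D.tp q
      · exact Or.inl h1
      · exact Or.inr (hlt _ (D.tp_mem_of_le hq) (Ne.symm h1))
    · rw [gf_coe, gf_coe]
      by_cases h1 : D.tp p = D.tp q
      · exact Or.inl h1
      · exact Or.inr (D.length_tp_lt p q (D.epP_ne h).1 h1)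
  · exact D.sq_low y hf
  · intro u
    rw [← D.piece_iso u₀ u _ (by intro v hv; exact (Finset.mem_filter.1 hv).2)]
    by_cases huy : u ∈ y.1.2
    swap
    · have e : hf.toFinset.filter (fun v => D.gf u₀ v = u) = ∅ := by
        rw [Finset.filter_eq_empty_iff]
        intro v hv hvu
        rw [mem_low] at hv
        apply huy
        rcases hv with rfl | ⟨p, rfl, hp⟩
        · rw [← hvu]; exact hu₀
        · rw [← hvu]; exact D.tp_mem_of_le hp
      rw [e, Finset.image_empty]
      exact exa_empty _
    -- membership in the image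
    have himg : ∀ σ, σ ∈ (hf.toFinset.filter (fun v => D.gf u₀ v = u)).image D.gs ↔
        (u = u₀ ∧ σ = ∅) ∨ (σ ⊆ y.1.1 ∧ D.IsL σ ∧ ∀ i ∈ D.S σ, D.cs.IsRightDescent u i) := by
      intro σ
      rw [← D.mem_piece y u huy σ, Finset.mem_image]
      constructor
      · rintro ⟨v, hv, rfl⟩
        rw [Finset.mem_filter, mem_low] at hv
        rcases hv with ⟨rfl | ⟨p, rfl, hp⟩, hvu⟩
        · exact Or.inl ⟨hvu.symm, rfl⟩
        · exact Or.inr ⟨p, hp, hvu, rfl⟩
      · rintro (⟨rfl, rfl⟩ | ⟨p, hp, hpu, rfl⟩)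
        · exact ⟨⊥, Finset.mem_filter.2 ⟨(D.mem_low y hf _).2 (Or.inl rfl), rfl⟩, rfl⟩
        · exact ⟨p, Finset.mem_filter.2 ⟨(D.mem_low y hf _).2 (Or.inr ⟨p, rfl, hp⟩), hpu⟩, rfl⟩
    obtain ⟨x₀, hx₀, hx₀1, hx₀2⟩ := hτ.2
    by_cases huu : u = u₀
    · -- the full augmented simplex
      have e : (hf.toFinset.filter (fun v => D.gf u₀ v = u)).image D.gs =
          (y.1.1.filter (fun x => x ≠ D.kap ∧ x ∉ D.Z)).powerset := by
        ext σ
        rw [himg, Finset.mem_powerset]
        constructor
        · rintro (⟨_, rfl⟩ | ⟨h1, h2, h3⟩)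
          · exact Finset.empty_subset _
          · have hS0 : D.S σ = ∅ := by
              rw [Finset.eq_empty_iff_forall_notMem]
              intro i hi
              exact hnd i (D.S_mono h1 hi) (huu ▸ h3 i hi)
            intro x hx
            rw [Finset.mem_filter]
            refine ⟨h1 hx, ?_, ?_⟩
            · rintro rfl
              obtain ⟨x', hx', hx1, hx2⟩ := h2.2
              have hlt' := D.lt_of_chain_four h2.1 hx hx' hx1 D.rk_kap
              have : (⟨x', Or.inl hlt'⟩ : D.I) ∈ D.S σ := by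
                rw [mem_S]; exact ⟨hx', Or.inl hx⟩
              rw [hS0] at this
              exact Finset.notMem_empty _ this
            · intro hxZ
              have : (⟨x, Or.inr hxZ⟩ : D.I) ∈ D.S σ := by
                rw [mem_S]; exact ⟨hx, Or.inr hxZ⟩
              rw [hS0] at this
              exact Finset.notMem_empty _ this
        · intro h
          rcases Finset.eq_empty_or_nonempty σ with rfl | hne
          · exact Or.inl ⟨huu, rfl⟩
          · right
            have h1 : σ ⊆ y.1.1 := h.trans (Finset.filter_subset _ _)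
            have h2 := D.NCin_Q0 σ ⟨hne, hτ.1.mono (by exact_mod_cast h1),
              fun a ha => (Finset.mem_filter.1 (h ha)).2⟩
            refine ⟨h1, h2.1, ?_⟩
            intro i hi
            rw [h2.2] at hi
            exact absurd hi (Finset.notMem_empty _)
      rw [e]
      apply exaA
      · exact hτ.1.mono (by exact_mod_cast Finset.filter_subset _ _)
      · exact ⟨x₀, Finset.mem_filter.2 ⟨hx₀, hx₀1, hx₀2⟩⟩
    · -- some descent
      obtain ⟨i₀, hi₀, hd₀⟩ : ∃ i ∈ D.S y.1.1, D.cs.IsRightDescent u i := by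
        by_contra hcon
        push Not at hcon
        exact huu (huniq u huy hcon)
      have hi₀' := hi₀
      rw [mem_S] at hi₀'
      by_cases hk : D.kap ∈ y.1.1
      · -- cone point `kap`
        have e : (hf.toFinset.filter (fun v => D.gf u₀ v = u)).image D.gs =
            (insert D.kap (y.1.1.erase D.kap)).powerset.filter
              (fun σ => (σ.erase D.kap).Nonempty ∧ (D.kap ∈ σ → σ.erase D.kap ⊆
                ((D.S y.1.1).filter (fun i => D.cs.IsRightDescent u i)).image (fun i => i.1))) := by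
          ext σ
          rw [himg, Finset.mem_filter, Finset.mem_powerset, Finset.insert_erase hk]
          constructor
          · rintro (⟨h, _⟩ | ⟨h1, h2, h3⟩)
            · exact absurd h huu
            · refine ⟨h1, ?_, ?_⟩
              · obtain ⟨x', hx', hx1, hx2⟩ := h2.2
                exact ⟨x', Finset.mem_erase.2 ⟨hx1, hx'⟩⟩
              · intro hkσ x hx
                rw [Finset.mem_erase] at hx
                have hlt' := D.lt_of_chain_four h2.1 hkσ hx.2 hx.1 D.rk_kap
                have hm : (⟨x, Or.inl hlt'⟩ : D.I) ∈ D.S σ := by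
                  rw [mem_S]; exact ⟨hx.2, Or.inl hkσ⟩
                rw [Finset.mem_image]
                exact ⟨_, Finset.mem_filter.2 ⟨D.S_mono h1 hm, h3 _ hm⟩, rfl⟩
          · rintro ⟨h1, h2, h3⟩
            right
            obtain ⟨x, hx⟩ := h2
            rw [Finset.mem_erase] at hx
            have hlt' := D.lt_of_chain_four hτ.1 hk (h1 hx.2) hx.1 D.rk_kap
            have h4 := D.rk_lt_four hlt'
            refine ⟨h1, ⟨hτ.1.mono (by exact_mod_cast h1), x, hx.2, hx.1, ?_⟩, ?_⟩
            · intro hxZ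
              rw [D.rk_Z x hxZ] at h4; omega
            · intro i hi
              rw [mem_S] at hi
              by_cases hkσ : D.kap ∈ σ
              · have hik : i.1 ≠ D.kap := by
                  rcases i.2 with h5 | h5
                  · exact h5.ne
                  · intro h; exact D.kap_Z (by rw [← h]; exact h5)
                have h5 := h3 hkσ (Finset.mem_erase.2 ⟨hik, hi.1⟩)
                rw [Finset.mem_image] at h5
                obtain ⟨j, hj, hji⟩ := h5
                rw [Finset.mem_filter] at hj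
                rw [← Subtype.ext hji]
                exact hj.2
              · have hiZ : i.1 ∈ D.Z := by
                  rcases hi.2 with h | h
                  · exact absurd h hkσ
                  · exact h
                exfalso
                have hik : i.1 ≠ D.kap := by
                  intro h; exact D.kap_Z (by rw [← h]; exact hiZ)
                have h5 := D.lt_of_chain_four hτ.1 hk (h1 hi.1) hik D.rk_kap
                have h6 := D.rk_lt_four h5
                rw [D.rk_Z _ hiZ] at h6; omega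
        rw [e]
        apply exaB
        · rw [Finset.insert_erase hk]; exact hτ.1
        · exact Finset.notMem_erase _ _
        · intro x hx
          rw [Finset.mem_image] at hx
          obtain ⟨i, hi, rfl⟩ := hx
          rw [Finset.mem_filter, mem_S] at hi
          refine Finset.mem_erase.2 ⟨?_, hi.1.1⟩
          rcases i.2 with h5 | h5
          · exact h5.ne
          · intro h; exact D.kap_Z (by rw [← h]; exact h5)
        · exact ⟨i₀.1, Finset.mem_image.2 ⟨i₀, Finset.mem_filter.2 ⟨hi₀, hd₀⟩, rfl⟩⟩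
      · -- cone point `z`
        have hz : i₀.1 ∈ D.Z := by
          rcases hi₀'.2 with h | h
          · exact absurd h hk
          · exact h
        have hzy : i₀.1 ∈ y.1.1 := hi₀'.1
        have hz4 := D.rk_Z _ hz
        have huz : ∀ i ∈ D.S y.1.1, i = i₀ := by
          intro i hi
          rw [mem_S] at hi
          have hiZ : i.1 ∈ D.Z := by
            rcases hi.2 with h | h
            · exact absurd h hk
            · exact h
          by_contra hne
          have h5 := D.lt_of_chain_four hτ.1 hzy hi.1 (fun h => hne (Subtype.ext h)) hz4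
          have h6 := D.rk_lt_four h5
          rw [D.rk_Z _ hiZ] at h6; omega
        have e : (hf.toFinset.filter (fun v => D.gf u₀ v = u)).image D.gs =
            (insert i₀.1 (y.1.1.erase i₀.1)).powerset.filter
              (fun σ => (σ.erase i₀.1).Nonempty ∧ (i₀.1 ∈ σ → σ.erase i₀.1 ⊆
                y.1.1.erase i₀.1)) := by
          ext σ
          rw [himg, Finset.mem_filter, Finset.mem_powerset, Finset.insert_erase hzy]
          constructor
          · rintro (⟨h, _⟩ | ⟨h1, h2, h3⟩)
            · exact absurd h huu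
            · refine ⟨h1, ?_, ?_⟩
              · obtain ⟨x', hx', hx1, hx2⟩ := h2.2
                refine ⟨x', Finset.mem_erase.2 ⟨?_, hx'⟩⟩
                intro h; exact hx2 (by rw [h]; exact hz)
              · intro _
                exact Finset.erase_subset_erase _ h1
          · rintro ⟨h1, h2, _⟩
            right
            obtain ⟨x, hx⟩ := h2
            rw [Finset.mem_erase] at hx
            have hlt' := D.lt_of_chain_four hτ.1 hzy (h1 hx.2) hx.1 hz4
            have h4 := D.rk_lt_four hlt'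
            refine ⟨h1, ⟨hτ.1.mono (by exact_mod_cast h1), x, hx.2, ?_, ?_⟩, ?_⟩
            · rintro rfl
              exact hk (h1 hx.2)
            · intro hxZ
              rw [D.rk_Z x hxZ] at h4; omega
            · intro i hi
              rw [huz i (D.S_mono h1 hi)]
              exact hd₀
        rw [e]
        apply exaB
        · rw [Finset.insert_erase hzy]; exact hτ.1
        · exact Finset.notMem_erase _ _
        · exact Finset.Subset.refl _
        · refine ⟨x₀, Finset.mem_erase.2 ⟨?_, hx₀⟩⟩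
          intro h; exact hx₀2 (by rw [h]; exact hz)

/-- `low_P` of module E -/
theorem low_P_aux (y : D.PP) :
    Good (bE (aug D.rkP) D.epP) (⊥ : WithBot D.PP) (y : WithBot D.PP) :=
  ⟨D.fin_low y, D.sq_low y _, D.exa_low y _⟩

end Pool.Agent.Helper635.PD4.RData
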