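import Pool.Agent.Helper635_PD4.PPTop
import Pool.Agent.Helper635_PD4.LemP
import Pool.Agent.Helper635_PD4.PPLocAux3
import Pool.Agent.Helper635_PD4.PPLow2

/-!
# Module E: local properties of the reflection poset
-/

open scoped Classical

namespace Pool.Agent.Helper635.PD4.RData

variable {G : Type} [Group G] (D : RData G)

theorem gr_P : Gr D.rkP D.epP := D.e_gr_P

theorem low_P (y : D.PP) : Good (bE (aug D.rkP) D.epP) (⊥ : WithBot D.PP) (y : WithBot D.PP) :=
  D.low_P_aux y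

theorem up_P (x : D.PP) : Good (bE (Q := (D.PP)ᵒᵈ) (fun x => D.oriP (OrderDual.ofDual x))
    (fun x y => D.epP (OrderDual.ofDual y) (OrderDual.ofDual x)))
    (⊥ : WithBot (D.PP)ᵒᵈ) ((OrderDual.toDual x : (D.PP)ᵒᵈ) : WithBot (D.PP)ᵒᵈ) := D.e_up_P x

theorem rkP_le (p : D.PP) : D.rkP p ≤ 4 := D.e_rkP_le p

theorem oriP_ne (p : D.PP) (h : D.oriP p ≠ 0) : D.rkP p = 4 := D.e_oriP_ne p h

theorem rkP_smul (x : D.Gam) (p : D.PP) : D.rkP (x • p) = D.rkP p := D.e_rkP_smul x p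

theorem epP_smul (x : D.Gam) (p q : D.PP) : D.epP (x • p) (x • q) = D.epP p q := D.e_epP_smul x p q

theorem oriP_smul (x : D.Gam) (p : D.PP) : D.oriP (x • p) = D.oriP p := D.e_oriP_smul x p

theorem free_P (x : D.Gam) (p : D.PP) (h : x • p = p) : x = 1 := D.e_free_P x p h

theorem orb_P : Finite (MulAction.orbitRel.Quotient D.Gam D.PP) := D.e_orb_P

end Pool.Agent.Helper635.PD4.RData
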