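import Pool.Agent.Helper635_PD4.Dual
import Pool.Agent.Helper635_PD4.PPLoc
import Pool.Agent.Helper635_PD4.PPConn
import Pool.Agent.Helper635_PD4.PPCell

/-!
# Assembly: from `RData` to the PD-complex
-/

open scoped Classical

namespace Pool.Agent.Helper635.PD4

namespace RData
variable {G : Type} [Group G] (D : RData G)

/-- the local data of the reflection poset -/
noncomputable def locPP : LocP D.PP 4 where
  rk := D.rkP
  ep := D.epP
  gr := D.gr_P
  low := D.low_P
  ori := D.oriP
  rk_le := D.rkP_le
  ori_ne := D.oriP_ne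
  up := D.up_P

/-- the inclusion of `G` in `Γ` -/
noncomputable def inG : G →* D.Gam :=
  (SemidirectProduct.inr : G →* D.WG).codRestrict D.Gam (by
    intro g
    rw [MonoidHom.mem_ker]
    ext k
    rw [chi_apply]
    simp)

theorem inG_injective : Function.Injective D.inG := by
  intro a b h
  have := congrArg (fun x : D.Gam => (x : D.WG).right) h
  simpa [inG] using this

end RData

theorem main_of {G : Type} [Group G] (D : RData G) (t : G) (ht : t ≠ 1) (ht2 : t * t = 1)
    (hfin : ∀ K : Subgroup G, K.FiniteIndex → t ∈ K) :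
    ∃ (Γ P : Type) (_ : Group Γ) (_ : PartialOrder P) (_ : OrdAct Γ P),
      IsPD 4 Γ P ∧ HZero P 2 ∧
      ∀ K : Subgroup Γ, K.FiniteIndex → ∃ g ∈ K, g ≠ 1 ∧ IsOfFinOrder g := by
  refine ⟨D.Gam, D.PP, inferInstance, inferInstance, inferInstance, ?_, ?_, ?_⟩
  · exact pd_of_loc D.locPP D.free_P D.rkP_smul D.epP_smul D.oriP_smul D.orb_P D.conn_P D.sc_P
  · exact hzero_of_cellH D.locPP.toLowP 4 D.rkP_le 2 D.cellH_P
  · intro K hK
    have h1 : (K.comap D.inG).FiniteIndex := by
      constructor
      rw [Subgroup.index_comap]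
      have h2 : (K.subgroupOf (D.inG).range).FiniteIndex := inferInstance
      exact h2.index_ne_zero
    refine ⟨D.inG t, hfin _ h1, ?_, ?_⟩
    · intro h
      apply ht
      apply D.inG_injective
      rw [h, map_one]
    · rw [isOfFinOrder_iff_pow_eq_one]
      exact ⟨2, by norm_num, by rw [← map_pow, pow_two, ht2, map_one]⟩

end Pool.Agent.Helper635.PD4
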