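import Pool.Agent.Helper635_PD4.Defs

/-!
# Base definitions for the construction

* `Sq`, `Exa` : finite free differential groups given by integer matrices
* `Gr`, `Good` : graded posets with incidence numbers, good intervals
* `oc`, `EP`, `Kset` : the complex of Lemma P
* `LocP` : local hypotheses for the duality theorem
* `RData` : input of the reflection construction
-/

open scoped Classical

namespace Pool.Agent.Helper635.PD4

/-- `∂² = 0` on the finite set `S`; `E u v` is the coefficient of `u` in `∂ v` -/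
def Sq {V : Type*} (S : Finset V) (E : V → V → ℤ) : Prop :=
  ∀ u ∈ S, ∀ w ∈ S, ∑ v ∈ S, E u v * E v w = 0

/-- exactness (`ker ∂ ⊆ im ∂`) of the free group on the finite set `S` with matrix `E` -/
def Exa {V : Type*} (S : Finset V) (E : V → V → ℤ) : Prop :=
  ∀ z : V → ℤ, (∀ u ∈ S, ∑ v ∈ S, E u v * z v = 0) →
    ∃ y : V → ℤ, ∀ u ∈ S, z u = ∑ v ∈ S, E u v * y v

/-- a contraction of the free group on the finite set `S` with matrix `E` -/
def Ctr {V : Type*} (S : Finset V) (E : V → V → ℤ) : Prop :=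
  ∃ h : V → V → ℤ, ∀ u ∈ S, ∀ v ∈ S,
    ∑ w ∈ S, (E u w * h w v + h u w * E w v) = if u = v then 1 else 0

/-- compatibility of a rank function and incidence numbers with a partial order -/
structure Gr {Q : Type*} [PartialOrder Q] (rk : Q → ℕ) (ep : Q → Q → ℤ) : Prop where
  lt : ∀ x y, x < y → rk x < rk y
  ne : ∀ x y, ep x y ≠ 0 → x < y ∧ rk y = rk x + 1

/-- the interval `[x, y]` is finite, and with the incidence numbers `ep` it is an exact
differential group -/
structure Good {Q : Type*} [PartialOrder Q] (ep : Q → Q → ℤ) (x y : Q) : Prop where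
  fin : (Set.Icc x y).Finite
  sq : Sq fin.toFinset ep
  exa : Exa fin.toFinset ep

/-- incidence numbers on `WithBot Q`: the bottom has incidence `a y` with `y` -/
def bE {Q : Type*} (a : Q → ℤ) (ep : Q → Q → ℤ) (u v : WithBot Q) : ℤ :=
  WithBot.recBotCoe (C := fun _ => ℤ) 0
    (fun y => WithBot.recBotCoe (C := fun _ => ℤ) (a y) (fun x => ep x y) u) v

/-- incidence numbers on `WithTop Q`: the top has incidence `o x` with `x` -/
def tE {Q : Type*} (o : Q → ℤ) (ep : Q → Q → ℤ) (u v : WithTop Q) : ℤ :=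
  WithTop.recTopCoe (C := fun _ => ℤ) 0
    (fun x => WithTop.recTopCoe (C := fun _ => ℤ) (o x) (fun y => ep x y) v) u

/-- the usual augmentation: `1` on rank `0`, `0` elsewhere -/
def aug {Q : Type*} (rk : Q → ℕ) (x : Q) : ℤ := if rk x = 0 then 1 else 0

/-- rank function on `WithBot Q` -/
def rkB {Q : Type*} (rk : Q → ℕ) (u : WithBot Q) : ℕ :=
  WithBot.recBotCoe (C := fun _ => ℕ) 0 (fun x => rk x + 1) u

/-- rank function on `WithTop Q`, top of rank `n` -/
def rkT {Q : Type*} (n : ℕ) (rk : Q → ℕ) (u : WithTop Q) : ℕ :=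
  WithTop.recTopCoe (C := fun _ => ℕ) n (fun x => rk x) u

/-! ### the complex of Lemma P -/

/-- auxiliary recursion for `oc` -/
noncomputable def ocAux {Q : Type*} [PartialOrder Q] (ep : Q → Q → ℤ) (b : Q) :
    ℕ → Finset Q → Q → ℤ
  | 0, _, y => ep b y
  | (n + 1), A, y =>
    ∑ m ∈ A.filter (fun m => ∀ a ∈ A, a ≤ m), ocAux ep b n (A.erase m) m * ep m y

/-- for a chain `A = {a_1 < … < a_k}`, the product `ep b a_1 * ep a_1 a_2 * … * ep a_k y` -/
noncomputable def oc {Q : Type*} [PartialOrder Q] (ep : Q → Q → ℤ) (b : Q) (A : Finset Q)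
    (y : Q) : ℤ := ocAux ep b A.card A y

/-- the simplicial boundary matrix on finite sets: the coefficient of `A'` in `∂ A` -/
noncomputable def dE {Q : Type*} [PartialOrder Q] (A' A : Finset Q) : ℤ :=
  ∑ a ∈ A, if A' = A.erase a then (-1) ^ pos A a else 0

/-- the matrix of Lemma P on `Option (Finset Q)`; `none` is the extra basis element, with
boundary `∑ oc b A y • A` -/
noncomputable def EP {Q : Type*} [PartialOrder Q] (ep : Q → Q → ℤ) (b y : Q) :
    Option (Finset Q) → Option (Finset Q) → ℤ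
  | some A', some A => dE A' A
  | some A, none => oc ep b A y
  | none, _ => 0

/-- the chains `A` with `σ ⊆ A` in the open interval `(b, y)` -/
def Kset {Q : Type*} [PartialOrder Q] (b y : Q) (σ : Finset Q) : Set (Finset Q) :=
  {A | σ ⊆ A ∧ IsChain (· ≤ ·) (A : Set Q) ∧ ∀ a ∈ A, b < a ∧ a < y}

/-! ### local hypotheses for duality -/

/-- the lower half of the local hypotheses -/
structure LowP (P : Type*) [PartialOrder P] where
  rk : P → ℕ
  ep : P → P → ℤ
  gr : Gr rk ep
  low : ∀ y : P, Good (bE (aug rk) ep) (⊥ : WithBot P) (y : WithBot P)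

/-- the local hypotheses: all `[0^, y]` and all `[x, 1^]` are good. For the second half we use the
opposite poset. -/
structure LocP (P : Type*) [PartialOrder P] (n : ℕ) extends LowP P where
  ori : P → ℤ
  rk_le : ∀ x, rk x ≤ n
  ori_ne : ∀ x, ori x ≠ 0 → rk x = n
  up : ∀ x : P, Good (bE (Q := Pᵒᵈ) (fun x => ori (OrderDual.ofDual x))
    (fun x y => ep (OrderDual.ofDual y) (OrderDual.ofDual x)))
    (⊥ : WithBot Pᵒᵈ) ((OrderDual.toDual x : Pᵒᵈ) : WithBot Pᵒᵈ)

/-- vanishing of the cellular homology in degree `k`: finitely supported cycles on the elements of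
rank `k` are boundaries -/
def CellH {P : Type*} (rk : P → ℕ) (ep : P → P → ℤ) (k : ℕ) : Prop :=
  ∀ z : P →₀ ℤ, (∀ x ∈ z.support, rk x = k) →
    (∀ u : P, (z.sum fun v c => ep u v * c) = 0) →
    ∃ y : P →₀ ℤ, (∀ x ∈ y.support, rk x = k + 1) ∧
      ∀ u : P, z u = y.sum fun v c => ep u v * c

/-! ### input of the reflection construction -/

/-- Input of the reflection construction (see the module documentation). `E = Z ∪ {kap}`. -/
structure RData (G : Type) [Group G] where
  R : Type
  [po : PartialOrder R]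
  [act : OrdAct G R]
  rk : R → ℕ
  ep : R → R → ℤ
  ori : R → ℤ
  kap : R
  Z : Set R
  gr : Gr rk ep
  rk_le : ∀ x, rk x ≤ 4
  rk_kap : rk kap = 4
  rk_Z : ∀ z ∈ Z, rk z = 4
  kap_Z : kap ∉ Z
  ori_ne : ∀ x, ori x ≠ 0 → rk x = 4
  rk_smul : ∀ (g : G) x, rk (g • x) = rk x
  ep_smul : ∀ (g : G) x y, ep (g • x) (g • y) = ep x y
  ori_smul : ∀ (g : G) x, ori (g • x) = ori x
  kap_smul : ∀ g : G, g • kap = kap
  Z_smul : ∀ (g : G), ∀ z ∈ Z, g • z ∈ Z
  free : ∀ (g : G) x, x ≠ kap → x ∉ Z → g • x = x → g = 1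
  orb : Finite (MulAction.orbitRel.Quotient G R)
  /-- all intervals of `R ∪ {⊥, ⊤}` are good, except `[⊥, kap]` and `[⊥, ⊤]` -/
  good : ∀ x y : WithBot (WithTop R), x < y →
    ¬ (x = ⊥ ∧ (y = ((kap : WithTop R) : WithBot (WithTop R)) ∨
      y = ((⊤ : WithTop R) : WithBot (WithTop R)))) →
    Good (bE (aug (rkT 5 rk)) (tE ori ep)) x y
  conn : Conn {x : R // x ≠ kap ∧ x ∉ Z}
  sc : SC {x : R // x ≠ kap ∧ x ∉ Z}
  h2 : HZero {x : R // x ≠ kap ∧ x ∉ Z} 2
  connZ : ∀ z ∈ Z, Conn {x : R // x < z}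
  h1Z : ∀ z ∈ Z, HZero {x : R // x < z} 1

attribute [instance] RData.po RData.act

end Pool.Agent.Helper635.PD4
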