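import Pool.Agent.Helper635_PD4.Tab2

/-!
# Boolean checks of the tables, first part
-/

set_option maxRecDepth 100000

namespace Pool.Agent.Helper635.PD4.Tab

/-- bit mask of a list of numbers -/
def maskOf : List ℕ → ℕ
  | [] => 0
  | c :: L => Nat.lor (Nat.shiftLeft 1 c) (maskOf L)

/-- membership test by a mask -/
def mem (m c : ℕ) : Bool := Nat.beq (Nat.land 1 (Nat.shiftRight m c)) 1

theorem mem_iff (m c : ℕ) : mem m c = true ↔ m.testBit c = true := by
  unfold mem
  rw [Nat.beq_eq]
  show (1 &&& (m >>> c) = 1) ↔ _
  rw [Nat.testBit_eq_decide_div_mod_eq, Nat.one_and_eq_mod_two, Nat.shiftRight_eq_div_pow]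
  simp

theorem mem_maskOf (L : List ℕ) (c : ℕ) : mem (maskOf L) c = true ↔ c ∈ L := by
  rw [mem_iff]
  induction L with
  | nil => simp [maskOf]
  | cons a L ih =>
    show ((1 <<< a) ||| maskOf L).testBit c = true ↔ _
    rw [Nat.testBit_or]
    simp only [Bool.or_eq_true, List.mem_cons, ih]
    rw [Nat.one_shiftLeft, Nat.testBit_two_pow]
    simp only [decide_eq_true_eq]
    constructor
    · rintro (h | h)
      · exact Or.inl h.symm
      · exact Or.inr h
    · rintro (h | h)
      · exact Or.inl h.symm
      · exact Or.inr h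

theorem all_range {f : ℕ → Bool} {n : ℕ} (h : (List.range n).all f = true) {j : ℕ} (hj : j < n) :
    f j = true := by
  rw [List.all_eq_true] at h
  exact h j (List.mem_range.2 hj)

/-- check: basic shape of the closures -/
def chk0 (j : ℕ) : Bool :=
  mem (maskOf (cloL j)) (32 * j) &&
  (cloL j).all (fun c => Nat.blt (c % 32) 17 &&
    (Nat.beq c (32 * j) || (Nat.blt (dim (c / 32)) (dim j))) &&
    (Nat.blt (c / 32) 322) &&
    (!isX j || isX (c / 32)))

theorem chk0_all : (List.range 322).all chk0 = true := by decide +kernel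

/-- check: transitivity -/
def chk1 (j : ℕ) : Bool :=
  (cloL j).all fun c => (cloL (c / 32)).all fun e =>
    Nat.blt (mulT (c % 32) (e % 32)) 17 &&
    mem (maskOf (cloL j)) (32 * (e / 32) + mulT (c % 32) (e % 32))

theorem chk1_all : (List.range 322).all chk1 = true := by decide +kernel

/-- the nontrivial products in the table -/
def prods : List (ℕ × ℕ) :=
  [(1, 13), (5, 15), (5, 13), (6, 13), (3, 15), (7, 14), (7, 15), (2, 14), (8, 16), (8, 15), (9, 16),
   (11, 15), (12, 16), (12, 15), (4, 16), (10, 3), (10, 4), (10, 8), (10, 10), (10, 11), (10, 9),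
   (10, 12)]

theorem mulT_cases' : ∀ m < 17, ∀ l < 17, (!(Nat.blt (mulT m l) 17)) ||
    (Nat.beq m 0 && Nat.beq (mulT m l) l) || (Nat.beq l 0 && Nat.beq (mulT m l) m) ||
    prods.contains (m, l) = true := by decide +kernel

theorem mulT_cases (m : ℕ) (hm : m < 17) (l : ℕ) (hl : l < 17) (h : mulT m l < 17) :
    (m = 0 ∧ mulT m l = l) ∨ (l = 0 ∧ mulT m l = m) ∨ (m, l) ∈ prods := by
  have := mulT_cases' m hm l hl
  simp only [Bool.or_eq_true, Bool.and_eq_true, Nat.beq_eq, Bool.not_eq_true',
    List.contains_iff_mem] at this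
  have h1 : Nat.blt (mulT m l) 17 = true := by simpa using h
  rw [h1] at this
  simp only [Bool.true_eq_false, false_or] at this
  rcases this with (h2 | h2) | h2
  · exact Or.inl h2
  · exact Or.inr (Or.inl h2)
  · exact Or.inr (Or.inr (by simpa using h2))

/-- the values of the nontrivial products -/
theorem prods_val : prods.map (fun p => mulT p.1 p.2) =
    [0, 1, 6, 3, 0, 1, 2, 0, 3, 9, 10, 10, 11, 4, 0, 11, 9, 12, 0, 3, 4, 8] := by decide +kernel

/-- check of the division table -/
theorem divT_ok : ∀ k < 17, ∀ m < 17, divT k m < 17 → mulT k (divT k m) = m := by decide +kernel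

/-- division is complete where multiplication is defined -/
theorem divT_mul : ∀ k < 17, ∀ l < 17, mulT k l < 17 → divT k (mulT k l) = l := by decide +kernel

/-- check: every proper face lies in a facet -/
def chkF (w : ℕ) : Bool :=
  (cloL w).all fun c => Nat.beq c (32 * w) ||
    (facL w).any fun e => Nat.blt (divT (e / 2 % 32) (c % 32)) 17 &&
      mem (maskOf (cloL (e / 64))) (32 * (c / 32) + divT (e / 2 % 32) (c % 32))

theorem chkF_all : (List.range 322).all chkF = true := by decide +kernel

/-- check: facets are faces of codimension one -/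
def chkFc (w : ℕ) : Bool :=
  (facL w).all fun e => mem (maskOf (cloL w)) (e / 2) && Nat.beq (dim (e / 64) + 1) (dim w)

theorem chkFc_all : (List.range 322).all chkFc = true := by decide +kernel

/-- check: the lists `upL` against the closures -/
def chkA (x : ℕ) : Bool :=
  (upL x).all fun e => mem (maskOf (cloL (e / 32))) (32 * x + e % 32)

theorem chkA_all : (List.range 322).all chkA = true := by decide +kernel

/-- the label `t * l`, for the labels `l` in the closure of cell `321` -/
def tmul (l : ℕ) : ℕ := mulT 10 l

/-- check: the closures against the lists `upL` -/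
def chkB (w : ℕ) : Bool :=
  (cloL w).all fun c => mem (maskOf (upL (c / 32))) (32 * w + c % 32) ||
    (Nat.beq w 321 && mem (maskOf (upL (c / 32))) (32 * w + tmul (c % 32)))

theorem chkB_all : (List.range 322).all chkB = true := by decide +kernel

end Pool.Agent.Helper635.PD4.Tab
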