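import Pool.Agent.Helper635_PD4.Chk

/-!
# Boolean checks of the tables, second part: intervals
-/

set_option maxRecDepth 100000

namespace Pool.Agent.Helper635.PD4.Tab

theorem divR_mul : ∀ k < 17, ∀ l < 17, mulT k l < 17 → divR l (mulT k l) = k := by decide +kernel

theorem divR_ok : ∀ l < 17, ∀ m < 17, divR l m < 17 → mulT (divR l m) l = m := by decide +kernel

/-- code of `kap` in the upper models -/
def KAP : ℕ := 10304

/-- code of the top in the upper models -/
def TOP : ℕ := 10336

/-- the upper model at `x` -/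
def VL (x : ℕ) : List ℕ := TOP :: (cond (isX x) (KAP :: upL x) (upL x))

/-- sign -/
def sgI (s : ℕ) : ℤ := cond (Nat.beq s 0) 1 (-1)

/-- sign of the boundary 3-cells with respect to `kap` -/
def ekI (i : ℕ) : ℤ :=
  cond (Nat.ble 287 i && Nat.blt i 301) (cond (ekN.testBit (i - 287)) (-1) 1) 0

/-- incidence in the upper model -/
def incV (e f : ℕ) : ℤ :=
  cond (Nat.beq f TOP) (cond (Nat.beq e KAP || (Nat.ble 318 (e / 32) && Nat.blt (e / 32) 322)) 1 0)
    (cond (Nat.beq f KAP) (ekI (e / 32))
      (((facL (f / 32)).map fun c =>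
        cond (Nat.beq (c / 64) (e / 32) && Nat.beq (mulT (c / 2 % 32) (e % 32)) (f % 32))
          (sgI (c % 2)) 0).sum))

/-- facets in the upper model -/
def fV (x e : ℕ) : List ℕ :=
  cond (Nat.beq e TOP)
    ((VL x).filter fun c => Nat.beq c KAP || (Nat.ble 318 (c / 32) && Nat.blt (c / 32) 322))
    (cond (Nat.beq e KAP) ((VL x).filter fun c => Nat.ble 287 (c / 32) && Nat.blt (c / 32) 301)
      (((facL (e / 32)).map fun c => 32 * (c / 64) + divT (c / 2 % 32) (e % 32)).filter
        fun c => mem (maskOf (VL x)) c))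

/-- order in the upper model -/
def leV (e f : ℕ) : Bool :=
  cond (Nat.beq f TOP) true
    (cond (Nat.beq f KAP) (Nat.beq e KAP || isX (e / 32))
      (cond (Nat.beq e TOP || Nat.beq e KAP) false
        (Nat.blt (divR (e % 32) (f % 32)) 17 &&
          mem (maskOf (cloL (f / 32))) (32 * (e / 32) + divR (e % 32) (f % 32)))))

/-- the collapsing check -/
def coll (x : ℕ) : List ℕ → Bool
  | [] => true
  | [_] => false
  | b :: a :: L =>
    (incV a b == 1 || incV a b == -1) &&
    (fV x b).all (fun c => Nat.beq c a || mem (maskOf L) c) &&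
    (fV x a).all (fun c => mem (maskOf L) c) &&
    !(Nat.beq b a) && !(mem (maskOf L) b) && !(mem (maskOf L) a) && coll x L

/-- check of one interval -/
def chkI (x : ℕ) (I : List ℕ) : Bool :=
  match I with
  | [] => false
  | f :: _ =>
    (VL x).all (fun e => (mem (maskOf I) e) == leV e f) && I.all (fun e => mem (maskOf (VL x)) e) &&
    coll x I

/-- check of all intervals starting at `x` -/
def chkJ (x : ℕ) : Bool :=
  (splitSep [] (ivL x)).all (chkI x) &&
  (VL x).all (fun f => Nat.beq f (32 * x) ||
    ((splitSep [] (ivL x)).any fun I => match I with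
      | [] => false
      | e :: _ => Nat.beq e f))

end Pool.Agent.Helper635.PD4.Tab
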