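import Pool.Agent.Helper635_PD4.ModDefs

/-!
# Boolean checks of collapsing sequences: definitions and soundness
-/

set_option maxRecDepth 100000

namespace Pool.Agent.Helper635.PD4.Tab

open Pool.Agent.Helper635.PD4 RX

/-! ### masks -/

/-- inclusion of masks -/
def sub (m k : ℕ) : Bool := Nat.beq (Nat.lor m k) k

theorem sub_mem {m k : ℕ} (h : sub m k = true) {c : ℕ} (hc : mem m c = true) :
    mem k c = true := by
  unfold sub at h
  rw [Nat.beq_eq] at h
  rw [mem_iff] at hc ⊢
  rw [← h]
  show (m ||| k).testBit c = true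
  rw [Nat.testBit_or, hc, Bool.true_or]

/-- add a bit -/
def addB (m c : ℕ) : ℕ := Nat.lor m (Nat.shiftLeft 1 c)

theorem mem_addB {m c e : ℕ} (h : mem (addB m c) e = true) : e = c ∨ mem m e = true := by
  rw [mem_iff] at h ⊢
  unfold addB at h
  have h' : (m ||| (1 <<< c)).testBit e = true := h
  rw [Nat.testBit_or, Bool.or_eq_true] at h'
  rcases h' with h' | h'
  · exact Or.inr h'
  · rw [Nat.one_shiftLeft, Nat.testBit_two_pow] at h'
    simp only [decide_eq_true_eq] at h'
    exact Or.inl h'.symm

theorem mem_land {m k c : ℕ} (h1 : mem m c = true) (h2 : mem k c = true) :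
    mem (Nat.land m k) c = true := by
  rw [mem_iff] at *
  show (m &&& k).testBit c = true
  rw [Nat.testBit_and, h1, h2]; rfl

/-! ### sums with one nonzero term -/

theorem sum_cond_zero (L : List ℕ) (p : ℕ → Bool) (s : ℕ → ℤ) (h : ∀ c ∈ L, p c = false) :
    (L.map fun c => cond (p c) (s c) 0).sum = 0 := by
  induction L with
  | nil => rfl
  | cons a L ih =>
    rw [List.map_cons, List.sum_cons, ih (fun c hc => h c (List.mem_cons_of_mem _ hc)),
      h a (List.mem_cons_self), add_zero]
    rfl

theorem sum_cond_one (L : List ℕ) (p : ℕ → Bool) (s : ℕ → ℤ)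
    (h : (L.filter p).length = 1) :
    ∃ c ∈ L, (L.map fun c => cond (p c) (s c) 0).sum = s c := by
  induction L with
  | nil => simp at h
  | cons a L ih =>
    rw [List.map_cons, List.sum_cons]
    cases hp : p a with
    | true =>
      rw [List.filter_cons_of_pos (by simpa using hp), List.length_cons] at h
      have h2 : (L.filter p) = [] := List.eq_nil_of_length_eq_zero (by omega)
      rw [List.filter_eq_nil_iff] at h2
      refine ⟨a, List.mem_cons_self, ?_⟩
      rw [sum_cond_zero L p s (fun c hc => by simpa using h2 c hc)]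
      simp
    | false =>
      rw [List.filter_cons_of_neg (by simp [hp])] at h
      obtain ⟨c, hc, h3⟩ := ih h
      exact ⟨c, List.mem_cons_of_mem _ hc, by rw [h3]; simp⟩

theorem sgI_cases (s : ℕ) : sgI s = 1 ∨ sgI s = -1 := by
  unfold sgI
  cases Nat.beq s 0 <;> simp

/-! ### upper models -/

/-- mask of the facets in the upper model -/
def fmN (x e : ℕ) : ℕ :=
  cond (Nat.beq e TOP)
    (maskOf ((VL x).filter fun c =>
      Nat.beq c KAP || (Nat.ble 318 (c / 32) && Nat.blt (c / 32) 322)))
    (cond (Nat.beq e KAP)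
      (maskOf ((VL x).filter fun c => Nat.ble 287 (c / 32) && Nat.blt (c / 32) 301))
      (Nat.land (maskOf (VL x)) (maskOf ((facL (e / 32)).map fun c =>
        32 * (c / 64) + divT (c / 2 % 32) (e % 32)))))

/-- number of incidences -/
def cnt (a b : ℕ) : ℕ :=
  cond (Nat.beq b TOP) 1 (cond (Nat.beq b KAP) 1
    (((facL (b / 32)).filter fun c =>
      Nat.beq (c / 64) (a / 32) && Nat.beq (mulT (c / 2 % 32) (a % 32)) (b % 32)).length))

/-- collapsing sequence -/
def colM (x : ℕ) : List ℕ → Bool
  | [] => true
  | [_] => false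
  | b :: a :: L =>
    mem (fmN x b) a && Nat.beq (cnt a b) 1 &&
    sub (fmN x b) (addB (maskOf L) a) && sub (fmN x a) (maskOf L) &&
    !(Nat.beq b a) && !(mem (maskOf L) b) && !(mem (maskOf L) a) && colM x L

/-- check of the interval with the list `I` -/
def chkM (x : ℕ) (I : List ℕ) : Bool :=
  match I with
  | [] => false
  | f :: _ =>
    (VL x).all (fun e => (mem (maskOf I) e) == leV e f) &&
    sub (maskOf I) (maskOf (VL x)) && colM x I

/-- head test -/
def hdIs (f : ℕ) : List ℕ → Bool
  | [] => false
  | e :: _ => Nat.beq e f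

/-- check of all intervals `[x, f]` -/
def chkP (p : ℕ × List (List ℕ)) : Bool :=
  p.2.all (chkM p.1) && (VL p.1).all (fun f => Nat.beq f (32 * p.1) || p.2.any (hdIs f))

/-- labels in the lists are small -/
def chkV (x : ℕ) : Bool := (VL x).all fun e => Nat.beq e TOP || Nat.beq e KAP ||
  (Nat.blt (e % 32) 17 && Nat.blt (e / 32) 322)

theorem chkV_all : (List.range 322).all chkV = true := by decide +kernel

/-- labels of the facets are small -/
def chkW (x : ℕ) : Bool := (facL x).all fun e => Nat.blt (e / 2 % 32) 17 && Nat.blt (e / 64) 322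

theorem chkW_all : (List.range 322).all chkW = true := by decide +kernel

theorem VL_cases {x : ℕ} (hx : x < 322) {e : ℕ} (he : e ∈ VL x) :
    e = TOP ∨ e = KAP ∨ (e % 32 < 17 ∧ e / 32 < 322) := by
  have h := all_range chkV_all hx
  unfold chkV at h
  rw [List.all_eq_true] at h
  have h2 := h e he
  simp only [Bool.or_eq_true, Bool.and_eq_true, Nat.blt_eq, Nat.beq_eq] at h2
  tauto

theorem facL_lab {x : ℕ} (hx : x < 322) {e : ℕ} (he : e ∈ facL x) :
    e / 2 % 32 < 17 ∧ e / 64 < 322 := by
  have h := all_range chkW_all hx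
  unfold chkW at h
  rw [List.all_eq_true] at h
  simpa using h e he

/-- nonzero incidence implies that the mask bit is set -/
theorem mem_fmN {x : ℕ} (hx : x < 322) {c e : ℕ} (hc : c ∈ VL x) (he : e ∈ VL x)
    (h : incV c e ≠ 0) : mem (fmN x e) c = true := by
  unfold incV at h
  unfold fmN
  cases h1 : Nat.beq e TOP with
  | true =>
    rw [h1] at h
    rw [cond_true] at h ⊢
    rw [mem_maskOf, List.mem_filter]
    refine ⟨hc, ?_⟩
    revert h
    cases (Nat.beq c KAP || (Nat.ble 318 (c / 32) && Nat.blt (c / 32) 322)) <;> simp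
  | false =>
    rw [h1] at h
    rw [cond_false] at h ⊢
    cases h2 : Nat.beq e KAP with
    | true =>
      rw [h2] at h
      rw [cond_true] at h ⊢
      rw [mem_maskOf, List.mem_filter]
      refine ⟨hc, ?_⟩
      unfold ekI at h
      revert h
      cases (Nat.ble 287 (c / 32) && Nat.blt (c / 32) 301) <;> simp
    | false =>
      rw [h2] at h
      rw [cond_false] at h ⊢
      apply mem_land ((mem_maskOf _ _).2 hc)
      rw [mem_maskOf, List.mem_map]
      by_contra hcon
      apply h
      apply sum_cond_zero (facL (e / 32)) (fun d => Nat.beq (d / 64) (c / 32) &&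
        Nat.beq (mulT (d / 2 % 32) (c % 32)) (e % 32)) (fun d => sgI (d % 2))
      intro d hd
      by_contra hcd
      rw [Bool.not_eq_false, Bool.and_eq_true, Nat.beq_eq, Nat.beq_eq] at hcd
      obtain ⟨g1, g2⟩ := hcd
      have heT : e % 32 < 17 ∧ e / 32 < 322 := by
        rcases VL_cases hx he with h3 | h3 | h3
        · rw [h3] at h1; exact absurd h1 (by decide)
        · rw [h3] at h2; exact absurd h2 (by decide)
        · exact h3
      obtain ⟨hdl, hd64⟩ := facL_lab heT.2 hd
      have hcT : c ≠ TOP ∧ c ≠ KAP := by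
        constructor
        · rintro rfl
          have : TOP / 32 = 323 := by decide
          omega
        · rintro rfl
          have : KAP / 32 = 322 := by decide
          omega
      have hcl : c % 32 < 17 := by
        rcases VL_cases hx hc with h3 | h3 | h3
        · exact absurd h3 hcT.1
        · exact absurd h3 hcT.2
        · exact h3.1
      apply hcon
      refine ⟨d, hd, ?_⟩
      have := divT_mul _ hdl _ hcl (by rw [g2]; exact heT.1)
      rw [g2] at this
      rw [this, g1]
      omega

/-- count one implies incidence `±1` -/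
theorem inc_of_cnt {x : ℕ} {a b : ℕ} (ha : a ∈ VL x)
    (hm : mem (fmN x b) a = true) (hc : cnt a b = 1) : incV a b = 1 ∨ incV a b = -1 := by
  unfold fmN at hm
  unfold cnt at hc
  unfold incV
  cases h1 : Nat.beq b TOP with
  | true =>
    rw [h1, cond_true, mem_maskOf, List.mem_filter] at hm
    rw [cond_true, hm.2]
    left; rfl
  | false =>
    rw [h1, cond_false] at hm hc
    rw [cond_false]
    cases h2 : Nat.beq b KAP with
    | true =>
      rw [h2, cond_true, mem_maskOf, List.mem_filter] at hm
      rw [cond_true]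
      unfold ekI
      rw [hm.2]
      rw [cond_true]
      cases ekN.testBit (a / 32 - 287) <;> simp
    | false =>
      rw [h2, cond_false] at hc
      rw [cond_false]
      obtain ⟨c, _, h3⟩ := sum_cond_one (facL (b / 32)) (fun d => Nat.beq (d / 64) (a / 32) &&
        Nat.beq (mulT (d / 2 % 32) (a % 32)) (b % 32)) (fun d => sgI (d % 2)) hc
      rw [h3]
      exact sgI_cases _

theorem colM_closed (x : ℕ) : ∀ L : List ℕ, colM x L = true →
    ∀ v ∈ L, ∀ c, mem (fmN x v) c = true → c ∈ L
  | [] => fun _ v hv => absurd hv (List.not_mem_nil)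
  | [_] => fun h => by simp [colM] at h
  | b :: a :: L => fun h v hv c hc => by
    rw [colM] at h
    simp only [Bool.and_eq_true, Bool.not_eq_true'] at h
    obtain ⟨⟨⟨⟨⟨⟨⟨h1, h2⟩, h3⟩, h4⟩, h5⟩, h6⟩, h7⟩, h8⟩ := h
    rcases List.mem_cons.1 hv with rfl | hv
    · rcases mem_addB (sub_mem h3 hc) with rfl | h9
      · simp
      · rw [mem_maskOf] at h9; simp [h9]
    · rcases List.mem_cons.1 hv with rfl | hv
      · have h9 := sub_mem h4 hc
        rw [mem_maskOf] at h9; simp [h9]
      · have := colM_closed x L h8 v hv c hc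
        simp [this]

theorem colM_coll {x : ℕ} (hx : x < 322) : ∀ L : List ℕ, (∀ e ∈ L, e ∈ VL x) →
    colM x L = true → Coll incV L
  | [] => fun _ _ => trivial
  | [_] => fun _ h => by simp [colM] at h
  | b :: a :: L => fun hL h => by
    rw [colM] at h
    simp only [Bool.and_eq_true, Bool.not_eq_true'] at h
    obtain ⟨⟨⟨⟨⟨⟨⟨h1, h2⟩, h3⟩, h4⟩, h5⟩, h6⟩, h7⟩, h8⟩ := h
    have hb : b ∈ VL x := hL b (by simp)
    have ha : a ∈ VL x := hL a (by simp)
    have hLL : ∀ e ∈ L, e ∈ VL x := fun e he => hL e (by simp [he])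
    have hba : b ≠ a := by
      intro hh
      rw [hh] at h5
      have : Nat.beq a a = true := by simp
      rw [this] at h5; exact absurd h5 (by simp)
    have hbL : b ∉ L := by
      intro hh
      rw [← mem_maskOf, h6] at hh; exact absurd hh (by simp)
    have haL : a ∉ L := by
      intro hh
      rw [← mem_maskOf, h7] at hh; exact absurd hh (by simp)
    rw [Nat.beq_eq] at h2
    have za : ∀ c ∈ VL x, c ∉ L → incV c a = 0 := by
      intro c hc hcL
      by_contra hne
      have := sub_mem h4 (mem_fmN hx hc ha hne)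
      rw [mem_maskOf] at this
      exact hcL this
    have zb : ∀ c ∈ VL x, c ∉ L → c ≠ a → incV c b = 0 := by
      intro c hc hcL hca
      by_contra hne
      rcases mem_addB (sub_mem h3 (mem_fmN hx hc hb hne)) with h9 | h9
      · exact hca h9
      · rw [mem_maskOf] at h9
        exact hcL h9
    have zL : ∀ v ∈ L, ∀ c ∈ VL x, c ∉ L → incV c v = 0 := by
      intro v hv c hc hcL
      by_contra hne
      exact hcL (colM_closed x L h8 v hv c (mem_fmN hx hc (hLL v hv) hne))
    rw [Coll]
    refine ⟨inc_of_cnt ha h1 h2, za a ha haL, za b hb hbL, zb b hb hbL hba, hba.symm, haL, hbL,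
      fun v hv => ⟨zL v hv a ha haL, zL v hv b hb hbL⟩, colM_coll hx L hLL h8⟩

/-- soundness of `chkP` -/
theorem chkP_sound {x : ℕ} (hx : x < 322) {Is : List (List ℕ)} (h : chkP (x, Is) = true)
    {f : ℕ} (hf : f ∈ VL x) (hne : f ≠ 32 * x) :
    ∃ I : List ℕ, (∀ e, e ∈ I ↔ e ∈ VL x ∧ leV e f = true) ∧ Coll incV I := by
  unfold chkP at h
  rw [Bool.and_eq_true, List.all_eq_true, List.all_eq_true] at h
  obtain ⟨h1, h2⟩ := h
  have h3 := h2 f hf
  simp only [Bool.or_eq_true, Nat.beq_eq] at h3
  rcases h3 with h3 | h3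
  · exact absurd h3 hne
  rw [List.any_eq_true] at h3
  obtain ⟨I, hI, h4⟩ := h3
  have h5 := h1 I hI
  rcases I with _ | ⟨e, L⟩
  · simp [hdIs] at h4
  · have h6 : e = f := by simpa [hdIs] using h4
    subst h6
    refine ⟨e :: L, ?_, ?_⟩
    all_goals
      simp only [chkM, Bool.and_eq_true, List.all_eq_true, beq_iff_eq] at h5
      obtain ⟨⟨h7, h8⟩, h9⟩ := h5
      have h10 : ∀ e' ∈ e :: L, e' ∈ VL x := fun e' he' => by
        rw [← mem_maskOf]
        exact sub_mem h8 ((mem_maskOf _ _).2 he')
    · intro e'
      constructor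
      · intro he'
        refine ⟨h10 e' he', ?_⟩
        rw [← h7 e' (h10 e' he'), mem_maskOf]; exact he'
      · rintro ⟨g1, g2⟩
        rw [← mem_maskOf, h7 e' g1]; exact g2
    · exact colM_coll hx _ h10 h9

/-! ### lower models -/

/-- facet mask in the lower models -/
def fmL (e : ℕ) : ℕ :=
  cond (Nat.beq e BOT) 0
    (cond (Nat.beq (dim (e / 32)) 0) (Nat.shiftLeft 1 BOT)
      (maskOf ((facL (e / 32)).map fun c => 32 * (c / 64) + mulT (e % 32) (c / 2 % 32))))

/-- number of incidences -/
def cntL (a b : ℕ) : ℕ :=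
  cond (Nat.beq b BOT) 0 (cond (Nat.beq a BOT) 1
    (((facL (b / 32)).filter fun c =>
      Nat.beq (c / 64) (a / 32) && Nat.beq (mulT (b % 32) (c / 2 % 32)) (a % 32)).length))

/-- collapsing sequence -/
def colN : List ℕ → Bool
  | [] => true
  | [_] => false
  | b :: a :: L =>
    mem (fmL b) a && Nat.beq (cntL a b) 1 &&
    sub (fmL b) (addB (maskOf L) a) && sub (fmL a) (maskOf L) &&
    !(Nat.beq b a) && !(mem (maskOf L) b) && !(mem (maskOf L) a) && colN L

theorem colN_all : (List.range 322).all (fun j => colN (CL j)) = true := by decide +kernel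

/-- vertices have no facets -/
theorem facL_zero_all : (List.range 322).all
    (fun j => !(Nat.beq (dim j) 0) || (facL j).isEmpty) = true := by
  decide +kernel

theorem facL_zero {j : ℕ} (hj : j < 322) (h : dim j = 0) : facL j = [] := by
  have h1 := all_range facL_zero_all hj
  rw [h] at h1
  simpa using h1

/-- labels and numbers in the closures are small -/
def chkC (x : ℕ) : Bool := (cloL x).all fun e => Nat.blt (e % 32) 17 && Nat.blt (e / 32) 322

theorem chkC_all : (List.range 322).all chkC = true := by decide +kernel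

theorem CL_cases {x : ℕ} (hx : x < 322) {e : ℕ} (he : e ∈ CL x) :
    e = BOT ∨ (e ≠ BOT ∧ e % 32 < 17 ∧ e / 32 < 322) := by
  unfold CL at he
  rw [List.mem_append, List.mem_singleton] at he
  rcases he with he | he
  · right
    have h := all_range chkC_all hx
    unfold chkC at h
    rw [List.all_eq_true] at h
    have h2 := h e he
    simp only [Bool.and_eq_true, Nat.blt_eq] at h2
    refine ⟨?_, h2⟩
    rintro rfl
    have : BOT / 32 = 325 := by decide
    omega
  · exact Or.inl he

theorem mulT_lt (a b : ℕ) : mulT a b < 32 := by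
  unfold mulT
  exact Nat.mod_lt _ (by norm_num)

/-- nonzero incidence implies that the mask bit is set -/
theorem mem_fmL {x : ℕ} (hx : x < 322) {c e : ℕ} (hc : c ∈ CL x) (he : e ∈ CL x)
    (h : incL c e ≠ 0) : mem (fmL e) c = true := by
  unfold incL at h
  unfold fmL
  cases h1 : Nat.beq e BOT with
  | true =>
    rw [h1, cond_true] at h
    exact absurd rfl h
  | false =>
    rw [h1, cond_false] at h
    rw [cond_false]
    have heT : e % 32 < 17 ∧ e / 32 < 322 := by
      rcases CL_cases hx he with h3 | h3
      · rw [h3] at h1; exact absurd h1 (by decide)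
      · exact h3.2
    cases h2 : Nat.beq c BOT with
    | true =>
      rw [h2, cond_true] at h
      cases h3 : Nat.beq (dim (e / 32)) 0 with
      | true =>
        rw [cond_true]
        rw [Nat.beq_eq] at h2
        rw [h2]
        rw [mem_iff]
        show (1 <<< BOT).testBit BOT = true
        rw [Nat.one_shiftLeft, Nat.testBit_two_pow]
        simp
      | false =>
        rw [h3, cond_false] at h
        exact absurd rfl h
    | false =>
      rw [h2, cond_false] at h
      cases h3 : Nat.beq (dim (e / 32)) 0 with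
      | true =>
        rw [Nat.beq_eq] at h3
        rw [facL_zero heT.2 h3] at h
        exact absurd rfl h
      | false =>
        rw [cond_false, mem_maskOf, List.mem_map]
        by_contra hcon
        apply h
        apply sum_cond_zero (facL (e / 32)) (fun d => Nat.beq (d / 64) (c / 32) &&
          Nat.beq (mulT (e % 32) (d / 2 % 32)) (c % 32)) (fun d => sgI (d % 2))
        intro d hd
        by_contra hcd
        rw [Bool.not_eq_false, Bool.and_eq_true, Nat.beq_eq, Nat.beq_eq] at hcd
        obtain ⟨g1, g2⟩ := hcd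
        apply hcon
        refine ⟨d, hd, ?_⟩
        rw [g1, g2]
        omega

/-- count one implies incidence `±1` -/
theorem inc_of_cntL {x : ℕ} (hx : x < 322) {a b : ℕ} (hb : b ∈ CL x)
    (hm : mem (fmL b) a = true) (hc : cntL a b = 1) : incL a b = 1 ∨ incL a b = -1 := by
  unfold fmL at hm
  unfold cntL at hc
  unfold incL
  cases h1 : Nat.beq b BOT with
  | true =>
    rw [h1, cond_true] at hc
    exact absurd hc (by norm_num)
  | false =>
    rw [h1, cond_false] at hm hc
    rw [cond_false]
    have hbT : b % 32 < 17 ∧ b / 32 < 322 := by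
      rcases CL_cases hx hb with h3 | h3
      · rw [h3] at h1; exact absurd h1 (by decide)
      · exact h3.2
    cases h2 : Nat.beq a BOT with
    | true =>
      rw [cond_true]
      rw [Nat.beq_eq] at h2
      cases h3 : Nat.beq (dim (b / 32)) 0 with
      | true => left; rfl
      | false =>
        rw [h3, cond_false, mem_maskOf, List.mem_map] at hm
        obtain ⟨d, hd, h4⟩ := hm
        have h5 := (facL_lab hbT.2 hd).2
        have h6 := mulT_lt (b % 32) (d / 2 % 32)
        have h7 : BOT = 10400 := rfl
        omega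
    | false =>
      rw [h2, cond_false] at hc
      rw [cond_false]
      obtain ⟨c, _, h3⟩ := sum_cond_one (facL (b / 32)) (fun d => Nat.beq (d / 64) (a / 32) &&
        Nat.beq (mulT (b % 32) (d / 2 % 32)) (a % 32)) (fun d => sgI (d % 2)) hc
      rw [h3]
      exact sgI_cases _

theorem colN_closed : ∀ L : List ℕ, colN L = true →
    ∀ v ∈ L, ∀ c, mem (fmL v) c = true → c ∈ L
  | [] => fun _ v hv => absurd hv (List.not_mem_nil)
  | [_] => fun h => by simp [colN] at h
  | b :: a :: L => fun h v hv c hc => by
    rw [colN] at h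
    simp only [Bool.and_eq_true, Bool.not_eq_true'] at h
    obtain ⟨⟨⟨⟨⟨⟨⟨h1, h2⟩, h3⟩, h4⟩, h5⟩, h6⟩, h7⟩, h8⟩ := h
    rcases List.mem_cons.1 hv with rfl | hv
    · rcases mem_addB (sub_mem h3 hc) with rfl | h9
      · simp
      · rw [mem_maskOf] at h9; simp [h9]
    · rcases List.mem_cons.1 hv with rfl | hv
      · have h9 := sub_mem h4 hc
        rw [mem_maskOf] at h9; simp [h9]
      · have := colN_closed L h8 v hv c hc
        simp [this]

theorem colN_coll {x : ℕ} (hx : x < 322) : ∀ L : List ℕ, (∀ e ∈ L, e ∈ CL x) →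
    colN L = true → Coll incL L
  | [] => fun _ _ => trivial
  | [_] => fun _ h => by simp [colN] at h
  | b :: a :: L => fun hL h => by
    rw [colN] at h
    simp only [Bool.and_eq_true, Bool.not_eq_true'] at h
    obtain ⟨⟨⟨⟨⟨⟨⟨h1, h2⟩, h3⟩, h4⟩, h5⟩, h6⟩, h7⟩, h8⟩ := h
    have hb : b ∈ CL x := hL b (by simp)
    have ha : a ∈ CL x := hL a (by simp)
    have hLL : ∀ e ∈ L, e ∈ CL x := fun e he => hL e (by simp [he])
    have hba : b ≠ a := by
      intro hh
      rw [hh] at h5
      have : Nat.beq a a = true := by simp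
      rw [this] at h5; exact absurd h5 (by simp)
    have hbL : b ∉ L := by
      intro hh
      rw [← mem_maskOf, h6] at hh; exact absurd hh (by simp)
    have haL : a ∉ L := by
      intro hh
      rw [← mem_maskOf, h7] at hh; exact absurd hh (by simp)
    rw [Nat.beq_eq] at h2
    have za : ∀ c ∈ CL x, c ∉ L → incL c a = 0 := by
      intro c hc hcL
      by_contra hne
      have := sub_mem h4 (mem_fmL hx hc ha hne)
      rw [mem_maskOf] at this
      exact hcL this
    have zb : ∀ c ∈ CL x, c ∉ L → c ≠ a → incL c b = 0 := by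
      intro c hc hcL hca
      by_contra hne
      rcases mem_addB (sub_mem h3 (mem_fmL hx hc hb hne)) with h9 | h9
      · exact hca h9
      · rw [mem_maskOf] at h9
        exact hcL h9
    have zL : ∀ v ∈ L, ∀ c ∈ CL x, c ∉ L → incL c v = 0 := by
      intro v hv c hc hcL
      by_contra hne
      exact hcL (colN_closed L h8 v hv c (mem_fmL hx hc (hLL v hv) hne))
    rw [Coll]
    refine ⟨inc_of_cntL hx hb h1 h2, za a ha haL, za b hb hbL, zb b hb hbL hba, hba.symm, haL, hbL,
      fun v hv => ⟨zL v hv a ha haL, zL v hv b hb hbL⟩, colN_coll hx L hLL h8⟩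

theorem coll_L' {j : ℕ} (hj : j < 322) : Coll incL (CL j) :=
  colN_coll hj (CL j) (fun _ he => he) (all_range colN_all hj)

end Pool.Agent.Helper635.PD4.Tab
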