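import Pool.Agent.Helper635_PD4.ClosAux

/-!
# Module S1: closure operators and opposite posets

`f` is a closure operator on `P` with image in `S`: `x ≤ f x`, and `f x` is the least element of
`S` above `x`.
-/

open scoped Classical

namespace Pool.Agent.Helper635.PD4

theorem conn_of_closure {P : Type} [PartialOrder P] (S : Set P) (f : P → P)
    (hfS : ∀ x, f x ∈ S) (hle : ∀ x, x ≤ f x) (hmin : ∀ x, ∀ s ∈ S, x ≤ s → f x ≤ s)
    (h : Conn {x : P // x ∈ S}) : Conn P := by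
  obtain ⟨⟨x0⟩, h2⟩ := h
  refine ⟨⟨x0.1⟩, ?_⟩
  have key : ∀ x y : {x : P // x ∈ S}, Relation.EqvGen (fun a b => a ≤ b) x y →
      Relation.EqvGen (fun a b : P => a ≤ b) x.1 y.1 := by
    intro x y hxy
    induction hxy with
    | rel x y h => exact Relation.EqvGen.rel _ _ h
    | refl x => exact Relation.EqvGen.refl _
    | symm x y _ ih => exact ih.symm
    | trans x y z _ _ ih1 ih2 => exact ih1.trans _ _ _ ih2
  intro x y
  refine (Relation.EqvGen.rel _ _ (hle x)).trans _ _ _ ?_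
  refine (key ⟨f x, hfS x⟩ ⟨f y, hfS y⟩ (h2 _ _)).trans _ _ _ ?_
  exact (Relation.EqvGen.rel _ _ (hle y)).symm

theorem sc_of_closure {P : Type} [PartialOrder P] (S : Set P) (f : P → P)
    (hfS : ∀ x, f x ∈ S) (hle : ∀ x, x ≤ f x) (hmin : ∀ x, ∀ s ∈ S, x ≤ s → f x ≤ s)
    (h : SC {x : P // x ∈ S}) : SC P := by
  intro H _ φ hφ
  obtain ⟨g, hg⟩ := h H (fun x y => φ x.1 y.1) (fun x y z hxy hyz => hφ _ _ _ hxy hyz)
  refine ⟨fun x => g ⟨f x, hfS x⟩ * (φ x (f x))⁻¹, ?_⟩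
  intro x y hxy
  have h1 : f x ≤ f y := hmin x (f y) (hfS y) (hxy.trans (hle y))
  have h2 := hg ⟨f x, hfS x⟩ ⟨f y, hfS y⟩ h1
  simp only at h2
  have h3 := hφ x (f x) (f y) (hle x) h1
  have h4 := hφ x y (f y) hxy (hle y)
  have h5 : φ x y = φ x (f y) * (φ y (f y))⁻¹ := by rw [h4]; group
  simp only
  rw [h5, h3, h2]
  group

theorem hzero_of_closure {P : Type} [PartialOrder P] (S : Set P) (f : P → P)
    (hfS : ∀ x, f x ∈ S) (hle : ∀ x, x ≤ f x) (hmin : ∀ x, ∀ s ∈ S, x ≤ s → f x ≤ s) (k : ℕ)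
    (h : HZero {x : P // x ∈ S} k) : HZero P k := by
  cases k with
  | zero => trivial
  | succ k =>
    exact CA.hzero_clos S f hfS hle (fun x y hxy => hmin x (f y) (hfS y) (hxy.trans (hle y))) k h

theorem conn_dual {P : Type} [PartialOrder P] (h : Conn Pᵒᵈ) : Conn P := by
  obtain ⟨⟨x0⟩, h2⟩ := h
  refine ⟨⟨OrderDual.ofDual x0⟩, ?_⟩
  have key : ∀ x y : Pᵒᵈ, Relation.EqvGen (fun a b => a ≤ b) x y →
      Relation.EqvGen (fun a b : P => a ≤ b) (OrderDual.ofDual x) (OrderDual.ofDual y) := by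
    intro x y hxy
    induction hxy with
    | rel x y h => exact (Relation.EqvGen.rel (OrderDual.ofDual y) (OrderDual.ofDual x) h).symm
    | refl x => exact Relation.EqvGen.refl _
    | symm x y _ ih => exact ih.symm
    | trans x y z _ _ ih1 ih2 => exact ih1.trans _ _ _ ih2
  intro x y
  exact key (OrderDual.toDual x) (OrderDual.toDual y) (h2 _ _)

theorem sc_dual {P : Type} [PartialOrder P] (h : SC Pᵒᵈ) : SC P := by
  intro H _ φ hφ
  obtain ⟨f, hf⟩ := h H (fun x y => (φ (OrderDual.ofDual y) (OrderDual.ofDual x))⁻¹) (by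
    intro x y z hxy hyz
    have h1 := hφ (OrderDual.ofDual z) (OrderDual.ofDual y) (OrderDual.ofDual x) hyz hxy
    rw [h1, mul_inv_rev])
  refine ⟨fun x => f (OrderDual.toDual x), ?_⟩
  intro x y hxy
  have h2 : (φ x y)⁻¹ = (f (OrderDual.toDual y))⁻¹ * f (OrderDual.toDual x) :=
    hf (OrderDual.toDual y) (OrderDual.toDual x) hxy
  rw [← inv_inv (φ x y), h2]
  group

theorem hzero_dual {P : Type} [PartialOrder P] (k : ℕ) (h : HZero Pᵒᵈ k) : HZero P k := by
  cases k with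
  | zero => trivial
  | succ k => exact CA.hzero_od k h

/-- removing a family of pairwise incomparable maximal elements with connected and simply
connected lower sets does not change connectivity properties -/
theorem conn_of_remove {P : Type} [PartialOrder P] (Z : Set P)
    (hmax : ∀ z ∈ Z, ∀ x, z ≤ x → x = z) (hc : ∀ z ∈ Z, Conn {x : P // x < z})
    (h : Conn P) : Conn {x : P // x ∉ Z} := by
  have hlt : ∀ z ∈ Z, ∀ x, x < z → x ∉ Z := by
    intro z hz x hxz hx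
    exact hxz.ne (hmax x hx z hxz.le).symm
  have hex : ∀ x : P, ∃ y, y ∉ Z ∧ y ≤ x := by
    intro x
    by_cases hx : x ∈ Z
    · obtain ⟨⟨y⟩, -⟩ := hc x hx
      exact ⟨y.1, hlt x hx y.1 y.2, y.2.le⟩
    · exact ⟨x, hx, le_rfl⟩
  have hloc : ∀ (x : P) (a b : {x : P // x ∉ Z}), a.1 ≤ x → b.1 ≤ x →
      Relation.EqvGen (fun a b => a ≤ b) a b := by
    intro x a b ha hb
    by_cases hx : x ∈ Z
    · obtain ⟨-, h2⟩ := hc x hx
      have key : ∀ u v : {y : P // y < x}, Relation.EqvGen (fun a b => a ≤ b) u v →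
          Relation.EqvGen (fun a b : {x : P // x ∉ Z} => a ≤ b) ⟨u.1, hlt x hx u.1 u.2⟩
            ⟨v.1, hlt x hx v.1 v.2⟩ := by
        intro u v huv
        induction huv with
        | rel x y h => exact Relation.EqvGen.rel _ _ h
        | refl x => exact Relation.EqvGen.refl _
        | symm x y _ ih => exact ih.symm
        | trans x y z _ _ ih1 ih2 => exact ih1.trans _ _ _ ih2
      have ha' : a.1 < x := lt_of_le_of_ne ha (fun h => a.2 (h ▸ hx))
      have hb' : b.1 < x := lt_of_le_of_ne hb (fun h => b.2 (h ▸ hx))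
      exact key ⟨a.1, ha'⟩ ⟨b.1, hb'⟩ (h2 _ _)
    · exact (Relation.EqvGen.rel a ⟨x, hx⟩ ha).trans _ _ _ (Relation.EqvGen.rel b ⟨x, hx⟩ hb).symm
  have hmain : ∀ x y : P, Relation.EqvGen (fun a b => a ≤ b) x y →
      ∀ a b : {x : P // x ∉ Z}, a.1 ≤ x → b.1 ≤ y → Relation.EqvGen (fun a b => a ≤ b) a b := by
    intro x y hxy
    induction hxy with
    | rel x y h =>
      intro a b ha hb
      exact hloc y a b (ha.trans h) hb
    | refl x =>
      intro a b ha hb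
      exact hloc x a b ha hb
    | symm x y _ ih =>
      intro a b ha hb
      exact (ih b a hb ha).symm
    | trans x y z _ _ ih1 ih2 =>
      intro a b ha hb
      obtain ⟨c, hc, hcy⟩ := hex y
      exact (ih1 a ⟨c, hc⟩ ha hcy).trans _ _ _ (ih2 ⟨c, hc⟩ b hcy hb)
  obtain ⟨⟨x0⟩, h2⟩ := h
  obtain ⟨y0, hy0, -⟩ := hex x0
  exact ⟨⟨⟨y0, hy0⟩⟩, fun a b => hmain a.1 b.1 (h2 _ _) a b le_rfl le_rfl⟩

theorem sc_of_remove {P : Type} [PartialOrder P] (Z : Set P)
    (hmax : ∀ z ∈ Z, ∀ x, z ≤ x → x = z) (hs : ∀ z ∈ Z, SC {x : P // x < z})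
    (h : SC P) : SC {x : P // x ∉ Z} := by
  intro H _ φ hφ
  have hlt : ∀ z ∈ Z, ∀ x, x < z → x ∉ Z := by
    intro z hz x hxz hx
    exact hxz.ne (hmax x hx z hxz.le).symm
  -- extension of `φ` to all pairs
  set ψ : P → P → H := fun x y => if hx : x ∉ Z then (if hy : y ∉ Z then φ ⟨x, hx⟩ ⟨y, hy⟩ else 1)
    else 1 with hψ
  have hψ1 : ∀ x y (hx : x ∉ Z) (hy : y ∉ Z), ψ x y = φ ⟨x, hx⟩ ⟨y, hy⟩ := by
    intro x y hx hy
    simp only [hψ]
    rw [dif_pos hx, dif_pos hy]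
  have hψc : ∀ x y z : P, x ∉ Z → y ∉ Z → z ∉ Z → x ≤ y → y ≤ z → ψ x z = ψ x y * ψ y z := by
    intro x y z hx hy hz hxy hyz
    rw [hψ1 x z hx hz, hψ1 x y hx hy, hψ1 y z hy hz]
    exact hφ _ _ _ hxy hyz
  have hg : ∀ z : P, ∃ g : P → H, z ∈ Z → ∀ x y : P, x ≤ y → y < z → ψ x y = (g x)⁻¹ * g y := by
    intro z
    by_cases hz : z ∈ Z
    · obtain ⟨g, hg⟩ := hs z hz H (fun x y => ψ x.1 y.1) (by
        intro x y w hxy hyw
        exact hψc _ _ _ (hlt z hz _ x.2) (hlt z hz _ y.2) (hlt z hz _ w.2) hxy hyw)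
      refine ⟨fun x => if hx : x < z then g ⟨x, hx⟩ else 1, fun _ x y hxy hyz => ?_⟩
      simp only
      rw [dif_pos (lt_of_le_of_lt hxy hyz), dif_pos hyz]
      exact hg ⟨x, _⟩ ⟨y, _⟩ hxy
    · exact ⟨fun _ => 1, fun h => absurd h hz⟩
  choose g hg using hg
  set θ : P → P → H := fun x y => if y ∈ Z then (if x = y then 1 else (g y x)⁻¹) else ψ x y with hθ
  obtain ⟨F, hF⟩ := h H θ (by
    intro x y z hxy hyz
    simp only [hθ]
    by_cases hz : z ∈ Z
    · rw [if_pos hz, if_pos hz]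
      by_cases hyz' : y = z
      · subst hyz'
        rw [if_pos hz, if_pos rfl, mul_one]
      · have hyz2 : y < z := lt_of_le_of_ne hyz hyz'
        have hy := hlt z hz y hyz2
        have hxz : x < z := lt_of_le_of_lt hxy hyz2
        rw [if_neg hy, if_neg hyz', if_neg hxz.ne, hg z hz x y hxy hyz2]
        group
    · rw [if_neg hz, if_neg hz]
      have hy : y ∉ Z := by
        intro hy
        exact hz (hmax y hy z hyz ▸ hy)
      have hx : x ∉ Z := by
        intro hx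
        exact hy (hmax x hx y hxy ▸ hx)
      rw [if_neg hy]
      exact hψc x y z hx hy hz hxy hyz)
  refine ⟨fun x => F x.1, fun x y hxy => ?_⟩
  have h1 := hF x.1 y.1 hxy
  simp only [hθ] at h1
  rw [if_neg y.2, hψ1 x.1 y.1 x.2 y.2] at h1
  exact h1

/-! ### gluing -/

/-- connectedness of a subset -/
def ConnS {P : Type} [PartialOrder P] (A : Set P) : Prop :=
  A.Nonempty ∧ ∀ x ∈ A, ∀ y ∈ A, Relation.EqvGen (fun a b => a ∈ A ∧ b ∈ A ∧ a ≤ b) x y

/-- simple connectedness of a subset -/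
def SCS {P : Type} [PartialOrder P] (A : Set P) : Prop :=
  ∀ (H : Type) [Group H] (φ : P → P → H),
    (∀ x y z : P, x ∈ A → y ∈ A → z ∈ A → x ≤ y → y ≤ z → φ x z = φ x y * φ y z) →
    ∃ f : P → H, ∀ x y : P, x ∈ A → y ∈ A → x ≤ y → φ x y = (f x)⁻¹ * f y

theorem connS_iff {P : Type} [PartialOrder P] (A : Set P) : Conn {x : P // x ∈ A} ↔ ConnS A := by
  constructor
  · rintro ⟨⟨x0⟩, h2⟩
    refine ⟨⟨x0.1, x0.2⟩, fun x hx y hy => ?_⟩
    have key : ∀ x y : {x : P // x ∈ A}, Relation.EqvGen (fun a b => a ≤ b) x y →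
        Relation.EqvGen (fun a b : P => a ∈ A ∧ b ∈ A ∧ a ≤ b) x.1 y.1 := by
      intro x y hxy
      induction hxy with
      | rel x y h => exact Relation.EqvGen.rel _ _ ⟨x.2, y.2, h⟩
      | refl x => exact Relation.EqvGen.refl _
      | symm x y _ ih => exact ih.symm
      | trans x y z _ _ ih1 ih2 => exact ih1.trans _ _ _ ih2
    exact key ⟨x, hx⟩ ⟨y, hy⟩ (h2 _ _)
  · rintro ⟨⟨x0, hx0⟩, h2⟩
    refine ⟨⟨⟨x0, hx0⟩⟩, fun x y => ?_⟩
    have key : ∀ x y : P, Relation.EqvGen (fun a b : P => a ∈ A ∧ b ∈ A ∧ a ≤ b) x y →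
        x = y ∨ ∃ (hx : x ∈ A) (hy : y ∈ A),
          Relation.EqvGen (fun a b : {x : P // x ∈ A} => a ≤ b) ⟨x, hx⟩ ⟨y, hy⟩ := by
      intro x y hxy
      induction hxy with
      | rel x y h => exact Or.inr ⟨h.1, h.2.1, Relation.EqvGen.rel _ _ h.2.2⟩
      | refl x => exact Or.inl rfl
      | symm x y _ ih =>
        rcases ih with ih | ⟨hx, hy, ih⟩
        · exact Or.inl ih.symm
        · exact Or.inr ⟨hy, hx, ih.symm⟩
      | trans x y z _ _ ih1 ih2 =>
        rcases ih1 with ih1 | ⟨hx, hy, ih1⟩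
        · subst ih1; exact ih2
        · rcases ih2 with ih2 | ⟨hy', hz, ih2⟩
          · subst ih2; exact Or.inr ⟨hx, hy, ih1⟩
          · exact Or.inr ⟨hx, hz, ih1.trans _ _ _ ih2⟩
    rcases key x.1 y.1 (h2 x.1 x.2 y.1 y.2) with h | ⟨hx, hy, h⟩
    · rw [Subtype.ext h]
      exact Relation.EqvGen.refl _
    · exact h

theorem scS_iff {P : Type} [PartialOrder P] (A : Set P) : SC {x : P // x ∈ A} ↔ SCS A := by
  constructor
  · intro h H _ φ hφ
    obtain ⟨f, hf⟩ := h H (fun x y => φ x.1 y.1) (fun x y z hxy hyz =>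
      hφ _ _ _ x.2 y.2 z.2 hxy hyz)
    refine ⟨fun x => if hx : x ∈ A then f ⟨x, hx⟩ else 1, fun x y hx hy hxy => ?_⟩
    simp only
    rw [dif_pos hx, dif_pos hy]
    exact hf ⟨x, hx⟩ ⟨y, hy⟩ hxy
  · intro h H _ φ hφ
    set ψ : P → P → H := fun x y => if hx : x ∈ A then (if hy : y ∈ A then φ ⟨x, hx⟩ ⟨y, hy⟩
      else 1) else 1 with hψ
    have hψ1 : ∀ x y (hx : x ∈ A) (hy : y ∈ A), ψ x y = φ ⟨x, hx⟩ ⟨y, hy⟩ := by
      intro x y hx hy
      simp only [hψ]
      rw [dif_pos hx, dif_pos hy]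
    obtain ⟨f, hf⟩ := h H ψ (by
      intro x y z hx hy hz hxy hyz
      rw [hψ1 x z hx hz, hψ1 x y hx hy, hψ1 y z hy hz]
      exact hφ _ _ _ hxy hyz)
    refine ⟨fun x => f x.1, fun x y hxy => ?_⟩
    rw [← hf x.1 y.1 x.2 y.2 hxy, hψ1 x.1 y.1 x.2 y.2]

theorem connS_mono {P : Type} [PartialOrder P] {A B : Set P} (hAB : A ⊆ B) {x y : P}
    (h : Relation.EqvGen (fun a b => a ∈ A ∧ b ∈ A ∧ a ≤ b) x y) :
    Relation.EqvGen (fun a b => a ∈ B ∧ b ∈ B ∧ a ≤ b) x y := by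
  induction h with
  | rel x y h => exact Relation.EqvGen.rel _ _ ⟨hAB h.1, hAB h.2.1, h.2.2⟩
  | refl x => exact Relation.EqvGen.refl _
  | symm x y _ ih => exact ih.symm
  | trans x y z _ _ ih1 ih2 => exact ih1.trans _ _ _ ih2

theorem connS_union {P : Type} [PartialOrder P] {A B : Set P} (hA : ConnS A) (hB : ConnS B)
    (hAB : (A ∩ B).Nonempty) : ConnS (A ∪ B) := by
  obtain ⟨c, hcA, hcB⟩ := hAB
  have h1 : ∀ x ∈ A ∪ B, Relation.EqvGen (fun a b => a ∈ A ∪ B ∧ b ∈ A ∪ B ∧ a ≤ b) x c := by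
    rintro x (hx | hx)
    · exact connS_mono Set.subset_union_left (hA.2 x hx c hcA)
    · exact connS_mono Set.subset_union_right (hB.2 x hx c hcB)
  refine ⟨⟨c, Or.inl hcA⟩, fun x hx y hy => (h1 x hx).trans _ _ _ (h1 y hy).symm⟩

theorem scS_union {P : Type} [PartialOrder P] {A B : Set P} (hA : SCS A) (hB : SCS B)
    (lA : ∀ x ∈ A, ∀ y, y ≤ x → y ∈ A) (lB : ∀ x ∈ B, ∀ y, y ≤ x → y ∈ B)
    (hAB : ConnS (A ∩ B)) : SCS (A ∪ B) := by
  intro H _ φ hφ
  obtain ⟨f, hf⟩ := hA H φ (fun x y z hx hy hz => hφ x y z (Or.inl hx) (Or.inl hy) (Or.inl hz))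
  obtain ⟨g, hg⟩ := hB H φ (fun x y z hx hy hz => hφ x y z (Or.inr hx) (Or.inr hy) (Or.inr hz))
  obtain ⟨c, hcA, hcB⟩ := hAB.1
  have h1 : ∀ x y, Relation.EqvGen (fun a b => a ∈ A ∩ B ∧ b ∈ A ∩ B ∧ a ≤ b) x y →
      g x * (f x)⁻¹ = g y * (f y)⁻¹ := by
    intro x y hxy
    induction hxy with
    | rel x y h =>
      have e1 := hf x y h.1.1 h.2.1.1 h.2.2
      have e2 := hg x y h.1.2 h.2.1.2 h.2.2
      rw [e1] at e2
      have e3 : g y = g x * ((f x)⁻¹ * f y) := by rw [e2]; group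
      rw [e3]; group
    | refl x => rfl
    | symm x y _ ih => exact ih.symm
    | trans x y z _ _ ih1 ih2 => exact ih1.trans ih2
  set k : H := g c * (f c)⁻¹ with hk
  refine ⟨fun x => if x ∈ A then k * f x else g x, fun x y hx hy hxy => ?_⟩
  have h2 : ∀ x ∈ A, x ∈ B → k * f x = g x := by
    intro x hxA hxB
    have := h1 x c (hAB.2 x ⟨hxA, hxB⟩ c ⟨hcA, hcB⟩)
    rw [hk, ← this]; group
  simp only
  by_cases hyA : y ∈ A
  · have hxA := lA y hyA x hxy
    rw [if_pos hxA, if_pos hyA, hf x y hxA hyA hxy]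
    group
  · have hyB : y ∈ B := hy.resolve_left hyA
    have hxB := lB y hyB x hxy
    rw [if_neg hyA]
    by_cases hxA : x ∈ A
    · rw [if_pos hxA, h2 x hxA hxB]
      exact hg x y hxB hyB hxy
    · rw [if_neg hxA]
      exact hg x y hxB hyB hxy

/-- gluing: if `P` is covered by finitely many lower sets `L i` (`i < n`) which are simply
connected, and each `L i ∩ (L 0 ∪ … ∪ L (i-1))`, `i ≥ 1`, is connected, then `P` is connected
and simply connected -/
theorem sc_of_cover {P : Type} [PartialOrder P] (n : ℕ) (L : ℕ → Set P)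
    (hn : 1 ≤ n)
    (hlow : ∀ i, ∀ x ∈ L i, ∀ y, y ≤ x → y ∈ L i) (hcov : ∀ x, ∃ i < n, x ∈ L i)
    (hconn : ∀ i < n, Conn {x : P // x ∈ L i}) (hsc : ∀ i < n, SC {x : P // x ∈ L i})
    (hint : ∀ i < n, 1 ≤ i → Conn {x : P // x ∈ L i ∧ ∃ j < i, x ∈ L j}) :
    Conn P ∧ SC P := by
  have key : ∀ m, 1 ≤ m → m ≤ n → ConnS {x : P | ∃ j < m, x ∈ L j} ∧
      SCS {x : P | ∃ j < m, x ∈ L j} := by
    intro m hm
    induction m, hm using Nat.le_induction with
    | base =>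
      intro _
      have e : {x : P | ∃ j < 1, x ∈ L j} = L 0 := by
        ext x
        constructor
        · rintro ⟨j, hj, hx⟩
          have : j = 0 := by omega
          rwa [this] at hx
        · intro hx
          exact ⟨0, by omega, hx⟩
      rw [e]
      exact ⟨(connS_iff _).1 (hconn 0 (by omega)), (scS_iff _).1 (hsc 0 (by omega))⟩
    | succ m hm ih =>
      intro hmn
      obtain ⟨h1, h2⟩ := ih (by omega)
      have e : {x : P | ∃ j < m + 1, x ∈ L j} = L m ∪ {x : P | ∃ j < m, x ∈ L j} := by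
        ext x
        constructor
        · rintro ⟨j, hj, hx⟩
          rcases Nat.lt_succ_iff_lt_or_eq.1 hj with h | h
          · exact Or.inr ⟨j, h, hx⟩
          · exact Or.inl (h ▸ hx)
        · rintro (hx | ⟨j, hj, hx⟩)
          · exact ⟨m, by omega, hx⟩
          · exact ⟨j, by omega, hx⟩
      have hi : ConnS (L m ∩ {x : P | ∃ j < m, x ∈ L j}) :=
        (connS_iff _).1 (hint m (by omega) hm)
      rw [e]
      refine ⟨connS_union ((connS_iff _).1 (hconn m (by omega))) h1 hi.1, ?_⟩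
      refine scS_union ((scS_iff _).1 (hsc m (by omega))) h2 (hlow m) ?_ hi
      rintro x ⟨j, hj, hx⟩ y hy
      exact ⟨j, hj, hlow j x hx y hy⟩
  obtain ⟨h1, h2⟩ := key n hn le_rfl
  have e : {x : P | ∃ j < n, x ∈ L j} = Set.univ := by
    ext x
    exact ⟨fun _ => trivial, fun _ => hcov x⟩
  rw [e] at h1 h2
  refine ⟨⟨⟨h1.1.some⟩, fun x y => ?_⟩, ?_⟩
  · have h3 := h1.2 x trivial y trivial
    clear h1 h2 hint hsc hconn hcov hlow
    induction h3 with
    | rel x y h => exact Relation.EqvGen.rel _ _ h.2.2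
    | refl x => exact Relation.EqvGen.refl _
    | symm x y _ ih => exact ih.symm
    | trans x y z _ _ ih1 ih2 => exact ih1.trans _ _ _ ih2
  · intro H _ φ hφ
    obtain ⟨f, hf⟩ := h2 H φ (fun x y z _ _ _ => hφ x y z)
    exact ⟨f, fun x y => hf x y trivial trivial⟩

/-- a poset with a greatest element is connected and simply connected -/
theorem sc_of_greatest {P : Type} [PartialOrder P] (m : P) (hm : ∀ x, x ≤ m) :
    Conn P ∧ SC P := by
  refine ⟨⟨⟨m⟩, fun x y => ?_⟩, ?_⟩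
  · exact (Relation.EqvGen.rel _ _ (hm x)).trans _ _ _ (Relation.EqvGen.rel _ _ (hm y)).symm
  · intro H _ φ hφ
    refine ⟨fun x => (φ x m)⁻¹, fun x y hxy => ?_⟩
    simp only
    rw [hφ x y m hxy (hm y)]
    group

end Pool.Agent.Helper635.PD4
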