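import Pool.Agent.Helper635_PD4.Defs

/-!
# Module S1, auxiliary file: homology of order complexes by finite sets and lists
-/

set_option linter.unusedSectionVars false

open scoped Classical

namespace Pool.Agent.Helper635.PD4

namespace CA

variable {P : Type} [PartialOrder P]

/-! ### chains as functions on finite sets -/

/-- the boundary of a finite set -/
noncomputable def dFs (A : Finset P) : Finset P →₀ ℤ :=
  ∑ a ∈ A, Finsupp.single (A.erase a) ((-1 : ℤ) ^ pos A a)

/-- the boundary operator -/
noncomputable def dF : (Finset P →₀ ℤ) →ₗ[ℤ] (Finset P →₀ ℤ) := Finsupp.linearCombination ℤ dFs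

theorem dF_single (A : Finset P) (c : ℤ) : dF (Finsupp.single A c) = c • dFs A := by
  unfold dF
  rw [Finsupp.linearCombination_single]

/-- forget the proof that a simplex is a simplex -/
noncomputable def io (P : Type) [PartialOrder P] (i : ℕ) :
    (Simp P i →₀ ℤ) →+ (Finset P →₀ ℤ) :=
  Finsupp.mapDomain.addMonoidHom Simp.s

theorem io_apply (i : ℕ) (z : Simp P i →₀ ℤ) : io P i z = Finsupp.mapDomain Simp.s z := rfl

theorem s_inj (i : ℕ) : Function.Injective (Simp.s : Simp P i → Finset P) :=
  fun _ _ h => Simp.ext h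

theorem io_inj (i : ℕ) : Function.Injective (io P i) :=
  Finsupp.mapDomain_injective (s_inj i)

theorem io_single (i : ℕ) (A : Simp P i) (c : ℤ) :
    io P i (Finsupp.single A c) = Finsupp.single A.s c := by
  rw [io_apply, Finsupp.mapDomain_single]

theorem bd_single {i : ℕ} (A : Simp P (i + 1)) (c : ℤ) :
    bd (Finsupp.single A c) =
      ∑ a : {a // a ∈ A.s}, (-1 : ℤ) ^ pos A.s a.1 • Finsupp.single (face A a) c := by
  unfold bd
  rw [Finsupp.liftAddHom_apply_single]
  rw [AddMonoidHom.finsetSum_apply]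
  refine Finset.sum_congr rfl fun a _ => ?_
  rfl

theorem io_bd {i : ℕ} (z : Simp P (i + 1) →₀ ℤ) : io P i (bd z) = dF (io P (i + 1) z) := by
  induction z using Finsupp.induction_linear with
  | zero => simp
  | add x y hx hy => rw [map_add, map_add, hx, hy, map_add, map_add]
  | single A c =>
    rw [bd_single, io_single, dF_single, map_sum]
    unfold dFs
    rw [Finset.smul_sum, ← Finset.sum_coe_sort A.s]
    refine Finset.sum_congr rfl fun a _ => ?_
    rw [map_zsmul, io_single]
    show _ • Finsupp.single (A.s.erase a.1) c = _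
    rw [Finsupp.smul_single, Finsupp.smul_single, smul_eq_mul, smul_eq_mul, mul_comm]

/-- the chains with `m` elements -/
def Ch (P : Type) [PartialOrder P] (m : ℕ) : Set (Finset P) :=
  {A | IsChain (· ≤ ·) (A : Set P) ∧ A.card = m}

theorem io_mem {i : ℕ} (z : Simp P i →₀ ℤ) : io P i z ∈ Finsupp.supported ℤ ℤ (Ch P (i + 1)) := by
  rw [Finsupp.mem_supported]
  intro A hA
  have h1 := Finsupp.mapDomain_support (f := (Simp.s : Simp P i → Finset P)) (s := z) hA
  obtain ⟨B, -, rfl⟩ := Finset.mem_image.1 h1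
  exact ⟨B.chain, B.card⟩

theorem exists_io {i : ℕ} (w : Finset P →₀ ℤ) (hw : w ∈ Finsupp.supported ℤ ℤ (Ch P (i + 1))) :
    ∃ z : Simp P i →₀ ℤ, io P i z = w := by
  have h : (w.support : Set (Finset P)) ⊆ Set.range (Simp.s : Simp P i → Finset P) := by
    intro A hA
    obtain ⟨h1, h2⟩ := hw hA
    exact ⟨⟨A, h1, h2⟩, rfl⟩
  exact ⟨Finsupp.comapDomain Simp.s w (s_inj i).injOn,
    Finsupp.mapDomain_comapDomain Simp.s (s_inj i) w h⟩

/-- reformulation of `HZero` -/
theorem hzero_iff (k : ℕ) : HZero P (k + 1) ↔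
    ∀ w ∈ Finsupp.supported ℤ ℤ (Ch P (k + 2)), dF w = 0 →
      ∃ y ∈ Finsupp.supported ℤ ℤ (Ch P (k + 3)), w = dF y := by
  constructor
  · intro h w hw hd
    obtain ⟨z, rfl⟩ := exists_io (i := k + 1) w hw
    rw [← io_bd] at hd
    have h2 : bd z = 0 := io_inj _ (by rw [hd, map_zero])
    obtain ⟨y, hy⟩ := h z h2
    refine ⟨io P (k + 2) y, io_mem y, ?_⟩
    rw [← io_bd, hy]
  · intro h z hz
    obtain ⟨y, hy, hy2⟩ := h (io P (k + 1) z) (io_mem z) (by rw [← io_bd, hz, map_zero])
    obtain ⟨y', rfl⟩ := exists_io (i := k + 2) y hy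
    refine ⟨y', io_inj _ ?_⟩
    rw [hy2, io_bd]

/-! ### subsets -/

section sub
variable (S : Set P)

/-- the embedding of finite subsets -/
def em (A : Finset {x : P // x ∈ S}) : Finset P := A.map ⟨Subtype.val, Subtype.val_injective⟩

theorem em_inj : Function.Injective (em S) := Finset.map_injective _

/-- the induced map on chains -/
noncomputable def jo : (Finset {x : P // x ∈ S} →₀ ℤ) →ₗ[ℤ] (Finset P →₀ ℤ) :=
  Finsupp.lmapDomain ℤ ℤ (em S)

theorem jo_single (A : Finset {x : P // x ∈ S}) (c : ℤ) :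
    jo S (Finsupp.single A c) = Finsupp.single (em S A) c := by
  unfold jo
  rw [Finsupp.lmapDomain_apply, Finsupp.mapDomain_single]

theorem jo_inj : Function.Injective (jo S) := Finsupp.mapDomain_injective (em_inj S)

theorem pos_em (A : Finset {x : P // x ∈ S}) (a : {x : P // x ∈ S}) :
    pos (em S A) a.1 = pos A a := by
  unfold pos em
  rw [Finset.filter_map, Finset.card_map]
  rfl

theorem em_erase {i1 : DecidableEq {x : P // x ∈ S}} {i2 : DecidableEq P}
    (A : Finset {x : P // x ∈ S}) (a : {x : P // x ∈ S}) :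
    em S (@Finset.erase _ i1 A a) = @Finset.erase _ i2 (em S A) a.1 := by
  unfold em
  ext x
  simp only [Finset.mem_map, Finset.mem_erase, Function.Embedding.coeFn_mk]
  constructor
  · rintro ⟨y, ⟨h1, h2⟩, rfl⟩
    exact ⟨fun h => h1 (Subtype.ext h), y, h2, rfl⟩
  · rintro ⟨h1, y, h2, rfl⟩
    exact ⟨y, ⟨fun h => h1 (by rw [h]), h2⟩, rfl⟩

theorem jo_dF (w : Finset {x : P // x ∈ S} →₀ ℤ) : jo S (dF w) = dF (jo S w) := by
  induction w using Finsupp.induction_linear with
  | zero => simp
  | add x y hx hy => rw [map_add, map_add, hx, hy, map_add, map_add]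
  | single A c =>
    rw [dF_single, jo_single, dF_single, map_smul]
    congr 1
    unfold dFs
    rw [map_sum]
    have : em S A = A.map ⟨Subtype.val, Subtype.val_injective⟩ := rfl
    conv_rhs => rw [this, Finset.sum_map]
    refine Finset.sum_congr rfl fun a _ => ?_
    rw [jo_single, ← pos_em]
    congr 1
    exact em_erase S A a

/-- chains inside `S` -/
def ChS (m : ℕ) : Set (Finset P) := {A | A ∈ Ch P m ∧ ∀ x ∈ A, x ∈ S}

theorem em_mem_iff (m : ℕ) (A : Finset {x : P // x ∈ S}) :
    em S A ∈ ChS S m ↔ A ∈ Ch {x : P // x ∈ S} m := by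
  unfold ChS Ch em
  simp only [Set.mem_ofPred_eq, Finset.card_map]
  constructor
  · rintro ⟨⟨h1, h2⟩, -⟩
    refine ⟨?_, h2⟩
    intro x hx y hy hxy
    have hx' : x.1 ∈ ((A.map ⟨Subtype.val, Subtype.val_injective⟩ : Finset P) : Set P) := by
      simpa using hx
    have hy' : y.1 ∈ ((A.map ⟨Subtype.val, Subtype.val_injective⟩ : Finset P) : Set P) := by
      simpa using hy
    exact h1 hx' hy' (fun h => hxy (Subtype.ext h))
  · rintro ⟨h1, h2⟩
    refine ⟨⟨?_, h2⟩, ?_⟩
    · intro x hx y hy hxy
      obtain ⟨x', hx', rfl⟩ := Finset.mem_map.1 (Finset.mem_coe.1 hx)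
      obtain ⟨y', hy', rfl⟩ := Finset.mem_map.1 (Finset.mem_coe.1 hy)
      exact h1 hx' hy' (fun h => hxy (by rw [h]))
    · intro x hx
      obtain ⟨x', hx', rfl⟩ := Finset.mem_map.1 hx
      exact x'.2

theorem jo_mem {m : ℕ} {w : Finset {x : P // x ∈ S} →₀ ℤ}
    (hw : w ∈ Finsupp.supported ℤ ℤ (Ch {x : P // x ∈ S} m)) :
    jo S w ∈ Finsupp.supported ℤ ℤ (ChS S m) := by
  rw [Finsupp.mem_supported]
  intro A hA
  have h1 := Finsupp.mapDomain_support (f := em S) (s := w) hA
  obtain ⟨B, hB, rfl⟩ := Finset.mem_image.1 h1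
  exact (em_mem_iff S m B).2 (hw hB)

theorem exists_jo {m : ℕ} {w : Finset P →₀ ℤ} (hw : w ∈ Finsupp.supported ℤ ℤ (ChS S m)) :
    ∃ z ∈ Finsupp.supported ℤ ℤ (Ch {x : P // x ∈ S} m), jo S z = w := by
  have hr : ∀ A ∈ ChS S m, ∃ B, em S B = A := by
    intro A hA
    refine ⟨A.subtype (fun x => x ∈ S), ?_⟩
    unfold em
    ext x
    simp only [Finset.mem_map, Finset.mem_subtype, Function.Embedding.coeFn_mk]
    constructor
    · rintro ⟨y, hy, rfl⟩
      exact hy
    · intro hx
      exact ⟨⟨x, hA.2 x hx⟩, hx, rfl⟩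
  have h0 : (w.support : Set (Finset P)) ⊆ Set.range (em S) := by
    intro A hA
    obtain ⟨B, hB⟩ := hr A (hw hA)
    exact ⟨B, hB⟩
  have h1 : jo S (Finsupp.comapDomain (em S) w (em_inj S).injOn) = w :=
    Finsupp.mapDomain_comapDomain (em S) (em_inj S) w h0
  refine ⟨_, ?_, h1⟩
  rw [Finsupp.mem_supported]
  intro A hA
  rw [Finset.mem_coe, Finsupp.mem_support_iff, Finsupp.comapDomain_apply] at hA
  rw [← em_mem_iff S m A]
  exact hw (Finsupp.mem_support_iff.2 hA)

/-- reformulation of `HZero` for a subset -/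
theorem hzero_sub (k : ℕ) (h : HZero {x : P // x ∈ S} (k + 1)) :
    ∀ w ∈ Finsupp.supported ℤ ℤ (ChS S (k + 2)), dF w = 0 →
      ∃ y ∈ Finsupp.supported ℤ ℤ (ChS S (k + 3)), w = dF y := by
  rw [hzero_iff] at h
  intro w hw hd
  obtain ⟨z, hz, rfl⟩ := exists_jo S hw
  rw [← jo_dF] at hd
  obtain ⟨y, hy, hy2⟩ := h z hz (jo_inj S (by rw [hd, map_zero]))
  exact ⟨jo S y, jo_mem S hy, by rw [hy2, jo_dF]⟩

end sub

/-! ### lists -/

/-- adding a first element -/
noncomputable def cons (a : P) : (List P →₀ ℤ) →ₗ[ℤ] (List P →₀ ℤ) :=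
  Finsupp.linearCombination ℤ (fun l => Finsupp.single (a :: l) 1)

theorem cons_single (a : P) (l : List P) (c : ℤ) :
    cons a (Finsupp.single l c) = Finsupp.single (a :: l) c := by
  unfold cons
  rw [Finsupp.linearCombination_single, Finsupp.smul_single, smul_eq_mul, mul_one]

/-- the boundary of a list -/
noncomputable def dLs : List P → (List P →₀ ℤ)
  | [] => 0
  | (a :: l) => Finsupp.single l 1 - cons a (dLs l)

/-- the boundary operator -/
noncomputable def dL : (List P →₀ ℤ) →ₗ[ℤ] (List P →₀ ℤ) := Finsupp.linearCombination ℤ dLs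

theorem dL_single (l : List P) (c : ℤ) : dL (Finsupp.single l c) = c • dLs l := by
  unfold dL
  rw [Finsupp.linearCombination_single]

theorem dL_cons (a : P) (w : List P →₀ ℤ) : dL (cons a w) = w - cons a (dL w) := by
  induction w using Finsupp.induction_linear with
  | zero => simp
  | add x y hx hy => rw [map_add, map_add, hx, hy, map_add, map_add]; abel
  | single l c =>
    rw [cons_single, dL_single, dL_single]
    show c • (Finsupp.single l 1 - cons a (dLs l)) = _
    rw [smul_sub, map_smul, Finsupp.smul_single, smul_eq_mul, mul_one]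

section prism
variable (f : P → P)

/-- the map induced by `f` -/
noncomputable def fL : (List P →₀ ℤ) →ₗ[ℤ] (List P →₀ ℤ) :=
  Finsupp.linearCombination ℤ (fun l => Finsupp.single (l.map f) 1)

theorem fL_single (l : List P) (c : ℤ) :
    fL f (Finsupp.single l c) = Finsupp.single (l.map f) c := by
  unfold fL
  rw [Finsupp.linearCombination_single, Finsupp.smul_single, smul_eq_mul, mul_one]

theorem fL_cons (a : P) (w : List P →₀ ℤ) : fL f (cons a w) = cons (f a) (fL f w) := by
  induction w using Finsupp.induction_linear with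
  | zero => simp
  | add x y hx hy => rw [map_add, map_add, hx, hy, map_add, map_add]
  | single l c => rw [cons_single, fL_single, fL_single, cons_single, List.map_cons]

theorem dLs_map (l : List P) : dLs (l.map f) = fL f (dLs l) := by
  induction l with
  | nil => simp [dLs]
  | cons a l ih =>
    rw [List.map_cons]
    show Finsupp.single (l.map f) 1 - cons (f a) (dLs (l.map f)) =
      fL f (Finsupp.single l 1 - cons a (dLs l))
    rw [ih, map_sub, fL_single, fL_cons]

theorem dL_fL (w : List P →₀ ℤ) : dL (fL f w) = fL f (dL w) := by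
  induction w using Finsupp.induction_linear with
  | zero => simp
  | add x y hx hy => rw [map_add, map_add, hx, hy, map_add, map_add]
  | single l c => rw [fL_single, dL_single, dL_single, map_smul, dLs_map]

/-- the prism over a list -/
noncomputable def Ts : List P → (List P →₀ ℤ)
  | [] => 0
  | (a :: l) => Finsupp.single (a :: f a :: l.map f) 1 - cons a (Ts l)

/-- the prism operator -/
noncomputable def T : (List P →₀ ℤ) →ₗ[ℤ] (List P →₀ ℤ) := Finsupp.linearCombination ℤ (Ts f)

theorem T_single (l : List P) (c : ℤ) : T f (Finsupp.single l c) = c • Ts f l := by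
  unfold T
  rw [Finsupp.linearCombination_single]

theorem T_cons (a : P) (w : List P →₀ ℤ) :
    T f (cons a w) = cons a (cons (f a) (fL f w)) - cons a (T f w) := by
  induction w using Finsupp.induction_linear with
  | zero => simp
  | add x y hx hy => simp only [map_add]; rw [hx, hy]; abel
  | single l c =>
    rw [cons_single, T_single, T_single, fL_single, cons_single, cons_single]
    show c • (Finsupp.single (a :: f a :: l.map f) 1 - cons a (Ts f l)) = _
    rw [smul_sub, map_smul, Finsupp.smul_single, smul_eq_mul, mul_one]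

theorem prism_s (l : List P) :
    dL (Ts f l) + T f (dLs l) = Finsupp.single (l.map f) 1 - Finsupp.single l 1 := by
  induction l with
  | nil => simp [Ts, dLs]
  | cons a l ih =>
    have e1 : Ts f (a :: l) = cons a (cons (f a) (Finsupp.single (l.map f) 1)) - cons a (Ts f l) := by
      rw [cons_single, cons_single]
      rfl
    have e2 : dLs (a :: l) = Finsupp.single l 1 - cons a (dLs l) := rfl
    have e3 : dL (Finsupp.single (l.map f) 1) = fL f (dLs l) := by
      rw [dL_single, one_smul, dLs_map]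
    have e4 : T f (Finsupp.single l 1) = Ts f l := by rw [T_single, one_smul]
    have e5 : Finsupp.single ((a :: l).map f) (1 : ℤ) = cons (f a) (Finsupp.single (l.map f) 1) := by
      rw [cons_single, List.map_cons]
    have e6 : Finsupp.single (a :: l) (1 : ℤ) = cons a (Finsupp.single l 1) := by
      rw [cons_single]
    have e7 : cons a (T f (dLs l)) = cons a (Finsupp.single (l.map f) 1 - Finsupp.single l 1) -
        cons a (dL (Ts f l)) := by
      rw [← ih, ← map_sub]
      congr 1
      abel
    rw [e1, e2, e5, e6, map_sub, map_sub, dL_cons, dL_cons, dL_cons, e3, T_cons, e4, e7]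
    simp only [map_sub]
    abel

theorem prism (w : List P →₀ ℤ) : dL (T f w) + T f (dL w) = fL f w - w := by
  induction w using Finsupp.induction_linear with
  | zero => simp
  | add x y hx hy =>
    simp only [map_add]
    have : fL f x + fL f y - (x + y) = (fL f x - x) + (fL f y - y) := by abel
    rw [this, ← hx, ← hy]; abel
  | single l c =>
    rw [T_single, dL_single, map_smul, map_smul, ← smul_add, prism_s, fL_single, smul_sub,
      Finsupp.smul_single, Finsupp.smul_single, smul_eq_mul, mul_one]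

end prism

/-! ### from lists to finite sets -/

/-- adding an element -/
noncomputable def ins (a : P) : (Finset P →₀ ℤ) →ₗ[ℤ] (Finset P →₀ ℤ) :=
  Finsupp.linearCombination ℤ (fun A => Finsupp.single (insert a A) 1)

theorem ins_single (a : P) (A : Finset P) (c : ℤ) :
    ins a (Finsupp.single A c) = Finsupp.single (insert a A) c := by
  unfold ins
  rw [Finsupp.linearCombination_single, Finsupp.smul_single, smul_eq_mul, mul_one]

/-- strictly sorted lists -/
def SS (P : Type) [PartialOrder P] : Set (List P) := {l | l.Pairwise (· < ·)}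

/-- weakly sorted lists -/
def WS (P : Type) [PartialOrder P] : Set (List P) := {l | l.Pairwise (· ≤ ·)}

/-- the finite set of a list, zero if the list is not strictly sorted -/
noncomputable def prs (l : List P) : Finset P →₀ ℤ :=
  if l ∈ SS P then Finsupp.single l.toFinset 1 else 0

/-- the projection -/
noncomputable def pr : (List P →₀ ℤ) →ₗ[ℤ] (Finset P →₀ ℤ) := Finsupp.linearCombination ℤ prs

theorem pr_single (l : List P) (c : ℤ) : pr (Finsupp.single l c) = c • prs l := by
  unfold pr
  rw [Finsupp.linearCombination_single]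

/-- a linear map given by a linear combination maps supported elements to a submodule -/
theorem lc_mem {α β : Type} (v : α → (β →₀ ℤ)) (s : Set α) (N : Submodule ℤ (β →₀ ℤ))
    (h : ∀ a ∈ s, v a ∈ N) (w : α →₀ ℤ) (hw : w ∈ Finsupp.supported ℤ ℤ s) :
    Finsupp.linearCombination ℤ v w ∈ N := by
  rw [Finsupp.linearCombination_apply]
  exact Submodule.sum_mem _ fun a ha => N.smul_mem _ (h a (hw ha))

/-- the boundary of a list consists of sublists of length one less -/
theorem dLs_mem (l : List P) :
    dLs l ∈ Finsupp.supported ℤ ℤ {m : List P | m.Sublist l ∧ m.length + 1 = l.length} := by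
  induction l with
  | nil => exact Submodule.zero_mem _
  | cons a l ih =>
    refine Submodule.sub_mem _ ?_ ?_
    · refine Finsupp.single_mem_supported ℤ _ ?_
      exact ⟨List.sublist_cons_self a l, by simp⟩
    · refine lc_mem _ _ _ ?_ _ ih
      rintro m ⟨hm, hm2⟩
      refine Finsupp.single_mem_supported ℤ _ ?_
      exact ⟨hm.cons_cons a, by simpa using hm2⟩

theorem dL_mem_SS {w : List P →₀ ℤ} (hw : w ∈ Finsupp.supported ℤ ℤ (SS P)) :
    dL w ∈ Finsupp.supported ℤ ℤ (SS P) := by
  refine lc_mem _ _ _ ?_ w hw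
  intro l hl
  refine Finsupp.supported_mono ?_ (dLs_mem l)
  rintro m ⟨hm, -⟩
  exact List.Pairwise.sublist hm hl

/-- projection of a list with a smaller first element -/
theorem pr_cons (a : P) {w : List P →₀ ℤ}
    (hw : w ∈ Finsupp.supported ℤ ℤ {l : List P | ∀ x ∈ l, a < x}) :
    pr (cons a w) = ins a (pr w) := by
  have key : ∀ l : List P, (∀ x ∈ l, a < x) → prs (a :: l) = ins a (prs l) := by
    intro l hl
    unfold prs
    by_cases h : l ∈ SS P
    · have h2 : (a :: l) ∈ SS P := List.pairwise_cons.2 ⟨hl, h⟩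
      rw [if_pos h, if_pos h2, ins_single]
      congr 1
      simp
    · have h2 : (a :: l) ∉ SS P := fun h2 => h (List.pairwise_cons.1 h2).2
      rw [if_neg h, if_neg h2, map_zero]
  have h1 : w = ∑ l ∈ w.support, Finsupp.single l (w l) := (Finsupp.sum_single w).symm
  rw [h1, map_sum, map_sum, map_sum, map_sum]
  refine Finset.sum_congr rfl fun l hl => ?_
  rw [cons_single, pr_single, pr_single, map_smul, key l (hw hl)]

theorem pr_cons_cons (a : P) (w : List P →₀ ℤ) : pr (cons a (cons a w)) = 0 := by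
  induction w using Finsupp.induction_linear with
  | zero => simp
  | add x y hx hy => simp only [map_add]; rw [hx, hy, add_zero]
  | single l c =>
    rw [cons_single, cons_single, pr_single]
    have : prs (a :: a :: l) = 0 := by
      unfold prs
      rw [if_neg]
      intro h
      exact lt_irrefl a ((List.pairwise_cons.1 h).1 a (by simp))
    rw [this, smul_zero]

/-- the boundary of a set with a new smallest element -/
theorem dFs_insert (a : P) (A : Finset P) (h : ∀ x ∈ A, a < x) :
    dFs (insert a A) = Finsupp.single A 1 - ins a (dFs A) := by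
  have ha : a ∉ A := fun ha => lt_irrefl a (h a ha)
  unfold dFs
  rw [Finset.sum_insert ha, Finset.erase_insert ha, map_sum, sub_eq_add_neg,
    ← Finset.sum_neg_distrib]
  congr 1
  · congr 1
    have : pos (insert a A) a = 0 := by
      unfold pos
      rw [Finset.card_eq_zero, Finset.filter_eq_empty_iff]
      intro x hx hxa
      rcases Finset.mem_insert.1 hx with rfl | hx
      · exact lt_irrefl _ hxa
      · exact lt_asymm hxa (h x hx)
    rw [this, pow_zero]
  · refine Finset.sum_congr rfl fun b hb => ?_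
    rw [ins_single]
    have hab : a ≠ b := fun hab => ha (hab ▸ hb)
    have e1 : (insert a A).erase b = insert a (A.erase b) := Finset.erase_insert_of_ne hab
    have e2 : pos (insert a A) b = pos A b + 1 := by
      unfold pos
      rw [Finset.filter_insert, if_pos (h b hb), Finset.card_insert_of_notMem]
      intro h2
      exact ha (Finset.mem_filter.1 h2).1
    rw [e1, e2, pow_succ, ← Finsupp.single_neg]
    congr 1
    ring

theorem pr_dLs (l : List P) (hl : l ∈ WS P) (hne : 2 ≤ l.length ∨ l ∈ SS P) :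
    pr (dLs l) = dF (prs l) := by
  induction l with
  | nil =>
    show pr 0 = dF (prs [])
    have : prs ([] : List P) = Finsupp.single ∅ 1 := by
      unfold prs
      rw [if_pos (by exact List.Pairwise.nil)]
      simp
    rw [this, dF_single, map_zero]
    simp [dFs]
  | cons a l ih =>
    have hl2 := List.pairwise_cons.1 hl
    have e1 : pr (dLs (a :: l)) = prs l - pr (cons a (dLs l)) := by
      show pr (Finsupp.single l 1 - cons a (dLs l)) = _
      rw [map_sub, pr_single, one_smul]
    rw [e1]
    by_cases hs : (a :: l) ∈ SS P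
    · have hs2 := List.pairwise_cons.1 hs
      have ih' := ih hl2.2 (Or.inr hs2.2)
      have e2 : prs (a :: l) = Finsupp.single (insert a l.toFinset) 1 := by
        unfold prs
        rw [if_pos hs]
        simp
      have e3 : prs l = Finsupp.single l.toFinset 1 := by
        unfold prs
        rw [if_pos (show l ∈ SS P from hs2.2)]
      rw [e2, dF_single, one_smul, dFs_insert a _ (by
        intro x hx
        exact hs2.1 x (List.mem_toFinset.1 hx)), e3, pr_cons a, ih', e3, dF_single, one_smul]
      refine Finsupp.supported_mono ?_ (dLs_mem l)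
      rintro m ⟨hm, -⟩ x hx
      exact hs2.1 x (hm.subset hx)
    · have e2 : prs (a :: l) = 0 := by
        unfold prs
        rw [if_neg hs]
      rw [e2, map_zero]
      cases l with
      | nil =>
        exfalso
        apply hs
        exact List.pairwise_singleton _ _
      | cons b l' =>
        by_cases hab : a = b
        · subst hab
          have e3 : cons a (dLs (a :: l')) = Finsupp.single (a :: l') 1 -
              cons a (cons a (dLs l')) := by
            show cons a (Finsupp.single l' 1 - cons a (dLs l')) = _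
            rw [map_sub, cons_single]
          rw [e3, map_sub, pr_single, one_smul, pr_cons_cons, sub_zero, sub_self]
        · have hab' : a < b := lt_of_le_of_ne (hl2.1 b (by simp)) hab
          have hlt : ∀ x ∈ b :: l', a < x := by
            intro x hx
            rcases List.mem_cons.1 hx with rfl | hx
            · exact hab'
            · exact lt_of_lt_of_le hab' ((List.pairwise_cons.1 hl2.2).1 x hx)
          have hns : (b :: l') ∉ SS P := by
            intro h
            exact hs (List.pairwise_cons.2 ⟨hlt, h⟩)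
          have e3 : prs (b :: l') = 0 := by
            unfold prs
            rw [if_neg hns]
          have hlen : 2 ≤ (b :: l').length := by
            cases l' with
            | nil => exact absurd (List.pairwise_singleton _ _) hns
            | cons c l'' => simp
          have ih' := ih hl2.2 (Or.inl hlen)
          rw [e3, pr_cons a, ih', e3, map_zero, map_zero, sub_zero]
          refine Finsupp.supported_mono ?_ (dLs_mem (b :: l'))
          rintro m ⟨hm, -⟩ x hx
          exact hlt x (hm.subset hx)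

theorem pr_dL {w : List P →₀ ℤ} (hw : w ∈ Finsupp.supported ℤ ℤ (WS P)) :
    pr (dL w) = dF (pr w) := by
  have h1 : w = ∑ l ∈ w.support, Finsupp.single l (w l) := (Finsupp.sum_single w).symm
  rw [h1, map_sum, map_sum, map_sum, map_sum]
  refine Finset.sum_congr rfl fun l hl => ?_
  rw [dL_single, pr_single, map_smul, map_smul]
  congr 1
  refine pr_dLs l (hw hl) ?_
  rcases l with _ | ⟨a, _ | ⟨b, l⟩⟩
  · exact Or.inr List.Pairwise.nil
  · exact Or.inr (List.pairwise_singleton _ _)
  · exact Or.inl (by simp)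

/-! ### sorting a chain -/

theorem exists_sort (n : ℕ) : ∀ A : Finset P, A.card = n → IsChain (· ≤ ·) (A : Set P) →
    ∃ l : List P, l ∈ SS P ∧ l.toFinset = A := by
  induction n with
  | zero =>
    intro A hA _
    exact ⟨[], List.Pairwise.nil, by rw [Finset.card_eq_zero.1 hA]; simp⟩
  | succ n ih =>
    intro A hA hc
    have hne : A.Nonempty := by
      rw [← Finset.card_pos]; omega
    obtain ⟨a, ha⟩ := A.exists_minimal hne
    have hlt : ∀ x ∈ A.erase a, a < x := by
      intro x hx
      obtain ⟨h1, h2⟩ := Finset.mem_erase.1 hx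
      rcases hc ha.1 h2 (Ne.symm h1) with h | h
      · exact lt_of_le_of_ne h (Ne.symm h1)
      · exact lt_of_le_of_ne (ha.2 h2 h) (Ne.symm h1)
    obtain ⟨l, hl, hl2⟩ := ih (A.erase a) (by rw [Finset.card_erase_of_mem ha.1, hA]; rfl)
      (hc.mono (by intro x hx; exact Finset.mem_of_mem_erase hx))
    refine ⟨a :: l, List.pairwise_cons.2 ⟨?_, hl⟩, ?_⟩
    · intro x hx
      exact hlt x (by rw [← hl2]; exact List.mem_toFinset.2 hx)
    · rw [List.toFinset_cons, hl2, Finset.insert_erase ha.1]

/-- the sorted list of a chain -/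
noncomputable def srt (A : Finset P) : List P :=
  if h : IsChain (· ≤ ·) (A : Set P) then (exists_sort A.card A rfl h).choose else []

theorem srt_spec {A : Finset P} (h : IsChain (· ≤ ·) (A : Set P)) :
    srt A ∈ SS P ∧ (srt A).toFinset = A := by
  unfold srt
  rw [dif_pos h]
  exact (exists_sort A.card A rfl h).choose_spec

theorem nodup_of_SS {l : List P} (h : l ∈ SS P) : l.Nodup :=
  List.Pairwise.imp (fun h => h.ne) h

theorem chain_of_WS {l : List P} (h : l ∈ WS P) : IsChain (· ≤ ·) (l.toFinset : Set P) := by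
  induction l with
  | nil =>
    intro x hx
    simp at hx
  | cons a l ih =>
    have h2 := List.pairwise_cons.1 h
    intro x hx y hy hxy
    simp only [List.toFinset_cons, Finset.coe_insert, Set.mem_insert_iff, Finset.mem_coe,
      List.mem_toFinset] at hx hy
    rcases hx with rfl | hx
    · rcases hy with rfl | hy
      · exact absurd rfl hxy
      · exact Or.inl (h2.1 y hy)
    · rcases hy with rfl | hy
      · exact Or.inr (h2.1 x hx)
      · exact ih h2.2 (Finset.mem_coe.2 (List.mem_toFinset.2 hx))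
          (Finset.mem_coe.2 (List.mem_toFinset.2 hy)) hxy

theorem WS_of_SS {l : List P} (h : l ∈ SS P) : l ∈ WS P :=
  List.Pairwise.imp (fun h => le_of_lt h) h

theorem srt_toFinset {l : List P} (h : l ∈ SS P) : srt l.toFinset = l := by
  obtain ⟨h1, h2⟩ := srt_spec (chain_of_WS (WS_of_SS h))
  have h3 : (srt l.toFinset).Perm l := by
    refine (List.perm_ext_iff_of_nodup (nodup_of_SS h1) (nodup_of_SS h)).2 fun x => ?_
    rw [← List.mem_toFinset, h2, List.mem_toFinset]
  exact List.Perm.eq_of_pairwise (fun a b _ _ hab hba => absurd hba (lt_asymm hab)) h1 h h3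

/-- the linear extension of sorting -/
noncomputable def so : (Finset P →₀ ℤ) →ₗ[ℤ] (List P →₀ ℤ) :=
  Finsupp.linearCombination ℤ (fun A => Finsupp.single (srt A) 1)

theorem so_single (A : Finset P) (c : ℤ) : so (Finsupp.single A c) = Finsupp.single (srt A) c := by
  unfold so
  rw [Finsupp.linearCombination_single, Finsupp.smul_single, smul_eq_mul, mul_one]

theorem so_mem {m : ℕ} {w : Finset P →₀ ℤ} (hw : w ∈ Finsupp.supported ℤ ℤ (Ch P m)) :
    so w ∈ Finsupp.supported ℤ ℤ {l : List P | l ∈ SS P ∧ l.length = m} := by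
  refine lc_mem _ _ _ ?_ w hw
  rintro A ⟨h1, h2⟩
  refine Finsupp.single_mem_supported ℤ _ ?_
  obtain ⟨h3, h4⟩ := srt_spec h1
  refine ⟨h3, ?_⟩
  rw [← List.toFinset_card_of_nodup (nodup_of_SS h3), h4, h2]

theorem pr_so {m : ℕ} {w : Finset P →₀ ℤ} (hw : w ∈ Finsupp.supported ℤ ℤ (Ch P m)) :
    pr (so w) = w := by
  have h1 : w = ∑ l ∈ w.support, Finsupp.single l (w l) := (Finsupp.sum_single w).symm
  conv_lhs => rw [h1]
  conv_rhs => rw [h1]
  rw [map_sum, map_sum]
  refine Finset.sum_congr rfl fun A hA => ?_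
  obtain ⟨h3, h4⟩ := srt_spec (hw hA).1
  rw [so_single, pr_single]
  unfold prs
  rw [if_pos h3, h4, Finsupp.smul_single, smul_eq_mul, mul_one]

theorem so_pr {w : List P →₀ ℤ} (hw : w ∈ Finsupp.supported ℤ ℤ (SS P)) : so (pr w) = w := by
  have h1 : w = ∑ l ∈ w.support, Finsupp.single l (w l) := (Finsupp.sum_single w).symm
  conv_lhs => rw [h1]
  conv_rhs => rw [h1]
  rw [map_sum, map_sum]
  refine Finset.sum_congr rfl fun l hl => ?_
  have h3 := hw hl
  rw [pr_single]
  unfold prs
  rw [if_pos h3, Finsupp.smul_single, smul_eq_mul, mul_one, so_single, srt_toFinset h3]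

/-! ### closure operators -/

section clos
variable (S : Set P) (f : P → P)

theorem Ts_mem (hf : ∀ x y, x ≤ y → f x ≤ f y) (hle : ∀ x, x ≤ f x) (l : List P) (hl : l ∈ WS P) :
    Ts f l ∈ Finsupp.supported ℤ ℤ {m : List P | m ∈ WS P ∧ m.length = l.length + 1 ∧
      ∀ x ∈ m, ∃ y ∈ l, y ≤ x} := by
  induction l with
  | nil => exact Submodule.zero_mem _
  | cons a l ih =>
    have h2 := List.pairwise_cons.1 hl
    refine Submodule.sub_mem _ ?_ ?_
    · refine Finsupp.single_mem_supported ℤ _ ?_
      refine ⟨?_, by simp, ?_⟩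
      · refine List.pairwise_cons.2 ⟨?_, List.pairwise_cons.2 ⟨?_, ?_⟩⟩
        · intro x hx
          rcases List.mem_cons.1 hx with rfl | hx
          · exact hle a
          · obtain ⟨y, hy, rfl⟩ := List.mem_map.1 hx
            exact (h2.1 y hy).trans (hle y)
        · intro x hx
          obtain ⟨y, hy, rfl⟩ := List.mem_map.1 hx
          exact hf _ _ (h2.1 y hy)
        · rw [List.pairwise_map]
          exact List.Pairwise.imp (fun h => hf _ _ h) h2.2
      · intro x hx
        rcases List.mem_cons.1 hx with rfl | hx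
        · exact ⟨x, by simp, le_rfl⟩
        · rcases List.mem_cons.1 hx with rfl | hx
          · exact ⟨a, by simp, hle a⟩
          · obtain ⟨y, hy, rfl⟩ := List.mem_map.1 hx
            exact ⟨y, by simp [hy], hle y⟩
    · refine lc_mem _ _ _ ?_ _ (ih h2.2)
      rintro m ⟨hm1, hm2, hm3⟩
      refine Finsupp.single_mem_supported ℤ _ ?_
      refine ⟨List.pairwise_cons.2 ⟨?_, hm1⟩, by simp [hm2], ?_⟩
      · intro x hx
        obtain ⟨y, hy, hyx⟩ := hm3 x hx
        exact (h2.1 y hy).trans hyx
      · intro x hx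
        rcases List.mem_cons.1 hx with rfl | hx
        · exact ⟨x, by simp, le_rfl⟩
        · obtain ⟨y, hy, hyx⟩ := hm3 x hx
          exact ⟨y, by simp [hy], hyx⟩

theorem pr_mem {m : ℕ} {w : List P →₀ ℤ}
    (hw : w ∈ Finsupp.supported ℤ ℤ {l : List P | l.length = m}) :
    pr w ∈ Finsupp.supported ℤ ℤ (Ch P m) := by
  refine lc_mem _ _ _ ?_ w hw
  intro l hl
  unfold prs
  split_ifs with h
  · refine Finsupp.single_mem_supported ℤ _ ?_
    refine ⟨chain_of_WS (WS_of_SS h), ?_⟩
    rw [List.toFinset_card_of_nodup (nodup_of_SS h)]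
    exact hl
  · exact Submodule.zero_mem _

theorem pr_mem_S {m : ℕ} {w : List P →₀ ℤ}
    (hw : w ∈ Finsupp.supported ℤ ℤ {l : List P | l.length = m ∧ ∀ x ∈ l, x ∈ S}) :
    pr w ∈ Finsupp.supported ℤ ℤ (ChS S m) := by
  refine lc_mem _ _ _ ?_ w hw
  rintro l ⟨hl, hl2⟩
  unfold prs
  split_ifs with h
  · refine Finsupp.single_mem_supported ℤ _ ?_
    refine ⟨⟨chain_of_WS (WS_of_SS h), ?_⟩, ?_⟩
    · rw [List.toFinset_card_of_nodup (nodup_of_SS h)]
      exact hl
    · intro x hx
      exact hl2 x (List.mem_toFinset.1 hx)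
  · exact Submodule.zero_mem _

theorem hzero_clos (hfS : ∀ x, f x ∈ S) (hle : ∀ x, x ≤ f x) (hf : ∀ x y, x ≤ y → f x ≤ f y)
    (k : ℕ) (h : HZero {x : P // x ∈ S} (k + 1)) : HZero P (k + 1) := by
  have h' := hzero_sub S k h
  rw [hzero_iff]
  intro w hw hd
  set c := so w with hc
  have hc1 := so_mem hw
  have hcS : c ∈ Finsupp.supported ℤ ℤ (SS P) := Finsupp.supported_mono (fun l hl => hl.1) hc1
  have hcW : c ∈ Finsupp.supported ℤ ℤ (WS P) := Finsupp.supported_mono (fun l hl => WS_of_SS hl) hcS
  have hdc : dL c = 0 := by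
    rw [← so_pr (dL_mem_SS hcS), pr_dL hcW, hc, pr_so hw, hd, map_zero]
  have hpr := prism f c
  rw [hdc, map_zero, add_zero] at hpr
  have hT : T f c ∈ Finsupp.supported ℤ ℤ {m : List P | m ∈ WS P ∧ m.length = k + 3} := by
    refine lc_mem _ _ _ ?_ c hc1
    rintro l ⟨hl1, hl2⟩
    refine Finsupp.supported_mono ?_ (Ts_mem f hf hle l (WS_of_SS hl1))
    rintro m ⟨hm1, hm2, -⟩
    exact ⟨hm1, by rw [hm2, hl2]⟩
  have hTW : T f c ∈ Finsupp.supported ℤ ℤ (WS P) := Finsupp.supported_mono (fun l hl => hl.1) hT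
  have hfc : fL f c ∈ Finsupp.supported ℤ ℤ
      {m : List P | m ∈ WS P ∧ m.length = k + 2 ∧ ∀ x ∈ m, x ∈ S} := by
    refine lc_mem _ _ _ ?_ c hc1
    rintro l ⟨hl1, hl2⟩
    refine Finsupp.single_mem_supported ℤ _ ?_
    refine ⟨?_, by simp [hl2], ?_⟩
    · show List.Pairwise _ _
      rw [List.pairwise_map]
      exact List.Pairwise.imp (fun h => hf _ _ (le_of_lt h)) hl1
    · intro x hx
      obtain ⟨y, -, rfl⟩ := List.mem_map.1 hx
      exact hfS y
  have hu : pr (fL f c) ∈ Finsupp.supported ℤ ℤ (ChS S (k + 2)) := by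
    refine pr_mem_S S (Finsupp.supported_mono ?_ hfc)
    rintro l ⟨-, h1, h2⟩
    exact ⟨h1, h2⟩
  have hdu : dF (pr (fL f c)) = 0 := by
    rw [← pr_dL (Finsupp.supported_mono (fun l hl => hl.1) hfc), dL_fL, hdc, map_zero, map_zero]
  obtain ⟨y, hy, hy2⟩ := h' _ hu hdu
  refine ⟨y - pr (T f c), Submodule.sub_mem _ ?_ ?_, ?_⟩
  · exact Finsupp.supported_mono (fun A hA => hA.1) hy
  · exact pr_mem (Finsupp.supported_mono (fun l hl => hl.2) hT)
  · rw [map_sub, ← hy2, ← pr_dL hTW, hpr, map_sub, hc, pr_so hw]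
    abel

end clos

/-! ### the opposite poset -/

section dual

/-- the same finite set in the opposite poset -/
def od (A : Finset P) : Finset Pᵒᵈ := A.map OrderDual.toDual.toEmbedding

theorem mem_od (A : Finset P) (x : Pᵒᵈ) : x ∈ od A ↔ OrderDual.ofDual x ∈ A := by
  unfold od
  rw [Finset.mem_map]
  constructor
  · rintro ⟨y, hy, rfl⟩
    exact hy
  · intro h
    exact ⟨OrderDual.ofDual x, h, rfl⟩

theorem od_inj : Function.Injective (od : Finset P → Finset Pᵒᵈ) := Finset.map_injective _

theorem od_surj (B : Finset Pᵒᵈ) : ∃ A : Finset P, od A = B := by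
  refine ⟨B.map OrderDual.ofDual.toEmbedding, ?_⟩
  ext x
  rw [mem_od, Finset.mem_map]
  constructor
  · rintro ⟨y, hy, h⟩
    have : y = x := h
    rwa [this] at hy
  · intro h
    exact ⟨x, h, rfl⟩

theorem od_erase {i1 : DecidableEq P} {i2 : DecidableEq Pᵒᵈ} (A : Finset P) (a : P) :
    od (@Finset.erase _ i1 A a) = @Finset.erase _ i2 (od A) (OrderDual.toDual a) := by
  ext x
  rw [mem_od, Finset.mem_erase, Finset.mem_erase, mem_od]
  exact Iff.rfl

/-- the induced map on chains -/
noncomputable def oo : (Finset P →₀ ℤ) →ₗ[ℤ] (Finset Pᵒᵈ →₀ ℤ) := Finsupp.lmapDomain ℤ ℤ od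

theorem oo_single (A : Finset P) (c : ℤ) :
    oo (Finsupp.single A c) = Finsupp.single (od A) c := by
  unfold oo
  rw [Finsupp.lmapDomain_apply, Finsupp.mapDomain_single]

theorem oo_inj : Function.Injective (oo : (Finset P →₀ ℤ) →ₗ[ℤ] (Finset Pᵒᵈ →₀ ℤ)) :=
  Finsupp.mapDomain_injective od_inj

theorem od_mem_iff (m : ℕ) (A : Finset P) : od A ∈ Ch Pᵒᵈ m ↔ A ∈ Ch P m := by
  unfold Ch
  have hcard : (od A).card = A.card := Finset.card_map _
  constructor
  · rintro ⟨h1, h2⟩
    refine ⟨?_, by rw [← hcard]; exact h2⟩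
    intro x hx y hy hxy
    have := h1 (show OrderDual.toDual x ∈ (od A : Set Pᵒᵈ) from
        Finset.mem_coe.2 ((mem_od A _).2 hx))
      (show OrderDual.toDual y ∈ (od A : Set Pᵒᵈ) from Finset.mem_coe.2 ((mem_od A _).2 hy)) hxy
    exact this.symm
  · rintro ⟨h1, h2⟩
    refine ⟨?_, by rw [hcard]; exact h2⟩
    intro x hx y hy hxy
    exact (h1 (Finset.mem_coe.2 ((mem_od A x).1 hx)) (Finset.mem_coe.2 ((mem_od A y).1 hy))
      hxy).symm

theorem pos_od {A : Finset P} (hA : IsChain (· ≤ ·) (A : Set P)) {a : P} (ha : a ∈ A) :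
    pos (od A) (OrderDual.toDual a) + pos A a + 1 = A.card := by
  have h1 : pos (od A) (OrderDual.toDual a) = (A.filter (fun x => a < x)).card := by
    unfold pos od
    rw [Finset.filter_map, Finset.card_map]
    rfl
  rw [h1]
  unfold pos
  have h2 : A = insert a (A.filter (fun x => a < x) ∪ A.filter (fun x => x < a)) := by
    ext x
    simp only [Finset.mem_insert, Finset.mem_union, Finset.mem_filter]
    constructor
    · intro hx
      by_cases hxa : x = a
      · exact Or.inl hxa
      · rcases hA hx ha hxa with h | h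
        · exact Or.inr (Or.inr ⟨hx, lt_of_le_of_ne h hxa⟩)
        · exact Or.inr (Or.inl ⟨hx, lt_of_le_of_ne h (Ne.symm hxa)⟩)
    · rintro (rfl | h | h)
      · exact ha
      · exact h.1
      · exact h.1
  have h3 : a ∉ A.filter (fun x => a < x) ∪ A.filter (fun x => x < a) := by
    intro h
    rcases Finset.mem_union.1 h with h | h
    · exact lt_irrefl _ (Finset.mem_filter.1 h).2
    · exact lt_irrefl _ (Finset.mem_filter.1 h).2
  have h4 : Disjoint (A.filter (fun x => a < x)) (A.filter (fun x => x < a)) := by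
    rw [Finset.disjoint_left]
    intro x h h'
    exact lt_asymm (Finset.mem_filter.1 h).2 (Finset.mem_filter.1 h').2
  have h5 := congrArg Finset.card h2
  rw [Finset.card_insert_of_notMem h3, Finset.card_union_of_disjoint h4] at h5
  exact h5.symm

theorem oo_dFs {m : ℕ} {A : Finset P} (hA : A ∈ Ch P (m + 1)) :
    dFs (od A) = (-1 : ℤ) ^ m • oo (dFs A) := by
  unfold dFs
  have : od A = A.map OrderDual.toDual.toEmbedding := rfl
  conv_lhs => rw [this, Finset.sum_map]
  rw [map_sum, Finset.smul_sum]
  refine Finset.sum_congr rfl fun a ha => ?_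
  have h1 := pos_od hA.1 ha
  rw [hA.2] at h1
  rw [oo_single, Finsupp.smul_single, smul_eq_mul, od_erase]
  congr 1
  show (-1 : ℤ) ^ pos (od A) (OrderDual.toDual a) = _
  have h2 : m = pos (od A) (OrderDual.toDual a) + pos A a := by omega
  rw [h2, pow_add, mul_assoc, ← pow_add, ← two_mul, pow_mul]
  simp

theorem oo_dF {m : ℕ} {w : Finset P →₀ ℤ} (hw : w ∈ Finsupp.supported ℤ ℤ (Ch P (m + 1))) :
    dF (oo w) = (-1 : ℤ) ^ m • oo (dF w) := by
  have h1 : w = ∑ l ∈ w.support, Finsupp.single l (w l) := (Finsupp.sum_single w).symm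
  rw [h1, map_sum, map_sum, map_sum, map_sum, Finset.smul_sum]
  refine Finset.sum_congr rfl fun A hA => ?_
  rw [oo_single, dF_single, dF_single, map_smul, oo_dFs (hw hA), smul_comm]

theorem oo_mem {m : ℕ} {w : Finset P →₀ ℤ} (hw : w ∈ Finsupp.supported ℤ ℤ (Ch P m)) :
    oo w ∈ Finsupp.supported ℤ ℤ (Ch Pᵒᵈ m) := by
  rw [Finsupp.mem_supported]
  intro A hA
  have h1 := Finsupp.mapDomain_support (f := (od : Finset P → Finset Pᵒᵈ)) (s := w) hA
  obtain ⟨B, hB, rfl⟩ := Finset.mem_image.1 h1
  exact (od_mem_iff m B).2 (hw hB)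

theorem exists_oo {m : ℕ} {w : Finset Pᵒᵈ →₀ ℤ} (hw : w ∈ Finsupp.supported ℤ ℤ (Ch Pᵒᵈ m)) :
    ∃ z ∈ Finsupp.supported ℤ ℤ (Ch P m), oo z = w := by
  have h0 : (w.support : Set (Finset Pᵒᵈ)) ⊆ Set.range (od : Finset P → Finset Pᵒᵈ) := by
    intro A _
    exact od_surj A
  have h1 : oo (Finsupp.comapDomain od w od_inj.injOn) = w :=
    Finsupp.mapDomain_comapDomain od od_inj w h0
  refine ⟨_, ?_, h1⟩
  rw [Finsupp.mem_supported]
  intro A hA
  rw [Finset.mem_coe, Finsupp.mem_support_iff, Finsupp.comapDomain_apply] at hA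
  rw [← od_mem_iff m A]
  exact hw (Finsupp.mem_support_iff.2 hA)

theorem hzero_od (k : ℕ) (h : HZero Pᵒᵈ (k + 1)) : HZero P (k + 1) := by
  rw [hzero_iff] at h ⊢
  intro w hw hd
  have h1 : dF (oo w) = 0 := by
    rw [oo_dF (m := k + 1) hw, hd, map_zero, smul_zero]
  obtain ⟨y, hy, hy2⟩ := h (oo w) (oo_mem hw) h1
  obtain ⟨z, hz, rfl⟩ := exists_oo hy
  refine ⟨(-1 : ℤ) ^ (k + 2) • z, Submodule.smul_mem _ _ hz, ?_⟩
  apply oo_inj
  rw [hy2, oo_dF (m := k + 2) hz, map_smul, map_smul]

end dual

end CA

end Pool.Agent.Helper635.PD4
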