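import Pool.Agent.Helper635_PD4.FD

/-!
# Collapsing sequences
-/

open scoped Classical

namespace Pool.Agent.Helper635.PD4

/-- collapsing sequence `[b₁, a₁, b₂, a₂, …]` for the matrix `E` -/
def Coll {V : Type*} (E : V → V → ℤ) : List V → Prop
  | [] => True
  | [_] => False
  | b :: a :: L => (E a b = 1 ∨ E a b = -1) ∧ E a a = 0 ∧ E b a = 0 ∧ E b b = 0 ∧ a ≠ b ∧
      a ∉ L ∧ b ∉ L ∧ (∀ v ∈ L, E a v = 0 ∧ E b v = 0) ∧ Coll E L

theorem exa_coll_aux {V : Type*} (E : V → V → ℤ) : ∀ (L : List V), Coll E L →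
    Sq L.toFinset E → Exa L.toFinset E
  | [] => fun _ _ => by
    rw [List.toFinset_nil]
    exact exa_empty E
  | [_] => fun h _ => absurd h (by simp [Coll])
  | b :: a :: L => fun h hsq => by
    rw [Coll] at h
    obtain ⟨h1, h2, h3, h4, hab, haL, hbL, hL, hc⟩ := h
    have hset : (b :: a :: L).toFinset = L.toFinset ∪ {a, b} := by
      ext x
      simp only [List.mem_toFinset, List.mem_cons, Finset.mem_union, Finset.mem_insert,
        Finset.mem_singleton]
      tauto
    have hd : Disjoint L.toFinset {a, b} := by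
      rw [Finset.disjoint_left]
      intro x hx hx2
      rw [List.mem_toFinset] at hx
      rw [Finset.mem_insert, Finset.mem_singleton] at hx2
      rcases hx2 with rfl | rfl
      · exact haL hx
      · exact hbL hx
    have hAB : ∀ b' ∈ ({a, b} : Finset V), ∀ a' ∈ L.toFinset, E b' a' = 0 := by
      intro b' hb' a' ha'
      rw [List.mem_toFinset] at ha'
      rw [Finset.mem_insert, Finset.mem_singleton] at hb'
      rcases hb' with rfl | rfl
      · exact (hL a' ha').1
      · exact (hL a' ha').2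
    rw [hset] at hsq ⊢
    have hsqA : Sq L.toFinset E := by
      intro u hu w hw
      have := hsq u (Finset.mem_union_left _ hu) w (Finset.mem_union_left _ hw)
      rw [Finset.sum_union hd] at this
      have hz : ∑ v ∈ ({a, b} : Finset V), E u v * E v w = 0 :=
        Finset.sum_eq_zero (fun v hv => by rw [hAB v hv w hw, mul_zero])
      rw [hz, add_zero] at this
      exact this
    exact exa_union L.toFinset {a, b} E hd hAB hsq (exa_coll_aux E L hc hsqA)
      (exa_pair E a b hab h1 h2 h3 h4)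

theorem exa_coll {V : Type*} (E : V → V → ℤ) (L : List V) (h : Coll E L)
    (hsq : Sq L.toFinset E) : Exa L.toFinset E := exa_coll_aux E L h hsq

theorem coll_map_aux {V V' : Type*} (E : V → V → ℤ) (E' : V' → V' → ℤ) (φ : V → V') :
    ∀ (L : List V), (∀ u ∈ L, ∀ v ∈ L, φ u = φ v → u = v) →
      (∀ u ∈ L, ∀ v ∈ L, E' (φ u) (φ v) = E u v) → Coll E L → Coll E' (L.map φ)
  | [] => fun _ _ _ => trivial
  | [_] => fun _ _ h => absurd h (by simp [Coll])
  | b :: a :: L => fun hφ hE h => by
    rw [Coll] at h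
    obtain ⟨h1, h2, h3, h4, hab, haL, hbL, hL, hc⟩ := h
    have hb : b ∈ b :: a :: L := by simp
    have ha : a ∈ b :: a :: L := by simp
    have hLm : ∀ v ∈ L, v ∈ b :: a :: L := fun v hv => by simp [hv]
    rw [List.map_cons, List.map_cons, Coll]
    refine ⟨?_, ?_, ?_, ?_, ?_, ?_, ?_, ?_, ?_⟩
    · rw [hE a ha b hb]; exact h1
    · rw [hE a ha a ha]; exact h2
    · rw [hE b hb a ha]; exact h3
    · rw [hE b hb b hb]; exact h4
    · intro hh; exact hab (hφ a ha b hb hh)
    · intro hh
      obtain ⟨v, hv, hv2⟩ := List.mem_map.1 hh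
      have := hφ v (hLm v hv) a ha hv2
      rw [this] at hv
      exact haL hv
    · intro hh
      obtain ⟨v, hv, hv2⟩ := List.mem_map.1 hh
      have := hφ v (hLm v hv) b hb hv2
      rw [this] at hv
      exact hbL hv
    · intro v' hv'
      obtain ⟨v, hv, rfl⟩ := List.mem_map.1 hv'
      rw [hE a ha v (hLm v hv), hE b hb v (hLm v hv)]
      exact hL v hv
    · exact coll_map_aux E E' φ L (fun u hu v hv => hφ u (hLm u hu) v (hLm v hv))
        (fun u hu v hv => hE u (hLm u hu) v (hLm v hv)) hc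

theorem coll_map {V V' : Type*} (E : V → V → ℤ) (E' : V' → V' → ℤ) (φ : V → V') (L : List V)
    (hφ : ∀ u ∈ L, ∀ v ∈ L, φ u = φ v → u = v)
    (hE : ∀ u ∈ L, ∀ v ∈ L, E' (φ u) (φ v) = E u v) (h : Coll E L) : Coll E' (L.map φ) :=
  coll_map_aux E E' φ L hφ hE h

end Pool.Agent.Helper635.PD4
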