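import Pool.Agent.Helper635_PD4.FD

/-!
# Module C1, auxiliary file: equivariant contraction of a filtered differential group
-/

open scoped Classical

namespace Pool.Agent.Helper635.PD4

/-- abstract ring lemma -/
theorem ring_ctr {R : Type*} [Ring R] (d h : R) (N : ℕ) (hd : d * d = 0)
    (hn : (1 - (d * h + h * d)) ^ N = 0) :
    d * (h * ∑ i ∈ Finset.range N, (1 - (d * h + h * d)) ^ i) +
      (h * ∑ i ∈ Finset.range N, (1 - (d * h + h * d)) ^ i) * d = 1 := by
  have hc : Commute (1 - (d * h + h * d)) d := by
    unfold Commute SemiconjBy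
    have h1 : (1 - (d * h + h * d)) * d = d - d * h * d - h * (d * d) := by noncomm_ring
    have h2 : d * (1 - (d * h + h * d)) = d - d * h * d - (d * d) * h := by noncomm_ring
    rw [h1, h2, hd]; simp
  have hcS : Commute (∑ i ∈ Finset.range N, (1 - (d * h + h * d)) ^ i) d := by
    apply Commute.sum_left
    intro i _
    exact hc.pow_left i
  have h1 : (1 - (1 - (d * h + h * d))) * (∑ i ∈ Finset.range N, (1 - (d * h + h * d)) ^ i) = 1 := by
    rw [mul_neg_geom_sum, hn, sub_zero]
  set S := ∑ i ∈ Finset.range N, (1 - (d * h + h * d)) ^ i with hS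
  have h2 : 1 - (1 - (d * h + h * d)) = d * h + h * d := by abel
  rw [h2] at h1
  calc d * (h * S) + (h * S) * d = d * h * S + h * (S * d) := by noncomm_ring
    _ = d * h * S + h * (d * S) := by rw [hcS.eq]
    _ = (d * h + h * d) * S := by noncomm_ring
    _ = 1 := h1

section
variable {W : Type*}

/-- the operator with a column-finite matrix -/
noncomputable def matOp (D : W → W → ℤ) (hD : ∀ v, {u | D u v ≠ 0}.Finite) :
    Module.End ℤ (W →₀ ℤ) :=
  Finsupp.linearCombination ℤ (fun v => Finsupp.onFinset (hD v).toFinset (fun u => D u v)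
    (by intro u hu; simpa using hu))

theorem matOp_single (D : W → W → ℤ) (hD : ∀ v, {u | D u v ≠ 0}.Finite) (v u : W) :
    matOp D hD (Finsupp.single v 1) u = D u v := by
  simp [matOp]

theorem matOp_apply (D : W → W → ℤ) (hD : ∀ v, {u | D u v ≠ 0}.Finite) (z : W →₀ ℤ) (u : W) :
    matOp D hD z u = z.sum (fun w c => D u w * c) := by
  unfold matOp
  rw [Finsupp.linearCombination_apply, Finsupp.sum_apply]
  apply Finset.sum_congr rfl
  intro w _
  simp [mul_comm]

theorem matOp_apply_of_subset (D : W → W → ℤ) (hD : ∀ v, {u | D u v ≠ 0}.Finite) (z : W →₀ ℤ)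
    (u : W) (S : Finset W) (hS : ∀ w, z w ≠ 0 → w ∈ S) :
    matOp D hD z u = ∑ w ∈ S, D u w * z w := by
  rw [matOp_apply, Finsupp.sum]
  apply Finset.sum_subset
  · intro w hw
    exact hS w (Finsupp.mem_support_iff.1 hw)
  · intro w _ hw
    rw [Finsupp.notMem_support_iff.1 hw, mul_zero]

/-- an endomorphism is determined by the values on the basis -/
theorem end_ext (A B : Module.End ℤ (W →₀ ℤ))
    (h : ∀ v u, A (Finsupp.single v 1) u = B (Finsupp.single v 1) u) : A = B := by
  apply Finsupp.lhom_ext'
  intro v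
  apply LinearMap.ext_ring
  ext u
  exact h v u

/-- the endomorphism given by a group element -/
noncomputable def actOp {Γ : Type*} [Group Γ] [MulAction Γ W] (g : Γ) :
    Module.End ℤ (W →₀ ℤ) := Finsupp.lmapDomain ℤ ℤ (fun v => g • v)

theorem actOp_apply {Γ : Type*} [Group Γ] [MulAction Γ W] (g : Γ) (z : W →₀ ℤ) (u : W) :
    actOp g z u = z (g⁻¹ • u) := by
  unfold actOp
  rw [Finsupp.lmapDomain_apply]
  have h := Finsupp.mapDomain_apply (f := fun v : W => g • v) (MulAction.injective g) z (g⁻¹ • u)
  simpa using h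

theorem actOp_single {Γ : Type*} [Group Γ] [MulAction Γ W] (g : Γ) (v : W) :
    actOp g (Finsupp.single v 1) = Finsupp.single (g • v) (1 : ℤ) := by
  unfold actOp
  rw [Finsupp.lmapDomain_apply, Finsupp.mapDomain_single]

theorem matOp_comm {Γ : Type*} [Group Γ] [MulAction Γ W] (D : W → W → ℤ)
    (hD : ∀ v, {u | D u v ≠ 0}.Finite) (hg : ∀ (g : Γ) u v, D (g • u) (g • v) = D u v) (g : Γ) :
    Commute (matOp D hD) (actOp g) := by
  apply end_ext
  intro v u
  rw [Module.End.mul_apply, Module.End.mul_apply, actOp_single, matOp_single, actOp_apply,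
    matOp_single, ← hg g (g⁻¹ • u) v, smul_inv_smul]

/-- nilpotence from a filtration -/
theorem nilp_of_filt (n : Module.End ℤ (W →₀ ℤ)) (r : W → ℕ) (N : ℕ) (hN : ∀ w, r w < N)
    (h : ∀ v u, n (Finsupp.single v 1) u ≠ 0 → r u < r v) : n ^ N = 0 := by
  have key : ∀ k : ℕ, ∀ z : W →₀ ℤ, (∀ u, z u ≠ 0 → r u < k + 1) →
      (∀ u, n z u ≠ 0 → r u < k) := by
    intro k z hz u hu
    have hz2 : z = z.sum (fun v c => c • Finsupp.single v (1 : ℤ)) := by
      conv_lhs => rw [← Finsupp.sum_single z]
      apply Finset.sum_congr rfl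
      intro v _
      simp
    rw [hz2, map_finsuppSum, Finsupp.sum_apply] at hu
    obtain ⟨v, hv, hv2⟩ := Finset.exists_ne_zero_of_sum_ne_zero hu
    beta_reduce at hv2
    rw [map_smul, Finsupp.smul_apply] at hv2
    have h1 : n (Finsupp.single v 1) u ≠ 0 := by
      intro h0; rw [h0, smul_zero] at hv2; exact hv2 rfl
    have h2 := h v u h1
    have h3 := hz v (Finsupp.mem_support_iff.1 hv)
    omega
  have key2 : ∀ j : ℕ, ∀ z : W →₀ ℤ, (∀ u, (n ^ j) z u ≠ 0 → r u + j < N) := by
    intro j
    induction j with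
    | zero => intro z u _; simpa using hN u
    | succ j ih =>
      intro z u hu
      rw [pow_succ', Module.End.mul_apply] at hu
      by_cases hj : j < N
      · have := key (N - j - 1) ((n ^ j) z) (by
          intro u' hu'
          have := ih z u' hu'
          omega) u hu
        omega
      · exfalso
        have h0 : (n ^ j) z = 0 := by
          ext u'
          by_contra hne
          have := ih z u' hne
          omega
        rw [h0, map_zero] at hu
        exact hu rfl
  apply LinearMap.ext
  intro z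
  ext u
  by_contra hne
  have := key2 N z u hne
  omega

end

/-- equivariant contraction of a filtered complex: `f` is the filtration with values in the
poset (here only a set with a rank function) `P`, on which `Γ` acts freely -/
theorem filt_ctr {Γ W P : Type*} [Group Γ] [MulAction Γ W] [MulAction Γ P] (f : W → P)
    (rk : P → ℕ) (N : ℕ) (hN : ∀ x, rk x ≤ N) (hfg : ∀ (g : Γ) w, f (g • w) = g • f w)
    (hfree : ∀ (g : Γ) (x : P), g • x = x → g = 1)
    (D : W → W → ℤ) (hD : ∀ v, {u | D u v ≠ 0}.Finite)
    (hDg : ∀ (g : Γ) u v, D (g • u) (g • v) = D u v)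
    (htri : ∀ u v, D u v ≠ 0 → f u = f v ∨ rk (f u) < rk (f v))
    (hsq : matOp D hD * matOp D hD = 0) (Fb : P → Finset W) (hFb : ∀ x w, w ∈ Fb x ↔ f w = x)
    (hctr : ∀ x, Ctr (Fb x) D) :
    ∃ hh : Module.End ℤ (W →₀ ℤ),
      matOp D hD * hh + hh * matOp D hD = 1 ∧ ∀ g : Γ, Commute hh (actOp g) := by
  -- orbit representatives
  have hrep : ∀ x : P, ∃ g : Γ, g • (Quotient.out (s := MulAction.orbitRel Γ P)
      (Quotient.mk (MulAction.orbitRel Γ P) x)) = x := by
    intro x
    have h1 : Quotient.mk (MulAction.orbitRel Γ P) (Quotient.out (s := MulAction.orbitRel Γ P)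
      (Quotient.mk (MulAction.orbitRel Γ P) x)) = Quotient.mk (MulAction.orbitRel Γ P) x :=
      Quotient.out_eq _
    have h2 := (Quotient.eq (r := MulAction.orbitRel Γ P)).1 h1.symm
    rw [MulAction.orbitRel_apply] at h2
    exact h2
  choose γ hγ using hrep
  set rep : P → P := fun x => Quotient.out (s := MulAction.orbitRel Γ P)
      (Quotient.mk (MulAction.orbitRel Γ P) x) with hrepdef
  have hrepg : ∀ (g : Γ) x, rep (g • x) = rep x := by
    intro g x
    simp only [hrepdef]
    congr 1
    apply Quotient.sound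
    exact ⟨g, rfl⟩
  have hγg : ∀ (g : Γ) x, γ (g • x) = g * γ x := by
    intro g x
    have h1 : γ (g • x) • rep x = g • x := by
      have := hγ (g • x)
      change γ (g • x) • rep (g • x) = g • x at this
      rwa [hrepg] at this
    have h2 : (g * γ x) • rep x = g • x := by
      rw [mul_smul]
      congr 1
      exact hγ x
    have h3 : ((g * γ x)⁻¹ * γ (g • x)) • rep x = rep x := by
      rw [mul_smul, h1, ← h2, inv_smul_smul]
    have h4 := hfree _ _ h3
    rw [inv_mul_eq_one] at h4
    exact h4.symm
  choose h hh using hctr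
  set H : W → W → ℤ := fun u v =>
    if f u = f v then h (rep (f v)) ((γ (f v))⁻¹ • u) ((γ (f v))⁻¹ • v) else 0 with hHdef
  have hHg : ∀ (g : Γ) u v, H (g • u) (g • v) = H u v := by
    intro g u v
    simp only [hHdef, hfg, hrepg, hγg, mul_inv_rev, mul_smul, inv_smul_smul, smul_left_cancel_iff]
  have hHf : ∀ u v, H u v ≠ 0 → f u = f v := by
    intro u v huv
    by_contra hne
    simp only [hHdef, if_neg hne] at huv
    exact huv rfl
  have hHfin : ∀ v, {u | H u v ≠ 0}.Finite := by
    intro v
    apply (Fb (f v)).finite_toSet.subset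
    intro u hu
    exact (hFb _ _).2 (hHf u v hu)
  -- the local contraction property
  have hloc : ∀ u v, f u = f v →
      ∑ w ∈ Fb (f v), (D u w * H w v + H u w * D w v) = if u = v then 1 else 0 := by
    intro u v huv
    have hγv : γ (f v) • rep (f v) = f v := hγ (f v)
    have hv' : (γ (f v))⁻¹ • v ∈ Fb (rep (f v)) := by
      rw [hFb, hfg, inv_smul_eq_iff, hγv]
    have hu' : (γ (f v))⁻¹ • u ∈ Fb (rep (f v)) := by
      rw [hFb, hfg, inv_smul_eq_iff, hγv, huv]
    have h1 := hh (rep (f v)) _ hu' _ hv'
    rw [smul_left_cancel_iff] at h1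
    rw [← h1]
    apply Finset.sum_bij (fun w _ => (γ (f v))⁻¹ • w)
    · intro w hw
      rw [hFb] at hw ⊢
      rw [hfg, inv_smul_eq_iff, hγv, hw]
    · intro w1 _ w2 _ h12
      exact smul_left_cancel _ h12
    · intro w hw
      refine ⟨γ (f v) • w, ?_, by simp⟩
      rw [hFb] at hw ⊢
      rw [hfg, hw, hγv]
    · intro w hw
      rw [hFb] at hw
      have e1 : D ((γ (f v))⁻¹ • u) ((γ (f v))⁻¹ • w) = D u w := hDg _ _ _
      have e2 : D ((γ (f v))⁻¹ • w) ((γ (f v))⁻¹ • v) = D w v := hDg _ _ _
      rw [e1, e2]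
      have e3 : H w v = h (rep (f v)) ((γ (f v))⁻¹ • w) ((γ (f v))⁻¹ • v) := by
        simp only [hHdef, hw, if_true]
      have e4 : H u w = h (rep (f v)) ((γ (f v))⁻¹ • u) ((γ (f v))⁻¹ • w) := by
        simp only [hHdef, hw, huv, if_true]
      rw [e3, e4]
  -- the sum over the fibre computes the homotopy
  set d := matOp D hD with hd
  set h0 := matOp H hHfin with hh0
  have hcomp : ∀ v u, ¬ (rk (f u) < rk (f v)) →
      (d * h0 + h0 * d) (Finsupp.single v 1) u = if u = v then 1 else 0 := by
    intro v u huv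
    rw [LinearMap.add_apply, Finsupp.add_apply, Module.End.mul_apply, Module.End.mul_apply]
    have e1 : d (h0 (Finsupp.single v 1)) u = ∑ w ∈ Fb (f v), D u w * H w v := by
      rw [hd, matOp_apply_of_subset D hD _ u (Fb (f v))]
      · apply Finset.sum_congr rfl
        intro w _
        rw [hh0, matOp_single]
      · intro w hw
        rw [hh0, matOp_single] at hw
        exact (hFb _ _).2 (hHf w v hw)
    have e2 : h0 (d (Finsupp.single v 1)) u = ∑ w ∈ Fb (f v), H u w * D w v := by
      rw [hh0, matOp_apply_of_subset H hHfin _ u ((hD v).toFinset ∪ Fb (f v))]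
      · rw [← Finset.sum_subset (Finset.subset_union_right (s₁ := (hD v).toFinset)
          (s₂ := Fb (f v)))]
        · apply Finset.sum_congr rfl
          intro w _
          rw [hd, matOp_single]
        · intro w _ hw
          rw [hFb] at hw
          rw [hd, matOp_single]
          by_contra hne
          have hne1 : H u w ≠ 0 := left_ne_zero_of_mul hne
          have hne2 : D w v ≠ 0 := right_ne_zero_of_mul hne
          rcases htri w v hne2 with h3 | h3
          · exact hw h3
          · rw [← hHf u w hne1] at h3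
            exact huv h3
      · intro w hw
        rw [hd, matOp_single] at hw
        apply Finset.mem_union_left
        simpa using hw
    rw [e1, e2, ← Finset.sum_add_distrib]
    by_cases hf : f u = f v
    · exact hloc u v hf
    · rw [if_neg (by intro h; exact hf (by rw [h]))]
      apply Finset.sum_eq_zero
      intro w hw
      rw [hFb] at hw
      have e3 : D u w = 0 := by
        by_contra hne
        rcases htri u w hne with h3 | h3
        · exact hf (h3.trans hw)
        · rw [hw] at h3; exact huv h3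
      have e4 : H u w = 0 := by
        by_contra hne
        exact hf ((hHf u w hne).trans hw)
      rw [e3, e4]; ring
  have hnil : (1 - (d * h0 + h0 * d)) ^ (N + 1) = 0 := by
    apply nilp_of_filt _ (fun w => rk (f w)) (N + 1)
    · intro w
      exact Nat.lt_succ_of_le (hN _)
    · intro v u hne
      by_contra hlt
      apply hne
      rw [LinearMap.sub_apply, Finsupp.sub_apply, hcomp v u hlt, Module.End.one_apply,
        Finsupp.single_apply]
      by_cases huv : u = v
      · simp [huv]
      · simp [huv, Ne.symm huv]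
  refine ⟨h0 * ∑ i ∈ Finset.range (N + 1), (1 - (d * h0 + h0 * d)) ^ i,
    ring_ctr d h0 (N + 1) hsq hnil, ?_⟩
  intro g
  have c1 : Commute d (actOp g) := matOp_comm D hD hDg g
  have c2 : Commute h0 (actOp g) := matOp_comm H hHfin hHg g
  have c3 : Commute (1 - (d * h0 + h0 * d)) (actOp g) :=
    (Commute.one_left _).sub_left ((c1.mul_left c2).add_left (c2.mul_left c1))
  exact c2.mul_left (Commute.sum_left _ _ _ (fun i _ => c3.pow_left i))

end Pool.Agent.Helper635.PD4
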