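import Pool.Agent.Helper635_PD4.LemP
import Pool.Agent.Helper635_PD4.ConeAux1
import Pool.Agent.Helper635_PD4.ConeAux2

/-!
# Module C1: equivariant contraction of the cone of `D_* → C_*(Δ(P))` (statement to be proved)

Basis of the cone: the nonempty finite chains `A` of `P` (simplices) and the elements `x` of `P`
(cells), with
`∂ A = ∑ (-1)^{pos A a} (A - a)` (over `a ∈ A`, only if `A - a ≠ ∅`),
`∂ [x] = Φ(x) - (-1)^{rk x} ∑ ep y x [y]`, where `Φ(x) = ∑_{A, max A = x} oc(A - x, x) A`.
-/

open scoped Classical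

namespace Pool.Agent.Helper635.PD4

/-- nonempty finite chains -/
def NCh (P : Type*) [PartialOrder P] : Type _ :=
  {A : Finset P // A.Nonempty ∧ IsChain (· ≤ ·) (A : Set P)}

/-- the coefficient of the chain `A` in the fundamental chain `Φ(x)` of the cell `x`:
for a saturated chain `A = {x_0 < … < x_r = x}` it is `a x_0 * ep x_0 x_1 * … * ep x_{r-1} x` -/
noncomputable def phi {P : Type*} [PartialOrder P] (a : P → ℤ) (ep : P → P → ℤ)
    (A : Finset P) (x : P) : ℤ :=
  if x ∈ A ∧ ∀ b ∈ A, b ≤ x then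
    oc (bE a ep) (⊥ : WithBot P) ((A.erase x).image (fun b => (b : WithBot P))) (x : WithBot P)
  else 0

/-- the matrix of the cone -/
noncomputable def cD {P : Type*} [PartialOrder P] (rk : P → ℕ) (a : P → ℤ) (ep : P → P → ℤ) :
    NCh P ⊕ P → NCh P ⊕ P → ℤ
  | Sum.inl A', Sum.inl A => dE A'.1 A.1
  | Sum.inl A, Sum.inr x => phi a ep A.1 x
  | Sum.inr y, Sum.inr x => -((-1) ^ rk x * ep y x)
  | Sum.inr _, Sum.inl _ => 0

section
variable {Γ P : Type*} [Group Γ] [PartialOrder P] [OrdAct Γ P]

/-- the action on nonempty chains -/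
noncomputable instance : MulAction Γ (NCh P) where
  smul g A := ⟨A.1.map (MulAction.toPerm g).toEmbedding, by
      rw [Finset.map_nonempty]; exact A.2.1, by
      intro x hx y hy hxy
      simp only [Finset.coe_map, Set.mem_image] at hx hy
      obtain ⟨x', hx', rfl⟩ := hx
      obtain ⟨y', hy', rfl⟩ := hy
      have hne : x' ≠ y' := fun h => hxy (by rw [h])
      rcases A.2.2 hx' hy' hne with h | h
      · exact Or.inl (OrdAct.smul_le g _ _ h)
      · exact Or.inr (OrdAct.smul_le g _ _ h)⟩
  one_smul A := by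
    apply Subtype.ext
    apply Finset.ext
    intro x
    show x ∈ A.1.map _ ↔ _
    simp
  mul_smul g h A := by
    apply Subtype.ext
    apply Finset.ext
    intro x
    show x ∈ A.1.map _ ↔ x ∈ (A.1.map _).map _
    simp [mul_smul]

noncomputable instance : MulAction Γ (NCh P ⊕ P) where
  smul g v := Sum.map (fun A => g • A) (fun x => g • x) v
  one_smul v := by
    rcases v with v | v
    · show Sum.inl (_ • v) = _; rw [one_smul]
    · show Sum.inr (_ • v) = _; rw [one_smul]
  mul_smul g h v := by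
    rcases v with v | v
    · show Sum.inl (_ • v) = Sum.inl _; rw [mul_smul]
    · show Sum.inr (_ • v) = Sum.inr _; rw [mul_smul]

end


/-! ### auxiliary facts -/

section aux
variable {P : Type*} [PartialOrder P]

theorem exists_mx (A : NCh P) : ∃ x ∈ A.1, ∀ b ∈ A.1, b ≤ x := by
  obtain ⟨m, hm⟩ := A.1.exists_maximal A.2.1
  refine ⟨m, hm.1, fun b hb => ?_⟩
  by_cases h : b = m
  · exact h.le
  · rcases A.2.2 hb hm.1 h with h1 | h1
    · exact h1
    · exact hm.2 hb h1

/-- the maximum of a nonempty chain -/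
noncomputable def mx (A : NCh P) : P := (exists_mx A).choose

theorem mx_mem (A : NCh P) : mx A ∈ A.1 := (exists_mx A).choose_spec.1

theorem le_mx (A : NCh P) {b : P} (hb : b ∈ A.1) : b ≤ mx A := (exists_mx A).choose_spec.2 b hb

theorem mx_eq (A : NCh P) {x : P} (hx : x ∈ A.1) (h : ∀ b ∈ A.1, b ≤ x) : mx A = x :=
  le_antisymm (h _ (mx_mem A)) (le_mx A hx)

/-- the level of a basis element of the cone -/
noncomputable def lev : NCh P ⊕ P → P := Sum.elim mx id

theorem gr_bE {rk : P → ℕ} {a : P → ℤ} {ep : P → P → ℤ} (gr : Gr rk ep)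
    (ha : ∀ x, a x ≠ 0 → rk x = 0) : Gr (rkB rk) (bE a ep) where
  lt := by
    intro x y hxy
    induction y with
    | bot => exact absurd hxy not_lt_bot
    | coe y =>
      induction x with
      | bot => show 0 < rk y + 1; omega
      | coe x =>
        have := gr.lt x y (WithBot.coe_lt_coe.1 hxy)
        show rk x + 1 < rk y + 1
        omega
  ne := by
    intro x y h
    induction y with
    | bot => exact absurd rfl h
    | coe y =>
      induction x with
      | bot =>
        have h' : a y ≠ 0 := h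
        exact ⟨WithBot.bot_lt_coe y, by show rk y + 1 = 0 + 1; rw [ha y h']⟩
      | coe x =>
        have h' : ep x y ≠ 0 := h
        obtain ⟨h1, h2⟩ := gr.ne x y h'
        exact ⟨WithBot.coe_lt_coe.2 h1, by show rk y + 1 = rk x + 1 + 1; omega⟩

theorem coe_le_iff' (x y : P) : ((x : WithBot P) ≤ (y : WithBot P)) ↔ x ≤ y := WithBot.coe_le_coe

theorem phi_ne {a : P → ℤ} {ep : P → P → ℤ} {A : NCh P} {x : P} (h : phi a ep A.1 x ≠ 0) :
    mx A = x := by
  unfold phi at h
  by_cases hc : x ∈ A.1 ∧ ∀ b ∈ A.1, b ≤ x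
  · exact mx_eq A hc.1 hc.2
  · rw [if_neg hc] at h; exact absurd rfl h

/-- the image of a finite set in `WithBot P` -/
def upS (B : Finset P) : Finset (WithBot P) := B.map ⟨fun b : P => (b : WithBot P),
  emb_inj coe_le_iff'⟩

theorem mem_upS (B : Finset P) (u : WithBot P) : u ∈ upS B ↔ ∃ b ∈ B, (b : WithBot P) = u := by
  unfold upS
  simp only [Finset.mem_map, Function.Embedding.coeFn_mk]

theorem coe_mem_upS (B : Finset P) (b : P) : (b : WithBot P) ∈ upS B ↔ b ∈ B := by
  rw [mem_upS]
  constructor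
  · rintro ⟨c, hc, hcb⟩
    rw [WithBot.coe_inj] at hcb
    rwa [← hcb]
  · intro h; exact ⟨b, h, rfl⟩

theorem upS_card (B : Finset P) : (upS B).card = B.card := Finset.card_map _

theorem upS_inj {B C : Finset P} (h : upS B = upS C) : B = C := by
  unfold upS at h
  exact Finset.map_injective _ h

theorem upS_erase (B : Finset P) (x : P) : upS (B.erase x) = (upS B).erase (x : WithBot P) := by
  ext u
  rw [Finset.mem_erase, mem_upS]
  constructor
  · rintro ⟨b, hb, rfl⟩
    rw [Finset.mem_erase] at hb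
    exact ⟨fun h => hb.1 (WithBot.coe_inj.1 h), (coe_mem_upS B b).2 hb.2⟩
  · rintro ⟨h1, h2⟩
    obtain ⟨b, hb, rfl⟩ := (mem_upS B u).1 h2
    exact ⟨b, Finset.mem_erase.2 ⟨fun h => h1 (by rw [h]), hb⟩, rfl⟩

theorem phi_pos (a : P → ℤ) (ep : P → P → ℤ) (A : Finset P) (x : P) (h : x ∈ A ∧ ∀ b ∈ A, b ≤ x) :
    phi a ep A x = oc (bE a ep) (⊥ : WithBot P) (upS (A.erase x)) (x : WithBot P) := by
  unfold phi
  rw [if_pos h]
  congr 1
  ext u
  rw [mem_upS]
  simp

theorem phi_mx (a : P → ℤ) (ep : P → P → ℤ) (A : NCh P) :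
    phi a ep A.1 (mx A) = oc (bE a ep) (⊥ : WithBot P)
      (upS (A.1.erase (mx A))) ((mx A : P) : WithBot P) :=
  phi_pos a ep A.1 (mx A) ⟨mx_mem A, fun _ hb => le_mx A hb⟩

theorem iic_finite {a : P → ℤ} {ep : P → P → ℤ}
    (low : ∀ y : P, Good (bE a ep) (⊥ : WithBot P) (y : WithBot P)) (x : P) :
    (Set.Iic x).Finite := by
  have h := (low x).fin
  have h2 : (Set.Iic x) = (fun y : P => (y : WithBot P)) ⁻¹' (Set.Icc (⊥ : WithBot P) x) := by
    ext y
    simp only [Set.mem_Iic, Set.mem_preimage, Set.mem_Icc, bot_le, true_and]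
    exact (coe_le_iff' y x).symm
  rw [h2]
  exact h.preimage (WithBot.coe_injective.injOn)

theorem chains_finite (hfin : ∀ x : P, (Set.Iic x).Finite) (x : P) :
    {A : NCh P | mx A ≤ x}.Finite := by
  have h1 : {A : NCh P | mx A ≤ x} ⊆
      (fun A : NCh P => A.1) ⁻¹' ((hfin x).toFinset.powerset : Set (Finset P)) := by
    intro A hA
    simp only [Set.mem_preimage, Finset.mem_coe, Finset.mem_powerset]
    intro b hb
    simp only [Set.Finite.mem_toFinset, Set.mem_Iic]
    exact (le_mx A hb).trans hA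
  exact ((Finset.finite_toSet _).preimage (Subtype.val_injective.injOn)).subset h1

theorem lev_finite (hfin : ∀ x : P, (Set.Iic x).Finite) (x : P) :
    {w : NCh P ⊕ P | lev w ≤ x}.Finite := by
  have h1 : {w : NCh P ⊕ P | lev w ≤ x} ⊆
      Sum.inl '' {A : NCh P | mx A ≤ x} ∪ Sum.inr '' (Set.Iic x) := by
    rintro (A | y) hw
    · exact Or.inl ⟨A, hw, rfl⟩
    · exact Or.inr ⟨y, hw, rfl⟩
  exact (((chains_finite hfin x).image _).union ((hfin x).image _)).subset h1

theorem cD_le {rk : P → ℕ} {a : P → ℤ} {ep : P → P → ℤ} (gr : Gr rk ep) (u v : NCh P ⊕ P)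
    (h : cD rk a ep u v ≠ 0) : lev u ≤ lev v := by
  rcases u with A' | y <;> rcases v with A | x
  · obtain ⟨c, _, hc⟩ := dE_ne_zero (show dE A'.1 A.1 ≠ 0 from h)
    have h1 := mx_mem A'
    rw [hc] at h1
    exact le_mx A (Finset.mem_of_mem_erase h1)
  · exact (phi_ne (show phi a ep A'.1 x ≠ 0 from h)).le
  · exact absurd rfl h
  · have h1 : ep y x ≠ 0 := by
      intro h0
      apply h
      show -((-1) ^ rk x * ep y x) = 0
      rw [h0]; ring
    exact (gr.ne y x h1).1.le

/-! #### equivariance -/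

section
variable {Γ : Type*} [Group Γ] [OrdAct Γ P]

theorem nch_smul_val (g : Γ) (A : NCh P) : (g • A).1 = A.1.image (fun x => g • x) := by
  have h : (g • A).1 = A.1.map (MulAction.toPerm g).toEmbedding := rfl
  rw [h, Finset.map_eq_image]
  rfl

theorem mx_smul (g : Γ) (A : NCh P) : mx (g • A) = g • mx A := by
  apply mx_eq
  · rw [nch_smul_val]
    exact Finset.mem_image_of_mem _ (mx_mem A)
  · intro b hb
    rw [nch_smul_val] at hb
    obtain ⟨c, hc, rfl⟩ := Finset.mem_image.1 hb
    exact OrdAct.smul_le g _ _ (le_mx A hc)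

theorem lev_smul (g : Γ) (w : NCh P ⊕ P) : lev (g • w) = g • lev w := by
  rcases w with A | x
  · exact mx_smul g A
  · rfl

theorem phi_smul {a : P → ℤ} {ep : P → P → ℤ}
    (hep : ∀ (g : Γ) (x y : P), ep (g • x) (g • y) = ep x y)
    (hag : ∀ (g : Γ) (x : P), a (g • x) = a x) (g : Γ) (A : NCh P) (x : P) :
    phi a ep (g • A).1 (g • x) = phi a ep A.1 x := by
  have hle : ∀ x y : P, g • x ≤ g • y ↔ x ≤ y := smul_le_smul_iff' g
  have hinj : Function.Injective (fun x : P => g • x) := MulAction.injective g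
  rw [nch_smul_val]
  have h1 : (g • x ∈ A.1.image (fun x => g • x) ∧ ∀ b ∈ A.1.image (fun x => g • x), b ≤ g • x) ↔
      (x ∈ A.1 ∧ ∀ b ∈ A.1, b ≤ x) := by
    simp only [Finset.mem_image, forall_exists_index, and_imp, forall_apply_eq_imp_iff₂, hle,
      smul_left_cancel_iff, exists_eq_right]
  by_cases hc : x ∈ A.1 ∧ ∀ b ∈ A.1, b ≤ x
  · rw [phi_pos _ _ _ _ hc, phi_pos _ _ _ _ (h1.2 hc)]
    set G : WithBot P → WithBot P := WithBot.map (fun x => g • x) with hG
    have hG0 : G (⊥ : WithBot P) = ⊥ := rfl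
    have hG1 : ∀ y : P, G (y : WithBot P) = ((g • y : P) : WithBot P) := fun y => rfl
    have hGle : ∀ u v : WithBot P, G u ≤ G v ↔ u ≤ v := by
      intro u v
      induction u with
      | bot => rw [hG0]; simp
      | coe u =>
        induction v with
        | bot => rw [hG0, hG1]; simp
        | coe v => rw [hG1, hG1, coe_le_iff', coe_le_iff', hle]
    have hGE : ∀ u v : WithBot P, bE a ep (G u) (G v) = bE a ep u v := by
      intro u v
      induction v with
      | bot => rfl
      | coe v =>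
        induction u with
        | bot => exact hag g v
        | coe u => exact hep g u v
    have h2 : upS ((A.1.image (fun x => g • x)).erase (g • x)) =
        (upS (A.1.erase x)).map ⟨G, emb_inj hGle⟩ := by
      ext u
      rw [← Finset.image_erase hinj]
      simp only [mem_upS, Finset.mem_image, Finset.mem_map, Function.Embedding.coeFn_mk]
      constructor
      · rintro ⟨_, ⟨c, hc, rfl⟩, rfl⟩
        exact ⟨(c : WithBot P), ⟨c, hc, rfl⟩, rfl⟩
      · rintro ⟨_, ⟨c, hc, rfl⟩, rfl⟩
        exact ⟨g • c, ⟨c, hc, rfl⟩, rfl⟩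
    rw [h2, ← hG1]
    exact oc_map_emb G hGle (bE a ep) (bE a ep) hGE (⊥ : WithBot P) _ _
  · unfold phi
    rw [if_neg hc, if_neg (fun h => hc (h1.1 h))]

theorem cD_smul {rk : P → ℕ} {a : P → ℤ} {ep : P → P → ℤ}
    (hrk : ∀ (g : Γ) (x : P), rk (g • x) = rk x)
    (hep : ∀ (g : Γ) (x y : P), ep (g • x) (g • y) = ep x y)
    (hag : ∀ (g : Γ) (x : P), a (g • x) = a x) (g : Γ) (u v : NCh P ⊕ P) :
    cD rk a ep (g • u) (g • v) = cD rk a ep u v := by
  rcases u with A' | y <;> rcases v with A | x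
  · show dE (g • A').1 (g • A).1 = dE A'.1 A.1
    rw [nch_smul_val, nch_smul_val]
    exact dE_image_emb (fun x => g • x) (smul_le_smul_iff' g) A'.1 A.1
  · exact phi_smul hep hag g A' x
  · rfl
  · show -((-1) ^ rk (g • x) * ep (g • y) (g • x)) = -((-1) ^ rk x * ep y x)
    rw [hrk, hep]

end

/-! #### the fibres -/

theorem lemP_at {rk : P → ℕ} {a : P → ℤ} {ep : P → P → ℤ} (gr : Gr rk ep)
    (ha : ∀ x, a x ≠ 0 → rk x = 0)
    (low : ∀ y : P, Good (bE a ep) (⊥ : WithBot P) (y : WithBot P)) (x : P) :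
    ∃ hf : (Kset (⊥ : WithBot P) (x : WithBot P) ∅).Finite,
      Sq (Finset.insertNone hf.toFinset) (EP (bE a ep) (⊥ : WithBot P) (x : WithBot P)) ∧
      Exa (Finset.insertNone hf.toFinset) (EP (bE a ep) (⊥ : WithBot P) (x : WithBot P)) := by
  apply lemP (gr_bE gr ha) ⊥ x (WithBot.bot_lt_coe x) ∅
  · refine ⟨subset_rfl, ?_, ?_⟩
    · intro u hu; simp at hu
    · intro u hu; simp at hu
  · intro x' z hx' hz _ _
    rcases hx' with rfl | h
    · induction z with
      | bot => exact absurd hz (lt_irrefl _)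
      | coe z => exact low z
    · exact absurd h (Finset.notMem_empty _)

/-- the chains with maximum `x` -/
noncomputable def ChM (hfin : ∀ x : P, (Set.Iic x).Finite) (x : P) : Finset (NCh P) :=
  (chains_finite hfin x).toFinset.filter (fun B => mx B = x)

theorem mem_ChM (hfin : ∀ x : P, (Set.Iic x).Finite) (x : P) (B : NCh P) :
    B ∈ ChM hfin x ↔ mx B = x := by
  unfold ChM
  rw [Finset.mem_filter, Set.Finite.mem_toFinset]
  constructor
  · intro h; exact h.2
  · intro h; exact ⟨h.le, h⟩

theorem upS_mem_Kset (x : P) (B : NCh P) (h : mx B = x) :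
    upS (B.1.erase x) ∈ Kset (⊥ : WithBot P) (x : WithBot P) ∅ := by
  refine ⟨Finset.empty_subset _, ?_, ?_⟩
  · intro u hu v hv huv
    obtain ⟨b, hb, rfl⟩ := (mem_upS _ _).1 (Finset.mem_coe.1 hu)
    obtain ⟨c, hc, rfl⟩ := (mem_upS _ _).1 (Finset.mem_coe.1 hv)
    have hbc : b ≠ c := fun h => huv (by rw [h])
    rcases B.2.2 (Finset.mem_of_mem_erase hb) (Finset.mem_of_mem_erase hc) hbc with h1 | h1
    · exact Or.inl (WithBot.coe_le_coe.2 h1)
    · exact Or.inr (WithBot.coe_le_coe.2 h1)
  · intro u hu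
    obtain ⟨b, hb, rfl⟩ := (mem_upS _ _).1 hu
    rw [Finset.mem_erase] at hb
    refine ⟨WithBot.bot_lt_coe b, WithBot.coe_lt_coe.2 (lt_of_le_of_ne ?_ hb.1)⟩
    rw [← h]
    exact le_mx B hb.2

theorem upS_surj (x : P) (K : Finset (WithBot P))
    (hK : K ∈ Kset (⊥ : WithBot P) (x : WithBot P) ∅) :
    ∃ B : NCh P, mx B = x ∧ upS (B.1.erase x) = K := by
  obtain ⟨_, hch, hK2⟩ := hK
  set C : Finset P := K.preimage (fun b : P => (b : WithBot P)) (WithBot.coe_injective.injOn)
    with hC
  have hmemC : ∀ b : P, b ∈ C ↔ (b : WithBot P) ∈ K := by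
    intro b; rw [hC, Finset.mem_preimage]
  have hlt : ∀ b ∈ C, b < x := by
    intro b hb
    exact WithBot.coe_lt_coe.1 (hK2 _ ((hmemC b).1 hb)).2
  have hxC : x ∉ C := fun h => lt_irrefl x (hlt x h)
  refine ⟨⟨insert x C, Finset.insert_nonempty _ _, ?_⟩, ?_, ?_⟩
  · intro u hu v hv huv
    rw [Finset.mem_coe, Finset.mem_insert] at hu hv
    rcases hu with rfl | hu <;> rcases hv with rfl | hv
    · exact absurd rfl huv
    · exact Or.inr (hlt v hv).le
    · exact Or.inl (hlt u hu).le
    · rcases hch ((hmemC u).1 hu) ((hmemC v).1 hv) (fun h => huv (WithBot.coe_inj.1 h))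
        with h1 | h1
      · exact Or.inl (WithBot.coe_le_coe.1 h1)
      · exact Or.inr (WithBot.coe_le_coe.1 h1)
  · apply mx_eq
    · exact Finset.mem_insert_self _ _
    · intro b hb
      rcases Finset.mem_insert.1 hb with rfl | hb
      · exact le_rfl
      · exact (hlt b hb).le
  · show upS ((insert x C).erase x) = K
    rw [Finset.erase_insert hxC]
    ext u
    rw [mem_upS]
    constructor
    · rintro ⟨b, hb, rfl⟩
      exact (hmemC b).1 hb
    · intro hu
      induction u with
      | bot => exact absurd (hK2 _ hu).1 (lt_irrefl _)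
      | coe u => exact ⟨u, (hmemC u).2 hu, rfl⟩

theorem upS_injOn {x : P} {B C : NCh P} (hB : mx B = x) (hC : mx C = x)
    (h : upS (B.1.erase x) = upS (C.1.erase x)) : B = C := by
  have h1 := upS_inj h
  have h2 : x ∈ B.1 := by rw [← hB]; exact mx_mem B
  have h3 : x ∈ C.1 := by rw [← hC]; exact mx_mem C
  apply Subtype.ext
  rw [← Finset.insert_erase h2, h1, Finset.insert_erase h3]

theorem dE_upS {x : P} {B C : NCh P} (hB : mx B = x) (hC : mx C = x) :
    dE (upS (C.1.erase x)) (upS (B.1.erase x)) = dE C.1 B.1 := by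
  rw [dE_erase_max C.1 B.1 x (by rw [← hC]; exact mx_mem C) (by rw [← hB]; exact mx_mem B)
    (fun b hb => by rw [← hB]; exact le_mx B hb)]
  exact dE_map_emb (fun b : P => (b : WithBot P)) coe_le_iff' _ _

/-- the fibre over `x` -/
noncomputable def FbM (hfin : ∀ x : P, (Set.Iic x).Finite) (x : P) : Finset (NCh P ⊕ P) :=
  (ChM hfin x).disjSum {x}

theorem mem_FbM (hfin : ∀ x : P, (Set.Iic x).Finite) (x : P) (w : NCh P ⊕ P) :
    w ∈ FbM hfin x ↔ lev w = x := by
  unfold FbM
  rcases w with B | y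
  · rw [Finset.inl_mem_disjSum, mem_ChM]; rfl
  · rw [Finset.inr_mem_disjSum, Finset.mem_singleton]; rfl

/-- the fibre as the complex of Lemma P -/
noncomputable def kap (x : P) : NCh P ⊕ P → Option (Finset (WithBot P)) :=
  Sum.elim (fun B => some (upS (B.1.erase x))) (fun _ => none)

theorem kap_injOn {x : P} {u v : NCh P ⊕ P} (hu : lev u = x) (hv : lev v = x)
    (h : kap x u = kap x v) : u = v := by
  rcases u with B | y <;> rcases v with C | z
  · have h1 : upS (B.1.erase x) = upS (C.1.erase x) := Option.some.inj h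
    rw [upS_injOn hu hv h1]
  · exact absurd h (by simp [kap])
  · exact absurd h (by simp [kap])
  · have h1 : y = x := hu
    have h2 : z = x := hv
    rw [h1, h2]

theorem cD_kap {rk : P → ℕ} {a : P → ℤ} {ep : P → P → ℤ} (gr : Gr rk ep) {x : P}
    {u v : NCh P ⊕ P} (hu : lev u = x) (hv : lev v = x) :
    cD rk a ep u v = EP (bE a ep) (⊥ : WithBot P) (x : WithBot P) (kap x u) (kap x v) := by
  rcases u with B | y <;> rcases v with C | z
  · exact (dE_upS hv hu).symm
  · have h2 : z = x := hv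
    have h1 : mx B = x := hu
    subst h2
    show phi a ep B.1 z = oc (bE a ep) (⊥ : WithBot P) (upS (B.1.erase z)) (z : WithBot P)
    rw [← h1]
    exact phi_mx a ep B
  · rfl
  · have h1 : y = x := hu
    have h2 : z = x := hv
    subst h2; subst h1
    have h3 : ep y y = 0 := by
      by_contra h
      exact lt_irrefl _ (gr.ne y y h).1
    show -((-1) ^ rk y * ep y y) = 0
    rw [h3]; ring

theorem fib_ctr {rk : P → ℕ} {a : P → ℤ} {ep : P → P → ℤ} (gr : Gr rk ep)
    (ha : ∀ x, a x ≠ 0 → rk x = 0)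
    (low : ∀ y : P, Good (bE a ep) (⊥ : WithBot P) (y : WithBot P))
    (hfin : ∀ x : P, (Set.Iic x).Finite) (x : P) : Ctr (FbM hfin x) (cD rk a ep) := by
  obtain ⟨hf, hsq, hex⟩ := lemP_at gr ha low x
  obtain ⟨h, hh⟩ := (exa_iff_ctr _ _ hsq).1 hex
  have hmem : ∀ u : NCh P ⊕ P, u ∈ FbM hfin x → kap x u ∈ Finset.insertNone hf.toFinset := by
    intro u hu
    rw [mem_FbM] at hu
    rcases u with B | y
    · show some (upS (B.1.erase x)) ∈ _
      rw [Finset.some_mem_insertNone, Set.Finite.mem_toFinset]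
      exact upS_mem_Kset x B hu
    · exact Finset.none_mem_insertNone
  refine ⟨fun u v => h (kap x u) (kap x v), ?_⟩
  intro u hu v hv
  have h1 := hh _ (hmem u hu) _ (hmem v hv)
  have h2 : ∀ (i1 : Decidable (kap x u = kap x v)) (i2 : Decidable (u = v)),
      @ite ℤ (kap x u = kap x v) i1 1 0 = @ite ℤ (u = v) i2 1 0 := by
    intro i1 i2
    by_cases huv : u = v
    · rw [if_pos huv, if_pos (by rw [huv])]
    · rw [if_neg huv, if_neg (fun h => huv (kap_injOn ((mem_FbM _ _ _).1 hu)
        ((mem_FbM _ _ _).1 hv) h))]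
  refine Eq.trans ?_ (h1.trans (h2 _ _))
  apply Finset.sum_nbij (kap x)
  · intro w hw; exact hmem w hw
  · intro w hw w' hw' heq
    exact kap_injOn ((mem_FbM _ _ _).1 hw) ((mem_FbM _ _ _).1 hw') heq
  · intro o ho
    rcases o with _ | K
    · exact ⟨Sum.inr x, (mem_FbM _ _ _).2 rfl, rfl⟩
    · have hK : K ∈ Kset (⊥ : WithBot P) (x : WithBot P) ∅ := by
        have := Finset.some_mem_insertNone.1 (Finset.mem_coe.1 ho)
        exact (Set.Finite.mem_toFinset hf).1 this
      obtain ⟨B, hB, hBK⟩ := upS_surj x K hK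
      exact ⟨Sum.inl B, (mem_FbM _ _ _).2 hB, by show some _ = _; rw [hBK]⟩
  · intro w hw
    rw [mem_FbM] at hw hu hv
    rw [cD_kap gr hu hw, cD_kap gr hw hv]

/-! #### the square of the differential -/

theorem sum_dE (hfin : ∀ x : P, (Set.Iic x).Finite) (A : NCh P) (g : Finset P → ℤ)
    (hg : g ∅ = 0) :
    ∑ B ∈ (chains_finite hfin (mx A)).toFinset, g B.1 * dE B.1 A.1 =
      ∑ c ∈ A.1, g (A.1.erase c) * (-1 : ℤ) ^ pos A.1 c := by
  have h1 : ∀ B : NCh P, g B.1 * dE B.1 A.1 =
      ∑ c ∈ A.1, (if B.1 = A.1.erase c then g (A.1.erase c) * (-1 : ℤ) ^ pos A.1 c else 0) := by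
    intro B
    unfold dE
    rw [Finset.mul_sum]
    apply Finset.sum_congr rfl
    intro c _
    by_cases h : B.1 = A.1.erase c
    · rw [if_pos h, if_pos h, h]
    · rw [if_neg h, if_neg h, mul_zero]
  rw [Finset.sum_congr rfl (fun B _ => h1 B), Finset.sum_comm]
  apply Finset.sum_congr rfl
  intro c hc
  by_cases hne : (A.1.erase c).Nonempty
  · have hch : IsChain (· ≤ ·) ((A.1.erase c : Finset P) : Set P) := A.2.2.mono (by
      intro x hx
      exact Finset.mem_coe.2 (Finset.mem_of_mem_erase (Finset.mem_coe.1 hx)))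
    refine (Finset.sum_eq_single (⟨A.1.erase c, hne, hch⟩ : NCh P) ?_ ?_).trans ?_
    · intro B _ hB
      rw [if_neg]
      intro h
      exact hB (Subtype.ext h)
    · intro h
      exfalso
      apply h
      have h2 : mx (⟨A.1.erase c, hne, hch⟩ : NCh P) ≤ mx A :=
        le_mx A (Finset.mem_of_mem_erase (mx_mem (⟨A.1.erase c, hne, hch⟩ : NCh P)))
      exact (Set.Finite.mem_toFinset _).2 h2
    · exact if_pos rfl
  · rw [Finset.not_nonempty_iff_eq_empty] at hne
    rw [hne, hg, zero_mul]
    apply Finset.sum_eq_zero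
    intro B _
    rw [ite_self]

theorem cD_sq_inl_inl (hfin : ∀ x : P, (Set.Iic x).Finite) (A C : NCh P) :
    ∑ B ∈ (chains_finite hfin (mx A)).toFinset, dE C.1 B.1 * dE B.1 A.1 = 0 := by
  rw [sum_dE hfin A (fun B => dE C.1 B) (dE_empty C.1)]
  rw [← dEk_sq A.1 C.1 A.2.2]
  apply Finset.sum_congr rfl
  intro c _
  ring

theorem cD_sq_inr_inr {rk : P → ℕ} {a : P → ℤ} {ep : P → P → ℤ} (gr : Gr rk ep)
    (low : ∀ y : P, Good (bE a ep) (⊥ : WithBot P) (y : WithBot P))
    (hfin : ∀ x : P, (Set.Iic x).Finite) (x z : P) :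
    ∑ y ∈ (hfin x).toFinset, (-((-1) ^ rk y * ep z y)) * (-((-1) ^ rk x * ep y x)) = 0 := by
  have h1 : ∀ y : P, (-((-1 : ℤ) ^ rk y * ep z y)) * (-((-1) ^ rk x * ep y x)) =
      -(ep z y * ep y x) := by
    intro y
    by_cases h : ep y x = 0
    · rw [h]; ring
    · have h2 := (gr.ne y x h).2
      rw [h2]
      have h3 : (-1 : ℤ) ^ rk y * (-1) ^ (rk y + 1) = -1 := by
        rw [← pow_add, show rk y + (rk y + 1) = 2 * rk y + 1 by ring, pow_succ, pow_mul]
        simp
      calc (-((-1 : ℤ) ^ rk y * ep z y)) * (-((-1) ^ (rk y + 1) * ep y x))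
          = ((-1 : ℤ) ^ rk y * (-1) ^ (rk y + 1)) * (ep z y * ep y x) := by ring
        _ = -(ep z y * ep y x) := by rw [h3]; ring
  rw [Finset.sum_congr rfl (fun y _ => h1 y), Finset.sum_neg_distrib, neg_eq_zero]
  by_cases hzx : z ≤ x
  · have h2 := (low x).sq (z : WithBot P) (by
      rw [Set.Finite.mem_toFinset]; exact ⟨bot_le, WithBot.coe_le_coe.2 hzx⟩)
      (x : WithBot P) (by rw [Set.Finite.mem_toFinset]; exact ⟨bot_le, le_rfl⟩)
    rw [← h2]
    apply Finset.sum_of_injOn (fun y : P => (y : WithBot P))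
    · exact WithBot.coe_injective.injOn
    · intro y hy
      rw [Finset.mem_coe, Set.Finite.mem_toFinset] at hy ⊢
      exact ⟨bot_le, WithBot.coe_le_coe.2 hy⟩
    · intro u hu hu2
      rw [Set.Finite.mem_toFinset] at hu
      induction u with
      | bot =>
        have : bE a ep (z : WithBot P) (⊥ : WithBot P) = 0 := rfl
        rw [this, zero_mul]
      | coe u =>
        exfalso
        apply hu2
        refine ⟨u, ?_, rfl⟩
        rw [Finset.mem_coe, Set.Finite.mem_toFinset]
        exact WithBot.coe_le_coe.1 hu.2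
    · intro y _
      rfl
  · apply Finset.sum_eq_zero
    intro y hy
    rw [Set.Finite.mem_toFinset] at hy
    have : ep z y = 0 := by
      by_contra h
      exact hzx ((gr.ne z y h).1.le.trans hy)
    rw [this, zero_mul]

theorem cD_sq_inl_inr {rk : P → ℕ} {a : P → ℤ} {ep : P → P → ℤ} (gr : Gr rk ep)
    (ha : ∀ x, a x ≠ 0 → rk x = 0)
    (low : ∀ y : P, Good (bE a ep) (⊥ : WithBot P) (y : WithBot P))
    (hfin : ∀ x : P, (Set.Iic x).Finite) (x : P) (C : NCh P) :
    ∑ B ∈ (chains_finite hfin x).toFinset, dE C.1 B.1 * phi a ep B.1 x +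
      ∑ y ∈ (hfin x).toFinset, phi a ep C.1 y * (-((-1) ^ rk x * ep y x)) = 0 := by
  have hsec : ∑ y ∈ (hfin x).toFinset, phi a ep C.1 y * (-((-1) ^ rk x * ep y x)) =
      phi a ep C.1 (mx C) * (-((-1) ^ rk x * ep (mx C) x)) := by
    apply Finset.sum_eq_single
    · intro y _ hy
      have : phi a ep C.1 y = 0 := by
        by_contra h
        exact hy (phi_ne h).symm
      rw [this, zero_mul]
    · intro h
      rw [Set.Finite.mem_toFinset] at h
      have : ep (mx C) x = 0 := by
        by_contra h2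
        exact h (gr.ne _ _ h2).1.le
      rw [this]; ring
  rw [hsec]
  by_cases hm : mx C = x
  · have h3 : ep (mx C) x = 0 := by
      by_contra h
      have := (gr.ne _ _ h).1
      rw [hm] at this
      exact lt_irrefl _ this
    rw [h3]
    have h4 : phi a ep C.1 (mx C) * (-((-1) ^ rk x * 0)) = 0 := by ring
    rw [h4, add_zero]
    obtain ⟨hf, hsq, _⟩ := lemP_at gr ha low x
    have h5 := hsq (some (upS (C.1.erase x))) (by
      rw [Finset.some_mem_insertNone, Set.Finite.mem_toFinset]
      exact upS_mem_Kset x C hm) none Finset.none_mem_insertNone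
    rw [Finset.sum_insertNone] at h5
    have h6 : EP (bE a ep) (⊥ : WithBot P) (x : WithBot P) none none = 0 := rfl
    rw [h6, mul_zero, zero_add] at h5
    have h7 : ∑ B ∈ ChM hfin x, dE C.1 B.1 * phi a ep B.1 x = 0 := by
      rw [← h5]
      apply Finset.sum_nbij (fun B : NCh P => upS (B.1.erase x))
      · intro B hB
        rw [Set.Finite.mem_toFinset]
        exact upS_mem_Kset x B ((mem_ChM _ _ _).1 hB)
      · intro B hB B' hB' heq
        exact upS_injOn ((mem_ChM hfin x _).1 (Finset.mem_coe.1 hB))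
          ((mem_ChM hfin x _).1 (Finset.mem_coe.1 hB')) heq
      · intro K hK
        rw [Finset.mem_coe, Set.Finite.mem_toFinset] at hK
        obtain ⟨B, hB, hBK⟩ := upS_surj x K hK
        exact ⟨B, Finset.mem_coe.2 ((mem_ChM _ _ _).2 hB), hBK⟩
      · intro B hB
        rw [mem_ChM] at hB
        have e1 : EP (bE a ep) (⊥ : WithBot P) (x : WithBot P) (some (upS (C.1.erase x)))
            (some (upS (B.1.erase x))) = dE C.1 B.1 := dE_upS hB hm
        have e2 : EP (bE a ep) (⊥ : WithBot P) (x : WithBot P) (some (upS (B.1.erase x))) none =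
            phi a ep B.1 x := by
          have := phi_mx a ep B
          rw [hB] at this
          exact this.symm
        rw [e1, e2]
    rw [← h7]
    symm
    apply Finset.sum_subset
    · exact Finset.filter_subset _ _
    · intro B _ hB
      have : phi a ep B.1 x = 0 := by
        by_contra h
        exact hB ((mem_ChM _ _ _).2 (phi_ne h))
      rw [this, mul_zero]
  · -- the maximum of `C` is not `x`
    have hkey : ∀ B : NCh P, dE C.1 B.1 * phi a ep B.1 x ≠ 0 →
        x ∈ B.1 ∧ C.1 = B.1.erase x ∧ mx C < x := by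
      intro B hB
      have hB1 := phi_ne (right_ne_zero_of_mul hB)
      obtain ⟨c, hc, hCc⟩ := dE_ne_zero (left_ne_zero_of_mul hB)
      have hxB : x ∈ B.1 := by rw [← hB1]; exact mx_mem B
      have hcx : c = x := by
        by_contra hne
        apply hm
        apply mx_eq
        · rw [hCc]; exact Finset.mem_erase.2 ⟨Ne.symm hne, hxB⟩
        · intro b hb
          rw [hCc] at hb
          rw [← hB1]
          exact le_mx B (Finset.mem_of_mem_erase hb)
      rw [hcx] at hCc
      refine ⟨hxB, hCc, lt_of_le_of_ne ?_ hm⟩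
      have h1 := mx_mem C
      rw [hCc] at h1
      rw [← hB1]
      exact le_mx B (Finset.mem_of_mem_erase h1)
    by_cases hlt : mx C < x
    · have hxC : x ∉ C.1 := fun h => absurd (le_mx C h) (not_le_of_gt hlt)
      have hchain : IsChain (· ≤ ·) ((insert x C.1 : Finset P) : Set P) := by
        intro u hu v hv huv
        rw [Finset.mem_coe, Finset.mem_insert] at hu hv
        rcases hu with rfl | hu <;> rcases hv with rfl | hv
        · exact absurd rfl huv
        · exact Or.inr ((le_mx C hv).trans hlt.le)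
        · exact Or.inl ((le_mx C hu).trans hlt.le)
        · exact C.2.2 hu hv huv
      set B0 : NCh P := ⟨insert x C.1, Finset.insert_nonempty _ _, hchain⟩ with hB0
      have hB0e : B0.1.erase x = C.1 := Finset.erase_insert hxC
      have hB0x : x ∈ B0.1 := Finset.mem_insert_self _ _
      have hB0le : ∀ b ∈ B0.1, b ≤ x := by
        intro b hb
        rcases Finset.mem_insert.1 hb with rfl | hb
        · exact le_rfl
        · exact (le_mx C hb).trans hlt.le
      have hfirst : ∑ B ∈ (chains_finite hfin x).toFinset, dE C.1 B.1 * phi a ep B.1 x =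
          dE C.1 B0.1 * phi a ep B0.1 x := by
        apply Finset.sum_eq_single
        · intro B _ hB
          by_contra hne
          obtain ⟨h1, h2, _⟩ := hkey B hne
          apply hB
          apply Subtype.ext
          show B.1 = insert x C.1
          rw [h2, Finset.insert_erase h1]
        · intro h
          exfalso
          apply h
          rw [Set.Finite.mem_toFinset]
          exact (mx_eq B0 hB0x hB0le).le
      rw [hfirst]
      have e1 : dE C.1 B0.1 = (-1) ^ C.1.card := by
        conv_lhs => rw [← hB0e]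
        rw [dEk_erase B0.1 x hB0x]
        congr 1
        unfold pos
        rw [← hB0e]
        congr 1
        ext b
        rw [Finset.mem_filter, Finset.mem_erase]
        constructor
        · rintro ⟨h1, h2⟩; exact ⟨h2.ne, h1⟩
        · rintro ⟨h1, h2⟩; exact ⟨h2, lt_of_le_of_ne (hB0le b h2) h1⟩
      have e2 : phi a ep B0.1 x = phi a ep C.1 (mx C) * ep (mx C) x := by
        rw [phi_pos a ep B0.1 x ⟨hB0x, hB0le⟩, hB0e, phi_mx]
        have h3 : upS (C.1.erase (mx C)) = @Finset.erase _
            (fun a b => Classical.propDecidable (a = b)) (upS C.1) ((mx C : P) : WithBot P) := by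
          rw [upS_erase]
          exact erase_inst _ _ _ _
        rw [h3]
        apply oc_top
        · exact (coe_mem_upS _ _).2 (mx_mem C)
        · intro u hu
          obtain ⟨b, hb, rfl⟩ := (mem_upS _ _).1 hu
          exact WithBot.coe_le_coe.2 (le_mx C hb)
      rw [e1, e2]
      by_cases hz : phi a ep C.1 (mx C) * ep (mx C) x = 0
      · have : phi a ep C.1 (mx C) * (-((-1) ^ rk x * ep (mx C) x)) =
            -((-1) ^ rk x * (phi a ep C.1 (mx C) * ep (mx C) x)) := by ring
        rw [this, hz]; ring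
      · have h1 := left_ne_zero_of_mul hz
        have h2 := right_ne_zero_of_mul hz
        rw [phi_mx] at h1
        have h3 := oc_rank (gr_bE gr ha) _ _ _ h1
        have h4 : rk (mx C) + 1 = 0 + (upS (C.1.erase (mx C))).card + 1 := h3
        rw [upS_card, Finset.card_erase_of_mem (mx_mem C)] at h4
        have h5 : 0 < C.1.card := Finset.card_pos.2 C.2.1
        have h6 := (gr.ne _ _ h2).2
        have h7 : rk x = C.1.card := by omega
        rw [h7]; ring
    · have h1 : ep (mx C) x = 0 := by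
        by_contra h
        exact hlt (gr.ne _ _ h).1
      rw [h1]
      have h2 : ∑ B ∈ (chains_finite hfin x).toFinset, dE C.1 B.1 * phi a ep B.1 x = 0 := by
        apply Finset.sum_eq_zero
        intro B _
        by_contra hne
        exact hlt (hkey B hne).2.2
      rw [h2]; ring

theorem cD_fin {rk : P → ℕ} {a : P → ℤ} {ep : P → P → ℤ} (gr : Gr rk ep)
    (hfin : ∀ x : P, (Set.Iic x).Finite) (v : NCh P ⊕ P) :
    {u | cD rk a ep u v ≠ 0}.Finite :=
  (lev_finite hfin (lev v)).subset (fun u hu => cD_le gr u v hu)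

theorem cD_sq {rk : P → ℕ} {a : P → ℤ} {ep : P → P → ℤ} (gr : Gr rk ep)
    (ha : ∀ x, a x ≠ 0 → rk x = 0)
    (low : ∀ y : P, Good (bE a ep) (⊥ : WithBot P) (y : WithBot P))
    (hfin : ∀ x : P, (Set.Iic x).Finite) :
    matOp (cD rk a ep) (cD_fin gr hfin) * matOp (cD rk a ep) (cD_fin gr hfin) = 0 := by
  apply end_ext
  intro v u
  rw [Module.End.mul_apply, matOp_apply_of_subset _ _ _ u
    ((chains_finite hfin (lev v)).toFinset.disjSum (hfin (lev v)).toFinset)]
  · rw [Finset.sum_disjSum]
    simp only [matOp_single]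
    rcases v with A | x
    · rcases u with C | z
      · have h1 := cD_sq_inl_inl hfin A C
        have h2 : ∀ y ∈ (hfin (mx A)).toFinset, cD rk a ep (Sum.inl C) (Sum.inr y) *
            cD rk a ep (Sum.inr y) (Sum.inl A) = 0 := by
          intro y _
          have : cD rk a ep (Sum.inr y) (Sum.inl A) = 0 := rfl
          rw [this, mul_zero]
        show _ + ∑ y ∈ (hfin (mx A)).toFinset, cD rk a ep (Sum.inl C) (Sum.inr y) *
            cD rk a ep (Sum.inr y) (Sum.inl A) = 0
        rw [Finset.sum_eq_zero h2, add_zero]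
        exact h1
      · have h1 : ∀ B ∈ (chains_finite hfin (mx A)).toFinset, cD rk a ep (Sum.inr z) (Sum.inl B) *
            cD rk a ep (Sum.inl B) (Sum.inl A) = 0 := by
          intro B _
          have : cD rk a ep (Sum.inr z) (Sum.inl B) = 0 := rfl
          rw [this, zero_mul]
        have h2 : ∀ y ∈ (hfin (mx A)).toFinset, cD rk a ep (Sum.inr z) (Sum.inr y) *
            cD rk a ep (Sum.inr y) (Sum.inl A) = 0 := by
          intro y _
          have : cD rk a ep (Sum.inr y) (Sum.inl A) = 0 := rfl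
          rw [this, mul_zero]
        show ∑ B ∈ (chains_finite hfin (mx A)).toFinset, cD rk a ep (Sum.inr z) (Sum.inl B) *
            cD rk a ep (Sum.inl B) (Sum.inl A) +
          ∑ y ∈ (hfin (mx A)).toFinset, cD rk a ep (Sum.inr z) (Sum.inr y) *
            cD rk a ep (Sum.inr y) (Sum.inl A) = 0
        rw [Finset.sum_eq_zero h1, Finset.sum_eq_zero h2, add_zero]
    · rcases u with C | z
      · exact cD_sq_inl_inr gr ha low hfin x C
      · have h1 : ∀ B ∈ (chains_finite hfin x).toFinset, cD rk a ep (Sum.inr z) (Sum.inl B) *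
            cD rk a ep (Sum.inl B) (Sum.inr x) = 0 := by
          intro B _
          have : cD rk a ep (Sum.inr z) (Sum.inl B) = 0 := rfl
          rw [this, zero_mul]
        show ∑ B ∈ (chains_finite hfin x).toFinset, cD rk a ep (Sum.inr z) (Sum.inl B) *
            cD rk a ep (Sum.inl B) (Sum.inr x) + _ = 0
        rw [Finset.sum_eq_zero h1, zero_add]
        exact cD_sq_inr_inr gr low hfin x z
  · intro w hw
    rw [matOp_single] at hw
    have h1 := cD_le gr w v hw
    rcases w with B | y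
    · rw [Finset.inl_mem_disjSum, Set.Finite.mem_toFinset]
      exact h1
    · rw [Finset.inr_mem_disjSum, Set.Finite.mem_toFinset]
      exact h1

end aux

/-- Theorem (cone contraction). -/
theorem cone_contraction {Γ P : Type} [Group Γ] [PartialOrder P] [OrdAct Γ P]
    (rk : P → ℕ) (a : P → ℤ) (ep : P → P → ℤ) (N : ℕ) (gr : Gr rk ep) (hN : ∀ x, rk x ≤ N)
    (ha : ∀ x, a x ≠ 0 → rk x = 0)
    (low : ∀ y : P, Good (bE a ep) (⊥ : WithBot P) (y : WithBot P))
    (hfree : ∀ (g : Γ) (x : P), g • x = x → g = 1)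
    (hrk : ∀ (g : Γ) (x : P), rk (g • x) = rk x)
    (hep : ∀ (g : Γ) (x y : P), ep (g • x) (g • y) = ep x y)
    (hag : ∀ (g : Γ) (x : P), a (g • x) = a x) :
    ∃ dd hh : (NCh P ⊕ P →₀ ℤ) →ₗ[ℤ] (NCh P ⊕ P →₀ ℤ),
      (∀ u v, dd (Finsupp.single v 1) u = cD rk a ep u v) ∧
      (∀ z, dd (dd z) = 0) ∧
      (∀ z, dd (hh z) + hh (dd z) = z) ∧
      (∀ (g : Γ) (z : NCh P ⊕ P →₀ ℤ),
        hh (z.mapDomain (fun v => g • v)) = (hh z).mapDomain (fun v => g • v)) := by
  have hfin := iic_finite low
  obtain ⟨hh, h1, h2⟩ := filt_ctr (Γ := Γ) lev rk N hN lev_smul hfree (cD rk a ep)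
    (cD_fin gr hfin) (cD_smul hrk hep hag) (by
      intro u v huv
      rcases (cD_le gr u v huv).eq_or_lt with h | h
      · exact Or.inl h
      · exact Or.inr (gr.lt _ _ h)) (cD_sq gr ha low hfin) (FbM hfin) (mem_FbM hfin)
    (fib_ctr gr ha low hfin)
  refine ⟨matOp (cD rk a ep) (cD_fin gr hfin), hh, ?_, ?_, ?_, ?_⟩
  · intro u v
    exact matOp_single _ _ v u
  · intro z
    exact LinearMap.congr_fun (cD_sq gr ha low hfin) z
  · intro z
    have h3 := LinearMap.congr_fun h1 z
    exact h3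
  · intro g z
    have h3 := LinearMap.congr_fun (h2 g).eq z
    exact h3

end Pool.Agent.Helper635.PD4
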