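import Mathlib

/-!
# Combinatorial PD-complexes: definitions

`P` is a partially ordered set, thought of as (the set of vertices of) the order complex `Δ(P)`:
its `i`-simplices are the chains with `i + 1` elements, ordered by the partial order.
A group `Γ` acts on `P` by order automorphisms.
-/

open scoped Classical

namespace Pool.Agent.Helper635.PD4

/-- the number of elements of the finite set `A` strictly below `a`
(the position of the vertex `a` in the simplex `A`, counted from `0`) -/
noncomputable def pos {P : Type*} [PartialOrder P] (A : Finset P) (a : P) : ℕ :=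
  (A.filter (fun x => x < a)).card

/-- `Γ` acts on the poset `P` by order preserving maps -/
class OrdAct (Γ : Type*) (P : Type*) [Group Γ] [PartialOrder P] extends MulAction Γ P where
  smul_le : ∀ (g : Γ) (x y : P), x ≤ y → g • x ≤ g • y

/-- the `i`-simplices of the order complex of `P`: chains with `i + 1` elements -/
@[ext]
structure Simp (P : Type*) [PartialOrder P] (i : ℕ) where
  /-- the set of vertices -/
  s : Finset P
  chain : IsChain (· ≤ ·) (s : Set P)
  card : s.card = i + 1

section pos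
variable {P : Type*} [PartialOrder P]

theorem pos_lt_of_lt {A : Finset P} {a b : P} (ha : a ∈ A) (hab : a < b) : pos A a < pos A b := by
  unfold pos
  apply Finset.card_lt_card
  rw [Finset.ssubset_iff_of_subset]
  · exact ⟨a, by simp [ha, hab], by simp⟩
  · intro x hx
    simp only [Finset.mem_filter] at hx ⊢
    exact ⟨hx.1, hx.2.trans hab⟩

theorem pos_lt_card {A : Finset P} {a : P} (ha : a ∈ A) : pos A a < A.card := by
  unfold pos
  apply Finset.card_lt_card
  rw [Finset.ssubset_iff_of_subset (Finset.filter_subset _ _)]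
  exact ⟨a, ha, by simp⟩

theorem pos_injOn {A : Finset P} (hA : IsChain (· ≤ ·) (A : Set P)) :
    Set.InjOn (pos A) (A : Set P) := by
  intro a ha b hb hab
  by_contra hne
  rcases hA ha hb hne with h | h
  · exact absurd hab (pos_lt_of_lt ha (lt_of_le_of_ne h hne)).ne
  · exact absurd hab (pos_lt_of_lt hb (lt_of_le_of_ne h (Ne.symm hne))).ne'

theorem pos_image {A : Finset P} (hA : IsChain (· ≤ ·) (A : Set P)) :
    A.image (pos A) = Finset.range A.card := by
  apply Finset.eq_of_subset_of_card_le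
  · intro k hk
    simp only [Finset.mem_image] at hk
    obtain ⟨a, ha, rfl⟩ := hk
    exact Finset.mem_range.2 (pos_lt_card ha)
  · rw [Finset.card_range, Finset.card_image_of_injOn (pos_injOn hA)]

theorem card_filter_pos {A : Finset P} (hA : IsChain (· ≤ ·) (A : Set P)) (p : ℕ → Prop) :
    (A.filter (fun a => p (pos A a))).card = ((Finset.range A.card).filter p).card := by
  rw [← pos_image hA, Finset.filter_image, Finset.card_image_of_injOn]
  exact (pos_injOn hA).mono (by intro x hx; simp at hx; exact hx.1)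

end pos

section
variable {Γ : Type*} {P : Type*} [Group Γ] [PartialOrder P] [OrdAct Γ P]

theorem smul_le_smul_iff' (g : Γ) (x y : P) : g • x ≤ g • y ↔ x ≤ y := by
  constructor
  · intro h
    have := OrdAct.smul_le g⁻¹ _ _ h
    simpa using this
  · exact OrdAct.smul_le g x y

/-- the action of `Γ` on simplices -/
instance (i : ℕ) : MulAction Γ (Simp P i) where
  smul g A := ⟨A.s.map (MulAction.toPerm g).toEmbedding, by
      intro x hx y hy hxy
      simp only [Finset.coe_map, Set.mem_image] at hx hy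
      obtain ⟨x', hx', rfl⟩ := hx
      obtain ⟨y', hy', rfl⟩ := hy
      have hne : x' ≠ y' := fun h => hxy (by rw [h])
      rcases A.chain hx' hy' hne with h | h
      · exact Or.inl (OrdAct.smul_le g _ _ h)
      · exact Or.inr (OrdAct.smul_le g _ _ h), by
      rw [Finset.card_map]; exact A.card⟩
  one_smul A := by
    apply Simp.ext
    apply Finset.ext
    intro x
    show x ∈ A.s.map _ ↔ _
    simp
  mul_smul g h A := by
    apply Simp.ext
    apply Finset.ext
    intro x
    show x ∈ A.s.map _ ↔ x ∈ (A.s.map _).map _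
    simp [mul_smul]

end

section
variable {P : Type*} [PartialOrder P]

/-- the face of the simplex `A` opposite to its vertex `a` -/
noncomputable def face {i : ℕ} (A : Simp P (i + 1)) (a : {a // a ∈ A.s}) : Simp P i :=
  ⟨A.s.erase a.1, A.chain.mono (by
      intro x hx
      simp only [Finset.coe_erase, Set.mem_sdiff] at hx
      exact hx.1),
    by rw [Finset.card_erase_of_mem a.2, A.card]; rfl⟩

/-- the front `i`-face of an `n`-simplex: its `i + 1` smallest vertices -/
noncomputable def front {n : ℕ} (i : ℕ) (h : i ≤ n) (A : Simp P n) : Simp P i :=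
  ⟨A.s.filter (fun a => pos A.s a ≤ i), A.chain.mono (by
      intro x hx
      exact (Finset.mem_filter.1 (Finset.mem_coe.1 hx)).1), by
    have h1 : (Finset.range (n + 1)).filter (fun k => k ≤ i) = Finset.range (i + 1) := by
      ext k; simp only [Finset.mem_filter, Finset.mem_range]; omega
    have h2 := card_filter_pos A.chain (fun k => k ≤ i)
    rw [A.card] at h2
    rw [← Finset.card_range (i + 1), ← h1]
    convert h2⟩

/-- the back face of an `n`-simplex: its vertices in positions `i, i + 1, …, n`, where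
`i + j = n` -/
noncomputable def back {n : ℕ} (i j : ℕ) (h : i + j = n) (A : Simp P n) : Simp P j :=
  ⟨A.s.filter (fun a => i ≤ pos A.s a), A.chain.mono (by
      intro x hx
      exact (Finset.mem_filter.1 (Finset.mem_coe.1 hx)).1), by
    have h1 : (Finset.range (n + 1)).filter (fun k => i ≤ k) = Finset.Ico i (n + 1) := by
      ext k; simp only [Finset.mem_filter, Finset.mem_range, Finset.mem_Ico]; omega
    have h2 := card_filter_pos A.chain (fun k => i ≤ k)
    rw [A.card] at h2
    have h3 : j + 1 = (Finset.Ico i (n + 1)).card := by rw [Nat.card_Ico]; omega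
    rw [h3, ← h1]
    convert h2⟩

end

/-! ### chains and cochains with coefficients -/

section
variable {Γ : Type*} {P : Type*} [Group Γ] [PartialOrder P] [OrdAct Γ P]
variable {B : Type*} [AddCommGroup B]

/-- equivariant `i`-cochains `Hom_{ℤΓ}(C_i(Δ(P)), B)`, where the `ℤΓ`-module `B` is given by the
representation `ρ` -/
def Coch (P : Type*) [PartialOrder P] [OrdAct Γ P] (ρ : Representation ℤ Γ B) (i : ℕ) :
    Set (Simp P i → B) :=
  {f | ∀ (g : Γ) (A : Simp P i), f (g • A) = ρ g (f A)}

/-- the coboundary operator -/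
noncomputable def cobd {i : ℕ} (f : Simp P i → B) : Simp P (i + 1) → B :=
  fun A => ∑ a : {a // a ∈ A.s}, (-1 : ℤ) ^ pos A.s a.1 • f (face A a)

/-- equivariant cocycles -/
def Cocyc (P : Type*) [PartialOrder P] [OrdAct Γ P] (ρ : Representation ℤ Γ B) (i : ℕ) :
    Set (Simp P i → B) :=
  {f | f ∈ Coch P ρ i ∧ cobd f = 0}

/-- equivariant coboundaries -/
def Cobdr (P : Type*) [PartialOrder P] [OrdAct Γ P] (ρ : Representation ℤ Γ B) :
    (i : ℕ) → Set (Simp P i → B)
  | 0 => {0}
  | (i + 1) => {f | ∃ g ∈ Coch P ρ i, f = cobd g}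

/-- the boundary operator on chains with coefficients in the abelian group `B` -/
noncomputable def bd {i : ℕ} : (Simp P (i + 1) →₀ B) →+ (Simp P i →₀ B) :=
  Finsupp.liftAddHom (fun A : Simp P (i + 1) =>
    ∑ a : {a // a ∈ A.s}, (-1 : ℤ) ^ pos A.s a.1 • (Finsupp.singleAddHom (face A a)))

/-- the subgroup of `C_i(Δ(P)) ⊗ B` generated by the elements `gA ⊗ gb - A ⊗ b`; the quotient by
it is the group `C_i(Δ(P)) ⊗_Γ B` of `i`-chains of `Δ(P)/Γ` with coefficients in `B` -/
noncomputable def Rel (P : Type*) [PartialOrder P] [OrdAct Γ P] (ρ : Representation ℤ Γ B) (i : ℕ) :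
    AddSubgroup (Simp P i →₀ B) :=
  AddSubgroup.closure
    {z | ∃ (g : Γ) (A : Simp P i) (b : B), z = Finsupp.single (g • A) (ρ g b) - Finsupp.single A b}

/-- representatives of the cycles of the complex `C_*(Δ(P)) ⊗_Γ B` -/
def Cyc (P : Type*) [PartialOrder P] [OrdAct Γ P] (ρ : Representation ℤ Γ B) :
    (i : ℕ) → Set (Simp P i →₀ B)
  | 0 => Set.univ
  | (i + 1) => {z | bd z ∈ Rel P ρ i}

/-- representatives of the boundaries of the complex `C_*(Δ(P)) ⊗_Γ B` -/
def Bdr (P : Type*) [PartialOrder P] [OrdAct Γ P] (ρ : Representation ℤ Γ B) (i : ℕ) :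
    Set (Simp P i →₀ B) :=
  {z | ∃ y : Simp P (i + 1) →₀ B, z - bd y ∈ Rel P ρ i}

/-- the module `ℤ^w ⊗ B` with the diagonal action, for an orientation character `w` -/
def tw (w : Γ →* ℤˣ) (ρ : Representation ℤ Γ B) : Representation ℤ Γ B where
  toFun g := ((w g : ℤˣ) : ℤ) • ρ g
  map_one' := by simp
  map_mul' g h := by
    ext b
    simp only [map_mul, Units.val_mul, LinearMap.smul_apply, Module.End.mul_apply, map_smul]
    rw [smul_smul, mul_comm]

/-- the cap product of a cochain `f` with the chain `μ`: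
`f ∩ A = f(front_i A) · back_j A` for an `n`-simplex `A`, `n = i + j` -/
noncomputable def cap {n : ℕ} (i j : ℕ) (h : i + j = n) (μ : Simp P n →₀ ℤ) (f : Simp P i → B) :
    Simp P j →₀ B :=
  μ.sum (fun A m => Finsupp.single (back i j h A) (m • f (front i (by omega) A)))

end

/-! ### connectivity -/

/-- `Δ(P)` is connected (and nonempty) -/
def Conn (P : Type*) [PartialOrder P] : Prop :=
  Nonempty P ∧ ∀ x y : P, Relation.EqvGen (fun a b => a ≤ b) x y

/-- `Δ(P)` has no nontrivial connected covering: for every group `H`, every `H`-valued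
`1`-cocycle (every `H`-covering) is trivial. For connected `Δ(P)` this says `π₁(Δ(P)) = 1`. -/
def SC (P : Type*) [PartialOrder P] : Prop :=
  ∀ (H : Type) [Group H] (φ : P → P → H),
    (∀ x y z : P, x ≤ y → y ≤ z → φ x z = φ x y * φ y z) →
    ∃ f : P → H, ∀ x y : P, x ≤ y → φ x y = (f x)⁻¹ * f y

/-- `H_k(Δ(P); ℤ) = 0`, for `k ≥ 1` -/
def HZero (P : Type*) [PartialOrder P] : ℕ → Prop
  | 0 => True
  | (k + 1) => ∀ z : Simp P (k + 1) →₀ ℤ, bd z = 0 → ∃ y : Simp P (k + 2) →₀ ℤ, z = bd y

/-- The order complex `Δ(P)` with its `Γ`-action is the universal covering of a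
`PD_n`-complex `Δ(P)/Γ` with fundamental group `Γ`. -/
def IsPD (n : ℕ) (Γ P : Type) [Group Γ] [PartialOrder P] [OrdAct Γ P] : Prop :=
  (∀ (g : Γ) (x : P), g • x = x → g = 1) ∧
  (∀ i, Finite (MulAction.orbitRel.Quotient Γ (Simp P i))) ∧
  (∃ N, ∀ i, N < i → IsEmpty (Simp P i)) ∧
  Conn P ∧ SC P ∧
  ∃ (w : Γ →* ℤˣ) (μ : Simp P n →₀ ℤ),
    μ ∈ Cyc P (tw w (Representation.trivial ℤ Γ ℤ)) n ∧
    ∀ (B : Type) [AddCommGroup B] (ρ : Representation ℤ Γ B),
      (∀ (i j : ℕ) (h : i + j = n),
        (∀ f ∈ Cocyc P ρ i, cap i j h μ f ∈ Cyc P (tw w ρ) j) ∧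
        (∀ f ∈ Cobdr P ρ i, cap i j h μ f ∈ Bdr P (tw w ρ) j) ∧
        (∀ f ∈ Cocyc P ρ i, cap i j h μ f ∈ Bdr P (tw w ρ) j → f ∈ Cobdr P ρ i) ∧
        (∀ z ∈ Cyc P (tw w ρ) j, ∃ f ∈ Cocyc P ρ i, z - cap i j h μ f ∈ Bdr P (tw w ρ) j)) ∧
      (∀ i, n < i → ∀ f ∈ Cocyc P ρ i, f ∈ Cobdr P ρ i) ∧
      (∀ j, n < j → ∀ z ∈ Cyc P (tw w ρ) j, z ∈ Bdr P (tw w ρ) j)

end Pool.Agent.Helper635.PD4
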