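import Pool.Agent.Helper635_PD4.DualAux6

/-!
# Modules C2, C3: the duality theorem and the comparison of cellular and simplicial homology
-/

open scoped Classical

namespace Pool.Agent.Helper635.PD4

theorem hzero_of_cellH {P : Type} [PartialOrder P] (L : LowP P) (N : ℕ) (hN : ∀ x, L.rk x ≤ N)
    (k : ℕ) (h : CellH L.rk L.ep k) : HZero P k := hzero_of_cellH' L N hN k h

/-- the converse of `hzero_of_cellH` -/
theorem cellH_of_hzero {P : Type} [PartialOrder P] (L : LowP P) (N : ℕ) (hN : ∀ x, L.rk x ≤ N)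
    (k : ℕ) (hk : 1 ≤ k) (h : HZero P k) : CellH L.rk L.ep k := cellH_of_hzero' L N hN k hk h

theorem tw_one {Γ : Type*} [Group Γ] {B : Type*} [AddCommGroup B] (ρ : Representation ℤ Γ B) :
    tw 1 ρ = ρ := by
  apply MonoidHom.ext
  intro g
  show (((1 : Γ →* ℤˣ) g : ℤˣ) : ℤ) • ρ g = ρ g
  simp

section
variable {Γ P : Type} [Group Γ] [PartialOrder P] [OrdAct Γ P] {B : Type} [AddCommGroup B]

/-- the cap product as a homomorphism in the first variable -/
noncomputable def capH {n : ℕ} (i j : ℕ) (h : i + j = n) (f : Simp P i → B) :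
    (Simp P n →₀ ℤ) →+ (Simp P j →₀ B) :=
  Finsupp.liftAddHom (fun A => (Finsupp.singleAddHom (back i j h A)).comp
    ((smulAddHom ℤ B).flip (f (front i (by omega) A))))

theorem cap_eq {n : ℕ} (i j : ℕ) (h : i + j = n) (μ : Simp P n →₀ ℤ) (f : Simp P i → B) :
    cap i j h μ f = capH i j h f μ := by
  unfold capH
  rw [Finsupp.liftAddHom_apply]
  rfl

theorem capH_single {n : ℕ} (i j : ℕ) (h : i + j = n) (f : Simp P i → B) (A : Simp P n) (m : ℤ) :
    capH i j h f (Finsupp.single A m) =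
      Finsupp.single (back i j h A) (m • f (front i (by omega) A)) := by
  unfold capH
  rw [Finsupp.liftAddHom_apply_single]
  rfl

variable {n : ℕ} (L : LocP P n)

/-- the set of full chains with given back face is finite -/
theorem back_finite (hI : ∀ x : P, (Set.Iic x).Finite) {i j : ℕ} (h : i + j = n)
    (A2 : Simp P j) : {A : Simp P n | back i j h A = A2}.Finite := by
  obtain ⟨x, hx, hmin⟩ := exists_mn (Finset.card_pos.1 (by rw [A2.card]; omega)) A2.chain
  refine Set.Finite.of_injOn (f := fun A : Simp P n => A.s)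
    (t := (((hI x).toFinset ∪ A2.s).powerset : Set (Finset P))) ?_ ?_ (Finset.finite_toSet _)
  · intro A hA
    have hA' : back i j h A = A2 := hA
    obtain ⟨y, h1, h2, h3, h4, h5⟩ := front_back_spec h A
    rw [hA'] at h3 h4 h5
    rw [Finset.mem_coe, Finset.mem_powerset]
    show A.s ⊆ _
    rw [h5]
    intro b hb
    rw [Finset.mem_union] at hb ⊢
    rcases hb with hb | hb
    · left
      rw [Set.Finite.mem_toFinset]
      exact (h2 b hb).trans (h4 x hx)
    · exact Or.inr hb
  · intro A _ A' _ he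
    exact Simp.ext he

variable (C : ConeD Γ P L.rk L.ep (phi (aug L.rk) L.ep) (fun _ => 1))
variable (C' : ConeD Γ P (fun x => n - L.rk x) (fun x y => L.ep y x) (psi L.ori L.ep)
      (fun k => (-1) ^ (k + 1)))

/-- the formula for the cap product -/
theorem sm_cap (hI : ∀ x : P, (Set.Iic x).Finite) (ρ : Representation ℤ Γ B)
    {i j : ℕ} (h : i + j = n) (μ : Simp P n →₀ ℤ)
    (hμ : ∀ A : Simp P n, sm (Simp P n) (Representation.trivial ℤ Γ ℤ) μ A =
      cc (aug L.rk) L.ori L.ep A.s)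
    (f : Simp P i → B) (hf : ∀ (g : Γ) (A : Simp P i), f (g • A) = ρ g (f A)) (A2 : Simp P j) :
    sm (Simp P j) ρ (cap i j h μ f) A2 = ∑ x ∈ A2.s, psi L.ori L.ep A2.s x • C.Ph f x := by
  obtain ⟨x, hx, hmin⟩ := exists_mn (Finset.card_pos.1 (by rw [A2.card]; omega)) A2.chain
  have hRf := back_finite hI h A2
  rw [cap_eq, sm_map (free_simp C.free) (free_simp C.free) (Representation.trivial ℤ Γ ℤ) ρ
    (capH i j h f) ?_ A2 hRf.toFinset ?_ μ]
  · have e1 : ∀ A ∈ hRf.toFinset,
        capH i j h f (Finsupp.single A (sm (Simp P n) (Representation.trivial ℤ Γ ℤ) μ A)) A2 =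
        psi L.ori L.ep A2.s x • (phi (aug L.rk) L.ep (front i (by omega) A).s x •
          f (front i (by omega) A)) := by
      intro A hA
      have hA' : back i j h A = A2 := (Set.Finite.mem_toFinset hRf).1 hA
      obtain ⟨y, h1, h2, h3, h4, h5⟩ := front_back_spec h A
      rw [hA'] at h3 h4 h5
      have hxy : y = x := le_antisymm (h4 x hx) (hmin y h3)
      subst hxy
      rw [capH_single, hA', Finsupp.single_eq_same, hμ, h5,
        cc_join _ _ _ j _ _ _ A2.card h1 h2 h3 h4 A2.chain, smul_smul, mul_comm]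
    rw [Finset.sum_congr rfl e1, ← Finset.smul_sum]
    rw [Finset.sum_eq_single x]
    · congr 1
      rw [C.Ph_eq_sum f x (hRf.toFinset.image (fun A => front i (by omega) A))]
      · rw [Finset.sum_image]
        intro A hA A' hA' he
        have hA1 : back i j h A = A2 := (Set.Finite.mem_toFinset hRf).1 hA
        have hA1' : back i j h A' = A2 := (Set.Finite.mem_toFinset hRf).1 hA'
        obtain ⟨y, h1, h2, h3, h4, h5⟩ := front_back_spec h A
        obtain ⟨y', h1', h2', h3', h4', h5'⟩ := front_back_spec h A'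
        apply Simp.ext
        rw [h5, h5', hA1, hA1']
        have he' : front i (by omega) A = front i (by omega) A' := he
        rw [he']
      · intro A1 h0
        have h1 := phi_neD h0
        obtain ⟨A, hA, hA2, hA3⟩ := join_spec h A1 A2 x h1.1 h1.2 hx hmin
        exact Finset.mem_image.2 ⟨A, (Set.Finite.mem_toFinset hRf).2 hA3, hA2⟩
    · intro y hy hne
      have : psi L.ori L.ep A2.s y = 0 := by
        by_contra h0
        have h1 := psi_ne h0
        exact hne (le_antisymm (h1.2 x hx) (hmin y hy))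
      rw [this, zero_smul]
    · intro h0; exact absurd hx h0
  · intro g A m A'
    have e : Representation.trivial ℤ Γ ℤ g m = m := rfl
    rw [e, capH_single, capH_single, back_smul, front_smul, hf, Finsupp.single_apply,
      Finsupp.single_apply]
    by_cases h1 : back i j h A = A'
    · rw [if_pos h1, if_pos (by rw [h1]), map_zsmul]
    · rw [if_neg h1, if_neg (fun h2 => h1 (MulAction.injective g h2)), map_zero]
  · intro A m h0
    rw [capH_single, Finsupp.single_apply] at h0
    rw [Set.Finite.mem_toFinset]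
    show back i j h A = A2
    by_contra hn
    rw [if_neg hn] at h0
    exact h0 rfl

theorem sm_PH' (ρ : Representation ℤ Γ B) (j : ℕ) (w : P →₀ B) (A2 : Simp P j) :
    sm (Simp P j) ρ (C'.PH B j w) A2 = ∑ x ∈ A2.s, psi L.ori L.ep A2.s x • sm P ρ w x :=
  C'.sm_PH ρ j w A2 A2.s (fun _ h => (psi_ne h).1)

theorem sm_bD' (ρ : Representation ℤ Γ B) (w : P →₀ B) :
    sm P ρ (C'.bD B w) = C.dl (sm P ρ w) := by
  funext y
  rw [C'.sm_bD ρ w y (C.dDx y).support, C.dl_eq_sum _ y (C.dDx y).support]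
  · intro x hx
    rw [Finsupp.mem_support_iff, C.dDx_apply]
    exact hx
  · intro x hx
    rw [Finsupp.mem_support_iff, C.dDx_apply]
    exact hx

theorem bd_PH' (j : ℕ) (w : P →₀ B) :
    bd (C'.PH B (j + 1) w) = C'.PH B j (C'.bD B w) := by
  have h1 := C'.bd_PH (B := B) j w
  have h2 : ((-1 : ℤ) ^ (j + 2 + 1)) = (-1) ^ (j + 1) := by
    rw [pow_succ, pow_succ, pow_succ]; ring
  rw [h2] at h1
  have h3 := congrArg (fun z => ((-1 : ℤ) ^ (j + 1)) • z) h1
  simp only [smul_smul, ConeD.sq_one, one_smul] at h3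
  exact h3

theorem dl_Ph {i : ℕ} (f : Simp P i → B) (x : P) :
    C.dl (C.Ph f) x = ((-1 : ℤ) ^ (i + 1)) • C.Ph (cobd f) x := by
  have h1 := C.CC0 f x
  rw [one_smul] at h1
  rw [h1, smul_smul, ConeD.sq_one, one_smul]

theorem dl_Ph_zero {i : ℕ} (f : Simp P i → B) (hf : cobd f = 0) : C.dl (C.Ph f) = 0 := by
  funext x
  rw [dl_Ph, hf]
  have : C.Ph (0 : Simp P (i + 1) → B) x = 0 := lc_zero_fun _
  rw [this, smul_zero]
  rfl

variable (hI : ∀ x : P, (Set.Iic x).Finite)
variable (horb : Finite (MulAction.orbitRel.Quotient Γ P))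
variable (μ : Simp P n →₀ ℤ)
variable (hμ : ∀ A : Simp P n, sm (Simp P n) (Representation.trivial ℤ Γ ℤ) μ A =
      cc (aug L.rk) L.ori L.ep A.s)

include C C' hI horb hμ

/-- the cap product with `f` is `Ψ` of a chain corresponding to `Φ^* f` -/
theorem cap_PH (ρ : Representation ℤ Γ B) {i j : ℕ} (h : i + j = n) (f : Simp P i → B)
    (hf : ∀ (g : Γ) (A : Simp P i), f (g • A) = ρ g (f A)) :
    ∃ w : P →₀ B, sm P ρ w = C.Ph f ∧ (∀ x ∈ w.support, n - L.rk x = j) ∧
      sm (Simp P j) ρ (cap i j h μ f) = sm (Simp P j) ρ (C'.PH B j w) := by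
  obtain ⟨w, hw, hw2⟩ := sm_surj C.free horb ρ (C.Ph f) (fun g x => C.Ph_smul ρ f hf g x)
  refine ⟨w, hw, ?_, ?_⟩
  · intro x hx
    have h1 : L.rk x = i := by
      by_contra h0
      exact hw2 x hx (C.Ph_eq_zero f x h0)
    omega
  · funext A2
    rw [sm_cap L C hI ρ h μ hμ f hf, sm_PH' L C', hw]

/-- (a) -/
theorem pd_a (ρ : Representation ℤ Γ B) {i j : ℕ} (h : i + j = n) (f : Simp P i → B)
    (hf : f ∈ Cocyc P ρ i) : cap i j h μ f ∈ Cyc P ρ j := by
  rcases j with _ | j
  · trivial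
  · obtain ⟨w, hw, -, hw3⟩ := cap_PH L C C' hI horb μ hμ ρ h f hf.1
    show bd (cap i (j + 1) h μ f) ∈ RelV (Simp P j) ρ
    have h1 : cap i (j + 1) h μ f - C'.PH B (j + 1) w ∈ RelV (Simp P (j + 1)) ρ := by
      apply rel_of_sm (free_simp C.free)
      rw [map_sub, hw3, sub_self]
    have h2 := bd_rel ρ h1
    rw [map_sub] at h2
    have h3 : bd (C'.PH B (j + 1) w) ∈ RelV (Simp P j) ρ := by
      rw [bd_PH' L C']
      apply rel_of_sm (free_simp C.free)
      funext A
      rw [sm_PH' L C', sm_bD' L C C', hw, dl_Ph_zero L C f hf.2]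
      exact Finset.sum_eq_zero (fun x _ => smul_zero _)
    have h4 := AddSubgroup.add_mem _ h2 h3
    rwa [sub_add_cancel] at h4

/-- (b) -/
theorem pd_b (ρ : Representation ℤ Γ B) {i j : ℕ} (h : i + j = n) (f : Simp P i → B)
    (hf : f ∈ Cobdr P ρ i) : cap i j h μ f ∈ Bdr P ρ j := by
  rcases i with _ | i
  · have h0 : f = 0 := hf
    refine ⟨0, ?_⟩
    have : cap 0 j h μ f = 0 := by
      rw [h0]
      unfold cap
      rw [Finsupp.sum]
      apply Finset.sum_eq_zero
      intro A _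
      simp
    rw [this, map_zero, sub_zero]
    exact AddSubgroup.zero_mem _
  · obtain ⟨g, hg, rfl⟩ := hf
    have hcg : ∀ (γ : Γ) (A : Simp P (i + 1)), cobd g (γ • A) = ρ γ (cobd g A) := by
      intro γ A
      have h1 : ∀ A : Simp P (i + 1), cobd g A = lc g (bd (Finsupp.single A (1 : ℤ))) := by
        intro A
        rw [lc_bd, lc_single, one_smul]
      have h2 : bd (Finsupp.single (γ • A) (1 : ℤ)) =
          (bd (Finsupp.single A (1 : ℤ))).mapDomain (fun A' => γ • A') := by
        ext A'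
        have e : A' = γ • (γ⁻¹ • A') := (smul_inv_smul γ A').symm
        rw [e, Finsupp.mapDomain_apply (MulAction.injective γ), bd_single_apply, bd_single_apply]
        exact congrArg (fun c => c • (1 : ℤ)) (PhiAux.dE_smul γ (γ⁻¹ • A').s A.s)
      rw [h1, h1, h2]
      generalize bd (Finsupp.single A (1 : ℤ)) = z
      induction z using Finsupp.induction_linear with
      | zero => simp
      | add x y hx hy => rw [Finsupp.mapDomain_add, map_add, hx, hy, map_add, map_add]
      | single u c => rw [Finsupp.mapDomain_single, lc_single, lc_single, hg, map_zsmul]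
    obtain ⟨v, hv, -⟩ := sm_surj C.free horb ρ (fun x => ((-1 : ℤ) ^ (i + 1)) • C.Ph g x)
      (fun γ x => by rw [C.Ph_smul ρ g hg γ x, map_zsmul])
    refine ⟨C'.PH B (j + 1) v, ?_⟩
    show _ ∈ RelV (Simp P j) ρ
    apply rel_of_sm (free_simp C.free)
    rw [map_sub, sub_eq_zero, bd_PH' L C']
    funext A2
    rw [sm_cap L C hI ρ h μ hμ (cobd g) hcg, sm_PH' L C', sm_bD' L C C', hv]
    apply Finset.sum_congr rfl
    intro x _
    congr 1
    have h1 : C.dl (fun x => ((-1 : ℤ) ^ (i + 1)) • C.Ph g x) x =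
        ((-1 : ℤ) ^ (i + 1)) • C.dl (C.Ph g) x := lc_smul_fun _ _ _
    rw [h1, dl_Ph, smul_smul, ConeD.sq_one, one_smul]

/-- (c) -/
theorem pd_c (ρ : Representation ℤ Γ B) {i j : ℕ} (h : i + j = n) (f : Simp P i → B)
    (hf : f ∈ Cocyc P ρ i) (hc : cap i j h μ f ∈ Bdr P ρ j) : f ∈ Cobdr P ρ i := by
  obtain ⟨w, hw, hw2, hw3⟩ := cap_PH L C C' hI horb μ hμ ρ h f hf.1
  obtain ⟨y, hy⟩ := hc
  have hy' : sm (Simp P j) ρ (C'.PH B j w) = sm (Simp P j) ρ (bd y) := by
    have h1 := sm_rel (free_simp C.free) ρ hy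
    rw [map_sub, sub_eq_zero, hw3] at h1
    exact h1
  obtain ⟨v, hv⟩ := C'.CL2 ρ w hw2 (by
    rw [sm_bD' L C C', hw, dl_Ph_zero L C f hf.2]) y hy'
  rw [hw, sm_bD' L C C'] at hv
  exact C.CC2 ρ f hf.1 hf.2 (sm P ρ v) (fun γ x => sm_smul C.free ρ v γ x)
    (fun x _ => congrFun hv x)

/-- (d) -/
theorem pd_d (ρ : Representation ℤ Γ B) {i j : ℕ} (h : i + j = n) (z : Simp P j →₀ B)
    (hz : z ∈ Cyc P ρ j) : ∃ f ∈ Cocyc P ρ i, z - cap i j h μ f ∈ Bdr P ρ j := by
  have hz' : sm (NCh P ⊕ P) ρ (cext B C'.dd (em B j z)) = 0 := by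
    rcases j with _ | j
    · exact C'.cyc_zero ρ z
    · exact C'.cyc_succ ρ z (sm_rel (free_simp C.free) ρ hz)
  obtain ⟨w, y, hw, hy⟩ := C'.CL1 ρ z hz'
  rw [sm_bD' L C C'] at hw
  obtain ⟨f, t, hf, ht, hf2, hg⟩ := C.CC1 ρ (sm P ρ w) (fun γ x => sm_smul C.free ρ w γ x)
    (fun x => congrFun hw x) i
  obtain ⟨v, hv, -⟩ := sm_surj C.free horb ρ (fun x => (-((-1 : ℤ) ^ i)) • t x)
      (fun γ x => by rw [ht, map_zsmul])
  refine ⟨f, ⟨hf, hf2⟩, y + C'.PH B (j + 1) v, ?_⟩
  show _ ∈ RelV (Simp P j) ρ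
  apply rel_of_sm (free_simp C.free)
  rw [map_sub, sub_eq_zero, map_sub, hy, map_add, map_add bd, map_add, bd_PH' L C']
  have key : sm (Simp P j) ρ (C'.PH B j w) =
      sm (Simp P j) ρ (cap i j h μ f) + sm (Simp P j) ρ (C'.PH B j (C'.bD B v)) := by
    funext A2
    rw [Pi.add_apply, sm_cap L C hI ρ h μ hμ f hf, sm_PH' L C', sm_PH' L C', sm_bD' L C C', hv,
      ← Finset.sum_add_distrib]
    apply Finset.sum_congr rfl
    intro x _
    by_cases h0 : psi L.ori L.ep A2.s x = 0
    · rw [h0, zero_smul, zero_smul, zero_smul, add_zero]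
    · have h1 := C'.ph_ne _ _ h0
      rw [A2.card] at h1
      have h2 := L.rk_le x
      have h3 : L.rk x = i := by omega
      rw [hg x h3, ← smul_add]
      congr 1
      have h4 : C.dl (fun x => (-((-1 : ℤ) ^ i)) • t x) x =
        (-((-1 : ℤ) ^ i)) • C.dl t x := lc_smul_fun _ _ _
      rw [h4, neg_smul, sub_eq_add_neg]
  rw [key]
  abel

end

theorem pd_of_loc {Γ P : Type} [Group Γ] [PartialOrder P] [OrdAct Γ P] {n : ℕ} (L : LocP P n)
    (hfree : ∀ (g : Γ) (x : P), g • x = x → g = 1)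
    (hrk : ∀ (g : Γ) (x : P), L.rk (g • x) = L.rk x)
    (hep : ∀ (g : Γ) (x y : P), L.ep (g • x) (g • y) = L.ep x y)
    (hori : ∀ (g : Γ) (x : P), L.ori (g • x) = L.ori x)
    (horb : Finite (MulAction.orbitRel.Quotient Γ P))
    (hconn : Conn P) (hsc : SC P) : IsPD n Γ P := by
  have hI : ∀ x : P, (Set.Iic x).Finite := fun x => PhiAux.iic_finite (L.low x)
  have hag : ∀ (g : Γ) (x : P), aug L.rk (g • x) = aug L.rk x := by
    intro g x
    unfold aug
    rw [hrk]
  obtain ⟨C⟩ := exists_cone (Γ := Γ) L.rk (aug L.rk) L.ep n L.gr L.rk_le aug_ne L.low hfree hrk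
    hep hag
  obtain ⟨C'⟩ := exists_cone_dual (Γ := Γ) L hfree hrk hep hori
  have hempty : ∀ i, n < i → IsEmpty (Simp P i) := by
    intro i hi
    constructor
    intro A
    have h1 : A.s.card ≤ (Finset.range (n + 1)).card := by
      apply Finset.card_le_card_of_injOn L.rk
      · intro x _
        have := L.rk_le x
        simp only [Finset.coe_range, Set.mem_Iio]
        omega
      · intro x hx y hy hxy
        by_contra hne
        rcases A.chain hx hy hne with h2 | h2
        · exact absurd hxy (L.gr.lt _ _ (lt_of_le_of_ne h2 hne)).ne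
        · exact absurd hxy (L.gr.lt _ _ (lt_of_le_of_ne h2 (Ne.symm hne))).ne'
    rw [A.card, Finset.card_range] at h1
    omega
  obtain ⟨μ, hμ, -⟩ := sm_surj (free_simp hfree) (fin_orb hI horb n)
    (Representation.trivial ℤ Γ ℤ) (fun A : Simp P n => cc (aug L.rk) L.ori L.ep A.s)
    (fun g A => cc_smul hep hag hori g A.s)
  have hμ' : ∀ A : Simp P n, sm (Simp P n) (Representation.trivial ℤ Γ ℤ) μ A =
      cc (aug L.rk) L.ori L.ep A.s := fun A => congrFun hμ A
  refine ⟨hfree, fin_orb hI horb, ⟨n, hempty⟩, hconn, hsc, 1, μ, ?_, ?_⟩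
  · rw [tw_one]
    have h1 := pd_a L C C' hI horb μ hμ' (Representation.trivial ℤ Γ ℤ) (i := 0) (j := n)
      (by omega) (fun _ => (1 : ℤ)) ⟨fun g A => rfl, by
        funext A
        unfold cobd
        have hA := A.card
        obtain ⟨x, y, hxy, hs⟩ := Finset.card_eq_two.1 hA
        have h2 : ∑ a : {a // a ∈ A.s}, (-1 : ℤ) ^ pos A.s a.1 • (1 : ℤ) =
            ∑ a ∈ A.s, (-1 : ℤ) ^ pos A.s a := by
          rw [← Finset.sum_coe_sort A.s]
          apply Finset.sum_congr rfl
          intro a _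
          rw [smul_eq_mul, mul_one]
        rw [h2]
        have h3 : ∑ a ∈ A.s, (-1 : ℤ) ^ pos A.s a = ∑ k ∈ Finset.range A.s.card, (-1 : ℤ) ^ k := by
          rw [← pos_image A.chain, Finset.sum_image (pos_injOn A.chain)]
        rw [h3, hA]
        rfl⟩
    have h2 : cap 0 n (by omega) μ (fun _ => (1 : ℤ)) = μ := by
      unfold cap
      conv_rhs => rw [← Finsupp.sum_single μ]
      apply Finsupp.sum_congr
      intro A _
      have h3 : back 0 n (by omega) A = A := by
        apply Simp.ext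
        ext a
        rw [mem_back]
        exact ⟨fun h => h.1, fun h => ⟨h, Nat.zero_le _⟩⟩
      rw [h3, smul_eq_mul, mul_one]
    rwa [h2] at h1
  · intro B _ ρ
    rw [tw_one]
    refine ⟨?_, ?_, ?_⟩
    · intro i j h
      exact ⟨fun f hf => pd_a L C C' hI horb μ hμ' ρ h f hf,
        fun f hf => pd_b L C C' hI horb μ hμ' ρ h f hf,
        fun f hf hc => pd_c L C C' hI horb μ hμ' ρ h f hf hc,
        fun z hz => pd_d L C C' hI horb μ hμ' ρ h z hz⟩
    · intro i hi f _
      have := hempty i hi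
      rcases i with _ | i
      · omega
      · refine ⟨0, fun g A => by simp, ?_⟩
        funext A
        exact (IsEmpty.false A).elim
    · intro j hj z _
      have := hempty j hj
      refine ⟨0, ?_⟩
      have : z - bd (0 : Simp P (j + 1) →₀ B) = 0 := by
        ext A
        exact (IsEmpty.false A).elim
      rw [this]
      exact AddSubgroup.zero_mem _

end Pool.Agent.Helper635.PD4
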