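import Pool.Agent.Helper635_PD4.Cone

/-!
# Dual, part 1: coefficients and the map `sm` from chains to equivariant functions
-/

open scoped Classical

namespace Pool.Agent.Helper635.PD4

section
variable {Γ : Type*} [Group Γ] {V U : Type*} [MulAction Γ V] [MulAction Γ U]
variable {B : Type*} [AddCommGroup B]

/-- the relations `gv ⊗ gb = v ⊗ b` -/
noncomputable def RelV (V : Type*) [MulAction Γ V] (ρ : Representation ℤ Γ B) : AddSubgroup (V →₀ B) :=
  AddSubgroup.closure
    {z | ∃ (g : Γ) (v : V) (b : B), z = Finsupp.single (g • v) (ρ g b) - Finsupp.single v b}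

theorem relV_simp {P : Type*} [PartialOrder P] [OrdAct Γ P] (ρ : Representation ℤ Γ B) (i : ℕ) :
    RelV (Simp P i) ρ = Rel P ρ i := rfl

/-- `sm (v ⊗ b)` is the function `g v ↦ g b` -/
noncomputable def sm (V : Type*) [MulAction Γ V] (ρ : Representation ℤ Γ B) :
    (V →₀ B) →+ (V → B) :=
  Finsupp.liftAddHom (fun v =>
    { toFun := fun b u => if h : ∃ g : Γ, g • v = u then ρ h.choose b else 0
      map_zero' := by
        funext u
        by_cases h : ∃ g : Γ, g • v = u
        · simp [h]
        · simp [h]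
      map_add' := by
        intro a b
        funext u
        by_cases h : ∃ g : Γ, g • v = u
        · simp [h]
        · simp [h] })

theorem sm_single (ρ : Representation ℤ Γ B) (v u : V) (b : B) :
    sm V ρ (Finsupp.single v b) u = if h : ∃ g : Γ, g • v = u then ρ h.choose b else 0 := by
  unfold sm
  rw [Finsupp.liftAddHom_apply_single]
  rfl

theorem eq_of_free (hV : ∀ (g : Γ) (v : V), g • v = v → g = 1) {g g' : Γ} {v : V}
    (h : g • v = g' • v) : g = g' := by
  have h1 : (g'⁻¹ * g) • v = v := by rw [mul_smul, h, inv_smul_smul]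
  have h2 := hV _ _ h1
  rw [inv_mul_eq_one] at h2
  exact h2.symm

theorem sm_single_smul (hV : ∀ (g : Γ) (v : V), g • v = v → g = 1) (ρ : Representation ℤ Γ B)
    (g : Γ) (v : V) (b : B) : sm V ρ (Finsupp.single v b) (g • v) = ρ g b := by
  rw [sm_single]
  have h : ∃ g' : Γ, g' • v = g • v := ⟨g, rfl⟩
  rw [dif_pos h, eq_of_free hV h.choose_spec]

theorem sm_single_ne (ρ : Representation ℤ Γ B) {v u : V} (b : B) (h : ¬ ∃ g : Γ, g • v = u) :
    sm V ρ (Finsupp.single v b) u = 0 := by
  rw [sm_single, dif_neg h]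

theorem sm_single_ne_zero {ρ : Representation ℤ Γ B} {v u : V} {b : B}
    (h : sm V ρ (Finsupp.single v b) u ≠ 0) : ∃ g : Γ, g • v = u := by
  by_contra hn
  exact h (sm_single_ne ρ b hn)

theorem rho_inv_apply (ρ : Representation ℤ Γ B) (g : Γ) (b : B) : ρ g⁻¹ (ρ g b) = b := by
  rw [← Module.End.mul_apply, ← map_mul, inv_mul_cancel, map_one]; rfl

theorem rho_apply_inv (ρ : Representation ℤ Γ B) (g : Γ) (b : B) : ρ g (ρ g⁻¹ b) = b := by
  rw [← Module.End.mul_apply, ← map_mul, mul_inv_cancel, map_one]; rfl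

theorem rho_ne_zero (ρ : Representation ℤ Γ B) (g : Γ) {b : B} (hb : b ≠ 0) : ρ g b ≠ 0 := by
  intro h
  apply hb
  rw [← rho_inv_apply ρ g b, h, map_zero]

theorem rho_mul_apply (ρ : Representation ℤ Γ B) (g h : Γ) (b : B) :
    ρ (g * h) b = ρ g (ρ h b) := by
  rw [map_mul]; rfl

/-- `sm z` is equivariant -/
theorem sm_smul (hV : ∀ (g : Γ) (v : V), g • v = v → g = 1) (ρ : Representation ℤ Γ B)
    (z : V →₀ B) (g : Γ) (u : V) : sm V ρ z (g • u) = ρ g (sm V ρ z u) := by
  induction z using Finsupp.induction_linear with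
  | zero => simp
  | add a b ha hb => rw [map_add, Pi.add_apply, Pi.add_apply, ha, hb, map_add]
  | single v b =>
    by_cases h : ∃ g' : Γ, g' • v = u
    · obtain ⟨g', rfl⟩ := h
      rw [← mul_smul, sm_single_smul hV, sm_single_smul hV, rho_mul_apply]
    · have h2 : ¬ ∃ g' : Γ, g' • v = g • u := by
        rintro ⟨g', hg'⟩
        exact h ⟨g⁻¹ * g', by rw [mul_smul, hg', inv_smul_smul]⟩
      rw [sm_single_ne ρ b h, sm_single_ne ρ b h2, map_zero]

theorem sm_rel (hV : ∀ (g : Γ) (v : V), g • v = v → g = 1) (ρ : Representation ℤ Γ B)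
    {z : V →₀ B} (hz : z ∈ RelV V ρ) : sm V ρ z = 0 := by
  unfold RelV at hz
  induction hz using AddSubgroup.closure_induction with
  | mem x hx =>
    obtain ⟨g, v, b, rfl⟩ := hx
    rw [map_sub, sub_eq_zero]
    ext u
    by_cases h : ∃ g' : Γ, g' • v = u
    · obtain ⟨g', rfl⟩ := h
      rw [sm_single_smul hV]
      have e : g' • v = (g' * g⁻¹) • (g • v) := by rw [← mul_smul]; simp
      rw [e, sm_single_smul hV, ← rho_mul_apply]
      simp
    · have h2 : ¬ ∃ g' : Γ, g' • (g • v) = u := by
        rintro ⟨g', hg'⟩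
        exact h ⟨g' * g, by rw [mul_smul, hg']⟩
      rw [sm_single_ne ρ b h, sm_single_ne ρ _ h2]
  | zero => exact map_zero _
  | add x y _ _ hx hy => rw [map_add, hx, hy, add_zero]
  | neg x _ hx => rw [map_neg, hx, neg_zero]

/-- the representative of the orbit of `v` -/
noncomputable def orep (Γ : Type*) [Group Γ] {V : Type*} [MulAction Γ V] (v : V) : V :=
  Quotient.out (Quotient.mk (MulAction.orbitRel Γ V) v)

theorem orep_spec (v : V) : ∃ g : Γ, g • orep Γ v = v := by
  have h : (MulAction.orbitRel Γ V) (orep Γ v) v := Quotient.mk_out (s := MulAction.orbitRel Γ V) v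
  rw [MulAction.orbitRel_apply] at h
  obtain ⟨g, hg⟩ := h
  exact ⟨g⁻¹, by rw [← hg]; simp⟩

theorem orep_eq {v w : V} {g : Γ} (h : g • v = w) : orep Γ v = orep Γ w := by
  unfold orep
  congr 1
  apply Quotient.sound
  show (MulAction.orbitRel Γ V) v w
  rw [MulAction.orbitRel_apply]
  exact ⟨g⁻¹, by rw [← h]; simp⟩

/-- the element moving the representative to `v` -/
noncomputable def otr (Γ : Type*) [Group Γ] {V : Type*} [MulAction Γ V] (v : V) : Γ :=
  (orep_spec (Γ := Γ) v).choose

theorem otr_spec (v : V) : otr Γ v • orep Γ v = v := (orep_spec (Γ := Γ) v).choose_spec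

theorem mem_relV_single (ρ : Representation ℤ Γ B) (g : Γ) (v : V) (b : B) :
    Finsupp.single (g • v) (ρ g b) - Finsupp.single v b ∈ RelV V ρ :=
  AddSubgroup.subset_closure ⟨g, v, b, rfl⟩

/-- move everything to the orbit representatives -/
noncomputable def norm (V : Type*) [MulAction Γ V] (ρ : Representation ℤ Γ B) :
    (V →₀ B) →+ (V →₀ B) :=
  Finsupp.liftAddHom (fun v =>
    (Finsupp.singleAddHom (orep Γ v)).comp (ρ (otr Γ v)⁻¹).toAddMonoidHom)

theorem norm_single (ρ : Representation ℤ Γ B) (v : V) (b : B) :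
    norm V ρ (Finsupp.single v b) =
      Finsupp.single (orep Γ v) (ρ (otr Γ v)⁻¹ b) := by
  unfold norm
  rw [Finsupp.liftAddHom_apply_single]
  rfl

theorem sub_norm_mem (ρ : Representation ℤ Γ B) (z : V →₀ B) : z - norm V ρ z ∈ RelV V ρ := by
  induction z using Finsupp.induction_linear with
  | zero => rw [map_zero, sub_zero]; exact AddSubgroup.zero_mem _
  | add a b ha hb =>
    rw [map_add, add_sub_add_comm]
    exact AddSubgroup.add_mem _ ha hb
  | single v b =>
    rw [norm_single]
    have h1 := mem_relV_single ρ (otr Γ v) (orep Γ v) (ρ (otr Γ v)⁻¹ b)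
    rw [otr_spec, rho_apply_inv] at h1
    exact h1

theorem norm_apply_eq (hV : ∀ (g : Γ) (v : V), g • v = v → g = 1) (ρ : Representation ℤ Γ B)
    (z : V →₀ B) (u : V) :
    norm V ρ z u = if orep Γ u = u then sm V ρ z u else 0 := by
  induction z using Finsupp.induction_linear with
  | zero => simp
  | add a b ha hb =>
    rw [map_add, map_add, Finsupp.add_apply, ha, hb, Pi.add_apply]
    split_ifs <;> simp
  | single v b =>
    rw [norm_single, Finsupp.single_apply]
    by_cases h : ∃ g : Γ, g • v = u
    · obtain ⟨g, rfl⟩ := h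
      have h1 : orep Γ v = orep Γ (g • v) := orep_eq rfl
      by_cases h2 : orep Γ (g • v) = g • v
      · rw [if_pos (h1.trans h2), if_pos h2, sm_single_smul hV]
        have h3 := otr_spec (Γ := Γ) v
        rw [h1, h2, ← mul_smul] at h3
        have h4 := hV _ _ h3
        have h5 : (otr Γ v)⁻¹ = g := by rw [inv_eq_iff_mul_eq_one]; exact h4
        rw [h5]
      · rw [if_neg h2, if_neg (fun h3 => h2 (h1.symm.trans h3))]
    · rw [sm_single_ne ρ b h, if_neg]
      · simp
      · intro h2
        exact h ⟨(otr Γ v)⁻¹, by rw [← h2, inv_smul_eq_iff, otr_spec]⟩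

theorem rel_of_sm (hV : ∀ (g : Γ) (v : V), g • v = v → g = 1) (ρ : Representation ℤ Γ B)
    {z : V →₀ B} (hz : sm V ρ z = 0) : z ∈ RelV V ρ := by
  have h1 : norm V ρ z = 0 := by
    ext u
    rw [norm_apply_eq hV, hz]
    simp
  have h2 := sub_norm_mem ρ z
  rwa [h1, sub_zero] at h2

theorem rel_iff_sm (hV : ∀ (g : Γ) (v : V), g • v = v → g = 1) (ρ : Representation ℤ Γ B)
    (z : V →₀ B) : z ∈ RelV V ρ ↔ sm V ρ z = 0 := ⟨sm_rel hV ρ, rel_of_sm hV ρ⟩

/-- `sm` is onto the equivariant functions, if there are finitely many orbits. -/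
theorem sm_surj (hV : ∀ (g : Γ) (v : V), g • v = v → g = 1)
    (hfin : Finite (MulAction.orbitRel.Quotient Γ V)) (ρ : Representation ℤ Γ B)
    (f : V → B) (hf : ∀ (g : Γ) (v : V), f (g • v) = ρ g (f v)) :
    ∃ z : V →₀ B, sm V ρ z = f ∧ ∀ v ∈ z.support, f v ≠ 0 := by
  letI := Fintype.ofFinite (MulAction.orbitRel.Quotient Γ V)
  refine ⟨∑ o : MulAction.orbitRel.Quotient Γ V,
    Finsupp.single (Quotient.out o) (f (Quotient.out o)), ?_, ?_⟩
  · funext u
    rw [map_sum, Finset.sum_apply,
      Finset.sum_eq_single (Quotient.mk (MulAction.orbitRel Γ V) u)]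
    · have h1 := otr_spec (Γ := Γ) u
      unfold orep at h1
      have h2 : sm V ρ (Finsupp.single (Quotient.out (Quotient.mk (MulAction.orbitRel Γ V) u))
          (f (Quotient.out (Quotient.mk (MulAction.orbitRel Γ V) u)))) u =
          sm V ρ (Finsupp.single (Quotient.out (Quotient.mk (MulAction.orbitRel Γ V) u))
          (f (Quotient.out (Quotient.mk (MulAction.orbitRel Γ V) u))))
          (otr Γ u • Quotient.out (Quotient.mk (MulAction.orbitRel Γ V) u)) := by
        rw [h1]
      rw [h2, sm_single_smul hV, ← hf, h1]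
    · intro o _ ho
      apply sm_single_ne
      rintro ⟨g, hg⟩
      apply ho
      rw [← hg]
      conv_lhs => rw [← Quotient.out_eq o]
      apply Quotient.sound
      show (MulAction.orbitRel Γ V) _ _
      rw [MulAction.orbitRel_apply]
      exact ⟨g⁻¹, by simp⟩
    · intro h
      exact absurd (Finset.mem_univ _) h
  · intro v hv h0
    rw [Finsupp.mem_support_iff, Finsupp.finsetSum_apply] at hv
    apply hv
    apply Finset.sum_eq_zero
    intro o _
    rw [Finsupp.single_apply]
    split_ifs with h
    · rw [h]; exact h0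
    · rfl

/-- the action on singles -/
theorem sm_map {B' : Type*} [AddCommGroup B'] (hV : ∀ (g : Γ) (v : V), g • v = v → g = 1)
    (hU : ∀ (g : Γ) (v : U), g • v = v → g = 1)
    (ρ : Representation ℤ Γ B) (ρ' : Representation ℤ Γ B')
    (K : (V →₀ B) →+ (U →₀ B'))
    (hK : ∀ (g : Γ) (v : V) (b : B) (u : U),
      K (Finsupp.single (g • v) (ρ g b)) (g • u) = ρ' g (K (Finsupp.single v b) u))
    (u : U) (R : Finset V) (hR : ∀ v b, K (Finsupp.single v b) u ≠ 0 → v ∈ R) (z : V →₀ B) :
    sm U ρ' (K z) u = ∑ v ∈ R, K (Finsupp.single v (sm V ρ z v)) u := by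
  induction z using Finsupp.induction_linear with
  | zero => simp
  | add a b ha hb =>
    rw [map_add, map_add, Pi.add_apply, ha, hb, ← Finset.sum_add_distrib]
    apply Finset.sum_congr rfl
    intro v _
    rw [map_add, Pi.add_apply, Finsupp.single_add, map_add, Finsupp.add_apply]
  | single v0 b =>
    set w := K (Finsupp.single v0 b) with hw
    have h1 : sm U ρ' w u = ∑ u' ∈ w.support, sm U ρ' (Finsupp.single u' (w u')) u := by
      conv_lhs => rw [← Finsupp.sum_single w]
      rw [Finsupp.sum, map_sum, Finset.sum_apply]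
    rw [h1]
    have key : ∀ g : Γ, K (Finsupp.single (g • v0) (ρ g b)) u = ρ' g (w (g⁻¹ • u)) := by
      intro g
      have := hK g v0 b (g⁻¹ • u)
      rwa [smul_inv_smul] at this
    refine Finset.sum_bij_ne_zero
      (fun u' _ h => (sm_single_ne_zero h).choose • v0) ?_ ?_ ?_ ?_
    · intro u' hu' h
      have hg := (sm_single_ne_zero h).choose_spec
      set g := (sm_single_ne_zero h).choose
      apply hR _ (ρ g b)
      rw [key g, ← hg, inv_smul_smul]
      exact rho_ne_zero ρ' g (Finsupp.mem_support_iff.1 hu')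
    · intro u' hu' h u'' hu'' h' he
      have hg := (sm_single_ne_zero h).choose_spec
      have hg' := (sm_single_ne_zero h').choose_spec
      have e := eq_of_free hV he
      rw [e] at hg
      exact smul_left_cancel _ (hg.trans hg'.symm)
    · intro v hv hne
      have hv0 : ∃ g : Γ, g • v0 = v := by
        by_contra hn
        rw [sm_single_ne ρ b hn, Finsupp.single_zero, map_zero] at hne
        exact hne rfl
      obtain ⟨g, rfl⟩ := hv0
      rw [sm_single_smul hV, key g] at hne
      have hw0 : w (g⁻¹ • u) ≠ 0 := by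
        intro h0
        rw [h0, map_zero] at hne
        exact hne rfl
      have hsm : sm U ρ' (Finsupp.single (g⁻¹ • u) (w (g⁻¹ • u))) u ≠ 0 := by
        have e : u = g • (g⁻¹ • u) := by rw [smul_inv_smul]
        conv_lhs => rw [e]
        rw [inv_smul_smul, sm_single_smul hU]
        exact hne
      refine ⟨g⁻¹ • u, Finsupp.mem_support_iff.2 hw0, hsm, ?_⟩
      have hg := (sm_single_ne_zero hsm).choose_spec
      have e : (sm_single_ne_zero hsm).choose = g :=
        eq_of_free hU (v := g⁻¹ • u) (by rw [hg, smul_inv_smul])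
      rw [e]
    · intro u' hu' h
      have hg := (sm_single_ne_zero h).choose_spec
      set g := (sm_single_ne_zero h).choose
      rw [sm_single_smul hV, key g, ← hg, inv_smul_smul, sm_single_smul hU]

end

/-! ### coefficients -/

section
variable {V U X : Type*} {B : Type*} [AddCommGroup B]

/-- `z ⊗ b` -/
noncomputable def tens (b : B) : (V →₀ ℤ) →+ (V →₀ B) :=
  Finsupp.mapRange.addMonoidHom ((smulAddHom ℤ B).flip b)

theorem tens_apply (b : B) (z : V →₀ ℤ) (v : V) : tens b z v = z v • b := rfl

theorem tens_single (b : B) (v : V) (c : ℤ) :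
    tens b (Finsupp.single v c) = Finsupp.single v (c • b) := by
  ext u
  rw [tens_apply, Finsupp.single_apply, Finsupp.single_apply]
  split_ifs <;> simp

theorem tens_add (b b' : B) (z : V →₀ ℤ) : tens (b + b') z = tens b z + tens b' z := by
  ext u
  rw [tens_apply, Finsupp.add_apply, tens_apply, tens_apply, smul_add]

/-- extension of a homomorphism to coefficients in `B` -/
noncomputable def cext (B : Type*) [AddCommGroup B] (M : (V →₀ ℤ) →ₗ[ℤ] (U →₀ ℤ)) :
    (V →₀ B) →+ (U →₀ B) :=
  Finsupp.liftAddHom (fun v =>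
    { toFun := fun b => tens b (M (Finsupp.single v 1))
      map_zero' := by ext u; rw [tens_apply, smul_zero]; rfl
      map_add' := fun b b' => tens_add b b' _ })

theorem cext_single (M : (V →₀ ℤ) →ₗ[ℤ] (U →₀ ℤ)) (v : V) (b : B) :
    cext B M (Finsupp.single v b) = tens b (M (Finsupp.single v 1)) := by
  unfold cext
  rw [Finsupp.liftAddHom_apply_single]
  rfl

theorem cext_tens (M : (V →₀ ℤ) →ₗ[ℤ] (U →₀ ℤ)) (b : B) (z : V →₀ ℤ) :
    cext B M (tens b z) = tens b (M z) := by
  induction z using Finsupp.induction_linear with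
  | zero => simp
  | add x y hx hy => rw [map_add, map_add, hx, hy, map_add, map_add]
  | single v c =>
    rw [tens_single, cext_single]
    have : M (Finsupp.single v c) = c • M (Finsupp.single v 1) := by
      rw [← map_zsmul, Finsupp.smul_single, smul_eq_mul, mul_one]
    rw [this]
    ext u
    rw [tens_apply, tens_apply, Finsupp.smul_apply, smul_smul, smul_eq_mul, mul_comm]

theorem cext_comp (N : (U →₀ ℤ) →ₗ[ℤ] (X →₀ ℤ)) (M : (V →₀ ℤ) →ₗ[ℤ] (U →₀ ℤ)) (z : V →₀ B) :
    cext B N (cext B M z) = cext B (N.comp M) z := by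
  induction z using Finsupp.induction_linear with
  | zero => simp
  | add x y hx hy => rw [map_add, map_add, hx, hy, map_add]
  | single v b => rw [cext_single, cext_tens, cext_single]; rfl

theorem cext_add (M M' : (V →₀ ℤ) →ₗ[ℤ] (U →₀ ℤ)) (z : V →₀ B) :
    cext B (M + M') z = cext B M z + cext B M' z := by
  induction z using Finsupp.induction_linear with
  | zero => simp
  | add x y hx hy => rw [map_add, map_add, hx, hy, map_add]; abel
  | single v b => rw [cext_single, cext_single, cext_single, LinearMap.add_apply, map_add]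

theorem cext_id (z : V →₀ B) : cext B (LinearMap.id : (V →₀ ℤ) →ₗ[ℤ] (V →₀ ℤ)) z = z := by
  induction z using Finsupp.induction_linear with
  | zero => simp
  | add x y hx hy => rw [map_add, hx, hy]
  | single v b => rw [cext_single, LinearMap.id_apply, tens_single, one_smul]

theorem cext_zero (z : V →₀ B) : cext B (0 : (V →₀ ℤ) →ₗ[ℤ] (U →₀ ℤ)) z = 0 := by
  induction z using Finsupp.induction_linear with
  | zero => simp
  | add x y hx hy => rw [map_add, hx, hy, add_zero]
  | single v b => rw [cext_single, LinearMap.zero_apply, map_zero]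

theorem cext_apply (M : (V →₀ ℤ) →ₗ[ℤ] (U →₀ ℤ)) (z : V →₀ B) (u : U) :
    cext B M z u = z.sum fun v b => M (Finsupp.single v 1) u • b := by
  induction z using Finsupp.induction_linear with
  | zero => simp
  | add x y hx hy =>
    rw [map_add, Finsupp.add_apply, hx, hy, Finsupp.sum_add_index']
    · simp
    · intro a b b'; rw [smul_add]
  | single v b =>
    rw [cext_single, tens_apply, Finsupp.sum_single_index]
    rw [smul_zero]

end

section
variable {Γ : Type*} [Group Γ] {V U : Type*} [MulAction Γ V] [MulAction Γ U]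
variable {B : Type*} [AddCommGroup B]

/-- the extension of an equivariant homomorphism commutes with `sm` up to `Rel` -/
theorem cext_rel (ρ : Representation ℤ Γ B) (M : (V →₀ ℤ) →ₗ[ℤ] (U →₀ ℤ))
    (hM : ∀ (g : Γ) (z : V →₀ ℤ), M (z.mapDomain (fun v => g • v)) =
      (M z).mapDomain (fun v => g • v)) {z : V →₀ B} (hz : z ∈ RelV V ρ) :
    cext B M z ∈ RelV U ρ := by
  unfold RelV at hz
  induction hz using AddSubgroup.closure_induction with
  | mem x hx =>
    obtain ⟨g, v, b, rfl⟩ := hx
    rw [map_sub, cext_single, cext_single]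
    have h1 : M (Finsupp.single (g • v) 1) = (M (Finsupp.single v 1)).mapDomain (fun v => g • v) := by
      rw [← hM, Finsupp.mapDomain_single]
    rw [h1]
    generalize M (Finsupp.single v 1) = w
    induction w using Finsupp.induction_linear with
    | zero => simp only [Finsupp.mapDomain_zero, map_zero, sub_zero]; exact AddSubgroup.zero_mem _
    | add x y hx hy =>
      rw [Finsupp.mapDomain_add, map_add, map_add, add_sub_add_comm]
      exact AddSubgroup.add_mem _ hx hy
    | single u c =>
      rw [Finsupp.mapDomain_single, tens_single, tens_single, ← map_zsmul]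
      exact mem_relV_single ρ g u (c • b)
  | zero => rw [map_zero]; exact AddSubgroup.zero_mem _
  | add x y _ _ hx hy => rw [map_add]; exact AddSubgroup.add_mem _ hx hy
  | neg x _ hx => rw [map_neg]; exact AddSubgroup.neg_mem _ hx

end

end Pool.Agent.Helper635.PD4
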