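import Pool.Agent.Helper635_PD4.DualAux1

/-!
# Dual, part 2: consequences of a contraction of the cone, on chains
-/

open scoped Classical

namespace Pool.Agent.Helper635.PD4

section
variable {Γ P : Type*} [Group Γ] [PartialOrder P] [OrdAct Γ P]

theorem smul_s {i : ℕ} (g : Γ) (A : Simp P i) :
    (g • A).s = A.s.map (MulAction.toPerm g).toEmbedding := rfl

theorem mem_smul_s {i : ℕ} (g : Γ) (A : Simp P i) (x : P) : g • x ∈ (g • A).s ↔ x ∈ A.s := by
  rw [smul_s, Finset.mem_map]
  constructor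
  · rintro ⟨y, hy, he⟩
    have : y = x := MulAction.injective g he
    rwa [← this]
  · intro h
    exact ⟨x, h, rfl⟩

theorem mem_map_toPerm (g : Γ) (A : Finset P) (x : P) :
    g • x ∈ A.map (MulAction.toPerm g).toEmbedding ↔ x ∈ A := by
  rw [Finset.mem_map]
  constructor
  · rintro ⟨y, hy, he⟩
    have : y = x := MulAction.injective g he
    rwa [← this]
  · intro h
    exact ⟨x, h, rfl⟩

theorem smul_lt_smul_iff' (g : Γ) (x y : P) : g • x < g • y ↔ x < y := by
  rw [lt_iff_le_not_ge, lt_iff_le_not_ge, smul_le_smul_iff', smul_le_smul_iff']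

theorem pos_map (g : Γ) (A : Finset P) (x : P) :
    pos (A.map (MulAction.toPerm g).toEmbedding) (g • x) = pos A x := by
  unfold pos
  rw [Finset.filter_map, Finset.card_map]
  congr 1
  apply Finset.filter_congr
  intro y _
  exact smul_lt_smul_iff' g y x

theorem free_chain (hP : ∀ (g : Γ) (x : P), g • x = x → g = 1) (g : Γ) (A : Finset P)
    (hA : A.Nonempty) (hc : IsChain (· ≤ ·) (A : Set P))
    (h : A.map (MulAction.toPerm g).toEmbedding = A) : g = 1 := by
  obtain ⟨x, hx⟩ := hA
  have h1 := (mem_map_toPerm g A x).2 hx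
  rw [h] at h1
  have h2 := pos_map g A x
  rw [h] at h2
  exact hP g x (pos_injOn hc h1 hx h2)

theorem free_simp (hP : ∀ (g : Γ) (x : P), g • x = x → g = 1) {i : ℕ} (g : Γ) (A : Simp P i)
    (h : g • A = A) : g = 1 :=
  free_chain hP g A.s (Finset.card_pos.1 (by rw [A.card]; omega)) A.chain (congrArg Simp.s h)

theorem free_cone (hP : ∀ (g : Γ) (x : P), g • x = x → g = 1) (g : Γ) (v : NCh P ⊕ P)
    (h : g • v = v) : g = 1 := by
  rcases v with A | x
  · have h1 : (g • A : NCh P) = A := Sum.inl_injective h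
    exact free_chain hP g A.1 A.2.1 A.2.2 (congrArg Subtype.val h1)
  · exact hP g x (Sum.inr_injective h)

end

section
variable {P : Type*} [PartialOrder P]

/-- a simplex as a nonempty chain -/
def toN {k : ℕ} (A : Simp P k) : NCh P :=
  ⟨A.s, Finset.card_pos.1 (by rw [A.card]; omega), A.chain⟩

/-- inclusion of the simplices in the basis of the cone -/
def io (k : ℕ) (A : Simp P k) : NCh P ⊕ P := Sum.inl (toN A)

theorem io_inj (k : ℕ) : Function.Injective (io (P := P) k) := by
  intro A A' h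
  exact Simp.ext (congrArg Subtype.val (Sum.inl_injective h))

theorem io_ne {k k' : ℕ} (h : k ≠ k') (A : Simp P k) (A' : Simp P k') : io k A ≠ io k' A' := by
  intro he
  have h1 : A.s = A'.s := congrArg Subtype.val (Sum.inl_injective he)
  have h2 := A.card
  rw [h1, A'.card] at h2
  omega

theorem io_surj (A : NCh P) : ∃ (k : ℕ) (A' : Simp P k), io k A' = Sum.inl A := by
  refine ⟨A.1.card - 1, ⟨A.1, A.2.2, ?_⟩, rfl⟩
  have := Finset.card_pos.2 A.2.1
  omega

variable {B : Type*} [AddCommGroup B]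

/-- projection of the cone to the `k`-chains -/
noncomputable def pk (B : Type*) [AddCommGroup B] (k : ℕ) :
    (NCh P ⊕ P →₀ B) →+ (Simp P k →₀ B) :=
  Finsupp.comapDomain.addMonoidHom (io_inj k)

theorem pk_apply (k : ℕ) (z : NCh P ⊕ P →₀ B) (A : Simp P k) : pk B k z A = z (io k A) := rfl

/-- projection to the cells -/
noncomputable def pr (B : Type*) [AddCommGroup B] : (NCh P ⊕ P →₀ B) →+ (P →₀ B) :=
  Finsupp.comapDomain.addMonoidHom (Sum.inr_injective)

theorem pr_apply (z : NCh P ⊕ P →₀ B) (x : P) : pr B z x = z (Sum.inr x) := rfl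

/-- inclusion of the `k`-chains -/
noncomputable def em (B : Type*) [AddCommGroup B] (k : ℕ) :
    (Simp P k →₀ B) →+ (NCh P ⊕ P →₀ B) :=
  Finsupp.mapDomain.addMonoidHom (io k)

/-- inclusion of the cells -/
noncomputable def ka (B : Type*) [AddCommGroup B] : (P →₀ B) →+ (NCh P ⊕ P →₀ B) :=
  Finsupp.mapDomain.addMonoidHom Sum.inr

theorem em_single (k : ℕ) (A : Simp P k) (b : B) :
    em B k (Finsupp.single A b) = Finsupp.single (io k A) b := Finsupp.mapDomain_single

theorem ka_single (x : P) (b : B) :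
    ka B (Finsupp.single x b) = Finsupp.single (Sum.inr x : NCh P ⊕ P) b :=
  Finsupp.mapDomain_single

theorem em_apply_io (k : ℕ) (z : Simp P k →₀ B) (A : Simp P k) : em B k z (io k A) = z A :=
  Finsupp.mapDomain_apply (io_inj k) z A

theorem em_apply_ne (k : ℕ) (z : Simp P k →₀ B) (v : NCh P ⊕ P) (h : ∀ A : Simp P k, io k A ≠ v) :
    em B k z v = 0 := by
  apply Finsupp.mapDomain_notin_range
  rintro ⟨A, hA⟩
  exact h A hA

theorem ka_apply_inr (z : P →₀ B) (x : P) : ka B z (Sum.inr x) = z x :=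
  Finsupp.mapDomain_apply Sum.inr_injective z x

theorem ka_apply_inl (z : P →₀ B) (A : NCh P) : ka B z (Sum.inl A) = 0 := by
  apply Finsupp.mapDomain_notin_range
  rintro ⟨x, hx⟩
  exact absurd hx (by simp)

theorem pk_em (k : ℕ) (z : Simp P k →₀ B) : pk B k (em B k z) = z := by
  ext A
  rw [pk_apply, em_apply_io]

theorem pk_em_ne {k k' : ℕ} (h : k ≠ k') (z : Simp P k →₀ B) : pk B k' (em B k z) = 0 := by
  ext A
  rw [pk_apply, em_apply_ne k z _ (fun A' => io_ne h A' A)]
  rfl

theorem pr_em (k : ℕ) (z : Simp P k →₀ B) : pr B (em B k z) = 0 := by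
  ext x
  rw [pr_apply, em_apply_ne]
  · rfl
  · intro A; unfold io; simp

theorem pk_ka (k : ℕ) (z : P →₀ B) : pk B k (ka B z) = 0 := by
  ext A
  rw [pk_apply]
  exact ka_apply_inl z _

theorem pr_ka (z : P →₀ B) : pr B (ka B z) = z := by
  ext x
  rw [pr_apply, ka_apply_inr]

/-- boundary of a single simplex -/
theorem bd_single {i : ℕ} (A : Simp P (i + 1)) (b : B) :
    bd (Finsupp.single A b) = ∑ a : {a // a ∈ A.s}, (-1 : ℤ) ^ pos A.s a.1 •
      Finsupp.single (face A a) b := by
  unfold bd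
  rw [Finsupp.liftAddHom_apply_single, AddMonoidHom.finsetSum_apply]
  rfl

theorem bd_single_apply {i : ℕ} (A : Simp P (i + 1)) (b : B) (A' : Simp P i) :
    bd (Finsupp.single A b) A' = dE A'.s A.s • b := by
  rw [bd_single, Finsupp.finsetSum_apply]
  unfold dE
  rw [Finset.sum_smul, ← Finset.sum_coe_sort A.s]
  apply Finset.sum_congr rfl
  intro a _
  rw [Finsupp.smul_apply, Finsupp.single_apply]
  have h : face A a = A' ↔ A'.s = A.s.erase a.1 := by
    constructor
    · intro h; rw [← h]; rfl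
    · intro h; exact Simp.ext h.symm
  by_cases h1 : face A a = A'
  · rw [if_pos h1, if_pos (h.1 h1)]
  · rw [if_neg h1, if_neg (fun h2 => h1 (h.2 h2)), smul_zero, zero_smul]

end

/-- the data of a contracted cone -/
structure ConeD (Γ P : Type) [Group Γ] [PartialOrder P] [OrdAct Γ P] (rk : P → ℕ)
    (ep : P → P → ℤ) (ph : Finset P → P → ℤ) (ε : ℕ → ℤ) where
  dd : (NCh P ⊕ P →₀ ℤ) →ₗ[ℤ] (NCh P ⊕ P →₀ ℤ)
  hh : (NCh P ⊕ P →₀ ℤ) →ₗ[ℤ] (NCh P ⊕ P →₀ ℤ)
  dd_ll : ∀ A A' : NCh P, dd (Finsupp.single (Sum.inl A) 1) (Sum.inl A') =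
    ε A.1.card * dE A'.1 A.1
  dd_lr : ∀ (A : NCh P) (x : P), dd (Finsupp.single (Sum.inl A) 1) (Sum.inr x) = 0
  dd_rl : ∀ (x : P) (A : NCh P), dd (Finsupp.single (Sum.inr x) 1) (Sum.inl A) = ph A.1 x
  dd_rr : ∀ x y : P, dd (Finsupp.single (Sum.inr x) 1) (Sum.inr y) = -((-1) ^ rk x * ep y x)
  dd_dd : ∀ z, dd (dd z) = 0
  contr : ∀ z, dd (hh z) + hh (dd z) = z
  hh_eq : ∀ (g : Γ) (z : NCh P ⊕ P →₀ ℤ),
    hh (z.mapDomain (fun v => g • v)) = (hh z).mapDomain (fun v => g • v)
  free : ∀ (g : Γ) (x : P), g • x = x → g = 1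
  rk_smul : ∀ (g : Γ) (x : P), rk (g • x) = rk x
  ep_smul : ∀ (g : Γ) (x y : P), ep (g • x) (g • y) = ep x y
  ph_smul : ∀ (g : Γ) (A : Finset P) (x : P),
    ph (A.map (MulAction.toPerm g).toEmbedding) (g • x) = ph A x
  ep_ne : ∀ x y, ep x y ≠ 0 → rk y = rk x + 1
  ph_ne : ∀ A x, ph A x ≠ 0 → A.card = rk x + 1
  eps : ∀ k, ε k * ε k = 1

namespace ConeD
variable {Γ P : Type} [Group Γ] [PartialOrder P] [OrdAct Γ P] {rk : P → ℕ}
    {ep : P → P → ℤ} {ph : Finset P → P → ℤ} {ε : ℕ → ℤ} (C : ConeD Γ P rk ep ph ε)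
variable {B : Type} [AddCommGroup B]

/-- cells to chains -/
noncomputable def PH (B : Type) [AddCommGroup B] (k : ℕ) : (P →₀ B) →+ (Simp P k →₀ B) :=
  (pk B k).comp ((cext B C.dd).comp (ka B))

theorem PH_single_apply (k : ℕ) (x : P) (b : B) (A : Simp P k) :
    C.PH B k (Finsupp.single x b) A = ph A.s x • b := by
  unfold PH
  rw [AddMonoidHom.comp_apply, AddMonoidHom.comp_apply, ka_single, pk_apply, cext_single,
    tens_apply]
  unfold io
  rw [C.dd_rl]
  rfl

/-- sign change by the rank -/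
noncomputable def tau (rk : P → ℕ) (B : Type) [AddCommGroup B] : (P →₀ B) →+ (P →₀ B) :=
  Finsupp.liftAddHom (fun x => (Finsupp.singleAddHom x).comp (smulAddHom ℤ B ((-1) ^ rk x)))

theorem tau_single (rk : P → ℕ) (x : P) (b : B) :
    tau rk B (Finsupp.single x b) = Finsupp.single x (((-1 : ℤ) ^ rk x) • b) := by
  unfold tau
  rw [Finsupp.liftAddHom_apply_single]
  rfl

/-- the cellular boundary -/
noncomputable def bD (B : Type) [AddCommGroup B] : (P →₀ B) →+ (P →₀ B) :=
  -((pr B).comp ((cext B C.dd).comp ((ka B).comp (tau rk B))))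

theorem sq_one (k : ℕ) : ((-1 : ℤ) ^ k) * (-1) ^ k = 1 := by
  rw [← pow_add, ← two_mul, pow_mul]; norm_num

theorem bD_single_apply (x y : P) (b : B) :
    C.bD B (Finsupp.single x b) y = ep y x • b := by
  unfold bD
  rw [AddMonoidHom.neg_apply, AddMonoidHom.comp_apply, AddMonoidHom.comp_apply,
    AddMonoidHom.comp_apply, tau_single, ka_single, Finsupp.neg_apply, pr_apply, cext_single,
    tens_apply, C.dd_rr, smul_smul, ← neg_smul]
  congr 1
  have := sq_one (rk x)
  linear_combination (ep y x) * this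

theorem tau_tau (w : P →₀ B) : tau rk B (tau rk B w) = w := by
  induction w using Finsupp.induction_linear with
  | zero => simp
  | add x y hx hy => rw [map_add, map_add, hx, hy]
  | single x b => rw [tau_single, tau_single, smul_smul, sq_one, one_smul]

/-- (E3) -/
theorem pr_dd (u : NCh P ⊕ P →₀ B) : pr B (cext B C.dd u) = -(C.bD B (tau rk B (pr B u))) := by
  unfold bD
  rw [AddMonoidHom.neg_apply, neg_neg, AddMonoidHom.comp_apply, AddMonoidHom.comp_apply,
    AddMonoidHom.comp_apply, tau_tau]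
  induction u using Finsupp.induction_linear with
  | zero => simp
  | add x y hx hy =>
    rw [map_add, map_add, hx, hy, map_add, map_add, map_add, map_add]
  | single v b =>
    rcases v with A | x
    · have h1 : pr B (Finsupp.single (Sum.inl A : NCh P ⊕ P) b) = 0 := by
        ext x
        rw [pr_apply, Finsupp.single_apply, if_neg (by simp)]
        rfl
      rw [h1, map_zero, map_zero, map_zero]
      ext x
      rw [pr_apply, cext_single, tens_apply, C.dd_lr, zero_smul]
      rfl
    · rw [← ka_single, pr_ka]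

/-- (E2) -/
theorem pk_dd (k : ℕ) (u : NCh P ⊕ P →₀ B) :
    pk B k (cext B C.dd u) = ε (k + 2) • bd (pk B (k + 1) u) + C.PH B k (pr B u) := by
  induction u using Finsupp.induction_linear with
  | zero => simp
  | add x y hx hy =>
    rw [map_add, map_add, hx, hy, map_add, map_add, map_add, map_add, smul_add]
    abel
  | single v b =>
    rcases v with A | x
    · have h1 : pr B (Finsupp.single (Sum.inl A : NCh P ⊕ P) b) = 0 := by
        ext x
        rw [pr_apply, Finsupp.single_apply, if_neg (by simp)]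
        rfl
      rw [h1, map_zero, add_zero]
      obtain ⟨m, A', hA'⟩ := io_surj A
      have hA2 : A = toN A' := Sum.inl_injective hA'.symm
      by_cases hm : m = k + 1
      · subst hm
        rw [← hA', ← em_single, pk_em, em_single, hA']
        ext A''
        rw [pk_apply, cext_single, tens_apply]
        unfold io
        rw [C.dd_ll, Finsupp.smul_apply, bd_single_apply, smul_smul]
        subst hA2
        have e : (toN A').1.card = k + 2 := A'.card
        rw [e]
        rfl
      · rw [← hA', ← em_single, pk_em_ne hm, map_zero, smul_zero, em_single, hA']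
        ext A''
        rw [pk_apply, cext_single, tens_apply]
        unfold io
        rw [C.dd_ll]
        have h2 : dE (toN A'').1 A.1 = 0 := by
          unfold dE
          apply Finset.sum_eq_zero
          intro a ha
          rw [if_neg]
          intro he
          have h3 : (toN A'').1.card = k + 1 := A''.card
          rw [he, Finset.card_erase_of_mem ha] at h3
          have h4 : A.1.card = m + 1 := by rw [hA2]; exact A'.card
          omega
        rw [h2, mul_zero, zero_smul]
        rfl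
    · rw [← ka_single, pr_ka, pk_ka, map_zero, smul_zero, zero_add]
      rfl

theorem cext_dd_dd (u : NCh P ⊕ P →₀ B) : cext B C.dd (cext B C.dd u) = 0 := by
  rw [cext_comp]
  have : C.dd.comp C.dd = 0 := LinearMap.ext C.dd_dd
  rw [this, cext_zero]

theorem cext_contr (u : NCh P ⊕ P →₀ B) :
    cext B C.dd (cext B C.hh u) + cext B C.hh (cext B C.dd u) = u := by
  rw [cext_comp, cext_comp, ← cext_add]
  have : C.dd.comp C.hh + C.hh.comp C.dd = LinearMap.id := LinearMap.ext C.contr
  rw [this, cext_id]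

theorem PH_tau (k : ℕ) (w : P →₀ B) : C.PH B k (tau rk B w) = ((-1 : ℤ) ^ k) • C.PH B k w := by
  induction w using Finsupp.induction_linear with
  | zero => simp
  | add x y hx hy => rw [map_add, map_add, hx, hy, map_add, smul_add]
  | single x b =>
    ext A
    rw [tau_single, PH_single_apply, Finsupp.smul_apply, PH_single_apply, smul_smul, smul_smul]
    by_cases h : ph A.s x = 0
    · rw [h, zero_mul, mul_zero]
    · have h2 := C.ph_ne _ _ h
      rw [A.card] at h2
      have h3 : rk x = k := by omega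
      rw [h3, mul_comm]

theorem bD_tau (w : P →₀ B) : C.bD B (tau rk B w) = -(tau rk B (C.bD B w)) := by
  induction w using Finsupp.induction_linear with
  | zero => simp
  | add x y hx hy => rw [map_add, map_add, hx, hy, map_add, map_add, neg_add]
  | single x b =>
    ext y
    rw [tau_single, bD_single_apply, Finsupp.neg_apply]
    have h1 : ∀ w : P →₀ B, tau rk B w y = ((-1 : ℤ) ^ rk y) • w y := by
      intro w
      induction w using Finsupp.induction_linear with
      | zero => simp
      | add x y hx hy => rw [map_add, Finsupp.add_apply, hx, hy, Finsupp.add_apply, smul_add]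
      | single z b =>
        rw [tau_single, Finsupp.single_apply, Finsupp.single_apply]
        split_ifs with h
        · rw [h]
        · rw [smul_zero]
    rw [h1, bD_single_apply, smul_smul, smul_smul, ← neg_smul]
    by_cases h : ep y x = 0
    · rw [h]; simp
    · have h2 := C.ep_ne _ _ h
      rw [h2, pow_succ]
      congr 1
      ring

/-- (CL0) -/
theorem bd_PH (k : ℕ) (w : P →₀ B) :
    ε (k + 2) • bd (C.PH B (k + 1) w) = ((-1 : ℤ) ^ (k + 1)) • C.PH B k (C.bD B w) := by
  have h1 := C.pk_dd k (cext B C.dd (ka B w))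
  rw [cext_dd_dd, map_zero, C.pr_dd, pr_ka, map_neg] at h1
  have h2 : pk B (k + 1) (cext B C.dd (ka B w)) = C.PH B (k + 1) w := rfl
  rw [h2, bD_tau, map_neg, neg_neg, PH_tau] at h1
  rw [pow_succ, mul_comm, mul_smul, neg_one_smul, eq_neg_iff_add_eq_zero]
  exact h1.symm

theorem PH_apply (k : ℕ) (w : P →₀ B) (A : Simp P k) :
    C.PH B k w A = w.sum fun x b => ph A.s x • b := by
  induction w using Finsupp.induction_linear with
  | zero => simp
  | add x y hx hy =>
    rw [map_add, Finsupp.add_apply, hx, hy, Finsupp.sum_add_index']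
    · simp
    · intro a b b'; rw [smul_add]
  | single x b =>
    rw [PH_single_apply, Finsupp.sum_single_index]
    rw [smul_zero]

theorem tau_apply (rk : P → ℕ) (w : P →₀ B) (y : P) : tau rk B w y = ((-1 : ℤ) ^ rk y) • w y := by
  induction w using Finsupp.induction_linear with
  | zero => simp
  | add x y hx hy => rw [map_add, Finsupp.add_apply, hx, hy, Finsupp.add_apply, smul_add]
  | single z b =>
    rw [tau_single, Finsupp.single_apply, Finsupp.single_apply]
    split_ifs with h
    · rw [h]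
    · rw [smul_zero]

variable (ρ : Representation ℤ Γ B)

include C in
theorem sm_pk (k : ℕ) (u : NCh P ⊕ P →₀ B) (A : Simp P k) :
    sm (Simp P k) ρ (pk B k u) A = sm (NCh P ⊕ P) ρ u (io k A) := by
  rw [sm_map (free_cone C.free) (free_simp C.free) ρ ρ (pk B k) ?_ A {io k A} ?_ u,
    Finset.sum_singleton, pk_apply, Finsupp.single_eq_same]
  · intro g v b A'
    rw [pk_apply, pk_apply, Finsupp.single_apply, Finsupp.single_apply]
    have h : (g • v = io k (g • A')) ↔ v = io k A' := by
      show (g • v = g • io k A') ↔ _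
      exact smul_left_cancel_iff g
    by_cases h1 : v = io k A'
    · rw [if_pos h1, if_pos (h.2 h1)]
    · rw [if_neg h1, if_neg (fun h2 => h1 (h.1 h2)), map_zero]
  · intro v b h
    rw [pk_apply, Finsupp.single_apply] at h
    rw [Finset.mem_singleton]
    by_contra hn
    rw [if_neg hn] at h
    exact h rfl

include C in
theorem sm_pr (u : NCh P ⊕ P →₀ B) (x : P) :
    sm P ρ (pr B u) x = sm (NCh P ⊕ P) ρ u (Sum.inr x) := by
  rw [sm_map (free_cone C.free) C.free ρ ρ (pr B) ?_ x {Sum.inr x} ?_ u,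
    Finset.sum_singleton, pr_apply, Finsupp.single_eq_same]
  · intro g v b x'
    rw [pr_apply, pr_apply, Finsupp.single_apply, Finsupp.single_apply]
    have h : (g • v = Sum.inr (g • x')) ↔ v = Sum.inr x' := by
      show (g • v = g • (Sum.inr x' : NCh P ⊕ P)) ↔ _
      exact smul_left_cancel_iff g
    by_cases h1 : v = Sum.inr x'
    · rw [if_pos h1, if_pos (h.2 h1)]
    · rw [if_neg h1, if_neg (fun h2 => h1 (h.1 h2)), map_zero]
  · intro v b h
    rw [pr_apply, Finsupp.single_apply] at h
    rw [Finset.mem_singleton]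
    by_contra hn
    rw [if_neg hn] at h
    exact h rfl

include C in
theorem sm_eq_zero {u : NCh P ⊕ P →₀ B} (h1 : ∀ k, sm (Simp P k) ρ (pk B k u) = 0)
    (h2 : sm P ρ (pr B u) = 0) : sm (NCh P ⊕ P) ρ u = 0 := by
  funext v
  rcases v with A | x
  · obtain ⟨k, A', hA'⟩ := io_surj A
    rw [← hA', ← C.sm_pk, h1]
    rfl
  · rw [← C.sm_pr, h2]
    rfl

theorem sm_PH (k : ℕ) (w : P →₀ B) (A : Simp P k) (R : Finset P)
    (hR : ∀ x, ph A.s x ≠ 0 → x ∈ R) :
    sm (Simp P k) ρ (C.PH B k w) A = ∑ x ∈ R, ph A.s x • sm P ρ w x := by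
  rw [sm_map C.free (free_simp C.free) ρ ρ (C.PH B k) ?_ A R ?_ w]
  · apply Finset.sum_congr rfl
    intro x _
    rw [PH_single_apply]
  · intro g x b A'
    rw [PH_single_apply, PH_single_apply, smul_s, C.ph_smul, map_zsmul]
  · intro x b h
    apply hR
    intro h0
    rw [PH_single_apply, h0, zero_smul] at h
    exact h rfl

theorem sm_bD (w : P →₀ B) (y : P) (R : Finset P) (hR : ∀ x, ep y x ≠ 0 → x ∈ R) :
    sm P ρ (C.bD B w) y = ∑ x ∈ R, ep y x • sm P ρ w x := by
  rw [sm_map C.free C.free ρ ρ (C.bD B) ?_ y R ?_ w]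
  · apply Finset.sum_congr rfl
    intro x _
    rw [bD_single_apply]
  · intro g x b y'
    rw [bD_single_apply, bD_single_apply, C.ep_smul, map_zsmul]
  · intro x b h
    apply hR
    intro h0
    rw [bD_single_apply, h0, zero_smul] at h
    exact h rfl

/-- exactness of the cone modulo the relations -/
theorem exact_mod {u0 : NCh P ⊕ P →₀ B} (h : sm (NCh P ⊕ P) ρ (cext B C.dd u0) = 0) :
    sm (NCh P ⊕ P) ρ u0 = sm (NCh P ⊕ P) ρ (cext B C.dd (cext B C.hh u0)) := by
  have h1 := rel_of_sm (free_cone C.free) ρ h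
  have h2 := sm_rel (free_cone C.free) ρ (cext_rel ρ C.hh C.hh_eq h1)
  conv_lhs => rw [← C.cext_contr u0]
  rw [map_add, h2, add_zero]

include C in
theorem smul_eps (k : ℕ) (b : B) : ε k • ε k • b = b := by
  rw [smul_smul, C.eps, one_smul]

/-- (CL1) -/
theorem CL1 {k : ℕ} (z : Simp P k →₀ B)
    (hz : sm (NCh P ⊕ P) ρ (cext B C.dd (em B k z)) = 0) :
    ∃ (w : P →₀ B) (y : Simp P (k + 1) →₀ B), sm P ρ (C.bD B w) = 0 ∧
      sm (Simp P k) ρ z = sm (Simp P k) ρ (C.PH B k w + bd y) := by
  have h1 := C.exact_mod ρ hz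
  set u := cext B C.hh (em B k z) with hu
  refine ⟨((-1 : ℤ) ^ k) • tau rk B (pr B u), ε (k + 2) • pk B (k + 1) u, ?_, ?_⟩
  · have h2 : sm P ρ (pr B (cext B C.dd u)) = 0 := by
      funext x
      rw [C.sm_pr, ← h1, ← C.sm_pr, pr_em, map_zero]
    rw [C.pr_dd, map_neg, neg_eq_zero] at h2
    rw [map_zsmul, map_zsmul, h2, smul_zero]
  · rw [map_zsmul, map_zsmul, PH_tau, smul_smul, sq_one, one_smul]
    have h2 := C.pk_dd k u
    funext A
    have h3 : sm (Simp P k) ρ z A = sm (Simp P k) ρ (pk B k (em B k z)) A := by rw [pk_em]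
    rw [h3, C.sm_pk, h1, ← C.sm_pk, h2, add_comm]

/-- (CL2) -/
theorem CL2 {k : ℕ} (w : P →₀ B) (hw : ∀ x ∈ w.support, rk x = k)
    (hw2 : sm P ρ (C.bD B w) = 0) (y : Simp P (k + 1) →₀ B)
    (h : sm (Simp P k) ρ (C.PH B k w) = sm (Simp P k) ρ (bd y)) :
    ∃ v : P →₀ B, sm P ρ w = sm P ρ (C.bD B v) := by
  have htau : tau rk B w = ((-1 : ℤ) ^ k) • w := by
    ext x
    rw [tau_apply, Finsupp.smul_apply]
    by_cases hx : w x = 0
    · rw [hx, smul_zero, smul_zero]
    · rw [hw x (Finsupp.mem_support_iff.2 hx)]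
  have hpr : pr B (ka B w - em B (k + 1) (ε (k + 2) • y)) = w := by
    rw [map_sub, pr_ka, pr_em, sub_zero]
  have h1 := C.exact_mod ρ (u0 := ka B w - em B (k + 1) (ε (k + 2) • y)) (by
    apply C.sm_eq_zero ρ
    · intro k'
      rw [C.pk_dd, hpr, map_sub (pk B (k' + 1)), pk_ka, zero_sub]
      by_cases hk : k' = k
      · subst hk
        rw [pk_em, map_neg, map_zsmul, smul_neg, C.smul_eps, map_add, map_neg, h, neg_add_cancel]
      · have e1 : pk B (k' + 1) (em B (k + 1) (ε (k + 2) • y)) = 0 :=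
          pk_em_ne (by omega) _
        rw [e1, neg_zero, map_zero, smul_zero, zero_add]
        have e2 : C.PH B k' w = 0 := by
          ext A
          rw [PH_apply, Finsupp.sum]
          apply Finset.sum_eq_zero
          intro x hx
          by_cases h0 : ph A.s x = 0
          · rw [h0, zero_smul]
          · exfalso
            have e3 := C.ph_ne _ _ h0
            rw [A.card, hw x hx] at e3
            omega
        rw [e2, map_zero]
    · rw [C.pr_dd, hpr, htau, map_zsmul, map_neg, map_zsmul, hw2, smul_zero, neg_zero])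
  set u := cext B C.hh (ka B w - em B (k + 1) (ε (k + 2) • y)) with hu
  refine ⟨-(tau rk B (pr B u)), ?_⟩
  rw [map_neg, ← C.pr_dd]
  funext x
  have h3 : sm P ρ w x = sm P ρ (pr B (ka B w - em B (k + 1) (ε (k + 2) • y))) x := by rw [hpr]
  rw [h3, C.sm_pr, h1, ← C.sm_pr]

theorem cyc_zero (z : Simp P 0 →₀ B) : sm (NCh P ⊕ P) ρ (cext B C.dd (em B 0 z)) = 0 := by
  apply C.sm_eq_zero ρ
  · intro k'
    have e1 : pk B (k' + 1) (em B 0 z) = 0 := pk_em_ne (by omega) _
    rw [C.pk_dd, pr_em, map_zero, add_zero, e1, map_zero, smul_zero, map_zero]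
  · rw [C.pr_dd, pr_em, map_zero, map_zero, neg_zero, map_zero]

theorem cyc_succ {k : ℕ} (z : Simp P (k + 1) →₀ B) (h : sm (Simp P k) ρ (bd z) = 0) :
    sm (NCh P ⊕ P) ρ (cext B C.dd (em B (k + 1) z)) = 0 := by
  apply C.sm_eq_zero ρ
  · intro k'
    rw [C.pk_dd, pr_em, map_zero, add_zero]
    by_cases hk : k' = k
    · subst hk
      rw [pk_em, map_zsmul, h, smul_zero]
    · have e1 : pk B (k' + 1) (em B (k + 1) z) = 0 := pk_em_ne (by omega) _
      rw [e1, map_zero, smul_zero, map_zero]
  · rw [C.pr_dd, pr_em, map_zero, map_zero, neg_zero, map_zero]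

end ConeD

end Pool.Agent.Helper635.PD4
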