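import Pool.Agent.Helper635_PD4.DualAux2

/-!
# Dual, part 3: consequences of a contraction of the cone, on cochains
-/

open scoped Classical

namespace Pool.Agent.Helper635.PD4

section
variable {P : Type*} [PartialOrder P] {B : Type*} [AddCommGroup B]

/-- evaluation of a function on chains -/
noncomputable abbrev lc {V : Type*} (F : V → B) : (V →₀ ℤ) →ₗ[ℤ] B := Finsupp.linearCombination ℤ F

theorem lc_single {V : Type*} (F : V → B) (v : V) (c : ℤ) :
    lc F (Finsupp.single v c) = c • F v := Finsupp.linearCombination_single ℤ c v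

theorem lc_bd {k : ℕ} (f : Simp P k → B) (z : Simp P (k + 1) →₀ ℤ) :
    lc f (bd z) = lc (cobd f) z := by
  induction z using Finsupp.induction_linear with
  | zero => simp
  | add x y hx hy => rw [map_add, map_add, hx, hy, map_add]
  | single A c =>
    rw [bd_single, map_sum, lc_single]
    unfold cobd
    rw [Finset.smul_sum]
    apply Finset.sum_congr rfl
    intro a _
    rw [map_zsmul, lc_single, smul_smul, smul_smul, mul_comm]

theorem lc_em (k : ℕ) (K : NCh P ⊕ P → B) (z : Simp P k →₀ ℤ) :
    lc K (em ℤ k z) = lc (fun A => K (io k A)) z := by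
  induction z using Finsupp.induction_linear with
  | zero => simp
  | add x y hx hy => rw [map_add, map_add, hx, hy, map_add]
  | single A c => rw [em_single, lc_single, lc_single]

theorem lc_ka (K : NCh P ⊕ P → B) (z : P →₀ ℤ) :
    lc K (ka ℤ z) = lc (fun x => K (Sum.inr x)) z := by
  induction z using Finsupp.induction_linear with
  | zero => simp
  | add x y hx hy => rw [map_add, map_add, hx, hy, map_add]
  | single A c => rw [ka_single, lc_single, lc_single]

theorem lc_congr {V : Type*} {F F' : V → B} (z : V →₀ ℤ) (h : ∀ v, z v ≠ 0 → F v = F' v) :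
    lc F z = lc F' z := by
  rw [Finsupp.linearCombination_apply, Finsupp.linearCombination_apply]
  apply Finsupp.sum_congr
  intro v hv
  rw [h v (Finsupp.mem_support_iff.1 hv)]

theorem lc_zero_fun {V : Type*} (z : V →₀ ℤ) : lc (fun _ : V => (0 : B)) z = 0 := by
  rw [Finsupp.linearCombination_apply, Finsupp.sum]
  simp

theorem lc_smul_fun {V : Type*} (F : V → B) (c : ℤ) (z : V →₀ ℤ) :
    lc (fun v => c • F v) z = c • lc F z := by
  rw [Finsupp.linearCombination_apply, Finsupp.linearCombination_apply, Finsupp.smul_sum]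
  apply Finsupp.sum_congr
  intro v _
  rw [smul_smul, smul_smul, mul_comm]

theorem lc_ext {V : Type*} {L L' : (V →₀ ℤ) →ₗ[ℤ] B}
    (h : ∀ v, L (Finsupp.single v 1) = L' (Finsupp.single v 1)) (z : V →₀ ℤ) : L z = L' z := by
  have : L = L' := Finsupp.lhom_ext' (fun v => LinearMap.ext_ring (h v))
  rw [this]

end

namespace ConeD
variable {Γ P : Type} [Group Γ] [PartialOrder P] [OrdAct Γ P] {rk : P → ℕ}
    {ep : P → P → ℤ} {ph : Finset P → P → ℤ} {ε : ℕ → ℤ} (C : ConeD Γ P rk ep ph ε)
variable {B : Type} [AddCommGroup B]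

theorem dd_io_succ (k : ℕ) (A : Simp P (k + 1)) :
    C.dd (Finsupp.single (io (k + 1) A) 1) =
      ε (k + 2) • em ℤ k (bd (Finsupp.single A (1 : ℤ))) := by
  ext v
  rw [Finsupp.smul_apply]
  rcases v with A' | x
  · obtain ⟨m, A'', hA''⟩ := io_surj A'
    have hA2 : A' = toN A'' := Sum.inl_injective hA''.symm
    have h1 : C.dd (Finsupp.single (io (k + 1) A) 1) (Sum.inl A') =
        ε (k + 2) * dE A''.s A.s := by
      unfold io
      rw [C.dd_ll, hA2]
      have e : (toN A).1.card = k + 2 := A.card
      rw [e]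
      rfl
    rw [h1, ← hA'']
    by_cases hm : m = k
    · subst hm
      rw [em_apply_io, bd_single_apply, smul_eq_mul, smul_eq_mul, mul_one]
    · rw [em_apply_ne k _ _ (fun A3 => io_ne (Ne.symm hm) A3 A''), smul_zero]
      have h2 : dE A''.s A.s = 0 := by
        unfold dE
        apply Finset.sum_eq_zero
        intro a ha
        rw [if_neg]
        intro he
        have h3 := A''.card
        rw [he, Finset.card_erase_of_mem ha, A.card] at h3
        omega
      rw [h2, mul_zero]
  · unfold io
    rw [C.dd_lr]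
    have : em ℤ k (bd (Finsupp.single A (1 : ℤ))) (Sum.inr x) = 0 := by
      apply em_apply_ne
      intro A'; unfold io; simp
    rw [this, smul_zero]

theorem dd_io_zero (A : Simp P 0) : C.dd (Finsupp.single (io 0 A) 1) = 0 := by
  ext v
  rcases v with A' | x
  · unfold io
    rw [C.dd_ll]
    have h2 : dE A'.1 (toN A).1 = 0 := by
      unfold dE
      apply Finset.sum_eq_zero
      intro a ha
      rw [if_neg]
      intro he
      have h3 := Finset.card_pos.2 A'.2.1
      rw [he, Finset.card_erase_of_mem ha] at h3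
      have h4 : (toN A).1.card = 1 := A.card
      omega
    rw [h2, mul_zero]
    rfl
  · unfold io
    rw [C.dd_lr]
    rfl

/-- the fundamental chain of a cell -/
noncomputable def phx (k : ℕ) (x : P) : Simp P k →₀ ℤ := C.PH ℤ k (Finsupp.single x 1)

theorem phx_apply (k : ℕ) (x : P) (A : Simp P k) : C.phx k x A = ph A.s x := by
  unfold phx
  rw [PH_single_apply, smul_eq_mul, mul_one]

/-- the boundary of a cell -/
noncomputable def dDx (x : P) : P →₀ ℤ := C.bD ℤ (Finsupp.single x 1)

theorem dDx_apply (x y : P) : C.dDx x y = ep y x := by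
  unfold dDx
  rw [bD_single_apply, smul_eq_mul, mul_one]

theorem dd_inr (x : P) (k : ℕ) (hk : rk x = k) :
    C.dd (Finsupp.single (Sum.inr x) 1) =
      em ℤ k (C.phx k x) - ((-1 : ℤ) ^ k) • ka ℤ (C.dDx x) := by
  ext v
  rw [Finsupp.sub_apply, Finsupp.smul_apply]
  rcases v with A' | y
  · obtain ⟨m, A'', hA''⟩ := io_surj A'
    have hA2 : A' = toN A'' := Sum.inl_injective hA''.symm
    rw [C.dd_rl, ka_apply_inl, smul_zero, sub_zero]
    by_cases hm : m = k
    · subst hm
      rw [← hA'', em_apply_io, phx_apply, hA2]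
      rfl
    · rw [← hA'', em_apply_ne k _ _ (fun A3 => io_ne (Ne.symm hm) A3 A'')]
      by_contra h0
      have h1 := C.ph_ne _ _ h0
      have h2 : A'.1.card = m + 1 := by rw [hA2]; exact A''.card
      omega
  · rw [C.dd_rr, ka_apply_inr, dDx_apply]
    have : em ℤ k (C.phx k x) (Sum.inr y) = 0 := by
      apply em_apply_ne
      intro A'; unfold io; simp
    rw [this, hk, zero_sub, smul_eq_mul]

/-- the cochain map -/
noncomputable def Ph {k : ℕ} (f : Simp P k → B) (x : P) : B := lc f (C.phx k x)

/-- the cellular coboundary -/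
noncomputable def dl (g : P → B) (x : P) : B := lc g (C.dDx x)

theorem Ph_eq_zero {k : ℕ} (f : Simp P k → B) (x : P) (h : rk x ≠ k) : C.Ph f x = 0 := by
  unfold Ph
  have : C.phx k x = 0 := by
    ext A
    rw [phx_apply]
    by_contra h0
    have h1 := C.ph_ne _ _ h0
    rw [A.card] at h1
    omega
  rw [this, map_zero]

theorem dl_eq_sum (g : P → B) (x : P) (R : Finset P) (hR : ∀ y, ep y x ≠ 0 → y ∈ R) :
    C.dl g x = ∑ y ∈ R, ep y x • g y := by
  unfold dl
  rw [Finsupp.linearCombination_apply, Finsupp.sum_of_support_subset (s := R)]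
  · apply Finset.sum_congr rfl
    intro y _
    rw [dDx_apply]
  · intro y hy
    rw [Finsupp.mem_support_iff, dDx_apply] at hy
    exact hR y hy
  · intro y _
    rw [zero_smul]

theorem Ph_eq_sum {k : ℕ} (f : Simp P k → B) (x : P) (R : Finset (Simp P k))
    (hR : ∀ A : Simp P k, ph A.s x ≠ 0 → A ∈ R) :
    C.Ph f x = ∑ A ∈ R, ph A.s x • f A := by
  unfold Ph
  rw [Finsupp.linearCombination_apply, Finsupp.sum_of_support_subset (s := R)]
  · apply Finset.sum_congr rfl
    intro y _
    rw [phx_apply]
  · intro y hy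
    rw [Finsupp.mem_support_iff, phx_apply] at hy
    exact hR y hy
  · intro y _
    rw [zero_smul]

theorem lc_dd_io_succ (K : NCh P ⊕ P → B) (k : ℕ) (A : Simp P (k + 1)) :
    lc K (C.dd (Finsupp.single (io (k + 1) A) 1)) =
      ε (k + 2) • cobd (fun A' => K (io k A')) A := by
  rw [dd_io_succ, map_zsmul, lc_em, lc_bd, lc_single, one_smul]

theorem lc_dd_io_zero (K : NCh P ⊕ P → B) (A : Simp P 0) :
    lc K (C.dd (Finsupp.single (io 0 A) 1)) = 0 := by
  rw [dd_io_zero, map_zero]

theorem lc_dd_inr (K : NCh P ⊕ P → B) (x : P) (k : ℕ) (hk : rk x = k) :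
    lc K (C.dd (Finsupp.single (Sum.inr x) 1)) =
      C.Ph (fun A' => K (io k A')) x - ((-1 : ℤ) ^ k) • C.dl (fun y => K (Sum.inr y)) x := by
  rw [C.dd_inr x k hk, map_sub, map_zsmul, lc_em, lc_ka]
  rfl

/-- a closed function is exact -/
theorem exact_fun (ρ : Representation ℤ Γ B) (F : NCh P ⊕ P → B)
    (hF : ∀ (g : Γ) (v : NCh P ⊕ P), F (g • v) = ρ g (F v))
    (h : ∀ v, lc F (C.dd (Finsupp.single v 1)) = 0) :
    ∃ K : NCh P ⊕ P → B, (∀ (g : Γ) (v : NCh P ⊕ P), K (g • v) = ρ g (K v)) ∧
      ∀ v, F v = lc K (C.dd (Finsupp.single v 1)) := by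
  refine ⟨fun v => lc F (C.hh (Finsupp.single v 1)), ?_, ?_⟩
  · intro g v
    have h1 : C.hh (Finsupp.single (g • v) 1) =
        (C.hh (Finsupp.single v 1)).mapDomain (fun v => g • v) := by
      rw [← C.hh_eq, Finsupp.mapDomain_single]
    show lc F (C.hh (Finsupp.single (g • v) 1)) = ρ g (lc F (C.hh (Finsupp.single v 1)))
    rw [h1]
    generalize C.hh (Finsupp.single v 1) = w
    induction w using Finsupp.induction_linear with
    | zero => simp
    | add x y hx hy => rw [Finsupp.mapDomain_add, map_add, hx, hy, map_add, map_add]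
    | single u c => rw [Finsupp.mapDomain_single, lc_single, lc_single, hF, map_zsmul]
  · intro v
    have h2 : ∀ z : NCh P ⊕ P →₀ ℤ, lc F (C.dd z) = 0 := by
      intro z
      have := lc_ext (L := (lc F).comp C.dd) (L' := 0) (fun v => h v) z
      exact this
    have h3 : ∀ z : NCh P ⊕ P →₀ ℤ,
        lc (fun v => lc F (C.hh (Finsupp.single v 1))) z = lc F (C.hh z) := by
      intro z
      have := lc_ext (L := lc (fun v => lc F (C.hh (Finsupp.single v 1))))
        (L' := (lc F).comp C.hh) (fun v => by
          rw [lc_single, one_smul]; rfl) z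
      exact this
    rw [h3]
    have h4 := congrArg (lc F) (C.contr (Finsupp.single v 1))
    rw [map_add, h2, zero_add, lc_single, one_smul] at h4
    exact h4.symm

/-- (CC1) -/
theorem CC1 (ρ : Representation ℤ Γ B) (g : P → B) (hg : ∀ (γ : Γ) (x : P), g (γ • x) = ρ γ (g x))
    (h : ∀ x, C.dl g x = 0) (k : ℕ) :
    ∃ (f : Simp P k → B) (t : P → B), (∀ (γ : Γ) (A : Simp P k), f (γ • A) = ρ γ (f A)) ∧
      (∀ (γ : Γ) (x : P), t (γ • x) = ρ γ (t x)) ∧ cobd f = 0 ∧
      ∀ x, rk x = k → g x = C.Ph f x - ((-1 : ℤ) ^ k) • C.dl t x := by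
  obtain ⟨K, hK1, hK2⟩ := C.exact_fun ρ (Sum.elim (fun _ => 0) g) (by
    rintro γ (A | x)
    · show (0 : B) = ρ γ 0
      rw [map_zero]
    · exact hg γ x) (by
    rintro (A | x)
    · obtain ⟨m, A', hA'⟩ := io_surj A
      rw [← hA']
      rcases m with _ | m
      · exact C.lc_dd_io_zero _ _
      · rw [lc_dd_io_succ]
        have : cobd (fun A' : Simp P m => Sum.elim (fun _ => (0 : B)) g (io m A')) A' = 0 := by
          unfold cobd
          apply Finset.sum_eq_zero
          intro a _
          exact smul_zero _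
        rw [this, smul_zero]
    · rw [C.lc_dd_inr _ x (rk x) rfl]
      have h1 : C.Ph (fun A' : Simp P (rk x) => Sum.elim (fun _ => (0 : B)) g (io (rk x) A')) x =
          0 := lc_zero_fun _
      have h2 : C.dl (fun y => Sum.elim (fun _ : NCh P => (0 : B)) g (Sum.inr y)) x = 0 := h x
      rw [h1, h2, smul_zero, sub_zero])
  refine ⟨fun A => K (io k A), fun x => K (Sum.inr x), fun γ A => hK1 γ (io k A),
    fun γ x => hK1 γ (Sum.inr x), ?_, ?_⟩
  · funext A
    have h1 := hK2 (io (k + 1) A)
    rw [lc_dd_io_succ] at h1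
    have h2 : (0 : B) = ε (k + 2) • cobd (fun A' => K (io k A')) A := h1
    have h3 := C.smul_eps (k + 2) (cobd (fun A' => K (io k A')) A)
    rw [← h2, smul_zero] at h3
    exact h3.symm
  · intro x hx
    have h1 := hK2 (Sum.inr x)
    rw [C.lc_dd_inr _ x k hx] at h1
    exact h1

/-- (CC2) -/
theorem CC2 (ρ : Representation ℤ Γ B) {k : ℕ} (f : Simp P k → B)
    (hf : ∀ (γ : Γ) (A : Simp P k), f (γ • A) = ρ γ (f A)) (hf2 : cobd f = 0)
    (t : P → B) (ht : ∀ (γ : Γ) (x : P), t (γ • x) = ρ γ (t x))
    (h : ∀ x, rk x = k → C.Ph f x = C.dl t x) : f ∈ Cobdr P ρ k := by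
  set F : NCh P ⊕ P → B := fun v => Sum.elim
    (fun A : NCh P => if h : A.1.card = k + 1 then f ⟨A.1, A.2.2, h⟩ else 0)
    (fun x => if rk x + 1 = k then ((-1 : ℤ) ^ k) • t x else 0) v with hF
  have hFio : ∀ A : Simp P k, F (io k A) = f A := by
    intro A
    show (if h : (toN A).1.card = k + 1 then f ⟨(toN A).1, (toN A).2.2, h⟩ else 0) = f A
    rw [dif_pos (show (toN A).1.card = k + 1 from A.card)]
    rfl
  have hFio' : ∀ m, m ≠ k → ∀ A : Simp P m, F (io m A) = 0 := by
    intro m hm A
    show (if h : (toN A).1.card = k + 1 then f ⟨(toN A).1, (toN A).2.2, h⟩ else 0) = 0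
    rw [dif_neg]
    intro h1
    have h2 : (toN A).1.card = m + 1 := A.card
    omega
  obtain ⟨K, hK1, hK2⟩ := C.exact_fun ρ F (by
    rintro γ (A | x)
    · obtain ⟨m, A', hA'⟩ := io_surj A
      rw [← hA']
      have e : γ • io m A' = io m (γ • A') := rfl
      rw [e]
      by_cases hm : m = k
      · subst hm
        rw [hFio, hFio, hf]
      · rw [hFio' m hm, hFio' m hm, map_zero]
    · show (if rk (γ • x) + 1 = k then ((-1 : ℤ) ^ k) • t (γ • x) else 0) =
        ρ γ (if rk x + 1 = k then ((-1 : ℤ) ^ k) • t x else 0)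
      rw [C.rk_smul]
      split_ifs
      · rw [ht, map_zsmul]
      · rw [map_zero]) (by
    rintro (A | x)
    · obtain ⟨m, A', hA'⟩ := io_surj A
      rw [← hA']
      rcases m with _ | m
      · exact C.lc_dd_io_zero _ _
      · rw [lc_dd_io_succ]
        have : cobd (fun A' : Simp P m => F (io m A')) A' = 0 := by
          by_cases hm : m = k
          · subst hm
            have e : (fun A' : Simp P m => F (io m A')) = f := funext hFio
            rw [e, hf2]
            rfl
          · have e : (fun A' : Simp P m => F (io m A')) = fun _ => 0 := funext (hFio' m hm)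
            rw [e]
            unfold cobd
            apply Finset.sum_eq_zero
            intro a _
            exact smul_zero _
        rw [this, smul_zero]
    · rw [C.lc_dd_inr _ x (rk x) rfl]
      by_cases hm : rk x = k
      · have h1 : C.Ph (fun A' : Simp P (rk x) => F (io (rk x) A')) x = C.Ph f x := by
          subst hm
          have e : (fun A' : Simp P (rk x) => F (io (rk x) A')) = f := funext hFio
          rw [e]
        have h2 : C.dl (fun y => F (Sum.inr y)) x = ((-1 : ℤ) ^ k) • C.dl t x := by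
          unfold dl
          rw [← lc_smul_fun]
          apply lc_congr
          intro y hy
          rw [dDx_apply] at hy
          have h3 := C.ep_ne _ _ hy
          show (if rk y + 1 = k then ((-1 : ℤ) ^ k) • t y else 0) = _
          rw [if_pos (by omega)]
        rw [h1, h2, hm, smul_smul, sq_one, one_smul, h x hm, sub_self]
      · have h1 : C.Ph (fun A' : Simp P (rk x) => F (io (rk x) A')) x = 0 := by
          have e : (fun A' : Simp P (rk x) => F (io (rk x) A')) = fun _ => 0 :=
            funext (hFio' _ hm)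
          rw [e]
          exact lc_zero_fun _
        have h2 : C.dl (fun y => F (Sum.inr y)) x = 0 := by
          unfold dl
          rw [← lc_zero_fun (V := P) (B := B) (C.dDx x)]
          apply lc_congr
          intro y hy
          rw [dDx_apply] at hy
          have h3 := C.ep_ne _ _ hy
          show (if rk y + 1 = k then ((-1 : ℤ) ^ k) • t y else 0) = _
          rw [if_neg (by omega)]
        rw [h1, h2, smul_zero, sub_zero])
  rcases k with _ | k
  · show f ∈ ({0} : Set (Simp P 0 → B))
    rw [Set.mem_singleton_iff]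
    funext A
    rw [← hFio, hK2, lc_dd_io_zero]
    rfl
  · refine ⟨fun A => ε (k + 2) • K (io k A), ?_, ?_⟩
    · intro γ A
      rw [map_zsmul]
      exact congrArg (fun b => ε (k + 2) • b) (hK1 γ (io k A))
    · funext A
      rw [← hFio, hK2, lc_dd_io_succ]
      unfold cobd
      rw [Finset.smul_sum]
      apply Finset.sum_congr rfl
      intro a _
      rw [smul_smul, smul_smul, mul_comm]

/-- (CC0) -/
theorem CC0 {k : ℕ} (f : Simp P k → B) (x : P) :
    ε (k + 2) • C.Ph (cobd f) x = ((-1 : ℤ) ^ (k + 1)) • C.dl (C.Ph f) x := by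
  have h1 := congrArg (lc f) (C.bd_PH (B := ℤ) k (Finsupp.single x 1))
  rw [map_zsmul, map_zsmul, lc_bd] at h1
  have h2 : ∀ z : P →₀ ℤ, lc f (C.PH ℤ k z) = lc (C.Ph f) z := by
    intro z
    induction z using Finsupp.induction_linear with
    | zero => simp
    | add x y hx hy => rw [map_add, map_add, hx, hy, map_add]
    | single y c =>
      rw [lc_single]
      unfold Ph phx
      rw [← map_zsmul, ← map_zsmul, Finsupp.smul_single, smul_eq_mul, mul_one]
  rw [h2] at h1
  exact h1

theorem Ph_smul (ρ : Representation ℤ Γ B) {k : ℕ} (f : Simp P k → B)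
    (hf : ∀ (γ : Γ) (A : Simp P k), f (γ • A) = ρ γ (f A)) (γ : Γ) (x : P) :
    C.Ph f (γ • x) = ρ γ (C.Ph f x) := by
  have h1 : C.phx k (γ • x) = (C.phx k x).mapDomain (fun A => γ • A) := by
    ext A
    have e : A = γ • (γ⁻¹ • A) := (smul_inv_smul γ A).symm
    rw [e, Finsupp.mapDomain_apply (MulAction.injective γ), phx_apply, phx_apply, smul_s,
      C.ph_smul]
  unfold Ph
  rw [h1]
  generalize C.phx k x = w
  induction w using Finsupp.induction_linear with
  | zero => simp
  | add x y hx hy => rw [Finsupp.mapDomain_add, map_add, hx, hy, map_add, map_add]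
  | single u c => rw [Finsupp.mapDomain_single, lc_single, lc_single, hf, map_zsmul]

theorem dl_smul (ρ : Representation ℤ Γ B) (g : P → B)
    (hg : ∀ (γ : Γ) (x : P), g (γ • x) = ρ γ (g x)) (γ : Γ) (x : P) :
    C.dl g (γ • x) = ρ γ (C.dl g x) := by
  have h1 : C.dDx (γ • x) = (C.dDx x).mapDomain (fun A => γ • A) := by
    ext y
    have e : y = γ • (γ⁻¹ • y) := (smul_inv_smul γ y).symm
    rw [e, Finsupp.mapDomain_apply (MulAction.injective γ), dDx_apply, dDx_apply, C.ep_smul]
  unfold dl
  rw [h1]
  generalize C.dDx x = w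
  induction w using Finsupp.induction_linear with
  | zero => simp
  | add x y hx hy => rw [Finsupp.mapDomain_add, map_add, hx, hy, map_add, map_add]
  | single u c => rw [Finsupp.mapDomain_single, lc_single, lc_single, hg, map_zsmul]

end ConeD

end Pool.Agent.Helper635.PD4
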