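import Pool.Agent.Helper635_PD4.Cone

open scoped Classical

namespace Pool.Agent.Helper635.PD4.PhiAux

section ocl
variable {Q : Type*} [PartialOrder Q]

theorem oc_empty (ep : Q → Q → ℤ) (b y : Q) : oc ep b ∅ y = ep b y := by
  unfold oc
  rw [Finset.card_empty]
  rfl

theorem ocAux_max (ep : Q → Q → ℤ) (b : Q) (n : ℕ) {A : Finset Q} {m y : Q} (hm : m ∈ A)
    (hmax : ∀ a ∈ A, a ≤ m) :
    ocAux ep b (n + 1) A y = ocAux ep b n (A.erase m) m * ep m y := by
  have h : A.filter (fun m => ∀ a ∈ A, a ≤ m) = {m} := by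
    ext x
    simp only [Finset.mem_filter, Finset.mem_singleton]
    constructor
    · rintro ⟨h1, h2⟩
      exact le_antisymm (hmax x h1) (h2 m hm)
    · rintro rfl
      exact ⟨hm, hmax⟩
  rw [ocAux, h, Finset.sum_singleton]

theorem oc_max (ep : Q → Q → ℤ) (b : Q) {A : Finset Q} {m y : Q} (hm : m ∈ A)
    (hmax : ∀ a ∈ A, a ≤ m) : oc ep b A y = oc ep b (A.erase m) m * ep m y := by
  unfold oc
  rw [← Finset.card_erase_add_one hm]
  exact ocAux_max ep b _ hm hmax

theorem ocAux_card {rk : Q → ℕ} {ep : Q → Q → ℤ} (gr : Gr rk ep) (b : Q) (n : ℕ) :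
    ∀ (A : Finset Q) (y : Q), ocAux ep b n A y ≠ 0 → rk y = rk b + n + 1 := by
  induction n with
  | zero =>
    intro A y h
    rw [ocAux] at h
    have := (gr.ne _ _ h).2
    omega
  | succ n ih =>
    intro A y h
    rw [ocAux] at h
    obtain ⟨m, _, hm⟩ := Finset.exists_ne_zero_of_sum_ne_zero h
    have h1 := ih _ _ (left_ne_zero_of_mul hm)
    have h2 := (gr.ne _ _ (right_ne_zero_of_mul hm)).2
    omega

theorem oc_card {rk : Q → ℕ} {ep : Q → Q → ℤ} (gr : Gr rk ep) {b y : Q} {A : Finset Q}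
    (h : oc ep b A y ≠ 0) : rk y = rk b + A.card + 1 := ocAux_card gr b _ _ _ h

theorem ocAux_map (ep : Q → Q → ℤ) (φ : Q ≃o Q) (hφ : ∀ x y, ep (φ x) (φ y) = ep x y)
    (b : Q) (n : ℕ) :
    ∀ (A A' : Finset Q) (y : Q), (∀ x, φ x ∈ A' ↔ x ∈ A) →
      ocAux ep (φ b) n A' (φ y) = ocAux ep b n A y := by
  induction n with
  | zero => intro A A' y _; exact hφ b y
  | succ n ih =>
    intro A A' y hA
    rw [ocAux, ocAux]
    symm
    refine Finset.sum_bij (fun m _ => φ m) ?_ ?_ ?_ ?_
    · intro m hm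
      rw [Finset.mem_filter] at hm ⊢
      refine ⟨(hA m).2 hm.1, fun a ha => ?_⟩
      have h1 : φ (φ.symm a) = a := φ.apply_symm_apply a
      rw [← h1] at ha ⊢
      exact φ.le_iff_le.2 (hm.2 _ ((hA _).1 ha))
    · intro m _ m' _ h
      exact φ.injective h
    · intro m' hm'
      rw [Finset.mem_filter] at hm'
      refine ⟨φ.symm m', ?_, φ.apply_symm_apply m'⟩
      rw [Finset.mem_filter]
      refine ⟨?_, fun a ha => ?_⟩
      · rw [← hA, φ.apply_symm_apply]; exact hm'.1
      · rw [← φ.le_iff_le, φ.apply_symm_apply]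
        exact hm'.2 _ ((hA a).2 ha)
    · intro m _
      rw [hφ, ih (A.erase m) (A'.erase (φ m)) m ?_]
      intro x
      rw [Finset.mem_erase, Finset.mem_erase, hA]
      have : φ x ≠ φ m ↔ x ≠ m := φ.injective.ne_iff
      rw [this]

theorem oc_map (ep : Q → Q → ℤ) (φ : Q ≃o Q) (hφ : ∀ x y, ep (φ x) (φ y) = ep x y)
    (b y : Q) (A A' : Finset Q) (hA : ∀ x, φ x ∈ A' ↔ x ∈ A) :
    oc ep (φ b) A' (φ y) = oc ep b A y := by
  unfold oc
  have hc : A'.card = A.card := by
    symm
    refine Finset.card_bij (fun x _ => φ x) (fun x hx => (hA x).2 hx)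
      (fun x _ y _ h => φ.injective h) ?_
    intro x' hx'
    refine ⟨φ.symm x', ?_, φ.apply_symm_apply x'⟩
    rw [← hA, φ.apply_symm_apply]
    exact hx'
  rw [hc]
  exact ocAux_map ep φ hφ b _ A A' y hA

/-! ### simplicial boundary -/

theorem dE_eq (A' A : Finset Q) : dE A' A = ∑ a ∈ A, if A' = A.erase a then (-1 : ℤ) ^ pos A a else 0 :=
  rfl

theorem pos_erase_of_lt {A : Finset Q} {a b : Q} (ha : a ∈ A) (hab : a < b) :
    pos A b = pos (A.erase a) b + 1 := by
  unfold pos
  rw [Finset.filter_erase, Finset.card_erase_add_one]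
  exact Finset.mem_filter.2 ⟨ha, hab⟩

theorem pos_erase_of_not_lt {A : Finset Q} {a b : Q} (hab : ¬ a < b) :
    pos (A.erase a) b = pos A b := by
  unfold pos
  rw [Finset.filter_erase, Finset.erase_eq_of_notMem]
  intro h
  exact hab (Finset.mem_filter.1 h).2

theorem dEk_sq {A : Finset Q} (hA : IsChain (· ≤ ·) (A : Set Q)) (u : Finset Q) :
    ∑ a ∈ A, (-1 : ℤ) ^ pos A a * dE u (A.erase a) = 0 := by
  have h1 : ∑ a ∈ A, (-1 : ℤ) ^ pos A a * dE u (A.erase a) =
      ∑ q ∈ (A ×ˢ A).filter (fun q => q.1 ≠ q.2), (-1 : ℤ) ^ pos A q.1 *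
        (if u = (A.erase q.1).erase q.2 then (-1 : ℤ) ^ pos (A.erase q.1) q.2 else 0) := by
    rw [Finset.sum_filter, Finset.sum_product]
    refine Finset.sum_congr rfl fun a ha => ?_
    rw [dE_eq, Finset.mul_sum, ← Finset.sum_filter]
    refine Finset.sum_congr ?_ fun _ _ => rfl
    ext b
    simp only [Finset.mem_erase, Finset.mem_filter, ne_eq]
    constructor
    · rintro ⟨h2, h3⟩; exact ⟨h3, fun h => h2 h.symm⟩
    · rintro ⟨h2, h3⟩; exact ⟨fun h => h3 h.symm, h2⟩
  rw [h1]
  refine Finset.sum_involution (fun q _ => (q.2, q.1)) ?_ ?_ ?_ ?_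
  · rintro ⟨a, b⟩ hq
    rw [Finset.mem_filter, Finset.mem_product] at hq
    obtain ⟨⟨ha, hb⟩, hab⟩ := hq
    simp only at ha hb hab ⊢
    rw [Finset.erase_right_comm (a := b) (b := a)]
    by_cases hu : u = (A.erase a).erase b
    · rw [if_pos hu, if_pos hu]
      rcases hA ha hb hab with h | h
      · have hlt : a < b := lt_of_le_of_ne h hab
        rw [pos_erase_of_lt ha hlt, pos_erase_of_not_lt (fun h' => absurd (hlt.trans h') (lt_irrefl _))]
        ring
      · have hlt : b < a := lt_of_le_of_ne h hab.symm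
        rw [pos_erase_of_lt hb hlt, pos_erase_of_not_lt (fun h' => absurd (hlt.trans h') (lt_irrefl _))]
        ring
    · rw [if_neg hu, if_neg hu, mul_zero, mul_zero, add_zero]
  · rintro ⟨a, b⟩ hq _
    rw [Finset.mem_filter, Finset.mem_product] at hq
    intro h
    exact hq.2 (congrArg Prod.snd h)
  · rintro ⟨a, b⟩ hq
    rw [Finset.mem_filter, Finset.mem_product] at hq ⊢
    exact ⟨⟨hq.1.2, hq.1.1⟩, hq.2.symm⟩
  · rintro ⟨a, b⟩ _
    rfl

end ocl

/-! ### maxima, gradings -/

section graded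
variable {P : Type*} [PartialOrder P]

theorem exists_mx (A : NCh P) : ∃ m ∈ A.1, ∀ a ∈ A.1, a ≤ m := by
  obtain ⟨m, hm⟩ := Finset.exists_maximal A.2.1
  refine ⟨m, hm.1, fun a ha => ?_⟩
  by_cases h : a = m
  · exact h.le
  · rcases A.2.2 ha hm.1 h with h1 | h1
    · exact h1
    · exact hm.2 ha h1

/-- the largest element of a chain -/
noncomputable def mx (A : NCh P) : P := (exists_mx A).choose

theorem mx_mem (A : NCh P) : mx A ∈ A.1 := (exists_mx A).choose_spec.1

theorem le_mx (A : NCh P) {a : P} (ha : a ∈ A.1) : a ≤ mx A := (exists_mx A).choose_spec.2 a ha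

theorem mx_eq {A : NCh P} {m : P} (h1 : m ∈ A.1) (h2 : ∀ a ∈ A.1, a ≤ m) : mx A = m :=
  le_antisymm (h2 _ (mx_mem A)) (le_mx A h1)

theorem gr_bot {rk : P → ℕ} {a : P → ℤ} {ep : P → P → ℤ} (gr : Gr rk ep)
    (ha : ∀ x, a x ≠ 0 → rk x = 0) : Gr (rkB rk) (bE a ep) := by
  constructor
  · intro x y h
    induction x using WithBot.recBotCoe with
    | bot =>
      induction y using WithBot.recBotCoe with
      | bot => exact absurd h (lt_irrefl _)
      | coe y => exact Nat.succ_pos _
    | coe x =>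
      induction y using WithBot.recBotCoe with
      | bot => exact absurd h not_lt_bot
      | coe y => exact Nat.succ_lt_succ (gr.lt _ _ (WithBot.coe_lt_coe.1 h))
  · intro x y h
    induction x using WithBot.recBotCoe with
    | bot =>
      induction y using WithBot.recBotCoe with
      | bot => exact absurd rfl h
      | coe y => exact ⟨WithBot.bot_lt_coe y, congrArg (· + 1) (ha y h)⟩
    | coe x =>
      induction y using WithBot.recBotCoe with
      | bot => exact absurd rfl h
      | coe y =>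
        have := gr.ne x y h
        exact ⟨WithBot.coe_lt_coe.2 this.1, congrArg (· + 1) this.2⟩

/-- the map of the basis of the cone to `P` -/
noncomputable def fE : NCh P ⊕ P → P
  | Sum.inl A => mx A
  | Sum.inr x => x

/-- the copy of a finite set in `WithBot P` -/
noncomputable def upB (A : Finset P) : Finset (WithBot P) := A.image (fun b : P => (b : WithBot P))

theorem coe_mem_upB {A : Finset P} {x : P} : (x : WithBot P) ∈ upB A ↔ x ∈ A := by
  unfold upB
  rw [Finset.mem_image]
  constructor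
  · rintro ⟨b, hb, h⟩
    rwa [← WithBot.coe_injective h]
  · intro h
    exact ⟨x, h, rfl⟩

theorem bot_notMem_upB {A : Finset P} : (⊥ : WithBot P) ∉ upB A := by
  unfold upB
  rw [Finset.mem_image]
  rintro ⟨b, _, h⟩
  exact WithBot.coe_ne_bot h

theorem mem_upB {A : Finset P} {u : WithBot P} (h : u ∈ upB A) : ∃ x ∈ A, u = (x : WithBot P) := by
  unfold upB at h
  obtain ⟨b, hb, rfl⟩ := Finset.mem_image.1 h
  exact ⟨b, hb, rfl⟩

theorem phi_pos {a : P → ℤ} {ep : P → P → ℤ} {A : Finset P} {x : P}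
    (h : x ∈ A ∧ ∀ b ∈ A, b ≤ x) : phi a ep A x =
      oc (bE a ep) (⊥ : WithBot P) (upB (A.erase x)) (x : WithBot P) := by
  unfold phi
  rw [if_pos h]
  congr 1
  ext u
  simp only [Finset.mem_image, exists_eq_right, Finset.bind_def, Finset.mem_sup, Finset.pure_def,
    Finset.mem_singleton, upB]
  constructor
  · rintro ⟨b, hb, rfl⟩; exact ⟨b, hb, rfl⟩
  · rintro ⟨b, hb, rfl⟩; exact ⟨b, hb, rfl⟩

theorem phi_neg {a : P → ℤ} {ep : P → P → ℤ} {A : Finset P} {x : P}
    (h : ¬ (x ∈ A ∧ ∀ b ∈ A, b ≤ x)) : phi a ep A x = 0 := if_neg h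

theorem phi_mx {a : P → ℤ} {ep : P → P → ℤ} {A : NCh P} {x : P} (h : phi a ep A.1 x ≠ 0) :
    mx A = x := by
  unfold phi at h
  split_ifs at h with h1
  · exact mx_eq h1.1 h1.2
  · exact absurd rfl h

theorem dE_ne {A' A : Finset P} (h : dE A' A ≠ 0) : ∃ a ∈ A, A' = A.erase a := by
  rw [dE_eq] at h
  obtain ⟨a, ha, h1⟩ := Finset.exists_ne_zero_of_sum_ne_zero h
  refine ⟨a, ha, ?_⟩
  by_contra h2
  rw [if_neg h2] at h1
  exact h1 rfl

theorem cD_le {rk : P → ℕ} {a : P → ℤ} {ep : P → P → ℤ} (gr : Gr rk ep) {u v : NCh P ⊕ P}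
    (h : cD rk a ep u v ≠ 0) : fE u ≤ fE v := by
  rcases u with A' | y
  · rcases v with A | x
    · obtain ⟨b, _, hb⟩ := dE_ne h
      refine le_mx A ?_
      have := mx_mem A'
      rw [hb] at this
      exact Finset.mem_of_mem_erase this
    · exact (phi_mx h).le
  · rcases v with A | x
    · exact absurd rfl h
    · have h1 : ep y x ≠ 0 := fun h2 => h (by
        show -((-1 : ℤ) ^ rk x * ep y x) = 0
        rw [h2, mul_zero, neg_zero])
      exact (gr.ne _ _ h1).1.le

theorem iic_finite {a : P → ℤ} {ep : P → P → ℤ} {x : P}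
    (low : Good (bE a ep) (⊥ : WithBot P) (x : WithBot P)) : (Set.Iic x).Finite := by
  refine Set.Finite.of_injOn (f := fun y : P => (y : WithBot P)) (t := Set.Icc ⊥ (x : WithBot P))
    ?_ (WithBot.coe_injective.injOn) low.fin
  intro y hy
  exact ⟨bot_le, WithBot.coe_le_coe.2 hy⟩

theorem fE_finite {x : P} (hx : (Set.Iic x).Finite) : {v : NCh P ⊕ P | fE v ≤ x}.Finite := by
  have h1 : {A : NCh P | mx A ≤ x}.Finite := by
    refine Set.Finite.of_injOn (f := fun A : NCh P => A.1) (t := (hx.toFinset.powerset : Set (Finset P)))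
      ?_ (Subtype.val_injective.injOn) (Finset.finite_toSet _)
    intro A hA
    rw [Finset.mem_coe, Finset.mem_powerset]
    intro y hy
    rw [Set.Finite.mem_toFinset]
    exact (le_mx A hy).trans hA
  have h2 : {v : NCh P ⊕ P | fE v ≤ x} = Sum.inl '' {A : NCh P | mx A ≤ x} ∪ Sum.inr '' (Set.Iic x) := by
    ext v
    rcases v with A | y
    · simp [fE]
    · simp [fE]
  rw [h2]
  exact (h1.image _).union (hx.image _)

end graded

/-! ### equivariance of the matrix -/

section equiv
variable {Γ P : Type*} [Group Γ] [PartialOrder P] [OrdAct Γ P]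

/-- the order automorphism given by a group element -/
def gIso (g : Γ) : P ≃o P where
  toEquiv := MulAction.toPerm g
  map_rel_iff' := by
    intro x y
    exact smul_le_smul_iff' g x y

/-- the same on `WithBot P` -/
def gB (g : Γ) : WithBot P ≃o WithBot P := (gIso g).withBotCongr

theorem gB_coe (g : Γ) (x : P) : gB g (x : WithBot P) = ((g • x : P) : WithBot P) := rfl

theorem gB_bot (g : Γ) : gB g (⊥ : WithBot P) = ⊥ := rfl

variable {rk : P → ℕ} {a : P → ℤ} {ep : P → P → ℤ}

theorem bE_smul (hep : ∀ (g : Γ) (x y : P), ep (g • x) (g • y) = ep x y)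
    (hag : ∀ (g : Γ) (x : P), a (g • x) = a x) (g : Γ) (u v : WithBot P) :
    bE a ep (gB g u) (gB g v) = bE a ep u v := by
  induction u using WithBot.recBotCoe with
  | bot =>
    induction v using WithBot.recBotCoe with
    | bot => rfl
    | coe y => exact hag g y
  | coe x =>
    induction v using WithBot.recBotCoe with
    | bot => rfl
    | coe y => exact hep g x y

theorem mem_smul_map (g : Γ) (A : Finset P) (x : P) :
    g • x ∈ A.map (MulAction.toPerm g).toEmbedding ↔ x ∈ A := by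
  constructor
  · intro h
    obtain ⟨y, hy, h1⟩ := Finset.mem_map.1 h
    have h2 : y = x := (MulAction.injective g) h1
    exact h2 ▸ hy
  · intro h
    exact Finset.mem_map.2 ⟨x, h, rfl⟩

theorem mem_smul_map' (g : Γ) (A : Finset P) (x : P) :
    x ∈ A.map (MulAction.toPerm g).toEmbedding ↔ g⁻¹ • x ∈ A := by
  rw [← mem_smul_map g A (g⁻¹ • x), smul_inv_smul]

theorem pos_smul (g : Γ) (A : Finset P) (x : P) :
    pos (A.map (MulAction.toPerm g).toEmbedding) (g • x) = pos A x := by
  unfold pos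
  rw [Finset.filter_map, Finset.card_map]
  congr 1
  apply Finset.filter_congr
  intro y _
  show g • y < g • x ↔ y < x
  exact (gIso g).lt_iff_lt

theorem dE_smul (g : Γ) (A' A : Finset P) :
    dE (A'.map (MulAction.toPerm g).toEmbedding) (A.map (MulAction.toPerm g).toEmbedding) =
      dE A' A := by
  rw [dE_eq, dE_eq, Finset.sum_map]
  refine Finset.sum_congr rfl fun x _ => ?_
  have h1 : (MulAction.toPerm g).toEmbedding x = g • x := rfl
  rw [h1, pos_smul]
  have h2 : (A.map (MulAction.toPerm g).toEmbedding).erase (g • x) =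
      (A.erase x).map (MulAction.toPerm g).toEmbedding := by
    rw [Finset.map_erase]
    rfl
  rw [h2]
  have h3 : A'.map (MulAction.toPerm g).toEmbedding =
      (A.erase x).map (MulAction.toPerm g).toEmbedding ↔ A' = A.erase x := Finset.map_inj
  simp only [h3]

theorem phi_smul (hep : ∀ (g : Γ) (x y : P), ep (g • x) (g • y) = ep x y)
    (hag : ∀ (g : Γ) (x : P), a (g • x) = a x) (g : Γ) (A : Finset P) (x : P) :
    phi a ep (A.map (MulAction.toPerm g).toEmbedding) (g • x) = phi a ep A x := by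
  have h1 : (g • x ∈ A.map (MulAction.toPerm g).toEmbedding ∧
      ∀ b ∈ A.map (MulAction.toPerm g).toEmbedding, b ≤ g • x) ↔ (x ∈ A ∧ ∀ b ∈ A, b ≤ x) := by
    rw [mem_smul_map]
    refine and_congr_right fun _ => ?_
    constructor
    · intro h b hb
      exact (smul_le_smul_iff' g b x).1 (h _ ((mem_smul_map g A b).2 hb))
    · intro h b hb
      obtain ⟨y, hy, rfl⟩ := Finset.mem_map.1 hb
      exact (smul_le_smul_iff' g y x).2 (h y hy)
  by_cases h2 : x ∈ A ∧ ∀ b ∈ A, b ≤ x
  · rw [phi_pos h2, phi_pos (h1.2 h2)]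
    refine oc_map (bE a ep) (gB g) (bE_smul hep hag g) ⊥ (x : WithBot P) _ _ fun u => ?_
    induction u using WithBot.recBotCoe with
    | bot =>
      rw [gB_bot]
      exact ⟨fun h => absurd h bot_notMem_upB, fun h => absurd h bot_notMem_upB⟩
    | coe y =>
      rw [gB_coe, coe_mem_upB, coe_mem_upB, Finset.mem_erase, Finset.mem_erase, mem_smul_map]
      have : g • y ≠ g • x ↔ y ≠ x := (MulAction.injective g).ne_iff
      rw [this]
  · rw [phi_neg h2, phi_neg (fun h => h2 (h1.1 h))]

theorem cD_smul (hrk : ∀ (g : Γ) (x : P), rk (g • x) = rk x)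
    (hep : ∀ (g : Γ) (x y : P), ep (g • x) (g • y) = ep x y)
    (hag : ∀ (g : Γ) (x : P), a (g • x) = a x) (g : Γ) (u v : NCh P ⊕ P) :
    cD rk a ep (g • u) (g • v) = cD rk a ep u v := by
  rcases u with A' | y
  · rcases v with A | x
    · exact dE_smul g A'.1 A.1
    · exact phi_smul hep hag g A'.1 x
  · rcases v with A | x
    · rfl
    · show -((-1 : ℤ) ^ rk (g • x) * ep (g • y) (g • x)) = -((-1 : ℤ) ^ rk x * ep y x)
      rw [hrk, hep]

theorem fE_smul (g : Γ) (v : NCh P ⊕ P) : fE (g • v) = g • fE v := by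
  rcases v with A | x
  · show mx (g • A) = g • mx A
    apply mx_eq
    · exact (mem_smul_map g A.1 _).2 (mx_mem A)
    · intro b hb
      obtain ⟨y, hy, rfl⟩ := Finset.mem_map.1 hb
      exact (smul_le_smul_iff' g y _).2 (le_mx A hy)
  · rfl

end equiv

/-! ### the pieces -/

section pieces
variable {P : Type*} [PartialOrder P]

theorem upB_inj {A B : Finset P} (h : upB A = upB B) : A = B := by
  ext x
  rw [← coe_mem_upB, h, coe_mem_upB]

theorem upB_erase (A : Finset P) (x : P) : upB (A.erase x) = (upB A).erase (x : WithBot P) := by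
  ext u
  rw [Finset.mem_erase]
  induction u using WithBot.recBotCoe with
  | bot => exact ⟨fun h => absurd h bot_notMem_upB, fun h => absurd h.2 bot_notMem_upB⟩
  | coe y =>
    rw [coe_mem_upB, coe_mem_upB, Finset.mem_erase]
    have : (y : WithBot P) ≠ (x : WithBot P) ↔ y ≠ x := WithBot.coe_injective.ne_iff
    rw [this]

theorem card_upB (A : Finset P) : (upB A).card = A.card := by
  unfold upB
  exact Finset.card_image_of_injective _ WithBot.coe_injective


variable {rk : P → ℕ} {a : P → ℤ} {ep : P → P → ℤ}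

theorem phi_singleton (a : P → ℤ) (ep : P → P → ℤ) (x : P) : phi a ep {x} x = a x := by
  rw [phi_pos ⟨Finset.mem_singleton_self x, fun b hb => (Finset.mem_singleton.1 hb).le⟩]
  have h : upB (({x} : Finset P).erase x) = (∅ : Finset (WithBot P)) := by
    rw [Finset.erase_singleton]
    unfold upB
    exact Finset.image_empty _
  rw [h, oc_empty]
  rfl

theorem phi_insert (a : P → ℤ) (ep : P → P → ℤ) {A : Finset P} {m x : P} (hm : m ∈ A)
    (hmax : ∀ b ∈ A, b ≤ m) (hmx : m < x) :
    phi a ep (insert x A) x = phi a ep A m * ep m x := by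
  have hxA : x ∉ A := fun h => lt_irrefl _ (hmx.trans_le (hmax x h))
  rw [phi_pos ⟨Finset.mem_insert_self x A, fun b hb => by
    rcases Finset.mem_insert.1 hb with rfl | hb
    · exact le_rfl
    · exact (hmax b hb).trans hmx.le⟩, phi_pos ⟨hm, hmax⟩, Finset.erase_insert hxA,
    upB_erase, oc_max (bE a ep) ⊥ (coe_mem_upB.2 hm) (y := (x : WithBot P))]
  · have h1 : bE a ep (m : WithBot P) (x : WithBot P) = ep m x := rfl
    rw [h1]
    congr 2
    ext u
    rw [@Finset.mem_erase _ (_), @Finset.mem_erase _ (_)]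
  · intro u hu
    obtain ⟨b, hb, rfl⟩ := mem_upB hu
    exact WithBot.coe_le_coe.2 (hmax b hb)

theorem phi_card (gr : Gr rk ep) (ha : ∀ x, a x ≠ 0 → rk x = 0) {A : Finset P} {x : P}
    (h : phi a ep A x ≠ 0) : A.card = rk x + 1 := by
  have h1 : x ∈ A ∧ ∀ b ∈ A, b ≤ x := by
    by_contra h1
    exact h (phi_neg h1)
  rw [phi_pos h1] at h
  have h2 := oc_card (gr_bot gr ha) h
  rw [card_upB] at h2
  have h3 : rkB rk (x : WithBot P) = rk x + 1 := rfl
  have h4 : rkB rk (⊥ : WithBot P) = 0 := rfl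
  have h5 := Finset.card_erase_add_one h1.1
  omega

end pieces

end Pool.Agent.Helper635.PD4.PhiAux
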