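import Pool.Agent.Helper635_PD4.DualAux3
import Pool.Agent.Helper635_PD4.PhiAux

/-!
# Dual, part 4: the cones of `P` and of the opposite poset
-/

open scoped Classical

namespace Pool.Agent.Helper635.PD4

namespace ConeD
variable {Γ P : Type} [Group Γ] [PartialOrder P] [OrdAct Γ P] {rk : P → ℕ}
    {ep : P → P → ℤ} {ph : Finset P → P → ℤ} {ε : ℕ → ℤ} (C : ConeD Γ P rk ep ph ε)
variable {B : Type} [AddCommGroup B]

theorem bD_apply (w : P →₀ B) (y : P) :
    C.bD B w y = w.sum fun x b => ep y x • b := by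
  induction w using Finsupp.induction_linear with
  | zero => simp
  | add x y hx hy =>
    rw [map_add, Finsupp.add_apply, hx, hy, Finsupp.sum_add_index']
    · simp
    · intro a b b'; rw [smul_add]
  | single x b =>
    rw [bD_single_apply, Finsupp.sum_single_index]
    rw [smul_zero]

theorem bD_filter (w : P →₀ B) (k : ℕ) (y : P) :
    C.bD B (w.filter (fun x => rk x = k)) y = if rk y + 1 = k then C.bD B w y else 0 := by
  induction w using Finsupp.induction_linear with
  | zero => rw [Finsupp.filter_zero]; simp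
  | add a b ha hb =>
    rw [Finsupp.filter_add, map_add, map_add, Finsupp.add_apply, Finsupp.add_apply, ha, hb]
    split_ifs <;> simp
  | single x b =>
    by_cases h : rk x = k
    · rw [Finsupp.filter_single_of_pos (p := fun x => rk x = k) (h := h), bD_single_apply]
      by_cases h0 : ep y x = 0
      · rw [h0, zero_smul]
        split_ifs <;> rfl
      · have := C.ep_ne _ _ h0
        rw [if_pos (by omega)]
    · rw [Finsupp.filter_single_of_neg (p := fun x => rk x = k) (h := h), map_zero, bD_single_apply]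
      by_cases h0 : ep y x = 0
      · rw [h0, zero_smul]
        split_ifs <;> rfl
      · have := C.ep_ne _ _ h0
        rw [if_neg (by omega)]
        rfl

theorem PH_filter (w : P →₀ B) (k : ℕ) :
    C.PH B k (w.filter (fun x => rk x = k)) = C.PH B k w := by
  induction w using Finsupp.induction_linear with
  | zero => rw [Finsupp.filter_zero]
  | add a b ha hb => rw [Finsupp.filter_add, map_add, map_add, ha, hb]
  | single x b =>
    by_cases h : rk x = k
    · rw [Finsupp.filter_single_of_pos (p := fun x => rk x = k) (h := h)]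
    · rw [Finsupp.filter_single_of_neg (p := fun x => rk x = k) (h := h), map_zero]
      ext A
      rw [PH_single_apply]
      by_cases h0 : ph A.s x = 0
      · rw [h0, zero_smul]; rfl
      · exfalso
        have h1 := C.ph_ne _ _ h0
        rw [A.card] at h1
        omega

end ConeD

/-- the cone of `P` -/
theorem exists_cone {Γ P : Type} [Group Γ] [PartialOrder P] [OrdAct Γ P]
    (rk : P → ℕ) (a : P → ℤ) (ep : P → P → ℤ) (N : ℕ) (gr : Gr rk ep) (hN : ∀ x, rk x ≤ N)
    (ha : ∀ x, a x ≠ 0 → rk x = 0)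
    (low : ∀ y : P, Good (bE a ep) (⊥ : WithBot P) (y : WithBot P))
    (hfree : ∀ (g : Γ) (x : P), g • x = x → g = 1)
    (hrk : ∀ (g : Γ) (x : P), rk (g • x) = rk x)
    (hep : ∀ (g : Γ) (x y : P), ep (g • x) (g • y) = ep x y)
    (hag : ∀ (g : Γ) (x : P), a (g • x) = a x) :
    Nonempty (ConeD Γ P rk ep (phi a ep) (fun _ => 1)) := by
  obtain ⟨dd, hh, h1, h2, h3, h4⟩ := cone_contraction rk a ep N gr hN ha low hfree hrk hep hag
  exact ⟨{
    dd := dd
    hh := hh
    dd_ll := fun A A' => by rw [h1, one_mul]; rfl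
    dd_lr := fun A x => by rw [h1]; rfl
    dd_rl := fun x A => by rw [h1]; rfl
    dd_rr := fun x y => by rw [h1]; rfl
    dd_dd := h2
    contr := h3
    hh_eq := h4
    free := hfree
    rk_smul := hrk
    ep_smul := hep
    ph_smul := fun g A x => PhiAux.phi_smul hep hag g A x
    ep_ne := fun x y h => (gr.ne x y h).2
    ph_ne := fun A x h => PhiAux.phi_card gr ha h
    eps := fun _ => one_mul _ }⟩

/-! ### homology, without group -/

/-- the trivial group -/
def TG : Type := Unit

instance : Group TG := inferInstanceAs (Group Unit)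

instance : Subsingleton TG := inferInstanceAs (Subsingleton Unit)

/-- the trivial action of the trivial group -/
@[instance_reducible]
def unitAct (P : Type) [PartialOrder P] : OrdAct TG P where
  smul _ x := x
  one_smul _ := rfl
  mul_smul _ _ _ := rfl
  smul_le _ _ _ h := h

theorem relV_sub {Γ V : Type*} [Group Γ] [Subsingleton Γ] [MulAction Γ V] {B : Type*}
    [AddCommGroup B] (ρ : Representation ℤ Γ B) {z : V →₀ B} (hz : z ∈ RelV V ρ) : z = 0 := by
  unfold RelV at hz
  induction hz using AddSubgroup.closure_induction with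
  | mem x hx =>
    obtain ⟨g, v, b, rfl⟩ := hx
    have : g = 1 := Subsingleton.elim _ _
    rw [this, one_smul, map_one, Module.End.one_apply, sub_self]
  | zero => rfl
  | add x y _ _ hx hy => rw [hx, hy, add_zero]
  | neg x _ hx => rw [hx, neg_zero]

theorem aug_ne {P : Type*} {rk : P → ℕ} (x : P) (h : aug rk x ≠ 0) : rk x = 0 := by
  unfold aug at h
  split_ifs at h with h1
  · exact h1
  · exact absurd rfl h

theorem exists_cone_unit {P : Type} [PartialOrder P] (L : LowP P) (N : ℕ)
    (hN : ∀ x, L.rk x ≤ N) :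
    letI := unitAct P
    Nonempty (ConeD TG P L.rk L.ep (phi (aug L.rk) L.ep) (fun _ => 1)) := by
  letI := unitAct P
  exact exists_cone L.rk (aug L.rk) L.ep N L.gr hN aug_ne L.low
    (fun _ _ _ => rfl) (fun _ _ => rfl) (fun _ _ _ => rfl) (fun _ _ => rfl)

theorem eq_of_sm_unit {V : Type*} {Γ : Type*} [Group Γ] [Subsingleton Γ] [MulAction Γ V]
    (hV : ∀ (g : Γ) (v : V), g • v = v → g = 1) (ρ : Representation ℤ Γ ℤ) {z w : V →₀ ℤ}
    (h : sm V ρ z = sm V ρ w) : z = w := by
  rw [← sub_eq_zero]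
  apply relV_sub ρ
  apply rel_of_sm hV
  rw [map_sub, h, sub_self]

theorem hzero_of_cellH' {P : Type} [PartialOrder P] (L : LowP P) (N : ℕ)
    (hN : ∀ x, L.rk x ≤ N) (k : ℕ) (h : CellH L.rk L.ep k) : HZero P k := by
  rcases k with _ | k
  · trivial
  letI := unitAct P
  obtain ⟨C⟩ := exists_cone_unit L N hN
  intro z hz
  let ρ : Representation ℤ TG ℤ := 1
  obtain ⟨w, y, hw, hy⟩ := C.CL1 ρ z (C.cyc_succ ρ z (by rw [hz, map_zero]))
  have hf : ∀ (g : TG) (v : P), g • v = v → g = 1 := fun _ _ _ => rfl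
  have hw' : C.bD ℤ w = 0 := eq_of_sm_unit hf ρ (by rw [hw, map_zero])
  have hy' : z = C.PH ℤ (k + 1) w + bd y := eq_of_sm_unit (free_simp hf) ρ hy
  obtain ⟨v, hv1, hv2⟩ := h (w.filter (fun x => L.rk x = k + 1)) (by
    intro x hx
    rw [Finsupp.support_filter, Finset.mem_filter] at hx
    exact hx.2) (by
    intro u
    have h1 := C.bD_filter w (k + 1) u
    rw [hw', C.bD_apply] at h1
    have h2 : (w.filter (fun x => L.rk x = k + 1)).sum (fun x b => L.ep u x • b) = 0 := by
      rw [h1]; simp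
    exact h2)
  have h3 : w.filter (fun x => L.rk x = k + 1) = C.bD ℤ v := by
    ext u
    rw [C.bD_apply, hv2 u]
    rfl
  have h4 := C.bd_PH (B := ℤ) (k + 1) v
  rw [one_smul, ← h3, C.PH_filter] at h4
  refine ⟨y + ((-1 : ℤ) ^ (k + 1 + 1)) • C.PH ℤ (k + 1 + 1) v, ?_⟩
  rw [map_add, map_zsmul, h4, smul_smul, ConeD.sq_one, one_smul, hy']
  exact add_comm _ _

theorem cellH_of_hzero' {P : Type} [PartialOrder P] (L : LowP P) (N : ℕ)
    (hN : ∀ x, L.rk x ≤ N) (k : ℕ) (hk : 1 ≤ k)
    (h : HZero P k) : CellH L.rk L.ep k := by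
  obtain ⟨k, rfl⟩ : ∃ k', k = k' + 1 := ⟨k - 1, by omega⟩
  letI := unitAct P
  obtain ⟨C⟩ := exists_cone_unit L N hN
  intro z hz hz2
  let ρ : Representation ℤ TG ℤ := 1
  have hf : ∀ (g : TG) (v : P), g • v = v → g = 1 := fun _ _ _ => rfl
  have h1 : C.bD ℤ z = 0 := by
    ext u
    rw [C.bD_apply]
    exact hz2 u
  have h2 := C.bd_PH (B := ℤ) k z
  rw [one_smul, h1, map_zero, smul_zero] at h2
  obtain ⟨y, hy⟩ := h (C.PH ℤ (k + 1) z) h2
  obtain ⟨v, hv⟩ := C.CL2 ρ z hz (by rw [h1, map_zero]) y (by rw [hy])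
  have hv' : z = C.bD ℤ v := eq_of_sm_unit hf ρ hv
  refine ⟨v.filter (fun x => L.rk x = k + 1 + 1), ?_, ?_⟩
  · intro x hx
    rw [Finsupp.support_filter, Finset.mem_filter] at hx
    exact hx.2
  · intro u
    have h3 := C.bD_filter v (k + 1 + 1) u
    rw [C.bD_apply, ← hv'] at h3
    have h4 : (v.filter (fun x => L.rk x = k + 1 + 1)).sum (fun x b => L.ep u x * b) =
        if L.rk u + 1 = k + 1 + 1 then z u else 0 := h3
    rw [h4]
    by_cases h5 : L.rk u = k + 1
    · rw [if_pos (by omega)]
    · rw [if_neg (by omega)]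
      by_contra h6
      exact h5 (hz u (Finsupp.mem_support_iff.2 h6))

end Pool.Agent.Helper635.PD4
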