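import Pool.Agent.Helper635_PD4.DualAux4

/-!
# Dual, part 5: the cone of the opposite poset
-/

open scoped Classical

namespace Pool.Agent.Helper635.PD4

open OrderDual

section
variable {Γ : Type} {P : Type} [Group Γ] [PartialOrder P] [OrdAct Γ P]

/-- the action on the opposite poset -/
@[instance_reducible]
def dualAct : OrdAct Γ Pᵒᵈ where
  smul g x := toDual (g • ofDual x)
  one_smul x := congrArg toDual (one_smul Γ (ofDual x))
  mul_smul g h x := congrArg toDual (mul_smul g h (ofDual x))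
  smul_le g _ _ h := OrdAct.smul_le g _ _ h

/-- the dual of a finite set -/
def dF (A : Finset P) : Finset Pᵒᵈ := A.map toDual.toEmbedding

theorem mem_dF (A : Finset P) (x : P) : toDual x ∈ dF A ↔ x ∈ A := by
  unfold dF
  rw [Finset.mem_map]
  constructor
  · rintro ⟨y, hy, he⟩
    have : y = x := toDual.injective he
    rwa [← this]
  · intro h
    exact ⟨x, h, rfl⟩

theorem mem_dF' (A : Finset P) (x : Pᵒᵈ) : x ∈ dF A ↔ ofDual x ∈ A := mem_dF A (ofDual x)

theorem dF_inj {A B : Finset P} (h : dF A = dF B) : A = B := Finset.map_injective _ h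

theorem card_dF (A : Finset P) : (dF A).card = A.card := Finset.card_map _

theorem dF_singleton (x : P) : dF {x} = {toDual x} := by
  ext y
  rw [mem_dF', Finset.mem_singleton, Finset.mem_singleton]
  rfl

theorem chain_dF {A : Finset P} (h : IsChain (· ≤ ·) (A : Set P)) :
    IsChain (· ≤ ·) (dF A : Set Pᵒᵈ) := by
  intro x hx y hy hxy
  rw [Finset.mem_coe, mem_dF'] at hx hy
  exact (h hx hy (fun e => hxy (ofDual.injective e))).symm

theorem chain_of_dF {A : Finset P} (h : IsChain (· ≤ ·) (dF A : Set Pᵒᵈ)) :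
    IsChain (· ≤ ·) (A : Set P) := by
  intro x hx y hy hxy
  have := h (Finset.mem_coe.2 ((mem_dF A x).2 hx)) (Finset.mem_coe.2 ((mem_dF A y).2 hy))
    (fun e => hxy (toDual.injective e))
  exact this.symm

theorem pos_anti {P Q : Type*} [PartialOrder P] [PartialOrder Q] (φ : P ≃ Q)
    (hφ : ∀ x y, φ x < φ y ↔ y < x) {A : Finset P} (h : IsChain (· ≤ ·) (A : Set P)) {a : P}
    (ha : a ∈ A) :
    pos (A.map φ.toEmbedding) (φ a) + pos A a + 1 = A.card := by
  have h1 : pos (A.map φ.toEmbedding) (φ a) = (A.filter (fun x => a < x)).card := by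
    unfold pos
    rw [Finset.filter_map, Finset.card_map]
    congr 1
    apply Finset.filter_congr
    intro x _
    exact hφ x a
  have h2 : A = (A.filter (fun x => a < x)) ∪ ((A.filter (fun x => x < a)) ∪ {a}) := by
    ext x
    simp only [Finset.mem_union, Finset.mem_filter, Finset.mem_singleton]
    constructor
    · intro hx
      by_cases hxa : x = a
      · exact Or.inr (Or.inr hxa)
      · rcases h (Finset.mem_coe.2 hx) (Finset.mem_coe.2 ha) hxa with h3 | h3
        · exact Or.inr (Or.inl ⟨hx, lt_of_le_of_ne h3 hxa⟩)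
        · exact Or.inl ⟨hx, lt_of_le_of_ne h3 (Ne.symm hxa)⟩
    · rintro (h3 | h3 | h3)
      · exact h3.1
      · exact h3.1
      · rw [h3]; exact ha
  rw [h1]
  unfold pos
  conv_rhs => rw [h2]
  rw [Finset.card_union_of_disjoint, Finset.card_union_of_disjoint, Finset.card_singleton]
  · ring
  · rw [Finset.disjoint_singleton_right, Finset.mem_filter]
    exact fun h3 => lt_irrefl _ h3.2
  · rw [Finset.disjoint_left]
    intro x hx hx2
    rw [Finset.mem_filter] at hx
    rw [Finset.mem_union, Finset.mem_filter, Finset.mem_singleton] at hx2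
    rcases hx2 with h3 | h3
    · exact lt_asymm hx.2 h3.2
    · rw [h3] at hx; exact lt_irrefl _ hx.2

theorem dE_anti {P Q : Type*} [PartialOrder P] [PartialOrder Q] (φ : P ≃ Q)
    (hφ : ∀ x y, φ x < φ y ↔ y < x) {A : Finset P} (h : IsChain (· ≤ ·) (A : Set P))
    (A' : Finset P) :
    dE (A'.map φ.toEmbedding) (A.map φ.toEmbedding) = (-1) ^ (A.card + 1) * dE A' A := by
  unfold dE
  rw [Finset.mul_sum, Finset.sum_map]
  apply Finset.sum_congr rfl
  intro a ha
  have e1 : φ.toEmbedding a = φ a := rfl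
  rw [e1]
  have h1 : (A'.map φ.toEmbedding = (A.map φ.toEmbedding).erase (φ a)) ↔ A' = A.erase a := by
    have e2 : (A.map φ.toEmbedding).erase (φ a) = (A.erase a).map φ.toEmbedding := by
      ext y
      simp only [Finset.mem_erase, Finset.mem_map_equiv]
      constructor
      · rintro ⟨a1, a2⟩
        exact ⟨fun e => a1 (by rw [← e]; simp), a2⟩
      · rintro ⟨a1, a2⟩
        exact ⟨fun e => a1 (by rw [e]; simp), a2⟩
    rw [e2]
    exact ⟨fun h => Finset.map_injective _ h, fun h => by rw [h]⟩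
  by_cases h2 : A' = A.erase a
  · rw [if_pos (h1.2 h2), if_pos h2]
    have h3 := pos_anti φ hφ h ha
    rw [← h3]
    have h5 : (-1 : ℤ) ^ (pos (A.map φ.toEmbedding) (φ a) + pos A a + 1 + 1) * (-1) ^ pos A a =
        (-1) ^ pos (A.map φ.toEmbedding) (φ a) * ((-1) ^ pos A a * (-1) ^ pos A a) := by
      rw [pow_add, pow_add, pow_add]; ring
    rw [h5, ConeD.sq_one, mul_one]
  · rw [if_neg (fun h3 => h2 (h1.1 h3)), if_neg h2, mul_zero]

theorem dE_dF {A : Finset P} (h : IsChain (· ≤ ·) (A : Set P)) (A' : Finset P) :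
    dE (dF A') (dF A) = (-1) ^ (A.card + 1) * dE A' A :=
  dE_anti (P := P) (Q := Pᵒᵈ) toDual (fun _ _ => toDual_lt_toDual) h A'

/-- the identification of chains -/
def eN : NCh P ≃ NCh Pᵒᵈ where
  toFun A := ⟨dF A.1, Finset.map_nonempty.2 A.2.1, chain_dF A.2.2⟩
  invFun A := ⟨A.1.map ofDual.toEmbedding, Finset.map_nonempty.2 A.2.1, by
    have h : dF (A.1.map ofDual.toEmbedding) = A.1 := by
      unfold dF; rw [Finset.map_map]; ext x; simp
    apply chain_of_dF
    rw [h]
    exact A.2.2⟩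
  left_inv A := by
    apply Subtype.ext
    show (dF A.1).map ofDual.toEmbedding = A.1
    unfold dF; rw [Finset.map_map]; ext x; simp
  right_inv A := by
    apply Subtype.ext
    show dF (A.1.map ofDual.toEmbedding) = A.1
    unfold dF; rw [Finset.map_map]; ext x; simp

/-- the identification of the bases of the cones -/
def eE : NCh P ⊕ P ≃ NCh Pᵒᵈ ⊕ Pᵒᵈ := Equiv.sumCongr eN toDual

theorem eE_smul (g : Γ) (v : NCh P ⊕ P) :
    letI := dualAct (Γ := Γ) (P := P)
    eE (g • v) = g • eE v := by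
  letI := dualAct (Γ := Γ) (P := P)
  rcases v with A | x
  · show Sum.inl (eN (g • A)) = Sum.inl (g • eN A)
    congr 1
    apply Subtype.ext
    show dF (A.1.map _) = (dF A.1).map _
    unfold dF
    rw [Finset.map_map, Finset.map_map]
    rfl
  · rfl

end

/-- the data of the fundamental chains in the dual poset -/
noncomputable def psi {P : Type} [PartialOrder P] (ori : P → ℤ) (ep : P → P → ℤ) (A : Finset P)
    (x : P) : ℤ :=
  phi (P := Pᵒᵈ) (fun x => ori (ofDual x)) (fun x y => ep (ofDual y) (ofDual x)) (dF A) (toDual x)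

theorem psi_singleton {P : Type} [PartialOrder P] (ori : P → ℤ) (ep : P → P → ℤ) (x : P) :
    psi ori ep {x} x = ori x := by
  unfold psi
  rw [dF_singleton, PhiAux.phi_singleton]
  rfl

theorem psi_insert {P : Type} [PartialOrder P] (ori : P → ℤ) (ep : P → P → ℤ) {A : Finset P}
    {m x : P} (hm : m ∈ A) (hmin : ∀ b ∈ A, m ≤ b) (hmx : x < m) :
    psi ori ep (insert x A) x = psi ori ep A m * ep x m := by
  have h := PhiAux.phi_insert (P := Pᵒᵈ) (fun x => ori (ofDual x))
    (fun x y => ep (ofDual y) (ofDual x)) ((mem_dF A m).2 hm) (fun b hb =>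
    hmin _ ((mem_dF' A b).1 hb)) (toDual_lt_toDual.2 hmx)
  refine Eq.trans ?_ h
  unfold psi
  congr 1
  ext y
  rw [mem_dF', Finset.mem_insert, Finset.mem_insert, mem_dF']
  rfl

theorem psi_ne {P : Type} [PartialOrder P] {ori : P → ℤ} {ep : P → P → ℤ} {A : Finset P} {x : P}
    (h : psi ori ep A x ≠ 0) : x ∈ A ∧ ∀ b ∈ A, x ≤ b := by
  unfold psi phi at h
  split_ifs at h with h1
  · refine ⟨(mem_dF A x).1 h1.1, fun b hb => ?_⟩
    exact h1.2 (toDual b) ((mem_dF A b).2 hb)
  · exact absurd rfl h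

theorem phi_neD {P : Type*} [PartialOrder P] {a : P → ℤ} {ep : P → P → ℤ} {A : Finset P} {x : P}
    (h : phi a ep A x ≠ 0) : x ∈ A ∧ ∀ b ∈ A, b ≤ x := by
  unfold phi at h
  split_ifs at h with h1
  · exact h1
  · exact absurd rfl h

section
variable {Γ P : Type} [Group Γ] [PartialOrder P] [OrdAct Γ P] {n : ℕ} (L : LocP P n)

theorem gr_dual : Gr (Q := Pᵒᵈ) (fun x => n - L.rk (ofDual x))
    (fun x y => L.ep (ofDual y) (ofDual x)) := by
  constructor
  · intro x y h
    have h1 := L.gr.lt (ofDual y) (ofDual x) h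
    have h2 := L.rk_le (ofDual x)
    show n - L.rk (ofDual x) < n - L.rk (ofDual y)
    omega
  · intro x y h
    have h1 := L.gr.ne _ _ h
    have h2 := L.rk_le (ofDual x)
    refine ⟨h1.1, ?_⟩
    show n - L.rk (ofDual y) = n - L.rk (ofDual x) + 1
    have h3 := h1.2
    omega

/-- the cone of the opposite poset, written on the basis of the cone of `P` -/
theorem exists_cone_dual
    (hfree : ∀ (g : Γ) (x : P), g • x = x → g = 1)
    (hrk : ∀ (g : Γ) (x : P), L.rk (g • x) = L.rk x)
    (hep : ∀ (g : Γ) (x y : P), L.ep (g • x) (g • y) = L.ep x y)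
    (hori : ∀ (g : Γ) (x : P), L.ori (g • x) = L.ori x) :
    Nonempty (ConeD Γ P (fun x => n - L.rk x) (fun x y => L.ep y x) (psi L.ori L.ep)
      (fun k => (-1) ^ (k + 1))) := by
  letI := dualAct (Γ := Γ) (P := P)
  obtain ⟨dd, hh, h1, h2, h3, h4⟩ := cone_contraction (Γ := Γ) (P := Pᵒᵈ)
    (fun x => n - L.rk (ofDual x)) (fun x => L.ori (ofDual x))
    (fun x y => L.ep (ofDual y) (ofDual x)) n (gr_dual L) (fun x => Nat.sub_le _ _)
    (fun x h => by
      have h1 := L.ori_ne _ h
      show n - L.rk (ofDual x) = 0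
      omega) (fun y => L.up (ofDual y)) (fun g x h => hfree g (ofDual x) h)
    (fun g x => by
      show n - L.rk (g • ofDual x) = n - L.rk (ofDual x)
      rw [hrk]) (fun g x y => hep g _ _) (fun g x => hori g _)
  set e : (NCh P ⊕ P →₀ ℤ) ≃ₗ[ℤ] (NCh Pᵒᵈ ⊕ Pᵒᵈ →₀ ℤ) := Finsupp.domLCongr eE with he
  have he1 : ∀ v c, e (Finsupp.single v c) = Finsupp.single (eE v) c := by
    intro v c
    rw [he, Finsupp.domLCongr_single]
  have he2 : ∀ z v, e.symm z v = z (eE v) := by
    intro z v
    rw [he]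
    rfl
  have he3 : ∀ (g : Γ) (z : NCh P ⊕ P →₀ ℤ), e (z.mapDomain (fun v => g • v)) =
      (e z).mapDomain (fun v => g • v) := by
    intro g z
    induction z using Finsupp.induction_linear with
    | zero => simp
    | add x y hx hy => rw [Finsupp.mapDomain_add, map_add, hx, hy, map_add, Finsupp.mapDomain_add]
    | single v c => rw [Finsupp.mapDomain_single, he1, he1, Finsupp.mapDomain_single, eE_smul]
  have hm : ∀ u v, e.symm (dd (e (Finsupp.single u 1))) v = cD (P := Pᵒᵈ)
      (fun x => n - L.rk (ofDual x)) (fun x => L.ori (ofDual x))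
      (fun x y => L.ep (ofDual y) (ofDual x)) (eE v) (eE u) := by
    intro u v
    rw [he2, he1, h1]
  exact ⟨{
    dd := (e.symm : (NCh Pᵒᵈ ⊕ Pᵒᵈ →₀ ℤ) →ₗ[ℤ] (NCh P ⊕ P →₀ ℤ)).comp
      (dd.comp (e : (NCh P ⊕ P →₀ ℤ) →ₗ[ℤ] (NCh Pᵒᵈ ⊕ Pᵒᵈ →₀ ℤ)))
    hh := (e.symm : (NCh Pᵒᵈ ⊕ Pᵒᵈ →₀ ℤ) →ₗ[ℤ] (NCh P ⊕ P →₀ ℤ)).comp
      (hh.comp (e : (NCh P ⊕ P →₀ ℤ) →ₗ[ℤ] (NCh Pᵒᵈ ⊕ Pᵒᵈ →₀ ℤ)))
    dd_ll := fun A A' => (hm _ _).trans (dE_dF A.2.2 A'.1)
    dd_lr := fun A x => hm _ _
    dd_rl := fun x A => hm _ _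
    dd_rr := fun x y => hm _ _
    dd_dd := fun z => by
      show e.symm (dd (e (e.symm (dd (e z))))) = 0
      rw [LinearEquiv.apply_symm_apply, h2, map_zero]
    contr := fun z => by
      show e.symm (dd (e (e.symm (hh (e z))))) + e.symm (hh (e (e.symm (dd (e z))))) = z
      rw [LinearEquiv.apply_symm_apply, LinearEquiv.apply_symm_apply, ← map_add, h3,
        LinearEquiv.symm_apply_apply]
    hh_eq := fun g z => by
      show e.symm (hh (e (z.mapDomain (fun v => g • v)))) =
        (e.symm (hh (e z))).mapDomain (fun v => g • v)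
      rw [LinearEquiv.symm_apply_eq, he3, he3, LinearEquiv.apply_symm_apply]
      exact h4 g (e z)
    free := hfree
    rk_smul := fun g x => by
      show n - L.rk (g • x) = n - L.rk x
      rw [hrk]
    ep_smul := fun g x y => hep g y x
    ph_smul := fun g A x => by
      have h5 := PhiAux.phi_smul (Γ := Γ) (P := Pᵒᵈ) (a := fun x => L.ori (ofDual x))
        (ep := fun x y => L.ep (ofDual y) (ofDual x)) (fun g x y => hep g _ _)
        (fun g x => hori g _) g (dF A) (toDual x)
      have h6 : dF (A.map (MulAction.toPerm g).toEmbedding) =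
          (dF A).map (MulAction.toPerm g).toEmbedding := by
        unfold dF
        rw [Finset.map_map, Finset.map_map]
        rfl
      unfold psi
      rw [h6]
      exact h5
    ep_ne := fun x y h => by
      have h5 := (L.gr.ne _ _ h).2
      have h6 := L.rk_le x
      show n - L.rk y = n - L.rk x + 1
      omega
    ph_ne := fun A x h => by
      have h5 := PhiAux.phi_card (P := Pᵒᵈ) (gr_dual L) (fun x h => by
        have h1 := L.ori_ne _ h
        show n - L.rk (ofDual x) = 0
        omega) h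
      rw [card_dF] at h5
      exact h5
    eps := fun k => ConeD.sq_one _ }⟩

end

end Pool.Agent.Helper635.PD4
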