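import Pool.Agent.Helper635_PD4.DualAux5

/-!
# Dual, part 6: the cap product
-/

open scoped Classical

namespace Pool.Agent.Helper635.PD4

section
variable {Γ : Type*} [Group Γ] {V U : Type*} [MulAction Γ V] [MulAction Γ U]
variable {B B' : Type*} [AddCommGroup B] [AddCommGroup B']

theorem rel_of_tr (ρ : Representation ℤ Γ B) (g : Γ) (w1 w2 : V →₀ B)
    (h : ∀ u, w1 (g • u) = ρ g (w2 u)) : w1 - w2 ∈ RelV V ρ := by
  have h1 : w1 = (w2.mapRange (ρ g) (map_zero _)).mapDomain (fun v => g • v) := by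
    ext u
    have e : u = g • (g⁻¹ • u) := (smul_inv_smul g u).symm
    rw [e, Finsupp.mapDomain_apply (MulAction.injective g), Finsupp.mapRange_apply, h]
  rw [h1]
  clear h1 h
  induction w2 using Finsupp.induction_linear with
  | zero => simp only [Finsupp.mapRange_zero, Finsupp.mapDomain_zero, sub_zero]
            exact AddSubgroup.zero_mem _
  | add a b ha hb =>
    rw [Finsupp.mapRange_add (fun x y => map_add _ x y), Finsupp.mapDomain_add, add_sub_add_comm]
    exact AddSubgroup.add_mem _ ha hb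
  | single v b =>
    rw [Finsupp.mapRange_single, Finsupp.mapDomain_single]
    exact mem_relV_single ρ g v b

theorem map_rel (ρ : Representation ℤ Γ B) (ρ' : Representation ℤ Γ B')
    (K : (V →₀ B) →+ (U →₀ B'))
    (hK : ∀ (g : Γ) (v : V) (b : B) (u : U),
      K (Finsupp.single (g • v) (ρ g b)) (g • u) = ρ' g (K (Finsupp.single v b) u))
    {z : V →₀ B} (hz : z ∈ RelV V ρ) : K z ∈ RelV U ρ' := by
  unfold RelV at hz
  induction hz using AddSubgroup.closure_induction with
  | mem x hx =>
    obtain ⟨g, v, b, rfl⟩ := hx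
    rw [map_sub]
    exact rel_of_tr ρ' g _ _ (hK g v b)
  | zero => rw [map_zero]; exact AddSubgroup.zero_mem _
  | add x y _ _ hx hy => rw [map_add]; exact AddSubgroup.add_mem _ hx hy
  | neg x _ hx => rw [map_neg]; exact AddSubgroup.neg_mem _ hx

end

section
variable {Γ P : Type*} [Group Γ] [PartialOrder P] [OrdAct Γ P] {B : Type*} [AddCommGroup B]

theorem bd_rel (ρ : Representation ℤ Γ B) {k : ℕ} {z : Simp P (k + 1) →₀ B}
    (hz : z ∈ RelV (Simp P (k + 1)) ρ) : bd z ∈ RelV (Simp P k) ρ := by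
  apply map_rel ρ ρ bd _ hz
  intro g A b A'
  rw [bd_single_apply, bd_single_apply, smul_s, smul_s, PhiAux.dE_smul, map_zsmul]

end

/-! ### front and back faces -/

section fb
variable {P : Type*} [PartialOrder P] {n : ℕ}

theorem exists_mid (i j : ℕ) (h : i + j = n) (A : Simp P n) : ∃ x ∈ A.s, pos A.s x = i := by
  have h1 : i ∈ Finset.range A.s.card := by rw [A.card, Finset.mem_range]; omega
  rw [← pos_image A.chain] at h1
  obtain ⟨x, hx, h2⟩ := Finset.mem_image.1 h1
  exact ⟨x, hx, h2⟩

theorem le_of_pos_le {A : Finset P} (hA : IsChain (· ≤ ·) (A : Set P)) {x b : P} (hx : x ∈ A)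
    (hb : b ∈ A) (h : pos A b ≤ pos A x) : b ≤ x := by
  by_cases he : b = x
  · exact he.le
  · rcases hA hb hx he with h1 | h1
    · exact h1
    · exact absurd (pos_lt_of_lt hx (lt_of_le_of_ne h1 (Ne.symm he))) (by omega)

theorem mem_front (i : ℕ) (h : i ≤ n) (A : Simp P n) (a : P) :
    a ∈ (front i h A).s ↔ a ∈ A.s ∧ pos A.s a ≤ i := Finset.mem_filter

theorem mem_back (i j : ℕ) (h : i + j = n) (A : Simp P n) (a : P) :
    a ∈ (back i j h A).s ↔ a ∈ A.s ∧ i ≤ pos A.s a := Finset.mem_filter

theorem pos_le_of_le {A : Finset P} {x b : P} (h : b ≤ x) : pos A b ≤ pos A x := by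
  unfold pos
  apply Finset.card_le_card
  intro y hy
  rw [Finset.mem_filter] at hy ⊢
  exact ⟨hy.1, hy.2.trans_le h⟩

theorem exists_mn {A : Finset P} (hA : A.Nonempty) (hc : IsChain (· ≤ ·) (A : Set P)) :
    ∃ m ∈ A, ∀ a ∈ A, m ≤ a := by
  obtain ⟨m, hm⟩ := Finset.exists_minimal hA
  refine ⟨m, hm.1, fun a ha => ?_⟩
  by_cases h : a = m
  · exact h.ge
  · rcases hc ha hm.1 h with h1 | h1
    · exact hm.2 ha h1
    · exact h1

/-- joining two chains at a vertex -/
theorem join_spec {i j : ℕ} (h : i + j = n) (A1 : Simp P i) (A2 : Simp P j) (x : P)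
    (h1 : x ∈ A1.s) (h1' : ∀ b ∈ A1.s, b ≤ x) (h2 : x ∈ A2.s) (h2' : ∀ b ∈ A2.s, x ≤ b) :
    ∃ A : Simp P n, A.s = A1.s ∪ A2.s ∧ front i (by omega) A = A1 ∧ back i j h A = A2 := by
  have hchain : IsChain (· ≤ ·) ((A1.s ∪ A2.s : Finset P) : Set P) := by
    intro a ha b hb hab
    rw [Finset.mem_coe, Finset.mem_union] at ha hb
    rcases ha with ha | ha <;> rcases hb with hb | hb
    · exact A1.chain ha hb hab
    · exact Or.inl ((h1' a ha).trans (h2' b hb))
    · exact Or.inr ((h1' b hb).trans (h2' a ha))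
    · exact A2.chain ha hb hab
  have hinter : A1.s ∩ A2.s = {x} := by
    ext a
    rw [Finset.mem_inter, Finset.mem_singleton]
    constructor
    · rintro ⟨ha, ha2⟩
      exact le_antisymm (h1' a ha) (h2' a ha2)
    · rintro rfl
      exact ⟨h1, h2⟩
  have hcard : (A1.s ∪ A2.s).card = n + 1 := by
    have h3 := Finset.card_union_add_card_inter A1.s A2.s
    rw [hinter, Finset.card_singleton, A1.card, A2.card] at h3
    omega
  have hpos1 : ∀ b ∈ A1.s, pos (A1.s ∪ A2.s) b = pos A1.s b := by
    intro b hb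
    unfold pos
    congr 1
    ext y
    rw [Finset.mem_filter, Finset.mem_filter, Finset.mem_union]
    constructor
    · rintro ⟨hy | hy, hy2⟩
      · exact ⟨hy, hy2⟩
      · exact absurd (((h1' b hb).trans (h2' y hy)).trans_lt hy2) (lt_irrefl _)
    · rintro ⟨hy, hy2⟩
      exact ⟨Or.inl hy, hy2⟩
  have hposx : pos A1.s x = i := by
    have h3 : A1.s = insert x (A1.s.filter (fun y => y < x)) := by
      ext y
      rw [Finset.mem_insert, Finset.mem_filter]
      constructor
      · intro hy
        by_cases he : y = x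
        · exact Or.inl he
        · exact Or.inr ⟨hy, lt_of_le_of_ne (h1' y hy) he⟩
      · rintro (rfl | hy)
        · exact h1
        · exact hy.1
    have h4 := A1.card
    rw [h3, Finset.card_insert_of_notMem (by
      rw [Finset.mem_filter]; exact fun h => lt_irrefl _ h.2)] at h4
    unfold pos
    omega
  refine ⟨⟨A1.s ∪ A2.s, hchain, hcard⟩, rfl, ?_, ?_⟩
  · apply Simp.ext
    ext b
    rw [mem_front]
    show b ∈ A1.s ∪ A2.s ∧ pos (A1.s ∪ A2.s) b ≤ i ↔ b ∈ A1.s
    rw [Finset.mem_union]
    constructor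
    · rintro ⟨hb | hb, hb2⟩
      · exact hb
      · have h3 : b ≤ x := by
          apply le_of_pos_le hchain (Finset.mem_union_left _ h1) (Finset.mem_union_right _ hb)
          rw [hpos1 x h1, hposx]
          exact hb2
        rw [le_antisymm h3 (h2' b hb)]
        exact h1
    · intro hb
      refine ⟨Or.inl hb, ?_⟩
      rw [hpos1 b hb]
      have := pos_lt_card hb
      rw [A1.card] at this
      omega
  · apply Simp.ext
    ext b
    rw [mem_back]
    show b ∈ A1.s ∪ A2.s ∧ i ≤ pos (A1.s ∪ A2.s) b ↔ b ∈ A2.s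
    rw [Finset.mem_union]
    constructor
    · rintro ⟨hb | hb, hb2⟩
      · have h3 : x ≤ b := by
          apply le_of_pos_le hchain (Finset.mem_union_left _ hb) (Finset.mem_union_left _ h1)
          rw [hpos1 x h1, hposx]
          exact hb2
        rw [le_antisymm (h1' b hb) h3]
        exact h2
      · exact hb
    · intro hb
      refine ⟨Or.inr hb, ?_⟩
      have h3 : pos (A1.s ∪ A2.s) x ≤ pos (A1.s ∪ A2.s) b := pos_le_of_le (h2' b hb)
      rw [hpos1 x h1, hposx] at h3
      exact h3

theorem front_back_spec {i j : ℕ} (h : i + j = n) (A : Simp P n) :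
    ∃ x, x ∈ (front i (by omega) A).s ∧ (∀ b ∈ (front i (by omega) A).s, b ≤ x) ∧
      x ∈ (back i j h A).s ∧ (∀ b ∈ (back i j h A).s, x ≤ b) ∧
      A.s = (front i (by omega) A).s ∪ (back i j h A).s := by
  obtain ⟨x, hx, hx2⟩ := exists_mid i j h A
  refine ⟨x, ?_, ?_, ?_, ?_, ?_⟩
  · rw [mem_front]; exact ⟨hx, hx2.le⟩
  · intro b hb
    rw [mem_front] at hb
    exact le_of_pos_le A.chain hx hb.1 (by omega)
  · rw [mem_back]; exact ⟨hx, hx2.ge⟩
  · intro b hb
    rw [mem_back] at hb
    exact le_of_pos_le A.chain hb.1 hx (by omega)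
  · ext b
    rw [Finset.mem_union, mem_front, mem_back]
    constructor
    · intro hb
      rcases le_total (pos A.s b) i with h1 | h1
      · exact Or.inl ⟨hb, h1⟩
      · exact Or.inr ⟨hb, h1⟩
    · rintro (hb | hb)
      · exact hb.1
      · exact hb.1

end fb

/-! ### the coefficient of a full chain in the fundamental cycle -/

/-- the coefficient of the fundamental cycle -/
noncomputable def cc {P : Type} [PartialOrder P] (a ori : P → ℤ) (ep : P → P → ℤ) (A : Finset P) :
    ℤ := ∑ x ∈ A, phi a ep A x * ori x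

theorem cc_eq {P : Type} [PartialOrder P] (a ori : P → ℤ) (ep : P → P → ℤ) {A : Finset P} {x : P}
    (hx : x ∈ A) (hmax : ∀ b ∈ A, b ≤ x) : cc a ori ep A = phi a ep A x * ori x := by
  unfold cc
  rw [Finset.sum_eq_single x]
  · intro y hy hne
    have : phi a ep A y = 0 := by
      by_contra h0
      have h1 := phi_neD h0
      exact hne (le_antisymm (hmax y hy) (h1.2 x hx))
    rw [this, zero_mul]
  · intro h; exact absurd hx h

theorem cc_join {P : Type} [PartialOrder P] (a ori : P → ℤ) (ep : P → P → ℤ) :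
    ∀ (k : ℕ) (A1 A2 : Finset P) (x : P), A2.card = k + 1 →
    x ∈ A1 → (∀ b ∈ A1, b ≤ x) → x ∈ A2 → (∀ b ∈ A2, x ≤ b) →
    IsChain (· ≤ ·) (A2 : Set P) →
    cc a ori ep (A1 ∪ A2) = phi a ep A1 x * psi ori ep A2 x := by
  intro k
  induction k with
  | zero =>
    intro A1 A2 x hc h1 h1' h2 h2' _
    have h3 : A2 = {x} := by
      obtain ⟨y, hy⟩ := Finset.card_eq_one.1 hc
      rw [hy, Finset.mem_singleton] at h2
      rw [hy, h2]
    have h4 : A1 ∪ A2 = A1 := by
      rw [h3, Finset.union_eq_left]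
      intro y hy
      rw [Finset.mem_singleton.1 hy]
      exact h1
    rw [h4, h3, psi_singleton, cc_eq a ori ep h1 h1']
  | succ k ih =>
    intro A1 A2 x hc h1 h1' h2 h2' hch
    have hc' : (A2.erase x).card = k + 1 := by
      rw [Finset.card_erase_of_mem h2, hc]; rfl
    have hch' : IsChain (· ≤ ·) ((A2.erase x : Finset P) : Set P) :=
      hch.mono (Finset.coe_subset.2 (Finset.erase_subset _ _))
    obtain ⟨m, hm, hmin⟩ := exists_mn (Finset.card_pos.1 (by rw [hc']; omega)) hch'
    have hm2 := Finset.mem_erase.1 hm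
    have hxm : x < m := lt_of_le_of_ne (h2' m hm2.2) (Ne.symm hm2.1)
    have e1 : psi ori ep A2 x = psi ori ep (A2.erase x) m * ep x m := by
      rw [← psi_insert ori ep hm hmin hxm, Finset.insert_erase h2]
    have e2 : phi a ep (insert m A1) m = phi a ep A1 x * ep x m :=
      PhiAux.phi_insert a ep h1 h1' hxm
    have e3 : A1 ∪ A2 = insert m A1 ∪ A2.erase x := by
      ext y
      simp only [Finset.mem_union, Finset.mem_insert, Finset.mem_erase]
      constructor
      · rintro (hy | hy)
        · exact Or.inl (Or.inr hy)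
        · by_cases he : y = x
          · rw [he]; exact Or.inl (Or.inr h1)
          · exact Or.inr ⟨he, hy⟩
      · rintro ((rfl | hy) | hy)
        · exact Or.inr hm2.2
        · exact Or.inl hy
        · exact Or.inr hy.2
    rw [e3, ih (insert m A1) (A2.erase x) m hc' (Finset.mem_insert_self _ _) ?_ hm hmin hch', e1,
      e2]
    · ring
    · intro b hb
      rcases Finset.mem_insert.1 hb with rfl | hb
      · exact le_rfl
      · exact (h1' b hb).trans hxm.le

section
variable {Γ P : Type} [Group Γ] [PartialOrder P] [OrdAct Γ P]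

theorem cc_smul {a ori : P → ℤ} {ep : P → P → ℤ}
    (hep : ∀ (g : Γ) (x y : P), ep (g • x) (g • y) = ep x y)
    (hag : ∀ (g : Γ) (x : P), a (g • x) = a x)
    (hori : ∀ (g : Γ) (x : P), ori (g • x) = ori x) (g : Γ) (A : Finset P) :
    cc a ori ep (A.map (MulAction.toPerm g).toEmbedding) = cc a ori ep A := by
  unfold cc
  rw [Finset.sum_map]
  apply Finset.sum_congr rfl
  intro x _
  show phi a ep (A.map (MulAction.toPerm g).toEmbedding) (g • x) * ori (g • x) = _
  rw [PhiAux.phi_smul hep hag, hori]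

theorem front_smul {n : ℕ} (i : ℕ) (h : i ≤ n) (g : Γ) (A : Simp P n) :
    front i h (g • A) = g • front i h A := by
  apply Simp.ext
  ext a
  have e : a = g • (g⁻¹ • a) := (smul_inv_smul g a).symm
  rw [e, mem_front, mem_smul_s, mem_smul_s, mem_front, smul_s, pos_map]

theorem back_smul {n : ℕ} (i j : ℕ) (h : i + j = n) (g : Γ) (A : Simp P n) :
    back i j h (g • A) = g • back i j h A := by
  apply Simp.ext
  ext a
  have e : a = g • (g⁻¹ • a) := (smul_inv_smul g a).symm
  rw [e, mem_back, mem_smul_s, mem_smul_s, mem_back, smul_s, pos_map]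

/-- finitely many orbits of simplices -/
theorem fin_orb (hI : ∀ x : P, (Set.Iic x).Finite)
    (horb : Finite (MulAction.orbitRel.Quotient Γ P)) (k : ℕ) :
    Finite (MulAction.orbitRel.Quotient Γ (Simp P k)) := by
  have hT : Finite {A : Simp P k // ∃ o : MulAction.orbitRel.Quotient Γ P,
      ∀ a ∈ A.s, a ≤ Quotient.out o} := by
    have h1 : (⋃ o : MulAction.orbitRel.Quotient Γ P,
        {A : Simp P k | ∀ a ∈ A.s, a ≤ Quotient.out o}).Finite := by
      apply Set.finite_iUnion
      intro o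
      refine Set.Finite.of_injOn (f := fun A : Simp P k => A.s)
        (t := ((hI (Quotient.out o)).toFinset.powerset : Set (Finset P))) ?_ ?_
        (Finset.finite_toSet _)
      · intro A hA
        rw [Finset.mem_coe, Finset.mem_powerset]
        intro y hy
        rw [Set.Finite.mem_toFinset]
        exact hA y hy
      · intro A _ A' _ h
        exact Simp.ext h
    have h2 := h1.to_subtype
    refine Finite.of_injective (fun A : {A : Simp P k // ∃ o : MulAction.orbitRel.Quotient Γ P,
      ∀ a ∈ A.s, a ≤ Quotient.out o} => (⟨A.1, Set.mem_iUnion.2 A.2⟩ :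
        ↥(⋃ o : MulAction.orbitRel.Quotient Γ P,
        {A : Simp P k | ∀ a ∈ A.s, a ≤ Quotient.out o}))) ?_
    intro A A' h
    exact Subtype.ext (congrArg (fun z => z.1) h)
  refine Finite.of_surjective (fun A : {A : Simp P k // ∃ o : MulAction.orbitRel.Quotient Γ P,
      ∀ a ∈ A.s, a ≤ Quotient.out o} =>
      (Quotient.mk (MulAction.orbitRel Γ (Simp P k)) A.1 :
        MulAction.orbitRel.Quotient Γ (Simp P k))) ?_
  intro q
  obtain ⟨A, rfl⟩ := Quotient.exists_rep q
  obtain ⟨m, hm, hmax⟩ := PhiAux.exists_mx (toN A)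
  refine ⟨⟨(otr Γ m)⁻¹ • A, Quotient.mk (MulAction.orbitRel Γ P) m, ?_⟩, ?_⟩
  · intro a ha
    have e : a = (otr Γ m)⁻¹ • (otr Γ m • a) := (inv_smul_smul _ a).symm
    rw [e, mem_smul_s] at ha
    have h1 := hmax _ ha
    show a ≤ orep Γ m
    rw [← smul_le_smul_iff' (otr Γ m), otr_spec]
    exact h1
  · apply Quotient.sound
    show (MulAction.orbitRel Γ (Simp P k)) _ _
    rw [MulAction.orbitRel_apply]
    exact ⟨(otr Γ m)⁻¹, rfl⟩

end

end Pool.Agent.Helper635.PD4
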