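import Pool.Agent.Helper635_PD4.Base

/-!
# Module A: finite differential groups (statements to be proved)
-/

open scoped Classical

namespace Pool.Agent.Helper635.PD4

variable {V V' : Type*}


/-! ### translation to matrices -/

/-- the matrix of a finite differential group -/
def fdM (S : Finset V) (E : V → V → ℤ) : Matrix S S ℤ := Matrix.of (fun u v => E u.1 v.1)

theorem sq_iff_mat (S : Finset V) (E : V → V → ℤ) : Sq S E ↔ fdM S E * fdM S E = 0 := by
  constructor
  · intro h
    ext u w
    rw [Matrix.mul_apply]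
    show ∑ v : S, E u.1 v.1 * E v.1 w.1 = 0
    rw [Finset.sum_coe_sort S (fun v => E u.1 v * E v w.1)]
    exact h u.1 u.2 w.1 w.2
  · intro h u hu w hw
    have h1 := congrFun (congrFun h ⟨u, hu⟩) ⟨w, hw⟩
    rw [Matrix.mul_apply] at h1
    rw [← Finset.sum_coe_sort S (fun v => E u v * E v w)]
    exact h1

theorem exa_iff_mat (S : Finset V) (E : V → V → ℤ) : Exa S E ↔
    ∀ z : S → ℤ, (fdM S E).mulVec z = 0 → ∃ y : S → ℤ, z = (fdM S E).mulVec y := by
  have key : ∀ (z : V → ℤ) (u : S), (fdM S E).mulVec (fun v : S => z v.1) u =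
      ∑ v ∈ S, E u.1 v * z v := by
    intro z u
    rw [← Finset.sum_coe_sort S (fun v => E u.1 v * z v)]
    rfl
  have ext : ∀ z : S → ℤ, ∃ z' : V → ℤ, z = fun v : S => z' v.1 := by
    intro z
    refine ⟨fun v => if h : v ∈ S then z ⟨v, h⟩ else 0, ?_⟩
    ext v
    simp only
    rw [dif_pos v.2]
  constructor
  · intro h z hz
    obtain ⟨z', rfl⟩ := ext z
    obtain ⟨y, hy⟩ := h z' (by
      intro u hu
      have := congrFun hz ⟨u, hu⟩
      rw [key] at this
      exact this)
    refine ⟨fun v : S => y v.1, ?_⟩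
    ext u
    rw [key]
    exact hy u.1 u.2
  · intro h z hz
    obtain ⟨y, hy⟩ := h (fun v : S => z v.1) (by
      ext u
      rw [key]
      exact hz u.1 u.2)
    obtain ⟨y', rfl⟩ := ext y
    refine ⟨y', ?_⟩
    intro u hu
    have := congrFun hy ⟨u, hu⟩
    rw [key] at this
    exact this

theorem ctr_iff_mat (S : Finset V) (E : V → V → ℤ) : Ctr S E ↔
    ∃ h : Matrix S S ℤ, fdM S E * h + h * fdM S E = 1 := by
  constructor
  · rintro ⟨h, hh⟩
    refine ⟨Matrix.of (fun u v => h u.1 v.1), ?_⟩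
    ext u v
    rw [Matrix.add_apply, Matrix.mul_apply, Matrix.mul_apply, ← Finset.sum_add_distrib,
      Matrix.one_apply]
    have h1 := hh u.1 u.2 v.1 v.2
    rw [← Finset.sum_coe_sort S (fun w => (E u.1 w * h w v.1 + h u.1 w * E w v.1))] at h1
    refine Eq.trans h1 ?_
    by_cases huv : u = v
    · rw [if_pos huv, if_pos (by rw [huv])]
    · rw [if_neg huv, if_neg (fun h => huv (Subtype.ext h))]
  · rintro ⟨h, hh⟩
    refine ⟨fun u v => if hu : u ∈ S then (if hv : v ∈ S then h ⟨u, hu⟩ ⟨v, hv⟩ else 0) else 0, ?_⟩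
    intro u hu v hv
    have h1 := congrFun (congrFun hh ⟨u, hu⟩) ⟨v, hv⟩
    rw [Matrix.add_apply, Matrix.mul_apply, Matrix.mul_apply, ← Finset.sum_add_distrib,
      Matrix.one_apply] at h1
    have h2 : (if (⟨u, hu⟩ : S) = ⟨v, hv⟩ then (1 : ℤ) else 0) = if u = v then 1 else 0 := by
      by_cases huv : u = v
      · rw [if_pos huv, if_pos (Subtype.ext huv)]
      · rw [if_neg huv, if_neg (fun h => huv (congrArg Subtype.val h))]
    rw [← h2, ← h1]
    rw [← Finset.sum_coe_sort S]
    apply Finset.sum_congr rfl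
    intro w _
    simp only
    rw [dif_pos w.2, dif_pos hv, dif_pos hu, dif_pos w.2]
    rfl

theorem lin_ctr {L : Type*} [AddCommGroup L] [Module.Free ℤ L] [Module.Finite ℤ L]
    (d : L →ₗ[ℤ] L) (hsq : ∀ x, d (d x) = 0) (hex : ∀ x, d x = 0 → ∃ y, x = d y) :
    ∃ h : L →ₗ[ℤ] L, ∀ x, d (h x) + h (d x) = x := by
  obtain ⟨s, hs⟩ := Module.projective_lifting_property d.rangeRestrict
    (LinearMap.id : LinearMap.range d →ₗ[ℤ] LinearMap.range d) d.surjective_rangeRestrict
  have hs' : ∀ x : LinearMap.range d, d (s x) = x.1 := by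
    intro x
    have := LinearMap.congr_fun hs x
    exact congrArg Subtype.val this
  set t : L →ₗ[ℤ] L := LinearMap.id - s.comp d.rangeRestrict with ht
  have hmem : ∀ x : L, t x ∈ LinearMap.range d := by
    intro x
    obtain ⟨y, hy⟩ := hex (t x) (by
      rw [ht, LinearMap.sub_apply, map_sub]
      show d x - d (s (d.rangeRestrict x)) = 0
      rw [hs']
      exact sub_self _)
    exact ⟨y, hy.symm⟩
  refine ⟨s.comp (t.codRestrict (LinearMap.range d) hmem), ?_⟩
  intro x
  rw [LinearMap.comp_apply, LinearMap.comp_apply, hs']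
  have h1 : (t.codRestrict (LinearMap.range d) hmem) (d x) = d.rangeRestrict x := by
    apply Subtype.ext
    show d x - s (d.rangeRestrict (d x)) = d x
    have h2 : d.rangeRestrict (d x) = 0 := Subtype.ext (hsq x)
    rw [h2, map_zero, sub_zero]
  rw [h1]
  show x - s (d.rangeRestrict x) + s (d.rangeRestrict x) = x
  abel

/-- splitting sums over a disjoint union -/
theorem sum_AB (A B : Finset V) (hd : Disjoint A B) (g : V → ℤ) :
    ∑ v ∈ A ∪ B, g v = ∑ v ∈ A, g v + ∑ v ∈ B, g v := Finset.sum_union hd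

theorem sq_apply (S : Finset V) (E : V → V → ℤ) (hsq : Sq S E) (y : V → ℤ) (u : V) (hu : u ∈ S) :
    ∑ v ∈ S, E u v * (∑ w ∈ S, E v w * y w) = 0 := by
  have h1 : ∑ v ∈ S, E u v * (∑ w ∈ S, E v w * y w) =
      ∑ w ∈ S, (∑ v ∈ S, E u v * E v w) * y w := by
    simp only [Finset.mul_sum, Finset.sum_mul]
    rw [Finset.sum_comm]
    apply Finset.sum_congr rfl
    intro w _
    apply Finset.sum_congr rfl
    intro v _
    ring
  rw [h1]
  apply Finset.sum_eq_zero
  intro w hw
  rw [hsq u hu w hw, zero_mul]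

/-- the function equal to `y` on `B` and to `x` elsewhere -/
noncomputable def mixF (B : Finset V) (y x : V → ℤ) : V → ℤ := fun v => if v ∈ B then y v else x v

theorem mixF_B {B : Finset V} {y x : V → ℤ} {v : V} (h : v ∈ B) : mixF B y x v = y v := if_pos h

theorem mixF_A {A B : Finset V} (hd : Disjoint A B) {y x : V → ℤ} {v : V} (h : v ∈ A) :
    mixF B y x v = x v := if_neg (fun h2 => Finset.disjoint_left.1 hd h h2)

theorem sum_mixF (A B : Finset V) (hd : Disjoint A B) (g y x : V → ℤ) :
    ∑ v ∈ A ∪ B, g v * mixF B y x v = ∑ v ∈ A, g v * x v + ∑ v ∈ B, g v * y v := by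
  rw [sum_AB A B hd]
  congr 1
  · apply Finset.sum_congr rfl
    intro v hv
    rw [mixF_A hd hv]
  · apply Finset.sum_congr rfl
    intro v hv
    rw [mixF_B hv]

theorem sum_B (A B : Finset V) (E : V → V → ℤ) (hd : Disjoint A B)
    (hAB : ∀ b ∈ B, ∀ a ∈ A, E b a = 0) (z : V → ℤ) (b : V) (hb : b ∈ B) :
    ∑ v ∈ A ∪ B, E b v * z v = ∑ v ∈ B, E b v * z v := by
  rw [sum_AB A B hd]
  have : ∑ v ∈ A, E b v * z v = 0 := by
    apply Finset.sum_eq_zero
    intro v hv
    rw [hAB b hb v hv, zero_mul]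
  rw [this, zero_add]

/-- ungraded version of: a bounded exact complex of finitely generated free abelian groups is
contractible. (Given `Sq`, `ker E = im E` on `ℤ^S`; `im E` is free, so `E : ℤ^S → im E` splits,
and `ℤ^S / ker E ≃ im E` is free, so `ker E` is a direct summand.) -/
theorem exa_iff_ctr (S : Finset V) (E : V → V → ℤ) (hsq : Sq S E) : Exa S E ↔ Ctr S E := by
  rw [exa_iff_mat, ctr_iff_mat]
  rw [sq_iff_mat] at hsq
  constructor
  · intro h
    obtain ⟨g, hg⟩ := lin_ctr (Matrix.toLin' (fdM S E)) (by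
      intro x
      rw [Matrix.toLin'_apply, Matrix.toLin'_apply, Matrix.mulVec_mulVec, hsq,
        Matrix.zero_mulVec]) (by
      intro x hx
      rw [Matrix.toLin'_apply] at hx
      obtain ⟨y, hy⟩ := h x hx
      exact ⟨y, by rw [Matrix.toLin'_apply]; exact hy⟩)
    refine ⟨LinearMap.toMatrix' g, ?_⟩
    apply Matrix.toLin'.injective
    rw [map_add, Matrix.toLin'_mul, Matrix.toLin'_mul, Matrix.toLin'_toMatrix', Matrix.toLin'_one]
    apply LinearMap.ext
    intro x
    exact hg x
  · rintro ⟨g, hg⟩ z hz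
    refine ⟨g.mulVec z, ?_⟩
    have h1 : (fdM S E * g + g * fdM S E).mulVec z = z := by rw [hg, Matrix.one_mulVec]
    rw [Matrix.add_mulVec, ← Matrix.mulVec_mulVec, ← Matrix.mulVec_mulVec, hz,
      Matrix.mulVec_zero, add_zero] at h1
    exact h1.symm

theorem sq_transpose (S : Finset V) (E : V → V → ℤ) (hsq : Sq S E) :
    Sq S (fun u v => E v u) := by
  intro u hu w hw
  rw [← hsq w hw u hu]
  apply Finset.sum_congr rfl
  intro v _
  ring

theorem exa_transpose (S : Finset V) (E : V → V → ℤ) (hsq : Sq S E) (h : Exa S E) :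
    Exa S (fun u v => E v u) := by
  rw [exa_iff_ctr S _ (sq_transpose S E hsq)]
  obtain ⟨g, hg⟩ := (exa_iff_ctr S E hsq).1 h
  refine ⟨fun u v => g v u, ?_⟩
  intro u hu v hv
  have h1 := hg v hv u hu
  have h2 : (if u = v then (1 : ℤ) else 0) = if v = u then 1 else 0 := by
    by_cases huv : u = v
    · rw [if_pos huv, if_pos huv.symm]
    · rw [if_neg huv, if_neg (fun h => huv h.symm)]
  rw [h2, ← h1]
  apply Finset.sum_congr rfl
  intro w _
  ring

theorem exa_empty (E : V → V → ℤ) : Exa (∅ : Finset V) E := by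
  intro z _
  exact ⟨z, fun u hu => absurd hu (Finset.notMem_empty u)⟩

theorem exa_pair (E : V → V → ℤ) (a b : V) (hab : a ≠ b) (h1 : E a b = 1 ∨ E a b = -1)
    (h2 : E a a = 0) (h3 : E b a = 0) (h4 : E b b = 0) : Exa {a, b} E := by
  intro z hz
  have h5 : E a b * E a b = 1 := by rcases h1 with h | h <;> rw [h] <;> norm_num
  have ha := hz a (by simp)
  rw [Finset.sum_pair hab, h2, zero_mul, zero_add] at ha
  have hb : z b = 0 := by
    calc z b = (E a b * E a b) * z b := by rw [h5, one_mul]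
      _ = E a b * (E a b * z b) := by ring
      _ = 0 := by rw [ha, mul_zero]
  refine ⟨fun _ => E a b * z a, ?_⟩
  intro u hu
  rw [Finset.sum_pair hab]
  rw [Finset.mem_insert, Finset.mem_singleton] at hu
  rcases hu with rfl | rfl
  · rw [h2, zero_mul, zero_add, ← mul_assoc, h5, one_mul]
  · rw [h3, h4, hb]; ring

/-- `A` a subcomplex (no element of `B` occurs in the boundary of an element of `A`) -/
theorem exa_union (A B : Finset V) (E : V → V → ℤ) (hd : Disjoint A B)
    (hAB : ∀ b ∈ B, ∀ a ∈ A, E b a = 0) (hsq : Sq (A ∪ B) E)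
    (hA : Exa A E) (hB : Exa B E) : Exa (A ∪ B) E := by
  intro z hz
  obtain ⟨y, hy⟩ := hB z (by
    intro b hb
    rw [← sum_B A B E hd hAB z b hb]
    exact hz b (Finset.mem_union_right _ hb))
  set z' : V → ℤ := fun u => z u - ∑ v ∈ A ∪ B, E u v * mixF B y 0 v with hz'
  have hyB : ∀ u, ∑ v ∈ A ∪ B, E u v * mixF B y 0 v = ∑ v ∈ B, E u v * y v := by
    intro u
    rw [sum_mixF A B hd]
    simp
  have hz'B : ∀ b ∈ B, z' b = 0 := by
    intro b hb
    rw [hz']
    simp only
    rw [hyB, ← hy b hb, sub_self]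
  obtain ⟨x, hx⟩ := hA z' (by
    intro u hu
    have h1 : ∑ v ∈ A ∪ B, E u v * z' v = 0 := by
      rw [hz']
      simp only [mul_sub, Finset.sum_sub_distrib]
      rw [hz u (Finset.mem_union_left _ hu),
        sq_apply (A ∪ B) E hsq (mixF B y 0) u (Finset.mem_union_left _ hu), sub_zero]
    rw [sum_AB A B hd] at h1
    have h2 : ∑ v ∈ B, E u v * z' v = 0 := by
      apply Finset.sum_eq_zero
      intro v hv
      rw [hz'B v hv, mul_zero]
    rw [h2, add_zero] at h1
    exact h1)
  refine ⟨mixF B y x, ?_⟩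
  intro u hu
  rw [sum_mixF A B hd]
  rcases Finset.mem_union.1 hu with hu | hu
  · rw [← hx u hu]
    rw [hz']
    simp only
    rw [hyB]
    ring
  · have h1 : ∑ v ∈ A, E u v * x v = 0 := by
      apply Finset.sum_eq_zero
      intro v hv
      rw [hAB u hu v hv, zero_mul]
    rw [h1, zero_add]
    exact hy u hu

theorem exa_quot (A B : Finset V) (E : V → V → ℤ) (hd : Disjoint A B)
    (hAB : ∀ b ∈ B, ∀ a ∈ A, E b a = 0) (hsq : Sq (A ∪ B) E)
    (hS : Exa (A ∪ B) E) (hA : Exa A E) : Exa B E := by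
  intro z hz
  -- `w = E z` on `A`
  set w : V → ℤ := fun u => ∑ v ∈ A ∪ B, E u v * mixF B z 0 v with hw
  have hwu : ∀ u, w u = ∑ v ∈ B, E u v * z v := by
    intro u
    rw [hw]
    simp only
    rw [sum_mixF A B hd]
    simp
  have hwB : ∀ b ∈ B, w b = 0 := by
    intro b hb
    rw [hwu, hz b hb]
  obtain ⟨x, hx⟩ := hA w (by
    intro u hu
    have h1 := sq_apply (A ∪ B) E hsq (mixF B z 0) u (Finset.mem_union_left _ hu)
    change ∑ v ∈ A ∪ B, E u v * w v = 0 at h1
    rw [sum_AB A B hd] at h1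
    have h2 : ∑ v ∈ B, E u v * w v = 0 := by
      apply Finset.sum_eq_zero
      intro v hv
      rw [hwB v hv, mul_zero]
    rw [h2, add_zero] at h1
    exact h1)
  obtain ⟨y, hy⟩ := hS (mixF B z (fun v => - x v)) (by
    intro u hu
    rw [sum_mixF A B hd]
    rcases Finset.mem_union.1 hu with hu | hu
    · rw [← hwu, hx u hu, ← Finset.sum_add_distrib]
      apply Finset.sum_eq_zero
      intro v _
      ring
    · have h1 : ∑ v ∈ A, E u v * (- x v) = 0 := by
        apply Finset.sum_eq_zero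
        intro v hv
        rw [hAB u hu v hv, zero_mul]
      rw [h1, zero_add]
      exact hz u hu)
  refine ⟨y, ?_⟩
  intro b hb
  have h1 := hy b (Finset.mem_union_right _ hb)
  rw [mixF_B hb, sum_B A B E hd hAB y b hb] at h1
  exact h1

theorem exa_sub (A B : Finset V) (E : V → V → ℤ) (hd : Disjoint A B)
    (hAB : ∀ b ∈ B, ∀ a ∈ A, E b a = 0) (hsq : Sq (A ∪ B) E)
    (hS : Exa (A ∪ B) E) (hB : Exa B E) : Exa A E := by
  intro z hz
  obtain ⟨y, hy⟩ := hS (mixF B 0 z) (by
    intro u hu
    rw [sum_mixF A B hd]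
    have h0 : ∑ v ∈ B, E u v * (0 : V → ℤ) v = 0 := by simp
    rw [h0, add_zero]
    rcases Finset.mem_union.1 hu with hu | hu
    · exact hz u hu
    · apply Finset.sum_eq_zero
      intro v hv
      rw [hAB u hu v hv, zero_mul])
  obtain ⟨x, hx⟩ := hB y (by
    intro b hb
    have h1 := hy b (Finset.mem_union_right _ hb)
    rw [mixF_B hb, sum_B A B E hd hAB y b hb] at h1
    exact h1.symm)
  set y' : V → ℤ := fun u => y u - ∑ v ∈ A ∪ B, E u v * mixF B x 0 v with hy'
  have hxB : ∀ u, ∑ v ∈ A ∪ B, E u v * mixF B x 0 v = ∑ v ∈ B, E u v * x v := by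
    intro u
    rw [sum_mixF A B hd]
    simp
  have hy'B : ∀ b ∈ B, y' b = 0 := by
    intro b hb
    rw [hy']
    simp only
    rw [hxB, ← hx b hb, sub_self]
  refine ⟨y', ?_⟩
  intro u hu
  have h1 : ∑ v ∈ A ∪ B, E u v * y' v = z u := by
    rw [hy']
    simp only [mul_sub, Finset.sum_sub_distrib]
    rw [sq_apply (A ∪ B) E hsq (mixF B x 0) u (Finset.mem_union_left _ hu), sub_zero,
      ← hy u (Finset.mem_union_left _ hu), mixF_A hd hu]
  rw [sum_AB A B hd] at h1
  have h2 : ∑ v ∈ B, E u v * y' v = 0 := by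
    apply Finset.sum_eq_zero
    intro v hv
    rw [hy'B v hv, mul_zero]
  rw [h2, add_zero] at h1
  exact h1.symm

theorem exa_sign (S : Finset V) (E : V → V → ℤ) (E' : V → V → ℤ) (s : V → ℤ)
    (hs : ∀ v ∈ S, s v * s v = 1)
    (hE : ∀ u ∈ S, ∀ v ∈ S, E' u v = s u * s v * E u v) (h : Exa S E) : Exa S E' := by
  intro z hz
  have key : ∀ (g : V → ℤ), ∀ u ∈ S, ∑ v ∈ S, E' u v * g v =
      s u * ∑ v ∈ S, E u v * (s v * g v) := by
    intro g u hu
    rw [Finset.mul_sum]
    apply Finset.sum_congr rfl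
    intro v hv
    rw [hE u hu v hv]; ring
  obtain ⟨y, hy⟩ := h (fun v => s v * z v) (by
    intro u hu
    have h1 := hz u hu
    rw [key z u hu] at h1
    calc ∑ v ∈ S, E u v * (s v * z v) = (s u * s u) * ∑ v ∈ S, E u v * (s v * z v) := by
          rw [hs u hu, one_mul]
      _ = s u * (s u * ∑ v ∈ S, E u v * (s v * z v)) := by ring
      _ = 0 := by rw [h1, mul_zero])
  refine ⟨fun v => s v * y v, ?_⟩
  intro u hu
  rw [key _ u hu]
  have h1 := hy u hu
  have h2 : ∑ v ∈ S, E u v * (s v * (s v * y v)) = ∑ v ∈ S, E u v * y v := by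
    apply Finset.sum_congr rfl
    intro v hv
    rw [← mul_assoc (s v), hs v hv, one_mul]
  rw [h2, ← h1, ← mul_assoc, hs u hu, one_mul]

theorem exa_pull (S : Finset V) (E' : V' → V' → ℤ) (φ : V → V')
    (hφ : Set.InjOn φ (S : Set V)) :
    Exa (S.image φ) E' ↔ Exa S (fun u v => E' (φ u) (φ v)) := by
  have key : ∀ (g : V' → ℤ) (u' : V'), ∑ v ∈ S.image φ, E' u' v * g v =
      ∑ v ∈ S, E' u' (φ v) * g (φ v) := by
    intro g u'
    rw [Finset.sum_image (fun x hx y hy h => hφ hx hy h)]
  have ext : ∀ z : V → ℤ, ∃ z' : V' → ℤ, ∀ v ∈ S, z' (φ v) = z v := by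
    intro z
    refine ⟨fun v' => if h : ∃ v ∈ S, φ v = v' then z h.choose else 0, ?_⟩
    intro v hv
    have h : ∃ w ∈ S, φ w = φ v := ⟨v, hv, rfl⟩
    simp only
    rw [dif_pos h]
    congr 1
    exact hφ h.choose_spec.1 hv h.choose_spec.2
  constructor
  · intro h z hz
    obtain ⟨z', hz'⟩ := ext z
    obtain ⟨y, hy⟩ := h z' (by
      intro u' hu'
      obtain ⟨u, hu, rfl⟩ := Finset.mem_image.1 hu'
      rw [key, ← hz u hu]
      apply Finset.sum_congr rfl
      intro v hv
      rw [hz' v hv])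
    refine ⟨fun v => y (φ v), ?_⟩
    intro u hu
    have h1 := hy (φ u) (Finset.mem_image_of_mem _ hu)
    rw [key, hz' u hu] at h1
    exact h1
  · intro h z hz
    obtain ⟨y, hy⟩ := h (fun v => z (φ v)) (by
      intro u hu
      have h1 := hz (φ u) (Finset.mem_image_of_mem _ hu)
      rw [key] at h1
      exact h1)
    obtain ⟨y', hy'⟩ := ext y
    refine ⟨y', ?_⟩
    intro u' hu'
    obtain ⟨u, hu, rfl⟩ := Finset.mem_image.1 hu'
    rw [key]
    have h1 := hy u hu
    simp only at h1
    rw [h1]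
    apply Finset.sum_congr rfl
    intro v hv
    rw [hy' v hv]

/-- isomorphism up to signs -/
theorem exa_iso (S : Finset V) (E : V → V → ℤ) (E' : V' → V' → ℤ) (φ : V → V') (s : V → ℤ)
    (hφ : Set.InjOn φ (S : Set V)) (hs : ∀ v ∈ S, s v * s v = 1)
    (hE : ∀ u ∈ S, ∀ v ∈ S, E' (φ u) (φ v) = s u * s v * E u v) :
    Exa (S.image φ) E' ↔ Exa S E := by
  rw [exa_pull S E' φ hφ]
  constructor
  · apply exa_sign S _ _ s hs
    intro u hu v hv
    rw [hE u hu v hv]
    calc E u v = (s u * s u) * (s v * s v) * E u v := by rw [hs u hu, hs v hv]; ring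
      _ = s u * s v * (s u * s v * E u v) := by ring
  · exact exa_sign S _ _ s hs hE

theorem sq_iso (S : Finset V) (E : V → V → ℤ) (E' : V' → V' → ℤ) (φ : V → V') (s : V → ℤ)
    (hφ : Set.InjOn φ (S : Set V)) (hs : ∀ v ∈ S, s v * s v = 1)
    (hE : ∀ u ∈ S, ∀ v ∈ S, E' (φ u) (φ v) = s u * s v * E u v) :
    Sq (S.image φ) E' ↔ Sq S E := by
  have key : ∀ u ∈ S, ∀ w ∈ S, ∑ v ∈ S.image φ, E' (φ u) v * E' v (φ w) =
      s u * s w * ∑ v ∈ S, E u v * E v w := by
    intro u hu w hw
    rw [Finset.sum_image (fun x hx y hy h => hφ hx hy h), Finset.mul_sum]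
    apply Finset.sum_congr rfl
    intro v hv
    rw [hE u hu v hv, hE v hv w hw]
    calc s u * s v * E u v * (s v * s w * E v w) = (s v * s v) * (s u * s w * (E u v * E v w)) := by
          ring
      _ = s u * s w * (E u v * E v w) := by rw [hs v hv, one_mul]
  constructor
  · intro h u hu w hw
    have h1 := h (φ u) (Finset.mem_image_of_mem _ hu) (φ w) (Finset.mem_image_of_mem _ hw)
    rw [key u hu w hw] at h1
    calc ∑ v ∈ S, E u v * E v w = (s u * s u) * (s w * s w) * ∑ v ∈ S, E u v * E v w := by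
          rw [hs u hu, hs w hw]; ring
      _ = (s u * s w) * (s u * s w * ∑ v ∈ S, E u v * E v w) := by ring
      _ = 0 := by rw [h1, mul_zero]
  · intro h u' hu' w' hw'
    obtain ⟨u, hu, rfl⟩ := Finset.mem_image.1 hu'
    obtain ⟨w, hw, rfl⟩ := Finset.mem_image.1 hw'
    rw [key u hu w hw, h u hu w hw, mul_zero]

/-- filtration with exact pieces -/
theorem exa_filt {ι : Type*} (S : Finset V) (E : V → V → ℤ) (f : V → ι) (ρ : ι → ℕ)
    (hE : ∀ u ∈ S, ∀ v ∈ S, E u v ≠ 0 → f u = f v ∨ ρ (f u) < ρ (f v)) (hsq : Sq S E)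
    (hp : ∀ i : ι, Exa (S.filter (fun v => f v = i)) E) : Exa S E := by
  obtain ⟨n, hn⟩ : ∃ n : ℕ, S.card = n := ⟨_, rfl⟩
  induction n using Nat.strong_induction_on generalizing S with
  | _ n ih =>
    rcases S.eq_empty_or_nonempty with rfl | hne
    · exact exa_empty E
    · obtain ⟨v0, hv0, hmax⟩ := S.exists_max_image (fun v => ρ (f v)) hne
      set A := S.filter (fun v => f v ≠ f v0) with hA
      set B := S.filter (fun v => f v = f v0) with hB
      have hd : Disjoint A B := by
        rw [Finset.disjoint_left]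
        intro v hvA hvB
        exact (Finset.mem_filter.1 hvA).2 (Finset.mem_filter.1 hvB).2
      have hAB : ∀ b ∈ B, ∀ a ∈ A, E b a = 0 := by
        intro b hb a ha
        rw [hB, Finset.mem_filter] at hb
        rw [hA, Finset.mem_filter] at ha
        by_contra h
        rcases hE b hb.1 a ha.1 h with h1 | h1
        · exact ha.2 (by rw [← h1, hb.2])
        · have h2 := hmax a ha.1
          rw [hb.2] at h1
          omega
      have hu : A ∪ B = S := by
        ext v
        rw [Finset.mem_union, hA, hB, Finset.mem_filter, Finset.mem_filter]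
        constructor
        · rintro (h | h)
          · exact h.1
          · exact h.1
        · intro h
          by_cases h2 : f v = f v0
          · exact Or.inr ⟨h, h2⟩
          · exact Or.inl ⟨h, h2⟩
      have hsqu : Sq (A ∪ B) E := by rw [hu]; exact hsq
      rw [← hu]
      apply exa_union A B E hd hAB hsqu
      · apply ih A.card
        · rw [← hn]
          apply Finset.card_lt_card
          rw [Finset.ssubset_iff_of_subset (Finset.filter_subset _ _)]
          exact ⟨v0, hv0, by rw [Finset.mem_filter]; exact fun h => h.2 rfl⟩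
        · intro u hu' v hv'
          exact hE u (Finset.mem_filter.1 hu').1 v (Finset.mem_filter.1 hv').1
        · intro u hu' w hw'
          have h1 := hsqu u (Finset.mem_union_left _ hu') w (Finset.mem_union_left _ hw')
          rw [sum_AB A B hd] at h1
          have h2 : ∑ v ∈ B, E u v * E v w = 0 := by
            apply Finset.sum_eq_zero
            intro v hv
            rw [hAB v hv w hw', mul_zero]
          rw [h2, add_zero] at h1
          exact h1
        · intro i
          by_cases hi : i = f v0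
          · have h1 : A.filter (fun v => f v = i) = ∅ := by
              apply Finset.filter_eq_empty_iff.2
              intro v hv
              rw [hA, Finset.mem_filter] at hv
              rw [hi]
              exact hv.2
            rw [h1]
            exact exa_empty E
          · have h1 : A.filter (fun v => f v = i) = S.filter (fun v => f v = i) := by
              ext v
              rw [hA, Finset.mem_filter, Finset.mem_filter, Finset.mem_filter]
              constructor
              · rintro ⟨⟨h1, _⟩, h2⟩; exact ⟨h1, h2⟩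
              · rintro ⟨h1, h2⟩; exact ⟨⟨h1, by rw [h2]; exact hi⟩, h2⟩
            rw [h1]
            exact hp i
        · rfl
      · exact hp (f v0)

end Pool.Agent.Helper635.PD4
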