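import Pool.Agent.Helper635_PD4.RXSc
import Pool.Agent.Helper635_PD4.Assemble

/-!
# The final theorem
-/

open scoped Classical

namespace Pool.Agent.Helper635.PD4

/-- the explicit data -/
noncomputable def RD : RData G0 where
  R := RX
  rk := RX.rk
  ep := RX.ep
  ori := RX.ori
  kap := RX.kap
  Z := RX.Zs
  gr := RX.gr_X
  rk_le x := by
    rcases x with ⟨i, g⟩ | q | _
    · show Tab.dim i.1 ≤ 4
      unfold Tab.dim; split_ifs <;> omega
    · exact le_refl _
    · exact le_refl _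
  rk_kap := rfl
  rk_Z := by rintro z ⟨q, rfl⟩; rfl
  kap_Z := by rintro ⟨q, hq⟩; cases hq
  ori_ne x hx := by
    rcases x with ⟨i, g⟩ | q | _
    · have : 318 ≤ i.1 := by
        by_contra h
        exact hx (by show (if 318 ≤ i.1 then (1 : ℤ) else 0) = 0; simp [h])
      show Tab.dim i.1 = 4
      unfold Tab.dim
      split_ifs <;> omega
    · rfl
    · rfl
  rk_smul := RX.rk_smul
  ep_smul := RX.ep_smul
  ori_smul := RX.ori_smul
  kap_smul _ := rfl
  Z_smul := by rintro g z ⟨q, rfl⟩; exact ⟨g • q, rfl⟩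
  free := RX.free_X
  orb := RX.orb_X
  good := RX.good_X
  conn := RX.conn_Q
  sc := RX.sc_Q
  h2 := RX.h2_Q
  connZ := RX.connZ
  h1Z := RX.h1Z

/-- the counterexample -/
theorem final : ∃ (Γ P : Type) (_ : Group Γ) (_ : PartialOrder P) (_ : OrdAct Γ P),
    IsPD 4 Γ P ∧ HZero P 2 ∧
    ∀ K : Subgroup Γ, K.FiniteIndex → ∃ g ∈ K, g ≠ 1 ∧ IsOfFinOrder g :=
  main_of RD gt gt_ne gt_sq gt_mem

end Pool.Agent.Helper635.PD4
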