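import Mathlib

/-!
# Module G: the group

`G0 = ⟨a, b, c, d | a c a⁻¹ a⁻¹ c⁻¹, a b c⁻¹ b⁻¹, [c, d] ^ 2⟩`, `t = [c, d] = c d c⁻¹ d⁻¹`.
-/

namespace Pool.Agent.Helper635.PD4

open FreeGroup in
/-- the relators -/
def rels : Set (FreeGroup (Fin 4)) :=
  {of 0 * of 2 * (of 0)⁻¹ * (of 0)⁻¹ * (of 2)⁻¹,
   of 0 * of 1 * (of 2)⁻¹ * (of 1)⁻¹,
   (of 2 * of 3 * (of 2)⁻¹ * (of 3)⁻¹) * (of 2 * of 3 * (of 2)⁻¹ * (of 3)⁻¹)}

/-- the group `G` -/
def G0 : Type := PresentedGroup rels

instance : Group G0 := inferInstanceAs (Group (PresentedGroup rels))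

/-- generators -/
def gen (i : Fin 4) : G0 := PresentedGroup.of i

def ga : G0 := gen 0
def gb : G0 := gen 1
def gc : G0 := gen 2
def gd : G0 := gen 3
/-- the element `t = [c, d]` -/
def gt : G0 := gc * gd * gc⁻¹ * gd⁻¹

/-- the 17 labels -/
def lab : ℕ → G0
  | 0 => 1
  | 1 => ga
  | 2 => gb
  | 3 => gc
  | 4 => gd
  | 5 => ga * gc
  | 6 => gc * ga
  | 7 => ga * gb
  | 8 => gc * gd
  | 9 => gt * gd
  | 10 => gt
  | 11 => gt * gc
  | 12 => gt * gc * gd
  | 13 => ga⁻¹
  | 14 => gb⁻¹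
  | 15 => gc⁻¹
  | 16 => gd⁻¹
  | _ => 1

theorem rel_ac : ga * gc = gc * ga * ga := by
  have h : ga * gc * ga⁻¹ * ga⁻¹ * gc⁻¹ = 1 :=
    PresentedGroup.one_of_mem (rels := rels) (by unfold rels; exact Or.inl rfl)
  have h2 : ga * gc = ga * gc * ga⁻¹ * ga⁻¹ * gc⁻¹ * (gc * ga * ga) := by group
  rw [h2, h, one_mul]

theorem rel_ab : ga * gb = gb * gc := by
  have h : ga * gb * gc⁻¹ * gb⁻¹ = 1 :=
    PresentedGroup.one_of_mem (rels := rels) (by unfold rels; exact Or.inr (Or.inl rfl))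
  have h2 : ga * gb = ga * gb * gc⁻¹ * gb⁻¹ * (gb * gc) := by group
  rw [h2, h, one_mul]

theorem gt_sq : gt * gt = 1 :=
  PresentedGroup.one_of_mem (rels := rels) (by unfold rels; exact Or.inr (Or.inr rfl))

/-- universal property -/
theorem G0_lift {H : Type*} [Group H] (a b c d : H) (h1 : a * c = c * a * a)
    (h2 : a * b = b * c) (h3 : (c * d * c⁻¹ * d⁻¹) * (c * d * c⁻¹ * d⁻¹) = 1) :
    ∃ f : G0 →* H, f ga = a ∧ f gb = b ∧ f gc = c ∧ f gd = d := by
  have hr : ∀ r ∈ rels, FreeGroup.lift (![a, b, c, d] : Fin 4 → H) r = 1 := by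
    intro r hr
    unfold rels at hr
    rcases hr with rfl | rfl | rfl
    · simp only [map_mul, map_inv, FreeGroup.lift_apply_of]
      show a * c * a⁻¹ * a⁻¹ * c⁻¹ = 1
      rw [h1]; group
    · simp only [map_mul, map_inv, FreeGroup.lift_apply_of]
      show a * b * c⁻¹ * b⁻¹ = 1
      rw [h2]; group
    · simp only [map_mul, map_inv, FreeGroup.lift_apply_of]
      exact h3
  refine ⟨PresentedGroup.toGroup hr, ?_, ?_, ?_, ?_⟩
  · exact PresentedGroup.toGroup.of hr
  · exact PresentedGroup.toGroup.of hr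
  · exact PresentedGroup.toGroup.of hr
  · exact PresentedGroup.toGroup.of hr

theorem G0_gen : Subgroup.closure {ga, gb, gc, gd} = (⊤ : Subgroup G0) := by
  have h := PresentedGroup.closure_range_of rels
  have h2 : Set.range (PresentedGroup.of : Fin 4 → PresentedGroup rels) =
      ({ga, gb, gc, gd} : Set G0) := by
    ext x
    constructor
    · rintro ⟨i, rfl⟩
      fin_cases i
      · exact Or.inl rfl
      · exact Or.inr (Or.inl rfl)
      · exact Or.inr (Or.inr (Or.inl rfl))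
      · exact Or.inr (Or.inr (Or.inr rfl))
    · rintro (rfl | rfl | rfl | rfl)
      · exact ⟨0, rfl⟩
      · exact ⟨1, rfl⟩
      · exact ⟨2, rfl⟩
      · exact ⟨3, rfl⟩
  rw [h2] at h
  exact h

/-! ### the tower of HNN extensions -/

namespace Tower

/-- translation by one -/
def pa : Equiv.Perm ℚ := ⟨fun x => x + 1, fun x => x - 1, fun x => by ring, fun x => by ring⟩

/-- division by two -/
def pc : Equiv.Perm ℚ := ⟨fun x => x / 2, fun x => 2 * x, fun x => by ring, fun x => by ring⟩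

theorem pa_apply (x : ℚ) : pa x = x + 1 := rfl
theorem pc_apply (x : ℚ) : pc x = x / 2 := rfl
theorem pa_inv_apply (x : ℚ) : pa⁻¹ x = x - 1 := rfl
theorem pc_inv_apply (x : ℚ) : pc⁻¹ x = 2 * x := rfl

theorem pa_pc : pa * pc = pc * pa * pa := by
  ext x
  simp only [Equiv.Perm.mul_apply, pa_apply, pc_apply]
  ring

theorem pa_pow (n : ℕ) (x : ℚ) : (pa ^ n) x = x + n := by
  induction n with
  | zero => simp
  | succ n ih =>
    rw [pow_succ', Equiv.Perm.mul_apply, ih, pa_apply]
    push_cast; ring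

theorem pc_pow (n : ℕ) (x : ℚ) : (pc ^ n) x = x / 2 ^ n := by
  induction n with
  | zero => simp
  | succ n ih =>
    rw [pow_succ', Equiv.Perm.mul_apply, ih, pc_apply]
    ring

theorem pa_inf (n : ℕ) (hn : n ≠ 0) : pa ^ n ≠ 1 := by
  intro h
  have := congrArg (fun f : Equiv.Perm ℚ => f 0) h
  simp only [pa_pow, Equiv.Perm.one_apply, zero_add] at this
  exact hn (by exact_mod_cast this)

theorem pc_inf (n : ℕ) (hn : n ≠ 0) : pc ^ n ≠ 1 := by
  intro h
  have := congrArg (fun f : Equiv.Perm ℚ => f 1) h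
  simp only [pc_pow, Equiv.Perm.one_apply] at this
  rw [div_eq_one_iff_eq (by positivity)] at this
  have h2 : (1 : ℚ) < 2 ^ n := one_lt_pow₀ (by norm_num) hn
  rw [← this] at h2
  exact lt_irrefl _ h2

/-- infinite order gives an embedding of the integers -/
theorem zp_inj {K : Type} [Group K] {g : K} (h : ∀ n : ℕ, n ≠ 0 → g ^ n ≠ 1) :
    Function.Injective (zpowersHom K g) := by
  have h1 : ¬ IsOfFinOrder g := by
    rw [isOfFinOrder_iff_pow_eq_one]
    rintro ⟨n, hn, h2⟩
    exact h n hn.ne' h2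
  have h2 := injective_zpow_iff_not_isOfFinOrder.2 h1
  intro x y hxy
  apply Multiplicative.toAdd.injective
  apply h2
  simpa [zpowersHom_apply] using hxy

/-- the isomorphism of the two infinite cyclic groups -/
noncomputable def phi {K : Type} [Group K] {g g' : K} (h : ∀ n : ℕ, n ≠ 0 → g ^ n ≠ 1)
    (h' : ∀ n : ℕ, n ≠ 0 → g' ^ n ≠ 1) : (zpowersHom K g).range ≃* (zpowersHom K g').range :=
  (MonoidHom.ofInjective (zp_inj h)).symm.trans (MonoidHom.ofInjective (zp_inj h'))

theorem mem_range {K : Type} [Group K] (g : K) : g ∈ (zpowersHom K g).range :=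
  ⟨Multiplicative.ofAdd 1, by simp [zpowersHom_apply]⟩

theorem phi_apply {K : Type} [Group K] {g g' : K} (h : ∀ n : ℕ, n ≠ 0 → g ^ n ≠ 1)
    (h' : ∀ n : ℕ, n ≠ 0 → g' ^ n ≠ 1) : ((phi h h' ⟨g, mem_range g⟩ : (zpowersHom K g').range) : K) =
      g' := by
  have h1 : (⟨g, mem_range g⟩ : (zpowersHom K g).range) =
      MonoidHom.ofInjective (zp_inj h) (Multiplicative.ofAdd 1) := by
    apply Subtype.ext
    rw [MonoidHom.ofInjective_apply]
    simp [zpowersHom_apply]
  unfold phi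
  rw [MulEquiv.trans_apply, h1, MulEquiv.symm_apply_apply, MonoidHom.ofInjective_apply]
  simp [zpowersHom_apply]

/-- an HNN extension of `K` with letter `s` with `s g s⁻¹ = g'` -/
theorem exists_hnn {K : Type} [Group K] {g g' : K} (h : ∀ n : ℕ, n ≠ 0 → g ^ n ≠ 1)
    (h' : ∀ n : ℕ, n ≠ 0 → g' ^ n ≠ 1) : ∃ (L : Type) (_ : Group L) (i : K →* L) (s : L),
      Function.Injective i ∧ s * i g * s⁻¹ = i g' := by
  refine ⟨HNNExtension K _ _ (phi h h'), inferInstance, HNNExtension.of, HNNExtension.t,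
    HNNExtension.of_injective _, ?_⟩
  have h1 := HNNExtension.equiv_eq_conj (φ := phi h h') ⟨g, mem_range g⟩
  rw [phi_apply] at h1
  exact h1.symm

/-- the separating homomorphism -/
theorem exists_sep : ∃ (K L : Type) (_ : Group K) (_ : Group L) (j : Equiv.Perm ℚ →* K)
    (i : K × Multiplicative (ZMod 2) →* L) (f : G0 →* L), Function.Injective j ∧
    Function.Injective i ∧ f ga = i (j pa, 1) ∧ f gc = i (j pc, 1) ∧
      f gt = i (1, Multiplicative.ofAdd 1) := by
  obtain ⟨K, _, j, s, hj, hs⟩ := exists_hnn pa_inf pc_inf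
  have h1 : ∀ n : ℕ, n ≠ 0 → ((j pc, 1) : K × Multiplicative (ZMod 2)) ^ n ≠ 1 := by
    intro n hn h
    have h2 := congrArg Prod.fst h
    simp only [Prod.pow_fst, Prod.fst_one, ← map_pow] at h2
    rw [← map_one j] at h2
    exact pc_inf n hn (hj h2)
  have h2 : ∀ n : ℕ, n ≠ 0 →
      ((j pc, Multiplicative.ofAdd 1) : K × Multiplicative (ZMod 2)) ^ n ≠ 1 := by
    intro n hn h
    have h2 := congrArg Prod.fst h
    simp only [Prod.pow_fst, Prod.fst_one, ← map_pow] at h2
    rw [← map_one j] at h2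
    exact pc_inf n hn (hj h2)
  obtain ⟨L, _, i, d, hi, hd⟩ := exists_hnn h1 h2
  have hcomm : i (j pc, 1) * d * (i (j pc, 1))⁻¹ * d⁻¹ = i (1, Multiplicative.ofAdd 1) := by
    have e1 : i (j pc, 1) * d * (i (j pc, 1))⁻¹ * d⁻¹ =
        i (j pc, 1) * (d * i (j pc, 1) * d⁻¹)⁻¹ := by group
    rw [e1, hd, ← map_inv, ← map_mul]
    congr 1
    ext
    · simp
    · simp only [Prod.mk_mul_mk, Prod.inv_mk, one_mul]
      rfl
  obtain ⟨f, hf1, hf2, hf3, hf4⟩ := G0_lift (i (j pa, 1)) (i (s⁻¹, 1)) (i (j pc, 1)) d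
    (by
      rw [← map_mul, ← map_mul, ← map_mul]
      congr 1
      simp only [Prod.mk_mul_mk, one_mul]
      rw [← map_mul, ← map_mul, ← map_mul, pa_pc])
    (by
      rw [← map_mul, ← map_mul]
      congr 1
      simp only [Prod.mk_mul_mk, one_mul]
      congr 1
      rw [← hs]; group)
    (by
      rw [hcomm, ← map_mul]
      have : ((1, Multiplicative.ofAdd 1) : K × Multiplicative (ZMod 2)) *
          (1, Multiplicative.ofAdd 1) = 1 := by
        rw [Prod.mk_mul_mk, one_mul]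
        rfl
      rw [this, map_one])
  refine ⟨K, L, inferInstance, inferInstance, j, i, f, hj, hi, hf1, hf3, ?_⟩
  unfold gt
  rw [map_mul, map_mul, map_mul, map_inv, map_inv, hf3, hf4, hcomm]

end Tower

open Tower

/-- the exponent sums of `b` and `d` -/
theorem exists_ab : ∃ f : G0 →* Multiplicative ℤ × Multiplicative ℤ,
    f ga = 1 ∧ f gb = (Multiplicative.ofAdd 1, 1) ∧ f gc = 1 ∧ f gd = (1, Multiplicative.ofAdd 1) := by
  exact G0_lift (1 : Multiplicative ℤ × Multiplicative ℤ) (Multiplicative.ofAdd 1, 1) 1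
    (1, Multiplicative.ofAdd 1) (by simp) (by simp) (by simp)

theorem gt_ne : gt ≠ 1 := by
  obtain ⟨K, L, _, _, j, i, f, hj, hi, ha, hc, ht⟩ := exists_sep
  intro h
  rw [h, map_one, ← map_one i] at ht
  have h1 := congrArg Prod.snd (hi ht)
  revert h1
  simp only [Prod.snd_one]
  decide

theorem ga_inf : ∀ n : ℕ, n ≠ 0 → ga ^ n ≠ 1 := by
  obtain ⟨K, L, _, _, j, i, f, hj, hi, ha, hc, ht⟩ := exists_sep
  intro n hn h
  have h1 := congrArg f h
  rw [map_pow, map_one, ha, ← map_pow, ← map_one i] at h1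
  have h2 := congrArg Prod.fst (hi h1)
  simp only [Prod.pow_fst, Prod.fst_one, ← map_pow] at h2
  rw [← map_one j] at h2
  exact pa_inf n hn (hj h2)

theorem gc_inf : ∀ n : ℕ, n ≠ 0 → gc ^ n ≠ 1 := by
  obtain ⟨K, L, _, _, j, i, f, hj, hi, ha, hc, ht⟩ := exists_sep
  intro n hn h
  have h1 := congrArg f h
  rw [map_pow, map_one, hc, ← map_pow, ← map_one i] at h1
  have h2 := congrArg Prod.fst (hi h1)
  simp only [Prod.pow_fst, Prod.fst_one, ← map_pow] at h2
  rw [← map_one j] at h2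
  exact pc_inf n hn (hj h2)

/-! ### the labels -/

namespace Tower

/-- the affine part of a label -/
def pB : ℕ → Equiv.Perm ℚ
  | 1 => pa
  | 3 => pc
  | 5 => pa * pc
  | 6 => pc * pa
  | 7 => pa
  | 8 => pc
  | 11 => pc
  | 12 => pc
  | 13 => pa⁻¹
  | 15 => pc⁻¹
  | _ => 1

/-- the exponent of `t` -/
def tB : ℕ → ZMod 2
  | 9 => 1
  | 10 => 1
  | 11 => 1
  | 12 => 1
  | _ => 0

/-- the exponent of `b` -/
def eB : ℕ → ℤ
  | 2 => 1
  | 7 => 1
  | 14 => -1
  | _ => 0

/-- the exponent of `d` -/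
def eD : ℕ → ℤ
  | 4 => 1
  | 8 => 1
  | 9 => 1
  | 12 => 1
  | 16 => -1
  | _ => 0

/-- twice the image of `0` -/
def uu : ℕ → ℤ
  | 1 => 2
  | 5 => 2
  | 6 => 1
  | 7 => 2
  | 13 => -2
  | _ => 0

/-- twice the image of `1` -/
def vv : ℕ → ℤ
  | 1 => 4
  | 3 => 1
  | 5 => 3
  | 6 => 2
  | 7 => 4
  | 8 => 1
  | 11 => 1
  | 12 => 1
  | 13 => 0
  | 15 => 4
  | _ => 2

theorem uu_eq : ∀ i < 17, 2 * pB i 0 = (uu i : ℚ) := by
  intro i hi
  interval_cases i <;>
    simp only [pB, uu, Equiv.Perm.one_apply, Equiv.Perm.mul_apply, pa_apply, pc_apply, pa_inv_apply,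
      pc_inv_apply] <;> norm_num

theorem vv_eq : ∀ i < 17, 2 * pB i 1 = (vv i : ℚ) := by
  intro i hi
  interval_cases i <;>
    simp only [pB, vv, Equiv.Perm.one_apply, Equiv.Perm.mul_apply, pa_apply, pc_apply, pa_inv_apply,
      pc_inv_apply] <;> norm_num

theorem table_inj' : ∀ i j : Fin 17, (uu i, vv i, tB i, eB i, eD i) = (uu j, vv j, tB j, eB j, eD j) →
    i = j := by
  decide

theorem table_inj : ∀ i < 17, ∀ j < 17, uu i = uu j → vv i = vv j → tB i = tB j → eB i = eB j →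
    eD i = eD j → i = j := by
  intro i hi j hj h1 h2 h3 h4 h5
  have := table_inj' ⟨i, hi⟩ ⟨j, hj⟩ (by simp only [h1, h2, h3, h4, h5])
  exact congrArg Fin.val this

end Tower

/-- the separating homomorphism into a tower of HNN extensions gives all of the following -/
theorem lab_inj : ∀ i < 17, ∀ j < 17, lab i = lab j → i = j := by
  obtain ⟨e, ea, eb, ec, ed⟩ := exists_ab
  obtain ⟨K, L, _, _, j, i, f, hj, hi, ha, hc, ht⟩ := exists_sep
  have het : e gt = 1 := by
    unfold gt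
    simp only [map_mul, map_inv, ec, one_mul, inv_one, mul_one, mul_inv_cancel]
  have L1 : ∀ k < 17, e (lab k) = (Multiplicative.ofAdd (eB k), Multiplicative.ofAdd (eD k)) := by
    intro k hk
    interval_cases k <;>
      simp only [lab, map_mul, map_inv, map_one, ea, eb, ec, ed, het, eB, eD, one_mul, mul_one,
        inv_one] <;> rfl
  have L2 : ∀ k < 17, f (lab k) = i (j (pB k), Multiplicative.ofAdd (tB k)) * (f gb) ^ (eB k) *
      (f gd) ^ (eD k) := by
    have i1 : ∀ x y : Equiv.Perm ℚ, i (j x, 1) * i (j y, 1) = i (j (x * y), 1) := by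
      intro x y
      rw [← map_mul, Prod.mk_mul_mk, one_mul, map_mul j]
    have i2 : ∀ x : Equiv.Perm ℚ, (i (j x, 1))⁻¹ = i (j x⁻¹, 1) := by
      intro x
      rw [← map_inv, Prod.inv_mk, inv_one, map_inv j]
    have i3 : i (1, Multiplicative.ofAdd 1) * i (j pc, 1) = i (j pc, Multiplicative.ofAdd 1) := by
      rw [← map_mul, Prod.mk_mul_mk, one_mul, mul_one]
    have i0 : i (j 1, Multiplicative.ofAdd 0) = 1 := by
      rw [map_one j]
      exact map_one i
    intro k hk
    interval_cases k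
    · simp only [lab, pB, tB, eB, eD, map_one f, i0, zpow_zero, mul_one]
    · simp only [lab, pB, tB, eB, eD, ha, zpow_zero, mul_one]; rfl
    · simp only [lab, pB, tB, eB, eD, i0, zpow_zero, zpow_one, mul_one, one_mul]
    · simp only [lab, pB, tB, eB, eD, hc, zpow_zero, mul_one]; rfl
    · simp only [lab, pB, tB, eB, eD, i0, zpow_zero, zpow_one, mul_one, one_mul]
    · simp only [lab, pB, tB, eB, eD, map_mul f, ha, hc, i1, zpow_zero, mul_one]; rfl
    · simp only [lab, pB, tB, eB, eD, map_mul f, ha, hc, i1, zpow_zero, mul_one]; rfl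
    · simp only [lab, pB, tB, eB, eD, map_mul f, ha, zpow_zero, zpow_one, mul_one]; rfl
    · simp only [lab, pB, tB, eB, eD, map_mul f, hc, zpow_zero, zpow_one, mul_one]; rfl
    · simp only [lab, pB, tB, eB, eD, map_mul f, ht, map_one j, zpow_zero, zpow_one, mul_one]
    · simp only [lab, pB, tB, eB, eD, ht, map_one j, zpow_zero, mul_one]
    · simp only [lab, pB, tB, eB, eD, map_mul f, ht, hc, i3, zpow_zero, mul_one]
    · simp only [lab, pB, tB, eB, eD, map_mul f, ht, hc, i3, zpow_zero, zpow_one, mul_one]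
    · simp only [lab, pB, tB, eB, eD, map_inv f, ha, i2, zpow_zero, mul_one]; rfl
    · simp only [lab, pB, tB, eB, eD, map_inv f, i0, zpow_zero, zpow_neg, zpow_one, mul_one,
        one_mul]
    · simp only [lab, pB, tB, eB, eD, map_inv f, hc, i2, zpow_zero, mul_one]; rfl
    · simp only [lab, pB, tB, eB, eD, map_inv f, i0, zpow_zero, zpow_neg, zpow_one, mul_one,
        one_mul]
  intro m hm n hn h
  have h1 : eB m = eB n ∧ eD m = eD n := by
    have h2 := L1 m hm
    rw [h, L1 n hn, Prod.mk.injEq] at h2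
    exact ⟨(Multiplicative.ofAdd.injective h2.1).symm, (Multiplicative.ofAdd.injective h2.2).symm⟩
  have h3 := L2 m hm
  rw [h, L2 n hn, h1.1, h1.2] at h3
  have h4 := hi (mul_right_cancel (mul_right_cancel h3))
  rw [Prod.mk.injEq] at h4
  have h5 := hj h4.1
  have h6 : tB n = tB m := Multiplicative.ofAdd.injective h4.2
  refine table_inj m hm n hn ?_ ?_ h6.symm h1.1 h1.2
  · have := uu_eq m hm
    rw [← h5, uu_eq n hn] at this
    exact_mod_cast this.symm
  · have := vv_eq m hm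
    rw [← h5, vv_eq n hn] at this
    exact_mod_cast this.symm

/-! ### finite quotients -/

/-- a finite group in which `x` and its conjugate `z` satisfy `x z = z x x` has `x = 1` -/
theorem finite_quot {Q : Type} [Group Q] [Finite Q] (x y z : Q) (h1 : x * z = z * x * x)
    (h2 : x * y = y * z) : x = 1 := by
  have h3 : orderOf z = orderOf x := by
    have : z = y⁻¹ * x * (y⁻¹)⁻¹ := by
      rw [inv_inv, mul_assoc, h2]; group
    rw [this]
    exact MulEquiv.orderOf_eq (MulAut.conj y⁻¹) x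
  have h4 : ∀ k : ℕ, x * z ^ k = z ^ k * x ^ (2 ^ k) := by
    intro k
    induction k with
    | zero => simp
    | succ k ih =>
      have h5 : ∀ m : ℕ, x ^ m * z = z * x ^ (2 * m) := by
        intro m
        induction m with
        | zero => simp
        | succ m ihm =>
          rw [pow_succ', mul_assoc, ihm, ← mul_assoc, h1]
          rw [show 2 * (m + 1) = 2 + 2 * m by ring, pow_add, pow_two]
          simp only [mul_assoc]
      rw [pow_succ, ← mul_assoc, ih, mul_assoc, h5, ← mul_assoc]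
      congr 2
      ring
  have h5 := h4 (orderOf x)
  rw [← h3, pow_orderOf_eq_one, mul_one, one_mul, h3] at h5
  have hn : 0 < orderOf x := orderOf_pos x
  have h6 : x ^ (2 ^ orderOf x - 1) = 1 := by
    have : x ^ (2 ^ orderOf x - 1) * x = 1 * x := by
      rw [← pow_succ, one_mul, Nat.sub_add_cancel (Nat.one_le_two_pow)]
      exact h5.symm
    exact mul_right_cancel this
  have h7 : orderOf x ∣ 2 ^ orderOf x - 1 := orderOf_dvd_of_pow_eq_one h6
  by_contra hne
  have hn1 : orderOf x ≠ 1 := fun h => hne (orderOf_eq_one_iff.1 h)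
  set n := orderOf x with hnn
  have hp : (Nat.minFac n).Prime := Nat.minFac_prime hn1
  set p := Nat.minFac n with hpp
  have hpn : p ∣ n := Nat.minFac_dvd n
  have : Fact p.Prime := ⟨hp⟩
  have h8 : (2 : ZMod p) ^ n = 1 := by
    have h9 : p ∣ 2 ^ n - 1 := hpn.trans h7
    have h10 : ((2 ^ n - 1 : ℕ) : ZMod p) = 0 := (ZMod.natCast_eq_zero_iff _ _).2 h9
    rw [Nat.cast_sub Nat.one_le_two_pow] at h10
    push_cast at h10
    exact sub_eq_zero.1 h10
  have h20 : (2 : ZMod p) ≠ 0 := by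
    intro h
    rw [h, zero_pow hn.ne'] at h8
    exact zero_ne_one h8
  have h11 : (2 : ZMod p) ^ (p - 1) = 1 := ZMod.pow_card_sub_one_eq_one h20
  have h12 : Nat.Coprime n (p - 1) := by
    rw [Nat.coprime_iff_gcd_eq_one]
    by_contra hg
    have hq := Nat.minFac_prime hg
    have hq1 : (Nat.gcd n (p - 1)).minFac ∣ n := (Nat.minFac_dvd _).trans (Nat.gcd_dvd_left _ _)
    have hq2 : (Nat.gcd n (p - 1)).minFac ∣ p - 1 := (Nat.minFac_dvd _).trans (Nat.gcd_dvd_right _ _)
    have hq3 := Nat.minFac_le_of_dvd hq.two_le hq1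
    have hq4 := Nat.le_of_dvd (by have := hp.two_le; omega) hq2
    have := hp.two_le
    omega
  have h13 : orderOf (2 : ZMod p) ∣ Nat.gcd n (p - 1) :=
    Nat.dvd_gcd (orderOf_dvd_of_pow_eq_one h8) (orderOf_dvd_of_pow_eq_one h11)
  rw [Nat.Coprime] at h12
  rw [h12, Nat.dvd_one, orderOf_eq_one_iff] at h13
  have h14 : (1 : ZMod p) = 0 := by
    have : (2 : ZMod p) = 1 + 1 := by norm_num
    rw [this] at h13
    exact left_eq_add.1 h13.symm
  exact one_ne_zero h14

/-- `t` lies in every subgroup of finite index -/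
theorem gt_mem (K : Subgroup G0) (hK : K.FiniteIndex) : gt ∈ K := by
  apply K.normalCore_le
  have : Finite (G0 ⧸ K.normalCore) := Subgroup.finite_quotient_of_finiteIndex
  let q := QuotientGroup.mk' K.normalCore
  have h1 : q ga * q gc = q gc * q ga * q ga := by
    rw [← map_mul, rel_ac, map_mul, map_mul]
  have h2 : q ga * q gb = q gb * q gc := by
    rw [← map_mul, rel_ab, map_mul]
  have h3 : q ga = 1 := finite_quot (q ga) (q gb) (q gc) h1 h2
  have h4 : q gc = 1 := by
    rw [h3, one_mul] at h2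
    exact (left_eq_mul.1 h2)
  have h5 : q gt = 1 := by
    unfold gt
    simp only [map_mul, map_inv, h4, one_mul, inv_one, mul_one, mul_inv_cancel]
  exact (QuotientGroup.eq_one_iff gt).1 h5

end Pool.Agent.Helper635.PD4
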