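import Pool.Agent.Helper635_PD4.ModDefs
import Pool.Agent.Helper635_PD4.IvA
import Pool.Agent.Helper635_PD4.IvB
import Pool.Agent.Helper635_PD4.IvC
import Pool.Agent.Helper635_PD4.IvD
import Pool.Agent.Helper635_PD4.IvE

/-!
# Collapsing sequences of all intervals
-/

set_option maxRecDepth 100000

namespace Pool.Agent.Helper635.PD4

namespace Tab

theorem block_sound {L : List (ℕ × List (List ℕ))} {lo n : ℕ} (h1 : L.all chkP = true)
    (h2 : L.map Prod.fst = List.range' lo n) {x : ℕ} (hlo : lo ≤ x) (hhi : x < lo + n) :
    ∃ Is, chkP (x, Is) = true := by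
  have h3 : x ∈ L.map Prod.fst := by
    rw [h2, List.mem_range'_1]
    exact ⟨hlo, hhi⟩
  obtain ⟨p, hp, rfl⟩ := List.mem_map.1 h3
  rw [List.all_eq_true] at h1
  exact ⟨p.2, h1 p hp⟩

theorem exists_chkP {x : ℕ} (hx : x < 321) : ∃ Is, chkP (x, Is) = true := by
  rcases Nat.lt_or_ge x 13 with h13 | h13
  · exact block_sound iv0_ok iv0_fst (by omega) (by omega)
  rcases Nat.lt_or_ge x 26 with h26 | h26
  · exact block_sound iv13_ok iv13_fst (by omega) (by omega)
  rcases Nat.lt_or_ge x 39 with h39 | h39
  · exact block_sound iv26_ok iv26_fst (by omega) (by omega)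
  rcases Nat.lt_or_ge x 52 with h52 | h52
  · exact block_sound iv39_ok iv39_fst (by omega) (by omega)
  rcases Nat.lt_or_ge x 65 with h65 | h65
  · exact block_sound iv52_ok iv52_fst (by omega) (by omega)
  rcases Nat.lt_or_ge x 78 with h78 | h78
  · exact block_sound iv65_ok iv65_fst (by omega) (by omega)
  rcases Nat.lt_or_ge x 91 with h91 | h91
  · exact block_sound iv78_ok iv78_fst (by omega) (by omega)
  rcases Nat.lt_or_ge x 104 with h104 | h104
  · exact block_sound iv91_ok iv91_fst (by omega) (by omega)
  rcases Nat.lt_or_ge x 117 with h117 | h117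
  · exact block_sound iv104_ok iv104_fst (by omega) (by omega)
  rcases Nat.lt_or_ge x 130 with h130 | h130
  · exact block_sound iv117_ok iv117_fst (by omega) (by omega)
  rcases Nat.lt_or_ge x 143 with h143 | h143
  · exact block_sound iv130_ok iv130_fst (by omega) (by omega)
  rcases Nat.lt_or_ge x 156 with h156 | h156
  · exact block_sound iv143_ok iv143_fst (by omega) (by omega)
  rcases Nat.lt_or_ge x 169 with h169 | h169
  · exact block_sound iv156_ok iv156_fst (by omega) (by omega)
  rcases Nat.lt_or_ge x 182 with h182 | h182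
  · exact block_sound iv169_ok iv169_fst (by omega) (by omega)
  rcases Nat.lt_or_ge x 195 with h195 | h195
  · exact block_sound iv182_ok iv182_fst (by omega) (by omega)
  rcases Nat.lt_or_ge x 208 with h208 | h208
  · exact block_sound iv195_ok iv195_fst (by omega) (by omega)
  rcases Nat.lt_or_ge x 221 with h221 | h221
  · exact block_sound iv208_ok iv208_fst (by omega) (by omega)
  rcases Nat.lt_or_ge x 234 with h234 | h234
  · exact block_sound iv221_ok iv221_fst (by omega) (by omega)
  rcases Nat.lt_or_ge x 247 with h247 | h247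
  · exact block_sound iv234_ok iv234_fst (by omega) (by omega)
  rcases Nat.lt_or_ge x 260 with h260 | h260
  · exact block_sound iv247_ok iv247_fst (by omega) (by omega)
  rcases Nat.lt_or_ge x 273 with h273 | h273
  · exact block_sound iv260_ok iv260_fst (by omega) (by omega)
  rcases Nat.lt_or_ge x 286 with h286 | h286
  · exact block_sound iv273_ok iv273_fst (by omega) (by omega)
  rcases Nat.lt_or_ge x 299 with h299 | h299
  · exact block_sound iv286_ok iv286_fst (by omega) (by omega)
  rcases Nat.lt_or_ge x 312 with h312 | h312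
  · exact block_sound iv299_ok iv299_fst (by omega) (by omega)
  exact block_sound iv312_ok iv312_fst (by omega) (by omega)

end Tab

namespace RX

open Tab

/-- the interval `[x, f]` in the upper model at `x` is collapsible -/
theorem coll_V {i : ℕ} (hi : i < 321) {f : ℕ} (hf : f ∈ VL i) (hne : f ≠ 32 * i) :
    ∃ I : List ℕ, (∀ e, e ∈ I ↔ e ∈ VL i ∧ leV e f = true) ∧ Coll incV I := by
  obtain ⟨Is, h⟩ := exists_chkP hi
  exact chkP_sound (by omega) h hf hne

/-- the closures are collapsible -/
theorem coll_L {j : ℕ} (hj : j < 322) : Coll incL (CL j) := coll_L' hj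

end RX

end Pool.Agent.Helper635.PD4
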