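import Pool.Agent.Helper635_PD4.RXGr
import Pool.Agent.Helper635_PD4.Chk2
import Pool.Agent.Helper635_PD4.Coll

/-!
# Models of the intervals of the explicit poset: definitions
-/

open scoped Classical

set_option maxRecDepth 100000

namespace Pool.Agent.Helper635.PD4.RX

open Tab

/-- the extended poset -/
abbrev RE : Type := WithBot (WithTop RX)

/-- coercion -/
abbrev ce (x : RX) : RE := ((x : WithTop RX) : WithBot (WithTop RX))

/-- top -/
abbrev tp : RE := ((⊤ : WithTop RX) : WithBot (WithTop RX))

/-- incidence -/
noncomputable abbrev EX : RE → RE → ℤ := bE (aug (rkT 5 rk)) (tE ori ep)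

/-- upper model at `pt i g` -/
noncomputable def ph (g : G0) (e : ℕ) : RE :=
  if e = TOP then tp else if e = KAP then ce kap else ce (pt (e / 32) (g * (lab (e % 32))⁻¹))

/-- code of the bottom in the lower models -/
def BOT : ℕ := 10400

/-- incidence in the lower models -/
def incL (e f : ℕ) : ℤ :=
  cond (Nat.beq f BOT) 0
    (cond (Nat.beq e BOT) (cond (Nat.beq (dim (f / 32)) 0) 1 0)
      (((facL (f / 32)).map fun c =>
        cond (Nat.beq (c / 64) (e / 32) && Nat.beq (mulT (f % 32) (c / 2 % 32)) (e % 32))
          (sgI (c % 2)) 0).sum))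

/-- the lower model of `pt j h` -/
def CL (j : ℕ) : List ℕ := cloL j ++ [BOT]

/-- map of the lower model -/
noncomputable def pl (h : G0) (c : ℕ) : RE :=
  if c = BOT then ⊥ else ce (pt (c / 32) (h * lab (c % 32)))

end Pool.Agent.Helper635.PD4.RX
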