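import Pool.Agent.Helper635_PD4.ModDefs

/-!
# The lower models
-/

open scoped Classical

set_option maxRecDepth 100000

namespace Pool.Agent.Helper635.PD4.RX

open Tab

theorem clo_ne_BOT {j : ℕ} (hj : j ≤ 321) {c : ℕ} (hc : c ∈ cloL j) : c ≠ BOT := by
  have h := (clo_facts (by omega) hc).2.2.1
  intro h1
  rw [h1] at h
  unfold BOT at h
  omega

theorem mem_CL {j : ℕ} {c : ℕ} : c ∈ CL j ↔ c ∈ cloL j ∨ c = BOT := by
  unfold CL
  simp

theorem pl_BOT (h : G0) : pl h BOT = ⊥ := by
  unfold pl; rw [if_pos rfl]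

theorem pl_clo {j : ℕ} (hj : j ≤ 321) (h : G0) {c : ℕ} (hc : c ∈ cloL j) :
    pl h c = ce (pt (c / 32) (h * lab (c % 32))) := by
  unfold pl; rw [if_neg (clo_ne_BOT hj hc)]

theorem pl_iff {j : ℕ} (hj : j ≤ 321) (h : G0) (y : RE) :
    y ≤ ce (pt j h) ↔ ∃ c ∈ CL j, y = pl h c := by
  constructor
  · intro hy
    induction y using WithBot.recBotCoe with
    | bot => exact ⟨BOT, mem_CL.2 (Or.inr rfl), (pl_BOT h).symm⟩
    | coe y =>
      rw [WithBot.coe_le_coe] at hy
      induction y using WithTop.recTopCoe with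
      | top => exact absurd hy (by simp)
      | coe x =>
        rw [WithTop.coe_le_coe, le_pt_iff hj] at hy
        obtain ⟨c, hc, rfl⟩ := hy
        exact ⟨c, mem_CL.2 (Or.inl hc), (pl_clo hj h hc).symm⟩
  · rintro ⟨c, hc, rfl⟩
    rcases mem_CL.1 hc with hc | rfl
    · rw [pl_clo hj h hc, WithBot.coe_le_coe, WithTop.coe_le_coe, le_pt_iff hj]
      exact ⟨c, hc, rfl⟩
    · rw [pl_BOT]; exact bot_le

theorem ce_injL {x y : RX} (h : ce x = ce y) : x = y :=
  WithTop.coe_injective (WithBot.coe_injective h)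

theorem pl_inj {j : ℕ} (hj : j ≤ 321) (h : G0) :
    ∀ c ∈ CL j, ∀ e ∈ CL j, pl h c = pl h e → c = e := by
  intro c hc e he heq
  rcases mem_CL.1 hc with hc | rfl
  · rcases mem_CL.1 he with he | rfl
    · rw [pl_clo hj h hc, pl_clo hj h he] at heq
      have h1 := ce_injL heq
      obtain ⟨c1, _, c3, _⟩ := clo_facts (by omega) hc
      obtain ⟨e1, _, e3, _⟩ := clo_facts (by omega) he
      rw [pt_eq_iff (by omega) (by omega)] at h1
      obtain ⟨h2, h3 | ⟨h3, _⟩⟩ := h1
      · have h4 := lab_inj _ c1 _ e1 (mul_left_cancel h3)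
        omega
      · rw [(pt_321_of_div hj hc h3).2, (pt_321_of_div hj he (h2 ▸ h3)).2]
    · rw [pl_clo hj h hc, pl_BOT] at heq
      exact absurd heq (WithBot.coe_ne_bot)
  · rcases mem_CL.1 he with he | rfl
    · rw [pl_clo hj h he, pl_BOT] at heq
      exact absurd heq.symm (WithBot.coe_ne_bot)
    · rfl

theorem fac_clo {w : ℕ} (hw : w < 322) {e : ℕ} (he : e ∈ facL w) :
    e / 2 ∈ cloL w ∧ dim (e / 64) + 1 = dim w := by
  have h := all_range chkFc_all hw
  unfold chkFc at h
  rw [List.all_eq_true] at h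
  have h2 := h e he
  rw [Bool.and_eq_true, mem_maskOf, Nat.beq_eq] at h2
  exact h2

theorem sg_eqL (s : ℕ) : sgI s = sg s := by
  unfold sgI sg
  by_cases h : s = 0
  · subst h; rfl
  · rw [if_neg h]
    have : Nat.beq s 0 = false := by
      rw [← Bool.not_eq_true, Nat.beq_eq]; exact h
    rw [this]; rfl

theorem pl_inc {j : ℕ} (hj : j ≤ 321) (h : G0) :
    ∀ c ∈ CL j, ∀ e ∈ CL j, EX (pl h c) (pl h e) = incL c e := by
  intro c hc f hf
  unfold incL
  rcases mem_CL.1 hf with hf | rfl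
  swap
  · rw [pl_BOT]
    have : Nat.beq BOT BOT = true := by rw [Nat.beq_eq]
    rw [this]
    rfl
  have hfB : Nat.beq f BOT = false := by
    rw [← Bool.not_eq_true, Nat.beq_eq]; exact clo_ne_BOT hj hf
  rw [hfB, cond_false, pl_clo hj h hf]
  obtain ⟨f1, f2, f3, _⟩ := clo_facts (by omega) hf
  rcases mem_CL.1 hc with hc | rfl
  swap
  · have : Nat.beq BOT BOT = true := by rw [Nat.beq_eq]
    rw [pl_BOT, this, cond_true]
    show aug (rkT 5 rk) ((pt (f / 32) (h * lab (f % 32)) : RX) : WithTop RX) = _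
    unfold aug
    have e1 : rkT 5 rk ((pt (f / 32) (h * lab (f % 32)) : RX) : WithTop RX) = dim (f / 32) :=
      rk_pt (by omega) _
    rw [e1]
    by_cases h0 : dim (f / 32) = 0
    · rw [if_pos h0, h0]; rfl
    · rw [if_neg h0]
      have : Nat.beq (dim (f / 32)) 0 = false := by
        rw [← Bool.not_eq_true, Nat.beq_eq]; exact h0
      rw [this]; rfl
  · have hcB : Nat.beq c BOT = false := by
      rw [← Bool.not_eq_true, Nat.beq_eq]; exact clo_ne_BOT hj hc
    rw [hcB, cond_false, pl_clo hj h hc]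
    show ep (pt (c / 32) (h * lab (c % 32))) (pt (f / 32) (h * lab (f % 32))) = _
    rw [ep_pt (by omega)]
    unfold epL
    congr 1
    apply List.map_congr_left
    intro e he
    obtain ⟨k1, _⟩ := fac_clo f3 he
    obtain ⟨k2, k3⟩ := clo_trans (by omega) hf k1
    obtain ⟨k4, _, _, _⟩ := clo_facts f3 k1
    have hdiv : e / 2 / 32 = e / 64 := by rw [Nat.div_div_eq_div_mul]
    rw [hdiv] at k3
    have e1 : (32 * (e / 64) + mulT (f % 32) (e / 2 % 32)) / 32 = e / 64 := by omega
    have e2 : (32 * (e / 64) + mulT (f % 32) (e / 2 % 32)) % 32 = mulT (f % 32) (e / 2 % 32) := by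
      omega
    have e3 : pl h (32 * (e / 64) + mulT (f % 32) (e / 2 % 32)) =
        ce (pt (e / 64) (h * lab (f % 32) * lab (e / 2 % 32))) := by
      rw [pl_clo hj h k3, e1, e2, lab_mul f1 k4 k2, mul_assoc]
    have key : pt (c / 32) (h * lab (c % 32)) = pt (e / 64) (h * lab (f % 32) * lab (e / 2 % 32)) ↔
        e / 64 = c / 32 ∧ mulT (f % 32) (e / 2 % 32) = c % 32 := by
      constructor
      · intro heq
        have h1 : pl h c = pl h (32 * (e / 64) + mulT (f % 32) (e / 2 % 32)) := by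
          rw [e3, pl_clo hj h hc, heq]
        have h2 := pl_inj hj h c (mem_CL.2 (Or.inl hc)) _ (mem_CL.2 (Or.inl k3)) h1
        omega
      · rintro ⟨h1, h2⟩
        have h3 : c = 32 * (e / 64) + mulT (f % 32) (e / 2 % 32) := by omega
        have h4 : ce (pt (c / 32) (h * lab (c % 32))) =
            ce (pt (e / 64) (h * lab (f % 32) * lab (e / 2 % 32))) := by
          rw [← e3, ← pl_clo hj h hc, ← h3]
        exact ce_injL h4
    by_cases hk : e / 64 = c / 32 ∧ mulT (f % 32) (e / 2 % 32) = c % 32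
    · rw [if_pos (key.2 hk), hk.1, hk.2, sg_eqL]
      have b1 : Nat.beq (c / 32) (c / 32) = true := by rw [Nat.beq_eq]
      have b2 : Nat.beq (c % 32) (c % 32) = true := by rw [Nat.beq_eq]
      rw [b1, b2]
      rfl
    · rw [if_neg (fun h => hk (key.1 h))]
      have b : (Nat.beq (e / 64) (c / 32) && Nat.beq (mulT (f % 32) (e / 2 % 32)) (c % 32)) =
          false := by
        rw [← Bool.not_eq_true, Bool.and_eq_true, Nat.beq_eq, Nat.beq_eq]
        exact hk
      rw [b]
      rfl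

end Pool.Agent.Helper635.PD4.RX
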