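import Pool.Agent.Helper635_PD4.Chk2

/-!
# Boolean checks for the upper models
-/

set_option maxRecDepth 100000

namespace Pool.Agent.Helper635.PD4.Tab

/-- check: cells above a cell are cells, and for the special cell only one label of each pair -/
def chkU (x : ℕ) : Bool :=
  (upL x).all fun e => Nat.blt (e / 32) 322 &&
    (!(Nat.beq (e / 32) 321) || Nat.beq x 321 ||
      (Nat.blt (tmul (e % 32)) 17 && !(mem (maskOf (upL x)) (32 * 321 + tmul (e % 32)))))

theorem chkU_all : (List.range 322).all chkU = true := by decide +kernel

theorem mulT_zero : ∀ l < 17, mulT 0 l = l := by decide +kernel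

end Pool.Agent.Helper635.PD4.Tab
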