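import Pool.Agent.Helper635_PD4.ModDefs
import Pool.Agent.Helper635_PD4.ModUChk

/-!
# The upper models
-/

open scoped Classical

set_option maxRecDepth 100000

namespace Pool.Agent.Helper635.PD4.RX

open Tab

theorem u_mem {i : ℕ} (hi : i < 321) {e : ℕ} (he : e ∈ upL i) :
    e / 32 ≤ 321 ∧ e % 32 < 17 ∧ 32 * i + e % 32 ∈ cloL (e / 32) := by
  have h1 := all_range chkU_all (show i < 322 by omega)
  unfold chkU at h1
  rw [List.all_eq_true] at h1
  have h2 := h1 e he
  rw [Bool.and_eq_true, Nat.blt_eq] at h2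
  have h3 := all_range chkA_all (show i < 322 by omega)
  unfold chkA at h3
  rw [List.all_eq_true] at h3
  have h4 := h3 e he
  rw [mem_maskOf] at h4
  have h5 := (clo_facts (by omega) h4).1
  exact ⟨by omega, by omega, h4⟩

theorem u_mem_t {i : ℕ} (hi : i < 321) {e : ℕ} (he : e ∈ upL i) (h : e / 32 = 321) :
    tmul (e % 32) < 17 ∧ 32 * 321 + tmul (e % 32) ∉ upL i := by
  have h1 := all_range chkU_all (show i < 322 by omega)
  unfold chkU at h1
  rw [List.all_eq_true] at h1
  have h2 := (Bool.and_eq_true _ _ ▸ h1 e he : _ ∧ _).2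
  rw [h] at h2
  have h3 : Nat.beq 321 321 = true := rfl
  have h4 : Nat.beq i 321 = false := by
    rw [← Bool.not_eq_true, Nat.beq_eq]
    omega
  rw [h3, h4] at h2
  simp only [Bool.not_true, Bool.false_or, Bool.and_eq_true, Nat.blt_eq, Bool.not_eq_true'] at h2
  refine ⟨h2.1, fun h5 => ?_⟩
  rw [← mem_maskOf] at h5
  rw [h5] at h2
  exact absurd h2.2 (by simp)

theorem VL_cases {i e : ℕ} (he : e ∈ VL i) :
    e = TOP ∨ (isX i = true ∧ e = KAP) ∨ e ∈ upL i := by
  unfold VL at he
  rw [List.mem_cons] at he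
  rcases he with he | he
  · exact Or.inl he
  · right
    cases hX : isX i with
    | true =>
      rw [hX] at he
      have he' : e ∈ KAP :: upL i := he
      rw [List.mem_cons] at he'
      rcases he' with he' | he'
      · exact Or.inl ⟨rfl, he'⟩
      · exact Or.inr he'
    | false =>
      rw [hX] at he
      exact Or.inr he

theorem VL_top (i : ℕ) : TOP ∈ VL i := by
  unfold VL
  exact List.mem_cons_self

theorem VL_kap {i : ℕ} (h : isX i = true) : KAP ∈ VL i := by
  unfold VL
  rw [h]
  exact List.mem_cons_of_mem _ List.mem_cons_self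

theorem VL_up {i e : ℕ} (h : e ∈ upL i) : e ∈ VL i := by
  unfold VL
  cases isX i with
  | true => exact List.mem_cons_of_mem _ (List.mem_cons_of_mem _ h)
  | false => exact List.mem_cons_of_mem _ h

theorem ph_top (g : G0) : ph g TOP = tp := by
  unfold ph
  rw [if_pos rfl]

theorem ph_kap (g : G0) : ph g KAP = ce kap := by
  unfold ph
  rw [if_neg (by decide), if_pos rfl]

theorem ph_low (g : G0) {e : ℕ} (he : e / 32 ≤ 321) :
    ph g e = ce (pt (e / 32) (g * (lab (e % 32))⁻¹)) := by
  have h1 : e ≠ TOP := by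
    rintro rfl
    revert he
    decide
  have h2 : e ≠ KAP := by
    rintro rfl
    revert he
    decide
  unfold ph
  rw [if_neg h1, if_neg h2]

theorem ce_le (x y : RX) : ce x ≤ ce y ↔ x ≤ y := by
  rw [WithBot.coe_le_coe, WithTop.coe_le_coe]

theorem ce_inj {x y : RX} (h : ce x = ce y) : x = y :=
  WithTop.coe_injective (WithBot.coe_injective h)

theorem ce_ne_tp (x : RX) : ce x ≠ tp := fun h => WithTop.coe_ne_top (WithBot.coe_injective h)

theorem le_tp (x : RX) : ce x ≤ tp := WithBot.coe_le_coe.2 le_top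

theorem not_tp_le (x : RX) : ¬ tp ≤ ce x := by
  intro h
  rw [WithBot.coe_le_coe] at h
  exact WithTop.coe_ne_top (top_le_iff.1 h)

theorem pt_le_kap {i : ℕ} (hi : i ≤ 321) (g : G0) : pt i g ≤ kap ↔ isX i = true := by
  rw [le_def]
  constructor
  · rintro (⟨j, h, _, hk, _⟩ | ⟨_, h | ⟨j, h, hj, hX, hp⟩⟩)
    · exact absurd hk.symm (pt_ne_kap _ _)
    · exact absurd h (pt_ne_kap _ _)
    · rw [pt_eq_iff hi hj] at hp
      rw [hp.1]
      exact hX
  · intro h
    exact Or.inr ⟨rfl, Or.inr ⟨i, g, hi, h, rfl⟩⟩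

theorem not_kap_le_pt {j : ℕ} (hj : j ≤ 321) (h : G0) : ¬ kap ≤ pt j h := by
  intro hle
  rw [le_pt_iff hj] at hle
  obtain ⟨c, _, hc⟩ := hle
  exact pt_ne_kap _ _ hc.symm

theorem t_mem {x : G0} (h : x ∈ T2) : x = 1 ∨ x = gt := by
  obtain ⟨n, rfl⟩ := Subgroup.mem_zpowers_iff.1 h
  have h2 : gt ^ 2 = 1 := by rw [pow_two]; exact gt_sq
  rcases Int.even_or_odd' n with ⟨k, rfl | rfl⟩
  · left
    rw [zpow_mul]
    have : gt ^ (2 : ℤ) = 1 := by exact_mod_cast h2
    rw [this, one_zpow]
  · right
    rw [zpow_add, zpow_mul, zpow_one]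
    have : gt ^ (2 : ℤ) = 1 := by exact_mod_cast h2
    rw [this, one_zpow, one_mul]

theorem lab_tmul {l : ℕ} (hl : l < 17) (h : tmul l < 17) : lab (tmul l) = gt * lab l :=
  lab_mul (m := 10) (by norm_num) hl h

theorem code_eq {e f : ℕ} (h1 : e / 32 = f / 32) (h2 : e % 32 = f % 32) : e = f := by omega

theorem ph_self {i : ℕ} (hi : i < 321) (g : G0) :
    ph g (32 * i) = ce (pt i g) ∧ 32 * i ∈ VL i := by
  have e1 : 32 * i / 32 = i := by omega
  have e2 : 32 * i % 32 = 0 := by omega
  constructor
  · rw [ph_low g (by omega), e1, e2]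
    simp [lab]
  · apply VL_up
    have h1 := all_range chkB_all (show i < 322 by omega)
    unfold chkB at h1
    rw [List.all_eq_true] at h1
    have h2 := h1 _ (clo_self (show i < 322 by omega))
    rw [e1, e2, Bool.or_eq_true, Bool.and_eq_true, Nat.beq_eq, mem_maskOf] at h2
    rcases h2 with h2 | h2
    · exact h2
    · omega

theorem ph_surj {i : ℕ} (hi : i < 321) (g : G0) (y : RE) (h : ce (pt i g) ≤ y) :
    ∃ f ∈ VL i, y = ph g f := by
  induction y using WithBot.recBotCoe with
  | bot => exact absurd (le_bot_iff.1 h) (WithBot.coe_ne_bot)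
  | coe y =>
    induction y using WithTop.recTopCoe with
    | top => exact ⟨TOP, VL_top i, (ph_top g).symm⟩
    | coe y =>
      have h' : pt i g ≤ y := (ce_le _ _).1 h
      by_cases hk : y = kap
      · subst hk
        rw [pt_le_kap (by omega)] at h'
        exact ⟨KAP, VL_kap h', (ph_kap g).symm⟩
      · obtain ⟨j, k, hj, rfl⟩ := exists_pt y hk
        rw [le_pt_iff hj] at h'
        obtain ⟨c, hc, hcp⟩ := h'
        obtain ⟨f1, f2, f3, _⟩ := clo_facts (by omega) hc
        rw [pt_eq_iff (by omega) (by omega)] at hcp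
        obtain ⟨hi', hg⟩ := hcp
        have hg' : g = k * lab (c % 32) := by
          rcases hg with hg | ⟨hg, _⟩
          · exact hg
          · omega
        have hk' : k = g * (lab (c % 32))⁻¹ := by rw [hg']; group
        have h1 := all_range chkB_all (show j < 322 by omega)
        unfold chkB at h1
        rw [List.all_eq_true] at h1
        have h2 := h1 c hc
        rw [← hi', Bool.or_eq_true, Bool.and_eq_true, Nat.beq_eq, mem_maskOf, mem_maskOf] at h2
        rcases h2 with h2 | ⟨rfl, h2⟩
        · refine ⟨_, VL_up h2, ?_⟩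
          have e1 : (32 * j + c % 32) / 32 = j := by omega
          have e2 : (32 * j + c % 32) % 32 = c % 32 := by omega
          rw [ph_low g (by omega), e1, e2, ← hk']
        · refine ⟨_, VL_up h2, ?_⟩
          have h3 := u_mem hi h2
          have ht : tmul (c % 32) < 32 := by
            unfold tmul mulT
            exact Nat.mod_lt _ (by norm_num)
          have e1 : (32 * 321 + tmul (c % 32)) / 32 = 321 := by omega
          have e2 : (32 * 321 + tmul (c % 32)) % 32 = tmul (c % 32) := by omega
          rw [e2] at h3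
          rw [ph_low g (by omega), e1, e2, lab_tmul f1 h3.2.1]
          congr 2
          rw [pt_eq_iff le_rfl le_rfl]
          refine ⟨rfl, Or.inr ⟨rfl, ?_⟩⟩
          have e3 : k⁻¹ * (g * (gt * lab (c % 32))⁻¹) = gt⁻¹ := by rw [hk']; group
          rw [e3]
          exact inv_mem (Subgroup.mem_zpowers gt)

theorem ph_ge {i : ℕ} (hi : i < 321) (g : G0) : ∀ e ∈ VL i, ce (pt i g) ≤ ph g e := by
  intro e he
  rcases VL_cases he with rfl | ⟨hX, rfl⟩ | he'
  · rw [ph_top]
    exact le_tp _
  · rw [ph_kap, ce_le, pt_le_kap (by omega)]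
    exact hX
  · obtain ⟨h1, h2, h3⟩ := u_mem hi he'
    rw [ph_low g h1, ce_le, le_pt_iff h1]
    refine ⟨_, h3, ?_⟩
    have e1 : (32 * i + e % 32) / 32 = i := by omega
    have e2 : (32 * i + e % 32) % 32 = e % 32 := by omega
    rw [e1, e2, inv_mul_cancel_right]

theorem ph_inj {i : ℕ} (hi : i < 321) (g : G0) :
    ∀ e ∈ VL i, ∀ f ∈ VL i, ph g e = ph g f → e = f := by
  intro e he f hf hef
  rcases VL_cases he with rfl | ⟨_, rfl⟩ | he' <;> rcases VL_cases hf with rfl | ⟨_, rfl⟩ | hf'
  · rfl
  · rw [ph_top, ph_kap] at hef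
    exact absurd hef.symm (ce_ne_tp _)
  · rw [ph_top, ph_low g (u_mem hi hf').1] at hef
    exact absurd hef.symm (ce_ne_tp _)
  · rw [ph_top, ph_kap] at hef
    exact absurd hef (ce_ne_tp _)
  · rfl
  · rw [ph_kap, ph_low g (u_mem hi hf').1] at hef
    exact absurd (ce_inj hef).symm (pt_ne_kap _ _)
  · rw [ph_top, ph_low g (u_mem hi he').1] at hef
    exact absurd hef (ce_ne_tp _)
  · rw [ph_kap, ph_low g (u_mem hi he').1] at hef
    exact absurd (ce_inj hef) (pt_ne_kap _ _)
  · obtain ⟨a1, a2, a3⟩ := u_mem hi he'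
    obtain ⟨b1, b2, b3⟩ := u_mem hi hf'
    rw [ph_low g a1, ph_low g b1] at hef
    have h1 := ce_inj hef
    rw [pt_eq_iff a1 b1] at h1
    obtain ⟨h2, h3⟩ := h1
    have key : lab (e % 32) = lab (f % 32) → e = f := fun h =>
      code_eq h2 (lab_inj _ a2 _ b2 h)
    rcases h3 with h3 | ⟨h3, h4⟩
    · exact key (inv_injective (mul_left_cancel h3))
    · have e3 : (g * (lab (e % 32))⁻¹)⁻¹ * (g * (lab (f % 32))⁻¹) =
          lab (e % 32) * (lab (f % 32))⁻¹ := by group
      rw [e3] at h4
      rcases t_mem h4 with h5 | h5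
      · exact key (mul_inv_eq_one.1 h5)
      · exfalso
        have hf321 : f / 32 = 321 := by rw [← h2, h3]
        obtain ⟨c1, c2⟩ := u_mem_t hi hf' hf321
        have h6 : lab (e % 32) = lab (tmul (f % 32)) := by
          rw [lab_tmul b2 c1, ← h5, inv_mul_cancel_right]
        have h7 := lab_inj _ a2 _ c1 h6
        apply c2
        rw [← h7]
        have e4 : 32 * 321 + e % 32 = e := by omega
        rw [e4]
        exact he'

theorem leV_top (e : ℕ) : leV e TOP = true := by
  unfold leV
  rfl

theorem leV_kap (e : ℕ) : leV e KAP = (Nat.beq e KAP || isX (e / 32)) := by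
  unfold leV
  have h1 : Nat.beq KAP TOP = false := by decide
  have h2 : Nat.beq KAP KAP = true := by decide
  rw [h1, h2]
  rfl

theorem beq_low {e : ℕ} (he : e / 32 ≤ 321) : Nat.beq e TOP = false ∧ Nat.beq e KAP = false := by
  have h1 : e ≠ TOP := by
    rintro rfl
    revert he
    decide
  have h2 : e ≠ KAP := by
    rintro rfl
    revert he
    decide
  constructor
  · rw [← Bool.not_eq_true, Nat.beq_eq]
    exact h1
  · rw [← Bool.not_eq_true, Nat.beq_eq]
    exact h2

theorem leV_low {e f : ℕ} (hf : f / 32 ≤ 321) : leV e f =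
    (cond (Nat.beq e TOP || Nat.beq e KAP) false
        (Nat.blt (divR (e % 32) (f % 32)) 17 &&
          mem (maskOf (cloL (f / 32))) (32 * (e / 32) + divR (e % 32) (f % 32)))) := by
  unfold leV
  rw [(beq_low hf).1, (beq_low hf).2]
  rfl

/-- the relation between labels of comparable cells of the upper model -/
theorem lab_rel {i : ℕ} (hi : i < 321) {e f c : ℕ} (he : e ∈ upL i) (hf : f ∈ upL i)
    (hc : c ∈ cloL (f / 32)) (h1 : c / 32 = e / 32) :
    lab (c % 32) * lab (e % 32) = lab (f % 32) ↔ mulT (c % 32) (e % 32) = f % 32 := by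
  obtain ⟨a1, a2, a3⟩ := u_mem hi he
  obtain ⟨b1, b2, b3⟩ := u_mem hi hf
  obtain ⟨c1, c2, c3, c4⟩ := clo_facts (by omega) hc
  have h2 : 32 * i + e % 32 ∈ cloL (c / 32) := by rw [h1]; exact a3
  have h3 := (clo_trans (by omega) hc h2).1
  have e2 : (32 * i + e % 32) % 32 = e % 32 := by omega
  rw [e2] at h3
  rw [← lab_mul c1 a2 h3]
  constructor
  · exact fun h => lab_inj _ h3 _ b2 h
  · exact fun h => by rw [h]

theorem ph_le {i : ℕ} (hi : i < 321) (g : G0) :
    ∀ e ∈ VL i, ∀ f ∈ VL i, (ph g e ≤ ph g f ↔ leV e f = true) := by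
  intro e he f hf
  rcases VL_cases hf with rfl | ⟨_, rfl⟩ | hf'
  · rw [leV_top, ph_top]
    refine iff_of_true ?_ rfl
    rcases VL_cases he with rfl | ⟨_, rfl⟩ | he'
    · rw [ph_top]
    · rw [ph_kap]
      exact le_tp _
    · rw [ph_low g (u_mem hi he').1]
      exact le_tp _
  · rw [leV_kap, ph_kap]
    rcases VL_cases he with rfl | ⟨_, rfl⟩ | he'
    · rw [ph_top]
      exact iff_of_false (not_tp_le _) (by decide)
    · rw [ph_kap]
      exact iff_of_true le_rfl (by decide)
    · obtain ⟨a1, a2, a3⟩ := u_mem hi he'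
      rw [ph_low g a1, ce_le, pt_le_kap a1, (beq_low a1).2, Bool.false_or]
  · obtain ⟨b1, b2, b3⟩ := u_mem hi hf'
    rw [leV_low b1, ph_low g b1]
    rcases VL_cases he with rfl | ⟨_, rfl⟩ | he'
    · rw [ph_top]
      have h1 : (Nat.beq TOP TOP || Nat.beq TOP KAP) = true := by decide
      rw [h1]
      exact iff_of_false (not_tp_le _) (by simp)
    · rw [ph_kap]
      have h1 : (Nat.beq KAP TOP || Nat.beq KAP KAP) = true := by decide
      rw [h1, ce_le]
      exact iff_of_false (not_kap_le_pt b1 _) (by simp)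
    · obtain ⟨a1, a2, a3⟩ := u_mem hi he'
      rw [(beq_low a1).1, (beq_low a1).2, ph_low g a1, ce_le]
      simp only [Bool.or_self, cond_false, Bool.and_eq_true, Nat.blt_eq, mem_maskOf]
      constructor
      · intro hle
        rw [le_pt_iff b1] at hle
        obtain ⟨c, hc, hcp⟩ := hle
        obtain ⟨c1, c2, c3, c4⟩ := clo_facts (by omega) hc
        by_cases h321 : e / 32 = 321
        · have hc321 : c / 32 = 321 := by
            rw [pt_eq_iff a1 (by omega)] at hcp
            omega
          obtain ⟨d1, d2⟩ := pt_321_of_div b1 hc hc321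
          have hef : e = f := by
            apply ph_inj hi g e he f hf
            rw [ph_low g a1, ph_low g b1, hcp, d2]
            have e5 : 32 * 321 / 32 = f / 32 := by omega
            have e6 : 32 * 321 % 32 = 0 := by omega
            rw [e5, e6]
            simp [lab]
          subst hef
          have h4 : divR (e % 32) (e % 32) = 0 := by
            have h5 := divR_mul 0 (by norm_num) (e % 32) a2 (by rw [mulT_zero _ a2]; exact a2)
            rwa [mulT_zero _ a2] at h5
          rw [h4]
          exact ⟨by norm_num, clo_self (by omega)⟩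
        · rw [pt_eq_iff a1 (by omega)] at hcp
          obtain ⟨h1, h2⟩ := hcp
          have h3 : g * (lab (e % 32))⁻¹ = g * (lab (f % 32))⁻¹ * lab (c % 32) := by
            rcases h2 with h2 | ⟨h2, _⟩
            · exact h2
            · exact absurd h2 h321
          have h4 : lab (c % 32) * lab (e % 32) = lab (f % 32) := by
            have h5 : (lab (e % 32))⁻¹ = (lab (f % 32))⁻¹ * lab (c % 32) := by
              rw [mul_assoc] at h3
              exact mul_left_cancel h3
            have h6 : lab (f % 32) * (lab (e % 32))⁻¹ = lab (c % 32) := by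
              rw [h5]
              group
            rw [← h6]
            group
          have h5 := (lab_rel hi he' hf' hc h1.symm).1 h4
          have h6 := divR_mul (c % 32) c1 (e % 32) a2 (by rw [h5]; exact b2)
          rw [h5] at h6
          rw [h6]
          refine ⟨c1, ?_⟩
          have e7 : 32 * (e / 32) + c % 32 = c := by omega
          rw [e7]
          exact hc
      · rintro ⟨h1, h2⟩
        rw [le_pt_iff b1]
        refine ⟨_, h2, ?_⟩
        have h3 := divR_ok (e % 32) a2 (f % 32) b2 h1
        have e1 : (32 * (e / 32) + divR (e % 32) (f % 32)) / 32 = e / 32 := by omega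
        have e2 : (32 * (e / 32) + divR (e % 32) (f % 32)) % 32 = divR (e % 32) (f % 32) := by
          omega
        rw [e1, e2]
        have h4 := (lab_rel hi he' hf' h2 e1).2 (by rw [e2]; exact h3)
        rw [e2] at h4
        congr 1
        rw [← h4]
        group

theorem sg_eq (s : ℕ) : sg s = sgI s := by
  unfold sg sgI
  rcases s with _ | s
  · rfl
  · rfl

theorem ph_inc {i : ℕ} (hi : i < 321) (g : G0) :
    ∀ e ∈ VL i, ∀ f ∈ VL i, EX (ph g e) (ph g f) = incV e f := by
  intro e he f hf
  rcases VL_cases hf with rfl | ⟨_, rfl⟩ | hf'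
  · have h0 : incV e TOP =
        cond (Nat.beq e KAP || (Nat.ble 318 (e / 32) && Nat.blt (e / 32) 322)) 1 0 := by
      unfold incV
      rfl
    rw [h0, ph_top]
    rcases VL_cases he with rfl | ⟨_, rfl⟩ | he'
    · rw [ph_top]
      rfl
    · rw [ph_kap]
      rfl
    · obtain ⟨a1, a2, a3⟩ := u_mem hi he'
      rw [ph_low g a1, (beq_low a1).2, Bool.false_or]
      show ori (pt (e / 32) (g * (lab (e % 32))⁻¹)) = _
      have h1 : Nat.blt (e / 32) 322 = true := by
        rw [Nat.blt_eq]
        omega
      rw [h1, Bool.and_true]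
      rcases Nat.lt_or_ge (e / 32) 321 with h2 | h2
      · rw [pt_lt h2]
        show (if 318 ≤ e / 32 then (1 : ℤ) else 0) = _
        by_cases h3 : 318 ≤ e / 32
        · have h4 : Nat.ble 318 (e / 32) = true := by
            rw [Nat.ble_eq]
            exact h3
          rw [if_pos h3, h4]
          rfl
        · have h4 : Nat.ble 318 (e / 32) = false := by
            rw [← Bool.not_eq_true, Nat.ble_eq]
            exact h3
          rw [if_neg h3, h4]
          rfl
      · have h3 : e / 32 = 321 := by omega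
        rw [h3, pt_321]
        rfl
  · have h0 : incV e KAP = ekI (e / 32) := by
      unfold incV
      rfl
    rw [h0, ph_kap]
    rcases VL_cases he with rfl | ⟨_, rfl⟩ | he'
    · rw [ph_top]
      rfl
    · rw [ph_kap]
      rfl
    · obtain ⟨a1, a2, a3⟩ := u_mem hi he'
      rw [ph_low g a1]
      show ep (pt (e / 32) (g * (lab (e % 32))⁻¹)) kap = _
      rcases Nat.lt_or_ge (e / 32) 321 with h2 | h2
      · rw [pt_lt h2]
        show ekS (e / 32) = ekI (e / 32)
        unfold ekS ekI
        by_cases h3 : 287 ≤ e / 32 ∧ e / 32 < 301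
        · have h4 : (Nat.ble 287 (e / 32) && Nat.blt (e / 32) 301) = true := by
            rw [Bool.and_eq_true, Nat.ble_eq, Nat.blt_eq]
            exact h3
          rw [if_pos h3, h4]
          cases ekN.testBit (e / 32 - 287) <;> rfl
        · have h4 : (Nat.ble 287 (e / 32) && Nat.blt (e / 32) 301) = false := by
            rw [← Bool.not_eq_true, Bool.and_eq_true, Nat.ble_eq, Nat.blt_eq]
            exact h3
          rw [if_neg h3, h4]
          rfl
      · have h3 : e / 32 = 321 := by omega
        rw [h3, pt_321]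
        rfl
  · obtain ⟨b1, b2, b3⟩ := u_mem hi hf'
    have h0 : incV e f = ((facL (f / 32)).map fun c =>
        cond (Nat.beq (c / 64) (e / 32) && Nat.beq (mulT (c / 2 % 32) (e % 32)) (f % 32))
          (sgI (c % 2)) 0).sum := by
      unfold incV
      rw [(beq_low b1).1, (beq_low b1).2]
      rfl
    rw [h0, ph_low g b1]
    have hfac : ∀ c ∈ facL (f / 32), c / 2 ∈ cloL (f / 32) ∧ dim (c / 64) + 1 = dim (f / 32) := by
      intro c hc
      have h1 := all_range chkFc_all (show f / 32 < 322 by omega)
      unfold chkFc at h1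
      rw [List.all_eq_true] at h1
      have h2 := h1 c hc
      rw [Bool.and_eq_true, mem_maskOf, Nat.beq_eq] at h2
      exact h2
    have hfac2 : ∀ c ∈ facL (f / 32), c / 64 < 321 := by
      intro c hc
      obtain ⟨h1, h2⟩ := hfac c hc
      obtain ⟨c1, c2, c3, c4⟩ := clo_facts (by omega) h1
      have e1 : c / 2 / 32 = c / 64 := by omega
      rw [e1] at c3
      by_contra h3
      have h4 : c / 64 = 321 := by omega
      rw [h4] at h2
      have h5 : dim (f / 32) ≤ 4 := by unfold dim; split_ifs <;> omega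
      have h6 : dim 321 = 4 := rfl
      omega
    have hzero : 321 < e / 32 → ((facL (f / 32)).map fun c =>
        cond (Nat.beq (c / 64) (e / 32) && Nat.beq (mulT (c / 2 % 32) (e % 32)) (f % 32))
          (sgI (c % 2)) 0).sum = 0 := by
      intro h1
      apply List.sum_eq_zero
      intro x hx
      rw [List.mem_map] at hx
      obtain ⟨c, hc, rfl⟩ := hx
      have h2 := hfac2 c hc
      have h3 : Nat.beq (c / 64) (e / 32) = false := by
        rw [← Bool.not_eq_true, Nat.beq_eq]
        omega
      rw [h3]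
      rfl
    rcases VL_cases he with rfl | ⟨_, rfl⟩ | he'
    · rw [ph_top, hzero (by decide)]
      rfl
    · rw [ph_kap, hzero (by decide)]
      show ep kap (pt (f / 32) (g * (lab (f % 32))⁻¹)) = 0
      rw [ep_pt b1]
      unfold epL
      apply List.sum_eq_zero
      intro x hx
      rw [List.mem_map] at hx
      obtain ⟨c, hc, rfl⟩ := hx
      rw [if_neg]
      exact fun h => pt_ne_kap _ _ h.symm
    · obtain ⟨a1, a2, a3⟩ := u_mem hi he'
      rw [ph_low g a1]
      show ep (pt (e / 32) (g * (lab (e % 32))⁻¹)) (pt (f / 32) (g * (lab (f % 32))⁻¹)) = _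
      rw [ep_pt b1]
      unfold epL
      congr 1
      refine List.map_congr_left fun c hc => ?_
      obtain ⟨h1, h2⟩ := hfac c hc
      have h3 := hfac2 c hc
      obtain ⟨c1, c2, c3, c4⟩ := clo_facts (by omega) h1
      have e1 : c / 2 / 32 = c / 64 := by omega
      rw [sg_eq]
      have hiff : pt (e / 32) (g * (lab (e % 32))⁻¹) =
          pt (c / 64) (g * (lab (f % 32))⁻¹ * lab (c / 2 % 32)) ↔
          (Nat.beq (c / 64) (e / 32) && Nat.beq (mulT (c / 2 % 32) (e % 32)) (f % 32)) = true := by
        rw [Bool.and_eq_true, Nat.beq_eq, Nat.beq_eq, pt_eq_iff a1 (by omega)]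
        constructor
        · rintro ⟨h4, h5⟩
          refine ⟨h4.symm, ?_⟩
          have h6 : g * (lab (e % 32))⁻¹ = g * (lab (f % 32))⁻¹ * lab (c / 2 % 32) := by
            rcases h5 with h5 | ⟨h5, _⟩
            · exact h5
            · omega
          refine (lab_rel hi he' hf' h1 (by omega)).1 ?_
          have h7 : (lab (e % 32))⁻¹ = (lab (f % 32))⁻¹ * lab (c / 2 % 32) := by
            rw [mul_assoc] at h6
            exact mul_left_cancel h6
          have h8 : lab (f % 32) * (lab (e % 32))⁻¹ = lab (c / 2 % 32) := by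
            rw [h7]
            group
          rw [← h8]
          group
        · rintro ⟨h4, h5⟩
          refine ⟨h4.symm, Or.inl ?_⟩
          have h6 := (lab_rel hi he' hf' h1 (by omega)).2 h5
          rw [← h6]
          group
      by_cases h4 : pt (e / 32) (g * (lab (e % 32))⁻¹) =
          pt (c / 64) (g * (lab (f % 32))⁻¹ * lab (c / 2 % 32))
      · rw [if_pos h4, hiff.1 h4]
        rfl
      · have h5 : (Nat.beq (c / 64) (e / 32) &&
            Nat.beq (mulT (c / 2 % 32) (e % 32)) (f % 32)) = false := by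
          rw [← Bool.not_eq_true]
          exact fun h => h4 (hiff.2 h)
        rw [if_neg h4, h5]
        rfl

end Pool.Agent.Helper635.PD4.RX
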