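import Pool.Agent.Helper635_PD4.PPTop

/-!
# Auxiliary lemmas for module F2: acyclicity in one degree of a (possibly infinite) based complex
-/

open scoped Classical

namespace Pool.Agent.Helper635.PD4

section bf
variable {V : Type*}

/-- the boundary of a finitely supported function, as a function -/
noncomputable def bf (E : V → V → ℤ) (z : V →₀ ℤ) (u : V) : ℤ := z.sum fun v c => E u v * c

theorem bf_add (E : V → V → ℤ) (z z' : V →₀ ℤ) (u : V) : bf E (z + z') u = bf E z u + bf E z' u := by
  unfold bf
  rw [Finsupp.sum_add_index']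
  · intro a; simp
  · intro a b c; ring

theorem bf_sub (E : V → V → ℤ) (z z' : V →₀ ℤ) (u : V) : bf E (z - z') u = bf E z u - bf E z' u := by
  unfold bf
  rw [Finsupp.sum_sub_index]
  intro a b c; ring

theorem bf_zero (E : V → V → ℤ) (u : V) : bf E 0 u = 0 := by
  unfold bf; simp

theorem bf_sum {ι : Type*} (E : V → V → ℤ) (s : Finset ι) (z : ι → V →₀ ℤ) (u : V) :
    bf E (∑ i ∈ s, z i) u = ∑ i ∈ s, bf E (z i) u := by
  induction s using Finset.induction_on with
  | empty => simp [bf_zero]
  | insert a s ha ih => rw [Finset.sum_insert ha, Finset.sum_insert ha, bf_add, ih]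

theorem bf_eq_sum (E : V → V → ℤ) (z : V →₀ ℤ) (u : V) (s : Finset V)
    (hs : ∀ v, z v ≠ 0 → v ∈ s) : bf E z u = ∑ v ∈ s, E u v * z v := by
  unfold bf
  rw [Finsupp.sum]
  apply Finset.sum_subset
  · intro v hv
    exact hs v (Finsupp.mem_support_iff.1 hv)
  · intro v _ hv
    rw [Finsupp.notMem_support_iff.1 hv]; ring

theorem bf_ne_zero (E : V → V → ℤ) (z : V →₀ ℤ) (u : V) (h : bf E z u ≠ 0) :
    ∃ v, z v ≠ 0 ∧ E u v ≠ 0 := by
  by_contra hc
  push Not at hc
  apply h
  unfold bf
  rw [Finsupp.sum]
  apply Finset.sum_eq_zero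
  intro v hv
  rw [hc v (Finsupp.mem_support_iff.1 hv)]; ring

/-- exactness in degree `k` of the free group on `S` -/
def Acy (E : V → V → ℤ) (r : V → ℕ) (k : ℕ) (S : Set V) : Prop :=
  ∀ z : V →₀ ℤ, (∀ x, z x ≠ 0 → x ∈ S ∧ r x = k) → (∀ u ∈ S, bf E z u = 0) →
    ∃ y : V →₀ ℤ, (∀ x, y x ≠ 0 → x ∈ S ∧ r x = k + 1) ∧ ∀ u ∈ S, z u = bf E y u

theorem acy_of_empty (E : V → V → ℤ) (r : V → ℕ) (k : ℕ) (S : Set V)
    (hS : ∀ x ∈ S, r x ≠ k) : Acy E r k S := by
  intro z hz _
  have : z = 0 := by
    ext x
    by_contra h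
    exact hS x (hz x h).1 (hz x h).2
  refine ⟨0, ?_, ?_⟩
  · intro x hx; exact absurd rfl hx
  · intro u _; rw [this, bf_zero]; rfl

/-- filtration with pieces exact in degree `k` -/
theorem acy_filt {ι : Type*} (E : V → V → ℤ) (r : V → ℕ) (k : ℕ) (S : Set V) (f : V → ι)
    (ρ : ι → ℕ)
    (hgr : ∀ u ∈ S, ∀ v ∈ S, E u v ≠ 0 → r v = r u + 1)
    (hfin : ∀ v ∈ S, {u | u ∈ S ∧ E u v ≠ 0}.Finite)
    (hsq : ∀ u ∈ S, ∀ w ∈ S, ∀ s : Finset V, (∀ v ∈ s, v ∈ S) →
      (∀ v ∈ S, E u v ≠ 0 → E v w ≠ 0 → v ∈ s) → ∑ v ∈ s, E u v * E v w = 0)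
    (hE : ∀ u ∈ S, ∀ v ∈ S, E u v ≠ 0 → f u = f v ∨ ρ (f u) < ρ (f v))
    (hp : ∀ i : ι, Acy E r k {v | v ∈ S ∧ f v = i}) : Acy E r k S := by
  -- the claim for cycles of bounded filtration
  have main : ∀ N : ℕ, ∀ z : V →₀ ℤ, (∀ x, z x ≠ 0 → x ∈ S ∧ r x = k) →
      (∀ x, z x ≠ 0 → ρ (f x) < N) → (∀ u ∈ S, bf E z u = 0) →
      ∃ y : V →₀ ℤ, (∀ x, y x ≠ 0 → x ∈ S ∧ r x = k + 1) ∧ ∀ u ∈ S, z u = bf E y u := by
    intro N
    induction N with
    | zero =>
      intro z hz hN hc
      have : z = 0 := by
        ext x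
        by_contra h
        exact absurd (hN x h) (by omega)
      refine ⟨0, ?_, ?_⟩
      · intro x hx; exact absurd rfl hx
      · intro u _; rw [this, bf_zero]; rfl
    | succ N ih =>
      intro z hz hN hc
      -- the pieces
      have h1 : ∀ i : ι, ρ i = N → ∃ y : V →₀ ℤ,
          (∀ x, y x ≠ 0 → (x ∈ S ∧ f x = i) ∧ r x = k + 1) ∧
          ∀ u, u ∈ S ∧ f u = i → z u = bf E y u := by
        intro i hi
        obtain ⟨y, hy1, hy2⟩ := hp i (z.filter (fun v => f v = i)) (by
          intro x hx
          rw [Finsupp.filter_apply] at hx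
          split_ifs at hx with h
          · exact ⟨⟨(hz x hx).1, h⟩, (hz x hx).2⟩
          · exact absurd rfl hx) (by
          rintro u ⟨hu, hui⟩
          rw [← hc u hu]
          rw [bf_eq_sum E _ u z.support (by
            intro v hv
            rw [Finsupp.filter_apply] at hv
            split_ifs at hv with h
            · exact Finsupp.mem_support_iff.2 hv
            · exact absurd rfl hv),
            bf_eq_sum E z u z.support (by intro v hv; exact Finsupp.mem_support_iff.2 hv)]
          apply Finset.sum_congr rfl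
          intro v hv
          rw [Finsupp.filter_apply]
          split_ifs with h
          · rfl
          · have hzv := Finsupp.mem_support_iff.1 hv
            by_cases hEuv : E u v = 0
            · rw [hEuv]; ring
            · exfalso
              rcases hE u hu v (hz v hzv).1 hEuv with h2 | h2
              · exact h (by rw [← h2, hui])
              · rw [hui, hi] at h2
                have := hN v hzv
                omega)
        refine ⟨y, hy1, ?_⟩
        intro u hu
        rw [← hy2 u hu, Finsupp.filter_apply, if_pos hu.2]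
      choose! Y hY1 hY2 using h1
      set I : Finset ι := (z.support.filter (fun x => ρ (f x) = N)).image f with hI
      have hIN : ∀ i ∈ I, ρ i = N := by
        intro i hi
        obtain ⟨x, hx, rfl⟩ := Finset.mem_image.1 hi
        exact (Finset.mem_filter.1 hx).2
      set y' : V →₀ ℤ := ∑ i ∈ I, Y i with hy'
      have hy'S : ∀ x, y' x ≠ 0 → (x ∈ S ∧ ρ (f x) = N) ∧ r x = k + 1 := by
        intro x hx
        rw [hy', Finsupp.finsetSum_apply] at hx
        obtain ⟨i, hi, hne⟩ := Finset.exists_ne_zero_of_sum_ne_zero hx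
        have := hY1 i (hIN i hi) x hne
        exact ⟨⟨this.1.1, by rw [this.1.2, hIN i hi]⟩, this.2⟩
      -- the finite set carrying the boundary of y'
      have hfinB : {u | u ∈ S ∧ bf E y' u ≠ 0}.Finite := by
        apply Set.Finite.subset (Set.Finite.biUnion (y'.support.finite_toSet)
          (fun v (hv : v ∈ y'.support) => hfin v (hy'S v (Finsupp.mem_support_iff.1 hv)).1.1))
        rintro u ⟨hu, hne⟩
        obtain ⟨v, hv, hE'⟩ := bf_ne_zero E y' u hne
        simp only [Set.mem_iUnion]
        exact ⟨v, Finsupp.mem_support_iff.2 hv, hu, hE'⟩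
      set d : V →₀ ℤ := Finsupp.onFinset hfinB.toFinset
        (fun u => if u ∈ S then bf E y' u else 0) (by
          intro u hu
          rw [Set.Finite.mem_toFinset]
          by_cases h : u ∈ S
          · rw [if_pos h] at hu; exact ⟨h, hu⟩
          · rw [if_neg h] at hu; exact absurd rfl hu) with hd
      have hdS : ∀ u ∈ S, d u = bf E y' u := by
        intro u hu
        rw [hd, Finsupp.onFinset_apply, if_pos hu]
      have hdn : ∀ u, u ∉ S → d u = 0 := by
        intro u hu
        rw [hd, Finsupp.onFinset_apply, if_neg hu]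
      have hdr : ∀ x, d x ≠ 0 → x ∈ S ∧ r x = k := by
        intro x hx
        by_cases h : x ∈ S
        · rw [hdS x h] at hx
          obtain ⟨v, hv, hE'⟩ := bf_ne_zero E y' x hx
          have h1 := hy'S v hv
          have h2 := hgr x h v h1.1.1 hE'
          exact ⟨h, by omega⟩
        · exact absurd (hdn x h) hx
      have hbfd : ∀ u ∈ S, bf E d u = 0 := by
        intro u hu
        rw [bf_eq_sum E d u hfinB.toFinset (by
          intro v hv
          rw [Set.Finite.mem_toFinset]
          by_cases h : v ∈ S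
          · rw [hdS v h] at hv; exact ⟨h, hv⟩
          · exact absurd (hdn v h) hv)]
        -- enlarge the index set
        set T : Finset V := y'.support.biUnion
          (fun v => if hv : v ∈ S then (hfin v hv).toFinset else ∅) with hT
        have hTS : ∀ v ∈ T, v ∈ S := by
          intro v hv
          rw [hT, Finset.mem_biUnion] at hv
          obtain ⟨w, _, hvw⟩ := hv
          split_ifs at hvw with h
          · rw [Set.Finite.mem_toFinset] at hvw; exact hvw.1
          · exact absurd hvw (Finset.notMem_empty _)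
        have e1 : ∑ v ∈ hfinB.toFinset, E u v * d v = ∑ v ∈ T, E u v * d v := by
          apply Finset.sum_subset
          · intro v hv
            rw [Set.Finite.mem_toFinset] at hv
            obtain ⟨w, hw, hE'⟩ := bf_ne_zero E y' v hv.2
            rw [hT, Finset.mem_biUnion]
            refine ⟨w, Finsupp.mem_support_iff.2 hw, ?_⟩
            rw [dif_pos (hy'S w hw).1.1, Set.Finite.mem_toFinset]
            exact ⟨hv.1, hE'⟩
          · intro v hvT hv
            rw [Set.Finite.mem_toFinset] at hv
            have : bf E y' v = 0 := by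
              by_contra hne
              exact hv ⟨hTS v hvT, hne⟩
            rw [hdS v (hTS v hvT), this]; ring
        rw [e1]
        have e2 : ∑ v ∈ T, E u v * d v = ∑ w ∈ y'.support, (∑ v ∈ T, E u v * E v w) * y' w := by
          simp only [Finset.sum_mul]
          rw [Finset.sum_comm]
          apply Finset.sum_congr rfl
          intro v hv
          rw [hdS v (hTS v hv), bf_eq_sum E y' v y'.support (by
            intro w hw; exact Finsupp.mem_support_iff.2 hw), Finset.mul_sum]
          apply Finset.sum_congr rfl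
          intro w _
          ring
        rw [e2]
        apply Finset.sum_eq_zero
        intro w hw
        have hwS := (hy'S w (Finsupp.mem_support_iff.1 hw)).1.1
        rw [hsq u hu w hwS T hTS (by
          intro v hv _ hvw
          rw [hT, Finset.mem_biUnion]
          refine ⟨w, hw, ?_⟩
          rw [dif_pos hwS, Set.Finite.mem_toFinset]
          exact ⟨hv, hvw⟩)]
        ring
      obtain ⟨y'', hy1, hy2⟩ := ih (z - d) (by
        intro x hx
        by_cases h : d x = 0
        · rw [Finsupp.sub_apply, h, sub_zero] at hx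
          exact hz x hx
        · exact hdr x h) (by
        intro x hx
        by_contra hge
        push Not at hge
        apply hx
        rw [Finsupp.sub_apply]
        have hxS : x ∈ S := by
          by_contra h
          apply hx
          rw [Finsupp.sub_apply, hdn x h, sub_zero]
          by_contra h2
          exact h (hz x h2).1
        rw [hdS x hxS]
        rcases Nat.lt_or_ge N (ρ (f x)) with hlt | hle
        · have hzx : z x = 0 := by
            by_contra h2
            have := hN x h2
            omega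
          have hbx : bf E y' x = 0 := by
            by_contra h2
            obtain ⟨v, hv, hE'⟩ := bf_ne_zero E y' x h2
            have h3 := hy'S v hv
            rcases hE x hxS v h3.1.1 hE' with h4 | h4
            · rw [h4] at hlt; omega
            · omega
          rw [hzx, hbx, sub_zero]
        · have hρ : ρ (f x) = N := le_antisymm hle hge
          have e3 : ∀ i ∈ I, i ≠ f x → bf E (Y i) x = 0 := by
            intro i hi hne
            by_contra h2
            obtain ⟨v, hv, hE'⟩ := bf_ne_zero E (Y i) x h2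
            have h3 := hY1 i (hIN i hi) v hv
            rcases hE x hxS v h3.1.1 hE' with h4 | h4
            · exact hne (by rw [h4, h3.1.2])
            · rw [h3.1.2, hIN i hi] at h4; omega
          rw [hy', bf_sum]
          by_cases hfI : f x ∈ I
          · rw [Finset.sum_eq_single (f x) e3 (fun h => absurd hfI h)]
            rw [hY2 (f x) hρ x ⟨hxS, rfl⟩, sub_self]
          · have hzx : z x = 0 := by
              by_contra h2
              apply hfI
              rw [hI, Finset.mem_image]
              exact ⟨x, Finset.mem_filter.2 ⟨Finsupp.mem_support_iff.2 h2, hρ⟩, rfl⟩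
            rw [hzx, Finset.sum_eq_zero, sub_zero]
            intro i hi
            exact e3 i hi (fun h => hfI (by rw [← h]; exact hi))) (by
        intro u hu
        rw [bf_sub, hc u hu, hbfd u hu, sub_zero])
      refine ⟨y' + y'', ?_, ?_⟩
      · intro x hx
        by_cases h : y' x = 0
        · rw [Finsupp.add_apply, h, zero_add] at hx
          exact hy1 x hx
        · exact ⟨(hy'S x h).1.1, (hy'S x h).2⟩
      · intro u hu
        rw [bf_add, ← hy2 u hu, Finsupp.sub_apply, hdS u hu]
        ring
  intro z hz hc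
  exact main (z.support.sup (fun x => ρ (f x)) + 1) z hz (by
    intro x hx
    have : ρ (f x) ≤ z.support.sup (fun x => ρ (f x)) :=
      Finset.le_sup (f := fun x => ρ (f x)) (Finsupp.mem_support_iff.2 hx)
    omega) hc

end bf

section image
variable {V V' : Type*}

theorem acy_image (E : V → V → ℤ) (E' : V' → V' → ℤ) (r : V → ℕ) (r' : V' → ℕ) (k k' : ℕ)
    (S : Set V) (S' : Set V') (φ : V → V') (s : V → ℤ) (hφ : Set.InjOn φ S)
    (hS : φ '' S = S') (hs : ∀ v ∈ S, s v * s v = 1)
    (hE : ∀ u ∈ S, ∀ v ∈ S, E' (φ u) (φ v) = s u * s v * E u v)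
    (hr : ∀ v ∈ S, r' (φ v) = k' ↔ r v = k)
    (hr1 : ∀ v ∈ S, r' (φ v) = k' + 1 ↔ r v = k + 1)
    (h : Acy E r k S) : Acy E' r' k' S' := by
  intro z' hz' hc'
  have hfin : {v | v ∈ S ∧ z' (φ v) ≠ 0}.Finite := by
    apply Set.Finite.of_finite_image (f := φ)
    · apply Set.Finite.subset z'.support.finite_toSet
      rintro _ ⟨v, ⟨_, hv⟩, rfl⟩
      exact Finsupp.mem_support_iff.2 hv
    · exact hφ.mono (fun v hv => hv.1)
  set z : V →₀ ℤ := Finsupp.onFinset hfin.toFinset
    (fun v => if v ∈ S then s v * z' (φ v) else 0) (by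
      intro v hv
      rw [Set.Finite.mem_toFinset]
      by_cases h : v ∈ S
      · rw [if_pos h] at hv
        exact ⟨h, fun h0 => hv (by rw [h0]; ring)⟩
      · rw [if_neg h] at hv; exact absurd rfl hv) with hz
  have hzS : ∀ v ∈ S, z v = s v * z' (φ v) := by
    intro v hv
    rw [hz, Finsupp.onFinset_apply, if_pos hv]
  have hzn : ∀ v, v ∉ S → z v = 0 := by
    intro v hv
    rw [hz, Finsupp.onFinset_apply, if_neg hv]
  have hz0 : ∀ v, z v ≠ 0 → v ∈ S ∧ z' (φ v) ≠ 0 := by
    intro v hv
    by_cases h : v ∈ S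
    · rw [hzS v h] at hv
      exact ⟨h, fun h0 => hv (by rw [h0]; ring)⟩
    · exact absurd (hzn v h) hv
  have hbf : ∀ u ∈ S, bf E z u = s u * bf E' z' (φ u) := by
    intro u hu
    rw [bf_eq_sum E z u hfin.toFinset (by
      intro v hv
      rw [Set.Finite.mem_toFinset]
      exact hz0 v hv)]
    rw [bf_eq_sum E' z' (φ u) (hfin.toFinset.image φ) (by
      intro v' hv'
      obtain ⟨v, hv, rfl⟩ : v' ∈ φ '' S := by rw [hS]; exact (hz' v' hv').1
      rw [Finset.mem_image]
      refine ⟨v, ?_, rfl⟩
      rw [Set.Finite.mem_toFinset]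
      exact ⟨hv, hv'⟩)]
    rw [Finset.sum_image (by
      intro a ha b hb hab
      rw [Finset.mem_coe, Set.Finite.mem_toFinset] at ha hb
      exact hφ ha.1 hb.1 hab), Finset.mul_sum]
    apply Finset.sum_congr rfl
    intro v hv
    rw [Set.Finite.mem_toFinset] at hv
    rw [hzS v hv.1, hE u hu v hv.1]
    have := hs u hu
    calc E u v * (s v * z' (φ v)) = (s u * s u) * (E u v * (s v * z' (φ v))) := by rw [this]; ring
      _ = _ := by ring
  obtain ⟨y, hy1, hy2⟩ := h z (by
    intro v hv
    have h1 := hz0 v hv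
    exact ⟨h1.1, (hr v h1.1).1 (hz' _ h1.2).2⟩) (by
    intro u hu
    rw [hbf u hu, hc' (φ u) (by rw [← hS]; exact ⟨u, hu, rfl⟩), mul_zero])
  set y' : V' →₀ ℤ := ∑ v ∈ y.support, Finsupp.single (φ v) (s v * y v) with hy'
  have hyS : ∀ v ∈ S, y' (φ v) = s v * y v := by
    intro v hv
    rw [hy', Finsupp.finsetSum_apply]
    by_cases hvy : v ∈ y.support
    · rw [Finset.sum_eq_single v]
      · rw [Finsupp.single_eq_same]
      · intro w hw hne
        rw [Finsupp.single_apply, if_neg]
        intro heq
        exact hne (hφ (hy1 w (Finsupp.mem_support_iff.1 hw)).1 hv heq)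
      · intro h; exact absurd hvy h
    · rw [Finsupp.notMem_support_iff.1 hvy, mul_zero]
      apply Finset.sum_eq_zero
      intro w hw
      rw [Finsupp.single_apply, if_neg]
      intro heq
      apply hvy
      rw [← hφ (hy1 w (Finsupp.mem_support_iff.1 hw)).1 hv heq]
      exact hw
  have hy'n : ∀ v', y' v' ≠ 0 → ∃ v ∈ y.support, φ v = v' := by
    intro v' hv'
    rw [hy', Finsupp.finsetSum_apply] at hv'
    obtain ⟨v, hv, hne⟩ := Finset.exists_ne_zero_of_sum_ne_zero hv'
    refine ⟨v, hv, ?_⟩
    by_contra h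
    apply hne
    rw [Finsupp.single_apply, if_neg h]
  refine ⟨y', ?_, ?_⟩
  · intro v' hv'
    obtain ⟨v, hv, rfl⟩ := hy'n v' hv'
    have h1 := hy1 v (Finsupp.mem_support_iff.1 hv)
    refine ⟨by rw [← hS]; exact ⟨v, h1.1, rfl⟩, ?_⟩
    exact (hr1 v h1.1).2 h1.2
  · intro u' hu'
    rw [← hS] at hu'
    obtain ⟨u, hu, rfl⟩ := hu'
    rw [bf_eq_sum E' y' (φ u) (y.support.image φ) (by
      intro v' hv'
      obtain ⟨v, hv, rfl⟩ := hy'n v' hv'
      exact Finset.mem_image_of_mem _ hv)]
    rw [Finset.sum_image (by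
      intro a ha b hb hab
      exact hφ (hy1 a (Finsupp.mem_support_iff.1 ha)).1
        (hy1 b (Finsupp.mem_support_iff.1 hb)).1 hab)]
    have e1 : ∑ v ∈ y.support, E' (φ u) (φ v) * y' (φ v) = s u * bf E y u := by
      rw [bf_eq_sum E y u y.support (by intro v hv; exact Finsupp.mem_support_iff.2 hv),
        Finset.mul_sum]
      apply Finset.sum_congr rfl
      intro v hv
      have hvS := (hy1 v (Finsupp.mem_support_iff.1 hv)).1
      rw [hE u hu v hvS, hyS v hvS]
      have := hs v hvS
      calc s u * s v * E u v * (s v * y v) = (s v * s v) * (s u * (E u v * y v)) := by ring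
        _ = _ := by rw [this]; ring
    rw [e1, ← hy2 u hu, hzS u hu]
    have := hs u hu
    calc z' (φ u) = (s u * s u) * z' (φ u) := by rw [this]; ring
      _ = _ := by ring

/-- the other direction -/
theorem acy_of_image (E : V → V → ℤ) (E' : V' → V' → ℤ) (r : V → ℕ) (r' : V' → ℕ) (k k' : ℕ)
    (S : Set V) (S' : Set V') (φ : V → V') (s : V → ℤ) (hφ : Set.InjOn φ S)
    (hS : φ '' S = S') (hs : ∀ v ∈ S, s v * s v = 1)
    (hE : ∀ u ∈ S, ∀ v ∈ S, E' (φ u) (φ v) = s u * s v * E u v)
    (hr : ∀ v ∈ S, r' (φ v) = k' ↔ r v = k)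
    (hr1 : ∀ v ∈ S, r' (φ v) = k' + 1 ↔ r v = k + 1)
    (h : Acy E' r' k' S') : Acy E r k S := by
  rcases isEmpty_or_nonempty V with hV | hV
  · apply acy_of_empty
    intro x
    exact (hV.false x).elim
  have hinv : ∀ v ∈ S, Function.invFunOn φ S (φ v) = v := by
    intro v hv
    apply hφ
    · exact Function.invFunOn_mem ⟨v, hv, rfl⟩
    · exact hv
    · exact Function.invFunOn_eq ⟨v, hv, rfl⟩
  apply acy_image E' E r' r k' k S' S (Function.invFunOn φ S)
    (fun v' => s (Function.invFunOn φ S v'))
  · intro a ha b hb hab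
    rw [← hS] at ha hb
    obtain ⟨a, ha, rfl⟩ := ha
    obtain ⟨b, hb, rfl⟩ := hb
    rw [hinv a ha, hinv b hb] at hab
    rw [hab]
  · rw [← hS]
    ext v
    constructor
    · rintro ⟨_, ⟨w, hw, rfl⟩, rfl⟩
      rw [hinv w hw]; exact hw
    · intro hv
      exact ⟨φ v, ⟨v, hv, rfl⟩, hinv v hv⟩
  · intro v' hv'
    rw [← hS] at hv'
    obtain ⟨v, hv, rfl⟩ := hv'
    show s (Function.invFunOn φ S (φ v)) * s (Function.invFunOn φ S (φ v)) = 1
    rw [hinv v hv]
    exact hs v hv
  · intro u' hu' v' hv'
    rw [← hS] at hu' hv'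
    obtain ⟨u, hu, rfl⟩ := hu'
    obtain ⟨v, hv, rfl⟩ := hv'
    show E (Function.invFunOn φ S (φ u)) (Function.invFunOn φ S (φ v)) =
      s (Function.invFunOn φ S (φ u)) * s (Function.invFunOn φ S (φ v)) * E' (φ u) (φ v)
    rw [hinv u hu, hinv v hv, hE u hu v hv]
    have h1 := hs u hu
    have h2 := hs v hv
    calc E u v = (s u * s u) * (s v * s v) * E u v := by rw [h1, h2]; ring
      _ = _ := by ring
  · intro v' hv'
    rw [← hS] at hv'
    obtain ⟨v, hv, rfl⟩ := hv'
    rw [hinv v hv]
    exact (hr v hv).symm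
  · intro v' hv'
    rw [← hS] at hv'
    obtain ⟨v, hv, rfl⟩ := hv'
    rw [hinv v hv]
    exact (hr1 v hv).symm
  · exact h

end image

section dE
variable {Q : Type*} [PartialOrder Q]

theorem dEc_ne {A' A : Finset Q} (h : dE A' A ≠ 0) : ∃ a ∈ A, A' = A.erase a := by
  unfold dE at h
  obtain ⟨a, ha, hne⟩ := Finset.exists_ne_zero_of_sum_ne_zero h
  by_cases h1 : A' = A.erase a
  · exact ⟨a, ha, h1⟩
  · rw [if_neg h1] at hne; exact absurd rfl hne

theorem dE_sub {A' A : Finset Q} (h : dE A' A ≠ 0) : A' ⊆ A := by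
  obtain ⟨a, _, rfl⟩ := dEc_ne h
  exact Finset.erase_subset _ _

theorem dE_card {A' A : Finset Q} (h : dE A' A ≠ 0) : A.card = A'.card + 1 := by
  obtain ⟨a, ha, rfl⟩ := dEc_ne h
  rw [Finset.card_erase_of_mem ha]
  have := Finset.card_pos.2 ⟨a, ha⟩
  omega

theorem dEc_erase {A : Finset Q} {a : Q} (ha : a ∈ A) : dE (A.erase a) A = (-1) ^ pos A a := by
  unfold dE
  rw [Finset.sum_eq_single a]
  · rw [if_pos rfl]
  · intro b hb hne
    rw [if_neg]
    intro h
    have : b ∈ A.erase a := Finset.mem_erase.2 ⟨hne, hb⟩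
    rw [h] at this
    exact Finset.notMem_erase b A this
  · intro h; exact absurd ha h

theorem dE_self (A : Finset Q) : dE A A = 0 := by
  by_contra h
  have := dE_card h
  omega

theorem pos_erase_lt {A : Finset Q} {a b : Q} (ha : a ∈ A) (hab : a < b) :
    pos A b = pos (A.erase a) b + 1 := by
  unfold pos
  rw [← Finset.card_erase_add_one (s := A.filter (fun x => x < b)) (a := a)
    (Finset.mem_filter.2 ⟨ha, hab⟩)]
  congr 2
  ext x
  simp only [Finset.mem_erase, Finset.mem_filter]
  tauto

theorem pos_erase_gt {A : Finset Q} {a b : Q} (hab : a < b) :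
    pos (A.erase b) a = pos A a := by
  unfold pos
  congr 1
  ext x
  simp only [Finset.mem_erase, Finset.mem_filter]
  constructor
  · rintro ⟨⟨_, h1⟩, h2⟩; exact ⟨h1, h2⟩
  · rintro ⟨h1, h2⟩
    refine ⟨⟨?_, h1⟩, h2⟩
    rintro rfl
    exact absurd h2 (lt_asymm hab)

/-- `∂² = 0` for chains -/
theorem dE_sq (u w : Finset Q) (hw : IsChain (· ≤ ·) (w : Set Q)) (s : Finset (Finset Q))
    (hs : ∀ v, dE u v ≠ 0 → dE v w ≠ 0 → v ∈ s) : ∑ v ∈ s, dE u v * dE v w = 0 := by
  by_cases hex : ∃ v, dE u v ≠ 0 ∧ dE v w ≠ 0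
  · obtain ⟨v, h1, h2⟩ := hex
    obtain ⟨a, ha, rfl⟩ := dEc_ne h2
    obtain ⟨b, hb, rfl⟩ := dEc_ne h1
    have hba : b ≠ a := (Finset.mem_erase.1 hb).1
    have hbw : b ∈ w := (Finset.mem_erase.1 hb).2
    -- wlog a < b
    have key : ∀ a b : Q, a ∈ w → b ∈ w → a < b →
        dE ((w.erase a).erase b) (w.erase a) * dE (w.erase a) w +
        dE ((w.erase a).erase b) (w.erase b) * dE (w.erase b) w = 0 := by
      intro a b ha hb hab
      have h1 : b ∈ w.erase a := Finset.mem_erase.2 ⟨hab.ne', hb⟩
      have h2 : a ∈ w.erase b := Finset.mem_erase.2 ⟨hab.ne, ha⟩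
      rw [dEc_erase h1, dEc_erase ha, Finset.erase_right_comm, dEc_erase h2, dEc_erase hb,
        pos_erase_lt ha hab, pos_erase_gt hab]
      ring
    have hsum : ∑ v ∈ s, dE ((w.erase a).erase b) v * dE v w =
        ∑ v ∈ ({w.erase a, w.erase b} : Finset (Finset Q)),
          dE ((w.erase a).erase b) v * dE v w := by
      symm
      apply Finset.sum_subset_zero_on_sdiff
      · intro v hv
        rw [Finset.mem_insert, Finset.mem_singleton] at hv
        rcases hv with rfl | rfl
        · exact hs _ h1 h2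
        · apply hs
          · rw [Finset.erase_right_comm, dEc_erase (Finset.mem_erase.2 ⟨hba.symm, ha⟩)]
            exact pow_ne_zero _ (by norm_num)
          · rw [dEc_erase hbw]
            exact pow_ne_zero _ (by norm_num)
      · intro v hv
        rw [Finset.mem_sdiff, Finset.mem_insert, Finset.mem_singleton, not_or] at hv
        by_contra hne
        have hne1 : dE ((w.erase a).erase b) v ≠ 0 := fun h => hne (by rw [h]; ring)
        have hne2 : dE v w ≠ 0 := fun h => hne (by rw [h]; ring)
        obtain ⟨c, hc, rfl⟩ := dEc_ne hne2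
        have hsub := dE_sub hne1
        by_cases hca : c = a
        · exact hv.2.1 (by rw [hca])
        by_cases hcb : c = b
        · exact hv.2.2 (by rw [hcb])
        have hc2 : c ∈ (w.erase a).erase b :=
          Finset.mem_erase.2 ⟨hcb, Finset.mem_erase.2 ⟨hca, hc⟩⟩
        exact Finset.notMem_erase c w (hsub hc2)
      · intro v _; rfl
    rw [hsum, Finset.sum_pair]
    · rcases hw (Finset.mem_coe.2 ha) (Finset.mem_coe.2 hbw) hba.symm with h | h
      · exact key a b ha hbw (lt_of_le_of_ne h hba.symm)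
      · have := key b a hbw ha (lt_of_le_of_ne h hba)
        rw [Finset.erase_right_comm] at this
        rw [add_comm]
        exact this
    · intro h
      have : b ∈ w.erase a := hb
      rw [h] at this
      exact Finset.notMem_erase b w this
  · apply Finset.sum_eq_zero
    intro v _
    by_contra hne
    apply hex
    exact ⟨v, fun h => hne (by rw [h]; ring), fun h => hne (by rw [h]; ring)⟩

theorem dE_fin (v : Finset Q) : {u | dE u v ≠ 0}.Finite := by
  apply Set.Finite.subset (v.powerset.finite_toSet)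
  intro u hu
  exact Finset.mem_coe.2 (Finset.mem_powerset.2 (dE_sub hu))

/-- the nonempty chains of `Q` -/
def NC (Q : Type*) [PartialOrder Q] : Set (Finset Q) :=
  {A | A.Nonempty ∧ IsChain (· ≤ ·) (A : Set Q)}

/-- a criterion in the complex of subsets, for a set `S` of finite chains which is convex -/
theorem acy_filt_chain (k : ℕ) (S : Set (Finset Q)) (hch : ∀ A ∈ S, IsChain (· ≤ ·) (A : Set Q))
    (hconv : ∀ u ∈ S, ∀ w ∈ S, ∀ v, u ⊆ v → v ⊆ w → v ∈ S) {ι : Type*} (f : Finset Q → ι)
    (ρ : ι → ℕ) (hE : ∀ u v, dE u v ≠ 0 → f u = f v ∨ ρ (f u) < ρ (f v))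
    (hp : ∀ i : ι, Acy dE Finset.card k {v | v ∈ S ∧ f v = i}) : Acy dE Finset.card k S := by
  apply acy_filt dE Finset.card k S f ρ
  · intro u _ v _ h
    exact dE_card h
  · intro v _
    apply (dE_fin v).subset
    rintro u ⟨_, hu⟩
    exact hu
  · intro u hu w hw s _ hs
    apply dE_sq u w (hch w hw) s
    intro v h1 h2
    exact hs v (hconv u hu w hw v (dE_sub h1) (dE_sub h2)) h1 h2
  · intro u _ v _ h
    exact hE u v h
  · exact hp

/-- the order complex of a poset with a greatest element is acyclic in positive degrees -/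
theorem acy_of_top (t : Q) (ht : ∀ x : Q, x ≤ t) (k : ℕ) (hk : 2 ≤ k) :
    Acy dE Finset.card k (NC Q) := by
  apply acy_filt_chain k (NC Q) (fun A hA => hA.2) (by
    intro u hu w hw v huv hvw
    exact ⟨hu.1.mono huv, hw.2.mono (by exact_mod_cast hvw)⟩)
    (fun A => A.erase t) Finset.card
  · intro u v h
    obtain ⟨a, ha, rfl⟩ := dEc_ne h
    by_cases hat : a = t
    · left
      rw [hat, Finset.erase_idem]
    · right
      rw [Finset.erase_right_comm, Finset.card_erase_of_mem (Finset.mem_erase.2 ⟨hat, ha⟩)]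
      have := Finset.card_pos.2 ⟨a, Finset.mem_erase.2 ⟨hat, ha⟩⟩
      omega
  · intro τ
    by_cases hτ : t ∉ τ ∧ IsChain (· ≤ ·) (τ : Set Q)
    swap
    · apply acy_of_empty
      rintro v ⟨hv1, hv2⟩
      exfalso
      apply hτ
      constructor
      · rw [← hv2]; exact Finset.notMem_erase t v
      · rw [← hv2]
        exact hv1.2.mono (by
          intro x hx
          exact Finset.mem_coe.2 (Finset.mem_of_mem_erase (Finset.mem_coe.1 hx)))
    obtain ⟨htτ, hτc⟩ := hτ
    have hmem : ∀ v : Finset Q, v.erase t = τ → v = τ ∨ v = insert t τ := by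
      intro v hv
      by_cases h : t ∈ v
      · right
        rw [← hv, Finset.insert_erase h]
      · left
        rw [← hv, Finset.erase_eq_of_notMem h]
    rcases Finset.eq_empty_or_nonempty τ with rfl | hne
    · apply acy_of_empty
      rintro v ⟨hv1, hv2⟩
      rcases hmem v hv2 with rfl | rfl
      · exact absurd hv1.1 Finset.not_nonempty_empty
      · simp; omega
    -- the piece `{τ, insert t τ}`
    have hcard : (insert t τ).card = τ.card + 1 := Finset.card_insert_of_notMem htτ
    have hτins : τ ≠ insert t τ := by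
      intro h
      apply htτ
      rw [h]; exact Finset.mem_insert_self _ _
    have hdE : dE τ (insert t τ) = (-1) ^ τ.card := by
      have h1 : τ = (insert t τ).erase t := (Finset.erase_insert htτ).symm
      have h2 : dE τ (insert t τ) = dE ((insert t τ).erase t) (insert t τ) := by rw [← h1]
      rw [h2, dEc_erase (Finset.mem_insert_self _ _)]
      congr 1
      unfold pos
      congr 1
      ext x
      rw [Finset.mem_filter, Finset.mem_insert]
      constructor
      · rintro ⟨h3 | h3, h4⟩
        · exact absurd h3 h4.ne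
        · exact h3
      · intro h3
        refine ⟨Or.inr h3, lt_of_le_of_ne (ht x) ?_⟩
        rintro rfl
        exact htτ h3
    have hchi : IsChain (· ≤ ·) ((insert t τ : Finset Q) : Set Q) := by
      rw [Finset.coe_insert]
      apply hτc.insert
      intro b _ _
      exact Or.inr (ht b)
    intro z hz hc
    have hz2 : ∀ v, z v ≠ 0 → v = τ ∨ v = insert t τ := fun v hv => hmem v (hz v hv).1.2
    have hbf : ∀ y : Finset Q →₀ ℤ, (∀ v, y v ≠ 0 → v = τ ∨ v = insert t τ) → ∀ u,
        bf dE y u = dE u τ * y τ + dE u (insert t τ) * y (insert t τ) := by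
      intro y hy u
      rw [bf_eq_sum dE y u {τ, insert t τ} (by
        intro v hv
        rw [Finset.mem_insert, Finset.mem_singleton]
        exact hy v hv), Finset.sum_pair hτins]
    have hz3 : z (insert t τ) = 0 := by
      have h1 := hc τ ⟨⟨hne, hτc⟩, Finset.erase_eq_of_notMem htτ⟩
      rw [hbf z hz2, dE_self, hdE, zero_mul, zero_add] at h1
      rcases mul_eq_zero.1 h1 with h | h
      · exact absurd h (pow_ne_zero _ (by norm_num))
      · exact h
    refine ⟨Finsupp.single (insert t τ) ((-1) ^ τ.card * z τ), ?_, ?_⟩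
    · intro x hx
      have hx1 : insert t τ = x := by
        by_contra h
        rw [Finsupp.single_apply, if_neg h] at hx
        exact hx rfl
      subst hx1
      rw [Finsupp.single_eq_same] at hx
      have hzτ : z τ ≠ 0 := fun h => hx (by rw [h, mul_zero])
      refine ⟨⟨⟨⟨t, Finset.mem_insert_self _ _⟩, hchi⟩, Finset.erase_insert htτ⟩, ?_⟩
      rw [hcard, (hz τ hzτ).2]
    · rintro u ⟨_, hu⟩
      rw [hbf _ (by
        intro v hv
        right
        by_contra h
        rw [Finsupp.single_apply, if_neg (Ne.symm h)] at hv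
        exact hv rfl)]
      rw [Finsupp.single_eq_same, Finsupp.single_apply, if_neg (Ne.symm hτins), mul_zero, zero_add]
      rcases hmem u hu with rfl | rfl
      · rw [hdE, ← mul_assoc, ← pow_add, ← two_mul, pow_mul]
        simp
      · rw [dE_self, hz3, zero_mul]

end dE

end Pool.Agent.Helper635.PD4
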