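import Pool.Agent.Helper635_PD4.Base

/-!
# The reflection poset: definitions

For `D : RData G` we define the right-angled Coxeter group `D.W` on the generators
`D.I = {x < kap} ∪ Z`, the poset `D.PP` of pairs (chain, coset), its rank, incidence numbers and
orientation, and the action of `D.W ⋊ G`.
-/

open scoped Classical

namespace Pool.Agent.Helper635.PD4

/-- right-angled Coxeter matrix: `2` on the pairs related by `adj`, `0` (infinity) otherwise -/
noncomputable def rcm {I : Type*} (adj : I → I → Prop) : CoxeterMatrix I where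
  M := Matrix.of fun i j => if i = j then 1 else if adj i j ∨ adj j i then 2 else 0
  isSymm := by
    ext i j
    simp only [Matrix.transpose_apply, Matrix.of_apply]
    by_cases h : i = j
    · simp [h]
    · simp [h, Ne.symm h, or_comm]
  diagonal := by intro i; simp
  off_diagonal := by
    intro i j h
    simp only [Matrix.of_apply, h, if_false]
    split_ifs <;> omega

theorem rcm_apply {I : Type*} (adj : I → I → Prop) (i j : I) :
    (rcm adj) i j = if i = j then 1 else if adj i j ∨ adj j i then 2 else 0 := rfl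

namespace RData

variable {G : Type} [Group G] (D : RData G)

/-- the set of generators (mirrors) -/
abbrev I : Type := {x : D.R // x < D.kap ∨ x ∈ D.Z}

/-- adjacency (commutation) of generators -/
def adj (i j : D.I) : Prop := i.1 < D.kap ∧ j.1 < D.kap ∧ i.1 < j.1

/-- the right-angled Coxeter group -/
def W : Type := (rcm D.adj).Group

noncomputable instance : Group D.W := inferInstanceAs (Group (rcm D.adj).Group)

/-- its Coxeter system -/
noncomputable def cs : CoxeterSystem (rcm D.adj) D.W := (rcm D.adj).toCoxeterSystem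

/-- the generators (mirrors) attached to a chain `σ`: all elements below `kap` if `kap ∈ σ`,
the element of `Z` in `σ` otherwise -/
noncomputable def S (σ : Finset D.R) : Finset D.I :=
  if D.kap ∈ σ then σ.subtype _ else (σ.filter (fun x => x ∈ D.Z)).subtype _

/-- the chains that index cells: chains of `R` containing an element outside `Z ∪ {kap}` -/
def IsL (σ : Finset D.R) : Prop :=
  IsChain (· ≤ ·) (σ : Set D.R) ∧ ∃ x ∈ σ, x ≠ D.kap ∧ x ∉ D.Z

theorem mem_S {σ : Finset D.R} {i : D.I} :
    i ∈ D.S σ ↔ i.1 ∈ σ ∧ (D.kap ∈ σ ∨ i.1 ∈ D.Z) := by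
  unfold S
  split_ifs with h
  · simp [h]
  · simp [h]

/-- the special subgroup of `T` -/
noncomputable def WT (T : Finset D.I) : Subgroup D.W := Subgroup.closure (D.cs.simple '' (T : Set D.I))

/-- the left coset `w W_T` -/
def coset (w : D.W) (T : Finset D.I) : Set D.W := {v | w⁻¹ * v ∈ D.WT T}

/-- the cells: pairs (chain `σ`, coset of `W_{S σ}`) -/
def PP : Type :=
  {p : Finset D.R × Set D.W // D.IsL p.1 ∧ ∃ w, p.2 = D.coset w (D.S p.1)}

noncomputable instance : PartialOrder D.PP :=
  inferInstanceAs (PartialOrder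
    {p : Finset D.R × Set D.W // D.IsL p.1 ∧ ∃ w, p.2 = D.coset w (D.S p.1)})

/-- colours of the generators -/
noncomputable def col (i : D.I) : Fin 5 :=
  if i.1 < D.kap then ⟨min (D.rk i.1) 3, by omega⟩ else 4

theorem parf_liftable (k : Fin 5) :
    (rcm D.adj).IsLiftable (fun i : D.I => if D.col i = k then (-1 : ℤˣ) else 1) := by
  intro i j
  have hsq : ∀ u : ℤˣ, u * u = 1 := fun u => Int.units_mul_self u
  rw [rcm_apply]
  by_cases hij : i = j
  · subst hij
    simp only [if_true, pow_one]
    exact hsq _
  · by_cases ha : D.adj i j ∨ D.adj j i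
    · simp only [hij, ha, if_true, if_false, pow_two]
      exact hsq _
    · simp only [hij, ha, if_false, pow_zero]

/-- parity of the number of letters of colour `k` -/
noncomputable def par (k : Fin 5) : D.W →* ℤˣ := D.cs.lift ⟨_, D.parf_liftable k⟩

theorem par_simple (k : Fin 5) (i : D.I) :
    D.par k (D.cs.simple i) = if D.col i = k then -1 else 1 := by
  unfold par
  rw [D.cs.lift_apply_simple]

/-- an element of the coset of a cell -/
noncomputable def rep (p : D.PP) : D.W := Classical.choose p.2.2

/-- rank -/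
def rkP (p : D.PP) : ℕ := p.1.1.card - 1

/-- incidence numbers -/
noncomputable def epP (p q : D.PP) : ℤ :=
  if p ≤ q then
    dE p.1.1 q.1.1 * ∏ i ∈ D.S q.1.1 \ D.S p.1.1, ((D.par (D.col i) (D.rep p) : ℤˣ) : ℤ)
  else 0

/-- incidence numbers of `R ∪ {⊥, ⊤}` -/
noncomputable def hE : WithBot (WithTop D.R) → WithBot (WithTop D.R) → ℤ :=
  bE (aug (rkT 5 D.rk)) (tE D.ori D.ep)

/-- embedding of finite subsets of `R` -/
noncomputable def up (σ : Finset D.R) : Finset (WithBot (WithTop D.R)) :=
  σ.image (fun x => ((x : WithTop D.R) : WithBot (WithTop D.R)))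

/-- orientation of the cells of rank 4 -/
noncomputable def oriP (p : D.PP) : ℤ :=
  if p.1.1.card = 5 then
    oc D.hE ⊥ (D.up p.1.1) ((⊤ : WithTop D.R) : WithBot (WithTop D.R)) *
      ∏ k ∈ Finset.univ \ (D.S p.1.1).image D.col, ((D.par k (D.rep p) : ℤˣ) : ℤ)
  else 0

/-! ### the group action -/

theorem smul_lt (g : G) {x y : D.R} (h : x < y) : g • x < g • y := by
  refine lt_of_le_of_ne (OrdAct.smul_le g _ _ h.le) ?_
  intro he
  exact h.ne (MulAction.injective g he)

/-- the action on generators -/
noncomputable instance : MulAction G D.I where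
  smul g i := ⟨g • i.1, by
    rcases i.2 with h | h
    · left
      have := D.smul_lt g h
      rwa [D.kap_smul] at this
    · right
      exact D.Z_smul g _ h⟩
  one_smul i := Subtype.ext (one_smul G i.1)
  mul_smul g h i := Subtype.ext (mul_smul g h i.1)

theorem coe_smul (g : G) (i : D.I) : (g • i).1 = g • i.1 := rfl

theorem smul_lt_kap (g : G) (x : D.R) : g • x < D.kap ↔ x < D.kap := by
  constructor
  · intro h
    have := D.smul_lt g⁻¹ h
    rwa [D.kap_smul, inv_smul_smul] at this
  · intro h
    have := D.smul_lt g h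
    rwa [D.kap_smul] at this

theorem smul_lt_iff (g : G) (x y : D.R) : g • x < g • y ↔ x < y := by
  constructor
  · intro h
    have := D.smul_lt g⁻¹ h
    rwa [inv_smul_smul, inv_smul_smul] at this
  · exact D.smul_lt g

theorem adj_smul (g : G) (i j : D.I) : D.adj (g • i) (g • j) ↔ D.adj i j := by
  unfold adj
  rw [coe_smul, coe_smul, smul_lt_kap, smul_lt_kap, smul_lt_iff]

theorem rcm_smul (g : G) (i j : D.I) : (rcm D.adj) (g • i) (g • j) = (rcm D.adj) i j := by
  rw [rcm_apply, rcm_apply, adj_smul, adj_smul]
  simp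

theorem actf_liftable (g : G) :
    (rcm D.adj).IsLiftable (fun i : D.I => D.cs.simple (g • i)) := by
  intro i j
  rw [← D.rcm_smul g i j]
  exact D.cs.simple_mul_simple_pow _ _

/-- the endomorphism of `W` induced by `g` -/
noncomputable def actHom (g : G) : D.W →* D.W := D.cs.lift ⟨_, D.actf_liftable g⟩

theorem actHom_simple (g : G) (i : D.I) :
    D.actHom g (D.cs.simple i) = D.cs.simple (g • i) := by
  unfold actHom
  rw [D.cs.lift_apply_simple]

theorem actHom_mul (g h : G) : D.actHom (g * h) = (D.actHom g).comp (D.actHom h) := by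
  apply D.cs.ext_simple
  intro i
  simp [actHom_simple, mul_smul]

theorem actHom_one : D.actHom 1 = MonoidHom.id _ := by
  apply D.cs.ext_simple
  intro i
  simp [actHom_simple]

/-- the action of `G` on `W` -/
noncomputable def actW : G →* MulAut D.W where
  toFun g :=
    { toFun := D.actHom g
      invFun := D.actHom g⁻¹
      left_inv := by
        intro w
        have := D.actHom_mul g⁻¹ g
        rw [inv_mul_cancel, actHom_one] at this
        exact (DFunLike.congr_fun this w).symm
      right_inv := by
        intro w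
        have := D.actHom_mul g g⁻¹
        rw [mul_inv_cancel, actHom_one] at this
        exact (DFunLike.congr_fun this w).symm
      map_mul' := map_mul _ }
  map_one' := by
    ext w
    show D.actHom 1 w = w
    rw [actHom_one]; rfl
  map_mul' g h := by
    ext w
    show D.actHom (g * h) w = D.actHom g (D.actHom h w)
    rw [actHom_mul]; rfl

theorem actW_apply (g : G) (w : D.W) : D.actW g w = D.actHom g w := rfl

/-- the group `W ⋊ G` -/
abbrev WG : Type := D.W ⋊[D.actW] G

theorem col_smul (g : G) (i : D.I) : D.col (g • i) = D.col i := by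
  unfold col
  simp only [coe_smul, smul_lt_kap, D.rk_smul]

theorem par_actHom (k : Fin 5) (g : G) (w : D.W) : D.par k (D.actHom g w) = D.par k w := by
  have : (D.par k).comp (D.actHom g) = D.par k := by
    apply D.cs.ext_simple
    intro i
    simp [actHom_simple, par_simple, col_smul]
  exact DFunLike.congr_fun this w

/-- the parity character of `W ⋊ G` -/
noncomputable def chi : D.WG →* (Fin 5 → ℤˣ) :=
  SemidirectProduct.lift (MonoidHom.mk' (fun w k => D.par k w) (by
    intro a b; ext k; simp)) 1 (by
    intro g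
    ext w k
    simp [actW_apply, par_actHom])

theorem chi_apply (x : D.WG) (k : Fin 5) : D.chi x k = D.par k x.left := by
  unfold chi
  simp [SemidirectProduct.lift]

/-- the group `Γ` -/
noncomputable abbrev Gam : Subgroup D.WG := D.chi.ker

theorem mem_map_smul {α : Type*} [MulAction G α] (g : G) (σ : Finset α) (x : α) :
    x ∈ σ.map (MulAction.toPerm g).toEmbedding ↔ g⁻¹ • x ∈ σ := by
  constructor
  · intro h
    obtain ⟨y, hy, rfl⟩ := Finset.mem_map.1 h
    simpa using hy
  · intro h
    exact Finset.mem_map.2 ⟨g⁻¹ • x, h, by simp⟩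

theorem Z_smul_iff (g : G) (x : D.R) : g • x ∈ D.Z ↔ x ∈ D.Z := by
  constructor
  · intro h
    have := D.Z_smul g⁻¹ _ h
    rwa [inv_smul_smul] at this
  · exact D.Z_smul g x

theorem S_smul (g : G) (σ : Finset D.R) :
    D.S (σ.map (MulAction.toPerm g).toEmbedding) =
      (D.S σ).map (MulAction.toPerm g).toEmbedding := by
  ext i
  rw [mem_map_smul, mem_S, mem_S, mem_map_smul, mem_map_smul, coe_smul, D.kap_smul, Z_smul_iff]

theorem actHom_mem_WT (g : G) (T : Finset D.I) (w : D.W) :
    D.actHom g w ∈ D.WT (T.map (MulAction.toPerm g).toEmbedding) ↔ w ∈ D.WT T := by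
  have key : D.WT (T.map (MulAction.toPerm g).toEmbedding) =
      (D.WT T).map (D.actHom g) := by
    unfold WT
    rw [MonoidHom.map_closure]
    congr 1
    ext v
    simp only [Finset.coe_map, Set.mem_image]
    constructor
    · rintro ⟨i, ⟨j, hj, rfl⟩, rfl⟩
      exact ⟨_, ⟨j, hj, rfl⟩, D.actHom_simple g j⟩
    · rintro ⟨i, ⟨j, hj, rfl⟩, rfl⟩
      exact ⟨g • j, ⟨j, hj, rfl⟩, (D.actHom_simple g j).symm⟩
  rw [key]
  constructor
  · rintro ⟨v, hv, hvw⟩
    have : v = w := (D.actW g).injective hvw
    rwa [← this]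
  · intro h
    exact ⟨w, h, rfl⟩

theorem IsL_smul (g : G) (σ : Finset D.R) (h : D.IsL σ) :
    D.IsL (σ.map (MulAction.toPerm g).toEmbedding) := by
  refine ⟨?_, ?_⟩
  · intro x hx y hy hxy
    rw [Finset.mem_coe, mem_map_smul] at hx hy
    have hne : g⁻¹ • x ≠ g⁻¹ • y := fun h => hxy (MulAction.injective _ h)
    rcases h.1 hx hy hne with h | h
    · exact Or.inl ((smul_le_smul_iff' g⁻¹ x y).1 h)
    · exact Or.inr ((smul_le_smul_iff' g⁻¹ y x).1 h)
  · obtain ⟨x, hx, h1, h2⟩ := h.2
    refine ⟨g • x, ?_, ?_, ?_⟩
    · rw [mem_map_smul]; simpa using hx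
    · intro he
      apply h1
      rw [← D.kap_smul g] at he
      exact MulAction.injective g he
    · rwa [Z_smul_iff]

theorem coset_smul (v w : D.W) (g : G) (T : Finset D.I) :
    (fun u => v * D.actHom g u) '' (D.coset w T) =
      D.coset (v * D.actHom g w) (T.map (MulAction.toPerm g).toEmbedding) := by
  ext u
  simp only [coset, Set.mem_image]
  constructor
  · rintro ⟨x, hx, rfl⟩
    show (v * D.actHom g w)⁻¹ * (v * D.actHom g x) ∈ D.WT (T.map (MulAction.toPerm g).toEmbedding)
    have : (v * D.actHom g w)⁻¹ * (v * D.actHom g x) = D.actHom g (w⁻¹ * x) := by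
      rw [map_mul, map_inv]; group
    rw [this, actHom_mem_WT]
    exact hx
  · intro hu
    refine ⟨D.actHom g⁻¹ (v⁻¹ * u), ?_, ?_⟩
    · have hu' : (v * D.actHom g w)⁻¹ * u ∈
        D.WT (T.map (MulAction.toPerm g).toEmbedding) := hu
      have e : (v * D.actHom g w)⁻¹ * u = D.actHom g (w⁻¹ * D.actHom g⁻¹ (v⁻¹ * u)) := by
        have := D.actHom_mul g g⁻¹
        rw [mul_inv_cancel, actHom_one] at this
        have h3 := DFunLike.congr_fun this (v⁻¹ * u)
        rw [map_mul, map_inv]
        change v⁻¹ * u = D.actHom g (D.actHom g⁻¹ (v⁻¹ * u)) at h3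
        rw [← h3]; group
      rw [e, actHom_mem_WT] at hu'
      exact hu'
    · have := D.actHom_mul g g⁻¹
      rw [mul_inv_cancel, actHom_one] at this
      have h3 := DFunLike.congr_fun this (v⁻¹ * u)
      change v⁻¹ * u = D.actHom g (D.actHom g⁻¹ (v⁻¹ * u)) at h3
      rw [← h3]; group

/-- the action of `W ⋊ G` on the cells -/
noncomputable instance : OrdAct D.WG D.PP where
  smul x p := ⟨(p.1.1.map (MulAction.toPerm x.right).toEmbedding,
      (fun u => x.left * D.actHom x.right u) '' p.1.2), by
    obtain ⟨h1, w, h2⟩ := p.2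
    refine ⟨D.IsL_smul _ _ h1, x.left * D.actHom x.right w, ?_⟩
    show (fun u => x.left * D.actHom x.right u) '' p.1.2 = _
    rw [h2, coset_smul, S_smul]⟩
  one_smul p := by
    apply Subtype.ext
    apply Prod.ext
    · show p.1.1.map _ = p.1.1
      ext x
      simp
    · show (fun u => _ * D.actHom _ u) '' p.1.2 = p.1.2
      simp [actHom_one]
  mul_smul x y p := by
    apply Subtype.ext
    apply Prod.ext
    · show p.1.1.map _ = (p.1.1.map _).map _
      ext z
      simp [mul_smul]
    · show (fun u => (x * y).left * D.actHom (x * y).right u) '' p.1.2 =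
        (fun u => x.left * D.actHom x.right u) '' ((fun u => y.left * D.actHom y.right u) '' p.1.2)
      rw [Set.image_image]
      congr 1
      ext u
      simp [actHom_mul, actW_apply, mul_assoc]
  smul_le x p q h := by
    constructor
    · exact Finset.map_subset_map.2 h.1
    · exact Set.image_mono h.2

noncomputable instance : OrdAct D.Gam D.PP where
  smul x p := (x : D.WG) • p
  one_smul p := one_smul D.WG p
  mul_smul x y p := mul_smul (x : D.WG) (y : D.WG) p
  smul_le x p q h := OrdAct.smul_le (x : D.WG) p q h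

end RData

end Pool.Agent.Helper635.PD4
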