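import Pool.Agent.Helper635_PD4.PPTop
import Pool.Agent.Helper635_PD4.LemP
import Pool.Agent.Helper635_PD4.Inst

/-!
# Auxiliary facts for module E: invariance of the simplicial and orientation data
-/

open scoped Classical

namespace Pool.Agent.Helper635.PD4

/-! ### transport along order embeddings -/

section transport

variable {P P' : Type*} [PartialOrder P] [PartialOrder P'] (f : P → P')
  (hf : Function.Injective f) (hlt : ∀ x y, f x < f y ↔ x < y)

include hf hlt

theorem e_pos (A : Finset P) (a : P) : pos (A.image f) (f a) = pos A a := by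
  unfold pos
  rw [Finset.filter_image, Finset.card_image_of_injective _ hf]
  congr 1
  ext x
  simp [hlt]

theorem e_dE (A' A : Finset P) : dE (A'.image f) (A.image f) = dE A' A := by
  unfold dE
  rw [Finset.sum_image (fun x _ y _ h => hf h)]
  refine Finset.sum_congr rfl fun a _ => ?_
  have h1 : (A.image f).erase (f a) = (A.erase a).image f := (Finset.image_erase hf A a).symm
  rw [h1, e_pos f hf hlt]
  by_cases h : A' = A.erase a
  · rw [if_pos h, if_pos (by rw [h])]
  · rw [if_neg h, if_neg (fun h' => h (Finset.image_injective hf h'))]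

theorem e_ocAux {ep : P → P → ℤ} {ep' : P' → P' → ℤ} (hep : ∀ x y, ep' (f x) (f y) = ep x y) (b : P)
    (n : ℕ) : ∀ (A : Finset P) (y : P), ocAux ep' (f b) n (A.image f) (f y) = ocAux ep b n A y := by
  have hle : ∀ x y, f x ≤ f y ↔ x ≤ y := by
    intro x y
    rw [le_iff_lt_or_eq, le_iff_lt_or_eq, hlt, hf.eq_iff]
  induction n with
  | zero => intro A y; exact hep b y
  | succ n ih =>
    intro A y
    show (∑ m ∈ (A.image f).filter (fun m => ∀ a ∈ A.image f, a ≤ m),
      ocAux ep' (f b) n ((A.image f).erase m) m * ep' m (f y)) = _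
    have h1 : (A.image f).filter (fun m => ∀ a ∈ A.image f, a ≤ m) =
        (A.filter (fun m => ∀ a ∈ A, a ≤ m)).image f := by
      rw [Finset.filter_image]
      congr 1
      ext x
      simp [hle]
    rw [h1, Finset.sum_image (fun x _ y _ h => hf h)]
    refine Finset.sum_congr rfl fun m _ => ?_
    rw [(Finset.image_erase hf A m).symm, ih, hep]

theorem e_oc {ep : P → P → ℤ} {ep' : P' → P' → ℤ} (hep : ∀ x y, ep' (f x) (f y) = ep x y) (b : P)
    (A : Finset P) (y : P) : oc ep' (f b) (A.image f) (f y) = oc ep b A y := by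
  unfold oc
  rw [Finset.card_image_of_injective _ hf, e_ocAux f hf hlt hep]

end transport

/-- a nonzero orientation coefficient belongs to a saturated chain -/
theorem e_ocAux_ne {Q : Type*} [PartialOrder Q] {rk : Q → ℕ} {ep : Q → Q → ℤ} (gr : Gr rk ep) (b : Q)
    (n : ℕ) : ∀ (A : Finset Q) (y : Q), ocAux ep b n A y ≠ 0 → rk y = rk b + n + 1 := by
  induction n with
  | zero => intro A y h; exact (gr.ne _ _ h).2
  | succ n ih =>
    intro A y h
    obtain ⟨m, _, hm⟩ := Finset.exists_ne_zero_of_sum_ne_zero h
    have h1 := ih _ _ (left_ne_zero_of_mul hm)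
    have h2 := (gr.ne _ _ (right_ne_zero_of_mul hm)).2
    omega

theorem e_oc_ne {Q : Type*} [PartialOrder Q] {rk : Q → ℕ} {ep : Q → Q → ℤ} (gr : Gr rk ep) (b : Q)
    (A : Finset Q) (y : Q) (h : oc ep b A y ≠ 0) : rk y = rk b + A.card + 1 :=
  e_ocAux_ne gr b _ _ _ h

theorem e_dE_ne {P : Type*} [PartialOrder P] {A' A : Finset P} (h : dE A' A ≠ 0) :
    ∃ a ∈ A, A' = A.erase a := by
  obtain ⟨a, ha, h'⟩ := Finset.exists_ne_zero_of_sum_ne_zero h
  refine ⟨a, ha, ?_⟩
  by_contra hne
  rw [if_neg hne] at h'
  exact h' rfl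

theorem e_dE_card {P : Type*} [PartialOrder P] {A' A : Finset P} (h : dE A' A ≠ 0) :
    A' ⊆ A ∧ A.card = A'.card + 1 := by
  obtain ⟨a, ha, rfl⟩ := e_dE_ne h
  refine ⟨Finset.erase_subset _ _, ?_⟩
  rw [Finset.card_erase_of_mem ha]
  have := Finset.card_pos.2 ⟨a, ha⟩
  omega

namespace RData

variable {G : Type} [Group G] (D : RData G)

/-! ### ranks -/

theorem e_card_pos (p : D.PP) : 0 < p.1.1.card := by
  obtain ⟨x, hx, _⟩ := p.2.1.2
  exact Finset.card_pos.2 ⟨x, hx⟩

theorem e_rk_inj {σ : Finset D.R} (h : D.IsL σ) : Set.InjOn D.rk (σ : Set D.R) := by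
  intro a ha b hb hab
  by_contra hne
  rcases h.1 ha hb hne with h' | h'
  · exact absurd hab (D.gr.lt _ _ (lt_of_le_of_ne h' hne)).ne
  · exact absurd hab (D.gr.lt _ _ (lt_of_le_of_ne h' (Ne.symm hne))).ne'

theorem e_card_le {σ : Finset D.R} (h : D.IsL σ) : σ.card ≤ 5 := by
  rw [← Finset.card_image_of_injOn (D.e_rk_inj h)]
  have : σ.image D.rk ⊆ Finset.range 5 := by
    intro k hk
    obtain ⟨x, _, rfl⟩ := Finset.mem_image.1 hk
    have := D.rk_le x
    rw [Finset.mem_range]
    omega
  exact (Finset.card_le_card this).trans (by simp)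

theorem e_ssubset {p q : D.PP} (h : p < q) : p.1.1 ⊂ q.1.1 := by
  obtain ⟨w, hw⟩ := D.cel_surj p
  obtain ⟨w', hw'⟩ := D.cel_surj q
  have hle := h.le
  rw [hw, hw', cel_le_iff] at hle
  refine lt_of_le_of_ne hle.1 ?_
  intro he
  apply h.ne
  rw [hw, hw', cel_eq_iff]
  refine ⟨he, ?_⟩
  rw [he]
  exact hle.2

/-! ### gradings of the extended poset -/

theorem e_gr : Gr (rkB (rkT 5 D.rk)) D.hE := by
  constructor
  · intro x y h
    induction y using WithBot.recBotCoe with
    | bot => exact absurd h not_lt_bot
    | coe y =>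
      induction x using WithBot.recBotCoe with
      | bot => show 0 < rkT 5 D.rk y + 1; omega
      | coe x =>
        rw [WithBot.coe_lt_coe] at h
        show rkT 5 D.rk x + 1 < rkT 5 D.rk y + 1
        induction x using WithTop.recTopCoe with
        | top => exact absurd h not_top_lt
        | coe x =>
          induction y using WithTop.recTopCoe with
          | top =>
            have := D.rk_le x
            show D.rk x + 1 < 5 + 1
            omega
          | coe y =>
            rw [WithTop.coe_lt_coe] at h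
            have := D.gr.lt _ _ h
            show D.rk x + 1 < D.rk y + 1
            omega
  · intro x y h
    induction y using WithBot.recBotCoe with
    | bot => exact absurd rfl h
    | coe y =>
      induction x using WithBot.recBotCoe with
      | bot =>
        refine ⟨WithBot.bot_lt_coe _, ?_⟩
        have h1 : aug (rkT 5 D.rk) y ≠ 0 := h
        unfold aug at h1
        by_cases h2 : rkT 5 D.rk y = 0
        · show rkT 5 D.rk y + 1 = 0 + 1
          rw [h2]
        · rw [if_neg h2] at h1
          exact absurd rfl h1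
      | coe x =>
        have h1 : tE D.ori D.ep x y ≠ 0 := h
        show _ ∧ rkT 5 D.rk y + 1 = rkT 5 D.rk x + 1 + 1
        rw [WithBot.coe_lt_coe]
        induction x using WithTop.recTopCoe with
        | top => exact absurd rfl h1
        | coe x =>
          induction y using WithTop.recTopCoe with
          | top =>
            have h2 : D.ori x ≠ 0 := h1
            refine ⟨WithTop.coe_lt_top _, ?_⟩
            show 5 + 1 = D.rk x + 1 + 1
            rw [D.ori_ne x h2]
          | coe y =>
            have h2 := D.gr.ne _ _ (show D.ep x y ≠ 0 from h1)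
            rw [WithTop.coe_lt_coe]
            refine ⟨h2.1, ?_⟩
            show D.rk y + 1 = D.rk x + 1 + 1
            rw [h2.2]

/-- the embedding of `R` in the extended poset -/
def emb (x : D.R) : WithBot (WithTop D.R) := ((x : WithTop D.R) : WithBot (WithTop D.R))

theorem emb_inj : Function.Injective D.emb := fun x y h => by
  exact WithTop.coe_injective (WithBot.coe_injective h)

theorem emb_lt (x y : D.R) : D.emb x < D.emb y ↔ x < y := by
  unfold emb
  rw [WithBot.coe_lt_coe, WithTop.coe_lt_coe]

theorem emb_le (x y : D.R) : D.emb x ≤ D.emb y ↔ x ≤ y := by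
  unfold emb
  rw [WithBot.coe_le_coe, WithTop.coe_le_coe]

theorem up_eq (σ : Finset D.R) : D.up σ = σ.image D.emb := by
  ext x
  simp [up, emb]

theorem e_dE_up (σ τ : Finset D.R) : dE (D.up σ) (D.up τ) = dE σ τ := by
  rw [up_eq, up_eq]
  exact (congrArg₂ dE (image_inst _ _ _ _) (image_inst _ _ _ _)).trans
    (e_dE D.emb D.emb_inj D.emb_lt σ τ)

/-- the orientation coefficient of a chain which does not have `5` elements is zero -/
theorem e_oc_zero {σ : Finset D.R} (h : σ.card ≠ 5) :
    oc D.hE ⊥ (D.up σ) ((⊤ : WithTop D.R) : WithBot (WithTop D.R)) = 0 := by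
  by_contra hne
  have h1 := e_oc_ne D.e_gr _ _ _ hne
  rw [up_eq, Finset.card_image_of_injective _ D.emb_inj] at h1
  have h2 : rkB (rkT 5 D.rk) (((⊤ : WithTop D.R) : WithBot (WithTop D.R))) = 6 := rfl
  have h3 : rkB (rkT 5 D.rk) ⊥ = 0 := rfl
  rw [h2, h3] at h1
  omega

/-! ### the group action on chains -/

/-- translation of a chain -/
noncomputable abbrev tr (g : G) (σ : Finset D.R) : Finset D.R :=
  σ.map (MulAction.toPerm g).toEmbedding

theorem tr_eq_image (g : G) (σ : Finset D.R) : D.tr g σ = σ.image (fun x => g • x) := by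
  unfold tr
  rw [Finset.map_eq_image]
  rfl

theorem e_dE_tr (g : G) (σ τ : Finset D.R) : dE (D.tr g σ) (D.tr g τ) = dE σ τ := by
  rw [tr_eq_image, tr_eq_image]
  exact e_dE (fun x : D.R => g • x) (MulAction.injective g) (D.smul_lt_iff g) σ τ

/-- the action on the extended poset -/
def hact (g : G) : WithBot (WithTop D.R) → WithBot (WithTop D.R) :=
  WithBot.map (WithTop.map (fun x => g • x))

theorem hact_emb (g : G) (x : D.R) : D.hact g (D.emb x) = D.emb (g • x) := rfl

theorem hact_inj (g : G) : Function.Injective (D.hact g) :=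
  WithBot.map_injective (WithTop.map_injective (MulAction.injective g))

theorem hact_lt (g : G) (x y : WithBot (WithTop D.R)) : D.hact g x < D.hact g y ↔ x < y := by
  unfold hact
  induction y using WithBot.recBotCoe with
  | bot => simp
  | coe y =>
    induction x using WithBot.recBotCoe with
    | bot => simp
    | coe x =>
      rw [WithBot.map_coe, WithBot.map_coe, WithBot.coe_lt_coe, WithBot.coe_lt_coe]
      induction x using WithTop.recTopCoe with
      | top => simp
      | coe x =>
        induction y using WithTop.recTopCoe with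
        | top => simp
        | coe y =>
          rw [WithTop.map_coe, WithTop.map_coe, WithTop.coe_lt_coe, WithTop.coe_lt_coe]
          exact D.smul_lt_iff g x y

theorem hact_hE (g : G) (x y : WithBot (WithTop D.R)) :
    D.hE (D.hact g x) (D.hact g y) = D.hE x y := by
  have hrk : ∀ y : WithTop D.R, rkT 5 D.rk (WithTop.map (fun x => g • x) y) = rkT 5 D.rk y := by
    intro y
    induction y using WithTop.recTopCoe with
    | top => rfl
    | coe y => exact D.rk_smul g y
  induction y using WithBot.recBotCoe with
  | bot => rfl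
  | coe y =>
    induction x using WithBot.recBotCoe with
    | bot =>
      show aug (rkT 5 D.rk) (WithTop.map (fun x => g • x) y) = aug (rkT 5 D.rk) y
      unfold aug
      rw [hrk]
    | coe x =>
      show tE D.ori D.ep (WithTop.map (fun x => g • x) x) (WithTop.map (fun x => g • x) y) =
        tE D.ori D.ep x y
      induction x using WithTop.recTopCoe with
      | top => rfl
      | coe x =>
        induction y using WithTop.recTopCoe with
        | top => exact D.ori_smul g x
        | coe y => exact D.ep_smul g x y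

theorem e_oc_tr (g : G) (σ : Finset D.R) :
    oc D.hE ⊥ (D.up (D.tr g σ)) ((⊤ : WithTop D.R) : WithBot (WithTop D.R)) =
      oc D.hE ⊥ (D.up σ) ((⊤ : WithTop D.R) : WithBot (WithTop D.R)) := by
  have h1 : D.up (D.tr g σ) = (D.up σ).image (D.hact g) := by
    rw [up_eq, up_eq, tr_eq_image, Finset.image_image, Finset.image_image]
    rfl
  rw [h1]
  have h2 := e_oc (D.hact g) (D.hact_inj g) (D.hact_lt g) (D.hact_hE g) ⊥ (D.up σ)
    ((⊤ : WithTop D.R) : WithBot (WithTop D.R))
  exact (congrArg (fun S => oc D.hE ⊥ S ((⊤ : WithTop D.R) : WithBot (WithTop D.R)))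
    (image_inst _ _ _ _)).trans h2

/-- the action of `Γ` on cells -/
theorem smul_cel (x : D.Gam) (σ : Finset D.R) (h : D.IsL σ) (w : D.W) :
    x • D.cel σ h w = D.cel (D.tr (x : D.WG).right σ) (D.IsL_smul _ _ h)
      ((x : D.WG).left * D.actHom (x : D.WG).right w) := by
  apply Subtype.ext
  apply Prod.ext
  · rfl
  · show (fun u => (x : D.WG).left * D.actHom (x : D.WG).right u) '' (D.coset w (D.S σ)) =
      D.coset ((x : D.WG).left * D.actHom (x : D.WG).right w) (D.S (D.tr (x : D.WG).right σ))
    rw [coset_smul, S_smul]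

theorem par_gam (x : D.Gam) (k : Fin 5) : D.par k (x : D.WG).left = 1 := by
  have h1 : D.chi (x : D.WG) = 1 := x.2
  have h2 := congrFun h1 k
  rwa [chi_apply] at h2

theorem par_smul (x : D.Gam) (k : Fin 5) (w : D.W) :
    D.par k ((x : D.WG).left * D.actHom (x : D.WG).right w) = D.par k w := by
  rw [map_mul, par_gam, one_mul, par_actHom]

end RData

end Pool.Agent.Helper635.PD4
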