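import Pool.Agent.Helper635_PD4.PPLocAux

/-!
# Auxiliary facts for module E: group action, freeness, finiteness
-/

open scoped Classical

namespace Pool.Agent.Helper635.PD4.RData

variable {G : Type} [Group G] (D : RData G)

theorem e_gr_P : Gr D.rkP D.epP := by
  constructor
  · intro p q h
    have h1 := Finset.card_lt_card (D.e_ssubset h)
    have h2 := D.e_card_pos p
    unfold rkP
    omega
  · intro p q h
    unfold epP at h
    by_cases hle : p ≤ q
    · rw [if_pos hle] at h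
      have h1 := e_dE_card (left_ne_zero_of_mul h)
      have h2 := D.e_card_pos p
      refine ⟨lt_of_le_of_ne hle (fun he => ?_), ?_⟩
      · rw [he] at h1
        omega
      · unfold rkP
        omega
    · rw [if_neg hle] at h
      exact absurd rfl h

theorem e_rkP_le (p : D.PP) : D.rkP p ≤ 4 := by
  have := D.e_card_le p.2.1
  unfold rkP
  omega

theorem e_oriP_ne (p : D.PP) (h : D.oriP p ≠ 0) : D.rkP p = 4 := by
  unfold oriP at h
  by_cases hc : p.1.1.card = 5
  · unfold rkP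
    rw [hc]
  · rw [if_neg hc] at h
    exact absurd rfl h

theorem e_rkP_smul (x : D.Gam) (p : D.PP) : D.rkP (x • p) = D.rkP p := by
  show (p.1.1.map _).card - 1 = p.1.1.card - 1
  rw [Finset.card_map]

/-- all elements are cells -/
theorem e_cases (p : D.PP) : ∃ (σ : Finset D.R) (hσ : D.IsL σ) (w : D.W), p = D.cel σ hσ w := by
  obtain ⟨w, hw⟩ := D.cel_surj p
  exact ⟨_, _, w, hw⟩

/-- two comparable cells have a common representative -/
theorem e_common {p q : D.PP} (h : p ≤ q) : ∃ (σ τ : Finset D.R) (hσ : D.IsL σ) (hτ : D.IsL τ)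
    (w : D.W), p = D.cel σ hσ w ∧ q = D.cel τ hτ w ∧ σ ⊆ τ := by
  obtain ⟨σ, hσ, w, rfl⟩ := D.e_cases p
  obtain ⟨τ, hτ, w', rfl⟩ := D.e_cases q
  rw [cel_le_iff] at h
  refine ⟨σ, τ, hσ, hτ, w, rfl, ?_, h.1⟩
  rw [eq_comm, cel_eq_iff]
  exact ⟨rfl, h.2⟩

theorem e_S_tr (g : G) (σ : Finset D.R) :
    D.S (D.tr g σ) = (D.S σ).map (MulAction.toPerm g).toEmbedding := D.S_smul g σ

theorem e_sdiff_tr (g : G) (σ τ : Finset D.R) :
    D.S (D.tr g τ) \ D.S (D.tr g σ) = (D.S τ \ D.S σ).map (MulAction.toPerm g).toEmbedding := by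
  rw [e_S_tr, e_S_tr]
  ext i
  simp only [Finset.mem_sdiff, Finset.mem_map, Equiv.coe_toEmbedding, MulAction.toPerm_apply]
  constructor
  · rintro ⟨⟨a, ha, rfl⟩, h2⟩
    exact ⟨a, ⟨ha, fun h => h2 ⟨a, h, rfl⟩⟩, rfl⟩
  · rintro ⟨a, ⟨ha, ha'⟩, rfl⟩
    refine ⟨⟨a, ha, rfl⟩, ?_⟩
    rintro ⟨b, hb, hb'⟩
    rw [MulAction.injective g hb'] at hb
    exact ha' hb

theorem e_epP_smul (x : D.Gam) (p q : D.PP) : D.epP (x • p) (x • q) = D.epP p q := by
  by_cases h : p ≤ q
  · have hle' : x • p ≤ x • q := OrdAct.smul_le x _ _ h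
    obtain ⟨σ, τ, hσ, hτ, w, rfl, rfl, _⟩ := D.e_common h
    rw [smul_cel, smul_cel] at hle'
    rw [smul_cel, smul_cel, D.epP_cel _ _ _ _ _ _ h, D.epP_cel _ _ _ _ _ _ hle', e_dE_tr,
      e_sdiff_tr, Finset.prod_map]
    congr 1
    refine Finset.prod_congr rfl fun i _ => ?_
    rw [par_smul]
    show ((D.par (D.col ((x : D.WG).right • i)) w : ℤˣ) : ℤ) = _
    rw [col_smul]
  · have h' : ¬ x • p ≤ x • q := fun h' => h ((smul_le_smul_iff' x p q).1 h')
    unfold epP
    rw [if_neg h, if_neg h']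

theorem e_oriP_smul (x : D.Gam) (p : D.PP) : D.oriP (x • p) = D.oriP p := by
  obtain ⟨σ, hσ, w, rfl⟩ := D.e_cases p
  rw [smul_cel, oriP_cel, oriP_cel, Finset.card_map, e_oc_tr]
  have h1 : (D.S (D.tr (x : D.WG).right σ)).image D.col = (D.S σ).image D.col := by
    rw [e_S_tr]
    ext k
    simp only [Finset.mem_image, Finset.mem_map, Equiv.coe_toEmbedding, MulAction.toPerm_apply]
    constructor
    · rintro ⟨_, ⟨a, ha, rfl⟩, rfl⟩
      exact ⟨a, ha, (D.col_smul _ a).symm⟩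
    · rintro ⟨a, ha, rfl⟩
      exact ⟨_, ⟨a, ha, rfl⟩, D.col_smul _ a⟩
  rw [h1]
  simp only [par_smul]

theorem e_free_P (x : D.Gam) (p : D.PP) (h : x • p = p) : x = 1 := by
  obtain ⟨σ, hσ, w, rfl⟩ := D.e_cases p
  rw [smul_cel, cel_eq_iff] at h
  obtain ⟨h1, h2⟩ := h
  obtain ⟨a, ha, ha1, ha2⟩ := hσ.2
  have hg : (x : D.WG).right = 1 := by
    refine D.free _ a ha1 ha2 ?_
    have h3 : (x : D.WG).right • a ∈ D.tr (x : D.WG).right σ := by
      rw [mem_map_smul, inv_smul_smul]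
      exact ha
    rw [h1] at h3
    exact D.e_rk_inj hσ h3 ha (D.rk_smul _ _)
  rw [h1, hg, actHom_one] at h2
  have h4 : ((x : D.WG).left * w)⁻¹ * w ∈ D.WT (D.S σ) := h2
  have h5 := wt_parity D.cs (D.S σ) (D.S_clique _ hσ) D.col (D.S_col _ hσ) D.par
    D.par_simple _ h4 (by
      intro k
      rw [map_mul, map_inv, map_mul, par_gam, one_mul, inv_mul_cancel])
  have h6 : (x : D.WG).left = 1 := by
    have := inv_mul_eq_one.1 h5
    exact mul_eq_right.1 this
  apply Subtype.ext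
  exact SemidirectProduct.ext h6 hg

/-! ### finiteness of the set of orbits -/

theorem e_fin_le {a : D.R} (ha : a ≠ D.kap) : {y : D.R | y ≤ a}.Finite := by
  have h := (D.good ⊥ (D.emb a) (WithBot.bot_lt_coe _) (by
    rintro ⟨_, h | h⟩
    · exact ha (D.emb_inj h)
    · exact WithTop.coe_ne_top (WithBot.coe_injective h))).fin
  refine (h.preimage (D.emb_inj.injOn (s := D.emb ⁻¹' Set.Icc ⊥ (D.emb a)))).subset ?_
  intro y hy
  exact ⟨bot_le, (D.emb_le _ _).2 hy⟩

theorem e_fin_ge (a : D.R) : {y : D.R | a ≤ y}.Finite := by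
  have h := (D.good (D.emb a) ((⊤ : WithTop D.R) : WithBot (WithTop D.R))
    (WithBot.coe_lt_coe.2 (WithTop.coe_lt_top _)) (by
    rintro ⟨h, _⟩
    exact WithBot.coe_ne_bot h)).fin
  refine (h.preimage (D.emb_inj.injOn
    (s := D.emb ⁻¹' Set.Icc (D.emb a) ((⊤ : WithTop D.R) : WithBot (WithTop D.R))))).subset ?_
  intro y hy
  exact ⟨(D.emb_le _ _).2 hy, WithBot.coe_le_coe.2 le_top⟩

theorem e_fin_chains {a : D.R} (ha : a ≠ D.kap) : {σ : Finset D.R | D.IsL σ ∧ a ∈ σ}.Finite := by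
  have h := (D.e_fin_le ha).union (D.e_fin_ge a)
  refine (h.toFinset.powerset.finite_toSet).subset ?_
  rintro σ ⟨hσ, haσ⟩
  rw [Finset.mem_coe, Finset.mem_powerset]
  intro y hy
  rw [Set.Finite.mem_toFinset]
  by_cases hne : y = a
  · exact Or.inl (le_of_eq hne)
  · exact hσ.1 hy haσ hne

theorem e_orb_P : Finite (MulAction.orbitRel.Quotient D.Gam D.PP) := by
  have horb := D.orb
  -- chains through representatives
  have hT0 : {σ : Finset D.R | D.IsL σ ∧ ∃ c : MulAction.orbitRel.Quotient G D.R,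
      Quotient.out c ≠ D.kap ∧ Quotient.out c ∈ σ}.Finite := by
    have h1 : (⋃ c : MulAction.orbitRel.Quotient G D.R,
      {σ : Finset D.R | Quotient.out c ≠ D.kap ∧ (D.IsL σ ∧ Quotient.out c ∈ σ)}).Finite := by
      refine Set.finite_iUnion fun c => ?_
      by_cases hc : (Quotient.out c : D.R) ≠ D.kap
      · exact (D.e_fin_chains hc).subset fun σ hσ => hσ.2
      · exact Set.Finite.subset Set.finite_empty fun σ hσ => hc hσ.1
    refine h1.subset ?_
    rintro σ ⟨hσ, c, hc1, hc2⟩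
    exact Set.mem_iUnion.2 ⟨c, hc1, hσ, hc2⟩
  set we : (Fin 5 → ℤˣ) → D.W := fun ε =>
    if h : ∃ w : D.W, ∀ k, D.par k w = ε k then Classical.choose h else 1 with hwe
  have hwe' : ∀ w : D.W, ∀ k, D.par k (we (fun k => D.par k w)) = D.par k w := by
    intro w
    have h : ∃ w' : D.W, ∀ k, D.par k w' = (fun k => D.par k w) k := ⟨w, fun _ => rfl⟩
    simp only [hwe, dif_pos h]
    exact Classical.choose_spec h
  have := hT0.to_subtype
  let F : {σ : Finset D.R | D.IsL σ ∧ ∃ c : MulAction.orbitRel.Quotient G D.R,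
      Quotient.out c ≠ D.kap ∧ Quotient.out c ∈ σ} × (Fin 5 → ℤˣ) →
      MulAction.orbitRel.Quotient D.Gam D.PP :=
    fun y => Quotient.mk'' (D.cel y.1.1 y.1.2.1 (we y.2))
  refine Finite.of_surjective F ?_
  intro o
  induction o using Quotient.inductionOn' with
  | h p =>
    obtain ⟨τ, hτ, w, rfl⟩ := D.e_cases p
    obtain ⟨a, ha, ha1, ha2⟩ := hτ.2
    set c : MulAction.orbitRel.Quotient G D.R := Quotient.mk'' a with hc
    have h1 : (Quotient.out c : D.R) ∈ MulAction.orbit G a := by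
      rw [← MulAction.orbitRel_apply]
      exact Quotient.exact' (Quotient.out_eq' c)
    obtain ⟨g, hg⟩ := h1
    have hg' : g • a = Quotient.out c := hg
    have hk : (Quotient.out c : D.R) ≠ D.kap := by
      rw [← hg']
      intro h
      rw [← D.kap_smul g] at h
      exact ha1 (MulAction.injective g h)
    have hm : (Quotient.out c : D.R) ∈ D.tr g τ := by
      rw [← hg', mem_map_smul, inv_smul_smul]
      exact ha
    have hL := D.IsL_smul g _ hτ
    set w' := D.actHom g w with hw'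
    set x : D.WG := ⟨we (fun k => D.par k w') * w'⁻¹, g⟩ with hx
    have hxm : x ∈ D.Gam := by
      rw [MonoidHom.mem_ker]
      ext k
      rw [chi_apply]
      simp only [hx]
      rw [map_mul, hwe', map_inv, mul_inv_cancel]
      rfl
    refine ⟨(⟨D.tr g τ, hL, c, hk, hm⟩, fun k => D.par k w'), ?_⟩
    show Quotient.mk'' (D.cel (D.tr g τ) hL (we (fun k => D.par k w'))) =
      Quotient.mk'' (D.cel τ hτ w)
    apply Quotient.sound'
    rw [MulAction.orbitRel_apply]
    refine ⟨⟨x, hxm⟩, ?_⟩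
    show (⟨x, hxm⟩ : D.Gam) • D.cel τ hτ w = _
    rw [smul_cel]
    have e : x.left * D.actHom x.right w = we (fun k => D.par k w') := by
      show we (fun k => D.par k w') * w'⁻¹ * w' = _
      rw [inv_mul_cancel_right]
    show D.cel (D.tr g τ) _ (x.left * D.actHom x.right w) = _
    rw [e]

end Pool.Agent.Helper635.PD4.RData
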