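import Pool.Agent.Helper635_PD4.PPCell
import Pool.Agent.Helper635_PD4.FD
import Pool.Agent.Helper635_PD4.Inst

/-!
# Module E, first half: the lower intervals of the reflection poset are good
-/

open scoped Classical

namespace Pool.Agent.Helper635.PD4

/-- exactness by an acyclic matching -/
theorem exa_match {V : Type*} (S : Finset V) (E : V → V → ℤ) (p : V → V) (ρ : V → ℕ)
    (hS : ∀ σ ∈ S, p σ ∈ S) (hpp : ∀ σ ∈ S, p (p σ) = σ) (hρ : ∀ σ ∈ S, ρ (p σ) = ρ σ)
    (hE : ∀ u ∈ S, ∀ v ∈ S, E u v ≠ 0 → v = p u ∨ ρ u < ρ v) (hsq : Sq S E)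
    (h1 : ∀ σ ∈ S, ((E σ (p σ) = 1 ∨ E σ (p σ) = -1) ∧ E (p σ) σ = 0) ∨
      (E σ (p σ) = 0 ∧ (E (p σ) σ = 1 ∨ E (p σ) σ = -1))) : Exa S E := by
  have hne : ∀ σ ∈ S, p σ ≠ σ := by
    intro σ hσ h
    rcases h1 σ hσ with ⟨h2, h3⟩ | ⟨h2, h3⟩
    · rw [h] at h2 h3; rw [h3] at h2; omega
    · rw [h] at h2 h3; rw [h2] at h3; omega
  have hd : ∀ σ ∈ S, E σ σ = 0 := by
    intro σ hσ
    by_contra h
    rcases hE σ hσ σ hσ h with h2 | h2
    · exact hne σ hσ h2.symm
    · omega
  apply exa_filt S E (fun σ => if E σ (p σ) = 0 then p σ else σ) ρ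
  · intro u hu v hv h
    rcases hE u hu v hv h with h2 | h2
    · left
      subst h2
      rcases h1 u hu with ⟨h3, h4⟩ | ⟨h3, h4⟩
      · have h5 : E u (p u) ≠ 0 := h
        rw [if_neg h5, hpp u hu, if_pos h4]
      · exact absurd h3 h
    · right
      have e : ∀ σ ∈ S, ρ (if E σ (p σ) = 0 then p σ else σ) = ρ σ := by
        intro σ hσ
        split_ifs
        · exact hρ σ hσ
        · rfl
      rw [e u hu, e v hv]
      exact h2
  · exact hsq
  · intro i
    by_cases hi : i ∈ S ∧ E i (p i) ≠ 0
    · have e : S.filter (fun σ => (if E σ (p σ) = 0 then p σ else σ) = i) = {i, p i} := by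
        ext σ
        rw [Finset.mem_filter, Finset.mem_insert, Finset.mem_singleton]
        constructor
        · rintro ⟨hσ, h⟩
          split_ifs at h with h0
          · right
            rw [← h, hpp σ hσ]
          · left; exact h
        · rintro (rfl | rfl)
          · exact ⟨hi.1, by rw [if_neg hi.2]⟩
          · refine ⟨hS _ hi.1, ?_⟩
            rcases h1 i hi.1 with ⟨h3, h4⟩ | ⟨h3, h4⟩
            · rw [hpp i hi.1, if_pos h4]
            · exact absurd h3 hi.2
      rw [e]
      rcases h1 i hi.1 with ⟨h3, h4⟩ | ⟨h3, h4⟩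
      · apply exa_pair
        · exact (hne i hi.1).symm
        · exact h3
        · exact hd i hi.1
        · exact h4
        · exact hd _ (hS i hi.1)
      · exact absurd h3 hi.2
    · have e : S.filter (fun σ => (if E σ (p σ) = 0 then p σ else σ) = i) = ∅ := by
        rw [Finset.filter_eq_empty_iff]
        intro σ hσ h
        apply hi
        split_ifs at h with h0
        · rw [← h]
          refine ⟨hS σ hσ, ?_⟩
          rw [hpp σ hσ]
          rcases h1 σ hσ with ⟨h3, h4⟩ | ⟨h3, h4⟩
          · rw [h0] at h3; omega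
          · intro h5; rw [h5] at h4; omega
        · rw [← h]; exact ⟨hσ, h0⟩
      rw [e]
      exact exa_empty E

section dE
variable {Q : Type*} [PartialOrder Q]

theorem dEc_erase' {A : Finset Q} {a : Q} (ha : a ∈ A) :
    dE (A.erase a) A = 1 ∨ dE (A.erase a) A = -1 := by
  rw [dEc_erase ha]
  exact neg_one_pow_eq_or ℤ _

theorem dE_big {A B : Finset Q} (h : A.card ≤ B.card) : dE B A = 0 := by
  by_contra hne
  have := dE_card hne
  omega

theorem sq_chain (T : Finset Q) (hT : IsChain (· ≤ ·) (T : Set Q)) (S : Finset (Finset Q))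
    (hS : ∀ σ ∈ S, σ ⊆ T) (hc : ∀ u ∈ S, ∀ w ∈ S, ∀ v, u ⊆ v → v ⊆ w → v ∈ S) : Sq S dE := by
  intro u hu w hw
  apply dE_sq u w
  · exact hT.mono (by exact_mod_cast hS w hw)
  · intro v h1 h2
    exact hc u hu w hw v (dE_sub h1) (dE_sub h2)

/-- the augmented simplex -/
theorem exaA (T : Finset Q) (hT : IsChain (· ≤ ·) (T : Set Q)) (hne : T.Nonempty) :
    Exa T.powerset dE := by
  obtain ⟨a, ha⟩ := hne
  apply exa_match T.powerset dE (fun σ => if a ∈ σ then σ.erase a else insert a σ)
    (fun σ => (σ.erase a).card)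
  · intro σ hσ
    rw [Finset.mem_powerset] at hσ ⊢
    split_ifs with h
    · exact (Finset.erase_subset _ _).trans hσ
    · exact Finset.insert_subset ha hσ
  · intro σ _
    by_cases h : a ∈ σ
    · simp only [if_pos h, if_neg (Finset.notMem_erase a σ), Finset.insert_erase h]
    · simp only [if_neg h, if_pos (Finset.mem_insert_self a σ), Finset.erase_insert h]
  · intro σ _
    by_cases h : a ∈ σ
    · simp only [if_pos h, Finset.erase_idem]
    · simp only [if_neg h, Finset.erase_insert h, Finset.erase_eq_of_notMem h]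
  · intro u _ v _ h
    obtain ⟨b, hb, rfl⟩ := dEc_ne h
    by_cases hba : b = a
    · left
      subst hba
      simp only [if_neg (Finset.notMem_erase b v), Finset.insert_erase hb]
    · right
      show ((v.erase b).erase a).card < (v.erase a).card
      rw [Finset.erase_right_comm]
      exact Finset.card_erase_lt_of_mem (Finset.mem_erase.2 ⟨hba, hb⟩)
  · apply sq_chain T hT
    · intro σ hσ; exact Finset.mem_powerset.1 hσ
    · intro u _ w hw v _ hvw
      exact Finset.mem_powerset.2 (hvw.trans (Finset.mem_powerset.1 hw))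
  · intro σ _
    by_cases h : a ∈ σ
    · right
      simp only [if_pos h]
      exact ⟨dE_big (Finset.card_erase_le), dEc_erase' h⟩
    · left
      simp only [if_neg h]
      have := dEc_erase' (Finset.mem_insert_self a σ)
      rw [Finset.erase_insert h] at this
      exact ⟨this, dE_big (Finset.card_le_card (Finset.subset_insert a σ))⟩

/-- the simplex `T` (without the empty face) and the open cone over the simplex `A` -/
theorem exaB (T A : Finset Q) (v : Q) (hch : IsChain (· ≤ ·) ((insert v T : Finset Q) : Set Q))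
    (hv : v ∉ T) (hAT : A ⊆ T) (hA : A.Nonempty) :
    Exa ((insert v T).powerset.filter
      (fun σ => (σ.erase v).Nonempty ∧ (v ∈ σ → σ.erase v ⊆ A))) dE := by
  obtain ⟨a, ha⟩ := hA
  have hav : a ≠ v := fun h => hv (h ▸ hAT ha)
  set S := (insert v T).powerset.filter
      (fun σ => (σ.erase v).Nonempty ∧ (v ∈ σ → σ.erase v ⊆ A)) with hSdef
  have hmem : ∀ σ, σ ∈ S ↔ σ ⊆ insert v T ∧ (σ.erase v).Nonempty ∧ (v ∈ σ → σ.erase v ⊆ A) := by
    intro σ
    rw [hSdef, Finset.mem_filter, Finset.mem_powerset]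
  set p : Finset Q → Finset Q := fun σ => if σ = {a} then {a, v} else if σ = {a, v} then {a} else
    if a ∈ σ then σ.erase a else insert a σ with hp
  have hne12 : ({a, v} : Finset Q) ≠ {a} := by
    intro h
    have : v ∈ ({a} : Finset Q) := by rw [← h]; simp
    rw [Finset.mem_singleton] at this
    exact hav this.symm
  have hp1 : p {a} = {a, v} := by simp only [hp, if_true]
  have hp2 : p {a, v} = {a} := by simp only [hp, if_neg hne12, if_true]
  have hp3 : ∀ σ, σ ≠ {a} → σ ≠ {a, v} → a ∈ σ → p σ = σ.erase a := by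
    intro σ h1 h2 h3
    simp only [hp, if_neg h1, if_neg h2, if_pos h3]
  have hp4 : ∀ σ, a ∉ σ → p σ = insert a σ := by
    intro σ h3
    have h1 : σ ≠ {a} := by rintro rfl; exact h3 (Finset.mem_singleton_self a)
    have h2 : σ ≠ {a, v} := by rintro rfl; exact h3 (Finset.mem_insert_self a _)
    simp only [hp, if_neg h1, if_neg h2, if_neg h3]
  have hs1 : ({a} : Finset Q) ∈ S := by
    rw [hmem]
    refine ⟨?_, ?_, ?_⟩
    · rw [Finset.singleton_subset_iff]
      exact Finset.mem_insert_of_mem (hAT ha)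
    · exact ⟨a, Finset.mem_erase.2 ⟨hav, Finset.mem_singleton_self a⟩⟩
    · intro h
      rw [Finset.mem_singleton] at h
      exact absurd h.symm hav
  have hs2 : ({a, v} : Finset Q) ∈ S := by
    rw [hmem]
    refine ⟨?_, ?_, ?_⟩
    · intro x hx
      rw [Finset.mem_insert, Finset.mem_singleton] at hx
      rcases hx with rfl | rfl
      · exact Finset.mem_insert_of_mem (hAT ha)
      · exact Finset.mem_insert_self _ _
    · exact ⟨a, Finset.mem_erase.2 ⟨hav, Finset.mem_insert_self a _⟩⟩
    · intro _ x hx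
      rw [Finset.mem_erase, Finset.mem_insert, Finset.mem_singleton] at hx
      rcases hx.2 with h | h
      · rw [h]; exact ha
      · exact absurd h hx.1
  -- erasing `a` from a generic element
  have hs3 : ∀ σ ∈ S, σ ≠ {a} → σ ≠ {a, v} → (σ.erase a).erase v ≠ ∅ := by
    intro σ hσ h1 h2 h3
    rw [hmem] at hσ
    have hsub : ∀ x ∈ σ, x = a ∨ x = v := by
      intro x hx
      by_contra hxx
      push Not at hxx
      have : x ∈ (σ.erase a).erase v :=
        Finset.mem_erase.2 ⟨hxx.2, Finset.mem_erase.2 ⟨hxx.1, hx⟩⟩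
      rw [h3] at this
      exact Finset.notMem_empty x this
    have haσ : a ∈ σ := by
      obtain ⟨x, hx⟩ := hσ.2.1
      rw [Finset.mem_erase] at hx
      rcases hsub x hx.2 with h | h
      · rw [← h]; exact hx.2
      · exact absurd h hx.1
    by_cases hvσ : v ∈ σ
    · apply h2
      ext x
      rw [Finset.mem_insert, Finset.mem_singleton]
      constructor
      · exact hsub x
      · rintro (rfl | rfl)
        · exact haσ
        · exact hvσ
    · apply h1
      ext x
      rw [Finset.mem_singleton]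
      constructor
      · intro hx
        rcases hsub x hx with h | h
        · exact h
        · exact absurd (h ▸ hx) hvσ
      · rintro rfl; exact haσ
  have hs4 : ∀ σ ∈ S, σ ≠ {a} → σ ≠ {a, v} → a ∈ σ → σ.erase a ∈ S := by
    intro σ hσ h1 h2 _
    have h3 := hs3 σ hσ h1 h2
    rw [hmem] at hσ ⊢
    refine ⟨(Finset.erase_subset _ _).trans hσ.1, Finset.nonempty_iff_ne_empty.2 h3, ?_⟩
    intro hvσ
    exact (Finset.erase_subset_erase v (Finset.erase_subset a σ)).trans
      (hσ.2.2 (Finset.mem_of_mem_erase hvσ))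
  have hs5 : ∀ σ ∈ S, a ∉ σ → insert a σ ∈ S := by
    intro σ hσ _
    rw [hmem] at hσ ⊢
    refine ⟨Finset.insert_subset (Finset.mem_insert_of_mem (hAT ha)) hσ.1, ?_, ?_⟩
    · exact ⟨a, Finset.mem_erase.2 ⟨hav, Finset.mem_insert_self a σ⟩⟩
    · intro hvσ x hx
      rw [Finset.mem_erase, Finset.mem_insert] at hx
      rw [Finset.mem_insert] at hvσ
      rcases hx.2 with h | h
      · rw [h]; exact ha
      · apply hσ.2.2
        · rcases hvσ with h' | h'
          · exact absurd h'.symm hav
          · exact h'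
        · exact Finset.mem_erase.2 ⟨hx.1, h⟩
  have hs6 : ∀ σ ∈ S, a ∉ σ → insert a σ ≠ {a} ∧ insert a σ ≠ {a, v} := by
    intro σ hσ haσ
    rw [hmem] at hσ
    obtain ⟨x, hx⟩ := hσ.2.1
    rw [Finset.mem_erase] at hx
    constructor
    · intro h
      have : x ∈ ({a} : Finset Q) := by rw [← h]; exact Finset.mem_insert_of_mem hx.2
      rw [Finset.mem_singleton] at this
      exact haσ (this ▸ hx.2)
    · intro h
      have : x ∈ ({a, v} : Finset Q) := by rw [← h]; exact Finset.mem_insert_of_mem hx.2
      rw [Finset.mem_insert, Finset.mem_singleton] at this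
      rcases this with h' | h'
      · exact haσ (h' ▸ hx.2)
      · exact hx.1 h'
  have hρne : ∀ σ : Finset Q, σ ≠ {a} → σ ≠ {a, v} →
      (if σ = {a} ∨ σ = {a, v} then 0 else (σ.erase a).card) = (σ.erase a).card := by
    intro σ h1 h2
    rw [if_neg]
    rintro (h | h)
    · exact h1 h
    · exact h2 h
  have hnota : ∀ σ : Finset Q, a ∉ σ → σ ≠ {a} ∧ σ ≠ {a, v} := by
    intro σ h
    constructor
    · rintro rfl; exact h (Finset.mem_singleton_self a)
    · rintro rfl; exact h (Finset.mem_insert_self a _)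
  apply exa_match S dE p (fun σ => if σ = {a} ∨ σ = {a, v} then 0 else (σ.erase a).card)
  · intro σ hσ
    by_cases h1 : σ = {a}
    · rw [h1, hp1]; exact hs2
    by_cases h2 : σ = {a, v}
    · rw [h2, hp2]; exact hs1
    by_cases h3 : a ∈ σ
    · rw [hp3 σ h1 h2 h3]; exact hs4 σ hσ h1 h2 h3
    · rw [hp4 σ h3]; exact hs5 σ hσ h3
  · intro σ hσ
    by_cases h1 : σ = {a}
    · rw [h1, hp1, hp2]
    by_cases h2 : σ = {a, v}
    · rw [h2, hp2, hp1]
    by_cases h3 : a ∈ σ
    · rw [hp3 σ h1 h2 h3, hp4 _ (Finset.notMem_erase a σ), Finset.insert_erase h3]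
    · have h4 := hs6 σ hσ h3
      rw [hp4 σ h3, hp3 _ h4.1 h4.2 (Finset.mem_insert_self a σ), Finset.erase_insert h3]
  · intro σ hσ
    show (if p σ = {a} ∨ p σ = {a, v} then 0 else ((p σ).erase a).card) =
      (if σ = {a} ∨ σ = {a, v} then 0 else (σ.erase a).card)
    by_cases h1 : σ = {a}
    · rw [h1, hp1, if_pos (Or.inr rfl), if_pos (Or.inl rfl)]
    by_cases h2 : σ = {a, v}
    · rw [h2, hp2, if_pos (Or.inl rfl), if_pos (Or.inr rfl)]
    by_cases h3 : a ∈ σ
    · have h5 := hnota _ (Finset.notMem_erase a σ)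
      rw [hρne σ h1 h2, hp3 σ h1 h2 h3, hρne _ h5.1 h5.2, Finset.erase_idem]
    · have h4 := hs6 σ hσ h3
      rw [hρne σ h1 h2, hp4 σ h3, hρne _ h4.1 h4.2, Finset.erase_insert h3,
        Finset.erase_eq_of_notMem h3]
  · intro u hu w hw h
    show w = p u ∨ (if u = {a} ∨ u = {a, v} then 0 else (u.erase a).card) <
      (if w = {a} ∨ w = {a, v} then 0 else (w.erase a).card)
    obtain ⟨b, hb, hub⟩ := dEc_ne h
    by_cases h1 : w = {a}
    · exfalso
      rw [h1, Finset.mem_singleton] at hb
      rw [h1, hb] at hub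
      rw [hub, hmem] at hu
      obtain ⟨x, hx⟩ := hu.2.1
      simp at hx
    by_cases h2 : w = {a, v}
    · left
      rw [h2, Finset.mem_insert, Finset.mem_singleton] at hb
      rcases hb with hb | hb
      · exfalso
        rw [h2, hb] at hub
        rw [hub, hmem] at hu
        obtain ⟨x, hx⟩ := hu.2.1
        simp only [Finset.mem_erase, Finset.mem_insert, Finset.mem_singleton] at hx
        tauto
      · have h4 : u = {a} := by
          rw [hub, h2, hb]
          ext x
          simp only [Finset.mem_erase, Finset.mem_insert, Finset.mem_singleton]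
          constructor
          · rintro ⟨h5, h6 | h6⟩
            · exact h6
            · exact absurd h6 h5
          · rintro rfl; exact ⟨hav, Or.inl rfl⟩
        rw [h4, hp1, h2]
    rw [hρne w h1 h2]
    by_cases hba : b = a
    · left
      rw [hub, hba, hp4 _ (Finset.notMem_erase a w), Finset.insert_erase (hba ▸ hb)]
    · right
      have hpos : 0 < (w.erase a).card := Finset.card_pos.2 ⟨b, Finset.mem_erase.2 ⟨hba, hb⟩⟩
      split_ifs with h5
      · exact hpos
      · rw [hub, Finset.erase_right_comm]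
        exact Finset.card_erase_lt_of_mem (Finset.mem_erase.2 ⟨hba, hb⟩)
  · apply sq_chain (insert v T) hch
    · intro σ hσ; exact ((hmem σ).1 hσ).1
    · intro u hu w hw x hux hxw
      rw [hmem] at hu hw ⊢
      refine ⟨hxw.trans hw.1, hu.2.1.mono (Finset.erase_subset_erase v hux), ?_⟩
      intro hvx
      exact (Finset.erase_subset_erase v hxw).trans (hw.2.2 (hxw hvx))
  · intro σ hσ
    have hE12 : dE ({a} : Finset Q) {a, v} = 1 ∨ dE ({a} : Finset Q) {a, v} = -1 := by
      have h4 : ({a, v} : Finset Q).erase v = {a} := by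
        ext x
        simp only [Finset.mem_erase, Finset.mem_insert, Finset.mem_singleton]
        constructor
        · rintro ⟨h5, h6 | h6⟩
          · exact h6
          · exact absurd h6 h5
        · rintro rfl; exact ⟨hav, Or.inl rfl⟩
      have h5 := dEc_erase' (A := ({a, v} : Finset Q)) (a := v) (by simp)
      rw [h4] at h5
      exact h5
    have hE21 : dE ({a, v} : Finset Q) {a} = 0 := by
      apply dE_big
      rw [Finset.card_singleton]
      exact Finset.card_pos.2 ⟨a, Finset.mem_insert_self a _⟩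
    by_cases h1 : σ = {a}
    · left
      rw [h1, hp1]
      exact ⟨hE12, hE21⟩
    by_cases h2 : σ = {a, v}
    · right
      rw [h2, hp2]
      exact ⟨hE21, hE12⟩
    by_cases h3 : a ∈ σ
    · right
      rw [hp3 σ h1 h2 h3]
      exact ⟨dE_big (Finset.card_erase_le), dEc_erase' h3⟩
    · left
      rw [hp4 σ h3]
      have := dEc_erase' (Finset.mem_insert_self a σ)
      rw [Finset.erase_insert h3] at this
      exact ⟨this, dE_big (Finset.card_le_card (Finset.subset_insert a σ))⟩

end dE

end Pool.Agent.Helper635.PD4
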