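import Pool.Agent.Helper635_PD4.Rac

/-!
# Module E0: basic facts on the cells `D.PP` (statements to be proved)
-/

open scoped Classical

namespace Pool.Agent.Helper635.PD4

section dE

variable {Q : Type*} [PartialOrder Q]

theorem dE_ne {A' A : Finset Q} (h : dE A' A ≠ 0) : ∃ a ∈ A, A' = A.erase a := by
  unfold dE at h
  obtain ⟨a, ha, h1⟩ := Finset.exists_ne_zero_of_sum_ne_zero h
  refine ⟨a, ha, ?_⟩
  by_contra h2
  exact h1 (if_neg h2)

theorem dE_erase {A : Finset Q} {a : Q} (ha : a ∈ A) : dE (A.erase a) A = (-1) ^ pos A a := by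
  unfold dE
  rw [Finset.sum_eq_single a]
  · simp
  · intro b hb hba
    rw [if_neg]
    intro he
    have h1 : b ∈ A.erase a := Finset.mem_erase.2 ⟨hba, hb⟩
    rw [he] at h1
    exact (Finset.notMem_erase b A) h1
  · intro h; exact absurd ha h

theorem pos_erase_of_lt {A : Finset Q} {a b : Q} (hab : a < b) : pos (A.erase b) a = pos A a := by
  unfold pos
  congr 1
  ext x
  simp only [Finset.mem_filter, Finset.mem_erase]
  constructor
  · rintro ⟨⟨_, h1⟩, h2⟩; exact ⟨h1, h2⟩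
  · rintro ⟨h1, h2⟩
    exact ⟨⟨(h2.trans hab).ne, h1⟩, h2⟩

theorem pos_erase_of_gt {A : Finset Q} {a b : Q} (ha : a ∈ A) (hab : a < b) :
    pos (A.erase a) b + 1 = pos A b := by
  unfold pos
  have : A.filter (fun x => x < b) = insert a ((A.erase a).filter (fun x => x < b)) := by
    ext x
    simp only [Finset.mem_filter, Finset.mem_erase, Finset.mem_insert]
    constructor
    · rintro ⟨h1, h2⟩
      by_cases hx : x = a
      · exact Or.inl hx
      · exact Or.inr ⟨⟨hx, h1⟩, h2⟩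
    · rintro (rfl | ⟨⟨_, h1⟩, h2⟩)
      · exact ⟨ha, hab⟩
      · exact ⟨h1, h2⟩
  rw [this, Finset.card_insert_of_notMem (by simp)]

/-- `∂² = 0` for the simplicial boundary -/
theorem dE_dE (π ρ : Finset Q) (hρ : IsChain (· ≤ ·) (ρ : Set Q)) :
    ∑ τ ∈ ρ.powerset, dE π τ * dE τ ρ = 0 := by
  have h1 : ∑ τ ∈ ρ.powerset, dE π τ * dE τ ρ =
      ∑ b ∈ ρ, (-1) ^ pos ρ b * dE π (ρ.erase b) := by
    rw [← Finset.sum_subset (s₁ := ρ.image (fun b => ρ.erase b))]
    · rw [Finset.sum_image]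
      · apply Finset.sum_congr rfl
        intro b hb
        rw [dE_erase hb, mul_comm]
      · intro a ha b hb hab
        exact Finset.erase_injOn ρ ha hb hab
    · intro τ hτ
      obtain ⟨b, hb, rfl⟩ := Finset.mem_image.1 hτ
      exact Finset.mem_powerset.2 (Finset.erase_subset _ _)
    · intro τ _ hτ
      by_contra h
      obtain ⟨b, hb, he⟩ := dE_ne (right_ne_zero_of_mul h)
      exact hτ (Finset.mem_image.2 ⟨b, hb, he.symm⟩)
  have h2 : ∀ b ∈ ρ, (-1 : ℤ) ^ pos ρ b * dE π (ρ.erase b) =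
      ∑ a ∈ ρ, if a ≠ b then (-1) ^ pos ρ b * (if π = (ρ.erase b).erase a then
        (-1) ^ pos (ρ.erase b) a else 0) else 0 := by
    intro b hb
    unfold dE
    rw [Finset.mul_sum, ← Finset.sum_filter]
    apply Finset.sum_congr
    · ext x
      simp only [Finset.mem_erase, Finset.mem_filter]
      tauto
    · intro x _; rfl
  rw [h1, Finset.sum_congr rfl h2, ← Finset.sum_product']
  have hpair : ∀ a b : Q, a ∈ ρ → b ∈ ρ → a < b →
      (-1 : ℤ) ^ pos ρ b * (if π = (ρ.erase b).erase a then (-1) ^ pos (ρ.erase b) a else 0) +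
      (-1 : ℤ) ^ pos ρ a * (if π = (ρ.erase a).erase b then (-1) ^ pos (ρ.erase a) b else 0) = 0 := by
    intro a b ha hb hab
    rw [Finset.erase_right_comm (a := a) (b := b)]
    by_cases hπ : π = (ρ.erase b).erase a
    · rw [if_pos hπ, if_pos hπ, pos_erase_of_lt hab, ← pos_erase_of_gt ha hab, pow_succ]
      ring
    · rw [if_neg hπ, if_neg hπ]; ring
  apply Finset.sum_involution (fun x _ => (x.2, x.1))
  · rintro ⟨b, a⟩ hx
    rw [Finset.mem_product] at hx
    by_cases hab : a = b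
    · subst hab; simp
    · rcases hρ hx.2 hx.1 hab with h | h
      · have h3 := hpair a b hx.2 hx.1 (lt_of_le_of_ne h hab)
        simp only [ne_eq, hab, Ne.symm hab, not_false_eq_true, if_true]
        exact h3
      · have h3 := hpair b a hx.1 hx.2 (lt_of_le_of_ne h (Ne.symm hab))
        simp only [ne_eq, hab, Ne.symm hab, not_false_eq_true, if_true]
        rw [add_comm]
        exact h3
  · rintro ⟨b, a⟩ _ hne he
    have hab : a = b := congrArg Prod.fst he
    apply hne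
    simp [hab]
  · rintro ⟨b, a⟩ hx
    rw [Finset.mem_product] at hx ⊢
    exact ⟨hx.2, hx.1⟩
  · rintro ⟨b, a⟩ _
    rfl

end dE

end Pool.Agent.Helper635.PD4

namespace Pool.Agent.Helper635.PD4.RData

open Pool.Agent.Helper376.LC

variable {G : Type} [Group G] (D : RData G)

theorem ra : RightAngled (rcm D.adj) := by
  intro i j hij
  rw [rcm_apply]
  simp only [hij, if_false]
  split_ifs
  · exact Or.inl rfl
  · exact Or.inr rfl

theorem rk_lt {x y : D.R} (h : x < y) : D.rk x < D.rk y := D.gr.lt x y h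

theorem not_lt_top {x y : D.R} (hx : D.rk x = 4) (h : x < y) : False := by
  have h1 := D.rk_lt h
  have h2 := D.rk_le y
  omega

/-- comparable elements of rank `4` are equal -/
theorem eq_of_rk {x y : D.R} (hx : D.rk x = 4) (hy : D.rk y = 4) (h : x ≤ y ∨ y ≤ x) : x = y := by
  rcases h with h | h
  · by_contra hne
    exact D.not_lt_top hx (lt_of_le_of_ne h hne)
  · by_contra hne
    exact D.not_lt_top hy (lt_of_le_of_ne h (Ne.symm hne))

/-- if `kap` is in the chain, all mirrors are below `kap` -/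
theorem lt_kap_of_mem {σ : Finset D.R} (h : IsChain (· ≤ ·) (σ : Set D.R)) (hk : D.kap ∈ σ)
    {i : D.I} (hi : i.1 ∈ σ) : i.1 < D.kap := by
  rcases i.2 with h1 | h1
  · exact h1
  · exfalso
    have hne : i.1 ≠ D.kap := fun h2 => D.kap_Z (h2 ▸ h1)
    exact hne (D.eq_of_rk (D.rk_Z _ h1) D.rk_kap (h hi hk hne))

theorem rcm_two {i j : D.I} (hi : i.1 < D.kap) (hj : j.1 < D.kap) (hij : i ≠ j)
    (h : i.1 ≤ j.1 ∨ j.1 ≤ i.1) : (rcm D.adj) i j = 2 := by
  have hne : i.1 ≠ j.1 := fun h => hij (Subtype.ext h)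
  rw [rcm_apply, if_neg hij, if_pos]
  rcases h with h | h
  · exact Or.inl ⟨hi, hj, lt_of_le_of_ne h hne⟩
  · exact Or.inr ⟨hj, hi, lt_of_le_of_ne h (Ne.symm hne)⟩

/-- mirrors of a chain commute pairwise -/
theorem S_clique (σ : Finset D.R) (h : D.IsL σ) :
    ∀ i ∈ D.S σ, ∀ j ∈ D.S σ, i ≠ j → (rcm D.adj) i j = 2 := by
  intro i hi j hj hij
  rw [mem_S] at hi hj
  have hne : i.1 ≠ j.1 := fun h => hij (Subtype.ext h)
  have hc := h.1 hi.1 hj.1 hne
  by_cases hk : D.kap ∈ σ
  · exact D.rcm_two (D.lt_kap_of_mem h.1 hk hi.1) (D.lt_kap_of_mem h.1 hk hj.1) hij hc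
  · have h1 := hi.2.resolve_left hk
    have h2 := hj.2.resolve_left hk
    exact absurd (D.eq_of_rk (D.rk_Z _ h1) (D.rk_Z _ h2) hc) hne

/-- and have different colours -/
theorem S_col (σ : Finset D.R) (h : D.IsL σ) :
    ∀ i ∈ D.S σ, ∀ j ∈ D.S σ, D.col i = D.col j → i = j := by
  intro i hi j hj hcol
  rw [mem_S] at hi hj
  by_contra hij
  have hne : i.1 ≠ j.1 := fun h => hij (Subtype.ext h)
  have hc := h.1 hi.1 hj.1 hne
  by_cases hk : D.kap ∈ σ
  · have h1 := D.lt_kap_of_mem h.1 hk hi.1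
    have h2 := D.lt_kap_of_mem h.1 hk hj.1
    have h3 := D.rk_lt h1
    have h4 := D.rk_lt h2
    rw [D.rk_kap] at h3 h4
    unfold col at hcol
    rw [if_pos h1, if_pos h2, Fin.mk.injEq] at hcol
    have h5 : D.rk i.1 = D.rk j.1 := by omega
    rcases hc with hc | hc
    · have := D.rk_lt (lt_of_le_of_ne hc hne)
      omega
    · have := D.rk_lt (lt_of_le_of_ne hc (Ne.symm hne))
      omega
  · have h1 := hi.2.resolve_left hk
    have h2 := hj.2.resolve_left hk
    exact absurd (D.eq_of_rk (D.rk_Z _ h1) (D.rk_Z _ h2) hc) hne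

/-- conversely a finite set of pairwise commuting generators is `{z}`, or a chain below `kap` -/
theorem clique_cases (T : Finset D.I) (h : ∀ i ∈ T, ∀ j ∈ T, i ≠ j → (rcm D.adj) i j = 2) :
    (∃ z : D.I, z.1 ∈ D.Z ∧ T = {z}) ∨
    ((∀ i ∈ T, i.1 < D.kap) ∧
      IsChain (· ≤ ·) ((T.image (fun i : D.I => i.1) : Finset D.R) : Set D.R)) := by
  have hadj : ∀ i ∈ T, ∀ j ∈ T, i ≠ j → D.adj i j ∨ D.adj j i := by
    intro i hi j hj hij
    have h1 := h i hi j hj hij
    rw [rcm_apply, if_neg hij] at h1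
    by_contra h2
    rw [if_neg h2] at h1
    omega
  by_cases hz : ∃ z ∈ T, z.1 ∈ D.Z
  · left
    obtain ⟨z, hzT, hz⟩ := hz
    refine ⟨z, hz, ?_⟩
    have hzk : ¬ z.1 < D.kap := fun h => D.not_lt_top (D.rk_Z _ hz) h
    ext i
    rw [Finset.mem_singleton]
    constructor
    · intro hi
      by_contra hne
      rcases hadj i hi z hzT hne with h1 | h1
      · exact hzk h1.2.1
      · exact hzk h1.1
    · rintro rfl
      exact hzT
  · right
    refine ⟨fun i hi => i.2.resolve_right (fun h2 => hz ⟨i, hi, h2⟩), ?_⟩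
    intro x hx y hy hxy
    simp only [Finset.coe_image, Set.mem_image, Finset.mem_coe] at hx hy
    obtain ⟨i, hi, rfl⟩ := hx
    obtain ⟨j, hj, rfl⟩ := hy
    have hij : i ≠ j := fun h => hxy (by rw [h])
    rcases hadj i hi j hj hij with h1 | h1
    · exact Or.inl h1.2.2.le
    · exact Or.inr h1.2.2.le

/-- the cell `(σ, w W_{S σ})` -/
noncomputable def cel (σ : Finset D.R) (h : D.IsL σ) (w : D.W) : D.PP :=
  ⟨(σ, D.coset w (D.S σ)), h, w, rfl⟩

theorem cel_surj (p : D.PP) : ∃ w, p = D.cel p.1.1 p.2.1 w := by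
  obtain ⟨w, hw⟩ := p.2.2
  exact ⟨w, Subtype.ext (Prod.ext rfl hw)⟩

theorem mem_coset_self (w : D.W) (T : Finset D.I) : w ∈ D.coset w T := by
  show w⁻¹ * w ∈ D.WT T
  rw [inv_mul_cancel]
  exact (D.WT T).one_mem

theorem coset_eq_iff (w w' : D.W) (T : Finset D.I) :
    D.coset w T = D.coset w' T ↔ w⁻¹ * w' ∈ D.WT T := by
  constructor
  · intro h
    have h1 := D.mem_coset_self w' T
    rw [← h] at h1
    exact h1
  · intro h
    ext v
    show w⁻¹ * v ∈ D.WT T ↔ w'⁻¹ * v ∈ D.WT T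
    have e : w⁻¹ * v = (w⁻¹ * w') * (w'⁻¹ * v) := by group
    rw [e]
    exact (D.WT T).mul_mem_cancel_left h

theorem cel_eq_iff (σ τ : Finset D.R) (h : D.IsL σ) (h' : D.IsL τ) (w w' : D.W) :
    D.cel σ h w = D.cel τ h' w' ↔ σ = τ ∧ w⁻¹ * w' ∈ D.WT (D.S σ) := by
  constructor
  · intro he
    have h1 : σ = τ := congrArg (fun p : D.PP => p.1.1) he
    have h2 : D.coset w (D.S σ) = D.coset w' (D.S τ) := congrArg (fun p : D.PP => p.1.2) he
    subst h1
    exact ⟨rfl, (D.coset_eq_iff _ _ _).1 h2⟩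
  · rintro ⟨rfl, h2⟩
    exact Subtype.ext (Prod.ext rfl ((D.coset_eq_iff _ _ _).2 h2))

theorem S_mono {σ τ : Finset D.R} (h : σ ⊆ τ) : D.S σ ⊆ D.S τ := by
  intro i hi
  rw [mem_S] at hi ⊢
  exact ⟨h hi.1, hi.2.imp (fun h1 => h h1) id⟩

theorem WT_mono {T T' : Finset D.I} (h : T ⊆ T') : D.WT T ≤ D.WT T' := by
  unfold WT
  apply Subgroup.closure_mono
  exact Set.image_mono (by exact_mod_cast h)

theorem cel_le_iff (σ τ : Finset D.R) (h : D.IsL σ) (h' : D.IsL τ) (w w' : D.W) :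
    D.cel σ h w ≤ D.cel τ h' w' ↔ σ ⊆ τ ∧ w⁻¹ * w' ∈ D.WT (D.S τ) := by
  constructor
  · rintro ⟨h1, h2⟩
    refine ⟨h1, ?_⟩
    have h3 : w'⁻¹ * w ∈ D.WT (D.S τ) := h2 (D.mem_coset_self w (D.S σ))
    have e : w⁻¹ * w' = (w'⁻¹ * w)⁻¹ := by group
    rw [e]
    exact (D.WT _).inv_mem h3
  · rintro ⟨h1, h2⟩
    refine ⟨h1, ?_⟩
    intro v hv
    have hv' : w⁻¹ * v ∈ D.WT (D.S σ) := hv
    show w'⁻¹ * v ∈ D.WT (D.S τ)
    have e : w'⁻¹ * v = (w⁻¹ * w')⁻¹ * (w⁻¹ * v) := by group
    rw [e]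
    exact (D.WT _).mul_mem ((D.WT _).inv_mem h2) (D.WT_mono (D.S_mono h1) hv')

/-- faces of `IsL` chains: supersets -/
theorem IsL_mono {σ τ : Finset D.R} (h : D.IsL σ) (hστ : σ ⊆ τ)
    (hτ : IsChain (· ≤ ·) (τ : Set D.R)) : D.IsL τ := by
  obtain ⟨x, hx, h1⟩ := h.2
  exact ⟨hτ, x, hστ hx, h1⟩

/-- the longest element of the coset of a cell -/
noncomputable def tp (p : D.PP) : D.W :=
  Classical.choose (exists_top D.cs D.ra (D.S p.1.1) (D.S_clique _ p.2.1) (D.rep p)).exists

theorem rep_spec (p : D.PP) : p.1.2 = D.coset (D.rep p) (D.S p.1.1) :=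
  Classical.choose_spec p.2.2

theorem rep_mem (p : D.PP) : D.rep p ∈ p.1.2 := by
  rw [D.rep_spec p]
  exact D.mem_coset_self _ _

theorem cel_of_mem (p : D.PP) {w : D.W} (hw : w ∈ p.1.2) : D.cel p.1.1 p.2.1 w = p := by
  apply Subtype.ext
  apply Prod.ext
  · rfl
  · show D.coset w (D.S p.1.1) = p.1.2
    rw [D.rep_spec p] at hw ⊢
    exact ((D.coset_eq_iff _ _ _).2 hw).symm

theorem tp_spec (p : D.PP) : (D.rep p)⁻¹ * D.tp p ∈ wt D.cs (D.S p.1.1) ∧
    ∀ i ∈ D.S p.1.1, D.cs.IsRightDescent (D.tp p) i :=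
  Classical.choose_spec (exists_top D.cs D.ra (D.S p.1.1) (D.S_clique _ p.2.1) (D.rep p)).exists

theorem tp_mem (p : D.PP) : D.tp p ∈ p.1.2 := by
  rw [D.rep_spec p]
  exact (D.tp_spec p).1

theorem tp_desc (p : D.PP) : ∀ i ∈ D.S p.1.1, D.cs.IsRightDescent (D.tp p) i :=
  (D.tp_spec p).2

theorem cel_tp (p : D.PP) : D.cel p.1.1 p.2.1 (D.tp p) = p := D.cel_of_mem p (D.tp_mem p)

theorem tp_cel (σ : Finset D.R) (h : D.IsL σ) (u : D.W)
    (hu : ∀ i ∈ D.S σ, D.cs.IsRightDescent u i) : D.tp (D.cel σ h u) = u := by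
  have h1 : u⁻¹ * D.tp (D.cel σ h u) ∈ wt D.cs (D.S σ) := D.tp_mem (D.cel σ h u)
  have h2 := D.tp_desc (D.cel σ h u)
  refine (eq_of_same_desc D.cs D.ra (D.S σ) (D.S_clique _ h) u _ h1 ?_).symm
  intro i hi
  exact ⟨fun _ => h2 i hi, fun _ => hu i hi⟩

theorem length_le_tp (p : D.PP) (v : D.W) (hv : v ∈ p.1.2) :
    D.cs.length v ≤ D.cs.length (D.tp p) := by
  by_cases hne : v = D.tp p
  · rw [hne]
  · have h1 := D.tp_mem p
    have h2 : (D.tp p)⁻¹ * v ∈ wt D.cs (D.S p.1.1) := by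
      rw [D.rep_spec p] at hv h1
      have e : (D.tp p)⁻¹ * v = ((D.rep p)⁻¹ * D.tp p)⁻¹ * ((D.rep p)⁻¹ * v) := by group
      rw [e]
      exact (wt D.cs _).mul_mem ((wt D.cs _).inv_mem h1) hv
    exact (length_lt_top D.cs D.ra (D.S p.1.1) (D.S_clique _ p.2.1) _ _ (D.tp_desc p) h2 hne).le

theorem length_tp_lt (p q : D.PP) (h : p ≤ q) (hne : D.tp p ≠ D.tp q) :
    D.cs.length (D.tp p) < D.cs.length (D.tp q) := by
  have hv : D.tp p ∈ q.1.2 := h.2 (D.tp_mem p)
  have h1 := D.tp_mem q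
  have h2 : (D.tp q)⁻¹ * D.tp p ∈ wt D.cs (D.S q.1.1) := by
    rw [D.rep_spec q] at hv h1
    have e : (D.tp q)⁻¹ * D.tp p = ((D.rep q)⁻¹ * D.tp q)⁻¹ * ((D.rep q)⁻¹ * D.tp p) := by group
    rw [e]
    exact (wt D.cs _).mul_mem ((wt D.cs _).inv_mem h1) hv
  exact length_lt_top D.cs D.ra (D.S q.1.1) (D.S_clique _ q.2.1) _ _ (D.tp_desc q) h2 hne

/-- the sign factor does not depend on the representative: if the colours of `T` avoid `k`, then
`par k` is constant on cosets of `W_T` -/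
theorem par_coset (k : Fin 5) (T : Finset D.I) (hT : ∀ i ∈ T, D.col i ≠ k) (v w : D.W)
    (h : v⁻¹ * w ∈ D.WT T) : D.par k v = D.par k w := by
  have h1 : D.WT T ≤ (D.par k).ker := by
    unfold WT
    rw [Subgroup.closure_le]
    rintro _ ⟨i, hi, rfl⟩
    show D.par k (D.cs.simple i) = 1
    rw [par_simple, if_neg (hT i (by exact_mod_cast hi))]
  have h2 : D.par k (v⁻¹ * w) = 1 := h1 h
  rw [map_mul, map_inv, inv_mul_eq_one] at h2
  exact h2

/-- the incidence numbers, computed with any representative -/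
theorem epP_cel (σ τ : Finset D.R) (h : D.IsL σ) (h' : D.IsL τ) (w w' : D.W)
    (hle : D.cel σ h w ≤ D.cel τ h' w') :
    D.epP (D.cel σ h w) (D.cel τ h' w') =
      dE σ τ * ∏ i ∈ D.S τ \ D.S σ, ((D.par (D.col i) w : ℤˣ) : ℤ) := by
  have hστ : σ ⊆ τ := hle.1
  unfold epP
  rw [if_pos hle]
  show dE σ τ * ∏ i ∈ D.S τ \ D.S σ, ((D.par (D.col i) (D.rep (D.cel σ h w)) : ℤˣ) : ℤ) = _
  congr 1
  apply Finset.prod_congr rfl
  intro i hi
  rw [Finset.mem_sdiff] at hi
  have h1 : D.rep (D.cel σ h w) ∈ D.coset w (D.S σ) := D.rep_mem (D.cel σ h w)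
  rw [D.par_coset (D.col i) (D.S σ) ?_ w _ h1]
  intro j hj hji
  have : j = i := D.S_col τ h' j (D.S_mono hστ hj) i hi.1 hji
  exact hi.2 (this ▸ hj)

theorem oriP_cel (σ : Finset D.R) (h : D.IsL σ) (w : D.W) :
    D.oriP (D.cel σ h w) =
      if σ.card = 5 then
        oc D.hE ⊥ (D.up σ) ((⊤ : WithTop D.R) : WithBot (WithTop D.R)) *
          ∏ k ∈ Finset.univ \ (D.S σ).image D.col, ((D.par k w : ℤˣ) : ℤ)
      else 0 := by
  unfold oriP
  show (if σ.card = 5 then
        oc D.hE ⊥ (D.up σ) ((⊤ : WithTop D.R) : WithBot (WithTop D.R)) *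
          ∏ k ∈ Finset.univ \ (D.S σ).image D.col, ((D.par k (D.rep (D.cel σ h w)) : ℤˣ) : ℤ)
      else 0) = _
  congr 2
  apply Finset.prod_congr rfl
  intro k hk
  rw [Finset.mem_sdiff] at hk
  have h1 : D.rep (D.cel σ h w) ∈ D.coset w (D.S σ) := D.rep_mem (D.cel σ h w)
  rw [D.par_coset k (D.S σ) ?_ w _ h1]
  intro j hj hji
  exact hk.2 (Finset.mem_image.2 ⟨j, hj, hji⟩)

/-- `∂² = 0` in the reflection poset, on any finite set which is convex enough -/
theorem dd_P (p r : D.PP) (s : Finset D.PP) (hs : ∀ q, p < q → q < r → q ∈ s) :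
    ∑ q ∈ s, D.epP p q * D.epP q r = 0 := by
  have hle : ∀ a b : D.PP, D.epP a b ≠ 0 → a ≤ b := by
    intro a b hab
    by_contra h
    exact hab (if_neg h)
  have hdE : ∀ a b : D.PP, D.epP a b ≠ 0 → dE a.1.1 b.1.1 ≠ 0 := by
    intro a b hab h
    apply hab
    unfold epP
    rw [if_pos (hle a b hab), h, zero_mul]
  have hlt : ∀ a b : D.PP, D.epP a b ≠ 0 → a < b := by
    intro a b hab
    refine lt_of_le_of_ne (hle a b hab) ?_
    rintro rfl
    obtain ⟨x, hx, he⟩ := dE_ne (hdE _ _ hab)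
    rw [he] at hx
    exact (Finset.notMem_erase x _) hx
  by_cases hpr : p ≤ r
  swap
  · apply Finset.sum_eq_zero
    intro q _
    by_contra h
    exact hpr ((hle _ _ (left_ne_zero_of_mul h)).trans (hle _ _ (right_ne_zero_of_mul h)))
  obtain ⟨w, hw⟩ := D.cel_surj p
  have hwp : w ∈ p.1.2 := by
    rw [hw]; exact D.mem_coset_self _ _
  have hr : r = D.cel r.1.1 r.2.1 w := (D.cel_of_mem r (hpr.2 hwp)).symm
  set sg : ℤ := ∏ i ∈ D.S r.1.1 \ D.S p.1.1, ((D.par (D.col i) w : ℤˣ) : ℤ) with hsg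
  have hmid : ∀ q : D.PP, p ≤ q → q ≤ r → q = D.cel q.1.1 q.2.1 w := fun q h1 _ =>
    (D.cel_of_mem q (h1.2 hwp)).symm
  have hval : ∀ q : D.PP, p ≤ q → q ≤ r →
      D.epP p q * D.epP q r = dE p.1.1 q.1.1 * dE q.1.1 r.1.1 * sg := by
    intro q h1 h2
    have e1 : D.epP p q = dE p.1.1 q.1.1 *
        ∏ i ∈ D.S q.1.1 \ D.S p.1.1, ((D.par (D.col i) w : ℤˣ) : ℤ) := by
      have h3 := D.epP_cel p.1.1 q.1.1 p.2.1 q.2.1 w w (by rw [← hw, ← hmid q h1 h2]; exact h1)
      rw [← hw, ← hmid q h1 h2] at h3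
      exact h3
    have e2 : D.epP q r = dE q.1.1 r.1.1 *
        ∏ i ∈ D.S r.1.1 \ D.S q.1.1, ((D.par (D.col i) w : ℤˣ) : ℤ) := by
      have h3 := D.epP_cel q.1.1 r.1.1 q.2.1 r.2.1 w w (by rw [← hr, ← hmid q h1 h2]; exact h2)
      rw [← hr, ← hmid q h1 h2] at h3
      exact h3
    have e3 : sg = (∏ i ∈ D.S r.1.1 \ D.S q.1.1, ((D.par (D.col i) w : ℤˣ) : ℤ)) *
        ∏ i ∈ D.S q.1.1 \ D.S p.1.1, ((D.par (D.col i) w : ℤˣ) : ℤ) := by
      rw [hsg, ← Finset.prod_union]
      · congr 1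
        ext i
        have a1 : i ∈ D.S p.1.1 → i ∈ D.S q.1.1 := fun h => D.S_mono h1.1 h
        have a2 : i ∈ D.S q.1.1 → i ∈ D.S r.1.1 := fun h => D.S_mono h2.1 h
        simp only [Finset.mem_sdiff, Finset.mem_union]
        tauto
      · rw [Finset.disjoint_left]
        intro i h3 h4
        exact (Finset.mem_sdiff.1 h3).2 (Finset.mem_sdiff.1 h4).1
    rw [e1, e2, e3]
    ring
  have hsum : ∑ q ∈ s, D.epP p q * D.epP q r =
      ∑ τ ∈ r.1.1.powerset, dE p.1.1 τ * dE τ r.1.1 * sg := by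
    apply Finset.sum_bij_ne_zero (fun q _ _ => q.1.1)
    · intro q _ hq
      exact Finset.mem_powerset.2 (hle _ _ (right_ne_zero_of_mul hq)).1
    · intro q _ hq q' _ hq' he
      have h1 := hmid q (hle _ _ (left_ne_zero_of_mul hq)) (hle _ _ (right_ne_zero_of_mul hq))
      have h2 := hmid q' (hle _ _ (left_ne_zero_of_mul hq')) (hle _ _ (right_ne_zero_of_mul hq'))
      rw [h1, h2, D.cel_eq_iff]
      refine ⟨he, ?_⟩
      rw [inv_mul_cancel]
      exact (D.WT _).one_mem
    · intro τ hτ hne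
      have h1 := left_ne_zero_of_mul hne
      obtain ⟨a, ha, hae⟩ := dE_ne (left_ne_zero_of_mul h1)
      obtain ⟨b, hb, hbe⟩ := dE_ne (right_ne_zero_of_mul h1)
      have hpτ : p.1.1 ⊆ τ := by rw [hae]; exact Finset.erase_subset _ _
      have hτr : τ ⊆ r.1.1 := Finset.mem_powerset.1 hτ
      have hL : D.IsL τ := D.IsL_mono p.2.1 hpτ (r.2.1.1.mono (by exact_mod_cast hτr))
      have h2 : p ≤ D.cel τ hL w := by
        rw [hw, D.cel_le_iff]
        refine ⟨hpτ, ?_⟩
        rw [inv_mul_cancel]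
        exact (D.WT _).one_mem
      have h3 : D.cel τ hL w ≤ r := by
        rw [hr, D.cel_le_iff]
        refine ⟨hτr, ?_⟩
        rw [inv_mul_cancel]
        exact (D.WT _).one_mem
      have h4 := hval _ h2 h3
      have h5 : D.epP p (D.cel τ hL w) * D.epP (D.cel τ hL w) r ≠ 0 := by
        rw [h4]; exact hne
      refine ⟨D.cel τ hL w, hs _ (hlt _ _ (left_ne_zero_of_mul h5))
        (hlt _ _ (right_ne_zero_of_mul h5)), h5, rfl⟩
    · intro q _ hq
      exact hval q (hle _ _ (left_ne_zero_of_mul hq)) (hle _ _ (right_ne_zero_of_mul hq))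
  rw [hsum, ← Finset.sum_mul, dE_dE _ _ r.2.1.1, zero_mul]

theorem mem_WT_empty {w : D.W} (h : w ∈ D.WT ∅) : w = 1 := by
  unfold WT at h
  rw [Finset.coe_empty, Set.image_empty, Subgroup.closure_empty] at h
  exact Subgroup.mem_bot.1 h

theorem mem_WT_singleton {t : D.I} {w : D.W} (h : w ∈ D.WT {t}) :
    w = 1 ∨ w = D.cs.simple t := by
  obtain ⟨A, hA, rfl⟩ := mem_wt_exists D.cs {t} (by
    intro i hi j hj hij
    rw [Finset.mem_singleton] at hi hj
    exact absurd (hi.trans hj.symm) hij) w h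
  rcases Finset.subset_singleton_iff.1 hA with h1 | h1
  · left; rw [h1]; simp
  · right; rw [h1]; simp

theorem epP_le {a b : D.PP} (hab : D.epP a b ≠ 0) : a ≤ b := by
  by_contra h
  exact hab (if_neg h)

theorem epP_dE {a b : D.PP} (hab : D.epP a b ≠ 0) : dE a.1.1 b.1.1 ≠ 0 := by
  intro h
  apply hab
  unfold epP
  rw [if_pos (D.epP_le hab), h, zero_mul]

theorem cel_lt_of (σ τ : Finset D.R) (h : D.IsL σ) (h' : D.IsL τ) (w w' : D.W)
    (hst : σ ⊂ τ) (hw : w⁻¹ * w' ∈ D.WT (D.S τ)) : D.cel σ h w < D.cel τ h' w' := by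
  refine lt_of_le_of_ne ((D.cel_le_iff σ τ h h' w w').2 ⟨hst.1, hw⟩) ?_
  intro he
  exact hst.ne ((D.cel_eq_iff σ τ h h' w w').1 he).1

/-- rank one cells have augmentation zero -/
theorem aug_P (r : D.PP) (hr : D.rkP r = 1) (s : Finset D.PP) (hs : ∀ q, q < r → q ∈ s) :
    ∑ q ∈ s, D.epP q r = 0 := by
  obtain ⟨w, hw⟩ := D.cel_surj r
  obtain ⟨ρ, hρ, rfl⟩ : ∃ (ρ : Finset D.R) (hρ : D.IsL ρ), r = D.cel ρ hρ w := ⟨_, _, hw⟩
  clear hw
  have hr' : ρ.card - 1 = 1 := hr
  have hcard : ρ.card = 2 := by omega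
  obtain ⟨x, hx, hxk, hxZ⟩ := hρ.2
  obtain ⟨e, he⟩ : ∃ e, ρ.erase x = {e} := by
    rw [← Finset.card_eq_one, Finset.card_erase_of_mem hx, hcard]
  have heρ : e ∈ ρ := by
    have : e ∈ ρ.erase x := by rw [he]; exact Finset.mem_singleton_self e
    exact Finset.mem_of_mem_erase this
  have hex : e ≠ x := by
    have : e ∈ ρ.erase x := by rw [he]; exact Finset.mem_singleton_self e
    exact Finset.ne_of_mem_erase this
  have hρe : ∀ y, y ∈ ρ ↔ y = x ∨ y = e := by
    intro y
    constructor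
    · intro hy
      by_cases h : y = x
      · exact Or.inl h
      · have : y ∈ ρ.erase x := Finset.mem_erase.2 ⟨h, hy⟩
        rw [he, Finset.mem_singleton] at this
        exact Or.inr this
    · rintro (rfl | rfl)
      · exact hx
      · exact heρ
  have hee : ρ.erase e = {x} := by
    ext y
    rw [Finset.mem_erase, Finset.mem_singleton, hρe]
    constructor
    · rintro ⟨h1, h2 | h2⟩
      · exact h2
      · exact absurd h2 h1
    · rintro rfl
      exact ⟨Ne.symm hex, Or.inl rfl⟩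
  have hLx : D.IsL {x} := ⟨by simp, x, Finset.mem_singleton_self x, hxk, hxZ⟩
  have hxρ : ({x} : Finset D.R) ⊂ ρ := by
    rw [Finset.ssubset_iff_of_subset (by simpa using hx)]
    exact ⟨e, heρ, by simpa using hex⟩
  have heρ' : ({e} : Finset D.R) ⊂ ρ := by
    rw [Finset.ssubset_iff_of_subset (by simpa using heρ)]
    exact ⟨x, hx, by simpa using Ne.symm hex⟩
  have hSx : D.S {x} = ∅ := by
    rw [Finset.eq_empty_iff_forall_notMem]
    intro i hi
    rw [mem_S, Finset.mem_singleton, Finset.mem_singleton] at hi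
    rcases hi.2 with h | h
    · exact hxk h.symm
    · rw [hi.1] at h
      exact hxZ h
  by_cases hS : e = D.kap ∨ e ∈ D.Z
  · -- one mirror
    obtain ⟨t, ht⟩ : ∃ t : D.I, D.S ρ = {t} := by
      rcases hS with h | h
      · have hlt : x < D.kap := by
          have := hρ.1 hx heρ (Ne.symm hex)
          rw [h] at this
          rcases this with h1 | h1
          · exact lt_of_le_of_ne h1 hxk
          · exact absurd (lt_of_le_of_ne h1 (Ne.symm hxk)) (fun h2 => D.not_lt_top D.rk_kap h2)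
        refine ⟨⟨x, Or.inl hlt⟩, ?_⟩
        ext i
        rw [mem_S, Finset.mem_singleton, hρe, Subtype.ext_iff]
        constructor
        · rintro ⟨h1 | h1, _⟩
          · exact h1
          · exfalso
            rcases i.2 with h2 | h2
            · rw [h1, h] at h2; exact lt_irrefl _ h2
            · rw [h1, h] at h2; exact D.kap_Z h2
        · intro h1
          exact ⟨Or.inl h1, Or.inl (h ▸ heρ)⟩
      · refine ⟨⟨e, Or.inr h⟩, ?_⟩
        ext i
        rw [mem_S, Finset.mem_singleton, Subtype.ext_iff]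
        constructor
        · rintro ⟨h1, h2 | h2⟩
          · exfalso
            rw [hρe] at h2
            rcases h2 with h2 | h2
            · exact hxk h2.symm
            · exact D.kap_Z (h2 ▸ h)
          · rw [hρe] at h1
            rcases h1 with h1 | h1
            · rw [h1] at h2; exact absurd h2 hxZ
            · exact h1
        · intro h1
          have h1' : i.1 = e := h1
          rw [h1']
          exact ⟨heρ, Or.inr h⟩
    have hne1 : D.cs.simple t ≠ 1 := by
      intro h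
      have := D.cs.length_simple t
      rw [h, D.cs.length_one] at this
      omega
    set q1 := D.cel {x} hLx w with hq1
    set q2 := D.cel {x} hLx (w * D.cs.simple t) with hq2
    have hq12 : q1 ≠ q2 := by
      intro h
      have h1 := ((D.cel_eq_iff _ _ _ _ _ _).1 h).2
      rw [hSx] at h1
      have h2 := D.mem_WT_empty h1
      rw [inv_mul_cancel_left] at h2
      exact hne1 h2
    have hst : D.cs.simple t ∈ D.WT {t} := Subgroup.subset_closure ⟨t, by simp, rfl⟩
    have hl1 : q1 < D.cel ρ hρ w := by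
      refine D.cel_lt_of _ _ _ _ _ _ hxρ ?_
      rw [inv_mul_cancel]; exact (D.WT _).one_mem
    have hl2 : q2 < D.cel ρ hρ w := by
      refine D.cel_lt_of _ _ _ _ _ _ hxρ ?_
      rw [ht, mul_inv_rev, inv_mul_cancel_right]
      exact (D.WT _).inv_mem hst
    have hsub : ({q1, q2} : Finset D.PP) ⊆ s := by
      intro q hq
      rw [Finset.mem_insert, Finset.mem_singleton] at hq
      rcases hq with rfl | rfl
      · exact hs _ hl1
      · exact hs _ hl2
    rw [← Finset.sum_subset hsub]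
    · rw [Finset.sum_pair hq12, hq1, hq2, D.epP_cel _ _ _ _ _ _ hl1.le,
        D.epP_cel _ _ _ _ _ _ hl2.le, ht, hSx, Finset.sdiff_empty, Finset.prod_singleton,
        Finset.prod_singleton, map_mul, par_simple, if_pos rfl]
      push_cast
      ring
    · intro q _ hq
      by_contra hne
      have hle := D.epP_le hne
      obtain ⟨a, ha, hae⟩ := dE_ne (D.epP_dE hne)
      change q.1.1 = ρ.erase a at hae
      have ha' : a ∈ ρ := ha
      rw [hρe] at ha'
      rcases ha' with h | h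
      · rw [h, he] at hae
        obtain ⟨y, hy, h1, h2⟩ := q.2.1.2
        rw [hae, Finset.mem_singleton] at hy
        rw [hy] at h1 h2
        rcases hS with h3 | h3
        · exact h1 h3
        · exact h2 h3
      · rw [h, hee] at hae
        obtain ⟨v, hv⟩ := D.cel_surj q
        have hv' : q = D.cel {x} hLx v := by
          rw [hv]
          exact (D.cel_eq_iff _ _ _ _ _ _).2 ⟨hae, by rw [inv_mul_cancel]; exact (D.WT _).one_mem⟩
        rw [hv', D.cel_le_iff] at hle
        have h4 := hle.2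
        rw [ht] at h4
        apply hq
        rw [Finset.mem_insert, Finset.mem_singleton, hv', hq1, hq2, D.cel_eq_iff, D.cel_eq_iff]
        rcases D.mem_WT_singleton h4 with h5 | h5
        · left
          rw [h5]
          exact ⟨rfl, (D.WT _).one_mem⟩
        · right
          refine ⟨rfl, ?_⟩
          have h6 : v⁻¹ * (w * D.cs.simple t) = 1 := by
            rw [← mul_assoc, h5, D.cs.simple_mul_simple_self]
          rw [h6]
          exact (D.WT _).one_mem
  · -- no mirror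
    push Not at hS
    have hLe : D.IsL {e} := ⟨by simp, e, Finset.mem_singleton_self e, hS.1, hS.2⟩
    have hSρ : D.S ρ = ∅ := by
      rw [Finset.eq_empty_iff_forall_notMem]
      intro i hi
      rw [mem_S, hρe, hρe] at hi
      rcases hi.2 with (h | h) | h
      · exact hxk h.symm
      · exact hS.1 h.symm
      · rcases hi.1 with h1 | h1
        · rw [h1] at h; exact hxZ h
        · rw [h1] at h; exact hS.2 h
    have hSe : D.S {e} = ∅ := by
      have := D.S_mono heρ'.1
      rw [hSρ] at this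
      exact Finset.subset_empty.1 this
    set q1 := D.cel {x} hLx w with hq1
    set q2 := D.cel {e} hLe w with hq2
    have hq12 : q1 ≠ q2 := by
      intro h
      have h1 := ((D.cel_eq_iff _ _ _ _ _ _).1 h).1
      exact hex (Finset.singleton_injective h1).symm
    have hl1 : q1 < D.cel ρ hρ w := by
      refine D.cel_lt_of _ _ _ _ _ _ hxρ ?_
      rw [inv_mul_cancel]; exact (D.WT _).one_mem
    have hl2 : q2 < D.cel ρ hρ w := by
      refine D.cel_lt_of _ _ _ _ _ _ heρ' ?_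
      rw [inv_mul_cancel]; exact (D.WT _).one_mem
    have hsub : ({q1, q2} : Finset D.PP) ⊆ s := by
      intro q hq
      rw [Finset.mem_insert, Finset.mem_singleton] at hq
      rcases hq with rfl | rfl
      · exact hs _ hl1
      · exact hs _ hl2
    have hsum : dE {x} ρ + dE {e} ρ = 0 := by
      have hpx : ∀ a b : D.R, a ≠ b → (∀ y, y ∈ ρ ↔ y = a ∨ y = b) → a < b →
          pos ρ a = 0 ∧ pos ρ b = 1 := by
        intro a b hab hm hlt
        constructor
        · unfold pos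
          rw [Finset.card_eq_zero, Finset.filter_eq_empty_iff]
          intro y hy hya
          rw [hm] at hy
          rcases hy with rfl | rfl
          · exact lt_irrefl _ hya
          · exact lt_irrefl _ (hlt.trans hya)
        · unfold pos
          rw [Finset.card_eq_one]
          refine ⟨a, ?_⟩
          ext y
          rw [Finset.mem_filter, hm, Finset.mem_singleton]
          constructor
          · rintro ⟨h1 | h1, h2⟩
            · exact h1
            · rw [h1] at h2; exact absurd h2 (lt_irrefl _)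
          · rintro rfl
            exact ⟨Or.inl rfl, hlt⟩
      have e1 : dE {x} ρ = (-1) ^ pos ρ e := by rw [← hee]; exact dE_erase heρ
      have e2 : dE {e} ρ = (-1) ^ pos ρ x := by rw [← he]; exact dE_erase hx
      rw [e1, e2]
      rcases hρ.1 hx heρ (Ne.symm hex) with h | h
      · obtain ⟨h1, h2⟩ := hpx x e (Ne.symm hex) hρe (lt_of_le_of_ne h (Ne.symm hex))
        rw [h1, h2]; norm_num
      · obtain ⟨h1, h2⟩ := hpx e x hex (fun y => by rw [hρe, or_comm]) (lt_of_le_of_ne h hex)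
        rw [h1, h2]; norm_num
    rw [← Finset.sum_subset hsub]
    · rw [Finset.sum_pair hq12, hq1, hq2, D.epP_cel _ _ _ _ _ _ hl1.le,
        D.epP_cel _ _ _ _ _ _ hl2.le, hSρ, Finset.empty_sdiff, Finset.empty_sdiff,
        Finset.prod_empty, mul_one, mul_one]
      exact hsum
    · intro q _ hq
      by_contra hne
      have hle := D.epP_le hne
      obtain ⟨a, ha, hae⟩ := dE_ne (D.epP_dE hne)
      change q.1.1 = ρ.erase a at hae
      have ha' : a ∈ ρ := ha
      rw [hρe] at ha'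
      obtain ⟨v, hv⟩ := D.cel_surj q
      have hvw : v = w := by
        rw [hv, D.cel_le_iff, hSρ] at hle
        exact inv_mul_eq_one.1 (D.mem_WT_empty hle.2)
      subst hvw
      apply hq
      rw [Finset.mem_insert, Finset.mem_singleton]
      rcases ha' with h | h
      · rw [h, he] at hae
        right
        rw [hv, hq2]
        exact (D.cel_eq_iff _ _ _ _ _ _).2 ⟨hae, by rw [inv_mul_cancel]; exact (D.WT _).one_mem⟩
      · rw [h, hee] at hae
        left
        rw [hv, hq1]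
        exact (D.cel_eq_iff _ _ _ _ _ _).2 ⟨hae, by rw [inv_mul_cancel]; exact (D.WT _).one_mem⟩

end Pool.Agent.Helper635.PD4.RData
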