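import Pool.Agent.Helper635_PD4.Base
import Pool.Agent.Helper635_PD4.Grp
import Pool.Agent.Helper635_PD4.Chk

/-!
# The explicit poset `RX`

Elements: cells `cell i g` (`i < 321`, `g : G0`), the special cells `z q` (`q` a coset of `⟨t⟩`,
cell number `321`), and `kap`. `pt j h` is the cell number `j` (`j ≤ 321`) at `h`.
The faces of `pt j h` are the `pt (c / 32) (h * lab (c % 32))` for the codes `c` in `cloL j`.
-/

open scoped Classical

set_option maxRecDepth 100000

namespace Pool.Agent.Helper635.PD4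

/-- the subgroup generated by `t` -/
abbrev T2 : Subgroup G0 := Subgroup.zpowers gt

/-- the explicit poset -/
inductive RX : Type
  | cell (i : Fin 321) (g : G0) : RX
  | z (q : G0 ⧸ T2) : RX
  | kap : RX

namespace RX

open Tab

/-- the cell number `j` at `h` -/
def pt (j : ℕ) (h : G0) : RX :=
  if hj : j < 321 then .cell ⟨j, hj⟩ h else .z (QuotientGroup.mk h)

theorem pt_lt {j : ℕ} (hj : j < 321) (h : G0) : pt j h = .cell ⟨j, hj⟩ h := by
  unfold pt; simp [hj]

theorem pt_321 (h : G0) : pt 321 h = .z (QuotientGroup.mk h) := by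
  unfold pt; simp

theorem pt_eq_iff {i j : ℕ} (hi : i ≤ 321) (hj : j ≤ 321) (g h : G0) :
    pt i g = pt j h ↔ i = j ∧ (g = h ∨ (i = 321 ∧ g⁻¹ * h ∈ T2)) := by
  rcases Nat.lt_or_ge i 321 with h1 | h1
  · rcases Nat.lt_or_ge j 321 with h2 | h2
    · rw [pt_lt h1, pt_lt h2]
      simp only [RX.cell.injEq, Fin.mk.injEq]
      constructor
      · rintro ⟨rfl, rfl⟩; exact ⟨rfl, Or.inl rfl⟩
      · rintro ⟨rfl, rfl | ⟨h3, _⟩⟩
        · exact ⟨rfl, rfl⟩
        · omega
    · have : j = 321 := by omega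
      subst this
      rw [pt_lt h1, pt_321]
      constructor
      · intro h; cases h
      · rintro ⟨rfl, _⟩; omega
  · have : i = 321 := by omega
    subst this
    rcases Nat.lt_or_ge j 321 with h2 | h2
    · rw [pt_lt h2, pt_321]
      constructor
      · intro h; cases h
      · rintro ⟨rfl, _⟩; omega
    · have : j = 321 := by omega
      subst this
      rw [pt_321, pt_321]
      simp only [RX.z.injEq, true_and]
      rw [QuotientGroup.eq]
      constructor
      · intro h; exact Or.inr h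
      · rintro (rfl | h)
        · simp
        · exact h

theorem pt_ne_kap (i : ℕ) (g : G0) : pt i g ≠ kap := by
  unfold pt
  split_ifs <;> simp

/-- every element except `kap` is a `pt` -/
theorem exists_pt (x : RX) (hx : x ≠ kap) : ∃ j h, j ≤ 321 ∧ x = pt j h := by
  rcases x with ⟨i, g⟩ | q | _
  · exact ⟨i.1, g, by omega, by rw [pt_lt i.2]⟩
  · obtain ⟨h, rfl⟩ := QuotientGroup.mk_surjective q
    exact ⟨321, h, le_refl _, by rw [pt_321]⟩
  · exact absurd rfl hx

/-- the order -/
def le (x y : RX) : Prop :=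
  (∃ j h, j ≤ 321 ∧ y = pt j h ∧ ∃ c ∈ cloL j, x = pt (c / 32) (h * lab (c % 32))) ∨
  (y = kap ∧ (x = kap ∨ ∃ i g, i ≤ 321 ∧ isX i = true ∧ x = pt i g))

/-- rank -/
def rk : RX → ℕ
  | .cell i _ => dim i.1
  | .z _ => 4
  | .kap => 4

theorem rk_pt {j : ℕ} (hj : j ≤ 321) (h : G0) : rk (pt j h) = dim j := by
  rcases Nat.lt_or_ge j 321 with h1 | h1
  · rw [pt_lt h1]; rfl
  · have : j = 321 := by omega
    subst this
    rw [pt_321]
    rfl

/-! ### consequences of the table checks -/

theorem clo_self {j : ℕ} (hj : j < 322) : 32 * j ∈ cloL j := by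
  have h := all_range chk0_all hj
  unfold chk0 at h
  rw [Bool.and_eq_true] at h
  exact (mem_maskOf _ _).1 h.1

theorem clo_facts {j : ℕ} (hj : j < 322) {c : ℕ} (hc : c ∈ cloL j) :
    c % 32 < 17 ∧ (c = 32 * j ∨ dim (c / 32) < dim j) ∧ c / 32 < 322 ∧
      (isX j = true → isX (c / 32) = true) := by
  have h := all_range chk0_all hj
  unfold chk0 at h
  rw [Bool.and_eq_true, List.all_eq_true] at h
  have h2 := h.2 c hc
  simp only [Bool.and_eq_true, Bool.or_eq_true, Nat.blt_eq, Nat.beq_eq] at h2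
  obtain ⟨⟨⟨h3, h4⟩, h5⟩, h6⟩ := h2
  refine ⟨h3, h4, h5, ?_⟩
  intro h7
  rw [h7] at h6
  simpa using h6

theorem clo_trans {j : ℕ} (hj : j < 322) {c e : ℕ} (hc : c ∈ cloL j) (he : e ∈ cloL (c / 32)) :
    mulT (c % 32) (e % 32) < 17 ∧ 32 * (e / 32) + mulT (c % 32) (e % 32) ∈ cloL j := by
  have h := all_range chk1_all hj
  unfold chk1 at h
  rw [List.all_eq_true] at h
  have h2 := h c hc
  rw [List.all_eq_true] at h2
  have h3 := h2 e he
  rw [Bool.and_eq_true, Nat.blt_eq, mem_maskOf] at h3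
  exact h3

theorem lab_mul {m l : ℕ} (hm : m < 17) (hl : l < 17) (h : mulT m l < 17) :
    lab (mulT m l) = lab m * lab l := by
  rcases mulT_cases m hm l hl h with ⟨rfl, h1⟩ | ⟨rfl, h1⟩ | h1
  · rw [h1]; simp [lab]
  · rw [h1]; simp [lab]
  · have r1 : ga * gc = gc * ga * ga := rel_ac
    have r2 : ga * gb = gb * gc := rel_ab
    have r3 : gt * gt = 1 := gt_sq
    have r4 : gt * gd * gc = gc * gd := by
      have : gt = gc * gd * gc⁻¹ * gd⁻¹ := rfl
      rw [this]; group
    have r5 : gt * gc * gd = gd * gc := by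
      rw [mul_assoc, ← r4, ← mul_assoc, ← mul_assoc, r3, one_mul]
    have hv := prods_val
    simp only [prods, List.map_cons, List.map_nil, List.cons.injEq, and_true] at hv
    obtain ⟨v1, v2, v3, v4, v5, v6, v7, v8, v9, v10, v11, v12, v13, v14, v15, v16, v17, v18,
      v19, v20, v21, v22⟩ := hv
    simp only [prods, List.mem_cons, Prod.mk.injEq, List.not_mem_nil, or_false] at h1
    rcases h1 with h1 | h1 | h1 | h1 | h1 | h1 | h1 | h1 | h1 | h1 | h1 | h1 | h1 | h1 | h1 | h1 |
      h1 | h1 | h1 | h1 | h1 | h1 <;> obtain ⟨rfl, rfl⟩ := h1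
    · rw [v1]; show (1 : G0) = ga * ga⁻¹; group
    · rw [v2]; show ga = ga * gc * gc⁻¹; group
    · rw [v3]; show gc * ga = ga * gc * ga⁻¹; rw [r1]; group
    · rw [v4]; show gc = gc * ga * ga⁻¹; group
    · rw [v5]; show (1 : G0) = gc * gc⁻¹; group
    · rw [v6]; show ga = ga * gb * gb⁻¹; group
    · rw [v7]; show gb = ga * gb * gc⁻¹; rw [r2]; group
    · rw [v8]; show (1 : G0) = gb * gb⁻¹; group
    · rw [v9]; show gc = gc * gd * gd⁻¹; group
    · rw [v10]; show gt * gd = gc * gd * gc⁻¹; rw [← r4]; group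
    · rw [v11]; show gt = gt * gd * gd⁻¹; group
    · rw [v12]; show gt = gt * gc * gc⁻¹; group
    · rw [v13]; show gt * gc = gt * gc * gd * gd⁻¹; group
    · rw [v14]; show gd = gt * gc * gd * gc⁻¹; rw [r5]; group
    · rw [v15]; show (1 : G0) = gd * gd⁻¹; group
    · rw [v16]; show gt * gc = gt * gc; rfl
    · rw [v17]; show gt * gd = gt * gd; rfl
    · rw [v18]; show gt * gc * gd = gt * (gc * gd); group
    · rw [v19]; show (1 : G0) = gt * gt; exact r3.symm
    · rw [v20]; show gc = gt * (gt * gc); rw [← mul_assoc, r3, one_mul]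
    · rw [v21]; show gd = gt * (gt * gd); rw [← mul_assoc, r3, one_mul]
    · rw [v22]; show gc * gd = gt * (gt * gc * gd); rw [mul_assoc gt gc gd, ← mul_assoc, r3, one_mul]

/-! ### the partial order -/

theorem isX_lt {i : ℕ} (h : isX i = true) : i < 301 := by
  unfold isX at h
  simp only [Bool.or_eq_true, Bool.and_eq_true, Nat.blt_eq, Nat.ble_eq] at h
  omega

theorem dim_lt4 {i : ℕ} (h : i < 301) : dim i < 4 := by
  unfold dim
  split_ifs <;> omega

theorem le_self (x : RX) : le x x := by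
  by_cases hx : x = kap
  · right; exact ⟨hx, Or.inl hx⟩
  · obtain ⟨j, h, hj, rfl⟩ := exists_pt x hx
    left
    refine ⟨j, h, hj, rfl, 32 * j, clo_self (by omega), ?_⟩
    rw [Nat.mul_div_cancel_left _ (by norm_num), Nat.mul_mod_right]
    simp [lab]

theorem le_rk {x y : RX} (h : le x y) : x = y ∨ rk x < rk y := by
  rcases h with ⟨j, h, hj, rfl, c, hc, rfl⟩ | ⟨rfl, rfl | ⟨i, g, hi, hX, rfl⟩⟩
  · obtain ⟨h1, h2, h3, _⟩ := clo_facts (by omega) hc
    rcases h2 with rfl | h2
    · left
      rw [Nat.mul_div_cancel_left _ (by norm_num), Nat.mul_mod_right]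
      simp [lab]
    · right
      rw [rk_pt (by omega), rk_pt hj]
      exact h2
  · left; rfl
  · right
    rw [rk_pt hi]
    exact dim_lt4 (isX_lt hX)

/-- closures of the two sides of an equality of `pt`s -/
theorem pt_321_of_div {j : ℕ} (hj : j ≤ 321) {c : ℕ} (hc : c ∈ cloL j) (h : c / 32 = 321) :
    j = 321 ∧ c = 32 * 321 := by
  obtain ⟨h1, h2, h3, _⟩ := clo_facts (by omega) hc
  rcases h2 with rfl | h2
  · rw [Nat.mul_div_cancel_left _ (by norm_num)] at h
    exact ⟨h, by rw [h]⟩
  · rw [h] at h2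
    exfalso
    have : dim j ≤ 4 := by unfold dim; split_ifs <;> omega
    have h5 : dim 321 = 4 := rfl
    omega

theorem le_tr {x y w : RX} (h1 : le x y) (h2 : le y w) : le x w := by
  rcases h2 with ⟨k, h', hk, rfl, c', hc', hy⟩ | ⟨rfl, rfl | ⟨i, g, hi, hX, rfl⟩⟩
  · by_cases h321 : c' / 32 = 321
    · obtain ⟨rfl, rfl⟩ := pt_321_of_div hk hc' h321
      rw [Nat.mul_div_cancel_left _ (by norm_num), Nat.mul_mod_right] at hy
      have : y = pt 321 h' := by rw [hy]; simp [lab]
      rw [← this]; exact h1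
    · obtain ⟨f1, f2, f3, _⟩ := clo_facts (by omega) hc'
      rcases h1 with ⟨j, h, hj, rfl, c, hc, rfl⟩ | ⟨rfl, _⟩
      · rw [pt_eq_iff hj (by omega)] at hy
        obtain ⟨rfl, hy⟩ := hy
        have hh : h = h' * lab (c' % 32) := by
          rcases hy with hy | ⟨hy, _⟩
          · exact hy
          · exact absurd hy h321
        subst hh
        obtain ⟨t1, t2⟩ := clo_trans (by omega) hc' hc
        obtain ⟨g1, _, _, _⟩ := clo_facts (by omega) hc
        left
        refine ⟨k, h', hk, rfl, _, t2, ?_⟩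
        have e1 : (32 * (c / 32) + mulT (c' % 32) (c % 32)) / 32 = c / 32 := by omega
        have e2 : (32 * (c / 32) + mulT (c' % 32) (c % 32)) % 32 = mulT (c' % 32) (c % 32) := by
          omega
        rw [e1, e2, lab_mul f1 g1 t1, mul_assoc]
      · exact absurd hy.symm (pt_ne_kap _ _)
  · exact h1
  · rcases h1 with ⟨j, h, hj, hjj, c, hc, rfl⟩ | ⟨h3, _⟩
    · rw [pt_eq_iff hi hj] at hjj
      obtain ⟨rfl, _⟩ := hjj
      obtain ⟨_, _, f3, f4⟩ := clo_facts (by omega) hc
      right
      exact ⟨rfl, Or.inr ⟨_, _, by omega, f4 hX, rfl⟩⟩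
    · exact absurd h3 (pt_ne_kap _ _)

noncomputable instance : PartialOrder RX where
  le := le
  le_refl := le_self
  le_trans _ _ _ h1 h2 := le_tr h1 h2
  le_antisymm x y h1 h2 := by
    rcases le_rk h1 with h | h
    · exact h
    · rcases le_rk h2 with h' | h'
      · exact h'.symm
      · omega

theorem le_def (x y : RX) : x ≤ y ↔ le x y := Iff.rfl

theorem rk_lt {x y : RX} (h : x < y) : rk x < rk y := by
  rcases le_rk h.le with h1 | h1
  · exact absurd h1 h.ne
  · exact h1

/-! ### the action of `G0` -/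

/-- left translation -/
def act (g : G0) : RX → RX
  | .cell i h => .cell i (g * h)
  | .z q => .z (g • q)
  | .kap => .kap

theorem act_pt (g : G0) (j : ℕ) (h : G0) : act g (pt j h) = pt j (g * h) := by
  rcases Nat.lt_or_ge j 321 with h1 | h1
  · rw [pt_lt h1, pt_lt h1]; rfl
  · unfold pt
    rw [dif_neg (by omega), dif_neg (by omega)]
    rfl

noncomputable instance : OrdAct G0 RX where
  smul := act
  one_smul x := by
    rcases x with ⟨i, h⟩ | q | _
    · show RX.cell i (1 * h) = _; rw [one_mul]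
    · show RX.z ((1 : G0) • q) = _; rw [one_smul]
    · rfl
  mul_smul g g' x := by
    rcases x with ⟨i, h⟩ | q | _
    · show RX.cell i (g * g' * h) = RX.cell i (g * (g' * h)); rw [mul_assoc]
    · show RX.z ((g * g') • q) = RX.z (g • (g' • q)); rw [mul_smul]
    · rfl
  smul_le g x y hxy := by
    rcases hxy with ⟨j, h, hj, rfl, c, hc, rfl⟩ | ⟨rfl, rfl | ⟨i, h, hi, hX, rfl⟩⟩
    · left
      refine ⟨j, g * h, hj, act_pt g j h, c, hc, ?_⟩
      show act g _ = _
      rw [act_pt, mul_assoc]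
    · exact le_self _
    · right
      exact ⟨rfl, Or.inr ⟨i, g * h, hi, hX, act_pt g i h⟩⟩

theorem smul_pt (g : G0) (j : ℕ) (h : G0) : g • pt j h = pt j (g * h) := act_pt g j h

theorem smul_kap (g : G0) : g • kap = kap := rfl

/-! ### incidence numbers and orientation -/

/-- sign of a facet code -/
def sg (s : ℕ) : ℤ := if s = 0 then 1 else -1

/-- incidence of `x` with the cell number `j` at `h` -/
noncomputable def epL (j : ℕ) (h : G0) (x : RX) : ℤ :=
  ((facL j).map fun e => if x = pt (e / 64) (h * lab (e / 2 % 32)) then sg (e % 2) else 0).sum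

/-- sign of the boundary 3-cells with respect to `kap` -/
def ekS (i : ℕ) : ℤ := if 287 ≤ i ∧ i < 301 then (if ekN.testBit (i - 287) then -1 else 1) else 0

/-- incidence numbers -/
noncomputable def ep (x : RX) : RX → ℤ
  | .cell j h => epL j.1 h x
  | .z q => epL 321 q.out x
  | .kap => match x with
    | .cell i _ => ekS i.1
    | .z _ => 0
    | .kap => 0

/-- orientation of the elements of rank 4 -/
def ori : RX → ℤ
  | .cell i _ => if 318 ≤ i.1 then 1 else 0
  | .z _ => 1
  | .kap => 1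

/-- the special elements -/
def Zs : Set RX := {x | ∃ q, x = .z q}

end RX

end Pool.Agent.Helper635.PD4
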