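import Pool.Agent.Helper635_PD4.Chk

/-!
# Boolean checks: invariance of the closure and of the facets of cell 321 under `t`
-/

set_option maxRecDepth 100000

namespace Pool.Agent.Helper635.PD4.Tab

/-- the closure of cell `321` is invariant under `t` -/
def chkT : Bool := (cloL 321).all fun c => Nat.beq c (32 * 321) ||
  (Nat.blt (mulT 10 (c % 32)) 17 &&
    mem (maskOf (cloL 321)) (32 * (c / 32) + mulT 10 (c % 32)))

theorem chkT_ok : chkT = true := by decide +kernel

/-- translation of a facet code by `t` -/
def trT (e : ℕ) : ℕ := 64 * (e / 64) + 2 * (mulT 10 (e / 2 % 32)) + e % 2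

theorem permT : ((facL 321).map trT).isPerm (facL 321) = true := by decide +kernel

theorem labT : ((facL 321).all fun e => Nat.blt (mulT 10 (e / 2 % 32)) 17 &&
    Nat.blt (e / 2 % 32) 17 && Nat.blt (e / 64) 321) = true := by decide +kernel

/-- cells -/
def chkD (w : ℕ) : Bool :=
  (facL w).all fun e => mem (maskOf (cloL w)) (e / 2) && Nat.beq (dim (e / 64) + 1) (dim w)

theorem chkD_all : (List.range 322).all chkD = true := by decide +kernel

end Pool.Agent.Helper635.PD4.Tab
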