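import Pool.Agent.Helper635_PD4.RX
import Pool.Agent.Helper635_PD4.RXGrChk

/-!
# The explicit poset: grading, action
-/

open scoped Classical

set_option maxRecDepth 100000

namespace Pool.Agent.Helper635.PD4.RX

open Tab

theorem mem_T2 {g : G0} (h : g ∈ T2) : g = 1 ∨ g = gt := by
  obtain ⟨n, rfl⟩ := Subgroup.mem_zpowers_iff.1 h
  have h2 : gt ^ (2 : ℤ) = 1 := by
    rw [zpow_ofNat, pow_two, gt_sq]
  rcases Int.even_or_odd n with ⟨m, rfl⟩ | ⟨m, rfl⟩
  · left
    rw [← two_mul, zpow_mul, h2, one_zpow]
  · right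
    rw [zpow_add, zpow_mul, h2, one_zpow, one_mul, zpow_one]

theorem pt_321_t (h : G0) : pt 321 (h * gt) = pt 321 h := by
  rw [pt_eq_iff (le_refl _) (le_refl _)]
  refine ⟨rfl, Or.inr ⟨rfl, ?_⟩⟩
  have : (h * gt)⁻¹ * h = gt⁻¹ := by group
  rw [this]
  exact T2.inv_mem (Subgroup.mem_zpowers gt)

theorem lab_10 : lab 10 = gt := rfl

/-- the lower set of `pt j h` -/
theorem le_pt_iff {j : ℕ} (hj : j ≤ 321) (h : G0) (x : RX) :
    x ≤ pt j h ↔ ∃ c ∈ cloL j, x = pt (c / 32) (h * lab (c % 32)) := by
  constructor
  · intro hx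
    rcases hx with ⟨j', h', hj', heq, c, hc, rfl⟩ | ⟨h1, _⟩
    · rw [pt_eq_iff hj hj'] at heq
      obtain ⟨rfl, rfl | ⟨rfl, hT⟩⟩ := heq
      · exact ⟨c, hc, rfl⟩
      · have h3 : h' = h ∨ h' = h * gt := by
          rcases mem_T2 hT with h1 | h1
          · left; rw [inv_mul_eq_one] at h1; exact h1.symm
          · right; rw [← h1]; group
        rcases h3 with rfl | rfl
        · exact ⟨c, hc, rfl⟩
        · have h4 := chkT_ok
          unfold chkT at h4
          rw [List.all_eq_true] at h4
          have h5 := h4 c hc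
          simp only [Bool.or_eq_true, Bool.and_eq_true, Nat.beq_eq, Nat.blt_eq, mem_maskOf] at h5
          rcases h5 with rfl | ⟨h5, h6⟩
          · refine ⟨32 * 321, hc, ?_⟩
            have e1 : 32 * 321 / 32 = 321 := by norm_num
            have e2 : 32 * 321 % 32 = 0 := by norm_num
            rw [e1, e2]
            show pt 321 (h * gt * 1) = pt 321 (h * 1)
            rw [mul_one, mul_one, pt_321_t]
          · refine ⟨_, h6, ?_⟩
            have e1 : (32 * (c / 32) + mulT 10 (c % 32)) / 32 = c / 32 := by omega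
            have e2 : (32 * (c / 32) + mulT 10 (c % 32)) % 32 = mulT 10 (c % 32) := by omega
            rw [e1, e2, lab_mul (by norm_num) (clo_facts (by norm_num) hc).1 h5, lab_10,
              mul_assoc]
    · exact absurd h1 (pt_ne_kap _ _)
  · rintro ⟨c, hc, rfl⟩
    exact Or.inl ⟨j, h, hj, rfl, c, hc, rfl⟩

theorem epL_t (h : G0) (x : RX) : epL 321 (h * gt) x = epL 321 h x := by
  have hp : ((facL 321).map trT).Perm (facL 321) := List.isPerm_iff.1 permT
  have h1 : epL 321 h x = (((facL 321).map trT).map fun e =>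
      if x = pt (e / 64) (h * lab (e / 2 % 32)) then sg (e % 2) else 0).sum := by
    unfold epL
    exact ((hp.map _).sum_eq).symm
  rw [h1, List.map_map]
  unfold epL
  congr 1
  apply List.map_congr_left
  intro e he
  have hl := labT
  rw [List.all_eq_true] at hl
  have h2 := hl e he
  simp only [Bool.and_eq_true, Nat.blt_eq] at h2
  obtain ⟨⟨h3, h4⟩, h5⟩ := h2
  have e1 : trT e / 64 = e / 64 := by unfold trT; omega
  have e2 : trT e / 2 % 32 = mulT 10 (e / 2 % 32) := by unfold trT; omega
  have e3 : trT e % 2 = e % 2 := by unfold trT; omega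
  show (if x = pt (e / 64) (h * gt * lab (e / 2 % 32)) then sg (e % 2) else 0) =
    if x = pt (trT e / 64) (h * lab (trT e / 2 % 32)) then sg (trT e % 2) else 0
  rw [e1, e2, e3, lab_mul (by norm_num) h4 h3, lab_10, mul_assoc]

/-- incidence numbers do not depend on the representative -/
theorem ep_pt {j : ℕ} (hj : j ≤ 321) (h : G0) (x : RX) : ep x (pt j h) = epL j h x := by
  rcases Nat.lt_or_ge j 321 with h1 | h1
  · rw [pt_lt h1]; rfl
  · have : j = 321 := by omega
    subst this
    rw [pt_321]
    show epL 321 (QuotientGroup.mk h : G0 ⧸ T2).out x = _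
    obtain ⟨u, hu⟩ := QuotientGroup.mk_out_eq_mul T2 h
    rw [hu]
    rcases mem_T2 u.2 with h2 | h2
    · rw [h2, mul_one]
    · rw [h2, epL_t]

theorem gr_X : Gr rk ep where
  lt x y h := rk_lt h
  ne x y h := by
    by_cases hy : y = kap
    · subst hy
      rcases x with ⟨i, g⟩ | q | _
      · have h1 : 287 ≤ i.1 ∧ i.1 < 301 := by
          by_contra hcon
          apply h
          show ekS i.1 = 0
          unfold ekS
          rw [if_neg hcon]
        have hX : isX i.1 = true := by
          unfold isX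
          simp only [Bool.or_eq_true, Bool.and_eq_true, Nat.blt_eq, Nat.ble_eq]
          right; exact h1
        have hd : dim i.1 = 3 := by
          unfold dim
          rw [if_neg (by omega), if_neg (by omega), if_neg (by omega), if_pos (by omega)]
        have hpt : (RX.cell i g) = pt i.1 g := by rw [pt_lt i.2]
        constructor
        · apply lt_of_le_of_ne
          · exact Or.inr ⟨rfl, Or.inr ⟨i.1, g, by omega, hX, hpt⟩⟩
          · simp
        · show 4 = dim i.1 + 1
          rw [hd]
      · exact absurd rfl h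
      · exact absurd rfl h
    · obtain ⟨j, g, hj, rfl⟩ := exists_pt y hy
      rw [ep_pt hj] at h
      have h1 : ∃ e ∈ facL j, x = pt (e / 64) (g * lab (e / 2 % 32)) := by
        by_contra hcon
        apply h
        unfold epL
        apply List.sum_eq_zero
        intro z hz
        obtain ⟨e, he, rfl⟩ := List.mem_map.1 hz
        rw [if_neg (fun hx => hcon ⟨e, he, hx⟩)]
      obtain ⟨e, he, rfl⟩ := h1
      have h2 := all_range chkD_all (j := j) (by omega)
      unfold chkD at h2
      rw [List.all_eq_true] at h2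
      have h3 := h2 e he
      simp only [Bool.and_eq_true, Nat.beq_eq, mem_maskOf] at h3
      obtain ⟨h4, h5⟩ := h3
      have h6 := clo_facts (by omega) h4
      have e1 : e / 2 / 32 = e / 64 := by omega
      rw [e1] at h6
      have hle : pt (e / 64) (g * lab (e / 2 % 32)) ≤ pt j g := by
        rw [le_pt_iff hj]
        exact ⟨e / 2, h4, by rw [e1]⟩
      have hr : rk (pt j g) = rk (pt (e / 64) (g * lab (e / 2 % 32))) + 1 := by
        rw [rk_pt hj, rk_pt (by omega), h5]
      refine ⟨lt_of_le_of_ne hle ?_, hr⟩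
      intro heq
      rw [heq] at hr
      omega

theorem rk_smul (g : G0) (x : RX) : rk (g • x) = rk x := by
  rcases x with ⟨i, h⟩ | q | _ <;> rfl

theorem ep_smul (g : G0) (x y : RX) : ep (g • x) (g • y) = ep x y := by
  by_cases hy : y = kap
  · subst hy
    rcases x with ⟨i, h⟩ | q | _ <;> rfl
  · obtain ⟨j, h, hj, rfl⟩ := exists_pt y hy
    rw [smul_pt, ep_pt hj, ep_pt hj]
    unfold epL
    congr 1
    apply List.map_congr_left
    intro e _
    have : g • x = pt (e / 64) (g * h * lab (e / 2 % 32)) ↔
        x = pt (e / 64) (h * lab (e / 2 % 32)) := by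
      rw [mul_assoc, ← smul_pt]
      exact smul_left_cancel_iff g
    simp only [this]

theorem ori_smul (g : G0) (x : RX) : ori (g • x) = ori x := by
  rcases x with ⟨i, h⟩ | q | _ <;> rfl

theorem free_X (g : G0) (x : RX) (h1 : x ≠ kap) (h2 : x ∉ Zs) (h : g • x = x) : g = 1 := by
  rcases x with ⟨i, k⟩ | q | _
  · have h3 : RX.cell i (g * k) = RX.cell i k := h
    rw [RX.cell.injEq] at h3
    exact mul_eq_right.1 h3.2
  · exact absurd ⟨q, rfl⟩ h2
  · exact absurd rfl h1

theorem orb_X : Finite (MulAction.orbitRel.Quotient G0 RX) := by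
  apply Finite.of_surjective (fun o : Option (Fin 322) =>
    (Quotient.mk'' (match o with
      | none => kap
      | some j => pt j.1 1) : MulAction.orbitRel.Quotient G0 RX))
  intro y
  induction y using Quotient.inductionOn' with
  | h x =>
    by_cases hx : x = kap
    · subst hx
      exact ⟨none, rfl⟩
    · obtain ⟨j, h, hj, rfl⟩ := exists_pt x hx
      refine ⟨some ⟨j, by omega⟩, ?_⟩
      apply Quotient.sound'
      rw [MulAction.orbitRel_apply]
      refine ⟨h⁻¹, ?_⟩
      show h⁻¹ • pt j h = pt j 1
      rw [smul_pt, inv_mul_cancel]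

end Pool.Agent.Helper635.PD4.RX
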