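import Pool.Agent.Helper635_PD4.SqX
import Pool.Agent.Helper635_PD4.ModL
import Pool.Agent.Helper635_PD4.Intv

/-!
# Module H: local properties of the explicit poset (owner: helper635)
-/

open scoped Classical

namespace Pool.Agent.Helper635.PD4.RX

open Tab

/-- the elements of the extended poset -/
theorem re_cases (y : RE) : y = ⊥ ∨ y = tp ∨ ∃ x : RX, y = ce x := by
  induction y using WithBot.recBotCoe with
  | bot => exact Or.inl rfl
  | coe y =>
    induction y using WithTop.recTopCoe with
    | top => exact Or.inr (Or.inl rfl)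
    | coe y => exact Or.inr (Or.inr ⟨y, rfl⟩)

theorem ce_leL (x y : RX) : ce x ≤ ce y ↔ x ≤ y :=
  WithBot.coe_le_coe.trans WithTop.coe_le_coe

theorem le_tpL (y : RE) : y ≤ tp := by
  rcases re_cases y with rfl | rfl | ⟨x, rfl⟩
  · exact bot_le
  · exact le_rfl
  · exact WithBot.coe_le_coe.2 le_top

theorem ce_ne_bot (x : RX) : ce x ≠ ⊥ := WithBot.coe_ne_bot

/-- an interval with a collapsing sequence is good -/
theorem good_of_list (x y : RE) (L : List RE) (hL : ∀ v, v ∈ L ↔ v ∈ Set.Icc x y)
    (hc : Coll EX L) : Good EX x y := by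
  have hset : Set.Icc x y = {v | v ∈ L} := by
    ext v
    exact (hL v).symm
  have hfin : (Set.Icc x y).Finite := by
    rw [hset]; exact L.finite_toSet
  have hsq : Sq hfin.toFinset EX := by
    apply sq_X
    intro u hu w hw v huv hvw
    rw [Set.Finite.mem_toFinset] at hu hw ⊢
    exact ⟨hu.1.trans huv, hvw.trans hw.2⟩
  have hfs : hfin.toFinset = @List.toFinset RE (fun a b => Classical.propDecidable (a = b)) L := by
    ext v
    rw [Set.Finite.mem_toFinset]
    refine (hL v).symm.trans ?_
    exact (@List.mem_toFinset RE (fun a b => Classical.propDecidable (a = b)) L v).symm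
  refine ⟨hfin, hsq, ?_⟩
  rw [hfs] at hsq ⊢
  exact exa_coll EX L hc hsq

/-- elements of rank `4` are maximal -/
theorem max_of_rk {x y : RX} (hx : rk x = 4) (h : x ≤ y) : x = y := by
  by_contra hne
  have h1 := rk_lt (lt_of_le_of_ne h hne)
  have h2 : rk y ≤ 4 := by
    rcases y with ⟨i, g⟩ | q | _
    · show dim i.1 ≤ 4
      unfold dim; split_ifs <;> omega
    · exact le_refl _
    · exact le_refl _
  omega

theorem good_max (x : RX) (hx : rk x = 4) (ho : ori x = 1) (y : RE) (h : ce x < y) :
    Good EX (ce x) y := by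
  have hge : ∀ v : RE, ce x ≤ v → v = ce x ∨ v = tp := by
    intro v hv
    rcases re_cases v with rfl | rfl | ⟨w, rfl⟩
    · exact absurd (le_bot_iff.1 hv) (ce_ne_bot x)
    · exact Or.inr rfl
    · rw [ce_leL] at hv
      rw [max_of_rk hx hv]
      exact Or.inl rfl
  have hy : y = tp := by
    rcases hge y h.le with h1 | h1
    · exact absurd h1.symm h.ne
    · exact h1
  subst hy
  have hne : ce x ≠ tp := h.ne
  apply good_of_list (ce x) tp [tp, ce x]
  · intro v
    rw [List.mem_cons, List.mem_singleton]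
    constructor
    · rintro (rfl | rfl)
      · exact ⟨h.le, le_rfl⟩
      · exact ⟨le_rfl, h.le⟩
    · rintro ⟨h1, h2⟩
      exact (hge v h1).symm
  · refine ⟨Or.inl ?_, ?_, ?_, ?_, hne, ?_, ?_, ?_, ?_⟩
    · show ori x = 1
      exact ho
    · show ep x x = 0
      by_contra h1
      exact lt_irrefl _ (gr_X.ne x x h1).1
    · rfl
    · rfl
    · exact List.not_mem_nil
    · exact List.not_mem_nil
    · intro v hv; exact absurd hv List.not_mem_nil
    · trivial

theorem good_X (x y : WithBot (WithTop RX)) (hxy : x < y)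
    (h : ¬ (x = ⊥ ∧ (y = ((kap : WithTop RX) : WithBot (WithTop RX)) ∨
      y = ((⊤ : WithTop RX) : WithBot (WithTop RX))))) :
    Good (bE (aug (rkT 5 rk)) (tE ori ep)) x y := by
  rcases re_cases x with rfl | rfl | ⟨x, rfl⟩
  · rcases re_cases y with rfl | rfl | ⟨y, rfl⟩
    · exact absurd hxy (lt_irrefl _)
    · exact absurd ⟨rfl, Or.inr rfl⟩ h
    · have hk : y ≠ kap := by
        rintro rfl
        exact h ⟨rfl, Or.inl rfl⟩
      obtain ⟨j, g, hj, rfl⟩ := exists_pt y hk
      apply good_of_list _ _ ((CL j).map (pl g))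
      · intro v
        rw [List.mem_map]
        constructor
        · rintro ⟨c, hc, rfl⟩
          exact ⟨bot_le, (pl_iff hj g _).2 ⟨c, hc, rfl⟩⟩
        · rintro ⟨_, h2⟩
          obtain ⟨c, hc, rfl⟩ := (pl_iff hj g _).1 h2
          exact ⟨c, hc, rfl⟩
      · exact coll_map incL EX (pl g) (CL j) (pl_inj hj g) (pl_inc hj g) (coll_L (by omega))
  · exact absurd hxy (not_lt_of_ge (le_tpL y))
  · by_cases hk : x = kap
    · subst hk
      exact good_max kap rfl rfl y hxy
    · obtain ⟨i, g, hi, rfl⟩ := exists_pt x hk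
      rcases Nat.lt_or_ge i 321 with hi' | hi'
      · obtain ⟨f, hf, rfl⟩ := ph_surj hi' g y hxy.le
        have hne : f ≠ 32 * i := by
          rintro rfl
          rw [(ph_self hi' g).1] at hxy
          exact lt_irrefl _ hxy
        obtain ⟨I, hI, hc⟩ := coll_V hi' hf hne
        have hIV : ∀ e ∈ I, e ∈ VL i := fun e he => ((hI e).1 he).1
        apply good_of_list _ _ (I.map (ph g))
        · intro v
          rw [List.mem_map]
          constructor
          · rintro ⟨e, he, rfl⟩
            obtain ⟨h1, h2⟩ := (hI e).1 he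
            exact ⟨ph_ge hi' g e h1, (ph_le hi' g e h1 f hf).2 h2⟩
          · rintro ⟨h1, h2⟩
            obtain ⟨e, he, rfl⟩ := ph_surj hi' g v h1
            exact ⟨e, (hI e).2 ⟨he, (ph_le hi' g e he f hf).1 h2⟩, rfl⟩
        · exact coll_map incV EX (ph g) I
            (fun u hu v hv => ph_inj hi' g u (hIV u hu) v (hIV v hv))
            (fun u hu v hv => ph_inc hi' g u (hIV u hu) v (hIV v hv)) hc
      · have hi2 : i = 321 := by omega
        subst hi2
        apply good_max (pt 321 g) (rk_pt (le_refl _) g) _ y hxy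
        rw [pt_321]
        rfl

end Pool.Agent.Helper635.PD4.RX
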