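import Pool.Agent.Helper635_PD4.RXLoc
import Pool.Agent.Helper635_PD4.Clos
import Pool.Agent.Helper635_PD4.Dual

/-!
# Definitions of module S3 (copied from `RXSc`)
-/

open scoped Classical

namespace Pool.Agent.Helper635.PD4.RX

open Tab

/-- everything except `kap` -/
abbrev N0 : Type := {x : RX // x ≠ kap}

/-- the interior cells -/
def Sin : Set N0 := {x | ∃ i g, i ≤ 321 ∧ 274 ≤ i ∧ isX i = false ∧ x.1 = pt i g}

end Pool.Agent.Helper635.PD4.RX
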