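import Pool.Agent.Helper635_PD4.RXScS0
import Pool.Agent.Helper635_PD4.RXScDef

/-!
# Module S3: the interior cells are connected and simply connected
-/

open scoped Classical

set_option maxRecDepth 100000

namespace Pool.Agent.Helper635.PD4.RX

open Tab

namespace ScS

/-- the poset of interior cells -/
abbrev S : Type := {x : N0 // x ∈ Sin}

/-- interior cell numbers -/
def Int (i : ℕ) : Prop := i ≤ 321 ∧ isX i = false

theorem Int.ge {i : ℕ} (h : Int i) : 274 ≤ i := by
  have h1 := h.2
  unfold isX at h1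
  simp only [Bool.or_eq_false_iff] at h1
  have h2 := h1.1
  by_contra h3
  have : Nat.blt i 274 = true := by rw [Nat.blt_eq]; omega
  rw [this] at h2
  exact absurd h2 (by simp)

theorem int318 : Int 318 := ⟨by norm_num, rfl⟩

/-- the interior cell number `i` at `g` -/
noncomputable def sp (i : ℕ) (g : G0) : S :=
  if h : Int i then ⟨⟨pt i g, pt_ne_kap i g⟩, i, g, h.1, h.ge, h.2, rfl⟩
  else ⟨⟨pt 318 g, pt_ne_kap 318 g⟩, 318, g, int318.1, int318.ge, int318.2, rfl⟩

theorem sp_val {i : ℕ} (h : Int i) (g : G0) : (sp i g).1.1 = pt i g := by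
  unfold sp
  rw [dif_pos h]

theorem exists_sp (x : S) : ∃ i g, Int i ∧ x = sp i g := by
  obtain ⟨i, g, h1, h2, h3, h4⟩ := x.2
  refine ⟨i, g, ⟨h1, h3⟩, ?_⟩
  apply Subtype.ext
  apply Subtype.ext
  rw [sp_val ⟨h1, h3⟩, h4]

theorem le_iff (x y : S) : x ≤ y ↔ x.1.1 ≤ y.1.1 := Iff.rfl

theorem sp_eq_iff {i j : ℕ} (hi : Int i) (hj : Int j) (g h : G0) :
    sp i g = sp j h ↔ i = j ∧ (g = h ∨ (i = 321 ∧ g⁻¹ * h ∈ T2)) := by
  rw [← pt_eq_iff hi.1 hj.1, ← sp_val hi, ← sp_val hj]
  constructor
  · intro h; rw [h]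
  · intro h; exact Subtype.ext (Subtype.ext h)

theorem sp_le {j : ℕ} (hj : Int j) {h : G0} {x : S} (hle : x ≤ sp j h) :
    ∃ c ∈ cloL j, Int (c / 32) ∧ x = sp (c / 32) (h * lab (c % 32)) := by
  obtain ⟨i, g, hi, rfl⟩ := exists_sp x
  rw [le_iff, sp_val hi, sp_val hj, le_pt_iff hj.1] at hle
  obtain ⟨c, hc, hcc⟩ := hle
  obtain ⟨h1, h2, h3, h4⟩ := clo_facts (j := j) (by have := hj.1; omega) hc
  have h5 := hcc
  rw [pt_eq_iff hi.1 (by omega)] at h5
  have h6 : Int (c / 32) := by rw [← h5.1]; exact hi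
  refine ⟨c, hc, h6, Subtype.ext (Subtype.ext ?_)⟩
  rw [sp_val hi, sp_val h6, hcc]

theorem rel_spec {i l j : ℕ} (h : (i, l, j) ∈ relsS) :
    32 * i + l ∈ cloL j ∧ l < 32 ∧ Int i ∧ Int j := by
  have h1 := (List.all_eq_true.1 relsS_ok) (i, l, j) h
  simp only [Bool.and_eq_true, Nat.blt_eq, Nat.ble_eq, Bool.not_eq_true', mem_maskOf] at h1
  obtain ⟨⟨⟨⟨h2, h3⟩, h4⟩, h5⟩, h6⟩ := h1
  have h7 := clo_facts (j := j) (by omega) h2
  have h8 : (32 * i + l) / 32 = i := by omega
  rw [h8] at h7
  exact ⟨h2, h3, ⟨by omega, h5⟩, ⟨h4, h6⟩⟩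

theorem rel_le {i l j : ℕ} (h : (i, l, j) ∈ relsS) {g k : G0} (hk : k = g * lab l) :
    sp i k ≤ sp j g := by
  obtain ⟨h1, h2, h3, h4⟩ := rel_spec h
  rw [le_iff, sp_val h3, sp_val h4, le_pt_iff h4.1]
  refine ⟨_, h1, ?_⟩
  have e1 : (32 * i + l) / 32 = i := by omega
  have e2 : (32 * i + l) % 32 = l := by omega
  rw [e1, e2, hk]

theorem rel_le0 {i j : ℕ} (h : (i, 0, j) ∈ relsS) (g : G0) : sp i g ≤ sp j g :=
  rel_le h (by simp [lab])

theorem t_eq : gt * gd * gc = gc * gd := by
  have : gt = gc * gd * gc⁻¹ * gd⁻¹ := rfl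
  rw [this]; group

theorem sp_321_t (g : G0) : sp 321 (g * gt) = sp 321 g := by
  rw [sp_eq_iff ⟨by norm_num, rfl⟩ ⟨by norm_num, rfl⟩]
  refine ⟨rfl, Or.inr ⟨rfl, ?_⟩⟩
  have h : (g * gt)⁻¹ * g = gt⁻¹ := by group
  rw [h]
  exact Subgroup.inv_mem _ (Subgroup.mem_zpowers gt)

/-! ### cocycles -/

section

variable {H : Type} [Group H] (φ : S → S → H)

/-- the transition element along the edge `e` (generator `x`) -/
noncomputable def tau (e : ℕ) (x g : G0) : H :=
  (φ (sp e g) (sp 318 g))⁻¹ * φ (sp e g) (sp 318 (g * x))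

/-- the comparison of a vertex and a face centre along a segment -/
noncomputable def PQ (y l F : ℕ) (m : G0) : H :=
  (φ (sp y (m * lab l)) (sp F m))⁻¹ * φ (sp y (m * lab l)) (sp 318 (m * lab l))

variable {φ} (hφ : ∀ x y z : S, x ≤ y → y ≤ z → φ x z = φ x y * φ y z)

include hφ

theorem phi_self (x : S) : φ x x = 1 := by
  have h := hφ x x x le_rfl le_rfl
  exact (left_eq_mul.1 h)

theorem cocT {s E V V' y1 y2 F : S} (h1 : s ≤ E) (h2 : E ≤ V) (h3 : E ≤ V') (h4 : s ≤ y1)
    (h5 : y1 ≤ V) (h6 : s ≤ y2) (h7 : y2 ≤ V') (h8 : y1 ≤ F) (h9 : y2 ≤ F) :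
    (φ E V)⁻¹ * φ E V' = ((φ y1 F)⁻¹ * φ y1 V)⁻¹ * ((φ y2 F)⁻¹ * φ y2 V') := by
  have a1 : φ s E * φ E V = φ s y1 * φ y1 V := by rw [← hφ _ _ _ h1 h2, ← hφ _ _ _ h4 h5]
  have a2 : φ s E * φ E V' = φ s y2 * φ y2 V' := by rw [← hφ _ _ _ h1 h3, ← hφ _ _ _ h6 h7]
  have a3 : φ s y1 * φ y1 F = φ s y2 * φ y2 F := by rw [← hφ _ _ _ h4 h8, ← hφ _ _ _ h6 h9]
  have b1 : φ E V = (φ s E)⁻¹ * (φ s y1 * φ y1 V) := by rw [← a1]; group
  have b2 : φ E V' = (φ s E)⁻¹ * (φ s y2 * φ y2 V') := by rw [← a2]; group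
  have b3 : φ s y2 = φ s y1 * φ y1 F * (φ y2 F)⁻¹ := by rw [a3]; group
  rw [b1, b2, b3]
  group

theorem tauT {e s y1 y2 F li l1 l2 : ℕ} {x : G0} (hx : lab li = x⁻¹)
    (r1 : (s, 0, e) ∈ relsS) (r2 : (e, 0, 318) ∈ relsS) (r3 : (e, li, 318) ∈ relsS)
    (r4 : (s, 0, y1) ∈ relsS) (r5 : (y1, 0, 318) ∈ relsS) (r6 : (s, li, y2) ∈ relsS)
    (r7 : (y2, 0, 318) ∈ relsS) (r8 : (y1, l1, F) ∈ relsS) (r9 : (y2, l2, F) ∈ relsS)
    {k m : G0} (hk : k = m * lab l1) (hkx : k * x = m * lab l2) :
    tau φ e x k = (PQ φ y1 l1 F m)⁻¹ * PQ φ y2 l2 F m := by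
  unfold tau PQ
  rw [← hk, ← hkx]
  have hb : k = k * x * lab li := by rw [hx]; group
  exact cocT hφ (rel_le0 r1 k) (rel_le0 r2 k) (rel_le r3 hb) (rel_le0 r4 k) (rel_le0 r5 k)
    (rel_le r6 hb) (rel_le0 r7 _) (rel_le r8 hk) (rel_le r9 hkx)

theorem relA (g : G0) : tau φ 301 ga g * tau φ 303 gc (g * ga) =
    tau φ 303 gc g * tau φ 301 ga (g * gc) * tau φ 301 ga (g * gc * ga) := by
  have t1 : tau φ 301 ga g = (PQ φ 305 0 319 g)⁻¹ * PQ φ 306 1 319 g :=
    tauT hφ (s := 274) (li := 13) rfl (by decide) (by decide) (by decide) (by decide)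
      (by decide) (by decide) (by decide) (by decide) (by decide) (by simp [lab]) (by simp [lab])
  have t2 : tau φ 303 gc (g * ga) = (PQ φ 306 1 319 g)⁻¹ * PQ φ 307 5 319 g :=
    tauT hφ (s := 284) (li := 15) rfl (by decide) (by decide) (by decide) (by decide)
      (by decide) (by decide) (by decide) (by decide) (by decide) (by simp [lab])
      (by simp [lab, mul_assoc])
  have t3 : tau φ 303 gc g = (PQ φ 305 0 319 g)⁻¹ * PQ φ 309 3 319 g :=
    tauT hφ (s := 280) (li := 15) rfl (by decide) (by decide) (by decide) (by decide)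
      (by decide) (by decide) (by decide) (by decide) (by decide) (by simp [lab])
      (by simp [lab])
  have t4 : tau φ 301 ga (g * gc) = (PQ φ 309 3 319 g)⁻¹ * PQ φ 308 6 319 g :=
    tauT hφ (s := 277) (li := 13) rfl (by decide) (by decide) (by decide) (by decide)
      (by decide) (by decide) (by decide) (by decide) (by decide) (by simp [lab])
      (by simp [lab, mul_assoc])
  have t5 : tau φ 301 ga (g * gc * ga) = (PQ φ 308 6 319 g)⁻¹ * PQ φ 307 5 319 g :=
    tauT hφ (s := 275) (li := 13) rfl (by decide) (by decide) (by decide) (by decide)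
      (by decide) (by decide) (by decide) (by decide) (by decide) (by simp [lab, mul_assoc])
      (by
        have h := rel_ac
        simp only [lab]
        rw [h]
        simp [mul_assoc])
  rw [t1, t2, t3, t4, t5]
  group

theorem relB (g : G0) : tau φ 301 ga g * tau φ 302 gb (g * ga) =
    tau φ 302 gb g * tau φ 303 gc (g * gb) := by
  have t1 : tau φ 301 ga g = (PQ φ 310 0 320 g)⁻¹ * PQ φ 311 1 320 g :=
    tauT hφ (s := 276) (li := 13) rfl (by decide) (by decide) (by decide) (by decide)
      (by decide) (by decide) (by decide) (by decide) (by decide) (by simp [lab]) (by simp [lab])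
  have t2 : tau φ 302 gb (g * ga) = (PQ φ 311 1 320 g)⁻¹ * PQ φ 312 7 320 g :=
    tauT hφ (s := 279) (li := 14) rfl (by decide) (by decide) (by decide) (by decide)
      (by decide) (by decide) (by decide) (by decide) (by decide) (by simp [lab])
      (by simp [lab, mul_assoc])
  have t3 : tau φ 302 gb g = (PQ φ 310 0 320 g)⁻¹ * PQ φ 313 2 320 g :=
    tauT hφ (s := 278) (li := 14) rfl (by decide) (by decide) (by decide) (by decide)
      (by decide) (by decide) (by decide) (by decide) (by decide) (by simp [lab])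
      (by simp [lab])
  have t4 : tau φ 303 gc (g * gb) = (PQ φ 313 2 320 g)⁻¹ * PQ φ 312 7 320 g :=
    tauT hφ (s := 281) (li := 15) rfl (by decide) (by decide) (by decide) (by decide)
      (by decide) (by decide) (by decide) (by decide) (by decide) (by simp [lab])
      (by
        have h := rel_ab
        simp only [lab]
        rw [h]
        simp [mul_assoc])
  rw [t1, t2, t3, t4]
  group

theorem relC0 (g : G0) : tau φ 303 gc g * tau φ 304 gd (g * gc) *
    (tau φ 303 gc (g * gt * gd))⁻¹ * (tau φ 304 gd (g * gt))⁻¹ =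
    (PQ φ 314 0 321 g)⁻¹ * PQ φ 314 10 321 g := by
  have t1 : tau φ 303 gc g = (PQ φ 314 0 321 g)⁻¹ * PQ φ 315 3 321 g :=
    tauT hφ (s := 282) (li := 15) rfl (by decide) (by decide) (by decide) (by decide)
      (by decide) (by decide) (by decide) (by decide) (by decide) (by simp [lab]) (by simp [lab])
  have t2 : tau φ 304 gd (g * gc) = (PQ φ 315 3 321 g)⁻¹ * PQ φ 316 8 321 g :=
    tauT hφ (s := 286) (li := 16) rfl (by decide) (by decide) (by decide) (by decide)
      (by decide) (by decide) (by decide) (by decide) (by decide) (by simp [lab])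
      (by simp [lab, mul_assoc])
  have t3 : tau φ 303 gc (g * gt * gd) = (PQ φ 317 9 321 g)⁻¹ * PQ φ 316 8 321 g :=
    tauT hφ (s := 283) (li := 15) rfl (by decide) (by decide) (by decide) (by decide)
      (by decide) (by decide) (by decide) (by decide) (by decide) (by simp [lab, mul_assoc])
      (by
        simp only [lab]
        rw [← t_eq]
        simp [mul_assoc])
  have t4 : tau φ 304 gd (g * gt) = (PQ φ 314 10 321 g)⁻¹ * PQ φ 317 9 321 g :=
    tauT hφ (s := 285) (li := 16) rfl (by decide) (by decide) (by decide) (by decide)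
      (by decide) (by decide) (by decide) (by decide) (by decide) (by simp [lab])
      (by simp [lab, mul_assoc])
  rw [t1, t2, t3, t4]
  group

theorem relC (g : G0) :
    (tau φ 303 gc g * tau φ 304 gd (g * gc) *
      (tau φ 303 gc (g * gt * gd))⁻¹ * (tau φ 304 gd (g * gt))⁻¹) *
    (tau φ 303 gc (g * gt) * tau φ 304 gd (g * gt * gc) *
      (tau φ 303 gc (g * gt * gt * gd))⁻¹ * (tau φ 304 gd (g * gt * gt))⁻¹) = 1 := by
  rw [relC0 hφ g, relC0 hφ (g * gt)]
  have h1 : PQ φ 314 0 321 (g * gt) = PQ φ 314 10 321 g := by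
    unfold PQ
    rw [sp_321_t]
    simp only [lab, mul_one]
  have h2 : PQ φ 314 10 321 (g * gt) = PQ φ 314 0 321 g := by
    unfold PQ
    rw [sp_321_t]
    simp only [lab, mul_one]
    rw [mul_assoc g, gt_sq, mul_one]
  rw [h1, h2]
  group

omit hφ in
variable (φ) in
/-- the permutation attached to an edge -/
noncomputable def PP (e : ℕ) (x : G0) : Equiv.Perm (G0 × H) where
  toFun q := (q.1 * x, q.2 * tau φ e x q.1)
  invFun q := (q.1 * x⁻¹, q.2 * (tau φ e x (q.1 * x⁻¹))⁻¹)
  left_inv := by rintro ⟨g, h⟩; simp [mul_assoc]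
  right_inv := by rintro ⟨g, h⟩; simp [mul_assoc]

omit hφ in
theorem PP_apply (e : ℕ) (x g : G0) (h : H) : PP φ e x (g, h) = (g * x, h * tau φ e x g) := rfl

omit hφ in
theorem PP_inv (e : ℕ) (x g : G0) (h : H) :
    (PP φ e x)⁻¹ (g, h) = (g * x⁻¹, h * (tau φ e x (g * x⁻¹))⁻¹) := rfl

theorem exists_fV : ∃ fV : G0 → H, ∀ g, fV (g * ga) = fV g * tau φ 301 ga g ∧
    fV (g * gb) = fV g * tau φ 302 gb g ∧ fV (g * gc) = fV g * tau φ 303 gc g ∧
    fV (g * gd) = fV g * tau φ 304 gd g := by
  obtain ⟨f, fa, fb, fc, fd⟩ := G0_lift (H := (Equiv.Perm (G0 × H))ᵐᵒᵖ)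
    (MulOpposite.op (PP φ 301 ga)) (MulOpposite.op (PP φ 302 gb)) (MulOpposite.op (PP φ 303 gc))
    (MulOpposite.op (PP φ 304 gd)) (by
      rw [← MulOpposite.op_mul, ← MulOpposite.op_mul, ← MulOpposite.op_mul]
      congr 1
      apply Equiv.ext
      rintro ⟨g, h⟩
      rw [Equiv.Perm.mul_apply, Equiv.Perm.mul_apply, Equiv.Perm.mul_apply, PP_apply, PP_apply,
        PP_apply, PP_apply, PP_apply]
      ext1
      · show g * ga * gc = g * gc * ga * ga
        rw [mul_assoc, rel_ac]
        simp only [mul_assoc]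
      · show h * tau φ 301 ga g * tau φ 303 gc (g * ga) = h * tau φ 303 gc g *
          tau φ 301 ga (g * gc) * tau φ 301 ga (g * gc * ga)
        rw [mul_assoc, relA hφ]
        simp only [mul_assoc]) (by
      rw [← MulOpposite.op_mul, ← MulOpposite.op_mul]
      congr 1
      apply Equiv.ext
      rintro ⟨g, h⟩
      rw [Equiv.Perm.mul_apply, Equiv.Perm.mul_apply, PP_apply, PP_apply,
        PP_apply, PP_apply]
      ext1
      · show g * ga * gb = g * gb * gc
        rw [mul_assoc, rel_ab]
        simp only [mul_assoc]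
      · show h * tau φ 301 ga g * tau φ 302 gb (g * ga) = h * tau φ 302 gb g *
          tau φ 303 gc (g * gb)
        rw [mul_assoc, relB hφ]
        simp only [mul_assoc]) (by
      rw [← MulOpposite.op_mul, ← MulOpposite.op_inv, ← MulOpposite.op_inv,
        ← MulOpposite.op_mul, ← MulOpposite.op_mul, ← MulOpposite.op_mul, ← MulOpposite.op_one]
      congr 1
      have hk : ∀ (g : G0) (h : H), ((PP φ 304 gd)⁻¹ * ((PP φ 303 gc)⁻¹ *
          (PP φ 304 gd * PP φ 303 gc))) (g, h) =
          (g * gt, h * (tau φ 303 gc g * tau φ 304 gd (g * gc) *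
            (tau φ 303 gc (g * gt * gd))⁻¹ * (tau φ 304 gd (g * gt))⁻¹)) := by
        intro g h
        have e1 : g * gc * gd * gc⁻¹ = g * gt * gd := by
          have : gt = gc * gd * gc⁻¹ * gd⁻¹ := rfl
          rw [this]; group
        have e2 : g * gt * gd * gd⁻¹ = g * gt := by group
        rw [Equiv.Perm.mul_apply, Equiv.Perm.mul_apply, Equiv.Perm.mul_apply, PP_apply, PP_apply,
          PP_inv, PP_inv, e1, e2]
        simp only [mul_assoc]
      apply Equiv.ext
      rintro ⟨g, h⟩
      rw [Equiv.Perm.mul_apply, hk, hk, Equiv.Perm.one_apply]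
      ext1
      · show g * gt * gt = g
        rw [mul_assoc, gt_sq, mul_one]
      · show h * _ * _ = h
        rw [mul_assoc, relC hφ, mul_one])
  have hfst : ∀ g : G0, ∀ q : G0 × H, ((f g).unop q).1 = q.1 * g := by
    intro g
    have hg : g ∈ Subgroup.closure {ga, gb, gc, gd} := by rw [G0_gen]; trivial
    induction hg using Subgroup.closure_induction with
    | mem x hx =>
      rcases hx with rfl | rfl | rfl | rfl
      · intro q; rw [fa]; rfl
      · intro q; rw [fb]; rfl
      · intro q; rw [fc]; rfl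
      · intro q; rw [fd]; rfl
    | one => intro q; rw [map_one]; simp
    | mul x y _ _ hx hy =>
      intro q
      rw [map_mul, MulOpposite.unop_mul, Equiv.Perm.mul_apply, hy, hx, mul_assoc]
    | inv x _ hx =>
      intro q
      rw [map_inv, MulOpposite.unop_inv]
      have h2 := hx ((f x).unop⁻¹ q)
      have e : (f x).unop ((f x).unop⁻¹ q) = q := Equiv.apply_symm_apply _ _
      rw [e] at h2
      rw [h2]
      simp
  refine ⟨fun g => ((f g).unop (1, 1)).2, fun g => ?_⟩
  have key : ∀ (e : ℕ) (x : G0), f x = MulOpposite.op (PP φ e x) →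
      ((f (g * x)).unop (1, 1)).2 = ((f g).unop (1, 1)).2 * tau φ e x g := by
    intro e x hx
    rw [map_mul, MulOpposite.unop_mul, Equiv.Perm.mul_apply, hx, MulOpposite.unop_op]
    have h3 := hfst g (1, 1)
    have h4 : (f g).unop (1, 1) = (g, ((f g).unop (1, 1)).2) := by
      ext1
      · rw [h3]; exact one_mul g
      · rfl
    rw [h4, PP_apply]
  exact ⟨key _ _ fa, key _ _ fb, key _ _ fc, key _ _ fd⟩

end

/-! ### the potential -/

section

variable {H : Type} [Group H] (φ : S → S → H) (fV : G0 → H)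

/-- value at a low cell -/
noncomputable def lv (i : ℕ) (g : G0) : H := fV g * (φ (sp i g) (sp 318 g))⁻¹

/-- value at a cell -/
noncomputable def val (i : ℕ) (g : G0) : H :=
  if i = 319 then lv φ fV 305 g * φ (sp 305 g) (sp 319 g)
  else if i = 320 then lv φ fV 310 g * φ (sp 310 g) (sp 320 g)
  else if i = 321 then lv φ fV 314 g * φ (sp 314 g) (sp 321 g)
  else lv φ fV i g

/-- value at a face centre through a segment -/
noncomputable def WF (y l F : ℕ) (m : G0) : H :=
  lv φ fV y (m * lab l) * φ (sp y (m * lab l)) (sp F m)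

variable {φ} {fV} (hφ : ∀ x y z : S, x ≤ y → y ≤ z → φ x z = φ x y * φ y z)
  (hV : ∀ g, fV (g * ga) = fV g * tau φ 301 ga g ∧
    fV (g * gb) = fV g * tau φ 302 gb g ∧ fV (g * gc) = fV g * tau φ 303 gc g ∧
    fV (g * gd) = fV g * tau φ 304 gd g)

include hφ

theorem edge_val {e : ℕ} {x k : G0} (r2 : (e, 0, 318) ∈ relsS) {li : ℕ} (hx : lab li = x⁻¹)
    (r3 : (e, li, 318) ∈ relsS) (h1 : fV (k * x) = fV k * tau φ e x k) {s : S}
    (hs : s ≤ sp e k) :
    fV k * (φ s (sp 318 k))⁻¹ = fV (k * x) * (φ s (sp 318 (k * x)))⁻¹ := by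
  have hb : k = k * x * lab li := by rw [hx]; group
  rw [h1, hφ _ _ _ hs (rel_le0 r2 k), hφ _ _ _ hs (rel_le r3 hb)]
  unfold tau
  group

omit hφ in
theorem low_rel {i : ℕ} (hi : Int i) (h : i < 318) : (i, 0, 318) ∈ relsS := by
  have h1 := all_range low_ok h
  simp only [hi.2, Bool.false_or, List.contains_iff_mem] at h1
  exact h1

include hV

theorem lowA {i : ℕ} (hi : Int i) (hi' : i ≤ 318) {k h : G0} (hle : sp i k ≤ sp 318 h) :
    lv φ fV i k = fV h * (φ (sp i k) (sp 318 h))⁻¹ := by
  obtain ⟨c, hc, hc1, hc2⟩ := sp_le int318 hle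
  rw [sp_eq_iff hi hc1] at hc2
  obtain ⟨hc3, hc4⟩ := hc2
  have hk : k = h * lab (c % 32) := by
    rcases hc4 with h1 | h1
    · exact h1
    · omega
  have h2 := (List.all_eq_true.1 (show (cloL 318).all _ = true from chkVS_ok)) c hc
  rw [← hc3] at h2
  simp only [Bool.or_eq_true, Bool.and_eq_true, Nat.beq_eq, Nat.ble_eq, hi.2, Bool.false_eq_true,
    false_or] at h2
  rcases h2 with (((h2 | ⟨h2, h3⟩) | ⟨h2, h3⟩) | ⟨h2, h3⟩) | ⟨h2, h3⟩
  · rw [h2] at hk
    have : k = h := by rw [hk]; exact mul_one h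
    rw [this]
    rfl
  · rw [h2] at hk
    have hh : h = k * ga := by rw [hk]; show h = h * ga⁻¹ * ga; group
    have hs : sp i k ≤ sp 301 k := by
      rcases h3 with h3 | h3
      · rw [h3]
      · have : i = 274 ∨ i = 275 ∨ i = 276 ∨ i = 277 := by omega
        rcases this with rfl | rfl | rfl | rfl <;> exact rel_le0 (by decide) k
    rw [hh]
    exact edge_val hφ (e := 301) (li := 13) (by decide) rfl (by decide) (hV k).1 hs
  · rw [h2] at hk
    have hh : h = k * gb := by rw [hk]; show h = h * gb⁻¹ * gb; group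
    have hs : sp i k ≤ sp 302 k := by
      rcases h3 with h3 | h3
      · rw [h3]
      · have : i = 278 ∨ i = 279 := by omega
        rcases this with rfl | rfl <;> exact rel_le0 (by decide) k
    rw [hh]
    exact edge_val hφ (e := 302) (li := 14) (by decide) rfl (by decide) (hV k).2.1 hs
  · rw [h2] at hk
    have hh : h = k * gc := by rw [hk]; show h = h * gc⁻¹ * gc; group
    have hs : sp i k ≤ sp 303 k := by
      rcases h3 with h3 | h3
      · rw [h3]
      · have : i = 280 ∨ i = 281 ∨ i = 282 ∨ i = 283 ∨ i = 284 := by omega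
        rcases this with rfl | rfl | rfl | rfl | rfl <;> exact rel_le0 (by decide) k
    rw [hh]
    exact edge_val hφ (e := 303) (li := 15) (by decide) rfl (by decide) (hV k).2.2.1 hs
  · rw [h2] at hk
    have hh : h = k * gd := by rw [hk]; show h = h * gd⁻¹ * gd; group
    have hs : sp i k ≤ sp 304 k := by
      rcases h3 with h3 | h3
      · rw [h3]
      · have : i = 285 ∨ i = 286 := by omega
        rcases this with rfl | rfl <;> exact rel_le0 (by decide) k
    rw [hh]
    exact edge_val hφ (e := 304) (li := 16) (by decide) rfl (by decide) (hV k).2.2.2 hs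

theorem low_coc {i j : ℕ} (hi : Int i) (hi' : i ≤ 318) (hj : Int j) (hj' : j ≤ 318) {g h : G0}
    (hle : sp i g ≤ sp j h) : φ (sp i g) (sp j h) = (lv φ fV i g)⁻¹ * lv φ fV j h := by
  have h1 : sp j h ≤ sp 318 h := by
    rcases lt_or_eq_of_le hj' with h2 | h2
    · exact rel_le0 (low_rel hj h2) h
    · rw [h2]
  rw [lowA hφ hV hi hi' (hle.trans h1), lowA hφ hV hj hj' h1, hφ _ _ _ hle h1]
  group

theorem chainL {s y1 y2 F li l1 l2 : ℕ} (r4 : (s, 0, y1) ∈ relsS) (r6 : (s, li, y2) ∈ relsS)
    (r8 : (y1, l1, F) ∈ relsS) (r9 : (y2, l2, F) ∈ relsS) (hs : s ≤ 318) (hy1 : y1 ≤ 318)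
    (hy2 : y2 ≤ 318) (hl : lab l1 = lab l2 * lab li) (m : G0) :
    WF φ fV y1 l1 F m = WF φ fV y2 l2 F m := by
  unfold WF
  have i1 := (rel_spec r4).2.2
  have i2 := (rel_spec r6).2.2
  have a1 : sp s (m * lab l1) ≤ sp y1 (m * lab l1) := rel_le0 r4 _
  have a2 : sp s (m * lab l1) ≤ sp y2 (m * lab l2) := rel_le r6 (by rw [hl, mul_assoc])
  have a3 : sp y1 (m * lab l1) ≤ sp F m := rel_le r8 rfl
  have a4 : sp y2 (m * lab l2) ≤ sp F m := rel_le r9 rfl
  have b1 := low_coc hφ hV i1.1 hs i1.2 hy1 a1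
  have b2 := low_coc hφ hV i2.1 hs i2.2 hy2 a2
  have b3 : φ (sp s (m * lab l1)) (sp y1 (m * lab l1)) * φ (sp y1 (m * lab l1)) (sp F m) =
      φ (sp s (m * lab l1)) (sp y2 (m * lab l2)) * φ (sp y2 (m * lab l2)) (sp F m) := by
    rw [← hφ _ _ _ a1 a3, ← hφ _ _ _ a2 a4]
  rw [b1, b2, mul_assoc, mul_assoc] at b3
  exact mul_left_cancel b3

theorem face_val {F : ℕ} (hF : F = 319 ∨ F = 320 ∨ F = 321) {p : ℕ × ℕ} (hp : p ∈ segL F)
    (m : G0) : WF φ fV p.1 p.2 F m = val φ fV F m := by
  have e2 : gc * gd * gc⁻¹ = gt * gd := by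
    have : gt = gc * gd * gc⁻¹ * gd⁻¹ := rfl
    rw [this]; group
  rcases hF with rfl | rfl | rfl
  · have c1 : WF φ fV 305 0 319 m = WF φ fV 306 1 319 m :=
      chainL hφ hV (s := 274) (li := 13) (by decide) (by decide) (by decide) (by decide)
        (by norm_num) (by norm_num) (by norm_num) (by show (1 : G0) = ga * ga⁻¹; group) m
    have c2 : WF φ fV 306 1 319 m = WF φ fV 307 5 319 m :=
      chainL hφ hV (s := 284) (li := 15) (by decide) (by decide) (by decide) (by decide)
        (by norm_num) (by norm_num) (by norm_num) (by show ga = ga * gc * gc⁻¹; group) m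
    have c3 : WF φ fV 305 0 319 m = WF φ fV 309 3 319 m :=
      chainL hφ hV (s := 280) (li := 15) (by decide) (by decide) (by decide) (by decide)
        (by norm_num) (by norm_num) (by norm_num) (by show (1 : G0) = gc * gc⁻¹; group) m
    have c4 : WF φ fV 309 3 319 m = WF φ fV 308 6 319 m :=
      chainL hφ hV (s := 277) (li := 13) (by decide) (by decide) (by decide) (by decide)
        (by norm_num) (by norm_num) (by norm_num) (by show gc = gc * ga * ga⁻¹; group) m
    have c0 : WF φ fV 305 0 319 m = val φ fV 319 m := by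
      unfold WF val
      simp only [lab, mul_one, if_true]
    simp only [segL, List.mem_cons, List.not_mem_nil, or_false] at hp
    rcases hp with rfl | rfl | rfl | rfl | rfl
    · exact c0
    · exact c1.symm.trans c0
    · exact (c1.trans c2).symm.trans c0
    · exact (c3.trans c4).symm.trans c0
    · exact c3.symm.trans c0
  · have c1 : WF φ fV 310 0 320 m = WF φ fV 311 1 320 m :=
      chainL hφ hV (s := 276) (li := 13) (by decide) (by decide) (by decide) (by decide)
        (by norm_num) (by norm_num) (by norm_num) (by show (1 : G0) = ga * ga⁻¹; group) m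
    have c2 : WF φ fV 311 1 320 m = WF φ fV 312 7 320 m :=
      chainL hφ hV (s := 279) (li := 14) (by decide) (by decide) (by decide) (by decide)
        (by norm_num) (by norm_num) (by norm_num) (by show ga = ga * gb * gb⁻¹; group) m
    have c3 : WF φ fV 310 0 320 m = WF φ fV 313 2 320 m :=
      chainL hφ hV (s := 278) (li := 14) (by decide) (by decide) (by decide) (by decide)
        (by norm_num) (by norm_num) (by norm_num) (by show (1 : G0) = gb * gb⁻¹; group) m
    have c0 : WF φ fV 310 0 320 m = val φ fV 320 m := by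
      unfold WF val
      simp [lab]
    simp only [segL, List.mem_cons, List.not_mem_nil, or_false] at hp
    rcases hp with rfl | rfl | rfl | rfl
    · exact c0
    · exact c1.symm.trans c0
    · exact (c1.trans c2).symm.trans c0
    · exact c3.symm.trans c0
  · have c1 : WF φ fV 314 0 321 m = WF φ fV 315 3 321 m :=
      chainL hφ hV (s := 282) (li := 15) (by decide) (by decide) (by decide) (by decide)
        (by norm_num) (by norm_num) (by norm_num) (by show (1 : G0) = gc * gc⁻¹; group) m
    have c2 : WF φ fV 315 3 321 m = WF φ fV 316 8 321 m :=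
      chainL hφ hV (s := 286) (li := 16) (by decide) (by decide) (by decide) (by decide)
        (by norm_num) (by norm_num) (by norm_num) (by show gc = gc * gd * gd⁻¹; group) m
    have c3 : WF φ fV 317 9 321 m = WF φ fV 316 8 321 m :=
      chainL hφ hV (s := 283) (li := 15) (by decide) (by decide) (by decide) (by decide)
        (by norm_num) (by norm_num) (by norm_num) (by show gt * gd = gc * gd * gc⁻¹; exact e2.symm) m
    have c4 : WF φ fV 314 10 321 m = WF φ fV 317 9 321 m :=
      chainL hφ hV (s := 285) (li := 16) (by decide) (by decide) (by decide) (by decide)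
        (by norm_num) (by norm_num) (by norm_num) (by show gt = gt * gd * gd⁻¹; group) m
    have c5 : WF φ fV 314 10 321 m = WF φ fV 315 11 321 m :=
      chainL hφ hV (s := 282) (li := 15) (by decide) (by decide) (by decide) (by decide)
        (by norm_num) (by norm_num) (by norm_num) (by show gt = gt * gc * gc⁻¹; group) m
    have c6 : WF φ fV 315 11 321 m = WF φ fV 316 12 321 m :=
      chainL hφ hV (s := 286) (li := 16) (by decide) (by decide) (by decide) (by decide)
        (by norm_num) (by norm_num) (by norm_num) (by show gt * gc = gt * gc * gd * gd⁻¹; group) m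
    have c7 : WF φ fV 317 4 321 m = WF φ fV 316 12 321 m :=
      chainL hφ hV (s := 283) (li := 15) (by decide) (by decide) (by decide) (by decide)
        (by norm_num) (by norm_num) (by norm_num) (by
          show gd = gt * gc * gd * gc⁻¹
          rw [mul_assoc gt, mul_assoc gt, e2, ← mul_assoc, gt_sq, one_mul]) m
    have c0 : WF φ fV 314 0 321 m = val φ fV 321 m := by
      unfold WF val
      simp [lab]
    have d2 : WF φ fV 316 8 321 m = val φ fV 321 m := (c1.trans c2).symm.trans c0
    have d3 : WF φ fV 317 9 321 m = val φ fV 321 m := c3.trans d2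
    have d4 : WF φ fV 314 10 321 m = val φ fV 321 m := c4.trans d3
    have d5 : WF φ fV 315 11 321 m = val φ fV 321 m := c5.symm.trans d4
    have d6 : WF φ fV 316 12 321 m = val φ fV 321 m := c6.symm.trans d5
    simp only [segL, List.mem_cons, List.not_mem_nil, or_false] at hp
    rcases hp with rfl | rfl | rfl | rfl | rfl | rfl | rfl | rfl
    · exact c0
    · exact c1.symm.trans c0
    · exact d2
    · exact d3
    · exact d4
    · exact d5
    · exact d6
    · exact c7.trans d6

theorem val_t (m : G0) : val φ fV 321 (m * gt) = val φ fV 321 m := by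
  have h1 : WF φ fV 314 0 321 (m * gt) = WF φ fV 314 10 321 m := by
    unfold WF
    rw [sp_321_t]
    simp only [lab, mul_one]
  rw [← face_val hφ hV (F := 321) (p := (314, 0)) (Or.inr (Or.inr rfl)) (by decide) (m * gt), h1]
  exact face_val hφ hV (F := 321) (p := (314, 10)) (Or.inr (Or.inr rfl)) (by decide) m

theorem val_congr {i j : ℕ} (hi : Int i) (hj : Int j) {g h : G0} (he : sp i g = sp j h) :
    val φ fV i g = val φ fV j h := by
  rw [sp_eq_iff hi hj] at he
  obtain ⟨rfl, he⟩ := he
  rcases he with rfl | ⟨rfl, h2⟩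
  · rfl
  · obtain ⟨n, hn⟩ := Subgroup.mem_zpowers_iff.1 h2
    have h3 : h = g * gt ^ n := by rw [hn]; group
    have h4 : ∀ k : ℤ, val φ fV 321 (g * gt ^ k) = val φ fV 321 g := by
      intro k
      induction k using Int.induction_on with
      | zero => simp
      | succ k ih => rw [zpow_add_one, ← mul_assoc, val_t hφ hV, ih]
      | pred k ih =>
        rw [← ih, ← val_t hφ hV (g * gt ^ (-(k : ℤ) - 1)), mul_assoc, ← zpow_add_one]
        congr 3
        ring
    rw [h3, h4]

theorem val_coc {i j : ℕ} (hi : Int i) (hj : Int j) {g h : G0} (hle : sp i g ≤ sp j h) :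
    φ (sp i g) (sp j h) = (val φ fV i g)⁻¹ * val φ fV j h := by
  have hlow : ∀ {i : ℕ} (g : G0), i ≤ 318 → val φ fV i g = lv φ fV i g := by
    intro i g hi
    unfold val
    rw [if_neg (by omega), if_neg (by omega), if_neg (by omega)]
  rcases Nat.lt_or_ge 318 j with hj' | hj'
  · have hF : j = 319 ∨ j = 320 ∨ j = 321 := by have := hj.1; omega
    obtain ⟨c, hc, hc1, hc2⟩ := sp_le hj hle
    have h1 : chkFace j (segL j) = true := by
      have h2 := chkFace_ok
      simp only [Bool.and_eq_true] at h2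
      rcases hF with rfl | rfl | rfl
      · exact h2.1.1
      · exact h2.1.2
      · exact h2.2
    have h2 := (List.all_eq_true.1 (show (cloL j).all _ = true from h1)) c hc
    simp only [hc1.2, Bool.false_or, Bool.or_eq_true, Nat.beq_eq, List.any_eq_true,
      Bool.and_eq_true, mem_maskOf] at h2
    rw [hc2, val_congr hφ hV hi hc1 hc2]
    rcases h2 with h2 | ⟨p, hp, h3, h4⟩
    · have e1 : c / 32 = j := by omega
      have e2 : c % 32 = 0 := by omega
      rw [e1, e2]
      show φ (sp j (h * 1)) (sp j h) = (val φ fV j (h * 1))⁻¹ * val φ fV j h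
      rw [mul_one, phi_self hφ, inv_mul_cancel]
    · have hr : (p.1, p.2, j) ∈ relsS := by
        have h5 := segL_ok
        simp only [Bool.and_eq_true, List.all_eq_true, List.contains_iff_mem] at h5
        rcases hF with rfl | rfl | rfl
        · exact h5.1.1 p hp
        · exact h5.1.2 p hp
        · exact h5.2 p hp
      have hy := (rel_spec hr).2.2.1
      have hy318 : p.1 ≤ 317 := by
        have h6 := clo_facts (j := j) (by omega) (rel_spec hr).1
        have h7 : (32 * p.1 + p.2) / 32 = p.1 := by have := (rel_spec hr).2.1; omega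
        rw [h7] at h6
        have h8 : ∀ q ∈ segL j, q.1 ≤ 317 := by
          rcases hF with rfl | rfl | rfl <;> decide
        exact h8 p hp
      have hx : sp (c / 32) (h * lab (c % 32)) ≤ sp p.1 (h * lab (c % 32)) := by
        rcases h4 with h4 | h4
        · rw [h4]
        · rw [le_iff, sp_val hc1, sp_val hy, le_pt_iff hy.1]
          refine ⟨_, h4, ?_⟩
          rw [Nat.mul_div_cancel_left _ (by norm_num), Nat.mul_mod_right]
          simp [lab]
      have hx318 : c / 32 ≤ 318 := by
        obtain ⟨c', hc', hc1', hc2'⟩ := sp_le hy hx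
        obtain ⟨h9, _⟩ := (sp_eq_iff hc1 hc1' _ _).1 hc2'
        obtain ⟨_, h10, _, _⟩ := clo_facts (j := p.1) (by omega) hc'
        rcases h10 with h10 | h10
        · omega
        · rw [← h9] at h10
          by_contra hcon
          have : dim (c / 32) = 4 := by unfold dim; rw [if_neg (by omega), if_neg (by omega),
            if_neg (by omega), if_neg (by omega)]
          have h11 : dim p.1 ≤ 4 := by unfold dim; split_ifs <;> omega
          omega
      have hyF : sp p.1 (h * lab (c % 32)) ≤ sp j h := rel_le hr (by rw [h3])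
      have hW := face_val hφ hV hF hp h
      unfold WF at hW
      rw [← h3] at hW
      rw [hφ _ _ _ hx hyF, low_coc hφ hV hc1 hx318 hy (by omega) hx, hlow _ hx318, ← hW]
      group
  · have hi' : i ≤ 318 := by
      obtain ⟨c', hc', hc1', hc2'⟩ := sp_le hj hle
      obtain ⟨h9, _⟩ := (sp_eq_iff hi hc1' _ _).1 hc2'
      obtain ⟨_, h10, _, _⟩ := clo_facts (j := j) (by omega) hc'
      rcases h10 with h10 | h10
      · omega
      · rw [← h9] at h10
        by_contra hcon
        have : dim i = 4 := by unfold dim; rw [if_neg (by omega), if_neg (by omega),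
          if_neg (by omega), if_neg (by omega)]
        have h11 : dim j ≤ 4 := by unfold dim; split_ifs <;> omega
        omega
    rw [hlow g hi', hlow h hj']
    exact low_coc hφ hV hi hi' hj hj' hle

end

end ScS

open ScS

theorem sc_S : SC {x : N0 // x ∈ Sin} := by
  intro H _ φ hφ
  obtain ⟨fV, hV⟩ := exists_fV hφ
  choose ii gg hh using exists_sp
  refine ⟨fun x => val φ fV (ii x) (gg x), fun x y hxy => ?_⟩
  have hx := (hh x).2
  have hy := (hh y).2
  have h1 : sp (ii x) (gg x) ≤ sp (ii y) (gg y) := by rw [← hx, ← hy]; exact hxy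
  have h2 := val_coc hφ hV (hh x).1 (hh y).1 h1
  rw [← hx, ← hy] at h2
  exact h2

theorem conn_S : Conn {x : N0 // x ∈ Sin} := by
  refine ⟨⟨sp 318 1⟩, ?_⟩
  have hrel : ∀ x y : S, x ≤ y → Relation.EqvGen (fun a b : S => a ≤ b) x y :=
    fun x y h => Relation.EqvGen.rel _ _ h
  have hgen : ∀ (e li : ℕ) (x k : G0), (e, 0, 318) ∈ relsS → lab li = x⁻¹ → (e, li, 318) ∈ relsS →
      Relation.EqvGen (fun a b : S => a ≤ b) (sp 318 k) (sp 318 (k * x)) := by
    intro e li x k r2 hx r3
    have hb : k = k * x * lab li := by rw [hx]; group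
    exact ((hrel _ _ (rel_le0 r2 k)).symm _ _).trans _ _ _ (hrel _ _ (rel_le r3 hb))
  have hV : ∀ g k : G0, Relation.EqvGen (fun a b : S => a ≤ b) (sp 318 k) (sp 318 (k * g)) := by
    intro g
    have hg : g ∈ Subgroup.closure {ga, gb, gc, gd} := by rw [G0_gen]; trivial
    induction hg using Subgroup.closure_induction with
    | mem x hx =>
      intro k
      rcases hx with rfl | rfl | rfl | rfl
      · exact hgen 301 13 ga k (by decide) rfl (by decide)
      · exact hgen 302 14 gb k (by decide) rfl (by decide)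
      · exact hgen 303 15 gc k (by decide) rfl (by decide)
      · exact hgen 304 16 gd k (by decide) rfl (by decide)
    | one => intro k; rw [mul_one]; exact Relation.EqvGen.refl _
    | mul x y _ _ hx hy =>
      intro k
      rw [← mul_assoc]
      exact (hx k).trans _ _ _ (hy (k * x))
    | inv x _ hx =>
      intro k
      have := hx (k * x⁻¹)
      rw [inv_mul_cancel_right] at this
      exact this.symm _ _
  have hall : ∀ x : S, Relation.EqvGen (fun a b : S => a ≤ b) x (sp 318 1) := by
    intro x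
    obtain ⟨i, g, hi, rfl⟩ := exists_sp x
    have h0 : Relation.EqvGen (fun a b : S => a ≤ b) (sp 318 g) (sp 318 1) := by
      have := hV g 1
      rw [one_mul] at this
      exact this.symm _ _
    refine Relation.EqvGen.trans _ _ _ ?_ h0
    rcases lt_trichotomy i 318 with h1 | h1 | h1
    · exact hrel _ _ (rel_le0 (low_rel hi h1) g)
    · rw [h1]; exact Relation.EqvGen.refl _
    · have hF : i = 319 ∨ i = 320 ∨ i = 321 := by have := hi.1; omega
      rcases hF with rfl | rfl | rfl
      · exact ((hrel _ _ (rel_le0 (i := 305) (by decide) g)).symm _ _).trans _ _ _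
          (hrel _ _ (rel_le0 (i := 305) (by decide) g))
      · exact ((hrel _ _ (rel_le0 (i := 310) (by decide) g)).symm _ _).trans _ _ _
          (hrel _ _ (rel_le0 (i := 310) (by decide) g))
      · exact ((hrel _ _ (rel_le0 (i := 314) (by decide) g)).symm _ _).trans _ _ _
          (hrel _ _ (rel_le0 (i := 314) (by decide) g))
  intro x y
  exact (hall x).trans _ _ _ ((hall y).symm _ _)

end Pool.Agent.Helper635.PD4.RX
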