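import Pool.Agent.Helper635_PD4.Clos
import Pool.Agent.Helper635_PD4.Dual
import Pool.Agent.Helper635_PD4.FD

/-!
# Auxiliary file for module RXScU: transport along isomorphisms and embeddings
-/

open scoped Classical

namespace Pool.Agent.Helper635.PD4

/-! ### order isomorphisms -/

theorem conn_iso {P Q : Type} [PartialOrder P] [PartialOrder Q] (e : P ≃ Q)
    (he : ∀ x y, x ≤ y → e x ≤ e y) (h : Conn P) : Conn Q := by
  obtain ⟨⟨x0⟩, h2⟩ := h
  refine ⟨⟨e x0⟩, ?_⟩
  have key : ∀ x y : P, Relation.EqvGen (fun a b => a ≤ b) x y →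
      Relation.EqvGen (fun a b : Q => a ≤ b) (e x) (e y) := by
    intro x y hxy
    induction hxy with
    | rel x y h => exact Relation.EqvGen.rel _ _ (he _ _ h)
    | refl x => exact Relation.EqvGen.refl _
    | symm x y _ ih => exact ih.symm
    | trans x y z _ _ ih1 ih2 => exact ih1.trans _ _ _ ih2
  intro x y
  have := key (e.symm x) (e.symm y) (h2 _ _)
  rwa [e.apply_symm_apply, e.apply_symm_apply] at this

theorem sc_iso {P Q : Type} [PartialOrder P] [PartialOrder Q] (e : P ≃ Q)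
    (he : ∀ x y, x ≤ y ↔ e x ≤ e y) (h : SC P) : SC Q := by
  intro H _ φ hφ
  obtain ⟨f, hf⟩ := h H (fun x y => φ (e x) (e y)) (fun x y z hxy hyz =>
    hφ _ _ _ ((he _ _).1 hxy) ((he _ _).1 hyz))
  refine ⟨fun x => f (e.symm x), fun x y hxy => ?_⟩
  have h1 : e.symm x ≤ e.symm y := by
    rw [he, e.apply_symm_apply, e.apply_symm_apply]
    exact hxy
  have h2 := hf (e.symm x) (e.symm y) h1
  simp only [e.apply_symm_apply] at h2
  exact h2

/-! ### good intervals -/

/-- transport of goodness along an embedding -/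
theorem good_of_image {Q Q' : Type} [PartialOrder Q] [PartialOrder Q'] (E : Q → Q → ℤ)
    (E' : Q' → Q' → ℤ) (φ : Q' → Q) (hφ : Function.Injective φ) (x' y' : Q') (x y : Q)
    (himg : φ '' (Set.Icc x' y') = Set.Icc x y)
    (hE : ∀ u ∈ Set.Icc x' y', ∀ v ∈ Set.Icc x' y', E (φ u) (φ v) = E' u v) (h : Good E x y) :
    Good E' x' y' := by
  have hfin : (Set.Icc x' y').Finite := by
    refine Set.Finite.of_finite_image ?_ hφ.injOn
    rw [himg]
    exact h.fin
  have himg' : hfin.toFinset.image φ = h.fin.toFinset := by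
    ext z
    rw [Finset.mem_image, Set.Finite.mem_toFinset, ← himg]
    simp only [Set.Finite.mem_toFinset]
    exact Iff.rfl
  have hE' : ∀ u ∈ hfin.toFinset, ∀ v ∈ hfin.toFinset, E (φ u) (φ v) = 1 * 1 * E' u v := by
    intro u hu v hv
    rw [Set.Finite.mem_toFinset] at hu hv
    rw [hE u hu v hv, one_mul, one_mul]
  refine ⟨hfin, ?_, ?_⟩
  · have h1 := sq_iso hfin.toFinset E' E φ (fun _ => 1) hφ.injOn (fun _ _ => one_mul 1) hE'
    rw [himg'] at h1
    exact h1.1 h.sq
  · have h1 := exa_iso hfin.toFinset E' E φ (fun _ => 1) hφ.injOn (fun _ _ => one_mul 1) hE'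
    rw [himg'] at h1
    exact h1.1 h.exa

/-- transport of goodness along an order-reversing embedding -/
theorem good_of_image_transpose {Q Q' : Type} [PartialOrder Q] [PartialOrder Q'] (E : Q → Q → ℤ)
    (E' : Q' → Q' → ℤ) (φ : Q' → Q) (hφ : Function.Injective φ) (x' y' : Q') (x y : Q)
    (himg : φ '' (Set.Icc x' y') = Set.Icc x y)
    (hE : ∀ u ∈ Set.Icc x' y', ∀ v ∈ Set.Icc x' y', E (φ v) (φ u) = E' u v) (h : Good E x y) :
    Good E' x' y' := by
  refine good_of_image (fun u v => E v u) E' φ hφ x' y' x y himg hE ?_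
  exact ⟨h.fin, sq_transpose _ _ h.sq, exa_transpose _ _ h.sq h.exa⟩

end Pool.Agent.Helper635.PD4
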