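import Pool.Agent.Helper635_PD4.Tab

/-!
# Table checks for module RXScU: the interior facets of the interior 3-cells
-/

set_option maxRecDepth 100000

namespace Pool.Agent.Helper635.PD4.Tab

/-- interior facets -/
def facI (j : ℕ) : List ℕ := (facL j).filter fun e => !isX (e / 64)

theorem facI_302 : facI 302 = [17792, 17856] := by decide +kernel
theorem facI_303 : facI 303 = [17920, 17984, 18048, 18112, 18176] := by decide +kernel
theorem facI_304 : facI 304 = [18240, 18304] := by decide +kernel
theorem facI_305 : facI 305 = [17920, 17536] := by decide +kernel
theorem facI_306 : facI 306 = [17562, 18177] := by decide +kernel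
theorem facI_307 : facI 307 = [18206, 17626] := by decide +kernel
theorem facI_308 : facI 308 = [17600, 17755] := by decide +kernel
theorem facI_309 : facI 309 = [17728, 17951] := by decide +kernel
theorem facI_310 : facI 310 = [17792, 17664] := by decide +kernel
theorem facI_311 : facI 311 = [17690, 17857] := by decide +kernel
theorem facI_312 : facI 312 = [17884, 18014] := by decide +kernel
theorem facI_313 : facI 313 = [17984, 17821] := by decide +kernel
theorem facI_314 : facI 314 = [18240, 18048] := by decide +kernel
theorem facI_315 : facI 315 = [18078, 18305] := by decide +kernel
theorem facI_316 : facI 316 = [18336, 18142] := by decide +kernel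
theorem facI_317 : facI 317 = [18112, 18273] := by decide +kernel

end Pool.Agent.Helper635.PD4.Tab
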