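import Pool.Agent.Helper635_PD4.RXScDef
import Pool.Agent.Helper635_PD4.RXScUAux
import Pool.Agent.Helper635_PD4.RXScUChk

/-!
# Module RXScU: `hzero_S`, `conn_Q`, `sc_Q`, `h2_Q`
-/

open scoped Classical

namespace Pool.Agent.Helper635.PD4.RX

open Tab

/-! ### elementary facts -/

theorem not_kap_le {x : RX} (h : kap ≤ x) : x = kap := by
  rcases h with ⟨j, h, hj, -, c, hc, hk⟩ | ⟨h1, -⟩
  · exact absurd hk.symm (pt_ne_kap _ _)
  · exact h1

theorem rk_le4 (x : RX) : rk x ≤ 4 := by
  rcases x with ⟨i, g⟩ | q | _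
  · show Tab.dim i.1 ≤ 4
    unfold Tab.dim; split_ifs <;> omega
  · exact le_refl _
  · exact le_refl _

theorem rk_Zs {x : RX} (h : x ∈ Zs) : rk x = 4 := by
  obtain ⟨q, rfl⟩ := h
  rfl

theorem Zs_max {z : RX} (hz : z ∈ Zs) {x : RX} (h : z ≤ x) : x = z := by
  rcases le_rk h with h1 | h1
  · exact h1.symm
  · rw [rk_Zs hz] at h1
    have := rk_le4 x
    omega

theorem Zs_ne_kap {z : RX} (hz : z ∈ Zs) : z ≠ kap := by
  obtain ⟨q, rfl⟩ := hz
  intro h
  cases h

/-! ### lower sets of `RX` -/

/-- the embedding of the poset with bottom -/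
def phiL (p : RX → Prop) : WithBot {x : RX // p x} → WithBot (WithTop RX) :=
  WithBot.map (fun x => ((x.1 : RX) : WithTop RX))

theorem phiL_inj (p : RX → Prop) : Function.Injective (phiL p) := by
  intro u v h
  induction u using WithBot.recBotCoe with
  | bot =>
    induction v using WithBot.recBotCoe with
    | bot => rfl
    | coe y => exact absurd h.symm WithBot.coe_ne_bot
  | coe x =>
    induction v using WithBot.recBotCoe with
    | bot => exact absurd h WithBot.coe_ne_bot
    | coe y =>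
      have h1 : ((x.1 : RX) : WithTop RX) = ((y.1 : RX) : WithTop RX) := WithBot.coe_injective h
      have h2 : x.1 = y.1 := WithTop.coe_injective h1
      rw [Subtype.ext h2]

/-- lower sets of `RX` not containing `kap` satisfy the local hypotheses -/
noncomputable def lowA (p : RX → Prop) (hp : ∀ x, p x → ∀ y, y ≤ x → p y) (hk : ¬ p kap) :
    LowP {x : RX // p x} where
  rk x := rk x.1
  ep x y := ep x.1 y.1
  gr := by
    constructor
    · intro x y hxy
      exact gr_X.lt x.1 y.1 hxy
    · intro x y hxy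
      exact gr_X.ne x.1 y.1 hxy
  low y := by
    have hyk : y.1 ≠ kap := fun h => hk (h ▸ y.2)
    refine good_of_image (bE (aug (rkT 5 rk)) (tE ori ep)) _ (phiL p) (phiL_inj p) _ _
      (⊥ : WithBot (WithTop RX)) (((y.1 : RX) : WithTop RX) : WithBot (WithTop RX)) ?_ ?_
      (good_X _ _ (WithBot.bot_lt_coe _) ?_)
    · ext w
      constructor
      · rintro ⟨u, ⟨-, hu⟩, rfl⟩
        refine ⟨bot_le, ?_⟩
        induction u using WithBot.recBotCoe with
        | bot => exact bot_le
        | coe x =>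
          have h1 : x ≤ y := WithBot.coe_le_coe.1 hu
          exact WithBot.coe_le_coe.2 (WithTop.coe_le_coe.2 h1)
      · rintro ⟨-, hw⟩
        induction w using WithBot.recBotCoe with
        | bot => exact ⟨⊥, ⟨le_rfl, bot_le⟩, rfl⟩
        | coe w =>
          have h1 := WithBot.coe_le_coe.1 hw
          induction w using WithTop.recTopCoe with
          | top => exact absurd (top_le_iff.1 h1) WithTop.coe_ne_top
          | coe x =>
            have h2 : x ≤ y.1 := WithTop.coe_le_coe.1 h1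
            exact ⟨((⟨x, hp _ y.2 x h2⟩ : {x : RX // p x}) : WithBot {x : RX // p x}),
              ⟨bot_le, WithBot.coe_le_coe.2 h2⟩, rfl⟩
    · intro u _ v _
      induction u using WithBot.recBotCoe with
      | bot =>
        induction v using WithBot.recBotCoe with
        | bot => rfl
        | coe y => rfl
      | coe x =>
        induction v using WithBot.recBotCoe with
        | bot => rfl
        | coe y => rfl
    · rintro ⟨-, h | h⟩
      · exact hyk (WithTop.coe_injective (WithBot.coe_injective h))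
      · exact WithTop.coe_ne_top (WithBot.coe_injective h)

/-! ### connectivity of `Q` -/

/-- the elements of `Zs` in `N0` -/
def Z0 : Set N0 := {x | x.1 ∈ Zs}

theorem Z0_max : ∀ z ∈ Z0, ∀ x, z ≤ x → x = z := by
  intro z hz x hzx
  exact Subtype.ext (Zs_max hz hzx)

/-- the two descriptions of the lower set of a special cell -/
def eZ (z : N0) : {x : RX // x < z.1} ≃ {x : N0 // x < z} where
  toFun x := ⟨⟨x.1, fun h => by
    have h1 := x.2
    rw [h] at h1
    exact z.2 (not_kap_le h1.le)⟩, x.2⟩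
  invFun x := ⟨x.1.1, x.2⟩
  left_inv _ := rfl
  right_inv _ := rfl

/-- the two descriptions of `Q` -/
def eQ : {x : N0 // x ∉ Z0} ≃ {x : RX // x ≠ kap ∧ x ∉ Zs} where
  toFun x := ⟨x.1.1, x.1.2, x.2⟩
  invFun x := ⟨⟨x.1, x.2.1⟩, x.2.2⟩
  left_inv _ := rfl
  right_inv _ := rfl

theorem conn_Q_of (hcl : ∃ f : N0 → N0, (∀ x, f x ∈ Sin) ∧ (∀ x, x ≤ f x) ∧
    (∀ x, ∀ s ∈ Sin, x ≤ s → f x ≤ s)) (hS : Conn {x : N0 // x ∈ Sin})
    (hZ : ∀ z ∈ Zs, Conn {x : RX // x < z}) : Conn {x : RX // x ≠ kap ∧ x ∉ Zs} := by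
  obtain ⟨f, h1, h2, h3⟩ := hcl
  have hN := conn_of_closure Sin f h1 h2 h3 hS
  have hR := conn_of_remove Z0 Z0_max (fun z hz => conn_iso (eZ z) (fun _ _ h => h) (hZ z.1 hz)) hN
  exact conn_iso eQ (fun _ _ h => h) hR

theorem sc_Q_of (hcl : ∃ f : N0 → N0, (∀ x, f x ∈ Sin) ∧ (∀ x, x ≤ f x) ∧
    (∀ x, ∀ s ∈ Sin, x ≤ s → f x ≤ s)) (hS : SC {x : N0 // x ∈ Sin})
    (hZ : ∀ z ∈ Zs, SC {x : RX // x < z}) : SC {x : RX // x ≠ kap ∧ x ∉ Zs} := by
  obtain ⟨f, h1, h2, h3⟩ := hcl
  have hN := sc_of_closure Sin f h1 h2 h3 hS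
  have hR := sc_of_remove Z0 Z0_max (fun z hz => sc_iso (eZ z) (fun _ _ => Iff.rfl) (hZ z.1 hz)) hN
  exact sc_iso eQ (fun _ _ => Iff.rfl) hR

/-! ### `h2_Q` -/

/-- the local data of `N0` -/
noncomputable def lowN : LowP {x : RX // x ≠ kap} :=
  lowA (fun x => x ≠ kap) (by
    intro x hx y hyx hy
    subst hy
    exact hx (not_kap_le hyx)) (fun h => h rfl)

/-- the local data of `Q` -/
noncomputable def lowQ : LowP {x : RX // x ≠ kap ∧ x ∉ Zs} :=
  lowA (fun x => x ≠ kap ∧ x ∉ Zs) (by
    rintro x ⟨hx, hx2⟩ y hyx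
    refine ⟨?_, ?_⟩
    · intro hy
      subst hy
      exact hx (not_kap_le hyx)
    · intro hy
      exact hx2 (Zs_max hy hyx ▸ hy)) (fun h => h.1 rfl)

theorem cellH_Q (h : CellH lowN.rk lowN.ep 2) : CellH lowQ.rk lowQ.ep 2 := by
  intro z hz hd
  set i : {x : RX // x ≠ kap ∧ x ∉ Zs} → {x : RX // x ≠ kap} := fun x => ⟨x.1, x.2.1⟩ with hi
  have hinj : Function.Injective i := by
    intro x y hxy
    have h1 : (i x).1 = (i y).1 := by rw [hxy]
    exact Subtype.ext h1
  have hs2 : ∀ x ∈ (z.mapDomain i).support, lowN.rk x = 2 := by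
    intro x hx
    obtain ⟨y, hy, rfl⟩ := Finset.mem_image.1 (Finsupp.mapDomain_support hx)
    exact hz y hy
  have hd2 : ∀ u, ((z.mapDomain i).sum fun v c => lowN.ep u v * c) = 0 := by
    intro u
    rw [Finsupp.sum_mapDomain_index (fun _ => by simp) (fun _ _ _ => by ring)]
    by_cases hu : u.1 ∈ Zs
    · refine Finset.sum_eq_zero fun v hv => ?_
      have h1 : ep u.1 (i v).1 = 0 := by
        by_contra hne
        have h2 := gr_X.ne _ _ hne
        have h3 : rk (i v).1 = 2 := hz v hv
        rw [h3] at h2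
        have h4 := rk_Zs hu
        omega
      show ep u.1 (i v).1 * z v = 0
      rw [h1, zero_mul]
    · exact hd ⟨u.1, u.2, hu⟩
  obtain ⟨y, hy, hy2⟩ := h (z.mapDomain i) hs2 hd2
  have hr : (y.support : Set {x : RX // x ≠ kap}) ⊆ Set.range i := by
    intro x hx
    have h3 : rk x.1 = 3 := hy x hx
    refine ⟨⟨x.1, x.2, fun hxZ => ?_⟩, rfl⟩
    rw [rk_Zs hxZ] at h3
    omega
  have hyc := Finsupp.mapDomain_comapDomain i hinj y hr
  refine ⟨Finsupp.comapDomain i y hinj.injOn, ?_, ?_⟩
  · intro x hx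
    rw [Finsupp.mem_support_iff, Finsupp.comapDomain_apply] at hx
    exact hy (i x) (Finsupp.mem_support_iff.2 hx)
  · intro u
    have h1 := hy2 (i u)
    rw [Finsupp.mapDomain_apply hinj] at h1
    rw [h1]
    conv_lhs => rw [← hyc]
    rw [Finsupp.sum_mapDomain_index (fun _ => by simp) (fun _ _ _ => by ring)]
    rfl

theorem h2_Q_of (hcl : ∃ f : N0 → N0, (∀ x, f x ∈ Sin) ∧ (∀ x, x ≤ f x) ∧
    (∀ x, ∀ s ∈ Sin, x ≤ s → f x ≤ s)) (hS : HZero {x : N0 // x ∈ Sin} 2) :
    HZero {x : RX // x ≠ kap ∧ x ∉ Zs} 2 := by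
  obtain ⟨f, h1, h2, h3⟩ := hcl
  have hN : HZero N0 2 := hzero_of_closure Sin f h1 h2 h3 2 hS
  exact hzero_of_cellH lowQ 4 (fun x => rk_le4 x.1) 2
    (cellH_Q (cellH_of_hzero lowN 4 (fun x => rk_le4 x.1) 2 (by norm_num) hN))

/-! ### the opposite of the interior poset -/

/-- the interior poset -/
abbrev SI : Type := {x : N0 // x ∈ Sin}

theorem Sin_up {x : N0} (hx : x ∈ Sin) {y : RX} (hxy : x.1 ≤ y) : ∃ hy : y ≠ kap,
    (⟨y, hy⟩ : N0) ∈ Sin := by
  obtain ⟨i, g, hi, hi2, hX, hxe⟩ := hx
  rw [hxe] at hxy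
  rcases hxy with ⟨j, h, hj, rfl, c, hc, he⟩ | ⟨rfl, h | ⟨i', g', hi', hX', he⟩⟩
  · refine ⟨pt_ne_kap _ _, j, h, hj, ?_, ?_, rfl⟩
    · obtain ⟨-, -, h3, h4⟩ := clo_facts (by omega) hc
      rw [pt_eq_iff hi (by omega)] at he
      have h5 : isX j = false := by
        by_contra hcon
        rw [Bool.not_eq_false] at hcon
        have := h4 hcon
        rw [← he.1, hX] at this
        cases this
      by_contra hlt
      unfold isX at h5
      have h6 : Nat.blt j 274 = true := by
        rw [Nat.blt_eq]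
        omega
      rw [h6] at h5
      simp at h5
    · obtain ⟨-, -, h3, h4⟩ := clo_facts (by omega) hc
      rw [pt_eq_iff hi (by omega)] at he
      by_contra hcon
      rw [Bool.not_eq_false] at hcon
      have := h4 hcon
      rw [← he.1, hX] at this
      cases this
  · exact absurd h (pt_ne_kap _ _)
  · rw [pt_eq_iff hi hi'] at he
    rw [← he.1, hX] at hX'
    cases hX'

theorem ori_Sin {x : N0} (hx : x ∈ Sin) : ori x.1 = if 4 - rk x.1 = 0 then 1 else 0 := by
  obtain ⟨i, g, hi, hi2, hX, hxe⟩ := hx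
  rw [hxe, rk_pt hi]
  rcases Nat.lt_or_ge i 321 with h1 | h1
  · rw [pt_lt h1]
    show (if 318 ≤ i then (1 : ℤ) else 0) = _
    unfold Tab.dim
    by_cases h2 : 318 ≤ i
    · rw [if_pos h2]
      have : ¬ i < 52 ∧ ¬ i < 182 ∧ ¬ i < 287 ∧ ¬ i < 318 := by omega
      simp [this]
    · rw [if_neg h2]
      split_ifs <;> first | omega | rfl | contradiction
  · have : i = 321 := by omega
    subst this
    rw [pt_321]
    rfl

/-- the embedding of the opposite interior poset with bottom, reversing the order -/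
def phiS : WithBot SIᵒᵈ → WithBot (WithTop RX) := fun u =>
  WithBot.recBotCoe (C := fun _ => WithBot (WithTop RX)) ((⊤ : WithTop RX) : WithBot (WithTop RX))
    (fun x => (((OrderDual.ofDual x).1.1 : WithTop RX) : WithBot (WithTop RX))) u

theorem phiS_bot : phiS ⊥ = ((⊤ : WithTop RX) : WithBot (WithTop RX)) := rfl

theorem phiS_coe (x : SIᵒᵈ) :
    phiS (x : WithBot SIᵒᵈ) = (((OrderDual.ofDual x).1.1 : WithTop RX) : WithBot (WithTop RX)) :=
  rfl

theorem phiS_inj : Function.Injective phiS := by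
  intro u v h
  induction u using WithBot.recBotCoe with
  | bot =>
    induction v using WithBot.recBotCoe with
    | bot => rfl
    | coe y =>
      rw [phiS_bot, phiS_coe] at h
      exact absurd (WithBot.coe_injective h).symm WithTop.coe_ne_top
  | coe x =>
    induction v using WithBot.recBotCoe with
    | bot =>
      rw [phiS_bot, phiS_coe] at h
      exact absurd (WithBot.coe_injective h) WithTop.coe_ne_top
    | coe y =>
      rw [phiS_coe, phiS_coe] at h
      have h2 := WithTop.coe_injective (WithBot.coe_injective h)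
      have h3 : OrderDual.ofDual x = OrderDual.ofDual y := Subtype.ext (Subtype.ext h2)
      rw [OrderDual.ofDual.injective h3]

/-- the local data of the opposite interior poset -/
noncomputable def lowS : LowP SIᵒᵈ where
  rk x := 4 - rk (OrderDual.ofDual x).1.1
  ep x y := ep (OrderDual.ofDual y).1.1 (OrderDual.ofDual x).1.1
  gr := by
    constructor
    · intro x y hxy
      have h1 : OrderDual.ofDual y < OrderDual.ofDual x := hxy
      have h2 := gr_X.lt (OrderDual.ofDual y).1.1 (OrderDual.ofDual x).1.1 h1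
      have h3 := rk_le4 (OrderDual.ofDual x).1.1
      omega
    · intro x y hxy
      have h1 := gr_X.ne _ _ hxy
      have h3 := rk_le4 (OrderDual.ofDual x).1.1
      exact ⟨h1.1, by omega⟩
  low y := by
    refine good_of_image_transpose (bE (aug (rkT 5 rk)) (tE ori ep)) _ phiS phiS_inj _ _
      ((((OrderDual.ofDual y).1.1 : RX) : WithTop RX) : WithBot (WithTop RX))
      ((⊤ : WithTop RX) : WithBot (WithTop RX)) ?_ ?_
      (good_X _ _ (WithBot.coe_lt_coe.2 (WithTop.coe_lt_top _)) ?_)
    · ext w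
      constructor
      · rintro ⟨u, ⟨-, hu⟩, rfl⟩
        induction u using WithBot.recBotCoe with
        | bot =>
          rw [phiS_bot]
          exact ⟨WithBot.coe_le_coe.2 le_top, le_rfl⟩
        | coe x =>
          rw [phiS_coe]
          have h1 : x ≤ y := WithBot.coe_le_coe.1 hu
          have h2 : (OrderDual.ofDual y).1.1 ≤ (OrderDual.ofDual x).1.1 := h1
          exact ⟨WithBot.coe_le_coe.2 (WithTop.coe_le_coe.2 h2), WithBot.coe_le_coe.2 le_top⟩
      · rintro ⟨hw, -⟩
        induction w using WithBot.recBotCoe with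
        | bot => exact absurd (le_bot_iff.1 hw) WithBot.coe_ne_bot
        | coe w =>
          have h1 := WithBot.coe_le_coe.1 hw
          induction w using WithTop.recTopCoe with
          | top => exact ⟨⊥, ⟨le_rfl, bot_le⟩, rfl⟩
          | coe x =>
            have h2 : (OrderDual.ofDual y).1.1 ≤ x := WithTop.coe_le_coe.1 h1
            obtain ⟨h3, h4⟩ := Sin_up (OrderDual.ofDual y).2 h2
            refine ⟨((OrderDual.toDual (⟨⟨x, h3⟩, h4⟩ : SI) : SIᵒᵈ) : WithBot SIᵒᵈ),
              ⟨bot_le, WithBot.coe_le_coe.2 ?_⟩, rfl⟩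
            exact h2
    · intro u _ v _
      induction v using WithBot.recBotCoe with
      | bot =>
        induction u using WithBot.recBotCoe with
        | bot => rfl
        | coe y => rfl
      | coe y =>
        induction u using WithBot.recBotCoe with
        | bot =>
          show ori (OrderDual.ofDual y).1.1 =
            aug (fun x : SIᵒᵈ => 4 - rk (OrderDual.ofDual x).1.1) y
          rw [ori_Sin (OrderDual.ofDual y).2]
          rfl
        | coe x => rfl
    · rintro ⟨h, -⟩
      exact WithBot.coe_ne_bot h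

/-! ### there are no cycles in degree two -/

/-- a finitely supported function which is invariant under a translation of infinite order -/
theorem inv_zero (n : G0 → ℤ) (x : G0) (hx : ∀ k : ℕ, k ≠ 0 → x ^ k ≠ 1)
    (hfin : {g | n g ≠ 0}.Finite) (h : ∀ g, n g = n (g * x⁻¹)) : ∀ g, n g = 0 := by
  intro g
  by_contra hg
  have h1 : ∀ k : ℕ, n (g * x⁻¹ ^ k) = n g := by
    intro k
    induction k with
    | zero => simp
    | succ k ih => rw [pow_succ, ← mul_assoc, ← h, ih]
  have h2 : Function.Injective (fun k : ℕ => g * x⁻¹ ^ k) := by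
    have h3 : ¬ IsOfFinOrder x⁻¹ := by
      rw [isOfFinOrder_inv_iff, isOfFinOrder_iff_pow_eq_one]
      rintro ⟨k, hk, h4⟩
      exact hx k hk.ne' h4
    intro a b hab
    exact (injective_pow_iff_not_isOfFinOrder.2 h3) (mul_left_cancel hab)
  have h3 : Set.range (fun k : ℕ => g * x⁻¹ ^ k) ⊆ {g | n g ≠ 0} := by
    rintro _ ⟨k, rfl⟩
    show n _ ≠ 0
    rw [h1]
    exact hg
  exact (Set.infinite_range_of_injective h2) (hfin.subset h3)

/-- extension by zero -/
noncomputable def ex (z : SIᵒᵈ →₀ ℤ) (x : RX) : ℤ :=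
  if h : ∃ h : x ≠ kap, (⟨x, h⟩ : N0) ∈ Sin then
    z (OrderDual.toDual (⟨⟨x, h.choose⟩, h.choose_spec⟩ : SI)) else 0

theorem ex_coe (z : SIᵒᵈ →₀ ℤ) (x : SIᵒᵈ) : ex z (OrderDual.ofDual x).1.1 = z x := by
  unfold ex
  have h : ∃ h : (OrderDual.ofDual x).1.1 ≠ kap,
      (⟨(OrderDual.ofDual x).1.1, h⟩ : N0) ∈ Sin := ⟨(OrderDual.ofDual x).1.2, (OrderDual.ofDual x).2⟩
  rw [dif_pos h]
  rfl

theorem ex_of_not (z : SIᵒᵈ →₀ ℤ) {x : RX} (h : ¬ ∃ h : x ≠ kap, (⟨x, h⟩ : N0) ∈ Sin) :
    ex z x = 0 := by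
  unfold ex
  rw [dif_neg h]

theorem ex_X (z : SIᵒᵈ →₀ ℤ) {i : ℕ} (hi : i ≤ 321) (hX : isX i = true) (g : G0) :
    ex z (pt i g) = 0 := by
  apply ex_of_not
  rintro ⟨_, j, h, hj, _, hX', he⟩
  rw [pt_eq_iff hi hj] at he
  rw [he.1, hX'] at hX
  cases hX

theorem sum_ep (z : SIᵒᵈ →₀ ℤ) (g : G0) (L : List ℕ) :
    (z.sum fun v c => (L.map fun e => if (OrderDual.ofDual v).1.1 = pt (e / 64) (g * lab (e / 2 % 32))
      then sg (e % 2) else 0).sum * c) =
      (L.map fun e => sg (e % 2) * ex z (pt (e / 64) (g * lab (e / 2 % 32)))).sum := by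
  induction L with
  | nil => simp
  | cons e L ih =>
    simp only [List.map_cons, List.sum_cons]
    rw [← ih]
    simp only [add_mul]
    rw [Finsupp.sum_add]
    congr 1
    by_cases h : ∃ h : pt (e / 64) (g * lab (e / 2 % 32)) ≠ kap,
        (⟨pt (e / 64) (g * lab (e / 2 % 32)), h⟩ : N0) ∈ Sin
    · obtain ⟨h1, h2⟩ := h
      set v₀ : SIᵒᵈ := OrderDual.toDual (⟨⟨_, h1⟩, h2⟩ : SI) with hv₀
      have h3 : ex z (pt (e / 64) (g * lab (e / 2 % 32))) = z v₀ := ex_coe z v₀
      rw [h3]
      change (∑ v ∈ z.support, (if (OrderDual.ofDual v).1.1 =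
        pt (e / 64) (g * lab (e / 2 % 32)) then sg (e % 2) else 0) * z v) = _
      rw [Finset.sum_eq_single v₀]
      · rw [if_pos (show (OrderDual.ofDual v₀).1.1 = pt (e / 64) (g * lab (e / 2 % 32)) from rfl)]
      · intro v _ hv
        rw [if_neg, zero_mul]
        intro he
        apply hv
        apply OrderDual.ofDual.injective
        exact Subtype.ext (Subtype.ext he)
      · intro hv
        rw [Finsupp.notMem_support_iff.1 hv, mul_zero]
    · rw [ex_of_not z h, mul_zero]
      change (∑ v ∈ z.support, (if (OrderDual.ofDual v).1.1 =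
        pt (e / 64) (g * lab (e / 2 % 32)) then sg (e % 2) else 0) * z v) = _
      refine Finset.sum_eq_zero fun v _ => ?_
      rw [if_neg, zero_mul]
      intro he
      apply h
      rw [← he]
      exact ⟨(OrderDual.ofDual v).1.2, (OrderDual.ofDual v).2⟩

theorem sum_facI (F : ℕ → ℤ) (L : List ℕ) (hF : ∀ e ∈ L, isX (e / 64) = true → F e = 0) :
    (L.map F).sum = ((L.filter fun e => !isX (e / 64)).map F).sum := by
  induction L with
  | nil => simp
  | cons e L ih =>
    have ih' := ih fun e' he' => hF e' (List.mem_cons_of_mem _ he')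
    rw [List.map_cons, List.sum_cons, ih']
    by_cases h : isX (e / 64) = true
    · rw [hF e (by simp) h, zero_add, List.filter_cons_of_neg (by simp [h])]
    · rw [List.filter_cons_of_pos (by simpa using h), List.map_cons, List.sum_cons]

/-- the cycle condition at a 3-cell, in terms of the interior facets -/
theorem cyc_eq (z : SIᵒᵈ →₀ ℤ) (hd : ∀ u, (z.sum fun v c => lowS.ep u v * c) = 0) {j : ℕ}
    (hj : j < 321) (hj2 : 301 ≤ j) (g : G0) :
    ((facI j).map fun e => sg (e % 2) * ex z (pt (e / 64) (g * lab (e / 2 % 32)))).sum = 0 := by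
  have hS : ∃ h : pt j g ≠ kap, (⟨pt j g, h⟩ : N0) ∈ Sin := by
    refine ⟨pt_ne_kap _ _, j, g, by omega, by omega, ?_, rfl⟩
    unfold isX
    have h1 : Nat.blt j 274 = false := by
      rw [Bool.eq_false_iff, Ne, Nat.blt_eq]; omega
    have h2 : Nat.blt j 301 = false := by
      rw [Bool.eq_false_iff, Ne, Nat.blt_eq]; omega
    rw [h1, h2]
    simp
  obtain ⟨h1, h2⟩ := hS
  have h3 := hd (OrderDual.toDual (⟨⟨pt j g, h1⟩, h2⟩ : SI))
  have h4 : ∀ v : SIᵒᵈ, lowS.ep (OrderDual.toDual (⟨⟨pt j g, h1⟩, h2⟩ : SI)) v =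
      ((facL j).map fun e => if (OrderDual.ofDual v).1.1 = pt (e / 64) (g * lab (e / 2 % 32))
      then sg (e % 2) else 0).sum := by
    intro v
    show ep (OrderDual.ofDual v).1.1 (pt j g) = _
    rw [pt_lt hj]
    rfl
  simp only [h4] at h3
  rw [sum_ep] at h3
  rw [← h3]
  symm
  apply sum_facI
  intro e he hX
  have : e / 64 ≤ 321 := by
    have := isX_lt hX
    omega
  rw [ex_X z this hX, mul_zero]

theorem ex_fin (z : SIᵒᵈ →₀ ℤ) {i : ℕ} (hi : i < 321) : {g | ex z (pt i g) ≠ 0}.Finite := by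
  have h1 : {g | ex z (pt i g) ≠ 0} ⊆
      (fun g => pt i g) ⁻¹' ((fun v : SIᵒᵈ => (OrderDual.ofDual v).1.1) '' (z.support : Set SIᵒᵈ)) := by
    intro g hg
    have hg' : ex z (pt i g) ≠ 0 := hg
    by_cases h : ∃ h : pt i g ≠ kap, (⟨pt i g, h⟩ : N0) ∈ Sin
    · obtain ⟨h2, h3⟩ := h
      refine ⟨OrderDual.toDual (⟨⟨pt i g, h2⟩, h3⟩ : SI), ?_, rfl⟩
      rw [Finset.mem_coe, Finsupp.mem_support_iff]
      have h4 := ex_coe z (OrderDual.toDual (⟨⟨pt i g, h2⟩, h3⟩ : SI))
      rw [← h4]
      exact hg'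
    · exact absurd (ex_of_not z h) hg'
  refine Set.Finite.subset (Set.Finite.preimage ?_ (Set.Finite.image _ (Finset.finite_toSet _))) h1
  intro a _ b _ hab
  have hab' : pt i a = pt i b := hab
  rw [pt_eq_iff hi.le hi.le] at hab'
  rcases hab'.2 with h | ⟨h, -⟩
  · exact h
  · omega

theorem cellH_S : CellH lowS.rk lowS.ep 2 := by
  intro z hz hd
  have lab0 : lab 0 = 1 := rfl
  have lab13 : lab 13 = ga⁻¹ := rfl
  have lab14 : lab 14 = gb⁻¹ := rfl
  have lab15 : lab 15 = gc⁻¹ := rfl
  have lab16 : lab 16 = gd⁻¹ := rfl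
  have sg0 : sg 0 = 1 := rfl
  have sg1 : sg 1 = -1 := rfl
  set n : ℕ → G0 → ℤ := fun i g => ex z (pt i g) with hn
  have e302 : ∀ g, n 278 g + n 279 g = 0 := by
    intro g
    have h := cyc_eq z hd (j := 302) (by norm_num) (by norm_num) g
    rw [facI_302] at h
    norm_num [lab0, sg0] at h
    exact h
  have e303 : ∀ g, n 280 g + (n 281 g + (n 282 g + (n 283 g + n 284 g))) = 0 := by
    intro g
    have h := cyc_eq z hd (j := 303) (by norm_num) (by norm_num) g
    rw [facI_303] at h
    norm_num [lab0, sg0] at h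
    exact h
  have e304 : ∀ g, n 285 g + n 286 g = 0 := by
    intro g
    have h := cyc_eq z hd (j := 304) (by norm_num) (by norm_num) g
    rw [facI_304] at h
    norm_num [lab0, sg0] at h
    exact h
  have e305 : ∀ g, n 280 g + n 274 g = 0 := by
    intro g
    have h := cyc_eq z hd (j := 305) (by norm_num) (by norm_num) g
    rw [facI_305] at h
    norm_num [lab0, sg0] at h
    exact h
  have e306 : ∀ g, n 274 (g * ga⁻¹) + -n 284 g = 0 := by
    intro g
    have h := cyc_eq z hd (j := 306) (by norm_num) (by norm_num) g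
    rw [facI_306] at h
    norm_num [lab0, lab13, sg0, sg1] at h
    exact h
  have e307 : ∀ g, n 284 (g * gc⁻¹) + n 275 (g * ga⁻¹) = 0 := by
    intro g
    have h := cyc_eq z hd (j := 307) (by norm_num) (by norm_num) g
    rw [facI_307] at h
    norm_num [lab15, lab13, sg0] at h
    exact h
  have e308 : ∀ g, n 275 g + -n 277 (g * ga⁻¹) = 0 := by
    intro g
    have h := cyc_eq z hd (j := 308) (by norm_num) (by norm_num) g
    rw [facI_308] at h
    norm_num [lab0, lab13, sg0, sg1] at h
    exact h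
  have e309 : ∀ g, n 277 g + -n 280 (g * gc⁻¹) = 0 := by
    intro g
    have h := cyc_eq z hd (j := 309) (by norm_num) (by norm_num) g
    rw [facI_309] at h
    norm_num [lab0, lab15, sg0, sg1] at h
    exact h
  have e310 : ∀ g, n 278 g + n 276 g = 0 := by
    intro g
    have h := cyc_eq z hd (j := 310) (by norm_num) (by norm_num) g
    rw [facI_310] at h
    norm_num [lab0, sg0] at h
    exact h
  have e311 : ∀ g, n 276 (g * ga⁻¹) + -n 279 g = 0 := by
    intro g
    have h := cyc_eq z hd (j := 311) (by norm_num) (by norm_num) g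
    rw [facI_311] at h
    norm_num [lab0, lab13, sg0, sg1] at h
    exact h
  have e313 : ∀ g, n 281 g + -n 278 (g * gb⁻¹) = 0 := by
    intro g
    have h := cyc_eq z hd (j := 313) (by norm_num) (by norm_num) g
    rw [facI_313] at h
    norm_num [lab0, lab14, sg0, sg1] at h
    exact h
  have e314 : ∀ g, n 285 g + n 282 g = 0 := by
    intro g
    have h := cyc_eq z hd (j := 314) (by norm_num) (by norm_num) g
    rw [facI_314] at h
    norm_num [lab0, sg0] at h
    exact h
  have e315 : ∀ g, n 282 (g * gc⁻¹) + -n 286 g = 0 := by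
    intro g
    have h := cyc_eq z hd (j := 315) (by norm_num) (by norm_num) g
    rw [facI_315] at h
    norm_num [lab0, lab15, sg0, sg1] at h
    exact h
  have e317 : ∀ g, n 283 g + -n 285 (g * gd⁻¹) = 0 := by
    intro g
    have h := cyc_eq z hd (j := 317) (by norm_num) (by norm_num) g
    rw [facI_317] at h
    norm_num [lab0, lab16, sg0, sg1] at h
    exact h
  -- the face with centre `321`
  have n285 : ∀ g, n 285 g = 0 := by
    refine inv_zero (n 285) gc gc_inf (ex_fin z (by norm_num)) fun g => ?_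
    have h1 := e304 g
    have h2 := e315 g
    have h3 := e314 (g * gc⁻¹)
    linarith
  have n282 : ∀ g, n 282 g = 0 := by
    intro g
    have h1 := e314 g
    rw [n285] at h1
    linarith
  have n286 : ∀ g, n 286 g = 0 := by
    intro g
    have h1 := e304 g
    rw [n285] at h1
    linarith
  have n283 : ∀ g, n 283 g = 0 := by
    intro g
    have h1 := e317 g
    rw [n285] at h1
    linarith
  -- the face with centre `320`
  have n278 : ∀ g, n 278 g = 0 := by
    refine inv_zero (n 278) ga ga_inf (ex_fin z (by norm_num)) fun g => ?_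
    have h1 := e302 g
    have h2 := e311 g
    have h3 := e310 (g * ga⁻¹)
    linarith
  have n276 : ∀ g, n 276 g = 0 := by
    intro g
    have h1 := e310 g
    rw [n278] at h1
    linarith
  have n279 : ∀ g, n 279 g = 0 := by
    intro g
    have h1 := e302 g
    rw [n278] at h1
    linarith
  have n281 : ∀ g, n 281 g = 0 := by
    intro g
    have h1 := e313 g
    rw [n278] at h1
    linarith
  -- the face with centre `319`
  have n280 : ∀ g, n 280 g = 0 := by
    refine inv_zero (n 280) ga ga_inf (ex_fin z (by norm_num)) fun g => ?_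
    have h1 := e303 g
    rw [n281, n282, n283] at h1
    have h2 := e306 g
    have h3 := e305 (g * ga⁻¹)
    linarith
  have n274 : ∀ g, n 274 g = 0 := by
    intro g
    have h1 := e305 g
    rw [n280] at h1
    linarith
  have n284 : ∀ g, n 284 g = 0 := by
    intro g
    have h1 := e306 g
    rw [n274] at h1
    linarith
  have n277 : ∀ g, n 277 g = 0 := by
    intro g
    have h1 := e309 g
    rw [n280] at h1
    linarith
  have n275 : ∀ g, n 275 g = 0 := by
    intro g
    have h1 := e308 g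
    rw [n277] at h1
    linarith
  have hzero : z = 0 := by
    ext x
    by_contra hx
    have h1 : 4 - rk (OrderDual.ofDual x).1.1 = 2 := hz x (Finsupp.mem_support_iff.2 hx)
    have h2 := ex_coe z x
    obtain ⟨i, g, hi, hi2, hX, hxe⟩ := (OrderDual.ofDual x).2
    rw [hxe, rk_pt hi] at h1
    rw [hxe] at h2
    have h3 : i < 287 := by
      unfold Tab.dim at h1
      split_ifs at h1 <;> omega
    apply hx
    rw [← h2]
    show n i g = 0
    interval_cases i
    · exact n274 g
    · exact n275 g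
    · exact n276 g
    · exact n277 g
    · exact n278 g
    · exact n279 g
    · exact n280 g
    · exact n281 g
    · exact n282 g
    · exact n283 g
    · exact n284 g
    · exact n285 g
    · exact n286 g
  refine ⟨0, by simp, ?_⟩
  intro u
  rw [hzero]
  simp

/-- `H_2` of the coned presentation complex vanishes -/
theorem hzero_S : HZero {x : N0 // x ∈ Sin} 2 :=
  hzero_dual 2 (hzero_of_cellH lowS 4 (fun _ => Nat.sub_le _ _) 2 cellH_S)

end Pool.Agent.Helper635.PD4.RX
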