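import Pool.Agent.Helper635_PD4.RXScT
import Pool.Agent.Helper635_PD4.RXScU
import Pool.Agent.Helper635_PD4.RXScS

/-!
# Module S3: global properties of the explicit poset

The cells `274 ≤ i`, `isX i = false` are the interior cells. They form the opposite of the face
poset of the coned presentation complex of `G0`:
* `318` vertices `V_g`; `319, 320, 321` centres of the faces `f1, f3, f4` (the last one with
  stabilizer `⟨t⟩`);
* `301, 302, 303, 304` the edges `a, b, c, d` (from `V_g` to `V_{g e}`);
* `305 … 317` the segments from a face centre to a corner;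
* `274 … 286` the sectors of the faces.
-/

open scoped Classical

namespace Pool.Agent.Helper635.PD4.RX

open Tab

theorem conn_Q : Conn {x : RX // x ≠ kap ∧ x ∉ Zs} :=
  conn_Q_of exists_closure conn_S connZ

theorem sc_Q : SC {x : RX // x ≠ kap ∧ x ∉ Zs} :=
  sc_Q_of exists_closure sc_S scZ

theorem h2_Q : HZero {x : RX // x ≠ kap ∧ x ∉ Zs} 2 :=
  h2_Q_of exists_closure hzero_S

end Pool.Agent.Helper635.PD4.RX
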