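import Pool.Agent.Helper635_PD4.RX

/-!
# Boolean checks for the interior cells
-/

set_option maxRecDepth 100000

namespace Pool.Agent.Helper635.PD4.Tab

/-- some relations between interior cells: `(i, l, j)` stands for `pt i (h * lab l) ≤ pt j h` -/
def relsS : List (ℕ × ℕ × ℕ) :=
  [(274, 0, 301), (275, 0, 301), (276, 0, 301), (277, 0, 301), (301, 0, 318), (301, 13, 318),
   (278, 0, 302), (279, 0, 302), (302, 0, 318), (302, 14, 318), (280, 0, 303), (281, 0, 303),
   (282, 0, 303), (283, 0, 303), (284, 0, 303), (303, 0, 318), (303, 15, 318), (285, 0, 304),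
   (286, 0, 304), (304, 0, 318), (304, 16, 318), (280, 0, 305), (274, 0, 305), (305, 0, 318),
   (274, 13, 306), (284, 0, 306), (306, 0, 318), (284, 15, 307), (275, 13, 307), (307, 0, 318),
   (275, 0, 308), (277, 13, 308), (308, 0, 318), (277, 0, 309), (280, 15, 309), (309, 0, 318),
   (278, 0, 310), (276, 0, 310), (310, 0, 318), (276, 13, 311), (279, 0, 311), (311, 0, 318),
   (279, 14, 312), (281, 15, 312), (312, 0, 318), (281, 0, 313), (278, 14, 313), (313, 0, 318),
   (285, 0, 314), (282, 0, 314), (314, 0, 318), (282, 15, 315), (286, 0, 315), (315, 0, 318),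
   (286, 16, 316), (283, 15, 316), (316, 0, 318), (283, 0, 317), (285, 16, 317), (317, 0, 318),
   (274, 0, 318), (275, 0, 318), (276, 0, 318), (277, 0, 318), (278, 0, 318), (279, 0, 318),
   (280, 0, 318), (281, 0, 318), (282, 0, 318), (283, 0, 318), (284, 0, 318), (285, 0, 318),
   (286, 0, 318), (305, 0, 319), (306, 1, 319), (307, 5, 319), (308, 6, 319), (309, 3, 319),
   (310, 0, 320), (311, 1, 320), (312, 7, 320), (313, 2, 320), (314, 0, 321), (315, 3, 321),
   (316, 8, 321), (317, 9, 321), (314, 10, 321), (315, 11, 321), (316, 12, 321), (317, 4, 321)]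

theorem relsS_ok :
    relsS.all (fun p => mem (maskOf (cloL p.2.2)) (32 * p.1 + p.2.1) && Nat.blt p.2.1 32 &&
      Nat.ble p.2.2 321 && !isX p.1 && !isX p.2.2) = true := by
  decide +kernel

/-- check: the interior cells below cell `318` -/
def chkVS : Bool := (cloL 318).all fun c =>
  isX (c / 32) || Nat.beq (c % 32) 0 ||
    (Nat.beq (c % 32) 13 && (Nat.beq (c / 32) 301 || (Nat.ble 274 (c / 32) && Nat.ble (c / 32) 277))) ||
    (Nat.beq (c % 32) 14 && (Nat.beq (c / 32) 302 || (Nat.ble 278 (c / 32) && Nat.ble (c / 32) 279))) ||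
    (Nat.beq (c % 32) 15 && (Nat.beq (c / 32) 303 || (Nat.ble 280 (c / 32) && Nat.ble (c / 32) 284))) ||
    (Nat.beq (c % 32) 16 && (Nat.beq (c / 32) 304 || (Nat.ble 285 (c / 32) && Nat.ble (c / 32) 286)))

theorem chkVS_ok : chkVS = true := by decide +kernel

/-- check: the interior cells below a face centre -/
def chkFace (j : ℕ) (L : List (ℕ × ℕ)) : Bool := (cloL j).all fun c =>
  isX (c / 32) || Nat.beq c (32 * j) ||
    L.any fun p => Nat.beq (c % 32) p.2 &&
      (Nat.beq (c / 32) p.1 || mem (maskOf (cloL p.1)) (32 * (c / 32)))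

/-- the segments below a face centre -/
def segL : ℕ → List (ℕ × ℕ)
  | 319 => [(305, 0), (306, 1), (307, 5), (308, 6), (309, 3)]
  | 320 => [(310, 0), (311, 1), (312, 7), (313, 2)]
  | 321 => [(314, 0), (315, 3), (316, 8), (317, 9), (314, 10), (315, 11), (316, 12), (317, 4)]
  | _ => []

theorem chkFace_ok : (chkFace 319 (segL 319) && chkFace 320 (segL 320) && chkFace 321 (segL 321)) =
    true := by decide +kernel

/-- check: the low interior cells lie below the vertex with the same label -/
theorem low_ok : (List.range 318).all (fun i => isX i || relsS.contains (i, 0, 318)) = true := by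
  decide +kernel

/-- check: the lists of segments consist of relations -/
theorem segL_ok : ((segL 319).all (fun p => relsS.contains (p.1, p.2, 319)) &&
    (segL 320).all (fun p => relsS.contains (p.1, p.2, 320)) &&
    (segL 321).all (fun p => relsS.contains (p.1, p.2, 321))) = true := by decide +kernel

end Pool.Agent.Helper635.PD4.Tab
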