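import Pool.Agent.Helper635_PD4.Chk

/-!
# Boolean checks of the tables for `RXScT`
-/

set_option maxRecDepth 100000

namespace Pool.Agent.Helper635.PD4.Tab

/-- interior cells -/
def intr (i : ℕ) : Bool := Nat.ble 274 i && !isX i

/-- the element with code `e0` lies below the one with code `e` -/
def lblOK (e e0 : ℕ) : Bool :=
  (List.range 17).any fun l =>
    (Nat.beq (mulT l (e0 % 32)) (e % 32) ||
      (Nat.beq (e / 32) 321 && (Nat.beq (mulT l (e0 % 32)) (tmul (e % 32)) &&
        Nat.blt (tmul (e % 32)) 17))) &&
    mem (maskOf (cloL (e / 32))) (32 * (e0 / 32) + l)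

/-- check: a cell of the boundary lies below a least interior cell -/
def chkCl (i : ℕ) : Bool :=
  !isX i || (upL i).any fun e0 => intr (e0 / 32) &&
    (upL i).all fun e => !(intr (e / 32)) || lblOK e e0

theorem chkCl_all : (List.range 322).all chkCl = true := by decide +kernel

/-- check: the numbers in the lists `upL` are small -/
theorem chkUT_all : (List.range 322).all (fun i => (upL i).all fun e => Nat.blt (e / 32) 322) =
    true := by decide +kernel

/-- the codes of the elements below the one with code `k` -/
def dnL (k : ℕ) : List ℕ := (cloL (k / 32)).map fun e => 32 * (e / 32) + mulT (k % 32) (e % 32)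

/-- the mask of the codes below `k` -/
def dnM (k : ℕ) : ℕ := maskOf (dnL k)

/-- the maximal codes below the special cell, in a good order -/
def mxs : List ℕ := [10124, 9600, 10153, 10048, 10148, 10120, 10058, 10083, 9610, 10091]

def mxT (i : ℕ) : ℕ := mxs.getD i 0

/-- the codes covered by the first `i` maximal codes -/
def covM : ℕ → ℕ
  | 0 => 0
  | i + 1 => Nat.lor (covM i) (dnM (mxT i))

/-- check: the maximal codes are codes below the special cell, and cover everything -/
def chkZ : Bool :=
  (mxs.all fun k => mem (maskOf (cloL 321)) k && !(Nat.beq k 10272)) &&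
    (cloL 321).all fun k => Nat.beq k 10272 || mem (covM 10) k

theorem chkZ_all : chkZ = true := by decide +kernel

/-- maximal elements of the intersections -/
def cert : List (List ℕ) := [[], [3108, 6956, 8044], [7049, 8105, 3113], [7936, 2176, 6816],
  [9120, 8132, 9060, 7012], [8072, 6984, 9065], [9130, 6858, 7914, 2218],
  [6915, 9024, 8003, 9155],
  [8736, 7904, 8746, 6826, 6848, 6883, 7946, 7971, 6952, 6988, 8040, 7017, 7044, 8076, 8100, 8137],
  [6923, 7979, 9034, 8011, 9163, 6891]]

/-- every new element meets the part which is already covered; at the end `T` is covered -/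
def okc (T : ℕ) : ℕ → List ℕ → Bool
  | cov, [] => Nat.beq (Nat.lor T cov) cov
  | cov, s :: L => !(Nat.beq (Nat.land (dnM s) cov) 0) && okc T (Nat.lor cov (dnM s)) L

def okh (T : ℕ) : List ℕ → Bool
  | [] => false
  | s :: L => (s :: L).all (fun k => mem T k) && okc T (dnM s) L

/-- the mask of the intersection -/
def intM (i : ℕ) : ℕ := Nat.land (dnM (mxT i)) (covM i)

/-- check: the intersections are connected -/
def chkIT (i : ℕ) : Bool := Nat.beq i 0 || okh (intM i) (cert.getD i [])

theorem chkI_all : (List.range 10).all chkIT = true := by decide +kernel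

end Pool.Agent.Helper635.PD4.Tab
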