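import Pool.Agent.Helper635_PD4.RXScDef
import Pool.Agent.Helper635_PD4.RXScTChk

/-!
# Module S3, part T: the closure operator, the lower sets of the special cells
-/

open scoped Classical

set_option maxRecDepth 100000

namespace Pool.Agent.Helper635.PD4.RX

open Tab

/-! ### closure -/

theorem intr_iff (i : ℕ) : intr i = true ↔ 274 ≤ i ∧ isX i = false := by
  unfold intr
  rw [Bool.and_eq_true, Nat.ble_eq, Bool.not_eq_true']

/-- the elements above `pt i g` -/
theorem up_cases {i : ℕ} (hi : i < 321) {g : G0} {w : ℕ} {h : G0} (hw : w ≤ 321)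
    (hle : pt i g ≤ pt w h) : ∃ e ∈ upL i, e / 32 = w ∧ pt w h = pt w (g * (lab (e % 32))⁻¹) := by
  rw [le_pt_iff hw] at hle
  obtain ⟨c, hc, hx⟩ := hle
  obtain ⟨f1, f2, f3, f4⟩ := clo_facts (j := w) (by omega) hc
  rw [pt_eq_iff (by omega) (by omega)] at hx
  obtain ⟨h1, h2⟩ := hx
  have h3 : g = h * lab (c % 32) := by
    rcases h2 with h2 | ⟨h2, _⟩
    · exact h2
    · omega
  have hB := all_range chkB_all (j := w) (by omega)
  unfold chkB at hB
  rw [List.all_eq_true] at hB
  have hB2 := hB c hc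
  rw [Bool.or_eq_true, Bool.and_eq_true] at hB2
  rw [← h1] at hB2
  rcases hB2 with hB2 | ⟨hB2, hB3⟩
  · rw [mem_maskOf] at hB2
    refine ⟨_, hB2, by omega, ?_⟩
    have : (32 * w + c % 32) % 32 = c % 32 := by omega
    rw [this, h3]
    congr 1
    group
  · rw [mem_maskOf] at hB3
    have hw321 : w = 321 := by simpa using hB2
    have hA := all_range chkA_all (j := i) (by omega)
    unfold chkA at hA
    rw [List.all_eq_true] at hA
    have hA2 := hA _ hB3
    have hm : mulT 10 (c % 32) < 32 := by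
      unfold mulT
      exact Nat.mod_lt _ (by norm_num)
    have e1 : (32 * w + tmul (c % 32)) / 32 = w := by unfold tmul; omega
    have e2 : (32 * w + tmul (c % 32)) % 32 = tmul (c % 32) := by unfold tmul; omega
    rw [e1, e2, mem_maskOf] at hA2
    obtain ⟨k1, k2, k3, k4⟩ := clo_facts (j := w) (by omega) hA2
    have e3 : (32 * i + tmul (c % 32)) % 32 = tmul (c % 32) := by unfold tmul; omega
    rw [e3] at k1
    refine ⟨_, hB3, e1, ?_⟩
    rw [e2]
    have e4 : lab (tmul (c % 32)) = gt * lab (c % 32) := by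
      unfold tmul at k1 ⊢
      rw [lab_mul (by norm_num) f1 k1]
      rfl
    rw [e4, h3, pt_eq_iff hw hw]
    refine ⟨rfl, Or.inr ⟨hw321, ?_⟩⟩
    have : h⁻¹ * (h * lab (c % 32) * (gt * lab (c % 32))⁻¹) = gt⁻¹ := by group
    rw [this]
    exact Subgroup.inv_mem _ (Subgroup.mem_zpowers gt)

theorem up_le {i : ℕ} (hi : i < 322) (g : G0) {e : ℕ} (he : e ∈ upL i) :
    e / 32 ≤ 321 ∧ e % 32 < 17 ∧ pt i g ≤ pt (e / 32) (g * (lab (e % 32))⁻¹) := by
  have hA := all_range chkA_all (j := i) hi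
  unfold chkA at hA
  rw [List.all_eq_true] at hA
  have hA2 := hA _ he
  rw [mem_maskOf] at hA2
  have hw : e / 32 ≤ 321 := by
    have hU := all_range chkUT_all (j := i) hi
    rw [List.all_eq_true] at hU
    have := hU e he
    rw [Nat.blt_eq] at this
    omega
  obtain ⟨k1, k2, k3, k4⟩ := clo_facts (j := e / 32) (by omega) hA2
  have e3 : (32 * i + e % 32) % 32 = e % 32 := by omega
  have e4 : (32 * i + e % 32) / 32 = i := by omega
  rw [e3] at k1
  refine ⟨hw, k1, ?_⟩
  rw [le_pt_iff hw]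
  refine ⟨_, hA2, ?_⟩
  rw [e3, e4]
  congr 1
  group

theorem exists_closure_pt {i : ℕ} (hi : i ≤ 321) (g : G0) :
    ∃ w h, w ≤ 321 ∧ 274 ≤ w ∧ isX w = false ∧ pt i g ≤ pt w h ∧
      ∀ w' h', w' ≤ 321 → 274 ≤ w' → isX w' = false → pt i g ≤ pt w' h' → pt w h ≤ pt w' h' := by
  by_cases hX : isX i = true
  · have hi' := isX_lt hX
    have hC := all_range chkCl_all (j := i) (by omega)
    unfold chkCl at hC
    rw [hX, Bool.not_true, Bool.false_or, List.any_eq_true] at hC
    obtain ⟨e0, he0, hC⟩ := hC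
    rw [Bool.and_eq_true, List.all_eq_true, intr_iff] at hC
    obtain ⟨⟨h1, h2⟩, hC⟩ := hC
    obtain ⟨u1, u2, u3⟩ := up_le (i := i) (by omega) g he0
    refine ⟨e0 / 32, g * (lab (e0 % 32))⁻¹, u1, h1, h2, u3, ?_⟩
    intro w' h' hw1 hw2 hw3 hle
    obtain ⟨e, he, hew, hpt⟩ := up_cases (by omega) hw1 hle
    rw [hpt]
    have hC2 := hC e he
    rw [Bool.or_eq_true, Bool.not_eq_true'] at hC2
    have h4 : intr (e / 32) = true := by rw [intr_iff, hew]; exact ⟨hw2, hw3⟩
    rcases hC2 with hC2 | hC2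
    · rw [h4] at hC2; exact absurd hC2 (by simp)
    · unfold lblOK at hC2
      rw [List.any_eq_true] at hC2
      obtain ⟨l, hl, hC3⟩ := hC2
      rw [List.mem_range] at hl
      rw [Bool.and_eq_true, mem_maskOf, Bool.or_eq_true, Bool.and_eq_true, Bool.and_eq_true,
        Nat.beq_eq, Nat.beq_eq, Nat.beq_eq, Nat.blt_eq, hew] at hC3
      obtain ⟨hC4, hC5⟩ := hC3
      obtain ⟨v1, v2, v3⟩ := up_le (i := i) (by omega) g he
      have e3 : (32 * (e0 / 32) + l) % 32 = l := by omega
      have e4 : (32 * (e0 / 32) + l) / 32 = e0 / 32 := by omega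
      rcases hC4 with hC4 | ⟨hC4, hC6, hC7⟩
      · rw [le_pt_iff hw1]
        refine ⟨_, hC5, ?_⟩
        rw [e3, e4]
        have : lab (e % 32) = lab l * lab (e0 % 32) := by
          rw [← hC4, lab_mul hl u2 (by rw [hC4]; exact v2)]
        rw [this]
        congr 1
        group
      · have k1 : lab (tmul (e % 32)) = gt * lab (e % 32) := by
          unfold tmul at hC7 ⊢
          rw [lab_mul (by norm_num) v2 hC7]
          rfl
        have k2 : lab (tmul (e % 32)) = lab l * lab (e0 % 32) := by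
          rw [← hC6, lab_mul hl u2 (by rw [hC6]; exact hC7)]
        have k3 : pt w' (g * (lab (e % 32))⁻¹) = pt w' (g * (lab (tmul (e % 32)))⁻¹) := by
          rw [k1, pt_eq_iff hw1 hw1]
          refine ⟨rfl, Or.inr ⟨hC4, ?_⟩⟩
          have : (g * (lab (e % 32))⁻¹)⁻¹ * (g * (gt * lab (e % 32))⁻¹) = gt⁻¹ := by group
          rw [this]
          exact Subgroup.inv_mem _ (Subgroup.mem_zpowers gt)
        rw [k3, k2, le_pt_iff hw1]
        refine ⟨_, hC5, ?_⟩
        rw [e3, e4]
        congr 1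
        group
  · have hX : isX i = false := by simpa using hX
    have h274 : 274 ≤ i := by
      by_contra hcon
      unfold isX at hX
      rw [Bool.or_eq_false_iff] at hX
      have : Nat.blt i 274 = true := by rw [Nat.blt_eq]; omega
      rw [this] at hX
      exact absurd hX.1 (by simp)
    exact ⟨i, g, hi, h274, hX, le_refl _, fun _ _ _ _ _ h => h⟩

/-- every element lies under a least interior cell (needs a table check) -/
theorem exists_closure : ∃ f : N0 → N0, (∀ x, f x ∈ Sin) ∧ (∀ x, x ≤ f x) ∧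
    (∀ x, ∀ s ∈ Sin, x ≤ s → f x ≤ s) := by
  have h : ∀ x : N0, ∃ y : N0, y ∈ Sin ∧ x ≤ y ∧ ∀ s ∈ Sin, x ≤ s → y ≤ s := by
    rintro ⟨x, hx⟩
    obtain ⟨i, g, hi, rfl⟩ := exists_pt x hx
    obtain ⟨w, h, h1, h2, h3, h4, h5⟩ := exists_closure_pt hi g
    refine ⟨⟨pt w h, pt_ne_kap _ _⟩, ⟨w, h, h1, h2, h3, rfl⟩, h4, ?_⟩
    rintro ⟨s, hs⟩ ⟨w', h', k1, k2, k3, k4⟩ hle
    subst k4
    exact h5 w' h' k1 k2 k3 hle
  choose f hf using h
  exact ⟨f, fun x => (hf x).1, fun x => (hf x).2.1, fun x => (hf x).2.2⟩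

/-! ### codes below a special cell -/

section
variable (g : G0)

/-- the element with code `k` -/
def FF (k : ℕ) : RX := pt (k / 32) (g * lab (k % 32))

theorem FF_z : FF g 10272 = pt 321 g := by
  unfold FF
  have h1 : 10272 / 32 = 321 := by norm_num
  have h2 : 10272 % 32 = 0 := by norm_num
  rw [h1, h2]
  simp [lab]

theorem le_z (x : RX) : x ≤ pt 321 g ↔ ∃ k ∈ cloL 321, x = FF g k := le_pt_iff (le_refl _) g x

theorem code_lt {k : ℕ} (hk : k ∈ cloL 321) : k / 32 < 322 ∧ k % 32 < 17 := by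
  obtain ⟨h1, _, h3, _⟩ := clo_facts (j := 321) (by norm_num) hk
  exact ⟨h3, h1⟩

theorem FF_inj {k k' : ℕ} (hk : k ∈ cloL 321) (hk' : k' ∈ cloL 321) (h : FF g k = FF g k') :
    k = k' := by
  obtain ⟨h1, h2⟩ := code_lt hk
  obtain ⟨h1', h2'⟩ := code_lt hk'
  unfold FF at h
  rw [pt_eq_iff (by omega) (by omega)] at h
  obtain ⟨h3, h4⟩ := h
  by_cases h5 : k / 32 = 321
  · have e1 := (pt_321_of_div (j := 321) (le_refl _) hk h5).2
    have e2 := (pt_321_of_div (j := 321) (le_refl _) hk' (by rw [← h3]; exact h5)).2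
    rw [e1, e2]
  · rcases h4 with h4 | ⟨h4, _⟩
    · have h6 := lab_inj _ h2 _ h2' (mul_left_cancel h4)
      omega
    · exact absurd h4 h5

theorem mem_dnL {k k' : ℕ} (hk : k ∈ cloL 321) (hk' : k' ∈ dnL k) :
    k' ∈ cloL 321 ∧ FF g k' ≤ FF g k := by
  unfold dnL at hk'
  rw [List.mem_map] at hk'
  obtain ⟨e, he, rfl⟩ := hk'
  obtain ⟨t1, t2⟩ := clo_trans (j := 321) (by norm_num) hk he
  refine ⟨t2, ?_⟩
  obtain ⟨h1, h2⟩ := code_lt hk
  obtain ⟨f1, _, _, _⟩ := clo_facts h1 he
  unfold FF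
  rw [le_pt_iff (by omega)]
  refine ⟨e, he, ?_⟩
  have e1 : (32 * (e / 32) + mulT (k % 32) (e % 32)) / 32 = e / 32 := by omega
  have e2 : (32 * (e / 32) + mulT (k % 32) (e % 32)) % 32 = mulT (k % 32) (e % 32) := by omega
  rw [e1, e2, lab_mul h2 f1 t1, mul_assoc]

theorem le_FF {k : ℕ} (hk : k ∈ cloL 321) (x : RX) (h : x ≤ FF g k) :
    ∃ k' ∈ dnL k, x = FF g k' := by
  obtain ⟨h1, h2⟩ := code_lt hk
  unfold FF at h
  rw [le_pt_iff (by omega)] at h
  obtain ⟨e, he, rfl⟩ := h
  obtain ⟨t1, t2⟩ := clo_trans (j := 321) (by norm_num) hk he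
  obtain ⟨f1, _, _, _⟩ := clo_facts h1 he
  refine ⟨32 * (e / 32) + mulT (k % 32) (e % 32), List.mem_map.2 ⟨e, he, rfl⟩, ?_⟩
  unfold FF
  have e1 : (32 * (e / 32) + mulT (k % 32) (e % 32)) / 32 = e / 32 := by omega
  have e2 : (32 * (e / 32) + mulT (k % 32) (e % 32)) % 32 = mulT (k % 32) (e % 32) := by omega
  rw [e1, e2, lab_mul h2 f1 t1, mul_assoc]

theorem bit_dnM (k k' : ℕ) : (dnM k).testBit k' = true ↔ k' ∈ dnL k := by
  unfold dnM
  rw [← mem_iff, mem_maskOf]

theorem bit_covM (i k : ℕ) : (covM i).testBit k = true ↔ ∃ j < i, k ∈ dnL (mxT j) := by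
  induction i with
  | zero => simp [covM]
  | succ i ih =>
    show (covM i ||| dnM (mxT i)).testBit k = true ↔ _
    rw [Nat.testBit_or, Bool.or_eq_true, ih, bit_dnM]
    constructor
    · rintro (⟨j, hj, h⟩ | h)
      · exact ⟨j, by omega, h⟩
      · exact ⟨i, by omega, h⟩
    · rintro ⟨j, hj, h⟩
      rcases Nat.lt_succ_iff_lt_or_eq.1 hj with h1 | rfl
      · exact Or.inl ⟨j, h1, h⟩
      · exact Or.inr h

theorem bit_intM (i k : ℕ) : (intM i).testBit k = true ↔
    k ∈ dnL (mxT i) ∧ ∃ j < i, k ∈ dnL (mxT j) := by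
  show (dnM (mxT i) &&& covM i).testBit k = true ↔ _
  rw [Nat.testBit_and, Bool.and_eq_true, bit_dnM, bit_covM]

theorem mx_mem {i : ℕ} (hi : i < 10) : mxT i ∈ cloL 321 ∧ mxT i ≠ 10272 := by
  have h := chkZ_all
  unfold chkZ at h
  rw [Bool.and_eq_true, List.all_eq_true] at h
  have h1 : mxT i ∈ mxs := by
    unfold mxT
    rw [List.getD_eq_getElem _ _ (show i < mxs.length from hi)]
    exact List.getElem_mem _
  have h2 := h.1 _ h1
  rw [Bool.and_eq_true, mem_maskOf, Bool.not_eq_true'] at h2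
  refine ⟨h2.1, ?_⟩
  intro h3
  rw [h3] at h2
  exact absurd h2.2 (by decide)

theorem cov_all {k : ℕ} (hk : k ∈ cloL 321) : k = 10272 ∨ ∃ j < 10, k ∈ dnL (mxT j) := by
  have h := chkZ_all
  unfold chkZ at h
  rw [Bool.and_eq_true, List.all_eq_true, List.all_eq_true] at h
  have h2 := h.2 _ hk
  rw [Bool.or_eq_true, Nat.beq_eq, mem_iff, bit_covM] at h2
  exact h2

/-- the lower set -/
abbrev PZ : Type := {x : RX // x < pt 321 g}

theorem lt_z {k : ℕ} (hk : k ∈ cloL 321) (hne : k ≠ 10272) : FF g k < pt 321 g := by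
  refine lt_of_le_of_ne ((le_z g _).2 ⟨k, hk, rfl⟩) ?_
  intro h
  rw [← FF_z] at h
  apply hne
  refine FF_inj g hk ?_ h
  have := clo_self (j := 321) (by norm_num)
  exact this

/-- the pieces of the cover -/
def LZ (i : ℕ) : Set (PZ g) := {x | x.1 ≤ FF g (mxT i)}

theorem LZ_top {i : ℕ} (hi : i < 10) : Conn {x : PZ g // x ∈ LZ g i} ∧
    SC {x : PZ g // x ∈ LZ g i} := by
  obtain ⟨h1, h2⟩ := mx_mem hi
  refine sc_of_greatest (P := {x : PZ g // x ∈ LZ g i})
    ⟨⟨FF g (mxT i), lt_z g h1 h2⟩, le_refl (FF g (mxT i))⟩ ?_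
  rintro ⟨x, hx⟩
  exact hx

/-- the intersection as a set -/
def IZ (i : ℕ) : Set (PZ g) := {x | x ∈ LZ g i ∧ ∃ j < i, x ∈ LZ g j}

/-- `x` lies in the intersection and is connected to `b` -/
def Cn (i : ℕ) (b : {x : PZ g // x ∈ LZ g i ∧ ∃ j < i, x ∈ LZ g j}) (x : RX) : Prop :=
  ∃ (h1 : x < pt 321 g) (h2 : (⟨x, h1⟩ : PZ g) ∈ LZ g i ∧ ∃ j < i, (⟨x, h1⟩ : PZ g) ∈ LZ g j),
    Relation.EqvGen (fun a b => a ≤ b)
      (⟨⟨x, h1⟩, h2⟩ : {x : PZ g // x ∈ LZ g i ∧ ∃ j < i, x ∈ LZ g j}) b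

/-- lies in the intersection -/
def In (i : ℕ) (x : RX) : Prop :=
  ∃ (h1 : x < pt 321 g), (⟨x, h1⟩ : PZ g) ∈ LZ g i ∧ ∃ j < i, (⟨x, h1⟩ : PZ g) ∈ LZ g j

theorem Cn_up {i : ℕ} {b} {x y : RX} (h : Cn g i b x) (hxy : x ≤ y) (hy : In g i y) :
    Cn g i b y := by
  obtain ⟨h1, h2, h3⟩ := h
  obtain ⟨k1, k2⟩ := hy
  refine ⟨k1, k2, ?_⟩
  refine Relation.EqvGen.trans _ _ _ (Relation.EqvGen.symm _ _ (Relation.EqvGen.rel _ _ ?_)) h3
  exact hxy

theorem Cn_dn {i : ℕ} {b} {x y : RX} (h : Cn g i b x) (hxy : y ≤ x) : Cn g i b y := by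
  obtain ⟨h1, ⟨h2, j, hj, h3⟩, h4⟩ := h
  refine ⟨lt_of_le_of_lt hxy h1, ⟨le_trans hxy h2, j, hj, le_trans hxy h3⟩, ?_⟩
  refine Relation.EqvGen.trans _ _ _ (Relation.EqvGen.rel _ _ ?_) h4
  exact hxy

theorem In_bit {i : ℕ} (hi : i < 10) {k : ℕ} (h : (intM i).testBit k = true) :
    k ∈ cloL 321 ∧ In g i (FF g k) := by
  rw [bit_intM] at h
  obtain ⟨h1, j, hj, h2⟩ := h
  obtain ⟨m1, m2⟩ := mx_mem hi
  obtain ⟨n1, n2⟩ := mx_mem (show j < 10 by omega)
  obtain ⟨a1, a2⟩ := mem_dnL g m1 h1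
  obtain ⟨b1, b2⟩ := mem_dnL g n1 h2
  refine ⟨a1, lt_of_le_of_lt a2 (lt_z g m1 m2), a2, j, hj, b2⟩

theorem okc_sound {i : ℕ} (hi : i < 10) (b) : ∀ (L : List ℕ) (cov : ℕ),
    (∀ k, cov.testBit k = true → Cn g i b (FF g k)) →
    (∀ k ∈ L, (intM i).testBit k = true) → okc (intM i) cov L = true →
    ∀ k, (intM i).testBit k = true → Cn g i b (FF g k) := by
  intro L
  induction L with
  | nil =>
    intro cov h1 _ h2 k hk
    unfold okc at h2
    rw [Nat.beq_eq] at h2
    apply h1
    rw [← h2]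
    show (intM i ||| cov).testBit k = true
    rw [Nat.testBit_or, hk, Bool.true_or]
  | cons s L ih =>
    intro cov h1 h2 h3 k hk
    unfold okc at h3
    rw [Bool.and_eq_true, Bool.not_eq_true'] at h3
    obtain ⟨h4, h5⟩ := h3
    have h6 : dnM s &&& cov ≠ 0 := by
      intro h
      have : Nat.beq (Nat.land (dnM s) cov) 0 = true := by
        rw [Nat.beq_eq]; exact h
      rw [this] at h4
      exact absurd h4 (by simp)
    obtain ⟨k0, hk0⟩ := Nat.exists_testBit_of_ne_zero h6
    rw [Nat.testBit_and, Bool.and_eq_true, bit_dnM] at hk0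
    obtain ⟨s1, s2⟩ := In_bit g hi (h2 s (by simp))
    have h7 := Cn_up g (h1 k0 hk0.2) (mem_dnL g s1 hk0.1).2 s2
    refine ih (Nat.lor cov (dnM s)) ?_ (fun k hk => h2 k (by simp [hk])) h5 k hk
    intro k' hk'
    have hk' : (cov ||| dnM s).testBit k' = true := hk'
    rw [Nat.testBit_or, Bool.or_eq_true, bit_dnM] at hk'
    rcases hk' with hk' | hk'
    · exact h1 k' hk'
    · exact Cn_dn g h7 (mem_dnL g s1 hk').2

theorem IZ_conn {i : ℕ} (hi : i < 10) (hi1 : 1 ≤ i) :
    Conn {x : PZ g // x ∈ LZ g i ∧ ∃ j < i, x ∈ LZ g j} := by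
  have h := all_range chkI_all hi
  unfold chkIT at h
  rw [Bool.or_eq_true, Nat.beq_eq] at h
  have h1 : okh (intM i) (cert.getD i []) = true := by
    rcases h with h | h
    · omega
    · exact h
  generalize cert.getD i [] = C at h1
  rcases C with _ | ⟨s, L⟩
  · exact absurd h1 (by simp [okh])
  · unfold okh at h1
    rw [Bool.and_eq_true, List.all_eq_true] at h1
    obtain ⟨h2, h3⟩ := h1
    have h2' : ∀ k ∈ s :: L, (intM i).testBit k = true := fun k hk => (mem_iff _ _).1 (h2 k hk)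
    obtain ⟨s1, s2, s3⟩ := In_bit g hi (h2' s (by simp))
    set b : {x : PZ g // x ∈ LZ g i ∧ ∃ j < i, x ∈ LZ g j} := ⟨⟨FF g s, s2⟩, s3⟩ with hb
    have hall := okc_sound g hi b L (dnM s) (by
      intro k hk
      rw [bit_dnM] at hk
      have h4 : Cn g i b (FF g s) := ⟨s2, s3, Relation.EqvGen.refl _⟩
      exact Cn_dn g h4 (mem_dnL g s1 hk).2) (fun k hk => h2' k (by simp [hk])) h3
    have hall' : ∀ x : {x : PZ g // x ∈ LZ g i ∧ ∃ j < i, x ∈ LZ g j},
        Relation.EqvGen (fun a b => a ≤ b) x b := by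
      rintro ⟨⟨x, hx⟩, hx1, j, hj, hx2⟩
      obtain ⟨m1, m2⟩ := mx_mem hi
      obtain ⟨n1, n2⟩ := mx_mem (show j < 10 by omega)
      obtain ⟨k, hk, hxk⟩ := le_FF g m1 x hx1
      obtain ⟨k', hk', hxk'⟩ := le_FF g n1 x hx2
      have hkk : k = k' := FF_inj g (mem_dnL g m1 hk).1 (mem_dnL g n1 hk').1 (by
        rw [← hxk, hxk'])
      subst hkk
      obtain ⟨q1, q2, q3⟩ := hall k ((bit_intM i k).2 ⟨hk, j, hj, hk'⟩)
      subst hxk
      exact q3
    refine ⟨⟨b⟩, ?_⟩
    intro x y
    exact Relation.EqvGen.trans _ _ _ (hall' x) (Relation.EqvGen.symm _ _ (hall' y))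

theorem conn_sc_Z : Conn (PZ g) ∧ SC (PZ g) := by
  refine sc_of_cover 10 (LZ g) (by norm_num) ?_ ?_ (fun i hi => (LZ_top g hi).1)
    (fun i hi => (LZ_top g hi).2) (fun i hi h1 => IZ_conn g hi h1)
  · intro i x hx y hyx
    exact le_trans (show y.1 ≤ x.1 from hyx) hx
  · rintro ⟨x, hx⟩
    obtain ⟨k, hk, rfl⟩ := (le_z g x).1 hx.le
    rcases cov_all hk with rfl | ⟨j, hj, h⟩
    · rw [FF_z] at hx
      exact absurd rfl hx.ne
    · exact ⟨j, hj, (mem_dnL g (mx_mem hj).1 h).2⟩

end

/-- the lower sets of the special cells are connected and simply connected (3-spheres) -/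
theorem connZ : ∀ z ∈ Zs, Conn {x : RX // x < z} := by
  rintro z ⟨q, rfl⟩
  obtain ⟨g, rfl⟩ := QuotientGroup.mk_surjective q
  rw [← pt_321]
  exact (conn_sc_Z g).1

theorem scZ : ∀ z ∈ Zs, SC {x : RX // x < z} := by
  rintro z ⟨q, rfl⟩
  obtain ⟨g, rfl⟩ := QuotientGroup.mk_surjective q
  rw [← pt_321]
  exact (conn_sc_Z g).2

/-! ### the first homology of the lower sets -/

theorem good_transport {Q Q' : Type*} [PartialOrder Q] [PartialOrder Q'] (φ : Q → Q')
    (hφ : Function.Injective φ) (x y : Q) (himg : φ '' Set.Icc x y = Set.Icc (φ x) (φ y))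
    (E : Q → Q → ℤ) (E' : Q' → Q' → ℤ)
    (hE : ∀ u v, E' (φ u) (φ v) = E u v) (h : Good E' (φ x) (φ y)) : Good E x y := by
  have hfin : (Set.Icc x y).Finite := by
    have := h.fin
    rw [← himg] at this
    exact this.of_finite_image hφ.injOn
  have hS : h.fin.toFinset = hfin.toFinset.image φ := by
    ext u
    simp only [Set.Finite.mem_toFinset, Finset.mem_image]
    rw [← himg]
    rfl
  have hsum : ∀ f : Q' → ℤ, ∑ v ∈ h.fin.toFinset, f v = ∑ v ∈ hfin.toFinset, f (φ v) := by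
    intro f
    rw [hS, Finset.sum_image (fun a _ b _ hab => hφ hab)]
  have hmem : ∀ u ∈ hfin.toFinset, φ u ∈ h.fin.toFinset := by
    intro u hu
    rw [hS]
    exact Finset.mem_image_of_mem _ hu
  refine ⟨hfin, ?_, ?_⟩
  · intro u hu w hw
    have := h.sq (φ u) (hmem u hu) (φ w) (hmem w hw)
    rw [hsum] at this
    simpa only [hE] using this
  · intro z hz
    obtain ⟨Y, hY⟩ := h.exa (fun w => if hw : ∃ u, φ u = w then z hw.choose else 0) (by
      intro u' hu'
      rw [hS, Finset.mem_image] at hu'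
      obtain ⟨u, hu, rfl⟩ := hu'
      rw [hsum]
      have := hz u hu
      rw [← this]
      apply Finset.sum_congr rfl
      intro v _
      have hv : ∃ u, φ u = φ v := ⟨v, rfl⟩
      rw [dif_pos hv, hE]
      have : hv.choose = v := hφ hv.choose_spec
      rw [this])
    refine ⟨fun u => Y (φ u), ?_⟩
    intro u hu
    have := hY (φ u) (hmem u hu)
    rw [hsum] at this
    have hv : ∃ v, φ v = φ u := ⟨u, rfl⟩
    rw [dif_pos hv] at this
    have e : hv.choose = u := hφ hv.choose_spec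
    rw [e] at this
    simpa only [hE] using this

section
variable (z : RX)

/-- the inclusion -/
def inc : {x : RX // x < z} → WithBot (WithTop RX) := fun x => ((x.1 : WithTop RX) : WithBot _)

theorem inc_inj : Function.Injective (inc z) := by
  intro x y h
  have h1 : ((x.1 : WithTop RX) : WithBot (WithTop RX)) = ((y.1 : WithTop RX) : WithBot _) := h
  rw [WithBot.coe_inj, WithTop.coe_inj] at h1
  exact Subtype.ext h1

/-- the inclusion with the bottom -/
def incB : WithBot {x : RX // x < z} → WithBot (WithTop RX)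
  | ⊥ => ⊥
  | some x => inc z x

theorem incB_inj : Function.Injective (incB z) := by
  intro x y h
  induction x using WithBot.recBotCoe with
  | bot =>
    induction y using WithBot.recBotCoe with
    | bot => rfl
    | coe y => exact absurd h (WithBot.bot_ne_coe)
  | coe x =>
    induction y using WithBot.recBotCoe with
    | bot => exact absurd h (WithBot.coe_ne_bot)
    | coe y => exact congrArg _ (inc_inj z h)

/-- elements below a cell -/
theorem below_cases {w : WithBot (WithTop RX)} {y : RX}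
    (h : w ≤ ((y : WithTop RX) : WithBot (WithTop RX))) :
    w = ⊥ ∨ ∃ x : RX, x ≤ y ∧ w = ((x : WithTop RX) : WithBot (WithTop RX)) := by
  induction w using WithBot.recBotCoe with
  | bot => exact Or.inl rfl
  | coe w =>
    right
    rw [WithBot.coe_le_coe] at h
    induction w using WithTop.recTopCoe with
    | top => exact absurd (top_le_iff.1 h) (WithTop.coe_ne_top)
    | coe x =>
      rw [WithTop.coe_le_coe] at h
      exact ⟨x, h, rfl⟩

theorem incB_image (y : {x : RX // x < z}) :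
    incB z '' Set.Icc ⊥ (y : WithBot {x : RX // x < z}) = Set.Icc (incB z ⊥) (incB z y) := by
  ext w
  constructor
  · rintro ⟨u, ⟨_, hu⟩, rfl⟩
    refine ⟨bot_le, ?_⟩
    induction u using WithBot.recBotCoe with
    | bot => exact bot_le
    | coe u =>
      have h1 : u ≤ y := WithBot.coe_le_coe.1 hu
      have h2 : u.1 ≤ y.1 := h1
      show inc z u ≤ inc z y
      unfold inc
      rw [WithBot.coe_le_coe, WithTop.coe_le_coe]
      exact h2
  · rintro ⟨_, hw⟩
    rcases below_cases (y := y.1) hw with rfl | ⟨x, hx, rfl⟩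
    · exact ⟨⊥, ⟨le_refl _, bot_le⟩, rfl⟩
    · refine ⟨((⟨x, lt_of_le_of_lt hx y.2⟩ : {x : RX // x < z}) : WithBot _), ⟨bot_le, ?_⟩, rfl⟩
      exact WithBot.coe_le_coe.2 hx

/-- the incidence numbers of the lower set -/
noncomputable def epZ (x y : {x : RX // x < z}) : ℤ := ep x.1 y.1

/-- the rank function of the lower set -/
def rkZ (x : {x : RX // x < z}) : ℕ := rk x.1

/-- the incidence numbers of the whole poset with bottom and top -/
noncomputable def EE : WithBot (WithTop RX) → WithBot (WithTop RX) → ℤ :=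
  bE (aug (rkT 5 rk)) (tE ori ep)

theorem EE_inc (x y : {x : RX // x < z}) : EE (inc z x) (inc z y) = epZ z x y := rfl

theorem EE_bot (x : {x : RX // x < z}) : EE ⊥ (inc z x) = aug (rkZ z) x := rfl

theorem EE_to_bot (u : WithBot (WithTop RX)) : EE u ⊥ = 0 := by
  induction u using WithBot.recBotCoe <;> rfl

theorem EE_incB (u v : WithBot {x : RX // x < z}) :
    EE (incB z u) (incB z v) = bE (aug (rkZ z)) (epZ z) u v := by
  induction v using WithBot.recBotCoe with
  | bot =>
    show EE _ ⊥ = _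
    rw [EE_to_bot]
    rfl
  | coe v =>
    induction u using WithBot.recBotCoe with
    | bot => exact EE_bot z v
    | coe u => exact EE_inc z u v

end

theorem good_low {z : RX} (hz : z ≠ kap) :
    Good EE (⊥ : WithBot (WithTop RX)) ((z : WithTop RX) : WithBot (WithTop RX)) := by
  refine good_X _ _ (WithBot.bot_lt_coe _) ?_
  rintro ⟨_, h | h⟩
  · rw [WithBot.coe_inj, WithTop.coe_inj] at h
    exact hz h
  · rw [WithBot.coe_inj] at h
    exact WithTop.coe_ne_top h

theorem lt_ne_kap {x z : RX} (h : x < z) : x ≠ kap := by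
  rintro rfl
  have h1 : le kap z := h.le
  rcases h1 with ⟨j, g, hj, rfl, c, hc, hk⟩ | ⟨rfl, _⟩
  · exact pt_ne_kap _ _ hk.symm
  · exact lt_irrefl _ h

/-- the lower set of `z` with its local structure -/
noncomputable def lowZ (z : RX) : LowP {x : RX // x < z} where
  rk := rkZ z
  ep := epZ z
  gr := ⟨fun x y h => gr_X.lt x.1 y.1 h, fun x y h => gr_X.ne x.1 y.1 h⟩
  low y := by
    refine good_transport (incB z) (incB_inj z) _ _ (incB_image z y) _ EE (EE_incB z) ?_
    exact good_low (lt_ne_kap y.2)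

theorem cellH_one {z : RX} (hz : z ≠ kap) (hr : rk z = 4) : CellH (rkZ z) (epZ z) 1 := by
  have hG := good_low hz
  have hfinI : (Set.Icc (⊥ : WithBot (WithTop RX)) ((z : WithTop RX) : WithBot _)).Finite := hG.fin
  have hmem : ∀ x : {x : RX // x < z}, inc z x ∈ hG.fin.toFinset := by
    intro x
    rw [Set.Finite.mem_toFinset]
    refine ⟨bot_le, ?_⟩
    unfold inc
    rw [WithBot.coe_le_coe, WithTop.coe_le_coe]
    exact x.2.le
  have : Finite {x : RX // x < z} := by
    have h1 : Finite {w // w ∈ hG.fin.toFinset} := inferInstance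
    exact Finite.of_injective (fun x => (⟨inc z x, hmem x⟩ : {w // w ∈ hG.fin.toFinset}))
      (fun x y h => inc_inj z (congrArg Subtype.val h))
  have : Fintype {x : RX // x < z} := Fintype.ofFinite _
  have hcases : ∀ w ∈ hG.fin.toFinset, w = ⊥ ∨ w = ((z : WithTop RX) : WithBot _) ∨
      ∃ x : {x : RX // x < z}, w = inc z x := by
    intro w hw
    rw [Set.Finite.mem_toFinset] at hw
    rcases below_cases hw.2 with rfl | ⟨x, hx, rfl⟩
    · exact Or.inl rfl
    · rcases eq_or_lt_of_le hx with rfl | hx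
      · exact Or.inr (Or.inl rfl)
      · exact Or.inr (Or.inr ⟨⟨x, hx⟩, rfl⟩)
  have hsum : ∀ f : WithBot (WithTop RX) → ℤ, f ⊥ = 0 →
      f ((z : WithTop RX) : WithBot _) = 0 →
      ∑ v ∈ hG.fin.toFinset, f v = ∑ x : {x : RX // x < z}, f (inc z x) := by
    intro f h1 h2
    have e1 : ∑ x : {x : RX // x < z}, f (inc z x) =
        ∑ v ∈ Finset.univ.image (inc z), f v := by
      rw [Finset.sum_image (fun a _ b _ hab => inc_inj z hab)]
    rw [e1]
    symm
    apply Finset.sum_subset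
    · intro w hw
      rw [Finset.mem_image] at hw
      obtain ⟨x, _, rfl⟩ := hw
      exact hmem x
    · intro w hw hw2
      rcases hcases w hw with rfl | rfl | ⟨x, rfl⟩
      · exact h1
      · exact h2
      · exact absurd (Finset.mem_image_of_mem _ (Finset.mem_univ x)) hw2
  intro z1 hz1 hbd
  have hz0 : ∀ x : {x : RX // x < z}, rkZ z x ≠ 1 → z1 x = 0 := by
    intro x hx
    by_contra h
    exact hx (hz1 x (Finsupp.mem_support_iff.2 h))
  have hbd' : ∀ u : {x : RX // x < z}, ∑ v : {x : RX // x < z}, epZ z u v * z1 v = 0 := by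
    intro u
    rw [← hbd u]
    exact (Finsupp.sum_fintype z1 (fun v c => epZ z u v * c) (fun v => by simp)).symm
  set Z' : WithBot (WithTop RX) → ℤ := fun w =>
    if hw : ∃ x : {x : RX // x < z}, inc z x = w then z1 hw.choose else 0 with hZ'
  have hZinc : ∀ x, Z' (inc z x) = z1 x := by
    intro x
    have hv : ∃ y : {x : RX // x < z}, inc z y = inc z x := ⟨x, rfl⟩
    rw [hZ']
    simp only [dif_pos hv]
    rw [inc_inj z hv.choose_spec]
  have hZbot : Z' ⊥ = 0 := by
    have hv : ¬ ∃ y : {x : RX // x < z}, inc z y = ⊥ := by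
      rintro ⟨y, hy⟩
      exact WithBot.coe_ne_bot hy
    rw [hZ']
    simp only [dif_neg hv]
  have hZz : Z' ((z : WithTop RX) : WithBot _) = 0 := by
    have hv : ¬ ∃ y : {x : RX // x < z}, inc z y = ((z : WithTop RX) : WithBot _) := by
      rintro ⟨y, hy⟩
      have hy' : ((y.1 : WithTop RX) : WithBot (WithTop RX)) = ((z : WithTop RX) : WithBot _) := hy
      rw [WithBot.coe_inj, WithTop.coe_inj] at hy'
      exact y.2.ne hy'
    rw [hZ']
    simp only [dif_neg hv]
  obtain ⟨Y, hY⟩ := hG.exa Z' (by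
    intro u hu
    rw [hsum _ (by rw [hZbot, mul_zero]) (by rw [hZz, mul_zero])]
    rcases hcases u hu with rfl | rfl | ⟨x, rfl⟩
    · apply Finset.sum_eq_zero
      intro v _
      show EE ⊥ (inc z v) * _ = 0
      rw [EE_bot, hZinc]
      unfold aug
      by_cases h : rkZ z v = 1
      · rw [if_neg (by omega), zero_mul]
      · rw [hz0 v h, mul_zero]
    · apply Finset.sum_eq_zero
      intro v _
      have : EE ((z : WithTop RX) : WithBot _) (inc z v) = 0 := by
        show ep z v.1 = 0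
        by_contra h
        exact lt_asymm (gr_X.ne _ _ h).1 v.2
      show EE ((z : WithTop RX) : WithBot _) (inc z v) * _ = 0
      rw [this, zero_mul]
    · rw [← hbd' x]
      apply Finset.sum_congr rfl
      intro v _
      rw [hZinc]
      rfl)
  refine ⟨Finsupp.equivFunOnFinite.symm (fun v => if rkZ z v = 2 then Y (inc z v) else 0), ?_, ?_⟩
  · intro x hx
    rw [Finsupp.mem_support_iff] at hx
    by_contra h
    apply hx
    show (if rkZ z x = 2 then Y (inc z x) else 0) = 0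
    rw [if_neg h]
  · intro u
    rw [Finsupp.sum_fintype _ _ (fun v => by simp)]
    have hev : ∀ v, (Finsupp.equivFunOnFinite.symm
        (fun v => if rkZ z v = 2 then Y (inc z v) else 0)) v =
        if rkZ z v = 2 then Y (inc z v) else 0 := fun v => rfl
    by_cases h1 : rkZ z u = 1
    · have h2 := hY (inc z u) (hmem u)
      have h3 : EE (inc z u) ((z : WithTop RX) : WithBot _) = 0 := by
        show ep u.1 z = 0
        by_contra h
        have := (gr_X.ne _ _ h).2
        have h1' : rk u.1 = 1 := h1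
        omega
      have h4 : EE (inc z u) ⊥ = 0 := EE_to_bot _
      rw [hZinc] at h2
      rw [h2]
      have h5 := hsum (fun v => EE (inc z u) v * Y v) (by show EE _ ⊥ * _ = 0; rw [h4, zero_mul])
        (by show EE _ _ * _ = 0; rw [h3, zero_mul])
      refine Eq.trans h5 ?_
      apply Finset.sum_congr rfl
      intro v _
      show epZ z u v * Y (inc z v) = epZ z u v * _
      rw [hev]
      by_cases h6 : rkZ z v = 2
      · rw [if_pos h6]
      · have h7 : epZ z u v = 0 := by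
          by_contra h
          have := (gr_X.ne _ _ h).2
          apply h6
          show rk v.1 = 2
          rw [this]
          have h1' : rk u.1 = 1 := h1
          omega
        rw [h7, zero_mul, zero_mul]
    · rw [hz0 u h1]
      symm
      apply Finset.sum_eq_zero
      intro v _
      rw [hev]
      by_cases h6 : rkZ z v = 2
      · have h7 : epZ z u v = 0 := by
          by_contra h
          have h8 := (gr_X.ne _ _ h).2
          apply h1
          have h6' : rk v.1 = 2 := h6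
          show rk u.1 = 1
          omega
        rw [h7, zero_mul]
      · rw [if_neg h6, mul_zero]

theorem rk_le4T (x : RX) : rk x ≤ 4 := by
  rcases x with ⟨i, g⟩ | q | _
  · show Tab.dim i.1 ≤ 4
    unfold Tab.dim; split_ifs <;> omega
  · exact le_refl _
  · exact le_refl _

theorem h1Z : ∀ z ∈ Zs, HZero {x : RX // x < z} 1 := by
  rintro z ⟨q, rfl⟩
  exact hzero_of_cellH (lowZ (RX.z q)) 4 (fun x => rk_le4T x.1) 1 (cellH_one (by intro h; cases h) rfl)

end Pool.Agent.Helper635.PD4.RX
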