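import Pool.Agent.Helper635_PD4.PPDefs
import Pool.Agent.Helper376.LC.Rigid

/-!
# Module D: cosets in right-angled Coxeter groups (statements to be proved)

Here `M` is a right-angled Coxeter matrix and `T` a finite set of pairwise commuting generators.
-/

open scoped Classical

namespace Pool.Agent.Helper635.PD4

open Pool.Agent.Helper376.LC

variable {B : Type*} {M : CoxeterMatrix B} {W : Type*} [Group W] (cs : CoxeterSystem M W)

/-- commuting generators commute -/
theorem simple_comm_of {i j : B} (h2 : M i j = 2) :
    cs.simple i * cs.simple j = cs.simple j * cs.simple i := by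
  have h := cs.simple_mul_simple_pow i j
  rw [h2, pow_two] at h
  have h3 : cs.simple i * cs.simple j = (cs.simple i * cs.simple j)⁻¹ := by
    rw [eq_inv_iff_mul_eq_one]; exact h
  rw [h3]
  simp

/-- multiplication by a commuting generator does not change whether `j` is a right descent -/
theorem desc_mul_iff (hM : RightAngled M) (v : W) {i j : B} (h2 : M i j = 2) :
    cs.IsRightDescent (v * cs.simple i) j ↔ cs.IsRightDescent v j := by
  have hij : i ≠ j := by
    rintro rfl
    rw [M.diagonal] at h2
    omega
  rw [← cs.isLeftDescent_inv_iff, ← cs.isLeftDescent_inv_iff, ← simple_mem_Ninv',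
    ← simple_mem_Ninv', mul_inv_rev, cs.inv_simple, mem_Ninv_simple_mul']
  have hne : cs.simple j ≠ cs.simple i := fun h => hij (simple_inj' cs hM h).symm
  have e : cs.simple i * cs.simple j * cs.simple i = cs.simple j := by
    rw [simple_comm_of cs h2, mul_assoc, cs.simple_mul_simple_self, mul_one]
  simp [hne, e]

theorem desc_mul_self_iff (v : W) (i : B) :
    cs.IsRightDescent (v * cs.simple i) i ↔ ¬ cs.IsRightDescent v i := by
  rw [cs.isRightDescent_iff_not_isRightDescent_mul, cs.simple_mul_simple_cancel_right]

/-- right descents in `T` of `v * ω` for a word `ω` in `T` -/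
theorem desc_word_iff (hM : RightAngled M) (T : Finset B)
    (hT : ∀ i ∈ T, ∀ j ∈ T, i ≠ j → M i j = 2) (ω : List B) (hω : ∀ i ∈ ω, i ∈ T) (v : W)
    {j : B} (hj : j ∈ T) :
    cs.IsRightDescent (v * cs.wordProd ω) j ↔ (cs.IsRightDescent v j ↔ Even (ω.count j)) := by
  induction ω generalizing v with
  | nil => simp
  | cons i ω ih =>
    rw [cs.wordProd_cons, ← mul_assoc, ih (fun k hk => hω k (List.mem_cons_of_mem _ hk))]
    by_cases hij : i = j
    · subst hij
      rw [desc_mul_self_iff, List.count_cons_self, Nat.even_add_one]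
      tauto
    · rw [desc_mul_iff cs hM v (hT i (hω i List.mem_cons_self) j hj hij),
        List.count_cons_of_ne hij]

/-- a commuting word in which each letter occurs an even number of times is trivial -/
theorem wordProd_even (T : Finset B) (hT : ∀ i ∈ T, ∀ j ∈ T, i ≠ j → M i j = 2) :
    ∀ (n : ℕ) (ω : List B), ω.length = n → (∀ i ∈ ω, i ∈ T) → (∀ j, Even (ω.count j)) →
      cs.wordProd ω = 1 := by
  have hcomm : ∀ i ∈ T, ∀ ω : List B, (∀ k ∈ ω, k ∈ T) →
      cs.simple i * cs.wordProd ω = cs.wordProd ω * cs.simple i := by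
    intro i hi ω
    induction ω with
    | nil => intro _; simp
    | cons k ω ih =>
      intro hω
      rw [cs.wordProd_cons]
      have h1 : cs.simple i * cs.simple k = cs.simple k * cs.simple i := by
        by_cases hik : i = k
        · rw [hik]
        · exact simple_comm_of cs (hT i hi k (hω k List.mem_cons_self) hik)
      rw [← mul_assoc, h1, mul_assoc, ih (fun l hl => hω l (List.mem_cons_of_mem _ hl)), mul_assoc]
  intro n
  induction n using Nat.strong_induction_on with
  | _ n ih =>
    intro ω hn hω hev
    cases ω with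
    | nil => simp
    | cons j ω =>
      have h1 := hev j
      rw [List.count_cons_self, Nat.even_add_one] at h1
      have h2 : j ∈ ω := by
        by_contra h
        rw [List.count_eq_zero_of_not_mem h] at h1
        exact h1 (by simp)
      obtain ⟨a, b, hab⟩ := List.append_of_mem h2
      subst hab
      have ha : ∀ k ∈ a, k ∈ T := fun k hk => hω k (by simp [hk])
      have e : cs.wordProd (j :: (a ++ j :: b)) = cs.wordProd (a ++ b) := by
        rw [cs.wordProd_cons, cs.wordProd_append, cs.wordProd_append, cs.wordProd_cons,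
          ← mul_assoc, hcomm j (hω j List.mem_cons_self) a ha, mul_assoc,
          cs.simple_mul_simple_cancel_left]
      rw [e]
      have hlen : (a ++ b).length < n := by
        rw [← hn]
        simp only [List.length_append, List.length_cons]
        omega
      refine ih _ hlen (a ++ b) rfl ?_ ?_
      · intro k hk
        refine hω k ?_
        rcases List.mem_append.1 hk with h | h
        · simp [h]
        · simp [h]
      · intro k
        have h3 := hev k
        by_cases hjk : j = k
        · subst hjk
          rw [List.count_cons_self, List.count_append, List.count_cons_self] at h3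
          rw [List.count_append]
          have : List.count j a + (List.count j b + 1) + 1 = (List.count j a + List.count j b) + 2 := by
            ring
          rw [this] at h3
          exact (Nat.even_add.1 h3).2 (by norm_num)
        · rw [List.count_cons_of_ne hjk, List.count_append, List.count_cons_of_ne hjk] at h3
          rw [List.count_append]
          exact h3

/-- right descents form a finite set of pairwise commuting generators -/
theorem desc_comm (hM : RightAngled M) (w : W) (i j : B) (hij : i ≠ j)
    (hi : cs.IsRightDescent w i) (hj : cs.IsRightDescent w j) : M i j = 2 :=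
  (length_mul_two_descents cs hM w i j hij hi hj).1

/-- removing distinct commuting right descents -/
theorem length_mul_word (hM : RightAngled M) (ω : List B) (hnd : ω.Nodup) (v : W)
    (hω : ∀ i ∈ ω, cs.IsRightDescent v i) :
    cs.length (v * cs.wordProd ω) + ω.length = cs.length v := by
  induction ω generalizing v with
  | nil => simp
  | cons i ω ih =>
    rw [List.nodup_cons] at hnd
    have hi := hω i List.mem_cons_self
    have h1 := cs.isRightDescent_iff.1 hi
    have h2 := ih hnd.2 (v * cs.simple i) (by
      intro j hj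
      have hij : i ≠ j := fun h => hnd.1 (h ▸ hj)
      have hj' := hω j (List.mem_cons_of_mem _ hj)
      exact (desc_mul_iff cs hM v (desc_comm cs hM v i j hij hi hj')).2 hj')
    rw [cs.wordProd_cons, ← mul_assoc, List.length_cons]
    omega

theorem desc_finite (hM : RightAngled M) (w : W) : {i | cs.IsRightDescent w i}.Finite := by
  by_contra h
  obtain ⟨t, ht, hc⟩ := Set.Infinite.exists_subset_card_eq h (cs.length w + 1)
  have h1 := length_mul_word cs hM t.toList t.nodup_toList w (by
    intro i hi
    exact ht (by simpa using hi))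
  rw [Finset.length_toList, hc] at h1
  omega

/-- the special subgroup -/
def wt (T : Finset B) : Subgroup W := Subgroup.closure (cs.simple '' (T : Set B))

theorem wordProd_mem_wt (T : Finset B) (ω : List B) (hω : ∀ i ∈ ω, i ∈ T) :
    cs.wordProd ω ∈ wt cs T := by
  induction ω with
  | nil => simp
  | cons i ω ih =>
    rw [cs.wordProd_cons]
    exact (wt cs T).mul_mem (Subgroup.subset_closure ⟨i, hω i List.mem_cons_self, rfl⟩)
      (ih (fun k hk => hω k (List.mem_cons_of_mem _ hk)))

theorem mem_wt_iff (T : Finset B) (w : W) :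
    w ∈ wt cs T ↔ ∃ ω : List B, (∀ i ∈ ω, i ∈ T) ∧ cs.wordProd ω = w := by
  constructor
  · intro h
    induction h using Subgroup.closure_induction with
    | mem x hx =>
      obtain ⟨i, hi, rfl⟩ := hx
      exact ⟨[i], by simpa using hi, by simp⟩
    | one => exact ⟨[], by simp, by simp⟩
    | mul x y _ _ hx hy =>
      obtain ⟨a, ha, rfl⟩ := hx
      obtain ⟨b, hb, rfl⟩ := hy
      refine ⟨a ++ b, ?_, by rw [cs.wordProd_append]⟩
      intro i hi
      rcases List.mem_append.1 hi with h | h
      · exact ha i h
      · exact hb i h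
    | inv x _ hx =>
      obtain ⟨a, ha, rfl⟩ := hx
      exact ⟨a.reverse, by simpa using ha, by rw [cs.wordProd_reverse]⟩
  · rintro ⟨ω, hω, rfl⟩
    exact wordProd_mem_wt cs T ω hω

/-- normal form of the elements of the special subgroup -/
theorem mem_wt_exists (T : Finset B) (hT : ∀ i ∈ T, ∀ j ∈ T, i ≠ j → M i j = 2) (w : W)
    (h : w ∈ wt cs T) : ∃ A : Finset B, A ⊆ T ∧ w = cs.wordProd A.toList := by
  obtain ⟨ω, hω, rfl⟩ := (mem_wt_iff cs T w).1 h
  set A : Finset B := T.filter (fun j => ¬ Even (ω.count j)) with hA
  have hAT : A ⊆ T := Finset.filter_subset _ _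
  refine ⟨A, hAT, ?_⟩
  have h1 : cs.wordProd (ω ++ A.toList.reverse) = 1 := by
    refine wordProd_even cs T hT _ _ rfl ?_ ?_
    · intro i hi
      rcases List.mem_append.1 hi with h | h
      · exact hω i h
      · exact hAT (by simpa using h)
    · intro j
      rw [List.count_append, List.count_reverse]
      by_cases hj : j ∈ A
      · have h2 : List.count j A.toList = 1 :=
          List.count_eq_one_of_mem A.nodup_toList (by simpa using hj)
        rw [h2, Nat.even_add_one]
        exact (Finset.mem_filter.1 hj).2
      · have h2 : List.count j A.toList = 0 := List.count_eq_zero_of_not_mem (by simpa using hj)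
        rw [h2, add_zero]
        by_cases hjT : j ∈ T
        · by_contra h3
          exact hj (Finset.mem_filter.2 ⟨hjT, h3⟩)
        · rw [List.count_eq_zero_of_not_mem (fun h => hjT (hω j h))]
          simp
  rw [cs.wordProd_append, cs.wordProd_reverse, mul_inv_eq_one] at h1
  exact h1

theorem wt_finite (T : Finset B) (hT : ∀ i ∈ T, ∀ j ∈ T, i ≠ j → M i j = 2) :
    (wt cs T : Set W).Finite := by
  have h : (wt cs T : Set W) ⊆ (T.powerset.image (fun A => cs.wordProd A.toList) : Finset W) := by
    intro w hw
    obtain ⟨A, hA, rfl⟩ := mem_wt_exists cs T hT w hw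
    simp only [Finset.coe_image, Set.mem_image, Finset.mem_coe, Finset.mem_powerset]
    exact ⟨A, hA, rfl⟩
  exact (Finset.finite_toSet _).subset h

theorem eq_of_same_desc (hM : RightAngled M) (T : Finset B)
    (hT : ∀ i ∈ T, ∀ j ∈ T, i ≠ j → M i j = 2) (u v : W) (h : u⁻¹ * v ∈ wt cs T)
    (hd : ∀ i ∈ T, (cs.IsRightDescent u i ↔ cs.IsRightDescent v i)) : u = v := by
  obtain ⟨ω, hω, he⟩ := (mem_wt_iff cs T _).1 h
  have hv : v = u * cs.wordProd ω := by rw [he]; group
  have h1 : cs.wordProd ω = 1 := by
    refine wordProd_even cs T hT _ ω rfl hω ?_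
    intro j
    by_cases hj : j ∈ T
    · have h2 := desc_word_iff cs hM T hT ω hω u hj
      rw [← hv, ← hd j hj] at h2
      tauto
    · rw [List.count_eq_zero_of_not_mem (fun h => hj (hω j h))]
      simp
  rw [hv, h1, mul_one]

theorem exists_of_filter (hM : RightAngled M) (T : Finset B)
    (hT : ∀ i ∈ T, ∀ j ∈ T, i ≠ j → M i j = 2) (w : W) (p : B → Prop) :
    ∃ u : W, w⁻¹ * u ∈ wt cs T ∧ ∀ i ∈ T, (cs.IsRightDescent u i ↔ p i) := by
  set A : Finset B := T.filter (fun j => ¬ (cs.IsRightDescent w j ↔ p j)) with hA
  have hAT : ∀ i ∈ A.toList, i ∈ T := by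
    intro i hi
    have hi' : i ∈ A := by simpa using hi
    exact (Finset.mem_filter.1 hi').1
  refine ⟨w * cs.wordProd A.toList, ?_, ?_⟩
  · rw [inv_mul_cancel_left]
    exact wordProd_mem_wt cs T _ hAT
  · intro i hi
    rw [desc_word_iff cs hM T hT _ hAT w hi]
    by_cases hiA : i ∈ A
    · have h2 : List.count i A.toList = 1 :=
        List.count_eq_one_of_mem A.nodup_toList (by simpa using hiA)
      rw [h2]
      have := (Finset.mem_filter.1 hiA).2
      simp only [Nat.not_even_one, iff_false]
      tauto
    · have h2 : List.count i A.toList = 0 := List.count_eq_zero_of_not_mem (by simpa using hiA)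
      rw [h2]
      have : cs.IsRightDescent w i ↔ p i := by
        by_contra h3
        exact hiA (Finset.mem_filter.2 ⟨hi, h3⟩)
      simp only [Even.zero, iff_true]
      exact this

/-- the longest element of the coset `w W_T`: the unique one having all of `T` as right
descents -/
theorem exists_top (hM : RightAngled M) (T : Finset B)
    (hT : ∀ i ∈ T, ∀ j ∈ T, i ≠ j → M i j = 2) (w : W) :
    ∃! u : W, w⁻¹ * u ∈ wt cs T ∧ ∀ i ∈ T, cs.IsRightDescent u i := by
  obtain ⟨u, h1, h2⟩ := exists_of_filter cs hM T hT w (fun _ => True)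
  refine ⟨u, ⟨h1, fun i hi => (h2 i hi).2 trivial⟩, ?_⟩
  rintro v ⟨h3, h4⟩
  refine eq_of_same_desc cs hM T hT v u ?_ ?_
  · have : v⁻¹ * u = (w⁻¹ * v)⁻¹ * (w⁻¹ * u) := by group
    rw [this]
    exact (wt cs T).mul_mem ((wt cs T).inv_mem h3) h1
  · intro i hi
    exact ⟨fun _ => (h2 i hi).2 trivial, fun _ => h4 i hi⟩

/-- the shortest element of the coset `w W_T` -/
theorem exists_bot (hM : RightAngled M) (T : Finset B)
    (hT : ∀ i ∈ T, ∀ j ∈ T, i ≠ j → M i j = 2) (w : W) :
    ∃! u : W, w⁻¹ * u ∈ wt cs T ∧ ∀ i ∈ T, ¬ cs.IsRightDescent u i := by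
  obtain ⟨u, h1, h2⟩ := exists_of_filter cs hM T hT w (fun _ => False)
  refine ⟨u, ⟨h1, fun i hi => (h2 i hi).1⟩, ?_⟩
  rintro v ⟨h3, h4⟩
  refine eq_of_same_desc cs hM T hT v u ?_ ?_
  · have : v⁻¹ * u = (w⁻¹ * v)⁻¹ * (w⁻¹ * u) := by group
    rw [this]
    exact (wt cs T).mul_mem ((wt cs T).inv_mem h3) h1
  · intro i hi
    exact ⟨fun h => absurd h (h4 i hi), fun h => absurd h (h2 i hi).1⟩

theorem length_lt_top (hM : RightAngled M) (T : Finset B)
    (hT : ∀ i ∈ T, ∀ j ∈ T, i ≠ j → M i j = 2) (u v : W)
    (hu : ∀ i ∈ T, cs.IsRightDescent u i) (huv : u⁻¹ * v ∈ wt cs T) (hne : v ≠ u) :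
    cs.length v < cs.length u := by
  obtain ⟨A, hA, he⟩ := mem_wt_exists cs T hT _ huv
  have hv : v = u * cs.wordProd A.toList := by rw [← he]; group
  have h1 := length_mul_word cs hM A.toList A.nodup_toList u (by
    intro i hi
    exact hu i (hA (by simpa using hi)))
  rw [← hv, Finset.length_toList] at h1
  have h2 : A.card ≠ 0 := by
    intro h
    rw [Finset.card_eq_zero] at h
    apply hne
    rw [hv, h]
    simp
  omega

/-- special subgroups of commuting generators with different colours meet the kernel of the
colour parities trivially -/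
theorem wt_parity {K : Type*} [DecidableEq K] (T : Finset B)
    (hT : ∀ i ∈ T, ∀ j ∈ T, i ≠ j → M i j = 2) (col : B → K)
    (hcol : ∀ i ∈ T, ∀ j ∈ T, col i = col j → i = j) (par : K → W →* ℤˣ)
    (hpar : ∀ k i, par k (cs.simple i) = if col i = k then -1 else 1) (w : W) (hw : w ∈ wt cs T)
    (h1 : ∀ k, par k w = 1) : w = 1 := by
  obtain ⟨ω, hω, rfl⟩ := (mem_wt_iff cs T w).1 hw
  refine wordProd_even cs T hT _ ω rfl hω ?_
  intro j
  by_cases hj : j ∈ T
  · have key : ∀ ω : List B, (∀ i ∈ ω, i ∈ T) → par (col j) (cs.wordProd ω) = (-1) ^ (ω.count j) := by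
      intro ω
      induction ω with
      | nil => intro _; simp
      | cons i ω ih =>
        intro hω
        rw [cs.wordProd_cons, map_mul, ih (fun k hk => hω k (List.mem_cons_of_mem _ hk)), hpar]
        by_cases hij : i = j
        · subst hij
          rw [if_pos rfl, List.count_cons_self, pow_succ, mul_comm]
        · have : col i ≠ col j := fun h => hij (hcol i (hω i List.mem_cons_self) j hj h)
          rw [if_neg this, List.count_cons_of_ne hij, one_mul]
    have h2 := h1 (col j)
    rw [key ω hω] at h2
    by_contra h3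
    rw [Nat.not_even_iff_odd] at h3
    rw [h3.neg_one_pow] at h2
    exact absurd h2 (by decide)
  · rw [List.count_eq_zero_of_not_mem (fun h => hj (hω j h))]
    simp

end Pool.Agent.Helper635.PD4
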