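import Pool.Agent.Helper635_PD4.Chk2

/-!
# Boolean checks: two consecutive boundaries
-/

set_option maxRecDepth 100000

namespace Pool.Agent.Helper635.PD4.Tab

/-- duplicate-free -/
def ndp : List ℕ → Bool
  | [] => true
  | c :: L => !(mem (maskOf L) c) && ndp L

theorem ndp_nodup : ∀ L : List ℕ, ndp L = true → L.Nodup
  | [] => fun _ => List.nodup_nil
  | c :: L => fun h => by
    rw [ndp, Bool.and_eq_true, Bool.not_eq_true'] at h
    refine List.nodup_cons.2 ⟨fun hc => ?_, ndp_nodup L h.2⟩
    rw [← mem_maskOf, h.1] at hc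
    exact absurd hc (by simp)

theorem ndp_all : (List.range 322).all (fun i => ndp (VL i)) = true := by decide +kernel

/-- the codes in the two-step boundary of the cell `j` with sign `+` (`s = 0`) or `-` (`s = 1`) -/
def bb (s j : ℕ) : List ℕ :=
  (facL j).flatMap fun e => ((facL (e / 64)).filter fun f => Nat.beq ((e % 2 + f % 2) % 2) s).map
    fun f => 32 * (f / 64) + mulT (e / 2 % 32) (f / 2 % 32)

/-- check: the two-step boundary cancels -/
def chkBB (j : ℕ) : Bool :=
  ndp (bb 0 j) && ndp (bb 1 j) && Nat.beq (maskOf (bb 0 j)) (maskOf (bb 1 j)) &&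
  ((facL j).all fun e => (facL (e / 64)).all fun f =>
    Nat.blt (e / 2 % 32) 17 && Nat.blt (f / 2 % 32) 17 &&
      Nat.blt (mulT (e / 2 % 32) (f / 2 % 32)) 17)

theorem chkBB_all : (List.range 322).all chkBB = true := by decide +kernel

/-- check: augmentation -/
def chkAug (j : ℕ) : Bool :=
  ((facL j).map fun e => cond (Nat.beq (dim (e / 64)) 0) (sgI (e % 2)) 0).sum == 0

theorem chkAug_all : (List.range 322).all chkAug = true := by decide +kernel

/-- check: `kap` and top -/
def chkKT (i : ℕ) : Bool :=
  (((VL i).map fun e => incV (32 * i) e * incV e TOP).sum == 0) &&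
  (!(isX i) || (((VL i).map fun e => incV (32 * i) e * incV e KAP).sum == 0))

theorem chkKT_all : (List.range 321).all chkKT = true := by decide +kernel

end Pool.Agent.Helper635.PD4.Tab
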