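import Pool.Agent.Helper635_PD4.ModU
import Pool.Agent.Helper635_PD4.SqXChk

/-!
# Two consecutive boundaries in the explicit poset
-/

open scoped Classical

set_option maxRecDepth 100000

namespace Pool.Agent.Helper635.PD4.RX

open Tab

/-! ### list sums -/

theorem sgI_mul (a b : ℕ) (ha : a < 2) (hb : b < 2) :
    ((a + b) % 2 = 0 ∧ sgI a * sgI b = 1) ∨ ((a + b) % 2 = 1 ∧ sgI a * sgI b = -1) := by
  interval_cases a <;> interval_cases b <;> decide

theorem split_sum (G : ℕ → ℤ) (q : ℕ → ℕ) (e : ℕ) : ∀ M : List ℕ,
    (M.map fun f => sgI (e % 2) * sgI (f % 2) * G (q f)).sum =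
      (((M.filter fun f => Nat.beq ((e % 2 + f % 2) % 2) 0).map q).map G).sum -
      (((M.filter fun f => Nat.beq ((e % 2 + f % 2) % 2) 1).map q).map G).sum
  | [] => rfl
  | f :: M => by
    have ih := split_sum G q e M
    rw [List.map_cons, List.sum_cons, ih]
    rcases sgI_mul (e % 2) (f % 2) (by omega) (by omega) with ⟨h1, h2⟩ | ⟨h1, h2⟩
    · rw [List.filter_cons_of_pos (by rw [h1]; rfl), List.filter_cons_of_neg (by rw [h1]; decide),
        List.map_cons, List.map_cons, List.sum_cons, h2]
      ring
    · rw [List.filter_cons_of_neg (by rw [h1]; decide), List.filter_cons_of_pos (by rw [h1]; rfl),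
        List.map_cons, List.map_cons, List.sum_cons, h2]
      ring

theorem split_sum2 (G : ℕ → ℤ) (q : ℕ → ℕ → ℕ) (h : ℕ → List ℕ) : ∀ L : List ℕ,
    (L.map fun e => ((h e).map fun f => sgI (e % 2) * sgI (f % 2) * G (q e f)).sum).sum =
      ((L.flatMap fun e => ((h e).filter fun f => Nat.beq ((e % 2 + f % 2) % 2) 0).map
        (q e)).map G).sum -
      ((L.flatMap fun e => ((h e).filter fun f => Nat.beq ((e % 2 + f % 2) % 2) 1).map
        (q e)).map G).sum
  | [] => rfl
  | e :: L => by
    rw [List.map_cons, List.sum_cons, split_sum2 G q h L, split_sum G (q e) e (h e),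
      List.flatMap_cons, List.flatMap_cons, List.map_append, List.map_append, List.sum_append,
      List.sum_append]
    ring

theorem finsum_list (P : ℕ → RE) (s : ℕ → ℤ) (F : RE → ℤ) : ∀ L : List ℕ,
    (Function.support fun v => F v * (L.map fun e => if v = P e then s e else 0).sum).Finite ∧
    ∑ᶠ v, F v * (L.map fun e => if v = P e then s e else 0).sum =
      (L.map fun e => s e * F (P e)).sum
  | [] => by
    constructor
    · simp
    · simp
  | e :: L => by
    obtain ⟨h1, h2⟩ := finsum_list P s F L
    have h3 : (fun v => F v * ((e :: L).map fun e => if v = P e then s e else 0).sum) =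
        fun v => F v * (if v = P e then s e else 0) +
          F v * (L.map fun e => if v = P e then s e else 0).sum := by
      funext v
      rw [List.map_cons, List.sum_cons, mul_add]
    have h4 : (Function.support fun v => F v * (if v = P e then s e else 0)).Finite := by
      apply (Set.finite_singleton (P e)).subset
      intro v hv
      by_contra hne
      apply hv
      show F v * (if v = P e then s e else 0) = 0
      rw [if_neg (show ¬ (v = P e) from hne), mul_zero]
    rw [h3]
    refine ⟨(h4.union h1).subset (Function.support_add _ _), ?_⟩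
    rw [finsum_add_distrib h4 h1, h2, List.map_cons, List.sum_cons]
    congr 1
    rw [finsum_eq_single _ (P e) (fun v hv => by rw [if_neg hv, mul_zero]), if_pos rfl, mul_comm]

/-! ### incidence numbers of the extended poset -/

theorem EX_tp_left (v : RE) : EX tp v = 0 := by
  induction v using WithBot.recBotCoe with
  | bot => rfl
  | coe v =>
    induction v using WithTop.recTopCoe with
    | top => rfl
    | coe v => rfl

theorem EX_bot_right (u : RE) : EX u ⊥ = 0 := rfl

theorem EX_ce (x y : RX) : EX (ce x) (ce y) = ep x y := rfl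

theorem EX_bot_ce (x : RX) : EX ⊥ (ce x) = if rk x = 0 then 1 else 0 := rfl

theorem EX_bot_tp : EX ⊥ tp = 0 := rfl

theorem EX_ce_tp (x : RX) : EX (ce x) tp = ori x := rfl

theorem rk_le_four (x : RX) : rk x ≤ 4 := by
  rcases x with ⟨i, g⟩ | q | _
  · show dim i.1 ≤ 4
    unfold dim; split_ifs <;> omega
  · exact le_refl _
  · exact le_refl _

theorem ori_rk {x : RX} (hx : ori x ≠ 0) : rk x = 4 := by
  rcases x with ⟨i, g⟩ | q | _
  · have : 318 ≤ i.1 := by
      by_contra h
      exact hx (by show (if 318 ≤ i.1 then (1 : ℤ) else 0) = 0; simp [h])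
    show dim i.1 = 4
    unfold dim
    split_ifs <;> omega
  · rfl
  · rfl

/-- rank in the extended poset -/
noncomputable abbrev rE : RE → ℕ := rkB (rkT 5 rk)

theorem EX_ne {u v : RE} (h : EX u v ≠ 0) : u < v ∧ rE v = rE u + 1 := by
  induction v using WithBot.recBotCoe with
  | bot => exact absurd rfl h
  | coe v =>
    induction u using WithBot.recBotCoe with
    | bot =>
      refine ⟨WithBot.bot_lt_coe v, ?_⟩
      show rkT 5 rk v + 1 = 0 + 1
      have h1 : aug (rkT 5 rk) v ≠ 0 := h
      unfold aug at h1
      by_contra hne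
      exact h1 (if_neg (fun hh => hne (by rw [hh])))
    | coe u =>
      induction u using WithTop.recTopCoe with
      | top => exact absurd (EX_tp_left _) h
      | coe x =>
        induction v using WithTop.recTopCoe with
        | top =>
          refine ⟨WithBot.coe_lt_coe.2 (WithTop.coe_lt_top x), ?_⟩
          have := ori_rk (x := x) h
          show 5 + 1 = rk x + 1 + 1
          rw [this]
        | coe y =>
          obtain ⟨h1, h2⟩ := gr_X.ne x y h
          refine ⟨WithBot.coe_lt_coe.2 (WithTop.coe_lt_coe.2 h1), ?_⟩
          show rk y + 1 = rk x + 1 + 1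
          rw [h2]

/-! ### the two-step boundary -/

theorem dd_upper {i : ℕ} (hi : i < 321) (g : G0) {f : ℕ} (hf : f ∈ VL i) :
    ∑ᶠ v, EX (ce (pt i g)) v * EX v (ph g f) =
      ((VL i).map fun e => incV (32 * i) e * incV e f).sum := by
  obtain ⟨h1, h2⟩ := ph_self hi g
  rw [finsum_eq_sum_of_support_subset (s := (VL i).toFinset.image (ph g))]
  · rw [Finset.sum_image (fun e he e' he' h => ph_inj hi g e
      (List.mem_toFinset.1 (Finset.mem_coe.1 he)) e' (List.mem_toFinset.1 (Finset.mem_coe.1 he')) h),
      List.sum_toFinset _ (ndp_nodup _ (all_range ndp_all (by omega)))]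
    congr 1
    apply List.map_congr_left
    intro e he
    rw [← h1, ph_inc hi g _ h2 _ he, ph_inc hi g _ he _ hf]
  · intro v hv
    have h3 : EX (ce (pt i g)) v ≠ 0 := left_ne_zero_of_mul hv
    obtain ⟨e, he, h4⟩ := ph_surj hi g v (EX_ne h3).1.le
    rw [Finset.mem_coe, Finset.mem_image]
    exact ⟨e, List.mem_toFinset.2 he, h4.symm⟩

theorem dd_lower {j : ℕ} (hj : j ≤ 321) (h : G0) (u : RE) :
    ∑ᶠ v, EX u v * EX v (ce (pt j h)) =
      ((facL j).map fun e => sg (e % 2) * EX u (ce (pt (e / 64) (h * lab (e / 2 % 32))))).sum := by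
  rw [← (finsum_list (fun e => ce (pt (e / 64) (h * lab (e / 2 % 32)))) (fun e => sg (e % 2))
    (EX u) (facL j)).2]
  apply finsum_congr
  intro v
  induction v using WithBot.recBotCoe with
  | bot => rw [EX_bot_right, zero_mul, zero_mul]
  | coe v =>
    congr 1
    induction v using WithTop.recTopCoe with
    | top =>
      rw [EX_tp_left]
      symm
      apply List.sum_eq_zero
      intro z hz
      obtain ⟨e, he, rfl⟩ := List.mem_map.1 hz
      rw [if_neg]
      intro hh
      exact ce_ne_tp _ hh.symm
    | coe x =>
      show ep x (pt j h) = _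
      rw [ep_pt hj]
      unfold epL
      congr 1
      apply List.map_congr_left
      intro e _
      have : (x = pt (e / 64) (h * lab (e / 2 % 32))) ↔
          (((x : WithTop RX) : WithBot (WithTop RX)) = ce (pt (e / 64) (h * lab (e / 2 % 32)))) :=
        ⟨fun hh => by rw [hh], fun hh => ce_inj hh⟩
      simp only [this]

theorem facL_bd {j : ℕ} (hj : j ≤ 321) {e : ℕ} (he : e ∈ facL j) : e / 64 ≤ 321 := by
  have h2 := all_range chkD_all (j := j) (by omega)
  unfold chkD at h2
  rw [List.all_eq_true] at h2
  have h3 := h2 e he
  simp only [Bool.and_eq_true, Nat.beq_eq, mem_maskOf] at h3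
  have h6 := (clo_facts (j := j) (by omega) h3.1).2.2.1
  omega

theorem sg_sgI (s : ℕ) : sg s = sgI s := by
  unfold sg sgI
  by_cases h : s = 0
  · subst h; rfl
  · rw [if_neg h]
    have : Nat.beq s 0 = false := by rw [← Bool.not_eq_true, Nat.beq_eq]; exact h
    rw [this]; rfl

theorem dd_bot {j : ℕ} (hj : j ≤ 321) (h : G0) :
    ∑ᶠ v, EX ⊥ v * EX v (ce (pt j h)) = 0 := by
  rw [dd_lower hj]
  have h1 := all_range chkAug_all (j := j) (by omega)
  unfold chkAug at h1
  rw [beq_iff_eq] at h1
  rw [← h1]
  congr 1
  apply List.map_congr_left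
  intro e he
  rw [EX_bot_ce, rk_pt (facL_bd hj he), sg_sgI]
  by_cases hd : dim (e / 64) = 0
  · rw [if_pos hd, mul_one, hd]; rfl
  · rw [if_neg hd, mul_zero]
    have : Nat.beq (dim (e / 64)) 0 = false := by rw [← Bool.not_eq_true, Nat.beq_eq]; exact hd
    rw [this]; rfl

theorem dd_ce {j : ℕ} (hj : j ≤ 321) (h : G0) (x : RX) :
    ∑ᶠ v, EX (ce x) v * EX v (ce (pt j h)) = 0 := by
  rw [dd_lower hj]
  have h1 := all_range chkBB_all (j := j) (by omega)
  unfold chkBB at h1
  simp only [Bool.and_eq_true, List.all_eq_true, Nat.beq_eq, Nat.blt_eq] at h1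
  obtain ⟨⟨⟨n0, n1⟩, hm⟩, h3⟩ := h1
  have hperm : (bb 0 j).Perm (bb 1 j) := by
    rw [List.perm_ext_iff_of_nodup (ndp_nodup _ n0) (ndp_nodup _ n1)]
    intro a
    rw [← mem_maskOf, ← mem_maskOf, hm]
  have h4 := split_sum2 (fun c => if x = pt (c / 32) (h * lab (c % 32)) then 1 else 0)
    (fun e f => 32 * (f / 64) + mulT (e / 2 % 32) (f / 2 % 32)) (fun e => facL (e / 64)) (facL j)
  have h5 : ((bb 0 j).map (fun c => if x = pt (c / 32) (h * lab (c % 32)) then (1 : ℤ) else 0)).sum
      - ((bb 1 j).map (fun c => if x = pt (c / 32) (h * lab (c % 32)) then (1 : ℤ) else 0)).sum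
      = 0 := by
    rw [(hperm.map _).sum_eq, sub_self]
  unfold bb at h5
  rw [h5] at h4
  rw [← h4]
  congr 1
  apply List.map_congr_left
  intro e he
  rw [EX_ce, ep_pt (facL_bd hj he)]
  unfold epL
  rw [← List.sum_map_mul_left]
  congr 1
  apply List.map_congr_left
  intro f hf
  obtain ⟨⟨h5, h6⟩, h7⟩ := h3 e he f hf
  show sg (e % 2) * (if x = pt (f / 64) (h * lab (e / 2 % 32) * lab (f / 2 % 32)) then
      sg (f % 2) else 0) = sgI (e % 2) * sgI (f % 2) *
    (if x = pt ((32 * (f / 64) + mulT (e / 2 % 32) (f / 2 % 32)) / 32)
      (h * lab ((32 * (f / 64) + mulT (e / 2 % 32) (f / 2 % 32)) % 32)) then 1 else 0)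
  have e1 : (32 * (f / 64) + mulT (e / 2 % 32) (f / 2 % 32)) / 32 = f / 64 := by omega
  have e2 : (32 * (f / 64) + mulT (e / 2 % 32) (f / 2 % 32)) % 32 =
      mulT (e / 2 % 32) (f / 2 % 32) := by omega
  rw [e1, e2, lab_mul h5 h6 h7, ← mul_assoc, sg_sgI, sg_sgI]
  split_ifs <;> ring

/-- all two-step sums vanish -/
theorem dd_zero (u w : RE) : ∑ᶠ v, EX u v * EX v w = 0 := by
  by_cases hz : ∀ v, EX u v * EX v w = 0
  · exact finsum_eq_zero_of_forall_eq_zero hz
  · obtain ⟨v0, h0⟩ := not_forall.1 hz
    obtain ⟨l1, r1⟩ := EX_ne (left_ne_zero_of_mul h0)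
    obtain ⟨l2, r2⟩ := EX_ne (right_ne_zero_of_mul h0)
    have hlt := l1.trans l2
    have hr : rE w = rE u + 2 := by omega
    induction w using WithBot.recBotCoe with
    | bot => exact absurd hlt not_lt_bot
    | coe w =>
      induction u using WithBot.recBotCoe with
      | bot =>
        induction w using WithTop.recTopCoe with
        | top =>
          exfalso
          have : 5 + 1 = 0 + 2 := hr
          omega
        | coe y =>
          by_cases hy : y = kap
          · exfalso
            subst hy
            have : 4 + 1 = 0 + 2 := hr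
            omega
          · obtain ⟨j, h, hj, rfl⟩ := exists_pt y hy
            exact dd_bot hj h
      | coe u =>
        induction u using WithTop.recTopCoe with
        | top =>
          exfalso
          rw [WithBot.coe_lt_coe] at hlt
          exact not_top_lt hlt
        | coe x =>
          induction w using WithTop.recTopCoe with
          | top =>
            have hr2 : 5 + 1 = rk x + 1 + 2 := hr
            have hx : x ≠ kap := by
              rintro rfl
              have : rk kap = 4 := rfl
              omega
            obtain ⟨i, g, hi, rfl⟩ := exists_pt x hx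
            rw [rk_pt hi] at hr2
            have hi2 : i < 321 := by
              rcases Nat.lt_or_ge i 321 with h | h
              · exact h
              · have : i = 321 := by omega
                subst this
                have h5 : dim 321 = 4 := rfl
                omega
            have h1 := dd_upper hi2 g (VL_top i)
            rw [ph_top] at h1
            have h2 := all_range chkKT_all hi2
            unfold chkKT at h2
            rw [Bool.and_eq_true, beq_iff_eq] at h2
            rw [h2.1] at h1
            exact h1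
          | coe y =>
            by_cases hy : y = kap
            · subst hy
              have hr2 : 4 + 1 = rk x + 1 + 2 := hr
              have hx : x ≠ kap := by
                rintro rfl
                have : rk kap = 4 := rfl
                omega
              obtain ⟨i, g, hi, rfl⟩ := exists_pt x hx
              rw [rk_pt hi] at hr2
              have hi2 : i < 321 := by
                rcases Nat.lt_or_ge i 321 with h | h
                · exact h
                · have : i = 321 := by omega
                  subst this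
                  have h5 : dim 321 = 4 := rfl
                  omega
              have hX : isX i = true := by
                rw [← pt_le_kap hi g]
                exact (ce_le _ _).1 hlt.le
              have h1 := dd_upper hi2 g (VL_kap hX)
              rw [ph_kap] at h1
              have h2 := all_range chkKT_all hi2
              unfold chkKT at h2
              rw [Bool.and_eq_true, Bool.or_eq_true, beq_iff_eq, beq_iff_eq, hX] at h2
              have h3 := h2.2
              simp only [Bool.not_true, Bool.false_eq_true, false_or] at h3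
              rw [h3] at h1
              exact h1
            · obtain ⟨j, h, hj, rfl⟩ := exists_pt y hy
              exact dd_ce hj h x

/-- `∂² = 0` on every finite convex subset -/
theorem sq_X (S : Finset RE) (hS : ∀ u ∈ S, ∀ w ∈ S, ∀ v, u ≤ v → v ≤ w → v ∈ S) : Sq S EX := by
  intro u hu w hw
  rw [← dd_zero u w, finsum_eq_sum_of_support_subset]
  intro v hv
  have h1 := (EX_ne (left_ne_zero_of_mul hv)).1.le
  have h2 := (EX_ne (right_ne_zero_of_mul hv)).1.le
  exact Finset.mem_coe.2 (hS u hu w hw v h1 h2)

end Pool.Agent.Helper635.PD4.RX
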